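import Pool.Agent.KNT.Stmts

set_option autoImplicit false

open scoped ContDiff ComplexConjugate
open Set

namespace Pool.Agent.KNT

namespace ALB_

theorem alsq (ξ : ℂ) : al ξ ^ 2 = (1 + √(1 - ‖ξ‖ ^ 2)) / 2 := by
  unfold al
  rw [Real.sq_sqrt]
  have := Real.sqrt_nonneg (1 - ‖ξ‖ ^ 2)
  linarith

theorem alpos (ξ : ℂ) : 0 < al ξ := by
  unfold al
  apply Real.sqrt_pos.2
  have := Real.sqrt_nonneg (1 - ‖ξ‖ ^ 2)
  linarith

theorem besq (ξ : ℂ) (h : ‖ξ‖ ≤ 1) : ‖be ξ‖ ^ 2 = (1 - √(1 - ‖ξ‖ ^ 2)) / 2 := by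
  unfold be
  have h1 := alpos ξ
  have h2 := alsq ξ
  have h3 : 0 ≤ 1 - ‖ξ‖ ^ 2 := by nlinarith [norm_nonneg ξ]
  have h4 := Real.sq_sqrt h3
  have h5 := Real.sqrt_nonneg (1 - ‖ξ‖ ^ 2)
  rw [norm_div, norm_mul, Complex.norm_real, Real.norm_of_nonneg h1.le, div_pow, mul_pow, h2]
  set c := √(1 - ‖ξ‖ ^ 2)
  have h6 : ‖ξ‖ ^ 2 = 1 - c ^ 2 := by linarith
  rw [h6]
  have : (1 + c) ≠ 0 := by linarith
  simp only [Complex.norm_ofNat]
  field_simp
  ring

theorem bb0 : bb 0 = 1 := by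
  unfold bb
  simp

theorem bbnn (s : ℝ) : 0 ≤ bb s := Real.smoothTransition.nonneg _

theorem nnarg_pos (X : ℂ) : 0 < ‖X‖ ^ 2 + bb (‖X‖ ^ 2) ^ 2 := by
  by_cases h : X = 0
  · subst h
    simp [bb0]
  · have : 0 < ‖X‖ := norm_pos_iff.2 h
    positivity

theorem cdns : ContDiff ℝ ∞ (fun X : ℂ => ‖X‖ ^ 2) := contDiff_norm_sq ℝ

theorem cdbb : ContDiff ℝ ∞ bb := by
  unfold bb
  exact Real.smoothTransition.contDiff.comp (contDiff_const.sub (contDiff_const.mul contDiff_id))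

theorem cdal : ContDiffOn ℝ ∞ al {ξ | ‖ξ‖ < 1} := by
  unfold al
  have h1 : ContDiffOn ℝ ∞ (fun ξ : ℂ => √(1 - ‖ξ‖ ^ 2)) {ξ | ‖ξ‖ < 1} := by
    refine (contDiff_const.sub cdns).contDiffOn.sqrt ?_
    intro ξ hξ
    have : ‖ξ‖ < 1 := hξ
    have := norm_nonneg ξ
    have : 0 < 1 - ‖ξ‖ ^ 2 := by nlinarith
    exact this.ne'
  refine ContDiffOn.sqrt ((contDiffOn_const.add h1).div_const 2) ?_
  intro ξ _
  have := Real.sqrt_nonneg (1 - ‖ξ‖ ^ 2)
  have : 0 < (1 + √(1 - ‖ξ‖ ^ 2)) / 2 := by linarith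
  exact this.ne'

theorem cdbe : ContDiffOn ℝ ∞ be {ξ | ‖ξ‖ < 1} := by
  unfold be
  simp only [div_eq_mul_inv]
  refine contDiffOn_id.mul (ContDiffOn.inv ?_ ?_)
  · exact contDiffOn_const.mul (Complex.ofRealCLM.contDiff.comp_contDiffOn cdal)
  · intro ξ _
    have := (alpos ξ).ne'
    have : (al ξ : ℂ) ≠ 0 := by exact_mod_cast this
    simpa using this

end ALB_

open ALB_ in
theorem alb_proof : Stmt_ALB := by
  refine ⟨?_, cdal, cdbe, ?_, ?_, ?_, cdbb, ?_, ?_, ?_, ?_⟩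
  · intro ξ h
    refine ⟨alpos ξ, ?_, ?_, ?_⟩
    · rw [alsq, besq ξ h]; ring
    · unfold be
      have := (alpos ξ).ne'
      have : (al ξ : ℂ) ≠ 0 := by exact_mod_cast this
      field_simp
    · rw [alsq, besq ξ h]; ring
  · intro s
    exact ⟨bbnn s, Real.smoothTransition.le_one _⟩
  · intro s hs
    unfold bb
    exact Real.smoothTransition.zero_of_nonpos (by linarith)
  · intro s t hst
    unfold bb
    exact Real.smoothTransition.monotone (by linarith)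
  · intro X
    have := nnarg_pos X
    refine ⟨Real.sqrt_pos.2 this, ?_⟩
    unfold nn
    exact Real.sq_sqrt this.le
  · unfold nn
    exact (cdns.add ((cdbb.comp cdns).pow 2)).sqrt (fun X => (nnarg_pos X).ne')
  · intro X h
    unfold nn
    have : bb (‖X‖ ^ 2) = 0 := by
      unfold bb
      exact Real.smoothTransition.zero_of_nonpos (by nlinarith)
    rw [this]
    simp
  · intro X h
    by_cases h0 : X = 0
    · subst h0; simp
    · have hX : 0 < ‖X‖ := norm_pos_iff.2 h0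
      have hn : nn X ^ 2 = ‖X‖ ^ 2 + bb (‖X‖ ^ 2) ^ 2 := by
        unfold nn
        exact Real.sq_sqrt (nnarg_pos X).le
      rw [norm_div, norm_pow, norm_pow, Complex.norm_real, Real.norm_eq_abs, sq_abs, hn]
      have hp := nnarg_pos X
      rw [div_lt_one hp]
      have := sq_nonneg (bb (‖X‖ ^ 2))
      nlinarith [pow_pos hX 2]

end Pool.Agent.KNT
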