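import Pool.Agent.KNT.Stmts

/-!
# BET: the Bloch vector
-/

set_option autoImplicit false

open scoped ContDiff ComplexConjugate Topology
open Set

namespace Pool.Agent.KNT

namespace BET_

theorem bet_norm (g : ℂ) (m : C3) :
    ‖bet g m‖ ^ 2 = (‖g‖ ^ 2 + ‖m‖ ^ 2) ^ 2 - ‖g ^ 2 - sq m‖ ^ 2 := by
  rw [EuclideanSpace.norm_sq_eq, EuclideanSpace.norm_sq_eq, Fin.sum_univ_three,
    Fin.sum_univ_three, Complex.sq_norm, Complex.sq_norm, Complex.sq_norm, Complex.sq_norm,
    Complex.sq_norm, Real.norm_eq_abs, Real.norm_eq_abs, Real.norm_eq_abs, sq_abs, sq_abs, sq_abs]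
  simp only [bet, sq, Complex.normSq_apply, PiLp.toLp_apply, Matrix.cons_val_zero,
    Matrix.cons_val_one, Matrix.cons_val, Complex.sub_re, Complex.sub_im, Complex.add_re,
    Complex.add_im, pow_two, Complex.mul_re, Complex.mul_im, Complex.conj_re, Complex.conj_im]
  ring

theorem bet_cont : Continuous (fun p : ℂ × C3 => bet p.1 p.2) := by
  have hp : ∀ i : Fin 3, Continuous (fun p : ℂ × C3 => p.2 i) := fun i => by fun_prop
  have hr : ∀ i : Fin 3, Continuous (fun p : ℂ × C3 => (p.2 i).re) := fun i =>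
    Complex.continuous_re.comp (hp i)
  have hi : ∀ i : Fin 3, Continuous (fun p : ℂ × C3 => (p.2 i).im) := fun i =>
    Complex.continuous_im.comp (hp i)
  have hc : ∀ i : Fin 3, Continuous (fun p : ℂ × C3 => (conj p.1 * p.2 i).re) := fun i =>
    Complex.continuous_re.comp ((Complex.continuous_conj.comp continuous_fst).mul (hp i))
  have key : ∀ i j k : Fin 3, Continuous (fun p : ℂ × C3 => 2 * (conj p.1 * p.2 i).re +
      2 * ((p.2 j).re * (p.2 k).im - (p.2 k).re * (p.2 j).im)) := fun i j k =>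
    (continuous_const.mul (hc i)).add
      (continuous_const.mul (((hr j).mul (hi k)).sub ((hr k).mul (hi j))))
  unfold bet
  refine (PiLp.continuous_toLp 2 _).comp (continuous_pi fun i => ?_)
  fin_cases i
  · exact key 0 1 2
  · exact key 1 2 0
  · exact key 2 0 1

theorem nz_cont : ContinuousOn (nz : C4 → C4) {0}ᶜ := by
  have h1 : ContinuousOn (fun z : C4 => ‖z‖⁻¹) {0}ᶜ :=
    (continuous_norm.continuousOn).inv₀ (fun z hz => norm_ne_zero_iff.2 hz)
  have h2 : ContinuousOn (fun z : C4 => z) {0}ᶜ := continuous_id.continuousOn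
  exact h1.smul h2

theorem sq_mm (z : C4) : sq (mm z) = hb z := by
  unfold mm hb h4 sq
  simp only [Matrix.cons_val_zero, Matrix.cons_val_one, Matrix.cons_val]
  ring

theorem mm_cont : ContinuousOn mm {0}ᶜ := by
  have h : Continuous (fun u : C4 => (!₂[2 * u 2 ^ 3, u 3 ^ 3, 4 * u 1 ^ 3] : C3)) := by
    refine (PiLp.continuous_toLp 2 _).comp (continuous_pi fun i => ?_)
    fin_cases i <;> simp <;> fun_prop
  exact h.comp_continuousOn nz_cont

theorem nz_norm {z : C4} (h : ‖z‖ = 1) : nz z = z := by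
  unfold nz
  rw [h, inv_one, one_smul]

theorem mm_ne (T : Tube) (P : C3) (hP : ‖P‖ = 1) : mm (T.ι P) ≠ 0 := by
  intro h
  have hP0 : P ≠ 0 := by
    rintro rfl
    simp at hP
  have h1 : ‖T.ι P‖ = 1 := by rw [T.ι_norm, hP]
  have h2 : gb (T.ι P) = 0 := by
    rw [← T.G_zero P hP0]
    exact T.G_gb P 0 hP0 (by rw [norm_zero]; exact T.δ_pos)
  unfold gb g4 at h2
  unfold mm at h
  rw [nz_norm h1] at h2 h
  have e0 := congrArg (fun v : C3 => v 0) h
  have e1 := congrArg (fun v : C3 => v 1) h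
  have e2 := congrArg (fun v : C3 => v 2) h
  simp only [PiLp.toLp_apply, Matrix.cons_val_zero, Matrix.cons_val_one, Matrix.cons_val,
    PiLp.zero_apply] at e0 e1 e2
  have y2 : T.ι P 2 = 0 := by
    rcases mul_eq_zero.1 e0 with h3 | h3
    · norm_num at h3
    · exact pow_eq_zero_iff (by norm_num) |>.1 h3
  have y3 : T.ι P 3 = 0 := pow_eq_zero_iff (by norm_num) |>.1 e1
  have y1 : T.ι P 1 = 0 := by
    rcases mul_eq_zero.1 e2 with h3 | h3
    · norm_num at h3
    · exact pow_eq_zero_iff (by norm_num) |>.1 h3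
  have y0 : T.ι P 0 = 0 := by
    rw [y1, y2, y3] at h2
    have h3 : T.ι P 0 ^ 3 = 0 := by
      simpa using h2
    exact pow_eq_zero_iff (by norm_num) |>.1 h3
  have h3 : T.ι P = 0 := by
    ext i
    fin_cases i
    · exact y0
    · exact y1
    · exact y2
    · exact y3
  rw [h3, norm_zero] at h1
  exact zero_ne_one h1

theorem lower (T : Tube) : ∃ c : ℝ, 0 < c ∧ ∀ P, ‖P‖ = 1 → c ≤ ‖mm (T.ι P)‖ := by
  have hc : ContinuousOn (fun P => ‖mm (T.ι P)‖) (Metric.sphere (0 : C3) 1) := by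
    have h1 : ContinuousOn T.ι (Metric.sphere (0 : C3) 1) := T.ι_smooth.continuousOn.mono (by
      intro P hP h0
      rw [h0] at hP
      simp at hP)
    refine (mm_cont.comp h1 ?_).norm
    intro P hP h0
    have h2 : ‖T.ι P‖ = 1 := by
      rw [T.ι_norm]
      exact mem_sphere_zero_iff_norm.1 hP
    rw [h0, norm_zero] at h2
    exact zero_ne_one h2
  have hne : (Metric.sphere (0 : C3) 1).Nonempty := NormedSpace.sphere_nonempty.2 zero_le_one
  obtain ⟨Q, hQ, hmin⟩ := (isCompact_sphere (0 : C3) 1).exists_isMinOn hne hc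
  refine ⟨‖mm (T.ι Q)‖, norm_pos_iff.2 (mm_ne T Q (mem_sphere_zero_iff_norm.1 hQ)), ?_⟩
  intro P hP
  exact hmin (mem_sphere_zero_iff_norm.2 hP)

end BET_

open BET_

theorem bet_proof : Stmt_BET :=
  ⟨bet_norm, bet_cont, sq_mm, mm_cont, lower⟩

end Pool.Agent.KNT
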