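import Pool.Agent.KNT.Stmts

/-!
# Squad KNT, module BFR: cables with pattern a regular function
-/

set_option autoImplicit false

open scoped ContDiff ComplexConjugate
open Set Filter Topology Metric

namespace Pool.Agent.KNT

namespace BFR_

theorem cut_contDiff (a b : ℝ) : ContDiff ℝ ∞ (cut a b) := by
  unfold cut
  exact Real.smoothTransition.contDiff.comp ((contDiff_const.sub contDiff_id).div_const _)

theorem cw_contDiff (T : Tube) : ContDiff ℝ ∞ (cw T) := by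
  unfold cw
  exact (cut_contDiff _ _).comp (contDiff_norm_sq ℝ)

theorem cw_nonneg (T : Tube) (w : ℂ) : 0 ≤ cw T w := by
  unfold cw cut
  exact Real.smoothTransition.nonneg _

theorem cw_le_one (T : Tube) (w : ℂ) : cw T w ≤ 1 := by
  unfold cw cut
  exact Real.smoothTransition.le_one _

theorem cw_one (T : Tube) {w : ℂ} (h : ‖w‖ ≤ T.δ / 4) : cw T w = 1 := by
  unfold cw cut
  have hδ := T.δ_pos
  apply Real.smoothTransition.one_of_one_le
  have h1 : ‖w‖ ^ 2 ≤ (T.δ / 4) ^ 2 := by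
    have := norm_nonneg w
    nlinarith
  rw [le_div_iff₀ (by nlinarith)]
  linarith

theorem cw_zero (T : Tube) {w : ℂ} (h : T.δ / 2 ≤ ‖w‖) : cw T w = 0 := by
  unfold cw cut
  have hδ := T.δ_pos
  apply Real.smoothTransition.zero_of_nonpos
  have h1 : (T.δ / 2) ^ 2 ≤ ‖w‖ ^ 2 := by
    nlinarith
  apply div_nonpos_of_nonpos_of_nonneg
  · linarith
  · nlinarith

theorem cw_one_near (T : Tube) {w : ℂ} (h : ‖w‖ < T.δ / 4) : ∀ᶠ v in 𝓝 w, cw T v = 1 := by
  have : ∀ᶠ v in 𝓝 w, ‖v‖ < T.δ / 4 := continuous_norm.continuousAt.eventually_lt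
    continuousAt_const h
  exact this.mono fun v hv => cw_one T hv.le

theorem ofReal_contDiff : ContDiff ℝ ∞ (fun x : ℝ => (x : ℂ)) := Complex.ofRealCLM.contDiff

theorem adm (T : Tube) (S : ℝ → C3 → ℂ) (hS : SFam S) (η : ℝ) :
    Adm T (fun t => BF T η (S t)) := by
  refine ⟨?_, ?_, ?_⟩
  · intro t r hr P w
    simp only [BF]
    rw [hS.hom t r hr P]
  · have h1 : ContDiffOn ℝ ∞ (fun p : ℝ × (C3 × ℂ) => S p.1 p.2.1) {p | p.2.1 ≠ 0} := by
      have h2 : ContDiff ℝ ∞ (fun p : ℝ × (C3 × ℂ) => ((p.1, p.2.1) : ℝ × C3)) :=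
        contDiff_fst.prodMk (contDiff_fst.comp contDiff_snd)
      exact hS.smooth.comp h2.contDiffOn (fun p hp => hp)
    have h3 : ContDiff ℝ ∞ (fun p : ℝ × (C3 × ℂ) => ((cw T p.2.2 : ℝ) : ℂ)) :=
      ofReal_contDiff.comp ((cw_contDiff T).comp (contDiff_snd.comp contDiff_snd))
    have h4 : ContDiff ℝ ∞ (fun p : ℝ × (C3 × ℂ) => p.2.2 ^ 2) :=
      (contDiff_snd.comp contDiff_snd).pow 2
    have h5 : ContDiff ℝ ∞ (fun _ : ℝ × (C3 × ℂ) => (η : ℂ)) := contDiff_const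
    exact h4.contDiffOn.sub (((h5.mul h3).contDiffOn).mul h1)
  · intro t P w _ hw
    simp only [BF]
    rw [cw_zero T hw]
    simp

theorem nz_eq {V : Type} [NormedAddCommGroup V] [NormedSpace ℝ V] {z : V} (hz : z ≠ 0) :
    ‖z‖ • nz z = z := by
  unfold nz
  rw [smul_smul, mul_inv_cancel₀ (norm_ne_zero_iff.2 hz), one_smul]

theorem norm_nz {V : Type} [NormedAddCommGroup V] [NormedSpace ℝ V] {z : V} (hz : z ≠ 0) :
    ‖nz z‖ = 1 := by
  unfold nz
  rw [norm_smul, norm_inv, norm_norm, inv_mul_cancel₀ (norm_ne_zero_iff.2 hz)]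

theorem bound (S : ℝ → C3 → ℂ) (hS : SFam S) :
    ∃ M : ℝ, 0 ≤ M ∧ ∀ t ∈ Icc (0 : ℝ) 1, ∀ P : C3, P ≠ 0 → ‖S t P‖ ≤ M := by
  have hK : IsCompact (Icc (0 : ℝ) 1 ×ˢ sphere (0 : C3) 1) := isCompact_Icc.prod (isCompact_sphere _ _)
  have hc : ContinuousOn (fun p : ℝ × C3 => S p.1 p.2) (Icc (0 : ℝ) 1 ×ˢ sphere (0 : C3) 1) := by
    refine hS.smooth.continuousOn.mono ?_
    rintro ⟨t, P⟩ ⟨_, hP⟩
    simp only [mem_setOf_eq]
    rintro rfl
    simp at hP
  obtain ⟨M, hM⟩ := hK.exists_bound_of_continuousOn hc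
  refine ⟨max M 0, le_max_right _ _, fun t ht P hP => ?_⟩
  have h1 : S t P = S t (nz P) := by
    conv_lhs => rw [← nz_eq hP]
    exact hS.hom t _ (norm_pos_iff.2 hP) _
  rw [h1]
  exact (hM (t, nz P) ⟨ht, by simpa using norm_nz hP⟩).trans (le_max_left _ _)

end BFR_

open BFR_ in
theorem bfr_proof (_hTAU : Stmt_TAU) : Stmt_BFR := by
  intro T S hS hreg
  refine ⟨adm T S hS, ?_⟩
  obtain ⟨M, hM0, hM⟩ := bound S hS
  have hδ := T.δ_pos
  refine ⟨T.δ ^ 2 / (16 * (M + 1)), by positivity, ?_⟩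
  intro η hη hη1 t ht P w hP hz
  have hw : ‖w‖ < T.δ / 4 := by
    by_contra hcon
    push Not at hcon
    have h1 : w ^ 2 = η * cw T w * S t P := sub_eq_zero.1 hz
    have h2 : ‖w‖ ^ 2 = η * cw T w * ‖S t P‖ := by
      rw [← norm_pow, h1, norm_mul, norm_mul, Complex.norm_real, Complex.norm_real,
        Real.norm_of_nonneg hη.le, Real.norm_of_nonneg (cw_nonneg T w)]
    have h3 : η * cw T w * ‖S t P‖ ≤ η * 1 * M := by
      have := cw_nonneg T w
      have := cw_le_one T w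
      have := norm_nonneg (S t P)
      gcongr
      exact hM t ht P hP
    rw [lt_div_iff₀ (by positivity)] at hη1
    nlinarith
  have hev : BF T η (S t) =ᶠ[𝓝 (P, w)] fun p => p.2 ^ 2 - η * S t p.1 := by
    have h1 : ∀ᶠ p : C3 × ℂ in 𝓝 (P, w), cw T p.2 = 1 :=
      (continuous_snd.tendsto (P, w)).eventually (cw_one_near T hw)
    exact h1.mono fun p hp => by simp [BF, hp]
  have hSd : DifferentiableAt ℝ (S t) P := by
    have h1 : ContDiffOn ℝ ∞ (fun z : C3 => ((t, z) : ℝ × C3)) {0}ᶜ :=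
      (contDiff_const.prodMk contDiff_id).contDiffOn
    have h2 : ContDiffOn ℝ ∞ (S t) {0}ᶜ := hS.smooth.comp h1 (fun z hz => hz)
    exact ((h2 P hP).contDiffAt (isOpen_compl_singleton.mem_nhds hP)).differentiableAt (by simp)
  have hd : HasFDerivAt (fun p : C3 × ℂ => p.2 ^ 2 - η * S t p.1)
      (((2 * w) • ContinuousLinearMap.snd ℝ C3 ℂ) -
        (η : ℂ) • (fderiv ℝ (S t) P).comp (ContinuousLinearMap.fst ℝ C3 ℂ)) (P, w) := by
    have h1 : HasFDerivAt (fun p : C3 × ℂ => p.2 ^ 2) ((2 * w) • ContinuousLinearMap.snd ℝ C3 ℂ)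
        (P, w) := by
      have := (hasFDerivAt_snd (𝕜 := ℝ) (E := C3) (F := ℂ) (p := (P, w))).pow 2
      refine this.congr_fderiv ?_
      ext v <;> simp
    have h2 : HasFDerivAt (fun p : C3 × ℂ => S t p.1)
        ((fderiv ℝ (S t) P).comp (ContinuousLinearMap.fst ℝ C3 ℂ)) (P, w) :=
      hSd.hasFDerivAt.comp (P, w) hasFDerivAt_fst
    exact h1.sub (h2.const_mul (η : ℂ))
  rw [(hd.congr_of_eventuallyEq hev).fderiv]
  intro y
  rcases eq_or_ne w 0 with h0 | h0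
  · have hcw : cw T w = 1 := cw_one T hw.le
    have h1 : S t P = 0 := by
      have h2 : w ^ 2 - η * cw T w * S t P = 0 := hz
      rw [hcw, h0] at h2
      have h3 : (η : ℂ) ≠ 0 := Complex.ofReal_ne_zero.2 hη.ne'
      simpa [h3] using h2
    obtain ⟨v, hv⟩ := hreg t ht P hP h1 (-(y / η))
    refine ⟨(v, 0), ?_⟩
    have h3 : (η : ℂ) ≠ 0 := Complex.ofReal_ne_zero.2 hη.ne'
    simp only [ContinuousLinearMap.sub_apply, ContinuousLinearMap.smul_apply,
      ContinuousLinearMap.comp_apply, ContinuousLinearMap.coe_fst', ContinuousLinearMap.coe_snd',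
      hv, smul_eq_mul]
    field_simp
    ring
  · refine ⟨(0, y / (2 * w)), ?_⟩
    simp only [ContinuousLinearMap.sub_apply, ContinuousLinearMap.smul_apply,
      ContinuousLinearMap.comp_apply, ContinuousLinearMap.coe_fst', ContinuousLinearMap.coe_snd',
      map_zero, smul_eq_mul]
    field_simp
    ring

end Pool.Agent.KNT
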