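import Pool.Agent.KNT.Stmts

/-!
# KNT, module BMP: smooth cutoff functions on the sphere
-/

set_option autoImplicit false

open scoped ContDiff ComplexConjugate Manifold
open Set Filter Topology Metric

namespace Pool.Agent.KNT

namespace BMP_

variable {V : Type} [NormedAddCommGroup V] [InnerProductSpace ℝ V]

lemma nz_norm (z : V) (hz : z ≠ 0) : ‖nz z‖ = 1 := by
  rw [nz, norm_smul, Real.norm_eq_abs, abs_of_nonneg (inv_nonneg.mpr (norm_nonneg _)),
    inv_mul_cancel₀ (norm_ne_zero_iff.mpr hz)]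

lemma norm_smul_nz (z : V) (hz : z ≠ 0) : ‖z‖ • nz z = z := by
  rw [nz, smul_smul, mul_inv_cancel₀ (norm_ne_zero_iff.mpr hz), one_smul]

lemma nz_smul (r : ℝ) (hr : 0 < r) (z : V) : nz (r • z) = nz z := by
  rw [nz, nz, norm_smul, Real.norm_eq_abs, abs_of_pos hr, smul_smul, mul_inv_rev,
    mul_assoc, inv_mul_cancel₀ hr.ne', mul_one]

lemma nz_smooth : ContDiffOn ℝ ∞ (fun z : V => nz z) {0}ᶜ := by
  unfold nz
  apply ContDiffOn.smul
  · apply ContDiffOn.inv
    · intro z hz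
      exact (contDiffAt_norm ℝ hz).contDiffWithinAt
    · intro z hz
      exact norm_ne_zero_iff.mpr hz
  · exact contDiffOn_id

end BMP_

open BMP_ in
theorem bmp_proof : Stmt_BMP := by
  intro V _ _ _ K U hKc hKcone hUo hUcone hKU
  have hsc : IsClosed (sphere (0 : V) 1 \ U) := by
    rw [sdiff_eq]
    exact isClosed_sphere.inter hUo.isClosed_compl
  have htc : IsClosed (K ∩ sphere (0 : V) 1) := hKc.inter isClosed_sphere
  have hdis : Disjoint (sphere (0 : V) 1 \ U) (K ∩ sphere (0 : V) 1) := by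
    rw [Set.disjoint_left]
    rintro z ⟨hz, hzU⟩ ⟨hzK, -⟩
    apply hzU
    apply hKU z hzK
    intro h
    rw [h] at hz
    simp at hz
  obtain ⟨f, hf0, hf1, hf01⟩ := exists_contMDiffMap_zero_one_nhds_of_isClosed
    (I := 𝓘(ℝ, V)) (n := (⊤ : ℕ∞)) hsc htc hdis
  have hfs : ContDiff ℝ ∞ (f : V → ℝ) := f.contMDiff.contDiff
  have hcont : ∀ z : V, z ≠ 0 → ContinuousAt (fun z : V => nz z) z := fun z hz =>
    (nz_smooth.continuousOn).continuousAt (isOpen_compl_singleton.mem_nhds hz)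
  refine ⟨fun z => f (nz z), ?_, ?_, ?_, ?_, ?_⟩
  · exact hfs.comp_contDiffOn nz_smooth
  · intro r hr z
    show f (nz (r • z)) = f (nz z)
    rw [nz_smul r hr]
  · intro z
    exact hf01 (nz z)
  · intro z hzK hz0
    have h1 : nz z ∈ K ∩ sphere (0 : V) 1 := by
      refine ⟨?_, by simpa using nz_norm z hz0⟩
      exact hKcone _ (inv_pos.mpr (norm_pos_iff.mpr hz0)) z hzK
    have h2 : ∀ᶠ x in 𝓝 (nz z), f x = 1 := hf1.filter_mono (nhds_le_nhdsSet h1)
    exact (hcont z hz0).eventually h2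
  · intro z hz0 hzU
    have h1 : nz z ∈ sphere (0 : V) 1 \ U := by
      refine ⟨by simpa using nz_norm z hz0, ?_⟩
      intro h
      apply hzU
      rw [← norm_smul_nz z hz0]
      exact hUcone _ (norm_pos_iff.mpr hz0) _ h
    have h2 : ∀ᶠ x in 𝓝 (nz z), f x = 0 := hf0.filter_mono (nhds_le_nhdsSet h1)
    exact (hcont z hz0).eventually h2

end Pool.Agent.KNT
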