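import Pool.Agent.KNT.Stmts

set_option autoImplicit false

open scoped ContDiff ComplexConjugate Topology
open Set Metric

namespace Pool.Agent.KNT

namespace BNZ_

lemma unif (T : Tube) {X : Type} [PseudoMetricSpace X] (Φ : C3 × ℂ → X)
    (hΦ : ContinuousOn Φ {p | p.1 ≠ 0 ∧ ‖p.2‖ < T.δ}) (ε : ℝ) (hε : 0 < ε) :
    ∃ ρ : ℝ, 0 < ρ ∧ ∀ P w, ‖P‖ = 1 → ‖w‖ < T.δ / 4 → ‖w‖ < ρ →
      dist (Φ (P, w)) (Φ (P, 0)) < ε := by
  have hδ := T.δ_pos
  have hK : IsCompact (sphere (0 : C3) 1 ×ˢ closedBall (0 : ℂ) (T.δ / 2)) :=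
    (isCompact_sphere _ _).prod (isCompact_closedBall _ _)
  have hc : ContinuousOn Φ (sphere (0 : C3) 1 ×ˢ closedBall (0 : ℂ) (T.δ / 2)) := by
    apply hΦ.mono
    rintro ⟨P, w⟩ ⟨hP, hw⟩
    simp only [mem_sphere_iff_norm, sub_zero, mem_closedBall] at hP hw
    rw [dist_zero_right] at hw
    refine ⟨?_, by linarith⟩
    intro h
    simp only at h
    rw [h, norm_zero] at hP
    exact zero_ne_one hP
  have hu := hK.uniformContinuousOn_of_continuous hc
  rw [Metric.uniformContinuousOn_iff] at hu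
  obtain ⟨ρ, hρ, h⟩ := hu ε hε
  refine ⟨ρ, hρ, fun P w hP hw hw2 => h (P, w) ⟨?_, ?_⟩ (P, 0) ⟨?_, ?_⟩ ?_⟩
  · simpa using hP
  · simp only [mem_closedBall, dist_zero_right]
    linarith
  · simpa using hP
  · simp only [mem_closedBall, dist_self]
    linarith
  · rw [Prod.dist_eq]
    simp only [dist_self, dist_zero_right]
    exact max_lt hρ hw2

lemma cont_sq : Continuous sq := by
  unfold sq
  fun_prop

lemma inner_pos {β β₀ : R3} (h : ‖β - β₀‖ < ‖β₀‖) : 0 < inner ℝ β β₀ := by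
  have h0 : 0 < ‖β₀‖ := lt_of_le_of_lt (norm_nonneg _) h
  have h1 : inner ℝ β β₀ = ‖β₀‖ ^ 2 + inner ℝ (β - β₀) β₀ := by
    rw [inner_sub_left, real_inner_self_eq_norm_sq]
    ring
  have h2 := abs_real_inner_le_norm (β - β₀) β₀
  have h3 := (abs_le.1 h2).1
  nlinarith

end BNZ_

open BNZ_ in
theorem bnz_proof (hBET : Stmt_BET) (hTAU : Stmt_TAU) (hKKB : Stmt_KKB) (hSRG : Stmt_SRG) :
    Stmt_BNZ := by
  intro T A
  obtain ⟨hb1, hb2, hb3, hb4, hb5⟩ := hBET
  obtain ⟨t1, t2, t3, t4, t5, t6, t7, t8, t9, t10, t11, t12, t13, t14, t15⟩ := hTAU T A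
  obtain ⟨c, hc, hcm⟩ := hb5 T
  have hδ := T.δ_pos
  have hsT : ContinuousOn (sT T) {0}ᶜ := (hSRG T).smooth.continuousOn
  have hLf : ContinuousOn (Lf A) {0}ᶜ := t4.smooth.continuousOn
  have hne : ∀ P : C3, ‖P‖ = 1 → P ≠ 0 := by
    intro P hP h
    rw [h, norm_zero] at hP
    exact zero_ne_one hP
  have hq0 : A.q ≠ 0 := hne _ A.nq
  obtain ⟨M, hM⟩ := (isCompact_sphere (0 : C3) 1).exists_bound_of_continuousOn
    (f := sT T) (hsT.mono (by
      intro P hP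
      exact hne P (by simpa using hP)))
  have hM' : ∀ P : C3, ‖P‖ = 1 → ‖sT T P‖ ≤ M := fun P hP => hM P (by simpa using hP)
  have hM0 : 0 ≤ M := le_trans (norm_nonneg _) (hM' A.q A.nq)
  have hG : ContinuousOn T.G {p | p.1 ≠ 0 ∧ ‖p.2‖ < T.δ} := T.G_smooth.continuousOn
  have hG0 : MapsTo T.G {p | p.1 ≠ 0 ∧ ‖p.2‖ < T.δ} {0}ᶜ := by
    rintro ⟨P, w⟩ ⟨hP, hw⟩ h
    have := T.G_norm P w hP hw
    rw [mem_singleton_iff.1 h, norm_zero] at this
    exact hP (norm_eq_zero.1 this.symm)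
  have hmG : ContinuousOn (fun p => mm (T.G p)) {p | p.1 ≠ 0 ∧ ‖p.2‖ < T.δ} := hb4.comp hG hG0
  have hhG : ContinuousOn (fun p => hb (T.G p)) {p | p.1 ≠ 0 ∧ ‖p.2‖ < T.δ} := by
    have : (fun p => hb (T.G p)) = fun p => sq (mm (T.G p)) := by
      funext p
      rw [hb3]
    rw [this]
    exact cont_sq.comp_continuousOn hmG
  -- the constant vector
  set β₀ := bet 0 (mm (T.ι A.q)) with hβ₀
  have hβn : 0 < ‖β₀‖ := by
    have h1 := hb1 0 (mm (T.ι A.q))
    have h2 : sq (mm (T.ι A.q)) = 0 := by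
      rw [hb3]
      exact A.s_q
    rw [h2] at h1
    simp only [norm_zero, ne_eq, OfNat.ofNat_ne_zero, not_false_eq_true, zero_pow, zero_add,
      sub_zero] at h1
    have h3 := hcm A.q A.nq
    have h4 : 0 < ‖mm (T.ι A.q)‖ := lt_of_lt_of_le hc h3
    by_contra h5
    have h6 : ‖β₀‖ = 0 := le_antisymm (not_lt.1 h5) (norm_nonneg _)
    rw [← hβ₀, h6] at h1
    have : 0 < (‖mm (T.ι A.q)‖ ^ 2) ^ 2 := by positivity
    linarith
  obtain ⟨e, he, hbe⟩ := Metric.continuous_iff.1 hb2 ((0 : ℂ), mm (T.ι A.q)) ‖β₀‖ hβn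
  -- uniform closeness
  obtain ⟨ρ₁, hρ₁, hu1⟩ := unif T _ hmG (min (c / 2) (e / 2)) (by positivity)
  obtain ⟨ρ₂, hρ₂, hu2⟩ := unif T _ hhG (c ^ 2 / 8) (by positivity)
  -- closeness near `q`
  set ε := min (c ^ 2 / 208) (e ^ 2 / 24) with hε
  have hε0 : 0 < ε := by positivity
  have cs := Metric.continuousAt_iff.1 (hsT.continuousAt (isOpen_compl_singleton.mem_nhds hq0)) ε hε0
  have cl := Metric.continuousAt_iff.1 (hLf.continuousAt (isOpen_compl_singleton.mem_nhds hq0)) ε hε0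
  have hmι : ContinuousOn (fun P => mm (T.ι P)) {0}ᶜ := by
    refine hb4.comp T.ι_smooth.continuousOn ?_
    intro P hP h
    have := T.ι_norm P
    rw [mem_singleton_iff.1 h, norm_zero] at this
    exact hP (norm_eq_zero.1 this.symm)
  have cm := Metric.continuousAt_iff.1 (hmι.continuousAt (isOpen_compl_singleton.mem_nhds hq0))
    (e / 2) (by positivity)
  obtain ⟨r₁, hr₁, cs⟩ := cs
  obtain ⟨r₂, hr₂, cl⟩ := cl
  obtain ⟨r₃, hr₃, cm⟩ := cm
  rw [A.s_q] at cs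
  rw [t6] at cl
  simp only [dist_zero_right] at cs cl
  set r := min r₁ (min r₂ r₃) with hr
  have hr0 : 0 < r := by positivity
  -- bounds for s2
  have hs1 : ∀ l : ℝ, ∀ P : C3, ‖s1 A l 1 P‖ ≤ 2 * ‖sT T P‖ + ‖Lf A P‖ := by
    intro l P
    unfold s1
    obtain ⟨-, -, -, hcut⟩ := t14 64 128 (by norm_num)
    obtain ⟨c0, c1⟩ := hcut (l ^ 2 * tau A P)
    have h1 : ‖((1 : ℝ) : ℂ) * (cut 64 128 (l ^ 2 * tau A P) : ℂ) * (Lf A P - sT T P)‖ ≤
        ‖Lf A P‖ + ‖sT T P‖ := by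
      rw [norm_mul, norm_mul, Complex.norm_real, Complex.norm_real, Real.norm_of_nonneg c0,
        Real.norm_of_nonneg zero_le_one, one_mul]
      calc cut 64 128 (l ^ 2 * tau A P) * ‖Lf A P - sT T P‖ ≤ 1 * ‖Lf A P - sT T P‖ :=
            mul_le_mul_of_nonneg_right c1 (norm_nonneg _)
        _ = ‖Lf A P - sT T P‖ := one_mul _
        _ ≤ _ := norm_sub_le _ _
    calc _ ≤ ‖sT T P‖ + _ := norm_add_le _ _
      _ ≤ _ := by linarith
  have hs2 : ∀ l : ℝ, ∀ P : C3, ‖s2 A l P‖ ≤ 4 * (2 * ‖sT T P‖ + ‖Lf A P‖) := by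
    intro l P
    unfold s2
    rw [norm_mul, Complex.norm_real, Real.norm_of_nonneg (t10 _).le]
    exact mul_le_mul (t13 _) (hs1 l P) (norm_nonneg _) (by norm_num)
  have hs2M : ∀ l : ℝ, ∀ P : C3, ‖P‖ = 1 → ‖s2 A l P‖ ≤ 4 * (2 * M + A.C) := by
    intro l P hP
    have h1 := hs2 l P
    have h2 := hM' P hP
    have h3 := t5 P
    linarith
  -- choice of l₀
  refine ⟨max 2 (16 / r + 1), le_max_left _ _, fun l hl => ?_⟩
  have hl2 : 2 ≤ l := le_trans (le_max_left _ _) hl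
  have hlr : 16 / r < l := by
    have := le_trans (le_max_right _ _) hl
    linarith
  have hlr' : 16 < l * r := by
    rwa [div_lt_iff₀ hr0] at hlr
  -- points near q
  have near : ∀ P : C3, ‖P‖ = 1 → l ^ 2 * tau A P < 128 → dist P A.q < r := by
    intro P hP h
    obtain ⟨-, -, h3⟩ := t1 P (hne P hP)
    have h4 : nz P = P := by
      unfold nz
      rw [hP, inv_one, one_smul]
    rw [h4] at h3
    rw [h3] at h
    rw [dist_eq_norm]
    by_contra h5
    rw [not_lt] at h5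
    have h6 : (l * r) ^ 2 ≤ (l * ‖P - A.q‖) ^ 2 := by
      apply pow_le_pow_left₀ (by positivity)
      exact mul_le_mul_of_nonneg_left h5 (by linarith)
    nlinarith
  have ns : ∀ P : C3, dist P A.q < r → ‖sT T P‖ < ε ∧ ‖Lf A P‖ < ε ∧
      dist (mm (T.ι P)) (mm (T.ι A.q)) < e / 2 := by
    intro P h
    exact ⟨cs (lt_of_lt_of_le h (min_le_left _ _)),
      cl (lt_of_lt_of_le h (le_trans (min_le_right _ _) (min_le_left _ _))),
      cm (lt_of_lt_of_le h (le_trans (min_le_right _ _) (min_le_right _ _)))⟩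
  have hd : 0 < dd T := by
    unfold dd
    positivity
  set N := 4 * (2 * M + A.C) + 1 with hN
  have hN0 : 0 < N := by
    have := A.C_pos
    positivity
  set ρ := min ρ₁ (min ρ₂ (dd T / 2)) with hρ
  have hρ0 : 0 < ρ := by positivity
  refine ⟨ρ ^ 2 / N, by positivity, fun η hη hη1 P w hP hw hws => ?_⟩
  rw [lt_div_iff₀ hN0] at hη1
  have hwn : ‖w‖ ^ 2 = η * ‖s2 A l P‖ := by
    rw [← norm_pow, hws, norm_mul, Complex.norm_real, Real.norm_of_nonneg hη.le]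
  have hwρ : ‖w‖ < ρ := by
    have h1 := hs2M l P hP
    have h2 : ‖w‖ ^ 2 < ρ ^ 2 := by
      rw [hwn]
      nlinarith
    exact lt_of_pow_lt_pow_left₀ 2 hρ0.le h2
  have hwρ1 : ‖w‖ < ρ₁ := lt_of_lt_of_le hwρ (min_le_left _ _)
  have hwρ2 : ‖w‖ < ρ₂ := lt_of_lt_of_le hwρ (le_trans (min_le_right _ _) (min_le_left _ _))
  have hwd : ‖w‖ < dd T / 2 := lt_of_lt_of_le hwρ (le_trans (min_le_right _ _) (min_le_right _ _))
  have u1 := hu1 P w hP hw hwρ1
  have u2 := hu2 P w hP hw hwρ2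
  simp only [T.G_zero P (hne P hP)] at u1 u2
  have hg2 : (w / (√η : ℝ)) ^ 2 = s2 A l P := by
    rw [div_pow, hws, ← Complex.ofReal_pow, Real.sq_sqrt hη.le]
    have : (η : ℂ) ≠ 0 := by exact_mod_cast hη.ne'
    field_simp
  constructor
  · intro h0
    have h1 := hb1 (w / (√η : ℝ)) (mm (T.G (P, w)))
    rw [h0, norm_zero, hg2, hb3] at h1
    have h2 : c / 2 ≤ ‖mm (T.G (P, w))‖ := by
      have h3 := hcm P hP
      have h4 : dist (mm (T.G (P, w))) (mm (T.ι P)) < c / 2 := lt_of_lt_of_le u1 (min_le_left _ _)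
      rw [dist_eq_norm] at h4
      have h5 := norm_sub_norm_le (mm (T.ι P)) (mm (T.G (P, w)))
      rw [norm_sub_rev] at h5
      linarith
    have h3 : ‖s2 A l P - sT T P‖ ≤ 13 * ε := by
      by_cases h : l ^ 2 * tau A P < 128
      · obtain ⟨a1, a2, -⟩ := ns P (near P hP h)
        have a3 := hs2 l P
        have a4 := norm_sub_le (s2 A l P) (sT T P)
        linarith
      · rw [not_lt] at h
        have a1 : s2 A l P = sT T P := by
          unfold s2 s1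
          rw [t12 _ (by linarith), (t14 64 128 (by norm_num)).2.2.1 _ h]
          simp
        rw [a1, sub_self, norm_zero]
        positivity
    have h4 : ‖s2 A l P - hb (T.G (P, w))‖ < c ^ 2 / 4 := by
      have a1 : ‖sT T P - hb (T.G (P, w))‖ < c ^ 2 / 8 := by
        rw [dist_comm, dist_eq_norm] at u2
        exact u2
      have a2 : s2 A l P - hb (T.G (P, w)) = (s2 A l P - sT T P) + (sT T P - hb (T.G (P, w))) := by
        ring
      have a3 := norm_add_le (s2 A l P - sT T P) (sT T P - hb (T.G (P, w)))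
      rw [← a2] at a3
      have a4 : ε ≤ c ^ 2 / 208 := min_le_left _ _
      linarith
    have h5 : c ^ 2 / 4 ≤ ‖w / (√η : ℝ)‖ ^ 2 + ‖mm (T.G (P, w))‖ ^ 2 := by
      have := sq_nonneg ‖w / (√η : ℝ)‖
      nlinarith
    have h6 := norm_nonneg (s2 A l P - hb (T.G (P, w)))
    have h7 : ‖s2 A l P - hb (T.G (P, w))‖ ^ 2 < (‖w / (√η : ℝ)‖ ^ 2 + ‖mm (T.G (P, w))‖ ^ 2) ^ 2 :=
      pow_lt_pow_left₀ (lt_of_lt_of_le h4 h5) h6 (by norm_num)
    linarith
  · intro hk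
    obtain ⟨-, -, k3, -⟩ := hKKB T A l hl2
    have h1 : l ^ 2 * tau A P < 32 := by
      by_contra h
      rw [not_lt] at h
      have := k3 P w (hne P hP) hk h
      have h2 := norm_nonneg w
      nlinarith
    obtain ⟨a1, a2, a3⟩ := ns P (near P hP (by linarith))
    apply inner_pos
    rw [← dist_eq_norm]
    apply hbe (w / (√η : ℝ), mm (T.G (P, w)))
    rw [Prod.dist_eq]
    apply max_lt
    · simp only [dist_zero_right]
      have b1 := hs2 l P
      rw [← hg2, norm_pow] at b1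
      have b2 : ε ≤ e ^ 2 / 24 := min_le_right _ _
      have b3 : ‖w / (√η : ℝ)‖ ^ 2 < e ^ 2 := by nlinarith
      exact lt_of_pow_lt_pow_left₀ 2 he.le b3
    · simp only
      have b1 : dist (mm (T.G (P, w))) (mm (T.ι P)) < e / 2 := lt_of_lt_of_le u1 (min_le_right _ _)
      have b2 := dist_triangle (mm (T.G (P, w))) (mm (T.ι P)) (mm (T.ι A.q))
      linarith

end Pool.Agent.KNT
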