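import Pool.Agent.KNT.Stmts
import Pool.Agent.SD.LBC

/-!
# Squad KNT, module BRW: a consequence of Brouwer's theorem
-/

set_option autoImplicit false

open scoped ContDiff ComplexConjugate
open Set Filter Topology Metric

namespace Pool.Agent.KNT

theorem brw_proof : Stmt_BRW := by
  intro W _ _ _ t L htc htn
  by_contra hno
  push Not at hno
  let _ : MeasurableSpace W := borel W
  have : BorelSpace W := ⟨rfl⟩
  set ρ : W → W := fun x => (max 1 ‖x‖)⁻¹ • x with hρ
  have hmax : ∀ x : W, 0 < max 1 ‖x‖ := fun x => lt_of_lt_of_le one_pos (le_max_left _ _)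
  have hρc : Continuous ρ := by
    apply Continuous.smul _ continuous_id
    exact (continuous_const.max continuous_norm).inv₀ (fun x => (hmax x).ne')
  have hρb : ∀ x, ρ x ∈ closedBall (0 : W) 1 := by
    intro x
    rw [mem_closedBall_zero_iff, hρ]
    simp only
    rw [norm_smul, norm_inv, Real.norm_of_nonneg (hmax x).le, inv_mul_le_iff₀ (hmax x), mul_one]
    exact le_max_right _ _
  have hρ1 : ∀ x, ‖x‖ ≤ 1 → ρ x = x := by
    intro x hx
    rw [hρ]; simp only
    rw [max_eq_left hx]; simp
  have hρ2 : ∀ x, 1 ≤ ‖x‖ → ‖ρ x‖ = 1 ∧ ‖x‖ • ρ x = x := by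
    intro x hx
    have hx0 : ‖x‖ ≠ 0 := by linarith
    rw [hρ]; simp only
    rw [max_eq_right hx]
    refine ⟨?_, ?_⟩
    · rw [norm_smul, norm_inv, norm_norm, inv_mul_cancel₀ hx0]
    · rw [smul_smul, mul_inv_cancel₀ hx0, one_smul]
  set f : W → W := fun x => L.symm (t (ρ x)) + (max (‖x‖ - 1) 0) • ρ x with hf
  have htρ : Continuous (fun x => t (ρ x)) := htc.comp_continuous hρc hρb
  have hfc : Continuous f := by
    apply Continuous.add
    · exact L.symm.continuous.comp htρ
    · exact ((continuous_norm.sub continuous_const).max continuous_const).smul hρc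
  have hTn : ∀ x, ‖L.symm (t (ρ x))‖ = 1 := by
    intro x
    rw [LinearIsometryEquiv.norm_map]
    exact htn _ (hρb x)
  obtain ⟨x, hx⟩ := Pool.Agent.SD.LBC.exists_zero f hfc 2 (by
    intro x
    rcases le_total ‖x‖ 1 with h | h
    · have h1 : f x = L.symm (t (ρ x)) := by
        simp only [hf]
        rw [max_eq_right (by linarith), zero_smul, add_zero]
      rw [h1]
      calc _ ≤ ‖L.symm (t (ρ x))‖ + ‖x‖ := norm_sub_le _ _
        _ ≤ 1 + 1 := by rw [hTn x]; linarith
        _ = 2 := by norm_num
    · obtain ⟨h2, h3⟩ := hρ2 x h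
      have h1 : f x - x = L.symm (t (ρ x)) - ρ x := by
        simp only [hf]
        rw [max_eq_left (by linarith), sub_smul, one_smul, h3]
        abel
      rw [h1]
      calc _ ≤ ‖L.symm (t (ρ x))‖ + ‖ρ x‖ := norm_sub_le _ _
        _ = 2 := by rw [hTn x, h2]; norm_num)
  rcases le_or_gt ‖x‖ 1 with h | h
  · have h1 : f x = L.symm (t (ρ x)) := by
      simp only [hf]
      rw [max_eq_right (by linarith), zero_smul, add_zero]
    rw [h1] at hx
    have := hTn x
    rw [hx] at this
    simp at this
  · obtain ⟨h2, -⟩ := hρ2 x h.le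
    have h4 : L.symm (t (ρ x)) = -((‖x‖ - 1) • ρ x) := by
      have : f x = L.symm (t (ρ x)) + (‖x‖ - 1) • ρ x := by
        simp only [hf]
        rw [max_eq_left (by linarith)]
      rw [this] at hx
      exact eq_neg_of_add_eq_zero_left hx
    have h5 := hTn x
    rw [h4, norm_neg, norm_smul, h2, mul_one, Real.norm_of_nonneg (by linarith)] at h5
    rw [h5, one_smul] at h4
    apply hno (ρ x) h2
    have h6 := congrArg L h4
    rw [L.apply_symm_apply, map_neg] at h6
    exact h6

end Pool.Agent.KNT
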