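import Pool.Agent.KNT.Stmts

set_option autoImplicit false

open scoped ContDiff ComplexConjugate
open Set

namespace Pool.Agent.KNT

namespace CHS_

variable {T : Tube} (A : Fr T)

section tools

variable {E' : Type} [NormedAddCommGroup E'] [NormedSpace ℝ E'] {x : E'}

theorem ofR {f : E' → ℝ} (hf : ContDiffAt ℝ ∞ f x) :
    ContDiffAt ℝ ∞ (fun z => ((f z : ℝ) : ℂ)) x :=
  Complex.ofRealCLM.contDiff.contDiffAt.comp x hf

theorem reR {f : E' → ℂ} (hf : ContDiffAt ℝ ∞ f x) : ContDiffAt ℝ ∞ (fun z => (f z).re) x :=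
  Complex.reCLM.contDiff.contDiffAt.comp x hf

theorem imR {f : E' → ℂ} (hf : ContDiffAt ℝ ∞ f x) : ContDiffAt ℝ ∞ (fun z => (f z).im) x :=
  Complex.imCLM.contDiff.contDiffAt.comp x hf

theorem cjR {f : E' → ℂ} (hf : ContDiffAt ℝ ∞ f x) : ContDiffAt ℝ ∞ (fun z => conj (f z)) x :=
  Complex.conjCLE.toContinuousLinearMap.contDiff.contDiffAt.comp x hf

theorem smV {f : E' → ℂ} (hf : ContDiffAt ℝ ∞ f x) (v : C3) :
    ContDiffAt ℝ ∞ (fun z => f z • v) x :=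
  (((ContinuousLinearMap.toSpanSingleton ℂ v).restrictScalars ℝ).contDiff.contDiffAt.comp x hf)

theorem inR {f : E' → C3} (hf : ContDiffAt ℝ ∞ f x) (v : C3) :
    ContDiffAt ℝ ∞ (fun z => (inner ℂ v (f z) : ℂ)) x :=
  (((innerSL ℂ v).restrictScalars ℝ).contDiff.contDiffAt.comp x hf)

theorem nzR {z : C4} (hz : z ≠ 0) : ContDiffAt ℝ ∞ (nz : C4 → C4) z :=
  ((contDiffAt_norm ℝ hz).inv (norm_ne_zero_iff.2 hz)).smul contDiffAt_id

theorem coR {f : E' → C4} (hf : ContDiffAt ℝ ∞ f x) (i : Fin 4) :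
    ContDiffAt ℝ ∞ (fun z => (f z) i) x :=
  ((((EuclideanSpace.proj i : C4 →L[ℂ] ℂ)).restrictScalars ℝ).contDiff.contDiffAt.comp x hf)

theorem mk4R {f0 f1 f2 f3 : E' → ℂ} (h0 : ContDiffAt ℝ ∞ f0 x) (h1 : ContDiffAt ℝ ∞ f1 x)
    (h2 : ContDiffAt ℝ ∞ f2 x) (h3 : ContDiffAt ℝ ∞ f3 x) :
    ContDiffAt ℝ ∞ (fun z => (!₂[f0 z, f1 z, f2 z, f3 z] : C4)) x := by
  have h : ContDiffAt ℝ ∞ (fun z => (![f0 z, f1 z, f2 z, f3 z] : Fin 4 → ℂ)) x := by
    rw [contDiffAt_pi]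
    intro i
    fin_cases i
    · exact h0
    · exact h1
    · exact h2
    · exact h3
  exact (PiLp.continuousLinearEquiv 2 ℝ
    (fun _ : Fin 4 => ℂ)).symm.toContinuousLinearMap.contDiff.contDiffAt.comp x h

theorem divR {f g : E' → ℂ} (hf : ContDiffAt ℝ ∞ f x) (hg : ContDiffAt ℝ ∞ g x)
    (h0 : g x ≠ 0) : ContDiffAt ℝ ∞ (fun z => f z / g z) x := by
  simp only [div_eq_mul_inv]
  exact hf.mul (hg.inv h0)

end tools

theorem nz_norm {z : C4} (hz : z ≠ 0) : ‖nz z‖ = 1 := by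
  rw [nz, norm_smul, norm_inv, norm_norm, inv_mul_cancel₀ (norm_ne_zero_iff.2 hz)]

theorem nz_apply (z : C4) (i : Fin 4) : (nz z) i = (‖z‖⁻¹ : ℝ) * z i := by
  rw [nz, PiLp.smul_apply]; rfl

theorem nz_smul (z : C4) {r : ℝ} (hr : 0 < r) : nz (r • z) = nz z := by
  unfold nz
  rw [norm_smul, Real.norm_of_nonneg hr.le, smul_smul, mul_inv, mul_assoc, mul_comm _ r,
    ← mul_assoc, inv_mul_cancel₀ hr.ne', one_mul]

theorem ne0 {z : C4} (h : (z 3).re < ‖z‖) : z ≠ 0 := by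
  rintro rfl
  simp at h

theorem D_pos {z : C4} (h : (z 3).re < ‖z‖) : 0 < Dq (nz z) := by
  have h0 : 0 < ‖z‖ := norm_pos_iff.2 (ne0 h)
  have h1 : ((nz z) 3).re = ‖z‖⁻¹ * (z 3).re := by
    rw [nz_apply, Complex.re_ofReal_mul]
  have h2 : ‖z‖⁻¹ * (z 3).re < 1 := by
    rw [inv_mul_lt_iff₀ h0, mul_one]; exact h
  unfold Dq
  rw [h1]; linarith

theorem M_pos {l : ℝ} {u : C4} (hD : 0 < Dq u) : 0 < l ^ 2 * Aq u + Dq u ^ 2 := by
  have : 0 ≤ Aq u := by unfold Aq; positivity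
  positivity

theorem Sm_smooth (ε l : ℝ) {z : C4} (h : (z 3).re < ‖z‖) : ContDiffAt ℝ ∞ (Sm A ε l) z := by
  have hz := ne0 h
  have hD := D_pos h
  have hM := M_pos (l := l) hD
  have hn := nzR hz
  have c0 := coR hn 0
  have c1 := coR hn 1
  have c2 := coR hn 2
  have c3 := coR hn 3
  have i3 := imR c3
  have dD : ContDiffAt ℝ ∞ (fun z : C4 => Dq (nz z)) z := contDiffAt_const.sub (reR c3)
  have dA : ContDiffAt ℝ ∞ (fun z : C4 => Aq (nz z)) z :=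
    ((c0.norm_sq ℝ).add (c1.norm_sq ℝ)).add (i3.pow 2)
  have dM : ContDiffAt ℝ ∞ (fun z : C4 => l ^ 2 * Aq (nz z) + Dq (nz z) ^ 2) z :=
    (contDiffAt_const.mul dA).add (dD.pow 2)
  have dMi := dM.inv hM.ne'
  have n1 := contDiffAt_norm ℝ hz (n := ∞)
  have a0 : ContDiffAt ℝ ∞ (fun z : C4 => (2 * l * Dq (nz z) * conj ((nz z) 0) : ℂ)) z :=
    (contDiffAt_const.mul (ofR dD)).mul (cjR c0)
  have a1 : ContDiffAt ℝ ∞ (fun z : C4 => (2 * l * Dq (nz z) * (nz z) 1 : ℂ)) z :=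
    (contDiffAt_const.mul (ofR dD)).mul c1
  have aq : ContDiffAt ℝ ∞ (fun z : C4 => (2 * Complex.I * ε * l * Dq (nz z) * ((nz z) 3).im +
      l ^ 2 * Aq (nz z) - Dq (nz z) ^ 2 : ℂ)) z :=
    (((contDiffAt_const.mul (ofR dD)).mul (ofR i3)).add (contDiffAt_const.mul (ofR dA))).sub
      ((ofR dD).pow 2)
  have hs : ContDiffAt ℝ ∞ (fun z : C4 => sig A ε l (nz z)) z :=
    dMi.smul (((smV a0 A.n0).add (smV a1 A.n1)).add (smV aq A.q))
  have hw : ContDiffAt ℝ ∞ (fun z : C4 => (dd T * (nz z) 2 / Dq (nz z) : ℂ)) z := by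
    have hD' : ((Dq (nz z) : ℝ) : ℂ) ≠ 0 := by exact_mod_cast hD.ne'
    exact divR (contDiffAt_const.mul c2) (ofR dD) hD'
  exact (n1.smul hs).prodMk hw

theorem kden_pos {l : ℝ} (hl : 2 ≤ l) {p : C3 × ℂ} (h0 : 0 ≤ tau A p.1) :
    2 ≤ kden A l p := by
  have h3 : 0 ≤ (l ^ 2 - 1) * tau A p.1 := mul_nonneg (by nlinarith) h0
  have h4 : 0 ≤ l ^ 2 * tau A p.1 * (‖p.2‖ ^ 2 / dd T ^ 2) := by positivity
  unfold kden
  nlinarith

theorem Si_smooth {ε l : ℝ} (hl : 2 ≤ l) {p : C3 × ℂ} (hp : p.1 ≠ 0) (h0 : 0 ≤ tau A p.1)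
    (ht : ContDiffAt ℝ ∞ (tau A) p.1) : ContDiffAt ℝ ∞ (Si A ε l) p := by
  have hk := kden_pos A hl h0
  have hk0 : 0 < kden A l p := by linarith
  have hf : ContDiffAt ℝ ∞ (fun p : C3 × ℂ => p.1) p := contDiffAt_fst
  have hg : ContDiffAt ℝ ∞ (fun p : C3 × ℂ => p.2) p := contDiffAt_snd
  have n1 : ContDiffAt ℝ ∞ (fun p : C3 × ℂ => ‖p.1‖) p := (contDiffAt_norm ℝ hp).comp p hf
  have t1 : ContDiffAt ℝ ∞ (fun p : C3 × ℂ => tau A p.1) p := ht.comp p hf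
  have dk : ContDiffAt ℝ ∞ (kden A l) p :=
    (((contDiffAt_const.mul t1).add contDiffAt_const).sub t1).add
      ((contDiffAt_const.mul t1).mul ((hg.norm_sq ℝ).div_const _))
  have dkk : ContDiffAt ℝ ∞ (kk A l) p := (contDiffAt_const.mul t1).div dk hk0.ne'
  have hn' : ((‖p.1‖ : ℝ) : ℂ) ≠ 0 := by exact_mod_cast norm_ne_zero_iff.2 hp
  have hk' : ((kden A l p : ℝ) : ℂ) ≠ 0 := by exact_mod_cast hk0.ne'
  have dlk : ContDiffAt ℝ ∞ (fun p : C3 × ℂ => (l / kden A l p : ℂ)) p :=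
    divR contDiffAt_const (ofR dk) hk'
  have b0 : ContDiffAt ℝ ∞ (fun p : C3 × ℂ =>
      (2 * (l / kden A l p) * conj (inner ℂ A.n0 p.1) / ‖p.1‖ : ℂ)) p :=
    divR ((contDiffAt_const.mul dlk).mul (cjR (inR hf A.n0))) (ofR n1) hn'
  have b1 : ContDiffAt ℝ ∞ (fun p : C3 × ℂ =>
      (2 * (l / kden A l p) * inner ℂ A.n1 p.1 / ‖p.1‖ : ℂ)) p :=
    divR ((contDiffAt_const.mul dlk).mul (inR hf A.n1)) (ofR n1) hn'
  have b2 : ContDiffAt ℝ ∞ (fun p : C3 × ℂ => (2 * kk A l p * (p.2 / dd T) : ℂ)) p :=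
    (contDiffAt_const.mul (ofR dkk)).mul (divR hg contDiffAt_const (by
      have := T.δ_pos
      have : (dd T : ℂ) ≠ 0 := by
        have h : dd T ≠ 0 := by unfold dd; positivity
        exact_mod_cast h
      exact this))
  have b3 : ContDiffAt ℝ ∞ (fun p : C3 × ℂ => (2 * Complex.I * ε * (l / kden A l p) *
      (inner ℂ A.q p.1).im / ‖p.1‖ + 1 - 2 * kk A l p : ℂ)) p :=
    ((divR ((contDiffAt_const.mul dlk).mul (ofR (imR (inR hf A.q)))) (ofR n1) hn').add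
      contDiffAt_const).sub (contDiffAt_const.mul (ofR dkk))
  exact n1.smul (mk4R b0 b1 b2 b3)

end CHS_

open CHS_ in
theorem chs_proof (hTAU : Stmt_TAU) (hCHT : Stmt_CHT) : Stmt_CHS := by
  intro T A ε l hl hε
  obtain ⟨t1, t2, t3, -⟩ := hTAU T A
  obtain ⟨c1, c2⟩ := hCHT T A ε l hl hε
  have hS : ∀ z : C4, (z 3).re < ‖z‖ → ContDiffAt ℝ ∞ (Sm A ε l) z := fun z h =>
    Sm_smooth A ε l h
  have hI : ∀ p : C3 × ℂ, p.1 ≠ 0 → ContDiffAt ℝ ∞ (Si A ε l) p := fun p hp =>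
    Si_smooth A hl hp (t1 p.1 hp).1 (t3.contDiffAt (isOpen_compl_singleton.mem_nhds hp))
  refine ⟨fun z hz => (hS z hz).contDiffWithinAt, fun p hp => (hI p hp).contDiffWithinAt, ?_, ?_⟩
  · intro r hr z
    unfold Sm
    rw [nz_smul z hr, norm_smul, Real.norm_of_nonneg hr.le, smul_smul]
  · intro z hz
    have hz0 := ne0 hz
    have hn : (Sm A ε l z).1 ≠ 0 := by
      rw [← norm_ne_zero_iff, (c1 z hz0 hz).1]
      exact norm_ne_zero_iff.2 hz0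
    have hd1 := (hS z hz).differentiableAt (by simp)
    have hd2 := (hI _ hn).differentiableAt (by simp)
    have hop : IsOpen {z : C4 | (z 3).re < ‖z‖} := by
      refine isOpen_lt ?_ continuous_norm
      exact Complex.continuous_re.comp (EuclideanSpace.proj (3 : Fin 4) : C4 →L[ℂ] ℂ).continuous
    have hev : (fun z => Si A ε l (Sm A ε l z)) =ᶠ[nhds z] id := by
      filter_upwards [hop.mem_nhds hz] with y hy
      exact (c1 y (ne0 hy) hy).2.2.1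
    have hcomp : (fderiv ℝ (Si A ε l) (Sm A ε l z)).comp (fderiv ℝ (Sm A ε l) z) =
        ContinuousLinearMap.id ℝ C4 := by
      have e1 := fderiv_comp z hd2 hd1
      rw [← e1]
      have e2 := hev.fderiv_eq (𝕜 := ℝ)
      rw [fderiv_id] at e2
      exact e2
    have hinj : Function.Injective (fderiv ℝ (Sm A ε l) z) := by
      intro a b hab
      have := congrArg (fun v => fderiv ℝ (Si A ε l) (Sm A ε l z) v) hab
      simp only [← ContinuousLinearMap.comp_apply, hcomp] at this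
      exact this
    refine ⟨hinj, ?_⟩
    have hf4 : Module.finrank ℝ C4 = 8 := by
      rw [← Module.finrank_mul_finrank ℝ ℂ C4]
      simp
    have hf3 : Module.finrank ℝ (C3 × ℂ) = 8 := by
      rw [Module.finrank_prod, ← Module.finrank_mul_finrank ℝ ℂ C3]
      simp
    exact (LinearMap.injective_iff_surjective_of_finrank_eq_finrank
      (f := (fderiv ℝ (Sm A ε l) z : C4 →ₗ[ℝ] C3 × ℂ)) (by rw [hf4, hf3])).1 hinj

end Pool.Agent.KNT
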