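import Pool.Agent.KNT.Stmts

set_option autoImplicit false

open scoped ContDiff ComplexConjugate
open Set

namespace Pool.Agent.KNT

namespace CHT_

variable {T : Tube} (A : Fr T)

theorem i00 : inner ℂ A.n0 A.n0 = (1 : ℂ) := by
  rw [inner_self_eq_norm_sq_to_K, A.nn0]; simp

theorem i11 : inner ℂ A.n1 A.n1 = (1 : ℂ) := by
  rw [inner_self_eq_norm_sq_to_K, A.nn1]; simp

theorem iqq : inner ℂ A.q A.q = (1 : ℂ) := by
  rw [inner_self_eq_norm_sq_to_K, A.nq]; simp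

theorem i10 : inner ℂ A.n1 A.n0 = (0 : ℂ) := by
  rw [← inner_conj_symm, A.n01, map_zero]

theorem i0q : inner ℂ A.n0 A.q = (0 : ℂ) := by
  rw [← inner_conj_symm, A.q0, map_zero]

theorem i1q : inner ℂ A.n1 A.q = (0 : ℂ) := by
  rw [← inner_conj_symm, A.q1, map_zero]

theorem ortho : Orthonormal ℂ ![A.n0, A.n1, A.q] := by
  constructor
  · intro i
    fin_cases i
    · exact A.nn0
    · exact A.nn1
    · exact A.nq
  · intro i j hij
    fin_cases i <;> fin_cases j <;> first | exact absurd rfl hij | skip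
    · exact A.n01
    · exact i0q A
    · exact i10 A
    · exact i1q A
    · exact A.q0
    · exact A.q1

theorem frame : (∀ P : C3, (inner ℂ A.n0 P : ℂ) • A.n0 + (inner ℂ A.n1 P : ℂ) • A.n1 +
      (inner ℂ A.q P : ℂ) • A.q = P) ∧
    ∀ P : C3, ‖(inner ℂ A.n0 P : ℂ)‖ ^ 2 + ‖(inner ℂ A.n1 P : ℂ)‖ ^ 2 +
      ‖(inner ℂ A.q P : ℂ)‖ ^ 2 = ‖P‖ ^ 2 := by
  let b := basisOfOrthonormalOfCardEqFinrank (ortho A) (by simp)
  have hb : ⇑b = ![A.n0, A.n1, A.q] := coe_basisOfOrthonormalOfCardEqFinrank _ _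
  let o := b.toOrthonormalBasis (by rw [hb]; exact ortho A)
  have ho : ∀ i, o i = ![A.n0, A.n1, A.q] i := fun i => by
    rw [← hb]
    exact congrFun (b.coe_toOrthonormalBasis _) i
  constructor
  · intro P
    have := o.sum_repr' P
    rw [Fin.sum_univ_three] at this
    rw [ho, ho, ho] at this
    exact this
  · intro P
    have := o.sum_sq_norm_inner_right P
    rw [Fin.sum_univ_three] at this
    rw [ho, ho, ho] at this
    exact this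

theorem inner_rsmul (x y : C3) (r : ℝ) : (inner ℂ x (r • y) : ℂ) = r * inner ℂ x y := by
  rw [RCLike.real_smul_eq_coe_smul (K := ℂ), inner_smul_right]
  rfl

theorem sig0 (ε l : ℝ) (u : C4) : (inner ℂ A.n0 (sig A ε l u) : ℂ) =
    ((l ^ 2 * Aq u + Dq u ^ 2)⁻¹ : ℝ) * (2 * l * Dq u * conj (u 0)) := by
  rw [sig, inner_rsmul, inner_add_right, inner_add_right, inner_smul_right, inner_smul_right,
    inner_smul_right, i00, A.n01, i0q]
  ring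

theorem sig1 (ε l : ℝ) (u : C4) : (inner ℂ A.n1 (sig A ε l u) : ℂ) =
    ((l ^ 2 * Aq u + Dq u ^ 2)⁻¹ : ℝ) * (2 * l * Dq u * u 1) := by
  rw [sig, inner_rsmul, inner_add_right, inner_add_right, inner_smul_right, inner_smul_right,
    inner_smul_right, i10, i11, i1q]
  ring

theorem sigq (ε l : ℝ) (u : C4) : (inner ℂ A.q (sig A ε l u) : ℂ) =
    ((l ^ 2 * Aq u + Dq u ^ 2)⁻¹ : ℝ) *
      (2 * Complex.I * ε * l * Dq u * (u 3).im + l ^ 2 * Aq u - Dq u ^ 2) := by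
  rw [sig, inner_rsmul, inner_add_right, inner_add_right, inner_smul_right, inner_smul_right,
    inner_smul_right, A.q0, A.q1, iqq]
  ring

theorem norm4 (u : C4) : ‖u‖ ^ 2 = ‖u 0‖ ^ 2 + ‖u 1‖ ^ 2 + ‖u 2‖ ^ 2 + ‖u 3‖ ^ 2 := by
  rw [EuclideanSpace.norm_sq_eq, Fin.sum_univ_four]

theorem unit4 {u : C4} (hu : ‖u‖ = 1) : Aq u + ‖u 2‖ ^ 2 = 2 * Dq u - Dq u ^ 2 := by
  have h := norm4 u
  rw [hu] at h
  have h3 : ‖u 3‖ ^ 2 = (u 3).re ^ 2 + (u 3).im ^ 2 := by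
    rw [Complex.sq_norm, Complex.normSq_apply]; ring
  rw [h3] at h
  unfold Aq Dq
  linarith

theorem Aq_nonneg (u : C4) : 0 ≤ Aq u := by unfold Aq; positivity

theorem M_pos {l : ℝ} {u : C4} (hD : 0 < Dq u) : 0 < l ^ 2 * Aq u + Dq u ^ 2 := by
  have := Aq_nonneg u
  positivity

theorem sig_norm {ε l : ℝ} (hε : ε = 1 ∨ ε = -1) {u : C4} (hD : 0 < Dq u) :
    ‖sig A ε l u‖ = 1 := by
  have hM := M_pos (l := l) hD
  have hε2 : ε ^ 2 = 1 := by rcases hε with rfl | rfl <;> norm_num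
  have h := (frame A).2 (sig A ε l u)
  have e0 : ‖(inner ℂ A.n0 (sig A ε l u) : ℂ)‖ ^ 2 =
      (l ^ 2 * Aq u + Dq u ^ 2)⁻¹ ^ 2 * (4 * l ^ 2 * Dq u ^ 2 * ‖u 0‖ ^ 2) := by
    rw [sig0]
    simp only [norm_mul, Complex.norm_real, RCLike.norm_conj, Complex.norm_ofNat, mul_pow,
      Real.norm_eq_abs, sq_abs]
    ring
  have e1 : ‖(inner ℂ A.n1 (sig A ε l u) : ℂ)‖ ^ 2 =
      (l ^ 2 * Aq u + Dq u ^ 2)⁻¹ ^ 2 * (4 * l ^ 2 * Dq u ^ 2 * ‖u 1‖ ^ 2) := by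
    rw [sig1]
    simp only [norm_mul, Complex.norm_real, Complex.norm_ofNat, mul_pow,
      Real.norm_eq_abs, sq_abs]
    ring
  have e2 : ‖(inner ℂ A.q (sig A ε l u) : ℂ)‖ ^ 2 =
      (l ^ 2 * Aq u + Dq u ^ 2)⁻¹ ^ 2 * (4 * l ^ 2 * Dq u ^ 2 * (u 3).im ^ 2 +
        (l ^ 2 * Aq u - Dq u ^ 2) ^ 2) := by
    rw [sigq]
    have : (2 * Complex.I * ε * l * Dq u * (u 3).im + l ^ 2 * Aq u - Dq u ^ 2 : ℂ) =
        ((l ^ 2 * Aq u - Dq u ^ 2 : ℝ) : ℂ) + ((2 * ε * l * Dq u * (u 3).im : ℝ) : ℂ) *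
          Complex.I := by
      push_cast; ring
    rw [this, norm_mul, mul_pow, Complex.sq_norm (_ + _), Complex.normSq_add_mul_I,
      Complex.norm_real, Real.norm_eq_abs, sq_abs]
    congr 1
    linear_combination (4 * l ^ 2 * Dq u ^ 2 * (u 3).im ^ 2) * hε2
  rw [e0, e1, e2] at h
  have h2 : ‖sig A ε l u‖ ^ 2 = 1 := by
    rw [← h]
    have : Aq u = ‖u 0‖ ^ 2 + ‖u 1‖ ^ 2 + (u 3).im ^ 2 := rfl
    have h3 : (l ^ 2 * Aq u + Dq u ^ 2)⁻¹ ^ 2 * (l ^ 2 * Aq u + Dq u ^ 2) ^ 2 = 1 := by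
      field_simp
    calc _ = (l ^ 2 * Aq u + Dq u ^ 2)⁻¹ ^ 2 *
          (4 * l ^ 2 * Dq u ^ 2 * (‖u 0‖ ^ 2 + ‖u 1‖ ^ 2 + (u 3).im ^ 2) +
            (l ^ 2 * Aq u - Dq u ^ 2) ^ 2) := by ring
      _ = (l ^ 2 * Aq u + Dq u ^ 2)⁻¹ ^ 2 * (l ^ 2 * Aq u + Dq u ^ 2) ^ 2 := by
        rw [← this]; ring
      _ = 1 := h3
  nlinarith [norm_nonneg (sig A ε l u)]

theorem nz_norm {z : C4} (hz : z ≠ 0) : ‖nz z‖ = 1 := by
  rw [nz, norm_smul, norm_inv, norm_norm, inv_mul_cancel₀ (norm_ne_zero_iff.2 hz)]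

theorem nz_apply (z : C4) (i : Fin 4) : (nz z) i = (‖z‖⁻¹ : ℝ) * z i := by
  rw [nz, PiLp.smul_apply]; rfl

theorem smul_nz {z : C4} (hz : z ≠ 0) : ‖z‖ • nz z = z := by
  rw [nz, smul_smul, mul_inv_cancel₀ (norm_ne_zero_iff.2 hz), one_smul]

theorem D_pos {z : C4} (hz : z ≠ 0) (h : (z 3).re < ‖z‖) : 0 < Dq (nz z) := by
  have h0 : 0 < ‖z‖ := norm_pos_iff.2 hz
  have h1 : ((nz z) 3).re = ‖z‖⁻¹ * (z 3).re := by
    rw [nz_apply, Complex.re_ofReal_mul]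
  have h2 : ‖z‖⁻¹ * (z 3).re < 1 := by
    rw [inv_mul_lt_iff₀ h0, mul_one]; exact h
  unfold Dq
  rw [h1]; linarith

/-- the formulas for a point of the image of `sig` -/
theorem fwd {ε l : ℝ} (hl : 2 ≤ l) (hε : ε = 1 ∨ ε = -1) {u : C4} (hu : ‖u‖ = 1)
    (hD : 0 < Dq u) {r : ℝ} (hr : 0 < r) :
    ‖r • sig A ε l u‖ = r ∧
    tau A (r • sig A ε l u) = 2 * Dq u ^ 2 / (l ^ 2 * Aq u + Dq u ^ 2) ∧
    kden A l (r • sig A ε l u, dd T * u 2 / Dq u) =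
      4 * l ^ 2 * Dq u / (l ^ 2 * Aq u + Dq u ^ 2) ∧
    kk A l (r • sig A ε l u, dd T * u 2 / Dq u) = Dq u / 2 ∧
    Lf A (r • sig A ε l u) = A.C * (2 * l * Dq u * u 0) /
      (l ^ 2 * Aq u + Dq u ^ 2 : ℝ) := by
  have hM := M_pos (l := l) hD
  have hl0 : 0 < l := by linarith
  have hd : 0 < dd T := by have := T.δ_pos; unfold dd; linarith
  have h1 : ‖r • sig A ε l u‖ = r := by
    rw [norm_smul, sig_norm A hε hD, Real.norm_of_nonneg hr.le, mul_one]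
  have h2 : tau A (r • sig A ε l u) = 2 * Dq u ^ 2 / (l ^ 2 * Aq u + Dq u ^ 2) := by
    have : ((inner ℂ A.q (r • sig A ε l u) : ℂ)).re / r =
        (l ^ 2 * Aq u + Dq u ^ 2)⁻¹ * (l ^ 2 * Aq u - Dq u ^ 2) := by
      rw [inner_rsmul, sigq, Complex.re_ofReal_mul, Complex.re_ofReal_mul]
      have : (2 * Complex.I * ε * l * Dq u * (u 3).im + l ^ 2 * Aq u - Dq u ^ 2 : ℂ) =
          ((l ^ 2 * Aq u - Dq u ^ 2 : ℝ) : ℂ) + ((2 * ε * l * Dq u * (u 3).im : ℝ) : ℂ) *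
            Complex.I := by
        push_cast; ring
      rw [this, Complex.add_re, Complex.ofReal_re, Complex.re_ofReal_mul, Complex.I_re, mul_zero,
        add_zero]
      field_simp
    rw [tau, h1, this]
    field_simp
    ring
  have hU := unit4 hu
  have hw : ‖(dd T * u 2 / Dq u : ℂ)‖ ^ 2 / dd T ^ 2 = ‖u 2‖ ^ 2 / Dq u ^ 2 := by
    rw [norm_div, norm_mul, Complex.norm_real, Complex.norm_real, Real.norm_of_nonneg hd.le,
      Real.norm_of_nonneg hD.le]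
    field_simp
  have h3 : kden A l (r • sig A ε l u, dd T * u 2 / Dq u) =
      4 * l ^ 2 * Dq u / (l ^ 2 * Aq u + Dq u ^ 2) := by
    rw [kden, h2, hw]
    have : ‖u 2‖ ^ 2 = 2 * Dq u - Dq u ^ 2 - Aq u := by linarith
    rw [this]
    field_simp
    ring
  refine ⟨h1, h2, h3, ?_, ?_⟩
  · rw [kk, h3, h2]
    field_simp
    ring
  · rw [Lf, h1, inner_rsmul, sig0]
    have hr' : (r : ℂ) ≠ 0 := by exact_mod_cast hr.ne'
    have hM' : ((l ^ 2 * Aq u + Dq u ^ 2 : ℝ) : ℂ) ≠ 0 := by exact_mod_cast hM.ne'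
    simp only [map_mul, Complex.conj_conj, Complex.conj_ofReal, map_ofNat]
    rw [Complex.ofReal_inv]
    field_simp

theorem Si_apply (ε l : ℝ) (p : C3 × ℂ) : (Si A ε l p) 0 = (‖p.1‖ : ℝ) *
      (2 * (l / kden A l p) * conj (inner ℂ A.n0 p.1) / ‖p.1‖ : ℂ) ∧
    (Si A ε l p) 1 = (‖p.1‖ : ℝ) * (2 * (l / kden A l p) * inner ℂ A.n1 p.1 / ‖p.1‖ : ℂ) ∧
    (Si A ε l p) 2 = (‖p.1‖ : ℝ) * (2 * kk A l p * (p.2 / dd T) : ℂ) ∧
    (Si A ε l p) 3 = (‖p.1‖ : ℝ) * (2 * Complex.I * ε * (l / kden A l p) *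
      (inner ℂ A.q p.1 : ℂ).im / ‖p.1‖ + 1 - 2 * kk A l p : ℂ) := by
  refine ⟨?_, ?_, ?_, ?_⟩ <;> rw [Si, PiLp.smul_apply] <;> rfl

theorem bwd {ε l : ℝ} (hl : 2 ≤ l) (hε : ε = 1 ∨ ε = -1) {u : C4} (hu : ‖u‖ = 1)
    (hD : 0 < Dq u) {r : ℝ} (hr : 0 < r) :
    Si A ε l (r • sig A ε l u, dd T * u 2 / Dq u) = r • u := by
  obtain ⟨h1, h2, h3, h4, h5⟩ := fwd A hl hε hu hD hr
  have hM := M_pos (l := l) hD
  have hl0 : 0 < l := by linarith
  have hd : 0 < dd T := by have := T.δ_pos; unfold dd; linarith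
  have hε2 : ε ^ 2 = 1 := by rcases hε with rfl | rfl <;> norm_num
  have hε2' : (ε : ℂ) ^ 2 = 1 := by exact_mod_cast hε2
  obtain ⟨s0, s1, s2, s3⟩ := Si_apply A ε l (r • sig A ε l u, dd T * u 2 / Dq u)
  simp only at s0 s1 s2 s3
  rw [h1, h3, inner_rsmul, sig0] at s0
  rw [h1, h3, inner_rsmul, sig1] at s1
  rw [h1, h4] at s2
  rw [h1, h3, h4, inner_rsmul, sigq] at s3
  have hr' : (r : ℂ) ≠ 0 := by exact_mod_cast hr.ne'
  have hM' : ((l ^ 2 * Aq u + Dq u ^ 2 : ℝ) : ℂ) ≠ 0 := by exact_mod_cast hM.ne'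
  have hl' : (l : ℂ) ≠ 0 := by exact_mod_cast hl0.ne'
  have hd' : (dd T : ℂ) ≠ 0 := by exact_mod_cast hd.ne'
  have hD' : (Dq u : ℂ) ≠ 0 := by exact_mod_cast hD.ne'
  ext i
  rw [PiLp.smul_apply]
  change _ = (r : ℂ) * u i
  fin_cases i
  · refine s0.trans ?_
    simp only [map_mul, Complex.conj_conj, Complex.conj_ofReal, map_ofNat]
    rw [Complex.ofReal_inv, Complex.ofReal_div (4 * l ^ 2 * Dq u)]
    simp only [Complex.ofReal_mul, Complex.ofReal_pow, Complex.ofReal_ofNat]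
    change _ = (r : ℂ) * u 0
    generalize ((l ^ 2 * Aq u + Dq u ^ 2 : ℝ) : ℂ) = M at *
    field_simp
    ring
  · refine s1.trans ?_
    rw [Complex.ofReal_inv, Complex.ofReal_div (4 * l ^ 2 * Dq u)]
    simp only [Complex.ofReal_mul, Complex.ofReal_pow, Complex.ofReal_ofNat]
    change _ = (r : ℂ) * u 1
    generalize ((l ^ 2 * Aq u + Dq u ^ 2 : ℝ) : ℂ) = M at *
    field_simp
    ring
  · refine s2.trans ?_
    simp only [Complex.ofReal_div, Complex.ofReal_ofNat]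
    change _ = (r : ℂ) * u 2
    field_simp
  · refine s3.trans ?_
    have him : ((r : ℂ) * (((l ^ 2 * Aq u + Dq u ^ 2)⁻¹ : ℝ) *
        (2 * Complex.I * ε * l * Dq u * (u 3).im + l ^ 2 * Aq u - Dq u ^ 2))).im =
        r * ((l ^ 2 * Aq u + Dq u ^ 2)⁻¹ * (2 * ε * l * Dq u * (u 3).im)) := by
      have : (2 * Complex.I * ε * l * Dq u * (u 3).im + l ^ 2 * Aq u - Dq u ^ 2 : ℂ) =
          ((l ^ 2 * Aq u - Dq u ^ 2 : ℝ) : ℂ) + ((2 * ε * l * Dq u * (u 3).im : ℝ) : ℂ) *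
            Complex.I := by
        push_cast; ring
      rw [this, Complex.im_ofReal_mul, Complex.im_ofReal_mul, Complex.add_im, Complex.ofReal_im,
        Complex.im_ofReal_mul, Complex.I_im]
      ring
    rw [him]
    have hu3 : u 3 = (1 - Dq u : ℝ) + (u 3).im * Complex.I := by
      apply Complex.ext
      · simp [Dq]
      · simp
    change _ = (r : ℂ) * u 3
    conv_rhs => rw [hu3]
    simp only [Complex.ofReal_mul, Complex.ofReal_inv]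
    rw [Complex.ofReal_div (4 * l ^ 2 * Dq u)]
    simp only [Complex.ofReal_mul, Complex.ofReal_pow, Complex.ofReal_ofNat, Complex.ofReal_div,
      Complex.ofReal_sub, Complex.ofReal_one]
    generalize ((l ^ 2 * Aq u + Dq u ^ 2 : ℝ) : ℂ) = M at *
    field_simp
    linear_combination (4 * Complex.I * (u 3).im) * hε2'

/-- real and imaginary parts of a unit vector in the frame -/
theorem kden_pos {l : ℝ} (hl : 2 ≤ l) {p : C3 × ℂ} (h0 : 0 ≤ tau A p.1) (h2 : tau A p.1 ≤ 2) :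
    2 ≤ kden A l p := by
  have h3 : 0 ≤ (l ^ 2 - 1) * tau A p.1 := mul_nonneg (by nlinarith) h0
  have h4 : 0 ≤ l ^ 2 * tau A p.1 * (‖p.2‖ ^ 2 / dd T ^ 2) := by positivity
  unfold kden
  nlinarith

/-- the vector `Si / ‖P‖` -/
noncomputable def vv (ε l : ℝ) (P : C3) (w : ℂ) : C4 :=
  !₂[2 * (l / kden A l (P, w)) * conj (inner ℂ A.n0 P) / ‖P‖,
    2 * (l / kden A l (P, w)) * inner ℂ A.n1 P / ‖P‖,
    2 * kk A l (P, w) * (w / dd T),
    2 * Complex.I * ε * (l / kden A l (P, w)) * (inner ℂ A.q P).im / ‖P‖ + 1 -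
      2 * kk A l (P, w)]

theorem vv_facts {ε l : ℝ} (hl : 2 ≤ l) (hε : ε = 1 ∨ ε = -1) {P : C3} {w : ℂ} (hP : P ≠ 0)
    (h0 : 0 ≤ tau A P) (h2 : tau A P ≤ 2) :
    ‖vv A ε l P w‖ = 1 ∧ Dq (vv A ε l P w) = 2 * kk A l (P, w) ∧
    Aq (vv A ε l P w) = 4 * (l / kden A l (P, w)) ^ 2 * (tau A P * (2 - tau A P)) ∧
    ((vv A ε l P w) 3).im = 2 * ε * (l / kden A l (P, w)) * ((inner ℂ A.q P : ℂ).im / ‖P‖) := by
  have hk := kden_pos A hl (p := (P, w)) h0 h2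
  have hk0 : 0 < kden A l (P, w) := by linarith
  have hl0 : 0 < l := by linarith
  have hd : 0 < dd T := by have := T.δ_pos; unfold dd; linarith
  have hε2 : ε ^ 2 = 1 := by rcases hε with rfl | rfl <;> norm_num
  have hn : 0 < ‖P‖ := norm_pos_iff.2 hP
  have e3 : (vv A ε l P w) 3 = ((1 - 2 * kk A l (P, w) : ℝ) : ℂ) +
      ((2 * ε * (l / kden A l (P, w)) * ((inner ℂ A.q P : ℂ).im / ‖P‖) : ℝ) : ℂ) *
        Complex.I := by
    change (2 * Complex.I * ε * (l / kden A l (P, w)) * (inner ℂ A.q P : ℂ).im / ‖P‖ + 1 -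
      2 * kk A l (P, w) : ℂ) = _
    push_cast
    ring
  have e3i : ((vv A ε l P w) 3).im =
      2 * ε * (l / kden A l (P, w)) * ((inner ℂ A.q P : ℂ).im / ‖P‖) := by
    rw [e3]; simp
  have e3r : ((vv A ε l P w) 3).re = 1 - 2 * kk A l (P, w) := by
    rw [e3]; simp
  have e0 : ‖(vv A ε l P w) 0‖ ^ 2 = 4 * (l / kden A l (P, w)) ^ 2 *
      (‖(inner ℂ A.n0 P : ℂ)‖ ^ 2 / ‖P‖ ^ 2) := by
    change ‖(2 * (l / kden A l (P, w)) * conj (inner ℂ A.n0 P) / ‖P‖ : ℂ)‖ ^ 2 = _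
    simp only [norm_mul, norm_div, Complex.norm_real, RCLike.norm_conj, Complex.norm_ofNat,
      mul_pow, div_pow, Real.norm_eq_abs, sq_abs]
    ring
  have e1 : ‖(vv A ε l P w) 1‖ ^ 2 = 4 * (l / kden A l (P, w)) ^ 2 *
      (‖(inner ℂ A.n1 P : ℂ)‖ ^ 2 / ‖P‖ ^ 2) := by
    change ‖(2 * (l / kden A l (P, w)) * inner ℂ A.n1 P / ‖P‖ : ℂ)‖ ^ 2 = _
    simp only [norm_mul, norm_div, Complex.norm_real, Complex.norm_ofNat,
      mul_pow, div_pow, Real.norm_eq_abs, sq_abs]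
    ring
  have e2 : ‖(vv A ε l P w) 2‖ ^ 2 = 4 * kk A l (P, w) ^ 2 * (‖w‖ ^ 2 / dd T ^ 2) := by
    change ‖(2 * kk A l (P, w) * (w / dd T) : ℂ)‖ ^ 2 = _
    simp only [norm_mul, norm_div, Complex.norm_real, Complex.norm_ofNat,
      mul_pow, div_pow, Real.norm_eq_abs, sq_abs]
    ring
  have hPar := (frame A).2 P
  have hq : ‖(inner ℂ A.q P : ℂ)‖ ^ 2 = (inner ℂ A.q P : ℂ).re ^ 2 +
      (inner ℂ A.q P : ℂ).im ^ 2 := by
    rw [Complex.sq_norm, Complex.normSq_apply]; ring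
  have hτ : (inner ℂ A.q P : ℂ).re = (1 - tau A P) * ‖P‖ := by
    rw [tau]; field_simp; ring
  have hA0 : ‖(inner ℂ A.n0 P : ℂ)‖ ^ 2 + ‖(inner ℂ A.n1 P : ℂ)‖ ^ 2 +
      (inner ℂ A.q P : ℂ).im ^ 2 = (tau A P * (2 - tau A P)) * ‖P‖ ^ 2 := by
    rw [hq, hτ] at hPar
    linear_combination hPar
  have hA : Aq (vv A ε l P w) = 4 * (l / kden A l (P, w)) ^ 2 *
      (tau A P * (2 - tau A P)) := by
    unfold Aq
    rw [e0, e1, e3i]
    have : tau A P * (2 - tau A P) = (‖(inner ℂ A.n0 P : ℂ)‖ ^ 2 +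
      ‖(inner ℂ A.n1 P : ℂ)‖ ^ 2 + (inner ℂ A.q P : ℂ).im ^ 2) / ‖P‖ ^ 2 := by
      rw [hA0]; field_simp
    rw [this]
    linear_combination (4 * (l / kden A l (P, w)) ^ 2 *
      ((inner ℂ A.q P : ℂ).im / ‖P‖) ^ 2) * hε2
  have hD : Dq (vv A ε l P w) = 2 * kk A l (P, w) := by
    unfold Dq; rw [e3r]; ring
  refine ⟨?_, hD, hA, e3i⟩
  have hn2 : ‖vv A ε l P w‖ ^ 2 = 1 := by
    have e3n : ‖(vv A ε l P w) 3‖ ^ 2 = ((vv A ε l P w) 3).re ^ 2 +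
        ((vv A ε l P w) 3).im ^ 2 := by
      rw [Complex.sq_norm, Complex.normSq_apply]; ring
    have : ‖vv A ε l P w‖ ^ 2 = Aq (vv A ε l P w) + ‖(vv A ε l P w) 2‖ ^ 2 +
        ((vv A ε l P w) 3).re ^ 2 := by
      rw [norm4, e3n]; unfold Aq; ring
    rw [this, hA, e2, e3r]
    have hkk : kk A l (P, w) = l ^ 2 * tau A P / kden A l (P, w) := rfl
    have hkd : kden A l (P, w) = l ^ 2 * tau A P + 2 - tau A P +
      l ^ 2 * tau A P * (‖w‖ ^ 2 / dd T ^ 2) := rfl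
    have hX : ‖w‖ ^ 2 / dd T ^ 2 * (l ^ 2 * tau A P) = kden A l (P, w) -
      (l ^ 2 * tau A P + 2 - tau A P) := by rw [hkd]; ring
    rw [hkk]
    generalize ‖w‖ ^ 2 / dd T ^ 2 = X at *
    generalize kden A l (P, w) = k at *
    field_simp
    linear_combination (4 * l ^ 2 * tau A P) * hX
  nlinarith [norm_nonneg (vv A ε l P w)]

theorem Si_eq (ε l : ℝ) (P : C3) (w : ℂ) : Si A ε l (P, w) = ‖P‖ • vv A ε l P w := rfl

theorem sig_vv {ε l : ℝ} (hl : 2 ≤ l) (hε : ε = 1 ∨ ε = -1) {P : C3} {w : ℂ} (hP : P ≠ 0)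
    (h0 : 0 < tau A P) (h2 : tau A P ≤ 2) :
    ‖P‖ • sig A ε l (vv A ε l P w) = P := by
  obtain ⟨f1, f2, f3, f4⟩ := vv_facts A hl hε (w := w) hP h0.le h2
  have hk := kden_pos A hl (p := (P, w)) h0.le h2
  have hk0 : 0 < kden A l (P, w) := by linarith
  have hl0 : 0 < l := by linarith
  have hn : 0 < ‖P‖ := norm_pos_iff.2 hP
  have hε2 : ε ^ 2 = 1 := by rcases hε with rfl | rfl <;> norm_num
  have hε2' : (ε : ℂ) ^ 2 = 1 := by exact_mod_cast hε2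
  have hkk : kk A l (P, w) = l ^ 2 * tau A P / kden A l (P, w) := rfl
  have hM : l ^ 2 * Aq (vv A ε l P w) + Dq (vv A ε l P w) ^ 2 =
      8 * l ^ 4 * tau A P / kden A l (P, w) ^ 2 := by
    rw [f2, f3, hkk]
    field_simp
    ring
  have hk' : (kden A l (P, w) : ℂ) ≠ 0 := by exact_mod_cast hk0.ne'
  have hl' : (l : ℂ) ≠ 0 := by exact_mod_cast hl0.ne'
  have hn' : (‖P‖ : ℂ) ≠ 0 := by exact_mod_cast hn.ne'
  have ht' : (tau A P : ℂ) ≠ 0 := by exact_mod_cast h0.ne'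
  have v0 : (vv A ε l P w) 0 =
    (2 * (l / kden A l (P, w)) * conj (inner ℂ A.n0 P) / ‖P‖ : ℂ) := rfl
  have v1 : (vv A ε l P w) 1 =
    (2 * (l / kden A l (P, w)) * inner ℂ A.n1 P / ‖P‖ : ℂ) := rfl
  have c0 : (inner ℂ A.n0 (‖P‖ • sig A ε l (vv A ε l P w)) : ℂ) = inner ℂ A.n0 P := by
    rw [inner_rsmul, sig0, hM, f2, hkk, v0]
    simp only [map_mul, map_div₀, Complex.conj_conj, Complex.conj_ofReal, map_ofNat]
    push_cast
    field_simp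
    ring
  have c1 : (inner ℂ A.n1 (‖P‖ • sig A ε l (vv A ε l P w)) : ℂ) = inner ℂ A.n1 P := by
    rw [inner_rsmul, sig1, hM, f2, hkk, v1]
    push_cast
    field_simp
    ring
  have cq : (inner ℂ A.q (‖P‖ • sig A ε l (vv A ε l P w)) : ℂ) = inner ℂ A.q P := by
    have hτ : (inner ℂ A.q P : ℂ).re = (1 - tau A P) * ‖P‖ := by
      rw [tau]; field_simp; ring
    have hq : (inner ℂ A.q P : ℂ) = (((1 - tau A P) * ‖P‖ : ℝ) : ℂ) +
        (inner ℂ A.q P : ℂ).im * Complex.I := by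
      rw [← hτ, Complex.re_add_im]
    conv_rhs => rw [hq]
    rw [inner_rsmul, sigq, hM, f4, f2, f3, hkk]
    push_cast
    field_simp
    linear_combination (8 * Complex.I * (inner ℂ A.q P : ℂ).im) * hε2'
  rw [← (frame A).1 (‖P‖ • sig A ε l (vv A ε l P w)), c0, c1, cq]
  exact (frame A).1 P

end CHT_

open CHT_ in
theorem cht_proof (hTAU : Stmt_TAU) : Stmt_CHT := by
  intro T A ε l hl hε
  obtain ⟨t1, -⟩ := hTAU T A
  have hl0 : 0 < l := by linarith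
  have hd : 0 < dd T := by have := T.δ_pos; unfold dd; linarith
  constructor
  · intro z hz hz3
    have hr : 0 < ‖z‖ := norm_pos_iff.2 hz
    have hu := nz_norm hz
    have hD := D_pos hz hz3
    have hM := M_pos (l := l) hD
    obtain ⟨h1, h2, h3, h4, h5⟩ := fwd A hl hε hu hD hr
    refine ⟨h1, ?_, ?_, h4, ?_⟩
    · change 0 < tau A (‖z‖ • sig A ε l (nz z))
      rw [h2]; positivity
    · exact (bwd A hl hε hu hD hr).trans (smul_nz hz)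
    · change Lf A (‖z‖ • sig A ε l (nz z)) / (l ^ 2 * tau A (‖z‖ • sig A ε l (nz z))) = _
      rw [h5, h2]
      have hM' : ((l ^ 2 * Aq (nz z) + Dq (nz z) ^ 2 : ℝ) : ℂ) ≠ 0 := by exact_mod_cast hM.ne'
      have hl' : (l : ℂ) ≠ 0 := by exact_mod_cast hl0.ne'
      have hD' : (Dq (nz z) : ℂ) ≠ 0 := by exact_mod_cast hD.ne'
      rw [Complex.ofReal_div (2 * Dq (nz z) ^ 2)]
      simp only [Complex.ofReal_mul, Complex.ofReal_pow, Complex.ofReal_ofNat]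
      generalize ((l ^ 2 * Aq (nz z) + Dq (nz z) ^ 2 : ℝ) : ℂ) = M at *
      field_simp
  · intro P w hP
    obtain ⟨b0, b2, -⟩ := t1 P hP
    have hn : 0 < ‖P‖ := norm_pos_iff.2 hP
    obtain ⟨f1, f2, f3, f4⟩ := vv_facts A hl hε (w := w) hP b0 b2
    have g1 : ‖Si A ε l (P, w)‖ = ‖P‖ := by
      rw [Si_eq, norm_smul, f1, norm_norm, mul_one]
    have g2 : nz (Si A ε l (P, w)) = vv A ε l P w := by
      rw [nz, g1, Si_eq, smul_smul, inv_mul_cancel₀ hn.ne', one_smul]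
    refine ⟨g1, by rw [g2, f2], fun hτ => ?_⟩
    have hk := kden_pos A hl (p := (P, w)) b0 b2
    have hk0 : 0 < kden A l (P, w) := by linarith
    have hkk : kk A l (P, w) = l ^ 2 * tau A P / kden A l (P, w) := rfl
    have hK : 0 < kk A l (P, w) := by rw [hkk]; positivity
    have v2 : (vv A ε l P w) 2 = (2 * kk A l (P, w) * (w / dd T) : ℂ) := rfl
    have hd' : (dd T : ℂ) ≠ 0 := by exact_mod_cast hd.ne'
    have hK' : (kk A l (P, w) : ℂ) ≠ 0 := by exact_mod_cast hK.ne'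
    rw [Sm, g1, g2, sig_vv A hl hε hP hτ b2, f2, v2]
    congr 1
    push_cast
    field_simp

end Pool.Agent.KNT
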