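import Pool.Agent.KNT.Stmts

/-!
# KNT, module COA: algebra and estimates for the vector `cv`
-/

set_option autoImplicit false

open scoped ContDiff ComplexConjugate
open Set Filter Topology Metric

namespace Pool.Agent.KNT

namespace COA_

/-- the square root `(1 - x)^(-1/2)` -/
noncomputable def rr (x : ℂ) : ℂ := (1 - x) ^ (-(1 / 2) : ℂ)

lemma rr_sq (x : ℂ) (hx : x.re < 1 / 2) : rr x ^ 2 * (1 - x) = 1 := by
  have h1 : (1 - x) ≠ 0 := by
    intro h
    have := congrArg Complex.re h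
    simp at this
    linarith
  rw [rr, ← Complex.cpow_nat_mul]
  have h2 : ((2 : ℕ) : ℂ) * (-(1 / 2) : ℂ) = -1 := by norm_num
  rw [h2, Complex.cpow_neg_one, inv_mul_cancel₀ h1]

lemma rr_re_im (x : ℂ) (hx : x.re < 1 / 2) (hx' : 0 ≤ x.im) : 0 ≤ (rr x).re ∧ 0 ≤ (rr x).im := by
  have h1 : (1 - x) ≠ 0 := by
    intro h
    have := congrArg Complex.re h
    simp at this
    linarith
  have harg1 : (1 - x).arg ≤ 0 := by
    rcases eq_or_lt_of_le hx' with h | h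
    · have h2 : (1 - x).arg = 0 := by
        rw [Complex.arg_eq_zero_iff]
        constructor
        · simp
          linarith
        · simp [← h]
      exact h2.le
    · exact (Complex.arg_neg_iff.mpr (by simp; linarith)).le
  have harg2 : -Real.pi < (1 - x).arg := Complex.neg_pi_lt_arg _
  have h3 : rr x = Complex.exp (-(1 / 2) * Complex.log (1 - x)) := by
    rw [rr, Complex.cpow_def_of_ne_zero h1, mul_comm]
  have h4 : (-(1 / 2) * Complex.log (1 - x)).im = -(1 / 2) * (1 - x).arg := by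
    have : (-(1 / 2) : ℂ) = ((-(1 / 2) : ℝ) : ℂ) := by push_cast; ring
    rw [this, Complex.im_ofReal_mul, Complex.log_im]
  rw [h3, Complex.exp_re, Complex.exp_im, h4]
  have hpi := Real.pi_pos
  constructor
  · apply mul_nonneg (Real.exp_pos _).le
    apply Real.cos_nonneg_of_neg_pi_div_two_le_of_le
    · linarith
    · linarith
  · apply mul_nonneg (Real.exp_pos _).le
    apply Real.sin_nonneg_of_nonneg_of_le_pi
    · linarith
    · linarith

lemma cv_norm_sq (x : ℂ) (y : C3) : ‖cv x y‖ ^ 2 =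
    ((Complex.I * (x + 1 / 2)).re * (rr x * y 0).im - (Complex.I * (x + 1 / 2)).im * (rr x * y 0).re -
      ((rr x * y 1).re * (rr x * y 2).im - (rr x * y 2).re * (rr x * y 1).im)) ^ 2 +
    ((Complex.I * (x + 1 / 2)).re * (rr x * y 1).im - (Complex.I * (x + 1 / 2)).im * (rr x * y 1).re -
      ((rr x * y 2).re * (rr x * y 0).im - (rr x * y 0).re * (rr x * y 2).im)) ^ 2 +
    ((Complex.I * (x + 1 / 2)).re * (rr x * y 2).im - (Complex.I * (x + 1 / 2)).im * (rr x * y 2).re -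
      ((rr x * y 0).re * (rr x * y 1).im - (rr x * y 1).re * (rr x * y 0).im)) ^ 2 := by
  rw [EuclideanSpace.real_norm_sq_eq, Fin.sum_univ_three]
  rfl

lemma aux1 (b : ℝ) (h : b ^ 2 ≤ 1 / 12) : b < 3 / 10 ∧ -(3 / 10) < b := by
  constructor <;> nlinarith

lemma aux2 (SA SB : ℝ) (h0 : 0 ≤ SB) (hAB : SA = SB + 3 / 4) (h : SA * SB ≤ 1 / 16) :
    SB ≤ 1 / 12 := by
  by_contra hcon
  push Not at hcon
  rw [hAB] at h
  nlinarith

lemma aux3 (a0 a1 a2 a3 b0 b1 b2 b3 : ℝ) :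
    (a0 ^ 2 + a1 ^ 2 + a2 ^ 2 + a3 ^ 2) * (b0 ^ 2 + b1 ^ 2 + b2 ^ 2 + b3 ^ 2) =
      (a0 * b1 - b0 * a1 - (a2 * b3 - a3 * b2)) ^ 2 +
        (a0 * b2 - b0 * a2 - (a3 * b1 - a1 * b3)) ^ 2 +
        (a0 * b3 - b0 * a3 - (a1 * b2 - a2 * b1)) ^ 2 +
        (a0 * b0 + a1 * b1 + a2 * b2 + a3 * b3) ^ 2 := by
  ring

lemma aux4 (n : ℝ) (h0 : 0 ≤ n) (h : n ^ 2 ≤ 17 / 8) : n ≤ 3 / 2 := by
  nlinarith

lemma aux5 (u v : ℝ) (h0 : 0 ≤ u) (h1 : u ≤ 11 / 12) (h2 : 0 ≤ v) (h3 : v ≤ 5 / 2) :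
    u * v ≤ 23 / 10 := by
  nlinarith

lemma part1 (x : ℂ) (y : C3) (h : x ^ 3 + sq y = 1) (hx : x.re < 1 / 2) (hc : ‖cv x y‖ ≤ 1 / 4) :
    x.re < -(1 / 5) ∧ ‖x‖ ^ 2 ≤ 17 / 8 ∧ ‖y‖ ^ 2 ≤ 23 / 10 := by
  have hr := rr_sq x hx
  have h1 : (1 - x) ≠ 0 := by
    intro h
    have := congrArg Complex.re h
    simp at this
    linarith
  have hcv := cv_norm_sq x y
  have hc2 : ‖cv x y‖ ^ 2 ≤ 1 / 16 := by
    have := pow_le_pow_left₀ (norm_nonneg _) hc 2
    norm_num at this ⊢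
    exact this
  -- the relation `Z·Z = 3/4`
  have hZ : (Complex.I * (x + 1 / 2)) ^ 2 + (rr x * y 0) ^ 2 + (rr x * y 1) ^ 2 +
      (rr x * y 2) ^ 2 = 3 / 4 := by
    have h2 : rr x ^ 2 * (sq y) = 1 + x + x ^ 2 := by
      have h3 : sq y = (1 - x) * (1 + x + x ^ 2) := by
        linear_combination h
      rw [h3]
      linear_combination (1 + x + x ^ 2) * hr
    have h4 : (rr x * y 0) ^ 2 + (rr x * y 1) ^ 2 + (rr x * y 2) ^ 2 = rr x ^ 2 * sq y := by
      rw [sq]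
      ring
    have h5 : (Complex.I * (x + 1 / 2)) ^ 2 = -(x + 1 / 2) ^ 2 := by
      rw [mul_pow, Complex.I_sq]
      ring
    linear_combination h5 + h4 + h2
  have hn0 : ‖x + 1 / 2‖ ^ 2 = (Complex.I * (x + 1 / 2)).re ^ 2 + (Complex.I * (x + 1 / 2)).im ^ 2 := by
    rw [← Complex.normSq_eq_norm_sq, Complex.normSq_apply]
    simp
    ring
  have hB0 : (Complex.I * (x + 1 / 2)).im = x.re + 1 / 2 := by simp
  have hnr : ‖rr x‖ ^ 2 * ‖1 - x‖ = 1 := by
    rw [← norm_pow, ← norm_mul, hr, norm_one]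
  have hny : ‖rr x‖ ^ 2 * ‖y‖ ^ 2 = ((rr x * y 0).re ^ 2 + (rr x * y 0).im ^ 2) +
      ((rr x * y 1).re ^ 2 + (rr x * y 1).im ^ 2) + ((rr x * y 2).re ^ 2 + (rr x * y 2).im ^ 2) := by
    rw [EuclideanSpace.norm_sq_eq, Fin.sum_univ_three, mul_add, mul_add, ← mul_pow, ← mul_pow,
      ← mul_pow, ← norm_mul, ← norm_mul, ← norm_mul, ← Complex.normSq_eq_norm_sq,
      ← Complex.normSq_eq_norm_sq, ← Complex.normSq_eq_norm_sq, Complex.normSq_apply,
      Complex.normSq_apply, Complex.normSq_apply]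
    ring
  generalize (Complex.I * (x + 1 / 2)) = z0 at *
  generalize (rr x * y 0) = z1 at *
  generalize (rr x * y 1) = z2 at *
  generalize (rr x * y 2) = z3 at *
  have hre := congrArg Complex.re hZ
  have him := congrArg Complex.im hZ
  simp only [pow_two, Complex.add_re, Complex.add_im, Complex.mul_re, Complex.mul_im] at hre him
  have e1 : ((3 : ℂ) / 4).re = 3 / 4 := by
    have : ((3 : ℂ) / 4) = ((3 / 4 : ℝ) : ℂ) := by push_cast; ring
    rw [this, Complex.ofReal_re]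
  have e2 : ((3 : ℂ) / 4).im = 0 := by
    have : ((3 : ℂ) / 4) = ((3 / 4 : ℝ) : ℂ) := by push_cast; ring
    rw [this, Complex.ofReal_im]
  rw [e1] at hre
  rw [e2] at him
  rw [hcv] at hc2
  obtain ⟨a0, b0⟩ := z0
  obtain ⟨a1, b1⟩ := z1
  obtain ⟨a2, b2⟩ := z2
  obtain ⟨a3, b3⟩ := z3
  simp only at hre him hc2 hn0 hB0 hny
  set SA := a0 ^ 2 + a1 ^ 2 + a2 ^ 2 + a3 ^ 2 with hSA
  set SB := b0 ^ 2 + b1 ^ 2 + b2 ^ 2 + b3 ^ 2 with hSB
  have hAB : SA = SB + 3 / 4 := by rw [hSA, hSB]; linarith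
  have hdot : a0 * b0 + a1 * b1 + a2 * b2 + a3 * b3 = 0 := by linarith
  have hprod : SA * SB ≤ 1 / 16 := by
    rw [hSA, hSB, aux3, hdot]
    linarith
  have hSBn : 0 ≤ SB := by rw [hSB]; positivity
  have hSB' : SB ≤ 1 / 12 := aux2 SA SB hSBn hAB hprod
  have hb0 : b0 ^ 2 ≤ 1 / 12 := by
    have : b0 ^ 2 ≤ SB := by rw [hSB]; linarith [sq_nonneg b1, sq_nonneg b2, sq_nonneg b3]
    linarith
  have hre1 : x.re < -(1 / 5) := by
    have := (aux1 b0 hb0).1
    linarith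
  have hre2 : -(4 / 5) < x.re := by
    have := (aux1 b0 hb0).2
    linarith
  have hZ0 : ‖x + 1 / 2‖ ^ 2 ≤ 11 / 12 := by
    rw [hn0]
    have : a0 ^ 2 + b0 ^ 2 ≤ SA + SB := by
      rw [hSA, hSB]
      linarith [sq_nonneg b1, sq_nonneg b2, sq_nonneg b3, sq_nonneg a1, sq_nonneg a2, sq_nonneg a3]
    linarith
  have hxn : ‖x‖ ^ 2 ≤ 17 / 8 := by
    have e3 : ‖x + 1 / 2‖ ^ 2 = ‖x‖ ^ 2 + x.re + 1 / 4 := by
      rw [← Complex.normSq_eq_norm_sq, ← Complex.normSq_eq_norm_sq, Complex.normSq_apply,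
        Complex.normSq_apply]
      simp
      ring
    linarith
  refine ⟨hre1, hxn, ?_⟩
  have hx1 : ‖1 - x‖ ≤ 5 / 2 := by
    have h6 : ‖1 - x‖ ≤ ‖(1 : ℂ)‖ + ‖x‖ := norm_sub_le _ _
    rw [norm_one] at h6
    have h7 : ‖x‖ ≤ 3 / 2 := aux4 _ (norm_nonneg x) hxn
    linarith
  have h8 : ‖rr x‖ ^ 2 * ‖y‖ ^ 2 ≤ 11 / 12 := by
    rw [hny]
    have : (a1 ^ 2 + b1 ^ 2) + (a2 ^ 2 + b2 ^ 2) + (a3 ^ 2 + b3 ^ 2) ≤ SA + SB := by
      rw [hSA, hSB]
      linarith [sq_nonneg a0, sq_nonneg b0]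
    linarith
  have h9 : ‖y‖ ^ 2 = (‖rr x‖ ^ 2 * ‖y‖ ^ 2) * ‖1 - x‖ := by
    linear_combination (-‖y‖ ^ 2) * hnr
  rw [h9]
  have h10 : 0 ≤ ‖rr x‖ ^ 2 * ‖y‖ ^ 2 := by positivity
  exact aux5 _ _ h10 h8 (norm_nonneg _) hx1

lemma part2 (s : ℝ) (y : C3) (hs : 0 ≤ s) (hs1 : s ≤ 1) (hy : ∀ i, (y i).im = 0) :
    ∃ k : ℝ, 0 ≤ k ∧ ∀ i, cv (s * om) y i = -(k * (y i).re) := by
  have hom1 : (s * om : ℂ).re = -(s / 2) := by
    simp [om]
    ring
  have hom2 : (s * om : ℂ).im = s * (√3 / 2) := by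
    simp [om]
  have h3 : 0 ≤ √3 := Real.sqrt_nonneg 3
  obtain ⟨hp, hq⟩ := rr_re_im (s * om) (by rw [hom1]; linarith) (by rw [hom2]; positivity)
  have hz1 : (Complex.I * ((s * om : ℂ) + 1 / 2)).re = -(s * (√3 / 2)) := by
    rw [Complex.I_mul_re, Complex.add_im, hom2]
    norm_num
  have hz2 : (Complex.I * ((s * om : ℂ) + 1 / 2)).im = (1 - s) / 2 := by
    rw [Complex.I_mul_im, Complex.add_re, hom1]
    norm_num
    ring
  refine ⟨(1 - s) / 2 * (rr (s * om)).re + s * (√3 / 2) * (rr (s * om)).im, ?_, ?_⟩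
  · have h4 : 0 ≤ (1 - s) / 2 := by linarith
    positivity
  · intro i
    have hre : ∀ j, (rr (s * om) * y j).re = (rr (s * om)).re * (y j).re := by
      intro j
      rw [Complex.mul_re, hy j]
      ring
    have him : ∀ j, (rr (s * om) * y j).im = (rr (s * om)).im * (y j).re := by
      intro j
      rw [Complex.mul_im, hy j]
      ring
    have key0 : cv (s * om) y 0 = (Complex.I * ((s * om : ℂ) + 1 / 2)).re * (rr (s * om) * y 0).im -
        (Complex.I * ((s * om : ℂ) + 1 / 2)).im * (rr (s * om) * y 0).re -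
      ((rr (s * om) * y 1).re * (rr (s * om) * y 2).im -
        (rr (s * om) * y 2).re * (rr (s * om) * y 1).im) := rfl
    have key1 : cv (s * om) y 1 = (Complex.I * ((s * om : ℂ) + 1 / 2)).re * (rr (s * om) * y 1).im -
        (Complex.I * ((s * om : ℂ) + 1 / 2)).im * (rr (s * om) * y 1).re -
      ((rr (s * om) * y 2).re * (rr (s * om) * y 0).im -
        (rr (s * om) * y 0).re * (rr (s * om) * y 2).im) := rfl
    have key2 : cv (s * om) y 2 = (Complex.I * ((s * om : ℂ) + 1 / 2)).re * (rr (s * om) * y 2).im -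
        (Complex.I * ((s * om : ℂ) + 1 / 2)).im * (rr (s * om) * y 2).re -
      ((rr (s * om) * y 0).re * (rr (s * om) * y 1).im -
        (rr (s * om) * y 1).re * (rr (s * om) * y 0).im) := rfl
    fin_cases i
    · show cv (s * om) y 0 = -(_ * (y 0).re)
      rw [key0, hz1, hz2]
      simp only [hre, him]
      ring
    · show cv (s * om) y 1 = -(_ * (y 1).re)
      rw [key1, hz1, hz2]
      simp only [hre, him]
      ring
    · show cv (s * om) y 2 = -(_ * (y 2).re)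
      rw [key2, hz1, hz2]
      simp only [hre, him]
      ring

lemma part3 : ContinuousOn (fun p : ℂ × C3 => cv p.1 p.2) {p | p.1.re < 1 / 2} := by
  have hr : ContinuousOn (fun p : ℂ × C3 => rr p.1) {p | p.1.re < 1 / 2} := by
    unfold rr
    apply ContinuousOn.cpow
    · exact (continuous_const.sub continuous_fst).continuousOn
    · exact continuousOn_const
    · intro p hp
      rw [Complex.mem_slitPlane_iff]
      left
      have hp' : p.1.re < 1 / 2 := hp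
      simp
      linarith
  have hy : ∀ i, ContinuousOn (fun p : ℂ × C3 => rr p.1 * p.2 i) {p | p.1.re < 1 / 2} := by
    intro i
    apply hr.mul
    have : Continuous (fun p : ℂ × C3 => p.2 i) := by fun_prop
    exact this.continuousOn
  have hyre : ∀ i, ContinuousOn (fun p : ℂ × C3 => (rr p.1 * p.2 i).re) {p | p.1.re < 1 / 2} :=
    fun i => Complex.continuous_re.comp_continuousOn (hy i)
  have hyim : ∀ i, ContinuousOn (fun p : ℂ × C3 => (rr p.1 * p.2 i).im) {p | p.1.re < 1 / 2} :=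
    fun i => Complex.continuous_im.comp_continuousOn (hy i)
  have hz : Continuous (fun p : ℂ × C3 => Complex.I * (p.1 + 1 / 2)) := by fun_prop
  have hzre : ContinuousOn (fun p : ℂ × C3 => (Complex.I * (p.1 + 1 / 2)).re)
      {p | p.1.re < 1 / 2} := (Complex.continuous_re.comp hz).continuousOn
  have hzim : ContinuousOn (fun p : ℂ × C3 => (Complex.I * (p.1 + 1 / 2)).im)
      {p | p.1.re < 1 / 2} := (Complex.continuous_im.comp hz).continuousOn
  have : (fun p : ℂ × C3 => cv p.1 p.2) = fun p : ℂ × C3 => WithLp.toLp 2 ![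
      (Complex.I * (p.1 + 1 / 2)).re * (rr p.1 * p.2 0).im -
        (Complex.I * (p.1 + 1 / 2)).im * (rr p.1 * p.2 0).re -
      ((rr p.1 * p.2 1).re * (rr p.1 * p.2 2).im - (rr p.1 * p.2 2).re * (rr p.1 * p.2 1).im),
      (Complex.I * (p.1 + 1 / 2)).re * (rr p.1 * p.2 1).im -
        (Complex.I * (p.1 + 1 / 2)).im * (rr p.1 * p.2 1).re -
      ((rr p.1 * p.2 2).re * (rr p.1 * p.2 0).im - (rr p.1 * p.2 0).re * (rr p.1 * p.2 2).im),
      (Complex.I * (p.1 + 1 / 2)).re * (rr p.1 * p.2 2).im -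
        (Complex.I * (p.1 + 1 / 2)).im * (rr p.1 * p.2 2).re -
      ((rr p.1 * p.2 0).re * (rr p.1 * p.2 1).im - (rr p.1 * p.2 1).re * (rr p.1 * p.2 0).im)] := rfl
  rw [this]
  apply (PiLp.continuous_toLp 2 _).comp_continuousOn
  rw [continuousOn_pi]
  intro i
  fin_cases i
  · exact ((hzre.mul (hyim 0)).sub (hzim.mul (hyre 0))).sub
      (((hyre 1).mul (hyim 2)).sub ((hyre 2).mul (hyim 1)))
  · exact ((hzre.mul (hyim 1)).sub (hzim.mul (hyre 1))).sub
      (((hyre 2).mul (hyim 0)).sub ((hyre 0).mul (hyim 2)))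
  · exact ((hzre.mul (hyim 2)).sub (hzim.mul (hyre 2))).sub
      (((hyre 0).mul (hyim 1)).sub ((hyre 1).mul (hyim 0)))

end COA_

theorem coa_proof : Stmt_COA :=
  ⟨fun x y h hx hc => COA_.part1 x y h hx hc,
    fun s y hs hs1 hy _ => COA_.part2 s y hs hs1 hy, COA_.part3⟩

end Pool.Agent.KNT
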