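import Pool.Agent.KNT.Stmts

/-! # COL: the collapse map -/

set_option autoImplicit false

open scoped ContDiff ComplexConjugate
open Set Metric

namespace Pool.Agent.KNT

namespace COL_

noncomputable def ga (z : C4) : ℝ := (g4 z).re
noncomputable def tt (z : C4) : ℝ := ga z ^ (1 / 3 : ℝ)
noncomputable def ww (z : C4) : ℝ := √(ga z)
noncomputable def x1 (z : C4) : ℂ := (((tt z)⁻¹ : ℝ) : ℂ) * z 0
noncomputable def y1 (z : C4) : C3 := ((ww z)⁻¹ : ℝ) • yy z

/-- the collapse on `ℝ³` -/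
noncomputable def hh (c : R3) : R4 :=
  !₂[32 * min (‖c‖ ^ 2) (1 / 16) - 1, 8 * √(1 - 16 * min (‖c‖ ^ 2) (1 / 16)) * c 0,
    8 * √(1 - 16 * min (‖c‖ ^ 2) (1 / 16)) * c 1, 8 * √(1 - 16 * min (‖c‖ ^ 2) (1 / 16)) * c 2]

open Classical in
noncomputable def ta (z : C4) : R4 :=
  if (x1 z).re < 1 / 2 then hh (cv (x1 z) (y1 z)) else EuclideanSpace.single 0 1

theorem hh_cont : Continuous hh := by
  unfold hh
  fun_prop

theorem norm3 (c : R3) : ‖c‖ ^ 2 = c 0 ^ 2 + c 1 ^ 2 + c 2 ^ 2 := by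
  rw [EuclideanSpace.real_norm_sq_eq, Fin.sum_univ_three]

theorem hh_norm (c : R3) : ‖hh c‖ = 1 := by
  have h : ‖hh c‖ ^ 2 = 1 := by
    rw [EuclideanSpace.real_norm_sq_eq, Fin.sum_univ_four]
    change (32 * min (‖c‖ ^ 2) (1 / 16) - 1) ^ 2 + (8 * √(1 - 16 * min (‖c‖ ^ 2) (1 / 16)) * c 0) ^ 2 +
      (8 * √(1 - 16 * min (‖c‖ ^ 2) (1 / 16)) * c 1) ^ 2 + (8 * √(1 - 16 * min (‖c‖ ^ 2) (1 / 16)) * c 2) ^ 2 = 1
    have hm : min (‖c‖ ^ 2) (1 / 16) ≤ 1 / 16 := min_le_right _ _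
    have hs : √(1 - 16 * min (‖c‖ ^ 2) (1 / 16)) ^ 2 = 1 - 16 * min (‖c‖ ^ 2) (1 / 16) :=
      Real.sq_sqrt (by linarith)
    have h3 := norm3 c
    have key : (8 * √(1 - 16 * min (‖c‖ ^ 2) (1 / 16)) * c 0) ^ 2 +
      (8 * √(1 - 16 * min (‖c‖ ^ 2) (1 / 16)) * c 1) ^ 2 + (8 * √(1 - 16 * min (‖c‖ ^ 2) (1 / 16)) * c 2) ^ 2 =
        64 * (1 - 16 * min (‖c‖ ^ 2) (1 / 16)) * ‖c‖ ^ 2 := by
      linear_combination (64 * (c 0 ^ 2 + c 1 ^ 2 + c 2 ^ 2)) * hs -
        (64 * (1 - 16 * min (‖c‖ ^ 2) (1 / 16))) * h3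
    rcases le_total (‖c‖ ^ 2) (1 / 16) with hc | hc
    · rw [min_eq_left hc] at key ⊢
      linear_combination key
    · rw [min_eq_right hc] at key ⊢
      linear_combination key
  nlinarith [norm_nonneg (hh c)]

theorem hh_far (c : R3) (hc : 1 / 4 < ‖c‖) : hh c = EuclideanSpace.single 0 1 := by
  have h1 : min (‖c‖ ^ 2) (1 / 16) = 1 / 16 := by
    apply min_eq_right
    nlinarith
  have h2 : √(1 - 16 * (1 / 16 : ℝ)) = 0 := by norm_num
  unfold hh
  rw [h1, h2]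
  ext i
  fin_cases i <;> simp <;> norm_num

theorem ga_cont : Continuous ga := by
  unfold ga g4
  fun_prop

theorem tt_cont : Continuous tt := by
  unfold tt
  exact ga_cont.rpow_const (fun _ => Or.inr (by norm_num))

theorem ww_cont : Continuous ww := by
  unfold ww
  exact ga_cont.sqrt

section facts
variable {z : C4} (hz : z ∈ Dτ)
include hz

theorem ga_pos : 0 < ga z := lt_of_lt_of_le (by norm_num) hz.2.2

theorem tt_pos : 0 < tt z := Real.rpow_pos_of_pos (ga_pos hz) _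

theorem ww_pos : 0 < ww z := Real.sqrt_pos.2 (ga_pos hz)

theorem tt_cube : tt z ^ 3 = ga z := by
  unfold tt
  rw [← Real.rpow_natCast, ← Real.rpow_mul (ga_pos hz).le]
  norm_num

theorem ww_sq : ww z ^ 2 = ga z := Real.sq_sqrt (ga_pos hz).le

theorem g4_eq : g4 z = (ga z : ℂ) := by
  apply Complex.ext
  · rfl
  · rw [hz.2.1, Complex.ofReal_im]

theorem eq_one : x1 z ^ 3 + sq (y1 z) = 1 := by
  have hg := g4_eq hz
  have h0 : (ga z : ℂ) ≠ 0 := by exact_mod_cast (ga_pos hz).ne'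
  have ht : ((tt z : ℂ)) ^ 3 = (ga z : ℂ) := by exact_mod_cast tt_cube hz
  have hw : ((ww z : ℂ)) ^ 2 = (ga z : ℂ) := by exact_mod_cast ww_sq hz
  have ht0 : (tt z : ℂ) ≠ 0 := by exact_mod_cast (tt_pos hz).ne'
  have hw0 : (ww z : ℂ) ≠ 0 := by exact_mod_cast (ww_pos hz).ne'
  have e0 : y1 z 0 = (ww z : ℂ)⁻¹ * z 1 := by
    unfold y1 yy
    simp
  have e1 : y1 z 1 = (ww z : ℂ)⁻¹ * z 2 := by
    unfold y1 yy
    simp
  have e2 : y1 z 2 = (ww z : ℂ)⁻¹ * z 3 := by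
    unfold y1 yy
    simp
  unfold sq
  rw [e0, e1, e2]
  unfold x1
  rw [Complex.ofReal_inv]
  have h1 : ((tt z : ℂ)⁻¹ * z 0) ^ 3 = z 0 ^ 3 / (ga z : ℂ) := by
    rw [mul_pow, inv_pow, ht]
    field_simp
  have h2 : ∀ a : ℂ, ((ww z : ℂ)⁻¹ * a) ^ 2 = a ^ 2 / (ga z : ℂ) := by
    intro a
    rw [mul_pow, inv_pow, hw]
    field_simp
  rw [h1, h2, h2, h2, ← add_div, ← add_div]
  have h3 : z 0 ^ 3 / (ga z : ℂ) + (z 1 ^ 2 + z 2 ^ 2 + z 3 ^ 2) / (ga z : ℂ) = g4 z / (ga z : ℂ) := by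
    unfold g4
    ring
  rw [h3, hg, div_self h0]

theorem norm_x1 : ‖z 0‖ ^ 2 = tt z ^ 2 * ‖x1 z‖ ^ 2 := by
  unfold x1
  rw [norm_mul, Complex.norm_real, Real.norm_eq_abs, abs_of_pos (inv_pos.2 (tt_pos hz))]
  have := (tt_pos hz).ne'
  field_simp

theorem norm_y1 : ‖yy z‖ ^ 2 = ga z * ‖y1 z‖ ^ 2 := by
  unfold y1
  rw [norm_smul, Real.norm_eq_abs, abs_of_pos (inv_pos.2 (ww_pos hz)), ← ww_sq hz]
  have := (ww_pos hz).ne'
  field_simp

theorem norm_sum : tt z ^ 2 * ‖x1 z‖ ^ 2 + ga z * ‖y1 z‖ ^ 2 = 1 := by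
  rw [← norm_x1 hz, ← norm_y1 hz]
  have h1 : ‖z‖ ^ 2 = 1 := by rw [hz.1]; norm_num
  rw [EuclideanSpace.norm_sq_eq, Fin.sum_univ_four] at h1
  rw [EuclideanSpace.norm_sq_eq, Fin.sum_univ_three]
  unfold yy
  simp only [Matrix.cons_val_zero, Matrix.cons_val_one, Matrix.cons_val]
  linarith

theorem ta_far (hCOA : Stmt_COA) (hx : -(1 / 5) < (x1 z).re) : ta z = EuclideanSpace.single 0 1 := by
  unfold ta
  by_cases h : (x1 z).re < 1 / 2
  · rw [if_pos h]
    apply hh_far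
    by_contra hc
    push Not at hc
    have := (hCOA.1 (x1 z) (y1 z) (eq_one hz) h hc).1
    linarith
  · rw [if_neg h]

theorem ta_small (hCOA : Stmt_COA) (hg : (g4 z).re ≤ 1 / 10) : ta z = EuclideanSpace.single 0 1 := by
  unfold ta
  by_cases h : (x1 z).re < 1 / 2
  · rw [if_pos h]
    apply hh_far
    by_contra hc
    push Not at hc
    obtain ⟨-, h1, h2⟩ := hCOA.1 (x1 z) (y1 z) (eq_one hz) h hc
    have h3 := norm_sum hz
    have hg' : ga z ≤ 1 / 10 := hg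
    have ht : tt z ≤ 1 / 2 := by
      by_contra hcon
      push Not at hcon
      have h4 : (1 / 2 : ℝ) ^ 3 < tt z ^ 3 := pow_lt_pow_left₀ hcon (by norm_num) (by norm_num)
      rw [tt_cube hz] at h4
      linarith
    have ht2 : tt z ^ 2 ≤ 1 / 4 := by nlinarith [tt_pos hz]
    have h5 : tt z ^ 2 * ‖x1 z‖ ^ 2 ≤ 1 / 4 * (17 / 8) := mul_le_mul ht2 h1 (by positivity) (by norm_num)
    have h6 : ga z * ‖y1 z‖ ^ 2 ≤ 1 / 10 * (23 / 10) := mul_le_mul hg' h2 (by positivity) (by norm_num)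
    linarith
  · rw [if_neg h]

end facts

theorem ta_norm (z : C4) : ‖ta z‖ = 1 := by
  unfold ta
  by_cases h : (x1 z).re < 1 / 2
  · rw [if_pos h]
    exact hh_norm _
  · rw [if_neg h]
    simp

theorem x1_cont : ContinuousOn x1 Dτ := by
  unfold x1
  refine ContinuousOn.mul ?_ (by fun_prop)
  exact Complex.continuous_ofReal.comp_continuousOn
    (tt_cont.continuousOn.inv₀ (fun z hz => (tt_pos hz).ne'))

theorem y1_cont : ContinuousOn y1 Dτ := by
  unfold y1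
  refine ContinuousOn.smul (ww_cont.continuousOn.inv₀ (fun z hz => (ww_pos hz).ne')) ?_
  unfold yy
  fun_prop

theorem ta_cont (hCOA : Stmt_COA) : ContinuousOn ta Dτ := by
  intro z hz
  by_cases h : (x1 z).re < 1 / 2
  · -- near `z` the formula with `hh`
    have hre : ContinuousWithinAt (fun z => (x1 z).re) Dτ z :=
      (Complex.continuous_re.continuousAt.comp_continuousWithinAt (x1_cont z hz))
    have hev : ∀ᶠ w in nhdsWithin z Dτ, (x1 w).re < 1 / 2 := hre.eventually_lt_const h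
    have hpair : ContinuousWithinAt (fun w => (x1 w, y1 w)) (Dτ ∩ {w | (x1 w).re < 1 / 2}) z :=
      (((x1_cont z hz).prodMk (y1_cont z hz)).mono inter_subset_left)
    have hcv : ContinuousWithinAt (fun w => cv (x1 w) (y1 w)) (Dτ ∩ {w | (x1 w).re < 1 / 2}) z :=
      (hCOA.2.2 (x1 z, y1 z) h).comp (f := fun w => (x1 w, y1 w)) hpair (fun w hw => hw.2)
    have hmem : Dτ ∩ {w | (x1 w).re < 1 / 2} ∈ nhdsWithin z Dτ :=
      Filter.inter_mem self_mem_nhdsWithin hev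
    have hcv' : ContinuousWithinAt (fun w => cv (x1 w) (y1 w)) Dτ z :=
      hcv.mono_of_mem_nhdsWithin hmem
    have hfin : ContinuousWithinAt (fun w => hh (cv (x1 w) (y1 w))) Dτ z :=
      hh_cont.continuousAt.comp_continuousWithinAt hcv'
    refine hfin.congr_of_eventuallyEq ?_ ?_
    · filter_upwards [hev] with w hw
      unfold ta
      rw [if_pos hw]
    · unfold ta
      rw [if_pos h]
  · have hlt : -(1 / 5) < (x1 z).re := by
      push Not at h
      linarith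
    have hre : ContinuousWithinAt (fun z => (x1 z).re) Dτ z :=
      (Complex.continuous_re.continuousAt.comp_continuousWithinAt (x1_cont z hz))
    have hev : ∀ᶠ w in nhdsWithin z Dτ, -(1 / 5) < (x1 w).re := hre.eventually_const_lt hlt
    have hc : ContinuousWithinAt (fun _ : C4 => (EuclideanSpace.single 0 1 : R4)) Dτ z :=
      continuousWithinAt_const
    refine hc.congr_of_eventuallyEq ?_ (ta_far hz hCOA hlt)
    filter_upwards [hev, self_mem_nhdsWithin] with w hw hwD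
    exact ta_far hwD hCOA hw

theorem om_re : om.re = -(1 / 2) := rfl
theorem om_im : om.im = √3 / 2 := rfl

theorem om_cube : om ^ 3 = 1 := by
  have h3 : √3 ^ 2 = 3 := Real.sq_sqrt (by norm_num)
  have h33 : √3 ^ 3 = 3 * √3 := by
    rw [pow_succ, h3]
  apply Complex.ext
  · simp only [pow_succ, pow_zero, one_mul, Complex.mul_re, Complex.mul_im, om_re, om_im, Complex.one_re]
    linear_combination (3 / 8) * h3
  · simp only [pow_succ, pow_zero, one_mul, Complex.mul_re, Complex.mul_im, om_re, om_im, Complex.one_im]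
    linear_combination (-(1 / 8) * √3) * h3

theorem om_norm : ‖om‖ = 1 := by
  have h : ‖om‖ ^ 3 = 1 := by rw [← norm_pow, om_cube, norm_one]
  exact (pow_eq_one_iff_of_nonneg (norm_nonneg _) (by norm_num)).1 h

theorem norm4 {v : R4} (hv : v ∈ sphere (0 : R4) 1) : v 0 ^ 2 + v 1 ^ 2 + v 2 ^ 2 + v 3 ^ 2 = 1 := by
  rw [mem_sphere_zero_iff_norm] at hv
  have h := EuclideanSpace.real_norm_sq_eq v
  rw [hv, Fin.sum_univ_four] at h
  linarith

theorem i1_zero (v : R4) : i1 v 0 = ((max (v 0) 0 : ℝ) : ℂ) + ((max (-(v 0)) 0 : ℝ) : ℂ) * om := rfl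
theorem i1_one (v : R4) : i1 v 1 = (v 1 : ℂ) := rfl
theorem i1_two (v : R4) : i1 v 2 = (v 2 : ℂ) := rfl
theorem i1_three (v : R4) : i1 v 3 = (v 3 : ℂ) := rfl

theorem i1_cube (v : R4) : (i1 v 0) ^ 3 = ((|v 0| ^ 3 : ℝ) : ℂ) := by
  rw [i1_zero]
  rcases le_total 0 (v 0) with h | h
  · rw [max_eq_left h, max_eq_right (by linarith), abs_of_nonneg h]
    push_cast
    ring
  · rw [max_eq_right h, max_eq_left (by linarith), abs_of_nonpos h]
    push_cast
    rw [zero_add, mul_pow, om_cube, mul_one]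

theorem i1_norm0 (v : R4) : ‖i1 v 0‖ ^ 2 = v 0 ^ 2 := by
  rw [i1_zero]
  rcases le_total 0 (v 0) with h | h
  · rw [max_eq_left h, max_eq_right (by linarith)]
    rw [Complex.ofReal_zero, zero_mul, add_zero, Complex.norm_real, Real.norm_eq_abs, sq_abs]
  · rw [max_eq_right h, max_eq_left (by linarith)]
    rw [Complex.ofReal_zero, zero_add, norm_mul, om_norm, mul_one, Complex.norm_real, Real.norm_eq_abs,
      sq_abs, neg_sq]

theorem i1_g4 {v : R4} (hv : v ∈ sphere (0 : R4) 1) : g4 (i1 v) = ((|v 0| ^ 3 + (1 - v 0 ^ 2) : ℝ) : ℂ) := by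
  unfold g4
  rw [i1_cube, i1_one, i1_two, i1_three]
  have h := norm4 hv
  have h2 : 1 - v 0 ^ 2 = v 1 ^ 2 + v 2 ^ 2 + v 3 ^ 2 := by linarith
  rw [h2]
  push_cast
  ring

theorem abs_le_one {v : R4} (hv : v ∈ sphere (0 : R4) 1) : |v 0| ≤ 1 := by
  have h := norm4 hv
  rw [abs_le_one_iff_mul_self_le_one]
  nlinarith [sq_nonneg (v 1), sq_nonneg (v 2), sq_nonneg (v 3)]

theorem i1_mem {v : R4} (hv : v ∈ sphere (0 : R4) 1) : i1 v ∈ Dτ := by
  refine ⟨?_, ?_, ?_⟩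
  · have h : ‖i1 v‖ ^ 2 = 1 := by
      rw [EuclideanSpace.norm_sq_eq, Fin.sum_univ_four, i1_norm0, i1_one, i1_two, i1_three]
      rw [Complex.norm_real, Complex.norm_real, Complex.norm_real, Real.norm_eq_abs, Real.norm_eq_abs,
        Real.norm_eq_abs, sq_abs, sq_abs, sq_abs]
      exact norm4 hv
    nlinarith [norm_nonneg (i1 v)]
  · rw [i1_g4 hv, Complex.ofReal_im]
  · rw [i1_g4 hv, Complex.ofReal_re]
    have h1 := abs_le_one hv
    have h0 := abs_nonneg (v 0)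
    have h2 : v 0 ^ 2 = |v 0| ^ 2 := (sq_abs _).symm
    rw [h2]
    generalize |v 0| = s at h1 h0
    nlinarith [mul_nonneg h0 (sub_nonneg.2 h1), mul_nonneg (mul_nonneg h0 (sub_nonneg.2 h1)) (sub_nonneg.2 h1),
      sq_nonneg (s - 1 / 2)]

theorem i1_ne (hCOA : Stmt_COA) {v : R4} (hv : v ∈ sphere (0 : R4) 1) :
    ta (i1 v) ≠ !₂[-(v 0), v 1, v 2, v 3] := by
  intro heq
  have hD := i1_mem hv
  rcases le_or_gt 0 (v 0) with h | h
  · have hx : 0 ≤ (x1 (i1 v)).re := by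
      unfold x1
      rw [i1_zero, max_eq_left h, max_eq_right (by linarith), Complex.ofReal_zero, zero_mul, add_zero,
        ← Complex.ofReal_mul, Complex.ofReal_re]
      exact mul_nonneg (inv_nonneg.2 (tt_pos hD).le) h
    rw [ta_far hD hCOA (by linarith)] at heq
    have h0 := congrArg (fun w : R4 => w 0) heq
    simp at h0
    linarith
  · -- the arm `ω ℝ≥0`
    set t := tt (i1 v) with ht
    set w := ww (i1 v) with hw
    have htp : 0 < t := tt_pos hD
    have hwp : 0 < w := ww_pos hD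
    set s : ℝ := t⁻¹ * -(v 0) with hs
    have hx : x1 (i1 v) = (s : ℂ) * om := by
      unfold x1
      rw [i1_zero, max_eq_right h.le, max_eq_left (by linarith), hs]
      push_cast
      ring
    have hs0 : 0 ≤ s := mul_nonneg (inv_nonneg.2 htp.le) (by linarith)
    have hga : ga (i1 v) = |v 0| ^ 3 + (1 - v 0 ^ 2) := by
      unfold ga
      rw [i1_g4 hv, Complex.ofReal_re]
    have hs1 : s ≤ 1 := by
      have h1 : (-(v 0)) ^ 3 ≤ t ^ 3 := by
        rw [ht, tt_cube hD, hga, abs_of_neg h]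
        have := abs_le_one hv
        have h2 : v 0 ^ 2 ≤ 1 := by
          rw [← sq_abs]
          nlinarith [abs_nonneg (v 0)]
        linarith
      have h2 : -(v 0) ≤ t := le_of_pow_le_pow_left₀ (by norm_num) htp.le h1
      rw [hs, inv_mul_le_iff₀ htp, mul_one]
      exact h2
    have hyi : ∀ i : Fin 3, y1 (i1 v) i = ((w⁻¹ * v i.succ : ℝ) : ℂ) := by
      intro i
      unfold y1 yy
      fin_cases i
      · simp [i1_one, ← hw]
      · simp [i1_two, ← hw]
      · simp [i1_three, ← hw]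
    have heq1 := eq_one hD
    rw [hx] at heq1
    obtain ⟨k, hk, hcv⟩ := hCOA.2.1 s (y1 (i1 v)) hs0 hs1 (fun i => by rw [hyi, Complex.ofReal_im]) heq1
    have hcv' : ∀ i : Fin 3, cv (x1 (i1 v)) (y1 (i1 v)) i = -(k * (w⁻¹ * v i.succ)) := by
      intro i
      rw [hx, hcv i, hyi, Complex.ofReal_re]
    have hre : (x1 (i1 v)).re < 1 / 2 := by
      rw [hx, Complex.re_ofReal_mul, om_re]
      linarith
    have hta : ta (i1 v) = hh (cv (x1 (i1 v)) (y1 (i1 v))) := by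
      unfold ta
      rw [if_pos hre]
    rw [hta] at heq
    set c := cv (x1 (i1 v)) (y1 (i1 v)) with hc
    set S := 8 * √(1 - 16 * min (‖c‖ ^ 2) (1 / 16)) with hS
    have hS0 : 0 ≤ S := by positivity
    have e0 : 32 * min (‖c‖ ^ 2) (1 / 16) - 1 = -(v 0) := congrArg (fun w : R4 => w 0) heq
    have e1 : S * c 0 = v 1 := congrArg (fun w : R4 => w 1) heq
    have e2 : S * c 1 = v 2 := congrArg (fun w : R4 => w 2) heq
    have e3 : S * c 2 = v 3 := congrArg (fun w : R4 => w 3) heq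
    have hzero : ∀ (a b : ℝ), S * a = b → a = -(k * (w⁻¹ * b)) → b = 0 := by
      intro a b h1 h2
      rw [h2] at h1
      have h3 : b * (1 + S * (k * w⁻¹)) = 0 := by linear_combination -h1
      have h4 : 0 < 1 + S * (k * w⁻¹) := by positivity
      exact (mul_eq_zero.1 h3).resolve_right h4.ne'
    have v1 : v 1 = 0 := hzero _ _ e1 (hcv' 0)
    have v2 : v 2 = 0 := hzero _ _ e2 (hcv' 1)
    have v3 : v 3 = 0 := hzero _ _ e3 (hcv' 2)
    have hn := norm4 hv
    rw [v1, v2, v3] at hn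
    have hv0 : v 0 = -1 := by nlinarith
    have c0 : c 0 = 0 := by
      rw [hcv' 0]
      change -(k * (w⁻¹ * v 1)) = 0
      rw [v1]
      ring
    have c1 : c 1 = 0 := by
      rw [hcv' 1]
      change -(k * (w⁻¹ * v 2)) = 0
      rw [v2]
      ring
    have c2 : c 2 = 0 := by
      rw [hcv' 2]
      change -(k * (w⁻¹ * v 3)) = 0
      rw [v3]
      ring
    have hcn : ‖c‖ ^ 2 = 0 := by
      rw [norm3, c0, c1, c2]
      ring
    rw [hcn, min_eq_left (by norm_num), hv0] at e0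
    norm_num at e0

end COL_

open COL_ in
theorem col_proof (hCOA : Stmt_COA) : Stmt_COL :=
  ⟨ta, ta_cont hCOA, fun z _ => ta_norm z, fun _ hz hg => ta_small hz hCOA hg,
    fun _ hv => ⟨i1_mem hv, i1_ne hCOA hv⟩⟩

end Pool.Agent.KNT
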