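import Pool.Agent.KNT.Stmts

/-!
Module CSA of squad KNT: comparison of the three functions with the standard function in the collar.
-/

set_option autoImplicit false

open scoped ContDiff ComplexConjugate
open Set Filter Topology Metric

namespace Pool.Agent.KNT

namespace CSA_

/-- coordinates -/
noncomputable def co (i : Fin 4) : C4 →L[ℝ] ℂ :=
  ((EuclideanSpace.proj i : C4 →L[ℂ] ℂ)).restrictScalars ℝ

lemma co_apply (i : Fin 4) (z : C4) : co i z = z i := rfl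

lemma nz_apply (z : C4) (i : Fin 4) : (nz z) i = ((‖z‖⁻¹ : ℝ) : ℂ) * z i := by
  show ((‖z‖⁻¹ : ℝ) • z) i = _
  rw [PiLp.smul_apply, Complex.real_smul]

lemma inv_norm_smooth (z : C4) (hz : z ≠ 0) : ContDiffAt ℝ ∞ (fun z : C4 => (‖z‖⁻¹ : ℝ)) z :=
  (contDiffAt_norm ℝ hz).inv (norm_ne_zero_iff.2 hz)

lemma nzc_smooth (i : Fin 4) (z : C4) (hz : z ≠ 0) : ContDiffAt ℝ ∞ (fun z : C4 => (nz z) i) z := by
  have h1 : (fun z : C4 => (nz z) i) = fun z => ((‖z‖⁻¹ : ℝ) : ℂ) * co i z := by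
    funext z
    rw [nz_apply, co_apply]
  rw [h1]
  exact (Complex.ofRealCLM.contDiff.contDiffAt.comp z (inv_norm_smooth z hz)).mul (co i).contDiff.contDiffAt

lemma dq_smooth' (z : C4) (hz : z ≠ 0) : ContDiffAt ℝ ∞ (fun z : C4 => Dq (nz z)) z := by
  unfold Dq
  exact contDiffAt_const.sub (Complex.reCLM.contDiff.contDiffAt.comp z (nzc_smooth 3 z hz))

lemma dq_smooth (z : C4) (hz : z ≠ 0) : ContDiffAt ℝ ∞ (fun z : C4 => ((Dq (nz z) : ℝ) : ℂ)) z :=
  Complex.ofRealCLM.contDiff.contDiffAt.comp z (dq_smooth' z hz)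

lemma dq_eq (z : C4) : Dq (nz z) = 1 - ‖z‖⁻¹ * (z 3).re := by
  unfold Dq
  rw [nz_apply, Complex.re_ofReal_mul]

lemma std_eq (z : C4) : std 3 z = (nz z) 0 := by
  unfold std
  rw [nz_apply, Complex.ofReal_inv, div_eq_inv_mul]

lemma dq_ne {z : C4} (hz : z ≠ 0) (h : (z 3).re < ‖z‖) : ((Dq (nz z) : ℝ) : ℂ) ≠ 0 := by
  have hzn := norm_pos_iff.2 hz
  rw [Ne, Complex.ofReal_eq_zero, dq_eq]
  intro hD
  have h3 : ‖z‖⁻¹ * (z 3).re < ‖z‖⁻¹ * ‖z‖ :=
    mul_lt_mul_of_pos_left h (inv_pos.2 hzn)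
  rw [inv_mul_cancel₀ hzn.ne'] at h3
  linarith

end CSA_

open CSA_ in
theorem csa_proof (hSAT : Stmt_SAT) (_hTAU : Stmt_TAU) (hSHA : Stmt_SHA)
    (hCHT : Stmt_CHT) (hCHS : Stmt_CHS) (hEMB : Stmt_EMB) (_hGRG : Stmt_GRG) : Stmt_CSA := by
  intro T A ε l η hl hε h0 hs
  obtain ⟨_, hsymm, _, hevq, _, hmul⟩ := hSAT C4
  obtain ⟨hadm, _, hflat⟩ := hSHA T A l η hl hs
  obtain ⟨hc1, _⟩ := hCHT T A ε l hl hε
  obtain ⟨hSm, _, _, _⟩ := hCHS T A ε l hl hε
  obtain ⟨hcap, _⟩ := hEMB T A ε l hl hε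
  have hl0 : (0 : ℝ) < l := by linarith
  obtain ⟨f1, hf1⟩ : ∃ f1 : C4 → ℂ, f1 = fun z : C4 => (Dq (nz z) : ℂ) * SHt A l η 1 (Sm A ε l z) := ⟨_, rfl⟩
  obtain ⟨f2, hf2⟩ : ∃ f2 : C4 → ℂ, f2 = fun z : C4 => -(η * (A.C / l) * (nz z) 0) := ⟨_, rfl⟩
  have hopen1 : IsOpen {z : C4 | (z 3).re < 3 / 10 * ‖z‖} :=
    isOpen_lt (Complex.continuous_re.comp (co 3).continuous) (continuous_const.mul continuous_norm)
  have hopen2 : IsOpen {z : C4 | -(3 / 10 * ‖z‖) < (z 3).re} :=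
    isOpen_lt (continuous_const.mul continuous_norm).neg (Complex.continuous_re.comp (co 3).continuous)
  have hopen3 : IsOpen {z : C4 | (z 3).re < ‖z‖} :=
    isOpen_lt (Complex.continuous_re.comp (co 3).continuous) continuous_norm
  have hopen4 : IsOpen {z : C4 | (z 3).re < 1 / 5 * ‖z‖} :=
    isOpen_lt (Complex.continuous_re.comp (co 3).continuous) (continuous_const.mul continuous_norm)
  have hpos : ∀ z : C4, z ≠ 0 → (z 3).re < 3 / 10 * ‖z‖ → (z 3).re < ‖z‖ := by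
    intro z hz h
    have := norm_pos_iff.2 hz
    linarith
  -- the flat formula
  have hfl : ∀ z : C4, z ≠ 0 → (z 3).re < 3 / 10 * ‖z‖ → -(3 / 10 * ‖z‖) < (z 3).re →
      SHt A l η 1 (Sm A ε l z) = -(η * (A.C / l * ((nz z) 0 / Dq (nz z)))) := by
    intro z hz h1 h2
    have hzn := norm_pos_iff.2 hz
    obtain ⟨hn, hτ, _, hkk, hL⟩ := hc1 z hz (hpos z hz h1)
    have e1 : ‖z‖⁻¹ * ‖z‖ = 1 := inv_mul_cancel₀ hzn.ne'
    have hi : 0 < ‖z‖⁻¹ := inv_pos.2 hzn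
    have hD1 : 7 / 10 ≤ Dq (nz z) := by
      rw [dq_eq]
      have : ‖z‖⁻¹ * (z 3).re ≤ ‖z‖⁻¹ * (3 / 10 * ‖z‖) := mul_le_mul_of_nonneg_left h1.le hi.le
      have e2 : ‖z‖⁻¹ * (3 / 10 * ‖z‖) = 3 / 10 := by rw [mul_left_comm, e1, mul_one]
      linarith
    have hD2 : Dq (nz z) ≤ 13 / 10 := by
      rw [dq_eq]
      have : ‖z‖⁻¹ * (-(3 / 10 * ‖z‖)) ≤ ‖z‖⁻¹ * (z 3).re := mul_le_mul_of_nonneg_left h2.le hi.le
      have e2 : ‖z‖⁻¹ * (-(3 / 10 * ‖z‖)) = -(3 / 10) := by rw [mul_neg, mul_left_comm, e1, mul_one]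
      linarith
    have hP : (Sm A ε l z).1 ≠ 0 := by
      rw [← norm_pos_iff, hn]
      exact hzn
    have hfl := hflat (Sm A ε l z).1 (Sm A ε l z).2 hP (by rw [Prod.mk.eta, hkk]; linarith)
      (by rw [Prod.mk.eta, hkk]; linarith)
    rw [Prod.mk.eta] at hfl
    rw [hfl, hL]
  -- agreement
  have hag : ∀ z : C4, z ≠ 0 → (z 3).re < 3 / 10 * ‖z‖ → -(3 / 10 * ‖z‖) < (z 3).re → f1 z = f2 z := by
    intro z hz h1 h2
    rw [hf1, hf2]
    show (Dq (nz z) : ℂ) * SHt A l η 1 (Sm A ε l z) = -(η * (A.C / l) * (nz z) 0)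
    rw [hfl z hz h1 h2]
    have hDne := dq_ne hz (hpos z hz h1)
    field_simp
  have hFF1 : ∀ z : C4, z ≠ 0 → (z 3).re < 3 / 10 * ‖z‖ → FF2 A ε l η z = f1 z := by
    intro z hz h
    unfold FF2
    split_ifs with hneg
    · rw [hf1]
    · have hzn := norm_pos_iff.2 hz
      rw [hag z hz h (by linarith [not_lt.1 hneg]), hf2]
  have hFF2 : ∀ z : C4, z ≠ 0 → -(3 / 10 * ‖z‖) < (z 3).re → FF2 A ε l η z = f2 z := by
    intro z hz h
    unfold FF2
    split_ifs with hneg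
    · have hzn := norm_pos_iff.2 hz
      rw [← hag z hz (by linarith) h, hf1]
    · rw [hf2]
  have hne : ∀ z : C4, z ≠ 0 → ∀ᶠ y in 𝓝 z, y ≠ 0 := fun z hz => isOpen_ne.mem_nhds hz
  have hev1 : ∀ z : C4, z ≠ 0 → (z 3).re < 3 / 10 * ‖z‖ → FF2 A ε l η =ᶠ[𝓝 z] f1 := by
    intro z hz h
    filter_upwards [hne z hz, hopen1.mem_nhds h] with y hy1 hy2
    exact hFF1 y hy1 hy2
  have hev2 : ∀ z : C4, z ≠ 0 → -(3 / 10 * ‖z‖) < (z 3).re → FF2 A ε l η =ᶠ[𝓝 z] f2 := by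
    intro z hz h
    filter_upwards [hne z hz, hopen2.mem_nhds h] with y hy1 hy2
    exact hFF2 y hy1 hy2
  have hstd : ∀ z : C4, z ≠ 0 → DifferentiableAt ℝ (std 3) z := by
    intro z hz
    have e : (std 3 : C4 → ℂ) = fun z => (nz z) 0 := funext std_eq
    rw [e]
    exact (nzc_smooth 0 z hz).differentiableAt (by simp)
  have hcne : (-((η : ℂ) * (A.C / l))) ≠ 0 := by
    have h4 : (η : ℂ) ≠ 0 := by
      rw [Ne, Complex.ofReal_eq_zero]
      exact h0.ne'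
    have h5 : (A.C : ℂ) ≠ 0 := by
      rw [Ne, Complex.ofReal_eq_zero]
      exact A.C_pos.ne'
    have h6 : (l : ℂ) ≠ 0 := by
      rw [Ne, Complex.ofReal_eq_zero]
      exact hl0.ne'
    exact neg_ne_zero.2 (mul_ne_zero h4 (div_ne_zero h5 h6))
  -- the tube
  have htube : ∀ (Ψ : C3 × ℂ → ℂ) (z : C4), z ≠ 0 → (z 3).re < 1 / 5 * ‖z‖ →
      TF T Ψ (em A ε l z) = Ψ (Sm A ε l z) := by
    intro Ψ z hz h
    obtain ⟨_, hz2, hz3⟩ := hcap z h
    have hP : (Sm A ε l z).1 ≠ 0 := by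
      rw [← norm_pos_iff, (hc1 z hz hz2).1]
      exact norm_pos_iff.2 hz
    have h1 : gb (em A ε l z) = (Sm A ε l z).2 := by
      unfold em
      have := T.G_gb (Sm A ε l z).1 (Sm A ε l z).2 hP hz3
      rwa [Prod.mk.eta] at this
    have h2 : T.Gi (em A ε l z) = Sm A ε l z := by
      unfold em
      have := T.Gi_G (Sm A ε l z).1 (Sm A ε l z).2 hP hz3
      rwa [Prod.mk.eta] at this
    unfold TF
    rw [h1, if_pos hz3, h2]
  refine ⟨?_, ?_, ?_⟩
  · intro z h hz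
    have hzn := norm_pos_iff.2 hz
    have h' : -(1 / 5 * ‖z‖) < (z 3).re := h
    apply hsymm
    refine hmul (std 3) _ (fun _ => -((η : ℂ) * (A.C / l))) z (hstd z hz)
      (differentiableAt_const _) hcne ?_
    refine (hev2 z hz (by linarith)).trans (Filter.Eventually.of_forall fun y => ?_)
    rw [hf2]
    show -((η : ℂ) * (A.C / l) * (nz y) 0) = -((η : ℂ) * (A.C / l)) * std 3 y
    rw [std_eq]
    ring
  · intro z h hz
    have hzn := norm_pos_iff.2 hz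
    have h' : (z 3).re < 1 / 5 * ‖z‖ := h
    apply hsymm
    refine hmul (std 3) _ (fun y => -((η : ℂ) * (A.C / l)) * (((Dq (nz y) : ℝ) : ℂ))⁻¹) z
      (hstd z hz) ?_ ?_ ?_
    · exact (differentiableAt_const _).mul (((dq_smooth z hz).differentiableAt (by simp)).inv
        (dq_ne hz (by linarith)))
    · exact mul_ne_zero hcne (inv_ne_zero (dq_ne hz (by linarith)))
    · filter_upwards [hne z hz, hopen4.mem_nhds h'] with y hy1 hy2
      have hy2' : (y 3).re < 1 / 5 * ‖y‖ := hy2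
      have hyn := norm_pos_iff.2 hy1
      show TF T (SH1 A l η) (em A ε l y) = _
      rw [htube _ y hy1 hy2']
      obtain ⟨hn, hτ, _, hkk, hL⟩ := hc1 y hy1 (by linarith)
      have key : SH1 A l η (Sm A ε l y) = -(η * (A.C / l * ((nz y) 0 / Dq (nz y)))) := by
        unfold SH1
        split_ifs with hk
        · rw [hL]
        · rw [hkk, dq_eq] at hk
          have e1 : ‖y‖⁻¹ * ‖y‖ = 1 := inv_mul_cancel₀ hyn.ne'
          have h3 : 0 ≤ ‖y‖⁻¹ * (y 3).re := by linarith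
          have h4 : 0 ≤ (y 3).re := by
            by_contra hneg
            have := mul_neg_of_pos_of_neg (inv_pos.2 hyn) (not_le.1 hneg)
            linarith
          exact hfl y hy1 (by linarith) (by linarith)
      rw [key, std_eq]
      have := dq_ne hy1 (show (y 3).re < ‖y‖ by linarith)
      field_simp
  · intro z h hz
    have hzn := norm_pos_iff.2 hz
    have h' : (z 3).re ≤ 0 := h
    have h5 : (z 3).re < 1 / 5 * ‖z‖ := by linarith
    have hevF : (fun z => FF A l η (em A ε l z)) =ᶠ[𝓝 z] fun z => SHt A l η 1 (Sm A ε l z) := by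
      filter_upwards [hne z hz, hopen4.mem_nhds h5] with y hy1 hy2
      exact htube _ y hy1 hy2
    have hg : ∀ p : C3 × ℂ, p.1 ≠ 0 → ContDiffAt ℝ ∞ (SHt A l η 1) p := by
      intro p hp
      have ho : IsOpen {p : ℝ × (C3 × ℂ) | p.2.1 ≠ 0} :=
        isOpen_ne.preimage (continuous_fst.comp continuous_snd)
      have h1 : ContDiffAt ℝ ∞ (fun p : ℝ × (C3 × ℂ) => SHt A l η p.1 p.2) (1, p) :=
        hadm.smooth.contDiffAt (ho.mem_nhds hp)
      exact h1.comp p (contDiffAt_const.prodMk contDiffAt_id)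
    have hP : (Sm A ε l z).1 ≠ 0 := by
      rw [← norm_pos_iff, (hc1 z hz (by linarith)).1]
      exact hzn
    have hcomp : ContDiffAt ℝ ∞ (fun z => SHt A l η 1 (Sm A ε l z)) z :=
      (hg _ hP).comp z (hSm.contDiffAt (hopen3.mem_nhds (show (z 3).re < ‖z‖ by linarith)))
    refine hmul _ _ (fun y => ((Dq (nz y) : ℝ) : ℂ)) z
      ((hcomp.differentiableAt (by simp)).congr_of_eventuallyEq hevF)
      ((dq_smooth z hz).differentiableAt (by simp)) (dq_ne hz (by linarith)) ?_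
    filter_upwards [hev1 z hz (by linarith), hevF] with y hy1 hy2
    rw [hy1, hy2, hf1]

end Pool.Agent.KNT
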