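import Pool.Agent.KNT.Stmts

/-!
# CSB: outside the ball `em (cap 0)` the knots `FF` and `FF1` agree
-/

set_option autoImplicit false

open scoped ContDiff ComplexConjugate Topology
open Set

namespace Pool.Agent.KNT

namespace CSB_

theorem mem_nhds_ne {P : C3} {w : ℂ} (hP : P ≠ 0) : {p : C3 × ℂ | p.1 ≠ 0} ∈ 𝓝 (P, w) :=
  (isOpen_ne.preimage continuous_fst).mem_nhds hP

end CSB_

open CSB_

theorem csb_proof (hSAT : Stmt_SAT) (hSHA : Stmt_SHA) (hCHT : Stmt_CHT) (hGRG : Stmt_GRG)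
    (_hTAU : Stmt_TAU) (hKKB : Stmt_KKB) : Stmt_CSB := by
  intro T A ε l η hl hε hη hs2 z hz hz0
  obtain ⟨-, -, -, hS4, -, -⟩ := hSAT C4
  obtain ⟨-, hK2, -, -, hKd, -, -⟩ := hKKB T A l hl
  have hgc : ContinuousAt gb z :=
    (hGRG.1.smooth.continuousOn).continuousAt (isOpen_compl_singleton.mem_nhds hz0)
  by_cases hgb : ‖gb z‖ < T.δ
  · obtain ⟨hp0, hp2, hp3⟩ := T.G_Gi z hz0 hgb
    obtain ⟨P, w, hPw⟩ : ∃ P w, T.Gi z = (P, w) := ⟨_, _, rfl⟩
    rw [hPw] at hp0 hp2 hp3
    have hP : P ≠ 0 := hp0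
    have hkc : ContinuousAt (kk A l) (P, w) :=
      (hKd.continuousOn).continuousAt (mem_nhds_ne hP)
    have hk : kk A l (P, w) ≤ 1 / 2 := by
      by_contra hk
      push Not at hk
      apply hz
      have h2 : 1 / 2 < l ^ 2 * tau A P := (hK2 P w hP (by linarith)).2.1
      have h3 : 0 < tau A P := by
        by_contra h
        push Not at h
        have : l ^ 2 * tau A P ≤ 0 := mul_nonpos_of_nonneg_of_nonpos (sq_nonneg l) h
        linarith
      obtain ⟨h4, h5, h6⟩ := (hCHT T A ε l hl hε).2 P w hP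
      have h7 := h6 h3
      refine ⟨Si A ε l (P, w), ?_, ?_⟩
      · show (Si A ε l (P, w) (Fin.last 3)).re < 0 * ‖Si A ε l (P, w)‖
        have h8 : 0 < ‖Si A ε l (P, w)‖ := by
          rw [h4]
          exact norm_pos_iff.2 hP
        have h9 : ((nz (Si A ε l (P, w))) 3).re < 0 := by
          unfold Dq at h5
          linarith
        have h10 : ((nz (Si A ε l (P, w))) 3).re =
            ‖Si A ε l (P, w)‖⁻¹ * (Si A ε l (P, w) 3).re := by
          unfold nz
          simp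
        rw [h10] at h9
        rw [zero_mul]
        exact (pos_iff_neg_of_mul_neg h9).1 (inv_pos.2 h8)
      · show T.G (Sm A ε l (Si A ε l (P, w))) = z
        rw [h7]
        exact hp3
    have h1 : SHt A l η 1 =ᶠ[𝓝 (P, w)] SH1 A l η := by
      have hk' : kk A l (P, w) < 13 / 20 := by linarith
      filter_upwards [hkc.eventually_lt continuousAt_const hk', mem_nhds_ne hP]
        with p hp hp0
      unfold SH1
      split_ifs with h
      · exact (hSHA T A l η hl hs2).2.2 p.1 p.2 hp0 (by linarith) hp.le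
      · rfl
    have hGi : ContinuousAt T.Gi z := by
      have hopen : {z : C4 | z ≠ 0 ∧ ‖gb z‖ < T.δ} ∈ 𝓝 z := by
        have h2 : ∀ᶠ z' in 𝓝 z, ‖gb z'‖ < T.δ := hgc.norm.eventually_lt continuousAt_const hgb
        have h3 : ∀ᶠ z' in 𝓝 z, z' ≠ 0 := isOpen_ne.mem_nhds hz0
        filter_upwards [h2, h3] with z' h4 h5
        exact ⟨h5, h4⟩
      exact T.Gi_smooth.continuousOn.continuousAt hopen
    apply hS4
    have h2 : ∀ᶠ z' in 𝓝 z, ‖gb z'‖ < T.δ := hgc.norm.eventually_lt continuousAt_const hgb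
    have h3 : ∀ᶠ z' in 𝓝 z, SHt A l η 1 (T.Gi z') = SH1 A l η (T.Gi z') := by
      have h4 : Filter.Tendsto T.Gi (𝓝 z) (𝓝 (P, w)) := by
        rw [← hPw]
        exact hGi
      exact h4.eventually h1
    filter_upwards [h2, h3] with z' h4 h5
    unfold FF FF1 TF
    rw [if_pos h4, if_pos h4, h5]
  · have h1 : ∀ Ψ : C3 × ℂ → ℂ, TF T Ψ z = gb z ^ 2 := fun Ψ => if_neg hgb
    have h2 : gb z ≠ 0 := by
      intro h
      rw [h, norm_zero] at hgb
      exact hgb T.δ_pos
    have h3 : FF A l η z ≠ 0 := by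
      unfold FF
      rw [h1]
      exact pow_ne_zero 2 h2
    have h4 : FF1 A l η z ≠ 0 := by
      unfold FF1
      rw [h1]
      exact pow_ne_zero 2 h2
    exact ⟨⟨fun h => absurd h h3, fun h => absurd h h4⟩, fun h => absurd h h3⟩

end Pool.Agent.KNT
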