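import Pool.Agent.KNT.Stmts

/-!
# KNT, module DIF: families of self maps of the sphere near the identity
-/

set_option autoImplicit false

open scoped ContDiff ComplexConjugate
open Set Filter Topology Metric

namespace Pool.Agent.KNT

namespace DIF_

variable {V : Type} [NormedAddCommGroup V] [InnerProductSpace ℝ V]

lemma nz_norm (z : V) (hz : z ≠ 0) : ‖nz z‖ = 1 := by
  rw [nz, norm_smul, Real.norm_eq_abs, abs_of_nonneg (inv_nonneg.mpr (norm_nonneg _)),
    inv_mul_cancel₀ (norm_ne_zero_iff.mpr hz)]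

lemma norm_smul_nz (z : V) (hz : z ≠ 0) : ‖z‖ • nz z = z := by
  rw [nz, smul_smul, mul_inv_cancel₀ (norm_ne_zero_iff.mpr hz), one_smul]

lemma nz_smul (r : ℝ) (hr : 0 < r) (z : V) : nz (r • z) = nz z := by
  rw [nz, nz, norm_smul, Real.norm_eq_abs, abs_of_pos hr, smul_smul, mul_inv_rev,
    mul_assoc, inv_mul_cancel₀ hr.ne', mul_one]

lemma nz_smooth : ContDiffOn ℝ ∞ (fun z : V => nz z) {0}ᶜ := by
  unfold nz
  apply ContDiffOn.smul
  · apply ContDiffOn.inv
    · intro z hz
      exact (contDiffAt_norm ℝ hz).contDiffWithinAt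
    · intro z hz
      exact norm_ne_zero_iff.mpr hz
  · exact contDiffOn_id

end DIF_

open DIF_ in
theorem dif_proof (hINJ : Stmt_INJ) : Stmt_DIF := by
  intro V _ _ _ t₀ δ H hδ hhom hnorm hsm hid
  set f : ℝ × V → ℝ × V := fun p => (p.1, H p.1 p.2) with hf
  set O : Set (ℝ × V) := {p | p.1 ∈ ball t₀ δ ∧ p.2 ≠ 0} with hO
  set K : Set (ℝ × V) := {t₀} ×ˢ sphere (0 : V) 1 with hK
  have hOo : IsOpen O := by
    apply IsOpen.inter
    · exact isOpen_ball.preimage continuous_fst
    · exact isOpen_ne.preimage continuous_snd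
  have hfsm : ContDiffOn ℝ ∞ f O := contDiff_fst.contDiffOn.prodMk hsm
  have hKc : IsCompact K := isCompact_singleton.prod (isCompact_sphere 0 1)
  have hKO : K ⊆ O := by
    rintro ⟨t, x⟩ ⟨ht, hx⟩
    have ht' : t = t₀ := ht
    refine ⟨?_, ?_⟩
    · show t ∈ ball t₀ δ
      rw [ht']
      exact mem_ball_self hδ
    · show x ≠ 0
      intro h
      rw [h] at hx
      simp at hx
  have hfK : ∀ p ∈ K, f p = p := by
    rintro ⟨t, x⟩ ⟨ht, hx⟩
    have ht' : t = t₀ := ht
    show (t, H t x) = (t, x)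
    rw [ht', hid]
  have hinjK : InjOn f K := by
    intro p hp p' hp' h
    rw [hfK p hp, hfK p' hp'] at h
    exact h
  have hdK : ∀ p ∈ K, Function.Bijective (fderiv ℝ f p) := by
    rintro ⟨t, x⟩ hp
    have ht' : t = t₀ := hp.1
    subst ht'
    have hd : HasFDerivAt f (fderiv ℝ f (t, x)) (t, x) :=
      (((hfsm (t, x) (hKO hp)).contDiffAt (hOo.mem_nhds (hKO hp))).differentiableAt
        (by norm_num)).hasFDerivAt
    -- derivative in the direction of `V`
    have h1 : ∀ v : V, fderiv ℝ f (t, x) (0, v) = (0, v) := by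
      intro v
      have hc : HasFDerivAt (fun y : V => ((t, y) : ℝ × V)) (ContinuousLinearMap.inr ℝ ℝ V) x := by
        have := (hasFDerivAt_const t x (𝕜 := ℝ)).prodMk (hasFDerivAt_id x)
        exact this
      have h2 := HasFDerivAt.comp x hd hc
      have h3 : (f ∘ fun y : V => ((t, y) : ℝ × V)) = fun y : V => ((t, y) : ℝ × V) := by
        funext y
        show (t, H t y) = (t, y)
        rw [hid]
      rw [h3] at h2
      have h4 := h2.unique hc
      have h5 := congrArg (fun L : V →L[ℝ] ℝ × V => L v) h4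
      simpa using h5
    -- first component of the derivative
    have h2 : ∀ q : ℝ × V, (fderiv ℝ f (t, x) q).1 = q.1 := by
      intro q
      have h3 := hd.fst
      have h4 : (fun p : ℝ × V => (f p).1) = Prod.fst := rfl
      rw [h4] at h3
      have h5 := h3.unique hasFDerivAt_fst
      have h6 := congrArg (fun L : ℝ × V →L[ℝ] ℝ => L q) h5
      simpa using h6
    have hinj : Function.Injective (fderiv ℝ f (t, x)) := by
      rw [injective_iff_map_eq_zero]
      rintro ⟨s, v⟩ h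
      have hs : s = 0 := by
        have := h2 (s, v)
        rw [h] at this
        exact this.symm
      rw [hs, h1] at h
      rw [hs]
      exact h
    refine ⟨hinj, ?_⟩
    exact (LinearMap.injective_iff_surjective (f := (fderiv ℝ f (t, x)).toLinearMap)).mp hinj
  obtain ⟨U, hUo, hKU, hUO, hUinj, -, hUim, g, hgsm, hgf⟩ :=
    hINJ (ℝ × V) (ℝ × V) f O K hOo hfsm hKc hKO hinjK hdK
  have hfUo : IsOpen (f '' U) := hUim U hUo subset_rfl
  have hKfU : K ⊆ f '' U := fun p hp => ⟨p, hKU hp, hfK p hp⟩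
  -- tube lemma
  have hopen : IsOpen (U ∩ f '' U) := hUo.inter hfUo
  obtain ⟨A, B, hA, hB, hAt, hBs, hAB⟩ := generalized_tube_lemma (isCompact_singleton (x := t₀))
    (isCompact_sphere (0 : V) 1) hopen (subset_inter hKU hKfU)
  obtain ⟨δ₁, hδ₁, hball⟩ := Metric.isOpen_iff.mp hA t₀ (hAt rfl)
  set δ' : ℝ := min δ₁ δ with hδ'
  have hδ'0 : 0 < δ' := lt_min hδ₁ hδ
  have hmemU : ∀ t ∈ ball t₀ δ', ∀ x : V, ‖x‖ = 1 → (t, x) ∈ U ∩ f '' U := by
    intro t ht x hx
    apply hAB
    exact ⟨hball (ball_subset_ball (min_le_left _ _) ht), hBs (by simpa using hx)⟩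
  -- `f (g p) = p` on `f '' U`
  have hfg : ∀ p ∈ f '' U, g p ∈ U ∧ f (g p) = p := by
    rintro p ⟨u, hu, rfl⟩
    rw [hgf u hu]
    exact ⟨hu, rfl⟩
  classical
  set G : ℝ → V → V := fun t x =>
    if t ∈ ball t₀ δ' ∧ x ≠ 0 then ‖x‖ • (g (t, nz x)).2 else x with hG
  have hGdef : ∀ t ∈ ball t₀ δ', ∀ x : V, x ≠ 0 → G t x = ‖x‖ • (g (t, nz x)).2 := by
    intro t ht x hx
    rw [hG]
    exact if_pos ⟨ht, hx⟩
  have hkey : ∀ t ∈ ball t₀ δ', ∀ x : V, x ≠ 0 →
      (g (t, nz x)).1 = t ∧ H t (g (t, nz x)).2 = nz x ∧ ‖(g (t, nz x)).2‖ = 1 := by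
    intro t ht x hx
    have h1 := hfg (t, nz x) (hmemU t ht (nz x) (nz_norm x hx)).2
    have h2 : ((g (t, nz x)).1, H (g (t, nz x)).1 (g (t, nz x)).2) = (t, nz x) := h1.2
    have h3 : (g (t, nz x)).1 = t := congrArg Prod.fst h2
    have h4 : H (g (t, nz x)).1 (g (t, nz x)).2 = nz x := congrArg Prod.snd h2
    rw [h3] at h4
    refine ⟨h3, h4, ?_⟩
    rw [← hnorm t, h4, nz_norm x hx]
  have hGnorm : ∀ t z, ‖G t z‖ = ‖z‖ := by
    intro t z
    by_cases h : t ∈ ball t₀ δ' ∧ z ≠ 0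
    · rw [hGdef t h.1 z h.2, norm_smul, (hkey t h.1 z h.2).2.2, mul_one, norm_norm]
    · rw [hG]
      simp only [if_neg h]
  refine ⟨δ', G, hδ'0, min_le_right _ _, ?_, hGnorm, ?_, ?_, ?_⟩
  · intro t r hr z
    by_cases h : t ∈ ball t₀ δ' ∧ z ≠ 0
    · have hrz : r • z ≠ 0 := smul_ne_zero hr.ne' h.2
      rw [hGdef t h.1 z h.2, hGdef t h.1 _ hrz, nz_smul r hr, norm_smul, Real.norm_eq_abs,
        abs_of_pos hr, mul_smul]
    · have h' : ¬ (t ∈ ball t₀ δ' ∧ r • z ≠ 0) := by
        intro h2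
        exact h ⟨h2.1, fun hz => h2.2 (by rw [hz, smul_zero])⟩
      rw [hG]
      simp only [if_neg h, if_neg h']
  · -- smoothness
    have hc : ContDiffOn ℝ ∞ (fun p : ℝ × V => ‖p.2‖ • (g (p.1, nz p.2)).2)
        {p | p.1 ∈ ball t₀ δ' ∧ p.2 ≠ 0} := by
      apply ContDiffOn.smul
      · intro p hp
        have h1 : ContDiffAt ℝ ∞ (fun v : V => ‖v‖) p.2 := contDiffAt_norm ℝ hp.2
        exact (h1.comp p contDiffAt_snd).contDiffWithinAt
      · apply ContDiff.comp_contDiffOn contDiff_snd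
        apply hgsm.comp
        · apply contDiff_fst.contDiffOn.prodMk
          apply nz_smooth.comp contDiff_snd.contDiffOn
          intro p hp
          exact hp.2
        · intro p hp
          exact (hmemU p.1 hp.1 (nz p.2) (nz_norm p.2 hp.2)).2
    apply hc.congr
    intro p hp
    exact hGdef p.1 hp.1 p.2 hp.2
  · -- left inverse
    intro t ht z
    by_cases hz : z = 0
    · have h0 : H t z = 0 := by
        rw [← norm_eq_zero, hnorm, hz, norm_zero]
      rw [h0, hz, ← norm_eq_zero, hGnorm, norm_zero]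
    · have h0 : H t z ≠ 0 := by
        rw [← norm_ne_zero_iff, hnorm, norm_ne_zero_iff]
        exact hz
      rw [hGdef t ht _ h0, hnorm]
      have h1 : nz (H t z) = H t (nz z) := by
        rw [nz, hnorm, ← hhom t _ (inv_pos.mpr (norm_pos_iff.mpr hz))]
        rfl
      have h2 : (t, nz (H t z)) = f (t, nz z) := by
        show (t, nz (H t z)) = (t, H t (nz z))
        rw [h1]
      rw [h2, hgf _ (hmemU t ht (nz z) (nz_norm z hz)).1]
      exact norm_smul_nz z hz
  · -- right inverse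
    intro t ht z
    by_cases hz : z = 0
    · have h0 : G t z = 0 := by
        rw [← norm_eq_zero, hGnorm, hz, norm_zero]
      rw [h0, hz, ← norm_eq_zero, hnorm, norm_zero]
    · rw [hGdef t ht z hz, hhom t _ (norm_pos_iff.mpr hz), (hkey t ht z hz).2.1]
      exact norm_smul_nz z hz

end Pool.Agent.KNT
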