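import Pool.Agent.KNT.Stmts

/-!
# EMB: the map `em` is an embedding of the cap, up to the orientation
-/

set_option autoImplicit false

open scoped ContDiff ComplexConjugate Topology
open Set

namespace Pool.Agent.KNT

namespace EMB_

theorem gb_cont {z : C4} (hz : z ≠ 0) : ContinuousAt gb z := by
  have h1 : ContinuousAt (nz : C4 → C4) z := by
    unfold nz
    exact (continuousAt_id.norm.inv₀ (norm_ne_zero_iff.2 hz)).smul continuousAt_id
  have h2 : Continuous g4 := by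
    unfold g4
    fun_prop
  exact h2.continuousAt.comp h1

theorem Gi_open (T : Tube) {z : C4} (hz : z ≠ 0) (h : ‖gb z‖ < T.δ) :
    {z : C4 | z ≠ 0 ∧ ‖gb z‖ < T.δ} ∈ 𝓝 z := by
  have h2 : ∀ᶠ z' in 𝓝 z, ‖gb z'‖ < T.δ := (gb_cont hz).norm.eventually_lt continuousAt_const h
  have h3 : ∀ᶠ z' in 𝓝 z, z' ≠ 0 := isOpen_ne.mem_nhds hz
  filter_upwards [h2, h3] with z' h4 h5
  exact ⟨h5, h4⟩

theorem cap_open : IsOpen (cap 3 (1 / 5)) := by
  unfold cap
  refine isOpen_lt ?_ (continuous_const.mul continuous_norm)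
  exact Complex.continuous_re.comp (by fun_prop)

theorem cap_facts (T : Tube) (A : Fr T) (ε l : ℝ) {z : C4} (hz : z ∈ cap 3 (1 / 5)) :
    z ≠ 0 ∧ (z 3).re < ‖z‖ ∧ ‖(Sm A ε l z).2‖ < T.δ := by
  have h1 : (z 3).re < 1 / 5 * ‖z‖ := hz
  have hδ := T.δ_pos
  have h2 : z ≠ 0 := by
    rintro rfl
    simp at h1
  have h3 : 0 < ‖z‖ := norm_pos_iff.2 h2
  refine ⟨h2, by linarith, ?_⟩
  have h4 : ((nz z) 3).re < 1 / 5 := by
    have h5 : ((nz z) 3).re = ‖z‖⁻¹ * (z 3).re := by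
      unfold nz
      simp
    rw [h5, inv_mul_lt_iff₀ h3]
    linarith
  have h5 : ‖(nz z) 2‖ ≤ 1 := by
    have h6 : ‖nz z‖ = 1 := by
      unfold nz
      rw [norm_smul, norm_inv, norm_norm, inv_mul_cancel₀ h3.ne']
    rw [← h6]
    exact PiLp.norm_apply_le (nz z) 2
  have h6 : 4 / 5 < Dq (nz z) := by
    unfold Dq
    linarith
  show ‖(dd T : ℂ) * (nz z) 2 / Dq (nz z)‖ < T.δ
  rw [norm_div, norm_mul, Complex.norm_real, Complex.norm_real,
    Real.norm_of_nonneg (by unfold dd; positivity), Real.norm_of_nonneg (by linarith),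
    div_lt_iff₀ (by linarith)]
  unfold dd
  have h7 : 0 ≤ ‖(nz z) 2‖ := norm_nonneg _
  nlinarith

end EMB_

open EMB_

theorem emb_proof (hCHT : Stmt_CHT) (hCHS : Stmt_CHS) : Stmt_EMB := by
  intro T A ε l hl hε
  obtain ⟨hS1, hS2, hS3, -⟩ := hCHS T A ε l hl hε
  have hT1 := (hCHT T A ε l hl hε).1
  have hP : ∀ z ∈ cap 3 (1 / 5), (Sm A ε l z).1 ≠ 0 := by
    intro z hz h
    obtain ⟨h1, h2, -⟩ := cap_facts T A ε l hz
    have h3 := (hT1 z h1 h2).1
    rw [h, norm_zero] at h3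
    exact h1 (norm_eq_zero.1 h3.symm)
  have hleft : ∀ z ∈ cap 3 (1 / 5), Si A ε l (T.Gi (em A ε l z)) = z := by
    intro z hz
    obtain ⟨h1, h2, h3⟩ := cap_facts T A ε l hz
    have h4 : T.Gi (T.G (Sm A ε l z)) = Sm A ε l z :=
      T.Gi_G (Sm A ε l z).1 (Sm A ε l z).2 (hP z hz) h3
    unfold em
    rw [h4]
    exact (hT1 z h1 h2).2.2.1
  have hnorm : ∀ z ∈ cap 3 (1 / 5), ‖em A ε l z‖ = ‖z‖ := by
    intro z hz
    obtain ⟨h1, h2, h3⟩ := cap_facts T A ε l hz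
    have h4 : ‖T.G ((Sm A ε l z).1, (Sm A ε l z).2)‖ = _ := T.G_norm _ _ (hP z hz) h3
    exact h4.trans (hT1 z h1 h2).1
  have hsm : ContDiffOn ℝ ∞ (em A ε l) (cap 3 (1 / 5)) := by
    refine T.G_smooth.comp (hS1.mono ?_) ?_
    · intro z hz
      exact (cap_facts T A ε l hz).2.1
    · intro z hz
      exact ⟨hP z hz, (cap_facts T A ε l hz).2.2⟩
  refine ⟨fun z hz => cap_facts T A ε l hz, ?_, hnorm, hsm, ?_, ?_⟩
  · intro r hr z hz
    unfold em
    rw [hS3 r hr z]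
    exact T.G_hom r hr _ _
  · intro z hz z' hz' h
    rw [← hleft z hz, ← hleft z' hz', h]
  · intro z hz
    obtain ⟨h1, h2, h3⟩ := cap_facts T A ε l hz
    have hem0 : em A ε l z ≠ 0 := by
      intro h
      have h4 := hnorm z hz
      rw [h, norm_zero] at h4
      exact h1 (norm_eq_zero.1 h4.symm)
    have hgb : ‖gb (em A ε l z)‖ < T.δ := by
      have h4 : gb (T.G ((Sm A ε l z).1, (Sm A ε l z).2)) = (Sm A ε l z).2 :=
        T.G_gb _ _ (hP z hz) h3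
      have h5 : gb (em A ε l z) = (Sm A ε l z).2 := h4
      rw [h5]
      exact h3
    have d1 : DifferentiableAt ℝ (em A ε l) z :=
      (hsm.contDiffAt (cap_open.mem_nhds hz)).differentiableAt (by norm_num)
    have d2 : DifferentiableAt ℝ T.Gi (em A ε l z) :=
      (T.Gi_smooth.contDiffAt (Gi_open T hem0 hgb)).differentiableAt (by norm_num)
    have d3 : DifferentiableAt ℝ (Si A ε l) (T.Gi (em A ε l z)) := by
      have h4 : {p : C3 × ℂ | p.1 ≠ 0} ∈ 𝓝 (T.Gi (em A ε l z)) :=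
        (isOpen_ne.preimage continuous_fst).mem_nhds (T.G_Gi _ hem0 hgb).1
      exact (hS2.contDiffAt h4).differentiableAt (by norm_num)
    have h4 : (fun x => (Si A ε l ∘ T.Gi) (em A ε l x)) =ᶠ[𝓝 z] id := by
      filter_upwards [cap_open.mem_nhds hz] with x hx
      exact hleft x hx
    have h5 : HasFDerivAt (fun x => (Si A ε l ∘ T.Gi) (em A ε l x))
        ((fderiv ℝ (Si A ε l ∘ T.Gi) (em A ε l z)).comp (fderiv ℝ (em A ε l) z)) z :=
      HasFDerivAt.comp z (d3.comp _ d2).hasFDerivAt d1.hasFDerivAt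
    have h6 : (fderiv ℝ (Si A ε l ∘ T.Gi) (em A ε l z)).comp (fderiv ℝ (em A ε l) z) =
        ContinuousLinearMap.id ℝ C4 := by
      have h7 := h4.fderiv_eq (𝕜 := ℝ)
      rw [h5.fderiv, fderiv_id] at h7
      exact h7
    intro hdet
    have h7 : LinearMap.det (((fderiv ℝ (Si A ε l ∘ T.Gi) (em A ε l z)).comp
        (fderiv ℝ (em A ε l) z) : C4 →L[ℝ] C4) : C4 →ₗ[ℝ] C4) = 1 := by
      rw [h6]
      exact LinearMap.det_id
    have h8 : (((fderiv ℝ (Si A ε l ∘ T.Gi) (em A ε l z)).comp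
        (fderiv ℝ (em A ε l) z) : C4 →L[ℝ] C4) : C4 →ₗ[ℝ] C4) =
        ((fderiv ℝ (Si A ε l ∘ T.Gi) (em A ε l z) : C4 →L[ℝ] C4) : C4 →ₗ[ℝ] C4).comp
        ((fderiv ℝ (em A ε l) z : C4 →L[ℝ] C4) : C4 →ₗ[ℝ] C4) := rfl
    have h9 : LinearMap.det ((fderiv ℝ (em A ε l) z : C4 →L[ℝ] C4) : C4 →ₗ[ℝ] C4) = 0 := hdet
    rw [h8, LinearMap.det_comp, h9, mul_zero] at h7
    exact zero_ne_one h7

end Pool.Agent.KNT
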