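import Pool.Agent.KNT.Stmts

/-!
# Squad KNT: EXT
-/

set_option autoImplicit false

open scoped ContDiff ComplexConjugate
open Set Filter Topology Metric

namespace Pool.Agent.KNT

namespace EXT_

variable {V : Type} [NormedAddCommGroup V] [NormedSpace ℝ V]

lemma nz_mem (x : V) (hx : x ≠ 0) : nz x ∈ sphere (0 : V) 1 := by
  simp [nz, norm_smul, hx]

lemma nz_contAt (x : V) (hx : x ≠ 0) : ContinuousAt (nz : V → V) x := by
  unfold nz
  exact (continuousAt_id.norm.inv₀ (norm_ne_zero_iff.mpr hx)).smul continuousAt_id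

/-- conical extension -/
lemma cone_cont [FiniteDimensional ℝ V] (g : V → ℂ) (hg : ContinuousOn g (sphere 0 1)) :
    Continuous (fun x : V => (‖x‖ : ℂ) * g (nz x)) := by
  have : ProperSpace V := FiniteDimensional.proper_real V
  rw [continuous_iff_continuousAt]
  intro x
  by_cases hx : x = 0
  · subst hx
    obtain ⟨C, hC⟩ := (isCompact_sphere (0 : V) 1).exists_bound_of_continuousOn hg
    have h0 : ((‖(0 : V)‖ : ℝ) : ℂ) * g (nz 0) = 0 := by simp
    rw [ContinuousAt, h0]
    have hb : ∀ x : V, ‖(‖x‖ : ℂ) * g (nz x)‖ ≤ ‖x‖ * C := by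
      intro x
      by_cases hx : x = 0
      · simp [hx]
      · rw [norm_mul, Complex.norm_real, norm_norm]
        exact mul_le_mul_of_nonneg_left (hC _ (nz_mem x hx)) (norm_nonneg _)
    refine squeeze_zero_norm hb ?_
    have : Continuous (fun x : V => ‖x‖ * C) := by fun_prop
    have h2 := this.tendsto 0
    simpa using h2
  · have h1 : ContinuousAt (fun x : V => g (nz x)) x := by
      have h2 : ContinuousWithinAt g (sphere 0 1) (nz x) := hg _ (nz_mem x hx)
      have h3 : Tendsto (nz : V → V) (𝓝 x) (𝓝[sphere 0 1] (nz x)) := by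
        rw [tendsto_nhdsWithin_iff]
        refine ⟨nz_contAt x hx, ?_⟩
        filter_upwards [isOpen_compl_singleton.mem_nhds hx] with y hy
        exact nz_mem y hy
      exact h2.tendsto.comp h3
    exact (Complex.continuous_ofReal.continuousAt.comp continuousAt_id.norm).mul h1

end EXT_

open EXT_ in
theorem ext_proof (hLGS : Stmt_LGS) : Stmt_EXT := by
  intro F ⟨h, h', hc, hc', hn, hn', hl, hr, hF⟩ i hi hiF
  have hi0 : ∀ v ∈ sphere (0 : R4) 1, i v ≠ 0 := by
    intro v hv h0
    have := (hiF v hv).1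
    rw [h0, norm_zero] at this
    exact one_ne_zero this.symm
  have ha : ContinuousOn (fun v => h (i v)) (sphere 0 1) :=
    hc.comp hi (fun v hv => hi0 v hv)
  have ha0 : ∀ v ∈ sphere (0 : R4) 1, (h (i v)) 0 ≠ 0 := by
    intro v hv h0
    exact (hiF v hv).2 ((hF (i v) (hi0 v hv)).mpr h0)
  have hak : ∀ k : Fin 4, ContinuousOn (fun v => (h (i v)) k) (sphere 0 1) := fun k =>
    (EuclideanSpace.proj (𝕜 := ℂ) k).continuous.comp_continuousOn ha
  obtain ⟨L, hL, hLe⟩ := hLGS (fun v => (h (i v)) 0) (hak 0) ha0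
  let b : R4 → C4 := fun x => !₂[Complex.exp ((‖x‖ : ℂ) * L (nz x)),
    (‖x‖ : ℂ) * (h (i (nz x))) 1, (‖x‖ : ℂ) * (h (i (nz x))) 2, (‖x‖ : ℂ) * (h (i (nz x))) 3]
  have hb : Continuous b := by
    have h0 := Complex.continuous_exp.comp (cone_cont L hL)
    have h1 := cone_cont _ (hak 1)
    have h2 := cone_cont _ (hak 2)
    have h3 := cone_cont _ (hak 3)
    apply (PiLp.continuous_toLp 2 (fun _ : Fin 4 => ℂ)).comp
    apply continuous_pi
    intro k
    fin_cases k
    · exact h0
    · exact h1
    · exact h2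
    · exact h3
  have hb0 : ∀ x, (b x) 0 ≠ 0 := by
    intro x
    change Complex.exp _ ≠ 0
    exact Complex.exp_ne_zero _
  have hbne : ∀ x, b x ≠ 0 := by
    intro x h0
    apply hb0 x
    rw [h0]
    rfl
  have hbs : ∀ v ∈ sphere (0 : R4) 1, b v = h (i v) := by
    intro v hv
    have hv1 : ‖v‖ = 1 := by simpa using hv
    have hnz : nz v = v := by simp [nz, hv1]
    ext k
    fin_cases k
    · change Complex.exp ((‖v‖ : ℂ) * L (nz v)) = _
      rw [hv1, hnz]
      simpa using hLe v hv
    · change (‖v‖ : ℂ) * (h (i (nz v))) 1 = _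
      rw [hv1, hnz]
      simp
    · change (‖v‖ : ℂ) * (h (i (nz v))) 2 = _
      rw [hv1, hnz]
      simp
    · change (‖v‖ : ℂ) * (h (i (nz v))) 3 = _
      rw [hv1, hnz]
      simp
  have hnzb : ∀ x, ‖nz (b x)‖ = 1 := by
    intro x
    have := nz_mem (b x) (hbne x)
    simpa using this
  refine ⟨fun x => h' (nz (b x)), ?_, ?_, ?_⟩
  · apply Continuous.continuousOn
    rw [continuous_iff_continuousAt]
    intro x
    have h1 : ContinuousAt (nz : C4 → C4) (b x) := nz_contAt _ (hbne x)
    have h2 : ContinuousAt h' (nz (b x)) := by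
      apply hc'.continuousAt
      apply isOpen_compl_singleton.mem_nhds
      intro h0
      have := hnzb x
      rw [show nz (b x) = 0 from h0, norm_zero] at this
      exact one_ne_zero this.symm
    have h3 : ContinuousAt (fun x => nz (b x)) x :=
      ContinuousAt.comp (f := b) (g := (nz : C4 → C4)) h1 hb.continuousAt
    exact ContinuousAt.comp (f := fun x => nz (b x)) (g := h') h2 h3
  · intro x _
    refine ⟨by rw [hn', hnzb], ?_⟩
    intro h0
    have hne : h' (nz (b x)) ≠ 0 := by
      intro h1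
      have := hn' (nz (b x))
      rw [h1, norm_zero, hnzb] at this
      exact one_ne_zero this.symm
    have h2 := (hF _ hne).mp h0
    rw [hr] at h2
    have h3 : (nz (b x)) 0 = ((‖b x‖⁻¹ : ℝ) : ℂ) * (b x) 0 := by
      simp [nz]
    rw [h3] at h2
    rcases mul_eq_zero.mp h2 with h4 | h4
    · have := norm_ne_zero_iff.mpr (hbne x)
      apply this
      simpa using h4
    · exact hb0 x h4
  · intro v hv
    have hv1 : ‖h (i v)‖ = 1 := by rw [hn, (hiF v hv).1]
    change h' (nz (b v)) = i v
    rw [hbs v hv]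
    have : nz (h (i v)) = h (i v) := by simp [nz, hv1]
    rw [this, hl]

end Pool.Agent.KNT
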