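import Pool.Agent.KNT.Stmts

/-!
# Squad KNT: module FRE (base point and frame)
-/

set_option autoImplicit false

open scoped ContDiff ComplexConjugate Topology
open Set

namespace Pool.Agent.KNT

namespace FRE_

/-- derivative of a product at a zero of a factor -/
theorem hasFDerivAt_mul_zero {V : Type} [NormedAddCommGroup V] [NormedSpace ℝ V] {κ u : V → ℂ}
    {u' : V →L[ℝ] ℂ} {q : V} (hκ : ContinuousAt κ q) (hu : HasFDerivAt u u' q) (h0 : u q = 0) :
    HasFDerivAt (fun p => κ p * u p) (κ q • u') q := by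
  rw [hasFDerivAt_iff_isLittleO]
  have h1 : (fun p => (κ p - κ q) * u p) =o[𝓝 q] fun p => p - q := by
    have h2 : (fun p => κ p - κ q) =o[𝓝 q] (fun _ => (1 : ℝ)) := by
      rw [Asymptotics.isLittleO_one_iff]
      exact tendsto_sub_nhds_zero_iff.2 hκ
    have h3 : u =O[𝓝 q] fun p => p - q := by
      have := hu.isBigO_sub
      simpa [h0] using this
    have h4 := h2.mul_isBigO h3.norm_right
    simpa using h4
  have h5 : (fun p => κ q * (u p - u q - u' (p - q))) =o[𝓝 q] fun p => p - q :=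
    hu.isLittleO.const_mul_left _
  refine (h1.add h5).congr_left fun p => ?_
  rw [h0]
  simp only [smul_apply, smul_eq_mul]
  ring

/-- the factor in `sT P = K P * conj (h3 P)` -/
noncomputable def K (T : Tube) (Q : C3) : ℂ :=
  ((‖(T.ι Q) 0‖ / ‖sq Q‖ : ℝ) : ℂ) ^ 9 * (Complex.I * sq Q ^ 2 / ‖sq Q‖) ^ 6

theorem nz_unit {V : Type} [NormedAddCommGroup V] [NormedSpace ℝ V] {z : V} (h : ‖z‖ = 1) :
    nz z = z := by
  unfold nz; rw [h]; simp

theorem norm_nz {V : Type} [NormedAddCommGroup V] [NormedSpace ℝ V] {z : V} (h : z ≠ 0) :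
    ‖nz z‖ = 1 := by
  unfold nz
  rw [norm_smul, norm_inv, norm_norm, inv_mul_cancel₀ (norm_ne_zero_iff.2 h)]

theorem sT_unit (T : Tube) (P : C3) (h : ‖P‖ = 1) (h6 : 1 / 6 < ‖sq P‖) :
    sT T P = K T P * conj (h3 P) := by
  obtain ⟨ρ, hρ, e0, e1, e2, e3⟩ := T.ι_form P h h6
  have hs : ‖sq P‖ ≠ 0 := by intro h; rw [h] at h6; norm_num at h6
  have hr : ((‖(T.ι P) 0‖ / ‖sq P‖ : ℝ) : ℂ) = (ρ : ℂ) ^ 2 := by
    rw [e0, norm_mul, norm_pow, Complex.norm_real, Real.norm_of_nonneg hρ.le,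
      mul_div_assoc, div_self hs, mul_one]
    push_cast
    rfl
  unfold sT hb
  rw [nz_unit (by rw [T.ι_norm, h])]
  unfold h4 K h3
  rw [hr, e1, e2, e3]
  simp only [map_add, map_mul, map_pow, map_ofNat]
  ring

theorem sT_ray (T : Tube) (P : C3) (hP : P ≠ 0) : sT T P = sT T (nz P) := by
  have h0 : 0 < ‖P‖ := norm_pos_iff.2 hP
  have h1 : P = ‖P‖ • nz P := by
    unfold nz
    rw [smul_smul, mul_inv_cancel₀ h0.ne', one_smul]
  have h2 : T.ι P = ‖P‖ • T.ι (nz P) := by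
    conv_lhs => rw [h1]
    rw [T.ι_hom _ h0]
  unfold sT hb
  congr 1
  have h3 : ‖T.ι (nz P)‖ = 1 := by rw [T.ι_norm, norm_nz hP]
  rw [nz_unit h3]
  unfold nz
  rw [T.ι_norm, h2, smul_smul, inv_mul_cancel₀ h0.ne', one_smul]
  rfl

theorem h3_smul (r : ℝ) (P : C3) : h3 (r • P) = (r : ℂ) ^ 6 * h3 P := by
  unfold h3
  simp only [PiLp.smul_apply, Complex.real_smul]
  ring

theorem continuous_sq : Continuous sq := by
  unfold sq
  fun_prop

theorem continuousAt_nz (q : C3) (hq : q ≠ 0) : ContinuousAt (nz : C3 → C3) q := by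
  unfold nz
  exact ((continuous_norm.continuousAt).inv₀ (norm_ne_zero_iff.2 hq)).smul continuousAt_id

theorem continuousAt_K (T : Tube) (q : C3) (hq : q ≠ 0) (hs : sq q ≠ 0) :
    ContinuousAt (K T) q := by
  have h1 : ContinuousAt T.ι q :=
    (T.ι_smooth.continuousOn).continuousAt (isOpen_compl_singleton.mem_nhds hq)
  have h2 : ContinuousAt (fun Q : C3 => (T.ι Q) 0) q := by
    have : Continuous (fun z : C4 => z 0) := by fun_prop
    exact this.continuousAt.comp h1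
  have h3 : ContinuousAt (fun Q : C3 => ‖sq Q‖) q := continuous_sq.norm.continuousAt
  have h4 : ‖sq q‖ ≠ 0 := norm_ne_zero_iff.2 hs
  unfold K
  refine ContinuousAt.mul ?_ ?_
  · exact ((Complex.continuous_ofReal.continuousAt).comp (h2.norm.div h3 h4)).pow 9
  · refine ((continuousAt_const.mul (continuous_sq.continuousAt.pow 2)).div ?_ ?_).pow 6
    · exact (Complex.continuous_ofReal.continuousAt).comp h3
    · exact_mod_cast h4

end FRE_

open FRE_ in
theorem fre_proof (_hSRG : Stmt_SRG) : Stmt_FRE := by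
  intro T
  obtain ⟨t, ht0, ht3⟩ : ∃ t : ℝ, 0 < t ∧ t ^ 3 = 2 :=
    ⟨2 ^ (1 / 3 : ℝ), by positivity, by
      rw [← Real.rpow_natCast, ← Real.rpow_mul (by norm_num)]; norm_num⟩
  have ht2 : 7 / 5 < t ^ 2 := by
    by_contra h
    push Not at h
    have h1 : (t ^ 2) ^ 3 ≤ (7 / 5) ^ 3 := pow_le_pow_left₀ (by positivity) h 3
    have h2 : (t ^ 2) ^ 3 = 4 := by
      have : (t ^ 2) ^ 3 = (t ^ 3) ^ 2 := by ring
      rw [this, ht3]; norm_num
    rw [h2] at h1
    norm_num at h1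
  let c : ℝ := √(1 + t ^ 2)
  have hc2 : c ^ 2 = 1 + t ^ 2 := Real.sq_sqrt (by positivity)
  have hc : 0 < c := Real.sqrt_pos.2 (by positivity)
  let q : C3 := !₂[0, (c⁻¹ : ℝ), ((t / c : ℝ) : ℂ) * Complex.I]
  have q0 : q 0 = 0 := rfl
  have q1 : q 1 = ((c⁻¹ : ℝ) : ℂ) := rfl
  have q2 : q 2 = ((t / c : ℝ) : ℂ) * Complex.I := rfl
  have hcC : (c : ℂ) ≠ 0 := by exact_mod_cast hc.ne'
  have ht3C : (t : ℂ) ^ 3 = 2 := by exact_mod_cast ht3
  have hI2 : Complex.I ^ 2 = -1 := Complex.I_sq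
  have hq6 : 4 * q 1 ^ 6 + q 2 ^ 6 = 0 := by
    rw [q1, q2]
    push_cast
    have h1 : ((t : ℂ) / c * Complex.I) ^ 6 = -4 * ((c : ℂ)⁻¹) ^ 6 := by
      have : ((t : ℂ) / c * Complex.I) ^ 6 = ((t : ℂ) ^ 3) ^ 2 * ((c : ℂ)⁻¹) ^ 6 *
        (Complex.I ^ 2) ^ 3 := by rw [div_eq_mul_inv]; ring
      rw [this, ht3C, hI2]
      ring
    rw [h1]
    ring
  have hh3 : h3 q = 0 := by
    unfold h3
    rw [q0]
    linear_combination hq6
  have hsq : sq q = (((1 - t ^ 2) / (1 + t ^ 2) : ℝ) : ℂ) := by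
    unfold sq
    rw [q0, q1, q2, ← hc2]
    push_cast
    rw [mul_pow, hI2]
    field_simp
    ring
  have hsqn : 1 / 6 < ‖sq q‖ := by
    rw [hsq, Complex.norm_real, Real.norm_eq_abs, abs_div, abs_of_pos (by positivity : 0 < 1 + t ^ 2),
      abs_of_neg (by linarith), lt_div_iff₀ (by positivity)]
    linarith
  have hnq : ‖q‖ = 1 := by
    rw [EuclideanSpace.norm_eq, Real.sqrt_eq_one, Fin.sum_univ_three, q0, q1, q2, norm_zero,
      norm_mul, Complex.norm_real, Complex.norm_real, Complex.norm_I, Real.norm_of_nonneg (by positivity),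
      Real.norm_of_nonneg (by positivity)]
    field_simp
    rw [hc2]
    ring
  have hq : q ≠ 0 := by
    intro h
    rw [h, norm_zero] at hnq
    exact zero_ne_one hnq
  have hs0 : sq q ≠ 0 := by
    intro h
    rw [h, norm_zero] at hsqn
    norm_num at hsqn
  have hK0 : K T q ≠ 0 := by
    obtain ⟨ρ, hρ, e0, -⟩ := T.ι_form q hnq hsqn
    have h1 : (T.ι q) 0 ≠ 0 := by
      rw [e0]
      exact mul_ne_zero (pow_ne_zero _ (Complex.ofReal_ne_zero.2 hρ.ne')) hs0
    unfold K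
    refine mul_ne_zero (pow_ne_zero _ ?_) (pow_ne_zero _ ?_)
    · exact_mod_cast div_ne_zero (norm_ne_zero_iff.2 h1) (norm_ne_zero_iff.2 hs0)
    · exact div_ne_zero (mul_ne_zero Complex.I_ne_zero (pow_ne_zero _ hs0))
        (by exact_mod_cast norm_ne_zero_iff.2 hs0)
  -- the function near `q`
  let κ : C3 → ℂ := fun P => K T (nz P) * ((‖P‖ : ℂ)⁻¹) ^ 6
  let u : C3 → ℂ := fun P => 16 * (conj (P 0)) ^ 6 + 4 * (conj (P 1)) ^ 6 + (conj (P 2)) ^ 6
  have hnzq : nz q = q := nz_unit hnq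
  have hκq : κ q = K T q := by
    change K T (nz q) * ((‖q‖ : ℂ)⁻¹) ^ 6 = K T q
    rw [hnzq, hnq]
    simp
  have hκ : ContinuousAt κ q := by
    refine ContinuousAt.mul ?_ ?_
    · have h1 : ContinuousAt (K T) (nz q) := by
        rw [hnzq]
        exact continuousAt_K T q hq hs0
      exact ContinuousAt.comp (f := nz) (g := K T) h1 (continuousAt_nz q hq)
    · refine ContinuousAt.pow (ContinuousAt.inv₀ ?_ ?_) 6
      · exact (Complex.continuous_ofReal.continuousAt).comp continuous_norm.continuousAt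
      · rw [hnq]; simp
  have hev : sT T =ᶠ[𝓝 q] fun P => κ P * u P := by
    have h1 : ∀ᶠ P in 𝓝 q, 1 / 6 < ‖sq (nz P)‖ := by
      have h2 : ContinuousAt (fun P : C3 => ‖sq (nz P)‖) q :=
        ContinuousAt.comp (f := nz) (g := fun P : C3 => ‖sq P‖)
          continuous_sq.norm.continuousAt (continuousAt_nz q hq)
      refine h2.eventually_const_lt ?_
      change 1 / 6 < ‖sq (nz q)‖
      rw [hnzq]
      exact hsqn
    filter_upwards [h1, isOpen_compl_singleton.mem_nhds hq] with P hP1 hP2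
    have hP0 : P ≠ 0 := hP2
    have h3 : h3 (nz P) = ((‖P‖ : ℂ)⁻¹) ^ 6 * h3 P := by
      unfold nz
      rw [h3_smul]
      push_cast
      rfl
    rw [sT_ray T P hP0, sT_unit T (nz P) (norm_nz hP0) hP1, h3]
    change _ = K T (nz P) * ((‖P‖ : ℂ)⁻¹) ^ 6 *
      (16 * (conj (P 0)) ^ 6 + 4 * (conj (P 1)) ^ 6 + (conj (P 2)) ^ 6)
    unfold Pool.Agent.KNT.h3
    simp only [map_add, map_mul, map_pow, map_ofNat, map_inv₀, Complex.conj_ofReal]
    ring
  have hpr : ∀ i : Fin 3, HasFDerivAt (fun P : C3 => conj (P i))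
      ((Complex.conjCLE : ℂ →L[ℝ] ℂ).comp
        ((EuclideanSpace.proj i : C3 →L[ℂ] ℂ).restrictScalars ℝ)) q := by
    intro i
    exact ((Complex.conjCLE : ℂ →L[ℝ] ℂ).comp
        ((EuclideanSpace.proj i : C3 →L[ℂ] ℂ).restrictScalars ℝ)).hasFDerivAt
  have hu0 : u q = 0 := by
    have : u q = conj (h3 q) := by
      unfold h3
      simp only [map_add, map_mul, map_pow, map_ofNat]
      rfl
    rw [this, hh3, map_zero]
  have hud : HasFDerivAt u _ q :=
    ((((hpr 0).pow 6).const_mul 16).add (((hpr 1).pow 6).const_mul 4)).add ((hpr 2).pow 6)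
  have hsd := (hasFDerivAt_mul_zero hκ hud hu0).congr_of_eventuallyEq hev
  have hds : ∀ v, fderiv ℝ (sT T) q v = K T q * (24 * conj (q 1) ^ 5 * conj (v 1) +
      6 * conj (q 2) ^ 5 * conj (v 2)) := by
    intro v
    rw [hsd.fderiv, hκq]
    change K T q * (16 * ((6 • (conj (q 0)) ^ (6 - 1)) * conj (v 0)) +
      4 * ((6 • (conj (q 1)) ^ (6 - 1)) * conj (v 1)) +
      (6 • (conj (q 2)) ^ (6 - 1)) * conj (v 2)) = _
    rw [q0, map_zero]
    norm_num
    left
    ring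
  -- the frame
  let w : C3 := !₂[0, K T q * (24 * conj (q 1) ^ 5), K T q * (6 * conj (q 2) ^ 5)]
  have w0 : w 0 = 0 := rfl
  have w1 : w 1 = K T q * (24 * conj (q 1) ^ 5) := rfl
  have w2 : w 2 = K T q * (6 * conj (q 2) ^ 5) := rfl
  have hw : w ≠ 0 := by
    intro h
    have h1 : w 1 = 0 := by rw [h]; rfl
    rw [w1, q1] at h1
    simp [hK0, hc.ne'] at h1
  have hwn : 0 < ‖w‖ := norm_pos_iff.2 hw
  have hin : ∀ x y : C3, inner ℂ x y = conj (x 0) * y 0 + conj (x 1) * y 1 + conj (x 2) * y 2 := by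
    intro x y
    rw [PiLp.inner_apply, Fin.sum_univ_three]
    simp only [RCLike.inner_apply]
    ring
  have hqw : inner ℂ q w = 0 := by
    rw [hin, w0, w1, w2]
    have h1 : conj (4 * q 1 ^ 6 + q 2 ^ 6) = 0 := by rw [hq6, map_zero]
    simp only [map_add, map_mul, map_pow, map_ofNat] at h1
    linear_combination 6 * K T q * h1
  refine ⟨{ q := q, n0 := (‖w‖⁻¹ : ℝ) • w, n1 := !₂[1, 0, 0], C := ‖w‖, C_pos := hwn, nq := hnq,
            nn0 := ?_, nn1 := ?_, q0 := ?_, q1 := ?_, n01 := ?_, s_q := ?_, ds := ?_ }⟩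
  · rw [norm_smul, norm_inv, norm_norm, inv_mul_cancel₀ hwn.ne']
  · rw [EuclideanSpace.norm_eq, Fin.sum_univ_three]
    simp
  · rw [inner_smul_right_eq_smul, hqw, smul_zero]
  · rw [hin, q0]
    simp
  · rw [hin]
    simp [w0]
  · rw [sT_unit T q hnq hsqn, hh3]
    simp
  · intro v
    rw [hds, hin]
    have h1 : (((‖w‖⁻¹ : ℝ) • w : C3)) 0 = 0 := by
      rw [PiLp.smul_apply, w0, smul_zero]
    have h2 : (((‖w‖⁻¹ : ℝ) • w : C3)) 1 = (‖w‖ : ℂ)⁻¹ * w 1 := by
      rw [PiLp.smul_apply, Complex.real_smul]; push_cast; rfl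
    have h3 : (((‖w‖⁻¹ : ℝ) • w : C3)) 2 = (‖w‖ : ℂ)⁻¹ * w 2 := by
      rw [PiLp.smul_apply, Complex.real_smul]; push_cast; rfl
    rw [h1, h2, h3, w1, w2]
    have hn : (‖w‖ : ℂ) ≠ 0 := by exact_mod_cast hwn.ne'
    simp only [map_add, map_mul, map_pow, map_ofNat, map_inv₀, Complex.conj_ofReal,
      Complex.conj_conj, map_zero, zero_mul, zero_add]
    field_simp

end Pool.Agent.KNT
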