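import Pool.Agent.KNT.Stmts

set_option autoImplicit false

open scoped ContDiff ComplexConjugate
open Set

namespace Pool.Agent.KNT

namespace FRM_

theorem cj_apply (P : C3) (i : Fin 3) : cj P i = conj (P i) := by
  fin_cases i <;> simp [cj]

theorem cmb_apply (ξ : ℂ) (u : C3) (i : Fin 3) :
    cmb ξ u i = (al ξ : ℂ) * u i + be ξ * conj (u i) := by
  simp [cmb, cj_apply]

theorem frm_apply (ξ : ℂ) (y : C3) (i : Fin 3) :
    frm ξ y i = (((√(1 - ‖ξ‖ ^ 2))⁻¹ : ℝ) : ℂ) * ((al ξ : ℂ) * y i - be ξ * conj (y i)) := by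
  simp [frm, cj_apply]

theorem norm_C3 (y : C3) :
    ((‖y‖ ^ 2 : ℝ) : ℂ) = y 0 * conj (y 0) + y 1 * conj (y 1) + y 2 * conj (y 2) := by
  rw [EuclideanSpace.norm_sq_eq, Fin.sum_univ_three, Complex.mul_conj, Complex.mul_conj,
    Complex.mul_conj, Complex.normSq_eq_norm_sq, Complex.normSq_eq_norm_sq,
    Complex.normSq_eq_norm_sq]
  push_cast
  ring

theorem conj_sq (y : C3) : conj (sq y) = conj (y 0) ^ 2 + conj (y 1) ^ 2 + conj (y 2) ^ 2 := by
  simp [sq]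

theorem nrm1 {y : C3} (h : ((‖y‖ ^ 2 : ℝ) : ℂ) = 1) : ‖y‖ = 1 := by
  have h1 : ‖y‖ ^ 2 = 1 := by exact_mod_cast h
  have h2 := norm_nonneg y
  nlinarith

end FRM_

open FRM_ in
theorem frm_proof (hALB : Stmt_ALB) : Stmt_FRM := by
  obtain ⟨hA, -⟩ := hALB
  refine ⟨?_, ?_, ?_⟩
  · intro ξ u hξ hu
    obtain ⟨hu0, hu1⟩ := hu
    obtain ⟨-, h2, h3, -⟩ := hA ξ hξ
    have h2' : (al ξ : ℂ) ^ 2 + be ξ * conj (be ξ) = 1 := by
      rw [Complex.mul_conj, Complex.normSq_eq_norm_sq]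
      exact_mod_cast h2
    have hn := norm_C3 u
    rw [hu1] at hn
    have hs : u 0 ^ 2 + u 1 ^ 2 + u 2 ^ 2 = 0 := hu0
    have hs' : conj (u 0) ^ 2 + conj (u 1) ^ 2 + conj (u 2) ^ 2 = 0 := by
      rw [← conj_sq, hu0, map_zero]
    have hn' : u 0 * conj (u 0) + u 1 * conj (u 1) + u 2 * conj (u 2) = 1 := by
      rw [← hn]
      norm_num
    constructor
    · apply nrm1
      rw [norm_C3, cmb_apply, cmb_apply, cmb_apply]
      simp only [map_add, map_mul, Complex.conj_conj, Complex.conj_ofReal]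
      linear_combination h2' + ((al ξ : ℂ) ^ 2 + be ξ * conj (be ξ)) * (hn') +
        ((al ξ : ℂ) * conj (be ξ)) * hs + (be ξ * (al ξ : ℂ)) * hs'
    · unfold sq
      rw [cmb_apply, cmb_apply, cmb_apply]
      linear_combination h3 + 2 * (al ξ : ℂ) * be ξ * hn' + (al ξ : ℂ) ^ 2 * hs +
        (be ξ) ^ 2 * hs'
  · intro ξ u hξ
    obtain ⟨-, -, -, h4⟩ := hA ξ hξ.le
    have hpos : 0 < 1 - ‖ξ‖ ^ 2 := by nlinarith [norm_nonneg ξ]
    have hs : √(1 - ‖ξ‖ ^ 2) ≠ 0 := (Real.sqrt_pos.2 hpos).ne'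
    have h4' : (al ξ : ℂ) ^ 2 - be ξ * conj (be ξ) = ((√(1 - ‖ξ‖ ^ 2) : ℝ) : ℂ) := by
      rw [Complex.mul_conj, Complex.normSq_eq_norm_sq]
      exact_mod_cast h4
    have hs' : (((√(1 - ‖ξ‖ ^ 2))⁻¹ : ℝ) : ℂ) * ((√(1 - ‖ξ‖ ^ 2) : ℝ) : ℂ) = 1 := by
      rw [← Complex.ofReal_mul, inv_mul_cancel₀ hs, Complex.ofReal_one]
    ext i
    rw [frm_apply, cmb_apply]
    simp only [map_add, map_mul, Complex.conj_conj, Complex.conj_ofReal]
    linear_combination u i * hs' + (((√(1 - ‖ξ‖ ^ 2))⁻¹ : ℝ) : ℂ) * u i * h4'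
  · intro y hy hξ
    obtain ⟨-, h2, h3, h4⟩ := hA (sq y) hξ.le
    have hpos : 0 < 1 - ‖sq y‖ ^ 2 := by nlinarith [norm_nonneg (sq y)]
    have hs : √(1 - ‖sq y‖ ^ 2) ≠ 0 := (Real.sqrt_pos.2 hpos).ne'
    have h2' : (al (sq y) : ℂ) ^ 2 + be (sq y) * conj (be (sq y)) = 1 := by
      rw [Complex.mul_conj, Complex.normSq_eq_norm_sq]
      exact_mod_cast h2
    have h4' : (al (sq y) : ℂ) ^ 2 - be (sq y) * conj (be (sq y)) =
        ((√(1 - ‖sq y‖ ^ 2) : ℝ) : ℂ) := by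
      rw [Complex.mul_conj, Complex.normSq_eq_norm_sq]
      exact_mod_cast h4
    have hs' : (((√(1 - ‖sq y‖ ^ 2))⁻¹ : ℝ) : ℂ) * ((√(1 - ‖sq y‖ ^ 2) : ℝ) : ℂ) = 1 := by
      rw [← Complex.ofReal_mul, inv_mul_cancel₀ hs, Complex.ofReal_one]
    have hsq : ((√(1 - ‖sq y‖ ^ 2) : ℝ) : ℂ) ^ 2 = 1 - sq y * conj (sq y) := by
      rw [Complex.mul_conj, Complex.normSq_eq_norm_sq, ← Complex.ofReal_pow,
        Real.sq_sqrt hpos.le]
      push_cast
      ring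
    have h3c : 2 * (al (sq y) : ℂ) * conj (be (sq y)) = conj (sq y) := by
      have h5 := congrArg conj h3
      rw [map_mul, map_mul, Complex.conj_ofReal] at h5
      have h6 : conj (2 : ℂ) = 2 := Complex.conj_ofNat 2
      rw [h6] at h5
      exact h5
    have hn := norm_C3 y
    rw [hy] at hn
    have hn' : y 0 * conj (y 0) + y 1 * conj (y 1) + y 2 * conj (y 2) = 1 := by
      rw [← hn]
      norm_num
    have hsy : y 0 ^ 2 + y 1 ^ 2 + y 2 ^ 2 = sq y := rfl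
    have hsy' : conj (y 0) ^ 2 + conj (y 1) ^ 2 + conj (y 2) ^ 2 = conj (sq y) := (conj_sq y).symm
    set ξ := sq y with hξdef
    set a : ℂ := (al ξ : ℂ) with ha
    set b : ℂ := be ξ with hb
    set r : ℂ := (((√(1 - ‖ξ‖ ^ 2))⁻¹ : ℝ) : ℂ) with hr
    set s : ℂ := ((√(1 - ‖ξ‖ ^ 2) : ℝ) : ℂ) with hsdef
    have hrc : conj r = r := by rw [hr, Complex.conj_ofReal]
    have hac : conj a = a := by rw [ha, Complex.conj_ofReal]
    refine ⟨⟨?_, ?_⟩, ?_⟩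
    · change (frm ξ y 0) ^ 2 + (frm ξ y 1) ^ 2 + (frm ξ y 2) ^ 2 = 0
      rw [frm_apply, frm_apply, frm_apply]
      change (r * (a * y 0 - b * conj (y 0))) ^ 2 + (r * (a * y 1 - b * conj (y 1))) ^ 2 +
        (r * (a * y 2 - b * conj (y 2))) ^ 2 = 0
      linear_combination r ^ 2 * a ^ 2 * hsy - r ^ 2 * 2 * a * b * hn' + r ^ 2 * b ^ 2 * hsy' +
        r ^ 2 * ξ * h2' - r ^ 2 * (1 - b * conj b) * h3 - r ^ 2 * b ^ 2 * h3c
    · apply nrm1
      rw [norm_C3, frm_apply, frm_apply, frm_apply]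
      change r * (a * y 0 - b * conj (y 0)) * conj (r * (a * y 0 - b * conj (y 0))) +
        r * (a * y 1 - b * conj (y 1)) * conj (r * (a * y 1 - b * conj (y 1))) +
        r * (a * y 2 - b * conj (y 2)) * conj (r * (a * y 2 - b * conj (y 2))) = 1
      simp only [map_sub, map_mul, Complex.conj_conj, hrc, hac]
      linear_combination r ^ 2 * (a ^ 2 + b * conj b) * hn' - r ^ 2 * a * conj b * hsy -
        r ^ 2 * a * b * hsy' + r ^ 2 * h2' - r ^ 2 * ξ / 2 * h3c - r ^ 2 * conj ξ / 2 * h3 -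
        r ^ 2 * hsq + (r * s + 1) * hs'
    · ext i
      rw [cmb_apply, frm_apply]
      change a * (r * (a * y i - b * conj (y i))) + b * conj (r * (a * y i - b * conj (y i))) = y i
      simp only [map_sub, map_mul, Complex.conj_conj, hrc, hac]
      linear_combination r * y i * h4' + y i * hs'

end Pool.Agent.KNT
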