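import Pool.Agent.KNT.Stmts

set_option autoImplicit false

open scoped ContDiff ComplexConjugate
open Set

namespace Pool.Agent.KNT

namespace GRG_

theorem exists_int {Y ν : ℂ} (h : Y = 0 ∨ Y ^ 2 = ν ^ 2) :
    ∃ e : ℤ, Y = e * ν ∧ (e = -1 ∨ e = 0 ∨ e = 1) := by
  rcases h with h | h
  · exact ⟨0, by simp [h], by simp⟩
  · rcases sq_eq_sq_iff_eq_or_eq_neg.1 h with h | h
    · exact ⟨1, by simp [h], by simp⟩
    · exact ⟨-1, by simp [h], by simp⟩

theorem cm (z : ℂ) : z * conj z = ((‖z‖ ^ 2 : ℝ) : ℂ) := by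
  rw [Complex.mul_conj, Complex.normSq_eq_norm_sq]

/-- the multiplier vanishes -/
theorem mult {x y1 y2 y3 l a : ℂ} (hn : ‖x‖ ^ 2 + ‖y1‖ ^ 2 + ‖y2‖ ^ 2 + ‖y3‖ ^ 2 = 1)
    (hg : x ^ 3 + y1 ^ 2 + y2 ^ 2 + y3 ^ 2 = 0)
    (hx : a * (3 * x ^ 2) = l * conj x)
    (hy : 2 * a * (y1 ^ 2 + y2 ^ 2 + y3 ^ 2) = l * (y1 * conj y1 + y2 * conj y2 + y3 * conj y3)) :
    l = 0 := by
  have key : l * ((2 / 3 * ‖x‖ ^ 2 + ‖y1‖ ^ 2 + ‖y2‖ ^ 2 + ‖y3‖ ^ 2 : ℝ) : ℂ) = 0 := by
    push_cast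
    have c0 := cm x
    have c1 := cm y1
    have c2 := cm y2
    have c3 := cm y3
    push_cast at c0 c1 c2 c3
    rw [← c0, ← c1, ← c2, ← c3]
    linear_combination 2 * a * hg - hy - (2 / 3) * x * hx
  have hp : (0 : ℝ) < 2 / 3 * ‖x‖ ^ 2 + ‖y1‖ ^ 2 + ‖y2‖ ^ 2 + ‖y3‖ ^ 2 := by
    have := sq_nonneg ‖x‖
    have := sq_nonneg ‖y1‖
    have := sq_nonneg ‖y2‖
    have := sq_nonneg ‖y3‖
    nlinarith
  rcases mul_eq_zero.1 key with h | h
  · exact h
  · exact absurd h (by exact_mod_cast hp.ne')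

theorem alg1 {x y1 y2 y3 l : ℂ} (hn : ‖x‖ ^ 2 + ‖y1‖ ^ 2 + ‖y2‖ ^ 2 + ‖y3‖ ^ 2 = 1)
    (hg : x ^ 3 + y1 ^ 2 + y2 ^ 2 + y3 ^ 2 = 0)
    (hx : 3 * x ^ 2 = l * conj x) (h1 : 2 * y1 = l * conj y1) (h2 : 2 * y2 = l * conj y2)
    (h3 : 2 * y3 = l * conj y3) : False := by
  have hl : l = 0 := mult (a := 1) hn hg (by linear_combination hx)
    (by linear_combination y1 * h1 + y2 * h2 + y3 * h3)
  subst hl
  have e0 : x = 0 := by
    have : x ^ 2 = 0 := by linear_combination (1 / 3) * hx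
    simpa using this
  have e1 : y1 = 0 := by linear_combination (1 / 2) * h1
  have e2 : y2 = 0 := by linear_combination (1 / 2) * h2
  have e3 : y3 = 0 := by linear_combination (1 / 2) * h3
  rw [e0, e1, e2, e3] at hn
  simp at hn

theorem alg2 {x y1 y2 y3 l a b : ℂ} (hn : ‖x‖ ^ 2 + ‖y1‖ ^ 2 + ‖y2‖ ^ 2 + ‖y3‖ ^ 2 = 1)
    (hg : x ^ 3 + y1 ^ 2 + y2 ^ 2 + y3 ^ 2 = 0)
    (hh : 16 * y1 ^ 6 + 4 * y2 ^ 6 + y3 ^ 6 = 0) (hab : a ≠ 0 ∨ b ≠ 0)
    (hx : a * (3 * x ^ 2) = l * conj x)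
    (h1 : a * (2 * y1) + b * (96 * y1 ^ 5) = l * conj y1)
    (h2 : a * (2 * y2) + b * (24 * y2 ^ 5) = l * conj y2)
    (h3 : a * (2 * y3) + b * (6 * y3 ^ 5) = l * conj y3) : False := by
  have hl : l = 0 := mult (a := a) hn hg (by linear_combination hx)
    (by linear_combination y1 * h1 + y2 * h2 + y3 * h3 - 6 * b * hh)
  subst hl
  have fin : ∀ _ : y1 = 0, ∀ _ : y2 = 0, ∀ _ : y3 = 0, False := by
    intro e1 e2 e3
    rw [e1, e2, e3] at hg
    have e0 : x = 0 := by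
      have : x ^ 3 = 0 := by linear_combination hg
      simpa using this
    rw [e0, e1, e2, e3] at hn
    simp at hn
  by_cases ha : a = 0
  · have hb : b ≠ 0 := by
      rcases hab with h | h
      · exact absurd ha h
      · exact h
    subst ha
    refine fin ?_ ?_ ?_
    · have : b * y1 ^ 5 = 0 := by linear_combination (1 / 96) * h1
      simpa [hb] using this
    · have : b * y2 ^ 5 = 0 := by linear_combination (1 / 24) * h2
      simpa [hb] using this
    · have : b * y3 ^ 5 = 0 := by linear_combination (1 / 6) * h3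
      simpa [hb] using this
  · have e0 : x = 0 := by
      have : a * x ^ 2 = 0 := by linear_combination (1 / 3) * hx
      simpa [ha] using this
    subst e0
    by_cases hb : b = 0
    · subst hb
      refine fin ?_ ?_ ?_
      · have : a * y1 = 0 := by linear_combination (1 / 2) * h1
        simpa [ha] using this
      · have : a * y2 = 0 := by linear_combination (1 / 2) * h2
        simpa [ha] using this
      · have : a * y3 = 0 := by linear_combination (1 / 2) * h3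
        simpa [ha] using this
    · obtain ⟨ν, hν⟩ := IsAlgClosed.exists_pow_nat_eq (-(a / (3 * b))) (n := 2) (by norm_num)
      have hν' : 3 * b * ν ^ 2 = -a := by
        rw [hν]; field_simp
      have hν0 : ν ≠ 0 := by
        rintro rfl
        apply ha
        linear_combination hν'
      have a1 : 4 * y1 ^ 2 = 0 ∨ (4 * y1 ^ 2) ^ 2 = ν ^ 2 := by
        by_cases h : y1 = 0
        · left; simp [h]
        · right
          have h' : a * 2 + b * (96 * y1 ^ 4) = 0 := by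
            have : y1 * (a * 2 + b * (96 * y1 ^ 4)) = 0 := by linear_combination h1
            exact (mul_eq_zero.1 this).resolve_left h
          have : b * ((4 * y1 ^ 2) ^ 2 - ν ^ 2) = 0 := by
            linear_combination (1 / 6) * h' - (1 / 3) * hν'
          have := (mul_eq_zero.1 this).resolve_left hb
          linear_combination this
      have a2 : 2 * y2 ^ 2 = 0 ∨ (2 * y2 ^ 2) ^ 2 = ν ^ 2 := by
        by_cases h : y2 = 0
        · left; simp [h]
        · right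
          have h' : a * 2 + b * (24 * y2 ^ 4) = 0 := by
            have : y2 * (a * 2 + b * (24 * y2 ^ 4)) = 0 := by linear_combination h2
            exact (mul_eq_zero.1 this).resolve_left h
          have : b * ((2 * y2 ^ 2) ^ 2 - ν ^ 2) = 0 := by
            linear_combination (1 / 6) * h' - (1 / 3) * hν'
          have := (mul_eq_zero.1 this).resolve_left hb
          linear_combination this
      have a3 : y3 ^ 2 = 0 ∨ (y3 ^ 2) ^ 2 = ν ^ 2 := by
        by_cases h : y3 = 0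
        · left; simp [h]
        · right
          have h' : a * 2 + b * (6 * y3 ^ 4) = 0 := by
            have : y3 * (a * 2 + b * (6 * y3 ^ 4)) = 0 := by linear_combination h3
            exact (mul_eq_zero.1 this).resolve_left h
          have : b * ((y3 ^ 2) ^ 2 - ν ^ 2) = 0 := by
            linear_combination (1 / 6) * h' - (1 / 3) * hν'
          have := (mul_eq_zero.1 this).resolve_left hb
          linear_combination this
      obtain ⟨e1, he1, d1⟩ := exists_int a1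
      obtain ⟨e2, he2, d2⟩ := exists_int a2
      obtain ⟨e3, he3, d3⟩ := exists_int a3
      have hm : ((e1 + 2 * e2 + 4 * e3 : ℤ) : ℂ) * ν = 0 := by
        push_cast
        linear_combination 4 * hg - he1 - 2 * he2 - 4 * he3
      have hm0 : e1 + 2 * e2 + 4 * e3 = 0 := by
        have := (mul_eq_zero.1 hm).resolve_right hν0
        exact_mod_cast this
      have z1 : e1 = 0 := by omega
      have z2 : e2 = 0 := by omega
      have z3 : e3 = 0 := by omega
      rw [z1] at he1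
      rw [z2] at he2
      rw [z3] at he3
      refine fin ?_ ?_ ?_
      · simpa using he1
      · simpa using he2
      · simpa using he3

theorem hasFDerivAt_coord (i : Fin 4) (z : C4) :
    HasFDerivAt (fun w : C4 => w i) (EuclideanSpace.proj i : C4 →L[ℂ] ℂ) z :=
  (EuclideanSpace.proj i : C4 →L[ℂ] ℂ).hasFDerivAt

theorem cg : ContDiff ℂ ∞ g4 := by
  unfold g4
  have hp : ∀ i : Fin 4, ContDiff ℂ ∞ (fun w : C4 => w i) := fun i =>
    (EuclideanSpace.proj i : C4 →L[ℂ] ℂ).contDiff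
  exact ((((hp 0).pow 3).add ((hp 1).pow 2)).add ((hp 2).pow 2)).add ((hp 3).pow 2)

theorem ch : ContDiff ℂ ∞ h4 := by
  unfold h4
  have hp : ∀ i : Fin 4, ContDiff ℂ ∞ (fun w : C4 => w i) := fun i =>
    (EuclideanSpace.proj i : C4 →L[ℂ] ℂ).contDiff
  exact ((contDiff_const.mul ((hp 1).pow 6)).add
          (contDiff_const.mul ((hp 2).pow 6))).add ((hp 3).pow 6)

theorem dg (z : C4) : fderiv ℂ g4 z (EuclideanSpace.single 0 1) = 3 * z 0 ^ 2 ∧
    fderiv ℂ g4 z (EuclideanSpace.single 1 1) = 2 * z 1 ∧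
    fderiv ℂ g4 z (EuclideanSpace.single 2 1) = 2 * z 2 ∧
    fderiv ℂ g4 z (EuclideanSpace.single 3 1) = 2 * z 3 := by
  have hp := fun i => hasFDerivAt_coord i z
  have hg : HasFDerivAt g4 _ z := ((((hp 0).pow 3).add ((hp 1).pow 2)).add ((hp 2).pow 2)).add
      ((hp 3).pow 2)
  rw [hg.fderiv]
  refine ⟨?_, ?_, ?_, ?_⟩ <;> simp

theorem dh (z : C4) : fderiv ℂ h4 z (EuclideanSpace.single 0 1) = 0 ∧
    fderiv ℂ h4 z (EuclideanSpace.single 1 1) = 96 * z 1 ^ 5 ∧
    fderiv ℂ h4 z (EuclideanSpace.single 2 1) = 24 * z 2 ^ 5 ∧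
    fderiv ℂ h4 z (EuclideanSpace.single 3 1) = 6 * z 3 ^ 5 := by
  have hp := fun i => hasFDerivAt_coord i z
  have hh : HasFDerivAt h4 _ z := ((((hp 1).pow 6).const_mul 16).add
      (((hp 2).pow 6).const_mul 4)).add ((hp 3).pow 6)
  rw [hh.fderiv]
  refine ⟨?_, ?_, ?_, ?_⟩ <;> simp <;> ring

theorem nsq (z : C4) (h : ‖z‖ = 1) : ‖z 0‖ ^ 2 + ‖z 1‖ ^ 2 + ‖z 2‖ ^ 2 + ‖z 3‖ ^ 2 = 1 := by
  have h2 : ‖z‖ ^ 2 = ‖z 0‖ ^ 2 + ‖z 1‖ ^ 2 + ‖z 2‖ ^ 2 + ‖z 3‖ ^ 2 := by
    rw [EuclideanSpace.norm_sq_eq, Fin.sum_univ_four]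
  rw [← h2, h]; norm_num

end GRG_

open GRG_ in
theorem grg_proof (hHRG : Stmt_HRG) : Stmt_GRG := by
  obtain ⟨A1, A2, A3⟩ := hHRG g4 h4 cg ch
  obtain ⟨B1, -, -⟩ := hHRG h4 g4 ch cg
  refine ⟨⟨A1, A2 ?_⟩, B1, A3 ?_⟩
  · intro z hz hg l hl
    obtain ⟨d0, d1, d2, d3⟩ := dg z
    have k0 := hl 0
    have k1 := hl 1
    have k2 := hl 2
    have k3 := hl 3
    rw [d0] at k0
    rw [d1] at k1
    rw [d2] at k2
    rw [d3] at k3
    exact alg1 (nsq z hz) hg k0 k1 k2 k3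
  · intro z hz hg hh a b l hab hl
    obtain ⟨d0, d1, d2, d3⟩ := dg z
    obtain ⟨c0, c1, c2, c3⟩ := dh z
    have k0 := hl 0
    have k1 := hl 1
    have k2 := hl 2
    have k3 := hl 3
    rw [d0, c0, mul_zero, add_zero] at k0
    rw [d1, c1] at k1
    rw [d2, c2] at k2
    rw [d3, c3] at k3
    exact alg2 (nsq z hz) hg hh hab k0 k1 k2 k3

end Pool.Agent.KNT
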