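import Pool.Agent.KNT.Stmts

/-!
# Module HCN: the local family of diffeomorphisms carrying the knot of `Φ t₀` to the knot of `Φ t`
-/

set_option autoImplicit false

open scoped ContDiff ComplexConjugate
open Set Filter Topology Metric

namespace Pool.Agent.KNT

namespace HCN_

section

variable {V : Type} [NormedAddCommGroup V] [InnerProductSpace ℝ V]

theorem sfun_of_fam {Φ : ℝ → V → ℂ} (hΦ : SFam Φ) (t₀ : ℝ) : SFun (Φ t₀) where
  hom := hΦ.hom t₀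
  smooth := by
    have h1 : ContDiffOn ℝ ∞ (fun z : V => ((t₀, z) : ℝ × V)) ({0}ᶜ : Set V) :=
      (contDiff_const.prodMk contDiff_id).contDiffOn
    exact hΦ.smooth.comp h1 (fun z hz => hz)

theorem fam_contDiffAt {Φ : ℝ → V → ℂ} (hΦ : SFam Φ) (t : ℝ) (z : V) (hz : z ≠ 0) :
    ContDiffAt ℝ ∞ (fun p : ℝ × V => Φ p.1 p.2) (t, z) := by
  refine hΦ.smooth.contDiffAt ?_
  have : IsOpen {p : ℝ × V | p.2 ≠ 0} := isOpen_ne_fun continuous_snd continuous_const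
  exact this.mem_nhds hz

theorem closed_K {F : V → ℂ} (hF : SFun F) : IsClosed {z : V | z = 0 ∨ F z = 0} := by
  rw [← isOpen_compl_iff]
  have h1 : ({z : V | z = 0 ∨ F z = 0}ᶜ : Set V) = ({0}ᶜ : Set V) ∩ F ⁻¹' {0}ᶜ := by
    ext z
    simp [not_or]
  rw [h1]
  exact hF.smooth.continuousOn.isOpen_inter_preimage isOpen_compl_singleton
    isOpen_compl_singleton

/-- the family -/
noncomputable def Hf (t₀ δ : ℝ) (U : Set V) (c : ℝ × V → ℂ) (χ : V → ℝ) (N : V × ℂ → V)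
    (t : ℝ) (x : V) : V :=
  open Classical in
  if t ∈ ball t₀ δ ∧ x ∈ U then N (x, (χ x : ℂ) * c (t, x)) else x

theorem Hf_pos {t₀ δ : ℝ} {U : Set V} {c : ℝ × V → ℂ} {χ : V → ℝ} {N : V × ℂ → V} {t : ℝ} {x : V}
    (ht : t ∈ ball t₀ δ) (hx : x ∈ U) :
    Hf t₀ δ U c χ N t x = N (x, (χ x : ℂ) * c (t, x)) := by
  unfold Hf
  exact if_pos ⟨ht, hx⟩

theorem Hf_neg {t₀ δ : ℝ} {U : Set V} {c : ℝ × V → ℂ} {χ : V → ℝ} {N : V × ℂ → V} {t : ℝ} {x : V}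
    (h : ¬ (t ∈ ball t₀ δ ∧ x ∈ U)) :
    Hf t₀ δ U c χ N t x = x := by
  unfold Hf
  exact if_neg h

theorem Hf_zero {t₀ δ : ℝ} {U : Set V} {c : ℝ × V → ℂ} {χ : V → ℝ} {N : V × ℂ → V} {t : ℝ} {x : V}
    (hN : ∀ x, N (x, 0) = x) (h : χ x = 0) :
    Hf t₀ δ U c χ N t x = x := by
  by_cases h1 : t ∈ ball t₀ δ ∧ x ∈ U
  · rw [Hf_pos h1.1 h1.2, h]
    simp [hN]
  · exact Hf_neg h1

theorem cone_iff {U : Set V} (hU : IsCone U) {r : ℝ} (hr : 0 < r) (x : V) : r • x ∈ U ↔ x ∈ U := by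
  constructor
  · intro h
    have := hU r⁻¹ (inv_pos.mpr hr) _ h
    rwa [smul_smul, inv_mul_cancel₀ hr.ne', one_smul] at this
  · exact hU r hr x

theorem smooth_H {t₀ δ : ℝ} {U : Set V} {c : ℝ × V → ℂ} {χ : V → ℝ} {N : V × ℂ → V}
    (hU : IsOpen U) (hU0 : (0 : V) ∉ U) (hc : ContDiffOn ℝ ∞ c (ball t₀ δ ×ˢ U))
    (hχ : ContDiffOn ℝ ∞ χ {0}ᶜ) (hχ0 : ∀ z, z ≠ 0 → z ∉ U → ∀ᶠ y in 𝓝 z, χ y = 0)
    (hN : ContDiffOn ℝ ∞ N {p | p.1 ≠ 0}) (hN0 : ∀ x, N (x, 0) = x) :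
    ContDiffOn ℝ ∞ (fun p : ℝ × V => Hf t₀ δ U c χ N p.1 p.2)
      {p | p.1 ∈ ball t₀ δ ∧ p.2 ≠ 0} := by
  rintro ⟨t, x⟩ ⟨ht, hx⟩
  apply ContDiffAt.contDiffWithinAt
  by_cases hxU : x ∈ U
  · have hopen : IsOpen (ball t₀ δ ×ˢ U) := isOpen_ball.prod hU
    have hmem : (ball t₀ δ ×ˢ U) ∈ 𝓝 (t, x) := hopen.mem_nhds ⟨ht, hxU⟩
    have hceq : (fun p : ℝ × V => Hf t₀ δ U c χ N p.1 p.2) =ᶠ[𝓝 (t, x)]
        (fun p : ℝ × V => N (p.2, (χ p.2 : ℂ) * c p)) := by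
      filter_upwards [hmem] with p hp
      exact Hf_pos hp.1 hp.2
    refine ContDiffAt.congr_of_eventuallyEq ?_ hceq
    have h1 : ContDiffAt ℝ ∞ c (t, x) := hc.contDiffAt hmem
    have h2 : ContDiffAt ℝ ∞ χ x := hχ.contDiffAt (isOpen_compl_singleton.mem_nhds hx)
    have h3 : ContDiffAt ℝ ∞ (fun p : ℝ × V => χ p.2) (t, x) :=
      ContDiffAt.comp (t, x) (f := fun p : ℝ × V => p.2) (g := χ) h2 contDiffAt_snd
    have h4 : ContDiffAt ℝ ∞ (fun p : ℝ × V => ((χ p.2 : ℝ) : ℂ)) (t, x) :=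
      Complex.ofRealCLM.contDiff.contDiffAt.comp (t, x) h3
    have h5 : ContDiffAt ℝ ∞ (fun p : ℝ × V => ((p.2, (χ p.2 : ℂ) * c p) : V × ℂ)) (t, x) :=
      contDiffAt_snd.prodMk (h4.mul h1)
    have hNo : IsOpen {p : V × ℂ | p.1 ≠ 0} := isOpen_ne_fun continuous_fst continuous_const
    have h6 : ContDiffAt ℝ ∞ N (x, (χ x : ℂ) * c (t, x)) := hN.contDiffAt (hNo.mem_nhds hx)
    exact ContDiffAt.comp (t, x) (f := fun p : ℝ × V => ((p.2, (χ p.2 : ℂ) * c p) : V × ℂ))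
      (g := N) h6 h5
  · have h0 : ∀ᶠ p : ℝ × V in 𝓝 (t, x), χ p.2 = 0 :=
      (continuous_snd.tendsto (t, x)).eventually (hχ0 x hx hxU)
    have hceq : (fun p : ℝ × V => Hf t₀ δ U c χ N p.1 p.2) =ᶠ[𝓝 (t, x)]
        (fun p : ℝ × V => p.2) := by
      filter_upwards [h0] with p hp
      exact Hf_zero hN0 hp
    exact contDiffAt_snd.congr_of_eventuallyEq hceq

end

end HCN_

open HCN_ in
theorem hcn_proof (hNPU : Stmt_NPU) (hCSO : Stmt_CSO) (hBMP : Stmt_BMP) : Stmt_HCN := by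
  intro V _ _ _ Φ t₀ hΦ hreg
  have hF : SFun (Φ t₀) := sfun_of_fam hΦ t₀
  obtain ⟨N, hN⟩ := hNPU V (Φ t₀) hF
  obtain ⟨δ, U, c, hδ, hUo, hUc, hU0, hUz, hcs, hch, hc0, hcΦ⟩ := hCSO V Φ t₀ N hΦ hreg hN
  obtain ⟨χ, hχs, hχh, hχb, hχ1, hχ0⟩ := hBMP V {z : V | z = 0 ∨ Φ t₀ z = 0} U
    (closed_K hF)
    (by
      intro r hr z hz
      rcases hz with hz | hz
      · left; rw [hz, smul_zero]
      · right; rw [hF.hom r hr z]; exact hz)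
    hUo hUc
    (by
      intro z hz hz0
      rcases hz with hz | hz
      · exact absurd hz hz0
      · exact hUz z hz0 hz)
  obtain ⟨H, hH⟩ : ∃ H : ℝ → V → V, H = Hf t₀ δ U c χ N := ⟨_, rfl⟩
  have hHhom : ∀ t r : ℝ, 0 < r → ∀ z, H t (r • z) = r • H t z := by
    intro t r hr z
    rw [hH]
    by_cases h : t ∈ ball t₀ δ ∧ z ∈ U
    · rw [Hf_pos h.1 h.2, Hf_pos h.1 ((cone_iff hUc hr z).mpr h.2), hch t h.1 r hr z h.2,
        hχh r hr z, hN.hom r hr]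
    · rw [Hf_neg h, Hf_neg]
      rw [cone_iff hUc hr z]
      exact h
  have hHnorm : ∀ t z, ‖H t z‖ = ‖z‖ := by
    intro t z
    rw [hH]
    by_cases h : t ∈ ball t₀ δ ∧ z ∈ U
    · rw [Hf_pos h.1 h.2, hN.norm]
    · rw [Hf_neg h]
  have hHs : ContDiffOn ℝ ∞ (fun p : ℝ × V => H p.1 p.2) {p | p.1 ∈ ball t₀ δ ∧ p.2 ≠ 0} := by
    rw [hH]
    exact smooth_H hUo hU0 hcs hχs hχ0 hN.smooth hN.zero
  have hH0 : ∀ z, H t₀ z = z := by
    intro z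
    rw [hH]
    by_cases h : t₀ ∈ ball t₀ δ ∧ z ∈ U
    · rw [Hf_pos h.1 h.2, hc0 z h.2, mul_zero, hN.zero]
    · rw [Hf_neg h]
  -- the good set
  obtain ⟨G, hG⟩ : ∃ G : Set V, G = interior ({y : V | χ y = 1} ∩ U) := ⟨_, rfl⟩
  have hGo : IsOpen G := by rw [hG]; exact isOpen_interior
  have hGsub : G ⊆ {y : V | χ y = 1} ∩ U := by rw [hG]; exact interior_subset
  have hGeq : ∀ t ∈ ball t₀ δ, ∀ y ∈ G, Φ t (H t y) = Φ t₀ y := by
    intro t ht y hy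
    have h1 := hGsub hy
    rw [hH, Hf_pos ht h1.2]
    have h2 : χ y = 1 := h1.1
    rw [h2, Complex.ofReal_one, one_mul]
    exact hcΦ t ht y h1.2
  have hGz : ∀ z, z ≠ 0 → Φ t₀ z = 0 → z ∈ G := by
    intro z hz0 hz
    rw [hG, mem_interior_iff_mem_nhds]
    refine inter_mem (hχ1 z (Or.inr hz) hz0) (hUo.mem_nhds (hUz z hz0 hz))
  -- the compact set
  have hC : IsCompact (sphere (0 : V) 1 \ G) := (isCompact_sphere 0 1).diff hGo
  have hev : ∀ᶠ t in 𝓝 t₀, ∀ z ∈ sphere (0 : V) 1 \ G, Φ t (H t z) ≠ 0 := by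
    refine hC.eventually_forall_of_forall_eventually (P := fun t z => Φ t (H t z) ≠ 0) ?_
    rintro z ⟨hz1, hzG⟩
    have hz0 : z ≠ 0 := by
      rintro rfl
      simp at hz1
    have hne : Φ t₀ z ≠ 0 := fun h => hzG (hGz z hz0 h)
    have hopen : IsOpen {p : ℝ × V | p.1 ∈ ball t₀ δ ∧ p.2 ≠ 0} :=
      (isOpen_ball.preimage continuous_fst).inter (isOpen_ne_fun continuous_snd continuous_const)
    have h1 : ContinuousAt (fun p : ℝ × V => H p.1 p.2) (t₀, z) :=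
      (hHs.contDiffAt (hopen.mem_nhds ⟨mem_ball_self hδ, hz0⟩)).continuousAt
    have h2 : ContinuousAt (fun p : ℝ × V => ((p.1, H p.1 p.2) : ℝ × V)) (t₀, z) :=
      continuousAt_fst.prodMk h1
    have h3 : ContinuousAt (fun p : ℝ × V => Φ p.1 p.2) (t₀, H t₀ z) := by
      rw [hH0 z]
      exact (fam_contDiffAt hΦ t₀ z hz0).continuousAt
    have h4 : ContinuousAt (fun p : ℝ × V => Φ p.1 (H p.1 p.2)) (t₀, z) :=
      ContinuousAt.comp (x := (t₀, z)) (f := fun p : ℝ × V => ((p.1, H p.1 p.2) : ℝ × V))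
        (g := fun p : ℝ × V => Φ p.1 p.2) h3 h2
    have h5 : (fun p : ℝ × V => Φ p.1 (H p.1 p.2)) (t₀, z) ≠ 0 := by
      show Φ t₀ (H t₀ z) ≠ 0
      rw [hH0 z]
      exact hne
    exact h4.eventually_ne h5
  obtain ⟨ε, hε, hεb⟩ := Metric.eventually_nhds_iff.mp hev
  refine ⟨min δ ε, H, lt_min hδ hε, hHhom, hHnorm, ?_, hH0, ?_, ?_⟩
  · refine hHs.mono ?_
    rintro ⟨t, z⟩ ⟨h1, h2⟩
    exact ⟨ball_subset_ball (min_le_left _ _) h1, h2⟩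
  · intro t ht z hz0 hz
    have ht' : t ∈ ball t₀ δ := ball_subset_ball (min_le_left _ _) ht
    filter_upwards [hGo.mem_nhds (hGz z hz0 hz)] with y hy
    exact hGeq t ht' y hy
  · intro t ht z hz0 hz
    have ht' : t ∈ ball t₀ δ := ball_subset_ball (min_le_left _ _) ht
    have hte : dist t t₀ < ε := lt_of_lt_of_le (mem_ball.mp ht) (min_le_right _ _)
    have hn : 0 < ‖z‖ := norm_pos_iff.mpr hz0
    obtain ⟨u, hu⟩ : ∃ u : V, u = ‖z‖⁻¹ • z := ⟨_, rfl⟩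
    have hzu : z = ‖z‖ • u := by
      rw [hu, smul_smul, mul_inv_cancel₀ hn.ne', one_smul]
    have hu1 : u ∈ sphere (0 : V) 1 := by
      rw [mem_sphere_zero_iff_norm, hu, norm_smul, norm_inv, norm_norm,
        inv_mul_cancel₀ hn.ne']
    have h1 : Φ t (H t u) = 0 := by
      rw [hzu, hHhom t _ hn, hΦ.hom t _ hn] at hz
      exact hz
    have h2 : u ∈ G := by
      by_contra hG'
      exact hεb hte u ⟨hu1, hG'⟩ h1
    rw [hzu, hΦ.hom t₀ _ hn, ← hGeq t ht' u h2]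
    exact h1

end Pool.Agent.KNT
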