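import Pool.Agent.KNT.Stmts

set_option autoImplicit false

open scoped ContDiff ComplexConjugate
open Set Filter Topology Metric

namespace Pool.Agent.KNT

namespace HGA_

theorem cw_zero (T : Tube) {w : ℂ} (hw : T.δ / 2 ≤ ‖w‖) : cw T w = 0 := by
  have hδ := T.δ_pos
  unfold cw cut
  refine Real.smoothTransition.zero_of_nonpos ?_
  refine div_nonpos_of_nonpos_of_nonneg ?_ ?_
  · have : (T.δ / 2) ^ 2 ≤ ‖w‖ ^ 2 := by gcongr
    linarith
  · nlinarith

theorem cw_smooth (T : Tube) : ContDiff ℝ ∞ (cw T) := by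
  unfold cw cut
  refine Real.smoothTransition.contDiff.comp ?_
  refine ContDiff.div_const ?_ _
  exact contDiff_const.sub (contDiff_norm_sq ℝ)

end HGA_

open HGA_ in
theorem hga_proof (_hTAU : Stmt_TAU) (hGRG : Stmt_GRG) : Stmt_HGA := by
  obtain ⟨-, hhb, -⟩ := hGRG
  intro T η
  have hδ := T.δ_pos
  refine ⟨?_, ?_, ?_⟩
  · intro t r hr P w
    simp only [HGt]
    rw [T.G_hom r hr, hhb.hom r hr]
  · intro p hp
    refine ContDiffAt.contDiffWithinAt ?_
    have hp' : p.2.1 ≠ 0 := hp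
    by_cases hw : ‖p.2.2‖ < T.δ
    · have hσ : ‖((1 - Real.smoothTransition p.1 : ℝ) : ℂ) * p.2.2‖ < T.δ := by
        rw [norm_mul, Complex.norm_real, Real.norm_eq_abs]
        have h1 := Real.smoothTransition.nonneg p.1
        have h2 := Real.smoothTransition.le_one p.1
        have h3 : |1 - Real.smoothTransition p.1| ≤ 1 := by
          rw [abs_le]; constructor <;> linarith
        calc |1 - Real.smoothTransition p.1| * ‖p.2.2‖ ≤ 1 * ‖p.2.2‖ := by gcongr
          _ = ‖p.2.2‖ := one_mul _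
          _ < T.δ := hw
      have hin : ContDiffAt ℝ ∞ (fun p : ℝ × (C3 × ℂ) =>
          ((p.2.1, ((1 - Real.smoothTransition p.1 : ℝ) : ℂ) * p.2.2) : C3 × ℂ)) p := by
        refine ContDiffAt.prodMk (contDiffAt_fst.comp p contDiffAt_snd) ?_
        refine ContDiffAt.mul ?_ (contDiffAt_snd.comp p contDiffAt_snd)
        have h1 : ContDiff ℝ ∞ (fun p : ℝ × (C3 × ℂ) => (1 - Real.smoothTransition p.1 : ℝ)) :=
          contDiff_const.sub (Real.smoothTransition.contDiff.comp contDiff_fst)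
        exact (Complex.ofRealCLM.contDiff.comp h1).contDiffAt
      have hopG : IsOpen {q : C3 × ℂ | q.1 ≠ 0 ∧ ‖q.2‖ < T.δ} :=
        (isOpen_ne_fun continuous_fst continuous_const).inter
          (isOpen_lt continuous_snd.norm continuous_const)
      have hG : ContDiffAt ℝ ∞ T.G (p.2.1, ((1 - Real.smoothTransition p.1 : ℝ) : ℂ) * p.2.2) :=
        T.G_smooth.contDiffAt (hopG.mem_nhds ⟨hp', hσ⟩)
      have hGne : T.G (p.2.1, ((1 - Real.smoothTransition p.1 : ℝ) : ℂ) * p.2.2) ≠ 0 := by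
        intro h
        have h1 := T.G_norm p.2.1 _ hp' hσ
        rw [h, norm_zero] at h1
        exact hp' (norm_eq_zero.1 h1.symm)
      have hH : ContDiffAt ℝ ∞ hb
          (T.G (p.2.1, ((1 - Real.smoothTransition p.1 : ℝ) : ℂ) * p.2.2)) :=
        hhb.smooth.contDiffAt (isOpen_compl_singleton.mem_nhds hGne)
      have h1 : ContDiffAt ℝ ∞ (fun p : ℝ × (C3 × ℂ) =>
          hb (T.G (p.2.1, ((1 - Real.smoothTransition p.1 : ℝ) : ℂ) * p.2.2))) p :=
        ContDiffAt.comp (g := hb) (f := fun p : ℝ × (C3 × ℂ) =>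
          T.G (p.2.1, ((1 - Real.smoothTransition p.1 : ℝ) : ℂ) * p.2.2)) p hH
          (ContDiffAt.comp (g := T.G) (f := fun p : ℝ × (C3 × ℂ) =>
            ((p.2.1, ((1 - Real.smoothTransition p.1 : ℝ) : ℂ) * p.2.2) : C3 × ℂ)) p hG hin)
      have h2 : ContDiffAt ℝ ∞ (fun p : ℝ × (C3 × ℂ) => ((cw T p.2.2 : ℝ) : ℂ)) p := by
        have : ContDiff ℝ ∞ (fun p : ℝ × (C3 × ℂ) => cw T p.2.2) :=
          (cw_smooth T).comp (contDiff_snd.comp contDiff_snd)
        exact (Complex.ofRealCLM.contDiff.comp this).contDiffAt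
      have h3 : ContDiffAt ℝ ∞ (fun p : ℝ × (C3 × ℂ) => p.2.2 ^ 2) p :=
        ((contDiff_snd.comp contDiff_snd).pow 2).contDiffAt
      exact h3.sub ((contDiffAt_const.mul h2).mul h1)
    · have hw' : T.δ / 2 < ‖p.2.2‖ := by
        rw [not_lt] at hw
        linarith
      have h3 : ContDiffAt ℝ ∞ (fun p : ℝ × (C3 × ℂ) => p.2.2 ^ 2) p :=
        ((contDiff_snd.comp contDiff_snd).pow 2).contDiffAt
      refine h3.congr_of_eventuallyEq ?_
      have hc : Continuous fun p : ℝ × (C3 × ℂ) => ‖p.2.2‖ := by fun_prop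
      filter_upwards [hc.continuousAt.eventually (lt_mem_nhds hw')] with q hq
      simp only [HGt]
      rw [cw_zero T (le_of_lt hq)]
      simp
  · intro t P w _ hw
    simp only [HGt]
    rw [cw_zero T hw]
    simp

end Pool.Agent.KNT
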