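import Pool.Agent.KNT.Stmts

/-!
# Squad KNT, module HGR: regularity of the family `HGt` for small `η`
-/

set_option autoImplicit false

open scoped ContDiff ComplexConjugate Topology
open Set

namespace Pool.Agent.KNT

namespace HGR_

/-- surjectivity is an open condition -/
lemma surj_open {X : Type} [TopologicalSpace X] {V : Type} [NormedAddCommGroup V]
    [NormedSpace ℝ V] (A : X → V →L[ℝ] ℂ) (x₀ : X) (hA : ContinuousAt A x₀)
    (hs : Function.Surjective (A x₀)) : ∀ᶠ x in 𝓝 x₀, Function.Surjective (A x) := by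
  obtain ⟨R, hR⟩ : ∃ R : ℂ →L[ℝ] V, (A x₀).comp R = ContinuousLinearMap.id ℝ ℂ := by
    obtain ⟨g, hg⟩ := (A x₀ : V →ₗ[ℝ] ℂ).exists_rightInverse_of_surjective
      (LinearMap.range_eq_top.2 hs)
    refine ⟨LinearMap.toContinuousLinearMap g, ?_⟩
    refine ContinuousLinearMap.ext fun z => ?_
    exact LinearMap.congr_fun hg z
  have hc : ContinuousAt (fun x => (A x).comp R) x₀ := hA.clm_comp continuousAt_const
  have hu : {f : ℂ →L[ℝ] ℂ | IsUnit f} ∈ 𝓝 ((A x₀).comp R) := by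
    rw [hR]
    exact Units.isOpen.mem_nhds isUnit_one
  filter_upwards [hc hu] with x hx
  intro z
  obtain ⟨u, hu⟩ := hx
  refine ⟨R ((↑u⁻¹ : ℂ →L[ℝ] ℂ) z), ?_⟩
  have h1 : ((A x).comp R) ((↑u⁻¹ : ℂ →L[ℝ] ℂ) z) = z := by
    have h2 : (u : ℂ →L[ℝ] ℂ) * (↑u⁻¹ : ℂ →L[ℝ] ℂ) = 1 := Units.mul_inv u
    have h3 := congrArg (fun f : ℂ →L[ℝ] ℂ => f z) h2
    have h4 : (u : ℂ →L[ℝ] ℂ) = (A x).comp R := hu
    rw [← h4]
    exact h3
  exact h1

lemma cut_one {a b x : ℝ} (hab : a < b) (hx : x ≤ a) : cut a b x = 1 := by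
  unfold cut
  apply Real.smoothTransition.one_of_one_le
  rw [le_div_iff₀ (by linarith)]
  linarith

lemma cut_zero {a b x : ℝ} (hab : a < b) (hx : b ≤ x) : cut a b x = 0 := by
  unfold cut
  apply Real.smoothTransition.zero_of_nonpos
  exact div_nonpos_of_nonpos_of_nonneg (by linarith) (by linarith)

lemma cw_one (T : Tube) {w : ℂ} (h : ‖w‖ ≤ T.δ / 4) : cw T w = 1 := by
  have h0 := T.δ_pos
  have h1 := norm_nonneg w
  unfold cw
  apply cut_one
  · nlinarith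
  · nlinarith

lemma cw_zero (T : Tube) {w : ℂ} (h : T.δ / 2 ≤ ‖w‖) : cw T w = 0 := by
  have h0 := T.δ_pos
  have h1 := norm_nonneg w
  unfold cw
  apply cut_zero
  · nlinarith
  · nlinarith

lemma cw_abs (T : Tube) (w : ℂ) : |cw T w| ≤ 1 := by
  unfold cw cut
  rw [abs_of_nonneg (Real.smoothTransition.nonneg _)]
  exact Real.smoothTransition.le_one _

lemma hb_le {z : C4} (hz : z ≠ 0) : ‖hb z‖ ≤ 21 := by
  have hn : ‖nz z‖ = 1 := by
    unfold nz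
    rw [norm_smul, norm_inv, norm_norm, inv_mul_cancel₀ (norm_ne_zero_iff.2 hz)]
  have hi : ∀ i, ‖nz z i‖ ≤ 1 := fun i => by
    rw [← hn]
    exact PiLp.norm_apply_le _ i
  have hp : ∀ i, ‖nz z i ^ 6‖ ≤ 1 := fun i => by
    rw [norm_pow]
    exact pow_le_one₀ (norm_nonneg _) (hi i)
  unfold hb h4
  calc ‖16 * nz z 1 ^ 6 + 4 * nz z 2 ^ 6 + nz z 3 ^ 6‖
      ≤ ‖16 * nz z 1 ^ 6‖ + ‖4 * nz z 2 ^ 6‖ + ‖nz z 3 ^ 6‖ := norm_add₃_le
    _ = 16 * ‖nz z 1 ^ 6‖ + 4 * ‖nz z 2 ^ 6‖ + ‖nz z 3 ^ 6‖ := by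
        rw [norm_mul, norm_mul]
        norm_num
    _ ≤ 21 := by linarith [hp 1, hp 2, hp 3]

/-- `ψ(t, P, w) = h(G(P, (1 - σ(t)) w))` -/
noncomputable def Phi (T : Tube) (x : ℝ × (C3 × ℂ)) : ℂ :=
  hb (T.G (x.2.1, (1 - Real.smoothTransition x.1 : ℝ) * x.2.2))

/-- the domain of `Phi` -/
def Om (T : Tube) : Set (ℝ × (C3 × ℂ)) := {x | x.2.1 ≠ 0 ∧ ‖x.2.2‖ < T.δ}

lemma Om_open (T : Tube) : IsOpen (Om T) := by
  refine IsOpen.and (isOpen_ne_fun (by fun_prop) continuous_const) ?_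
  exact isOpen_lt (by fun_prop) continuous_const

lemma small (t : ℝ) (w : ℂ) : ‖((1 - Real.smoothTransition t : ℝ) : ℂ) * w‖ ≤ ‖w‖ := by
  rw [norm_mul, Complex.norm_real, Real.norm_eq_abs]
  have h1 := Real.smoothTransition.nonneg t
  have h2 := Real.smoothTransition.le_one t
  rw [abs_of_nonneg (by linarith)]
  nlinarith [norm_nonneg w]

lemma G_ne (T : Tube) {P : C3} {w : ℂ} (hP : P ≠ 0) (hw : ‖w‖ < T.δ) : T.G (P, w) ≠ 0 := by
  intro h
  have h1 := T.G_norm P w hP hw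
  rw [h, norm_zero] at h1
  exact hP (norm_eq_zero.1 h1.symm)

lemma Phi_smooth (T : Tube) (hh : SFun hb) : ContDiffOn ℝ ∞ (Phi T) (Om T) := by
  have h1 : ContDiff ℝ ∞ (fun x : ℝ × (C3 × ℂ) =>
      ((x.2.1, ((1 - Real.smoothTransition x.1 : ℝ) : ℂ) * x.2.2) : C3 × ℂ)) := by
    have h2 : ContDiff ℝ ∞ (fun x : ℝ × (C3 × ℂ) => (1 - Real.smoothTransition x.1 : ℝ)) :=
      contDiff_const.sub (Real.smoothTransition.contDiff.comp contDiff_fst)
    have h3 : ContDiff ℝ ∞ (fun x : ℝ × (C3 × ℂ) => ((1 - Real.smoothTransition x.1 : ℝ) : ℂ)) :=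
      Complex.ofRealCLM.contDiff.comp h2
    exact (contDiff_fst.comp contDiff_snd).prodMk (h3.mul (contDiff_snd.comp contDiff_snd))
  have h4 : ContDiffOn ℝ ∞ (fun x : ℝ × (C3 × ℂ) =>
      T.G (x.2.1, ((1 - Real.smoothTransition x.1 : ℝ) : ℂ) * x.2.2)) (Om T) :=
    T.G_smooth.comp h1.contDiffOn (fun x hx => ⟨hx.1, (small _ _).trans_lt hx.2⟩)
  exact hh.smooth.comp h4 (fun x hx => G_ne T hx.1 ((small _ _).trans_lt hx.2))

lemma Phi_zero (T : Tube) (t : ℝ) {P : C3} (hP : P ≠ 0) : Phi T (t, (P, 0)) = sT T P := by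
  unfold Phi sT
  rw [mul_zero, T.G_zero P hP]

/-- the directions `P` and `w` -/
noncomputable def inP : C3 →L[ℝ] ℝ × (C3 × ℂ) :=
  (ContinuousLinearMap.inr ℝ ℝ (C3 × ℂ)).comp (ContinuousLinearMap.inl ℝ C3 ℂ)

noncomputable def inW : ℂ →L[ℝ] ℝ × (C3 × ℂ) :=
  (ContinuousLinearMap.inr ℝ ℝ (C3 × ℂ)).comp (ContinuousLinearMap.inr ℝ C3 ℂ)

lemma Phi_diff (T : Tube) (hh : SFun hb) {x : ℝ × (C3 × ℂ)} (hx : x ∈ Om T) :
    HasFDerivAt (Phi T) (fderiv ℝ (Phi T) x) x := by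
  have h1 := (Phi_smooth T hh).contDiffAt ((Om_open T).mem_nhds hx)
  exact (h1.differentiableAt (by simp)).hasFDerivAt

lemma Phi_cont (T : Tube) (hh : SFun hb) {x : ℝ × (C3 × ℂ)} (hx : x ∈ Om T) :
    ContinuousAt (fderiv ℝ (Phi T)) x := by
  have h1 := (Phi_smooth T hh).contDiffAt ((Om_open T).mem_nhds hx)
  exact (h1.fderiv_right (m := 0) (by simp)).continuousAt

lemma dP_zero (T : Tube) (hh : SFun hb) (t : ℝ) {P : C3} (hP : P ≠ 0) :
    (fderiv ℝ (Phi T) (t, (P, 0))).comp inP = fderiv ℝ (sT T) P := by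
  have hx : ((t, (P, 0)) : ℝ × (C3 × ℂ)) ∈ Om T := ⟨hP, by simpa using T.δ_pos⟩
  have h1 := Phi_diff T hh hx
  have h2 : HasFDerivAt (fun Q : C3 => ((t, (Q, (0 : ℂ))) : ℝ × (C3 × ℂ))) inP P := by
    have h3 : HasFDerivAt (fun Q : C3 => ((Q, (0 : ℂ)) : C3 × ℂ))
        (ContinuousLinearMap.inl ℝ C3 ℂ) P := hasFDerivAt_prodMk_left P 0
    have h4 : HasFDerivAt (fun q : C3 × ℂ => ((t, q) : ℝ × (C3 × ℂ)))
        (ContinuousLinearMap.inr ℝ ℝ (C3 × ℂ)) (P, 0) := hasFDerivAt_prodMk_right t (P, 0)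
    exact h4.comp P h3
  have h3 : HasFDerivAt (fun Q : C3 => Phi T (t, (Q, 0)))
      ((fderiv ℝ (Phi T) (t, (P, 0))).comp inP) P :=
    HasFDerivAt.comp (g := Phi T) (f := fun Q : C3 => ((t, (Q, (0 : ℂ))) : ℝ × (C3 × ℂ))) P h1 h2
  have h4 : sT T =ᶠ[𝓝 P] (fun Q : C3 => Phi T (t, (Q, 0))) := by
    filter_upwards [isOpen_ne.mem_nhds hP] with Q hQ
    exact (Phi_zero T t hQ).symm
  exact (h3.congr_of_eventuallyEq h4).fderiv.symm

/-- the good set -/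
def Good (T : Tube) (η : ℝ) (x : ℝ × (C3 × ℂ)) : Prop :=
  Function.Surjective ((fderiv ℝ (Phi T) x).comp inP) ∨
    η * ‖(fderiv ℝ (Phi T) x).comp inW‖ ^ 2 < 4 * ‖Phi T x‖

lemma good_nhds (T : Tube) (hh : SFun hb) (hk : IsKnot (sT T)) (t : ℝ) {P : C3} (hP : P ≠ 0) :
    ∀ᶠ q : ℝ × (ℝ × (C3 × ℂ)) in 𝓝 ((0, (t, (P, 0))) : ℝ × (ℝ × (C3 × ℂ))), Good T q.1 q.2 := by
  have hx : ((t, (P, 0)) : ℝ × (C3 × ℂ)) ∈ Om T := ⟨hP, by simpa using T.δ_pos⟩
  have hc := Phi_cont T hh hx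
  have hc' : ContinuousAt (fun q : ℝ × (ℝ × (C3 × ℂ)) => fderiv ℝ (Phi T) q.2)
      ((0, (t, (P, 0))) : ℝ × (ℝ × (C3 × ℂ))) :=
    ContinuousAt.comp (f := fun q : ℝ × (ℝ × (C3 × ℂ)) => q.2)
      (x := ((0, (t, (P, 0))) : ℝ × (ℝ × (C3 × ℂ)))) hc continuousAt_snd
  by_cases h0 : sT T P = 0
  · have hs : Function.Surjective ((fderiv ℝ (Phi T) (t, (P, 0))).comp inP) := by
      rw [dP_zero T hh t hP]
      exact hk.reg P hP h0
    have h1 := surj_open (fun q : ℝ × (ℝ × (C3 × ℂ)) => (fderiv ℝ (Phi T) q.2).comp inP)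
      (0, (t, (P, 0))) (hc'.clm_comp continuousAt_const) hs
    filter_upwards [h1] with q hq
    exact Or.inl hq
  · have hp : ContinuousAt (Phi T) (t, (P, 0)) := (Phi_diff T hh hx).continuousAt
    have hp' : ContinuousAt (fun q : ℝ × (ℝ × (C3 × ℂ)) => Phi T q.2)
        ((0, (t, (P, 0))) : ℝ × (ℝ × (C3 × ℂ))) :=
      ContinuousAt.comp (f := fun q : ℝ × (ℝ × (C3 × ℂ)) => q.2)
        (x := ((0, (t, (P, 0))) : ℝ × (ℝ × (C3 × ℂ)))) hp continuousAt_snd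
    have h1 : ContinuousAt (fun q : ℝ × (ℝ × (C3 × ℂ)) =>
        q.1 * ‖(fderiv ℝ (Phi T) q.2).comp inW‖ ^ 2)
        ((0, (t, (P, 0))) : ℝ × (ℝ × (C3 × ℂ))) :=
      continuousAt_fst.mul (((hc'.clm_comp continuousAt_const).norm).pow 2)
    have h2 : ContinuousAt (fun q : ℝ × (ℝ × (C3 × ℂ)) => 4 * ‖Phi T q.2‖)
        ((0, (t, (P, 0))) : ℝ × (ℝ × (C3 × ℂ))) := continuousAt_const.mul hp'.norm
    have h3 : (0 : ℝ) * ‖(fderiv ℝ (Phi T) (t, (P, 0))).comp inW‖ ^ 2 <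
        4 * ‖Phi T (t, (P, 0))‖ := by
      rw [zero_mul, Phi_zero T t hP]
      have := norm_pos_iff.2 h0
      linarith
    filter_upwards [h1.eventually_lt h2 h3] with q hq
    exact Or.inr hq

lemma good_all (T : Tube) (hh : SFun hb) (hk : IsKnot (sT T)) :
    ∃ ε : ℝ, 0 < ε ∧ ∀ η w, |η| < ε → ‖w‖ < ε → ∀ t ∈ Icc (0 : ℝ) 1, ∀ P : C3, ‖P‖ = 1 →
      Good T η (t, (P, w)) := by
  have hK : IsCompact (Icc (0 : ℝ) 1 ×ˢ Metric.sphere (0 : C3) 1) :=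
    isCompact_Icc.prod (isCompact_sphere _ _)
  have h1 := hK.eventually_forall_of_forall_eventually (x₀ := ((0, 0) : ℝ × ℂ))
    (P := fun a b => Good T a.1 (b.1, (b.2, a.2))) (by
      rintro ⟨t, P⟩ ⟨-, hP⟩
      have hP' : P ≠ 0 := by
        rintro rfl
        simp at hP
      have hc : Filter.Tendsto (fun z : (ℝ × ℂ) × (ℝ × C3) =>
          ((z.1.1, (z.2.1, (z.2.2, z.1.2))) : ℝ × (ℝ × (C3 × ℂ))))
          (𝓝 (((0, 0), (t, P)) : (ℝ × ℂ) × (ℝ × C3))) (𝓝 (0, (t, (P, 0)))) := by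
        have : Continuous (fun z : (ℝ × ℂ) × (ℝ × C3) =>
          ((z.1.1, (z.2.1, (z.2.2, z.1.2))) : ℝ × (ℝ × (C3 × ℂ)))) := by fun_prop
        exact this.tendsto _
      exact hc.eventually (good_nhds T hh hk t hP'))
  obtain ⟨ε, hε, h2⟩ := Metric.eventually_nhds_iff.1 h1
  refine ⟨ε, hε, fun η w hη hw t ht P hP => ?_⟩
  have h3 : dist ((η, w) : ℝ × ℂ) (0, 0) < ε := by
    rw [Prod.dist_eq, dist_zero_right, dist_zero_right, Real.norm_eq_abs]
    exact max_lt hη hw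
  exact h2 h3 (t, P) ⟨ht, by simpa using hP⟩

lemma reg_unit (T : Tube) (hh : SFun hb) {η t : ℝ} (hη : 0 < η) {P : C3} {w : ℂ} (hP : P ≠ 0)
    (hw : ‖w‖ < T.δ / 4) (hz : w ^ 2 = η * Phi T (t, (P, w))) (hg : Good T η (t, (P, w))) :
    Function.Surjective (fderiv ℝ (HGt T η t) (P, w)) := by
  have hδ := T.δ_pos
  have hx : ((t, (P, w)) : ℝ × (C3 × ℂ)) ∈ Om T := ⟨hP, by
    change ‖w‖ < T.δ
    linarith⟩
  set D := fderiv ℝ (Phi T) (t, (P, w)) with hD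
  have h1 : HasFDerivAt (fun q : C3 × ℂ => Phi T (t, q))
      (D.comp (ContinuousLinearMap.inr ℝ ℝ (C3 × ℂ))) (P, w) :=
    (Phi_diff T hh hx).comp (P, w) (hasFDerivAt_prodMk_right t (P, w))
  have h2 : HasFDerivAt (fun q : C3 × ℂ => q.2 ^ 2)
      ((2 * w) • ContinuousLinearMap.snd ℝ C3 ℂ) (P, w) := by
    have h3 : HasFDerivAt (fun q : C3 × ℂ => q.2) (ContinuousLinearMap.snd ℝ C3 ℂ) (P, w) :=
      hasFDerivAt_snd
    have h4 := h3.pow 2
    simpa using h4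
  have h3 : HasFDerivAt (fun q : C3 × ℂ => q.2 ^ 2 - (η : ℂ) * Phi T (t, q))
      ((2 * w) • ContinuousLinearMap.snd ℝ C3 ℂ -
        (η : ℂ) • (D.comp (ContinuousLinearMap.inr ℝ ℝ (C3 × ℂ)))) (P, w) :=
    h2.sub (h1.const_mul (η : ℂ))
  have h4 : HGt T η t =ᶠ[𝓝 (P, w)] (fun q : C3 × ℂ => q.2 ^ 2 - (η : ℂ) * Phi T (t, q)) := by
    have ho : {q : C3 × ℂ | ‖q.2‖ < T.δ / 4} ∈ 𝓝 (P, w) :=
      (isOpen_lt (by fun_prop) continuous_const).mem_nhds hw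
    filter_upwards [ho] with q hq
    unfold HGt Phi
    rw [cw_one T (le_of_lt hq)]
    simp
  rw [(h3.congr_of_eventuallyEq h4).fderiv]
  have hη' : (η : ℂ) ≠ 0 := by exact_mod_cast hη.ne'
  rcases hg with hg | hg
  · intro z
    obtain ⟨v, hv⟩ := hg (-(z / η))
    refine ⟨(v, 0), ?_⟩
    have hv' : D (0, (v, 0)) = -(z / η) := hv
    simp only [ContinuousLinearMap.sub_apply, ContinuousLinearMap.smul_apply,
      ContinuousLinearMap.coe_snd', ContinuousLinearMap.comp_apply,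
      ContinuousLinearMap.inr_apply, hv', smul_eq_mul]
    rw [mul_zero, zero_sub, mul_neg, neg_neg, mul_div_cancel₀ _ hη']
  · have hinj : Function.Injective (fun u : ℂ => 2 * w * u - η * D (0, (0, u))) := by
      let L : ℂ →ₗ[ℝ] ℂ :=
        ((2 * w) • ContinuousLinearMap.snd ℝ C3 ℂ -
        (η : ℂ) • (D.comp (ContinuousLinearMap.inr ℝ ℝ (C3 × ℂ)))).comp
          (ContinuousLinearMap.inr ℝ C3 ℂ)
      have hL : ∀ u, L u = 2 * w * u - η * D (0, (0, u)) := fun u => rfl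
      have : Function.Injective L := by
        rw [← LinearMap.ker_eq_bot, LinearMap.ker_eq_bot']
        intro u hu
        by_contra hne
        rw [hL, sub_eq_zero] at hu
        have h5 : ‖D (0, (0, u))‖ ≤ ‖D.comp inW‖ * ‖u‖ := (D.comp inW).le_opNorm u
        have h6 : 2 * ‖w‖ * ‖u‖ = η * ‖D (0, (0, u))‖ := by
          have := congrArg norm hu
          rw [norm_mul, norm_mul, norm_mul, Complex.norm_real, Real.norm_eq_abs,
            abs_of_pos hη] at this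
          simpa using this
        have hu' : 0 < ‖u‖ := norm_pos_iff.2 hne
        have h7 : 2 * ‖w‖ ≤ η * ‖D.comp inW‖ := by
          have : 2 * ‖w‖ * ‖u‖ ≤ η * ‖D.comp inW‖ * ‖u‖ := by
            rw [h6, mul_assoc]
            exact mul_le_mul_of_nonneg_left h5 hη.le
          exact le_of_mul_le_mul_right this hu'
        have h8 : ‖w‖ ^ 2 = η * ‖Phi T (t, (P, w))‖ := by
          have := congrArg norm hz
          rw [norm_pow, norm_mul, Complex.norm_real, Real.norm_eq_abs, abs_of_pos hη] at this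
          exact this
        have h9 : (2 * ‖w‖) ^ 2 ≤ (η * ‖D.comp inW‖) ^ 2 :=
          pow_le_pow_left₀ (by positivity) h7 2
        have h10 : η * (4 * ‖Phi T (t, (P, w))‖) ≤ η * (η * ‖D.comp inW‖ ^ 2) := by
          nlinarith
        have h11 := le_of_mul_le_mul_left h10 hη
        exact absurd hg (not_lt.2 h11)
      intro u v huv
      exact this huv
    have hsurj : Function.Surjective (fun u : ℂ => 2 * w * u - η * D (0, (0, u))) := by
      let L : ℂ →ₗ[ℝ] ℂ :=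
        ((2 * w) • ContinuousLinearMap.snd ℝ C3 ℂ -
        (η : ℂ) • (D.comp (ContinuousLinearMap.inr ℝ ℝ (C3 × ℂ)))).comp
          (ContinuousLinearMap.inr ℝ C3 ℂ)
      have h5 : Function.Injective L := fun u v huv => hinj huv
      exact (LinearMap.injective_iff_surjective (f := L)).1 h5
    intro z
    obtain ⟨u, hu⟩ := hsurj z
    exact ⟨(0, u), hu⟩

lemma HGt_scale (T : Tube) (hh : SFun hb) (η t : ℝ) {r : ℝ} (hr : 0 < r) (p : C3 × ℂ) :
    HGt T η t (r • p.1, p.2) = HGt T η t p := by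
  unfold HGt
  rw [T.G_hom r hr, hh.hom r hr]

end HGR_

open HGR_ in
theorem hgr_proof (hGRG : Stmt_GRG) (_hTAU : Stmt_TAU) : Stmt_HGR := by
  intro T hk
  have hh : SFun hb := hGRG.2.1
  have hδ := T.δ_pos
  obtain ⟨ε, hε, hgood⟩ := good_all T hh hk
  refine ⟨min ε (min (T.δ ^ 2 / 400) (ε ^ 2 / 21)), by positivity, fun η hη hη1 t ht => ?_⟩
  have e1 : η < ε := hη1.trans_le (min_le_left _ _)
  have e2 : η < T.δ ^ 2 / 400 := hη1.trans_le ((min_le_right _ _).trans (min_le_left _ _))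
  have e3 : η < ε ^ 2 / 21 := hη1.trans_le ((min_le_right _ _).trans (min_le_right _ _))
  -- zeros over unit vectors
  have hunit : ∀ (P : C3) (w : ℂ), ‖P‖ = 1 → HGt T η t (P, w) = 0 →
      Function.Surjective (fderiv ℝ (HGt T η t) (P, w)) := by
    intro P w hP hz
    have hP0 : P ≠ 0 := by
      rintro rfl
      simp at hP
    have hz' : w ^ 2 = η * cw T w * Phi T (t, (P, w)) := sub_eq_zero.1 hz
    have hw2 : ‖w‖ < T.δ / 2 := by
      by_contra hcon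
      push Not at hcon
      rw [cw_zero T hcon] at hz'
      have h1 : w ^ 2 = 0 := by
        rw [hz']
        simp
      have h2 : w = 0 := by simpa using h1
      rw [h2, norm_zero] at hcon
      linarith
    have hb21 : ‖Phi T (t, (P, w))‖ ≤ 21 := by
      refine hb_le (G_ne T hP0 ((small _ _).trans_lt ?_))
      change ‖w‖ < T.δ
      linarith
    have hw : ‖w‖ ^ 2 ≤ 21 * η := by
      have h1 := congrArg norm hz'
      rw [norm_pow, norm_mul, norm_mul, Complex.norm_real, Complex.norm_real, Real.norm_eq_abs,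
        Real.norm_eq_abs, abs_of_pos hη] at h1
      have h2 := cw_abs T w
      have h3 : |cw T w| * ‖Phi T (t, (P, w))‖ ≤ 1 * 21 :=
        mul_le_mul h2 hb21 (norm_nonneg _) zero_le_one
      rw [h1, mul_assoc]
      nlinarith
    have hw4 : ‖w‖ < T.δ / 4 := by
      by_contra hcon
      push Not at hcon
      nlinarith
    have hwε : ‖w‖ < ε := by
      by_contra hcon
      push Not at hcon
      nlinarith
    rw [cw_one T hw4.le] at hz'
    refine reg_unit T hh hη hP0 hw4 ?_ (hgood η w ?_ hwε t ht P hP)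
    · simpa using hz'
    · rw [abs_of_pos hη]
      exact e1
  intro P w hP hz
  have hr : 0 < ‖P‖⁻¹ := inv_pos.2 (norm_pos_iff.2 hP)
  have hz1 : HGt T η t (‖P‖⁻¹ • P, w) = 0 := by
    rw [← hz]
    exact HGt_scale T hh η t hr (P, w)
  have hs := hunit (‖P‖⁻¹ • P) w (by
    rw [norm_smul, norm_inv, norm_norm, inv_mul_cancel₀ (norm_ne_zero_iff.2 hP)]) hz1
  have hdiff : DifferentiableAt ℝ (HGt T η t) (‖P‖⁻¹ • P, w) := by
    by_contra hcon
    rw [fderiv_zero_of_not_differentiableAt hcon] at hs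
    obtain ⟨v, hv⟩ := hs 1
    simp at hv
  let L : C3 × ℂ →L[ℝ] C3 × ℂ :=
    (‖P‖⁻¹ • ContinuousLinearMap.fst ℝ C3 ℂ).prod (ContinuousLinearMap.snd ℝ C3 ℂ)
  have hL : L (P, w) = (‖P‖⁻¹ • P, w) := rfl
  have h1 : HasFDerivAt (HGt T η t ∘ L) ((fderiv ℝ (HGt T η t) (‖P‖⁻¹ • P, w)).comp L) (P, w) := by
    have h2 : HasFDerivAt (HGt T η t) (fderiv ℝ (HGt T η t) (‖P‖⁻¹ • P, w)) (L (P, w)) := by
      rw [hL]
      exact hdiff.hasFDerivAt
    exact h2.comp (P, w) L.hasFDerivAt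
  have h2 : HGt T η t ∘ L = HGt T η t := by
    funext p
    exact HGt_scale T hh η t hr p
  rw [h2] at h1
  rw [h1.fderiv]
  intro z
  obtain ⟨⟨v, u⟩, hv⟩ := hs z
  refine ⟨(‖P‖ • v, u), ?_⟩
  have h3 : L (‖P‖ • v, u) = (v, u) := by
    change (‖P‖⁻¹ • ‖P‖ • v, u) = (v, u)
    rw [smul_smul, inv_mul_cancel₀ (norm_ne_zero_iff.2 hP), one_smul]
  rw [ContinuousLinearMap.comp_apply, h3]
  exact hv

end Pool.Agent.KNT
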