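import Pool.Agent.KNT.Stmts

/-!
# Squad KNT, module HGS: `{g² = η h}` is given by `HGt` at `t = 0`
-/

set_option autoImplicit false

open scoped ContDiff ComplexConjugate
open Set Filter Topology Metric

namespace Pool.Agent.KNT

namespace HGS_

theorem norm_nz {V : Type} [NormedAddCommGroup V] [NormedSpace ℝ V] {z : V} (hz : z ≠ 0) :
    ‖nz z‖ = 1 := by
  unfold nz
  rw [norm_smul, norm_inv, norm_norm, inv_mul_cancel₀ (norm_ne_zero_iff.2 hz)]

theorem coord_le (z : C4) (i : Fin 4) : ‖z i‖ ≤ ‖z‖ := by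
  exact PiLp.norm_apply_le z i

theorem hb_le {z : C4} (hz : z ≠ 0) : ‖hb z‖ ≤ 21 := by
  have hn := norm_nz hz
  have h1 : ∀ i, ‖(nz z) i‖ ≤ 1 := fun i => by
    have := coord_le (nz z) i
    rwa [hn] at this
  have h2 : ∀ i, ‖(nz z) i‖ ^ 6 ≤ 1 := fun i => pow_le_one₀ (norm_nonneg _) (h1 i)
  unfold hb h4
  calc ‖16 * (nz z) 1 ^ 6 + 4 * (nz z) 2 ^ 6 + (nz z) 3 ^ 6‖
      ≤ ‖16 * (nz z) 1 ^ 6‖ + ‖4 * (nz z) 2 ^ 6‖ + ‖(nz z) 3 ^ 6‖ := norm_add₃_le
    _ = 16 * ‖(nz z) 1‖ ^ 6 + 4 * ‖(nz z) 2‖ ^ 6 + ‖(nz z) 3‖ ^ 6 := by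
        simp [norm_mul, norm_pow]
    _ ≤ 21 := by
        have a := h2 1
        have b := h2 2
        have c := h2 3
        linarith

theorem cw_mem (T : Tube) (w : ℂ) : 0 ≤ cw T w ∧ cw T w ≤ 1 := by
  unfold cw cut
  exact ⟨Real.smoothTransition.nonneg _, Real.smoothTransition.le_one _⟩

theorem cw_one (T : Tube) {w : ℂ} (h : ‖w‖ ≤ T.δ / 4) : cw T w = 1 := by
  unfold cw cut
  have hδ := T.δ_pos
  apply Real.smoothTransition.one_of_one_le
  have h1 : ‖w‖ ^ 2 ≤ (T.δ / 4) ^ 2 := by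
    have := norm_nonneg w
    nlinarith
  rw [le_div_iff₀ (by nlinarith)]
  linarith

theorem hgt_eq (T : Tube) (η : ℝ) {y : C4} (hy : y ≠ 0) (hg : ‖gb y‖ < T.δ) :
    HGt T η 0 (T.Gi y) = gb y ^ 2 - η * cw T (gb y) * hb y := by
  obtain ⟨h1, h2, h3⟩ := T.G_Gi y hy hg
  unfold HGt
  rw [Real.smoothTransition.zero, h2]
  have e : ((T.Gi y).1, ((1 - 0 : ℝ) : ℂ) * gb y) = T.Gi y := by
    rw [sub_zero, Complex.ofReal_one, one_mul, ← h2]
  rw [e, h3]

end HGS_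

open HGS_ in
theorem hgs_proof (hSAT : Stmt_SAT) (hGRG : Stmt_GRG) (_hTAU : Stmt_TAU) : Stmt_HGS := by
  intro T
  have hδ := T.δ_pos
  refine ⟨T.δ ^ 2 / 352, by positivity, ?_⟩
  intro η hη hη1 z _ hz
  have hcg : ContinuousAt gb z :=
    (hGRG.1.smooth.continuousOn z hz).continuousAt (isOpen_compl_singleton.mem_nhds hz)
  by_cases hg : ‖gb z‖ < T.δ / 4
  · refine (hSAT C4).2.2.2.1 _ _ z ?_
    have hev : ∀ᶠ y in 𝓝 z, ‖gb y‖ < T.δ / 4 :=
      hcg.norm.eventually_lt continuousAt_const hg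
    have hev0 : ∀ᶠ y in 𝓝 z, y ≠ 0 := isOpen_compl_singleton.mem_nhds hz
    filter_upwards [hev, hev0] with y h1 h2
    have h3 : ‖gb y‖ < T.δ := by linarith
    simp only [TF, if_pos h3, hgt_eq T η h2 h3, cw_one T h1.le, Complex.ofReal_one, mul_one]
  · push Not at hg
    have hb1 := hb_le hz
    have key : ∀ c : ℝ, 0 ≤ c → c ≤ 1 → gb z ^ 2 - η * c * hb z ≠ 0 := by
      intro c hc hc1 h0
      have h1 : gb z ^ 2 = η * c * hb z := sub_eq_zero.1 h0
      have h2 : ‖gb z‖ ^ 2 = η * c * ‖hb z‖ := by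
        rw [← norm_pow, h1, norm_mul, norm_mul, Complex.norm_real, Complex.norm_real,
          Real.norm_of_nonneg hη.le, Real.norm_of_nonneg hc]
      have h3 : η * c * ‖hb z‖ ≤ η * 1 * 21 := by
        have := norm_nonneg (hb z)
        gcongr
      have h4 : (T.δ / 4) ^ 2 ≤ ‖gb z‖ ^ 2 := by
        have : 0 ≤ T.δ / 4 := by positivity
        gcongr
      nlinarith
    have hF : gb z ^ 2 - η * hb z ≠ 0 := by
      have := key 1 zero_le_one le_rfl
      simpa using this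
    have hF' : TF T (HGt T η 0) z ≠ 0 := by
      by_cases hg' : ‖gb z‖ < T.δ
      · simp only [TF, if_pos hg', hgt_eq T η hz hg']
        exact key _ (cw_mem T _).1 (cw_mem T _).2
      · simp only [TF, if_neg hg']
        apply pow_ne_zero
        intro h0
        rw [h0, norm_zero] at hg'
        exact hg' hδ
    exact ⟨⟨fun h => absurd h hF, fun h => absurd h hF'⟩, fun h => absurd h hF⟩

end Pool.Agent.KNT
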