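import Pool.Agent.KNT.Stmts

/-!
# Squad KNT: HRG
-/

set_option autoImplicit false

open scoped ContDiff ComplexConjugate
open Set Filter Topology Metric

namespace Pool.Agent.KNT

namespace HRG_

lemma nz_smul (r : ℝ) (hr : 0 < r) (z : C4) : nz (r • z) = nz z := by
  unfold nz
  rw [norm_smul, Real.norm_of_nonneg hr.le, smul_smul, mul_inv, mul_comm r⁻¹, mul_assoc,
    inv_mul_cancel₀ hr.ne', mul_one]

lemma norm_smooth (z : C4) (hz : z ≠ 0) : ContDiffAt ℝ ∞ (fun z : C4 => ‖z‖) z :=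
  contDiffAt_norm ℝ hz

lemma nz_smoothAt (z : C4) (hz : z ≠ 0) : ContDiffAt ℝ ∞ (nz : C4 → C4) z := by
  have h2 : ContDiffAt ℝ ∞ (fun z : C4 => (‖z‖⁻¹ : ℝ)) z :=
    (norm_smooth z hz).inv (norm_ne_zero_iff.mpr hz)
  exact (h2.smul contDiffAt_id)

lemma nz_norm (z : C4) (hz : z ≠ 0) : ‖nz z‖ = 1 := by
  unfold nz
  rw [norm_smul, norm_inv, norm_norm, inv_mul_cancel₀ (norm_ne_zero_iff.mpr hz)]

lemma norm_smul_nz (z : C4) : ‖z‖ • nz z = z := by
  by_cases hz : z = 0
  · simp [hz]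
  · unfold nz
    rw [smul_smul, mul_inv_cancel₀ (norm_ne_zero_iff.mpr hz), one_smul]

/-- derivative of `nz` on tangent vectors -/
lemma nz_deriv (z w : C4) (hz : z ≠ 0) (hw : inner ℝ (nz z) w = 0) :
    fderiv ℝ (nz : C4 → C4) z (‖z‖ • w) = w := by
  have hz' : ‖z‖ ≠ 0 := norm_ne_zero_iff.mpr hz
  have h1 := (hasStrictFDerivAt_norm_sq z).hasFDerivAt
  have hN : HasFDerivAt (fun z : C4 => ‖z‖) (fderiv ℝ (fun z : C4 => ‖z‖) z) z :=
    ((norm_smooth z hz).differentiableAt (by simp)).hasFDerivAt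
  have hnz : HasFDerivAt (nz : C4 → C4) (fderiv ℝ (nz : C4 → C4) z) z :=
    ((nz_smoothAt z hz).differentiableAt (by simp)).hasFDerivAt
  have h2 := hN.pow 2
  have h3 := h1.unique h2
  have hzw : inner ℝ z w = 0 := by
    have : inner ℝ z w = ‖z‖ * inner ℝ (nz z) w := by
      conv_lhs => rw [← norm_smul_nz z]
      rw [inner_smul_left]
      rfl
    rw [this, hw, mul_zero]
  have h4 : fderiv ℝ (fun z : C4 => ‖z‖) z w = 0 := by
    have := congrArg (fun L => L w) h3
    simp only [smul_apply, innerSL_apply_apply, hzw] at this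
    simp only [smul_zero, Nat.add_one_sub_one, pow_one, smul_eq_mul, nsmul_eq_mul,
      Nat.cast_ofNat] at this
    have h5 : (2 * ‖z‖) ≠ 0 := mul_ne_zero two_ne_zero hz'
    rcases mul_eq_zero.mp this.symm with h | h
    · exact absurd h h5
    · exact h
  have h5 := hN.smul hnz
  have h6 : HasFDerivAt (fun z : C4 => ‖z‖ • nz z) (ContinuousLinearMap.id ℝ C4) z := by
    have : (fun z : C4 => ‖z‖ • nz z) = id := by
      funext z
      exact norm_smul_nz z
    rw [this]
    exact hasFDerivAt_id z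
  have h7 := congrArg (fun L => L w) (h6.unique h5)
  simp only [ContinuousLinearMap.id_apply, add_apply,
    smul_apply, ContinuousLinearMap.smulRight_apply, h4, zero_smul,
    add_zero] at h7
  rw [map_smul]
  exact h7.symm

lemma key (L : C4 →L[ℂ] ℂ) (u : C4) (c : ℝ) (h : ∀ w, (L w).re = c * inner ℝ u w) :
    ∀ i, L (EuclideanSpace.single i 1) = c * conj (u i) := by
  intro i
  have h1 := h (EuclideanSpace.single i 1)
  have h2 := h (EuclideanSpace.single i Complex.I)
  have h3 : L (EuclideanSpace.single i Complex.I) =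
      Complex.I * L (EuclideanSpace.single i 1) := by
    have : (EuclideanSpace.single i Complex.I : C4) =
        Complex.I • (EuclideanSpace.single i 1 : C4) := by
      ext j
      by_cases hj : j = i
      · subst hj
        simp
      · simp [hj]
    rw [this, map_smul]
    rfl
  rw [h3] at h2
  have e1 : inner ℝ u (EuclideanSpace.single i 1 : C4) = (u i).re := by
    rw [PiLp.inner_apply, Finset.sum_eq_single i]
    · simp
    · intro j _ hj
      simp [hj]
    · simp
  have e2 : inner ℝ u (EuclideanSpace.single i Complex.I : C4) = (u i).im := by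
    rw [PiLp.inner_apply, Finset.sum_eq_single i]
    · simp
    · intro j _ hj
      simp [hj]
    · simp
  rw [e1] at h1
  rw [e2] at h2
  apply Complex.ext
  · simp [h1]
  · simp at h2 ⊢
    linarith

/-- real functionals on `ℂ` -/
lemma functional (f : ℂ →ₗ[ℝ] ℝ) : ∃ a : ℂ, ∀ x, f x = (a * x).re := by
  refine ⟨⟨f 1, - f Complex.I⟩, fun x => ?_⟩
  have : x = x.re • (1 : ℂ) + x.im • Complex.I := by
    simp
  conv_lhs => rw [this]
  rw [map_add, map_smul, map_smul]
  simp
  ring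

lemma sur {W : Type} [AddCommGroup W] [Module ℝ W] (u : C4)
    (hu : ‖u‖ = 1) (L : C4 →ₗ[ℝ] W)
    (h : ∀ f : W →ₗ[ℝ] ℝ, f ≠ 0 → ∀ c : ℝ, ¬ ∀ w, f (L w) = c * inner ℝ u w) :
    ∀ y : W, ∃ w, inner ℝ u w = 0 ∧ L w = y := by
  by_contra hcon
  let K : Submodule ℝ C4 := LinearMap.ker (innerSL ℝ u).toLinearMap
  have hK : ∀ w, w ∈ K ↔ inner ℝ u w = 0 := by
    intro w
    simp [K]
  have hlt : K.map L < ⊤ := by
    rw [lt_top_iff_ne_top]
    intro htop
    apply hcon
    intro y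
    have : y ∈ K.map L := by
      rw [htop]
      trivial
    obtain ⟨w, hw, rfl⟩ := this
    exact ⟨w, (hK w).mp hw, rfl⟩
  obtain ⟨f, hf0, hf⟩ := Submodule.exists_le_ker_of_lt_top _ hlt
  apply h f hf0 (f (L u))
  intro w
  have hw : w - (inner ℝ u w : ℝ) • u ∈ K := by
    rw [hK, inner_sub_right, inner_smul_right, real_inner_self_eq_norm_sq, hu]
    ring
  have h1 : f (L (w - (inner ℝ u w : ℝ) • u)) = 0 :=
    hf (Submodule.mem_map_of_mem hw)
  rw [map_sub, map_sub, map_smul, map_smul, smul_eq_mul] at h1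
  linarith

end HRG_

open HRG_ in
theorem hrg_proof : Stmt_HRG := by
  intro Φ Ψ hΦ hΨ
  have hΦr : ContDiff ℝ ∞ Φ := hΦ.restrict_scalars ℝ
  have hΨr : ContDiff ℝ ∞ Ψ := hΨ.restrict_scalars ℝ
  have hcomp : ∀ (Φ : C4 → ℂ), ContDiff ℂ ∞ Φ → ∀ z : C4, z ≠ 0 → ∀ v,
      fderiv ℝ (fun z => Φ (nz z)) z v = fderiv ℂ Φ (nz z) (fderiv ℝ (nz : C4 → C4) z v) := by
    intro Φ hΦ z hz v
    have h1 : HasFDerivAt Φ ((fderiv ℂ Φ (nz z)).restrictScalars ℝ) (nz z) :=
      ((hΦ.differentiable (by simp)) (nz z)).hasFDerivAt.restrictScalars ℝ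
    have h2 : HasFDerivAt (nz : C4 → C4) (fderiv ℝ (nz : C4 → C4) z) z :=
      ((nz_smoothAt z hz).differentiableAt (by simp)).hasFDerivAt
    have h3 := h1.comp z h2
    have h4 : fderiv ℝ (fun z => Φ (nz z)) z = _ := h3.fderiv
    rw [h4]
    rfl
  refine ⟨⟨fun r hr z => by rw [nz_smul r hr], ?_⟩, ?_, ?_⟩
  · intro z hz
    exact ((hΦr.contDiffAt (x := nz z)).comp z (nz_smoothAt z hz)).contDiffWithinAt
  · intro h z hz h0 y
    have hu := nz_norm z hz
    have hs := sur (nz z) hu ((fderiv ℂ Φ (nz z)).toLinearMap.restrictScalars ℝ) (by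
      intro f hf0 c hf
      obtain ⟨a, ha⟩ := functional f
      have ha0 : a ≠ 0 := by
        rintro rfl
        apply hf0
        ext x
        simp [ha]
      have h1 := key (a • fderiv ℂ Φ (nz z)) (nz z) c (by
        intro w
        rw [← hf w, ha]
        rfl)
      apply h (nz z) hu h0 (a⁻¹ * c)
      intro i
      have h2 := h1 i
      rw [smul_apply, smul_eq_mul] at h2
      rw [mul_assoc, ← h2, inv_mul_cancel_left₀ ha0])
    obtain ⟨w, hw, hy⟩ := hs y
    refine ⟨‖z‖ • w, ?_⟩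
    rw [hcomp Φ hΦ z hz, nz_deriv z w hz hw]
    exact hy
  · intro h z hz h0 h0' y
    have hu := nz_norm z hz
    have hs := sur (nz z) hu (((fderiv ℂ Φ (nz z)).toLinearMap.restrictScalars ℝ).prod
      ((fderiv ℂ Ψ (nz z)).toLinearMap.restrictScalars ℝ)) (by
      intro f hf0 c hf
      obtain ⟨a, ha⟩ := functional (f ∘ₗ LinearMap.inl ℝ ℂ ℂ)
      obtain ⟨b, hb⟩ := functional (f ∘ₗ LinearMap.inr ℝ ℂ ℂ)
      have hab : ∀ x y, f (x, y) = (a * x + b * y).re := by
        intro x y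
        have : ((x, y) : ℂ × ℂ) = LinearMap.inl ℝ ℂ ℂ x + LinearMap.inr ℝ ℂ ℂ y := by
          simp
        rw [this, map_add, Complex.add_re, ← ha, ← hb]
        rfl
      have h1 := key (a • fderiv ℂ Φ (nz z) + b • fderiv ℂ Ψ (nz z)) (nz z) c (by
        intro w
        rw [← hf w]
        have := hab (fderiv ℂ Φ (nz z) w) (fderiv ℂ Ψ (nz z) w)
        exact this.symm)
      have hne : a ≠ 0 ∨ b ≠ 0 := by
        by_contra hcon
        push Not at hcon
        apply hf0
        apply LinearMap.ext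
        rintro ⟨x, y⟩
        rw [hab, hcon.1, hcon.2]
        simp
      apply h (nz z) hu h0 h0' a b c hne
      intro i
      exact h1 i)
    obtain ⟨w, hw, hy⟩ := hs y
    refine ⟨‖z‖ • w, ?_⟩
    simp only
    rw [hcomp Φ hΦ z hz, hcomp Ψ hΨ z hz, nz_deriv z w hz hw]
    exact hy

end Pool.Agent.KNT
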