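import Pool.Agent.KNT.Stmts

set_option autoImplicit false

open scoped ContDiff ComplexConjugate
open Set Filter Topology Metric

namespace Pool.Agent.KNT

namespace IAB_

lemma mk4_0 (x : ℂ) (y : C3) : (mk4 x y) 0 = x := by simp [mk4]
lemma mk4_1 (x : ℂ) (y : C3) : (mk4 x y) 1 = y 0 := by simp [mk4]
lemma mk4_2 (x : ℂ) (y : C3) : (mk4 x y) 2 = y 1 := by simp [mk4]
lemma mk4_3 (x : ℂ) (y : C3) : (mk4 x y) 3 = y 2 := by simp [mk4]

lemma yy_mk4 (x : ℂ) (y : C3) : yy (mk4 x y) = y := by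
  unfold yy
  rw [mk4_1, mk4_2, mk4_3]
  ext i
  fin_cases i <;> simp

lemma g4_mk4 (x : ℂ) (y : C3) : g4 (mk4 x y) = x ^ 3 + sq y := by
  unfold g4 sq
  rw [mk4_0, mk4_1, mk4_2, mk4_3]
  ring

lemma cj_apply (y : C3) (i : Fin 3) : cj y i = conj (y i) := by
  fin_cases i <;> simp [cj]

lemma norm_cj (y : C3) : ‖cj y‖ = ‖y‖ := by
  rw [EuclideanSpace.norm_eq, EuclideanSpace.norm_eq]
  congr 1
  apply Finset.sum_congr rfl
  intro i _
  rw [cj_apply, RCLike.norm_conj]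

lemma cj_smul (a : ℂ) (y : C3) : cj (a • y) = conj a • cj y := by
  ext i
  simp [cj_apply]

lemma cj_add (y z : C3) : cj (y + z) = cj y + cj z := by
  ext i
  simp [cj_apply]

lemma cj_cj (y : C3) : cj (cj y) = y := by
  ext i
  simp [cj_apply]

lemma sq_smul (a : ℂ) (y : C3) : sq (a • y) = a ^ 2 * sq y := by
  unfold sq
  simp only [PiLp.smul_apply, smul_eq_mul]
  ring

lemma sq_cj (y : C3) : sq (cj y) = conj (sq y) := by
  unfold sq
  simp only [cj_apply, map_add, map_pow]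

end IAB_

open IAB_

theorem iab_proof (hALB : Stmt_ALB) (hFRM : Stmt_FRM) (hTMM : Stmt_TMM) : Stmt_IAB := by
  intro y hy
  obtain ⟨hal, -, -, -, hbb, -, -, hnn, -, hnn6, hξ⟩ := hALB
  obtain ⟨hF1, -, hF3⟩ := hFRM
  refine ⟨?_, ?_, ?_, ?_⟩
  · intro h6 h1
    set X : ℂ := sq y with hX
    have hX0 : 0 < ‖X‖ := by linarith
    have hXc : (‖X‖ : ℂ) ≠ 0 := by exact_mod_cast hX0.ne'
    have hb : bb (‖X‖ ^ 2) = 0 := hbb _ (by nlinarith)
    have hn : nn X = ‖X‖ := hnn6 X h6.le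
    obtain ⟨hu, huy⟩ := hF3 y hy h1
    rw [← hX] at hu huy
    set u : C3 := frm X y with hudef
    have hXX : X * conj X = (‖X‖ : ℂ) ^ 2 := Complex.mul_conj' X
    set c : ℂ := X ^ 2 / (‖X‖ : ℂ) ^ 2 with hc
    have hcc : c * conj c = 1 := by
      rw [hc, map_div₀, map_pow, map_pow, Complex.conj_ofReal]
      have : X ^ 2 * conj X ^ 2 = (‖X‖ : ℂ) ^ 4 := by
        rw [← mul_pow, hXX]; ring
      field_simp
      rw [this]
    have hT : Tm X u = c • cj u := by
      unfold Tm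
      rw [hb, hn]
      have e1 : ((0 : ℝ) ^ 2 : ℝ) • u = 0 := by
        rw [show ((0 : ℝ) ^ 2 : ℝ) = 0 by norm_num, zero_smul]
      rw [e1]
      have e2 : ((√2 : ℂ) * ((0 : ℝ) : ℂ) * X * Complex.I) = 0 := by simp
      rw [e2, zero_smul, add_zero, sub_zero, hc]
      ext i
      simp only [PiLp.smul_apply, smul_eq_mul, Complex.real_smul]
      push_cast
      field_simp
    have hnξ : ‖X ^ 3 / (‖X‖ : ℂ) ^ 2‖ = ‖X‖ := by
      rw [norm_div, norm_pow, norm_pow, Complex.norm_real, norm_norm]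
      field_simp
    have hale : al (X ^ 3 / (‖X‖ : ℂ) ^ 2) = al X := by
      unfold al
      rw [hnξ]
    obtain ⟨ha0, -, -, -⟩ := hal X h1.le
    have hac : (al X : ℂ) ≠ 0 := by exact_mod_cast ha0.ne'
    have hbe : be (X ^ 3 / (‖X‖ : ℂ) ^ 2) = c * conj (be X) * c := by
      unfold be
      rw [hale, hc, map_div₀, map_mul, Complex.conj_ofReal, Complex.conj_ofNat]
      field_simp
      rw [show X ^ 3 * (‖X‖ : ℂ) ^ 2 = X ^ 3 * (X * conj X) by rw [hXX]]
      ring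
    have hcmb : cmb (X ^ 3 / (‖X‖ : ℂ) ^ 2) (Tm X u) = c • cj y := by
      conv_rhs => rw [← huy]
      unfold cmb
      rw [hale, hbe, hT, cj_smul, cj_cj, cj_add, cj_smul, cj_smul, cj_cj, Complex.conj_ofReal,
        smul_add, smul_smul, smul_smul, smul_smul, smul_smul]
      congr 2
      · ring
      · rw [mul_assoc, hcc, mul_one]
    unfold jA jB
    rw [← hX, hn, hcmb, smul_smul]
    congr 2
    rw [hc]
    field_simp
  · unfold i0
    split_ifs
    · exact mk4_0 _ _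
    · exact mk4_0 _ _
  · unfold i0
    split_ifs with h
    · unfold jA
      have hX0 : 0 < ‖sq y‖ := by linarith
      have hXc : (‖sq y‖ : ℂ) ≠ 0 := by exact_mod_cast hX0.ne'
      rw [g4_mk4, sq_smul, sq_cj]
      have hXX : sq y * conj (sq y) = (‖sq y‖ : ℂ) ^ 2 := Complex.mul_conj' _
      have : (Complex.I * sq y ^ 2 / (‖sq y‖ : ℂ)) ^ 2 * conj (sq y) =
          Complex.I ^ 2 * (sq y ^ 3 * (sq y * conj (sq y))) / (‖sq y‖ : ℂ) ^ 2 := by
        ring
      rw [this, hXX, Complex.I_sq]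
      field_simp
      ring
    · have h1 : ‖sq y‖ < 1 := by linarith
      obtain ⟨hu, -⟩ := hF3 y hy h1
      have hu' := (hTMM (sq y) _ hu).1
      obtain ⟨-, hsq⟩ := hF1 (sq y ^ 3 / (nn (sq y) : ℂ) ^ 2) _ (hξ _ h1).le hu'
      unfold jB
      rw [g4_mk4, sq_smul, hsq]
      have hn0 := (hnn (sq y)).1
      have hnc : (nn (sq y) : ℂ) ≠ 0 := by exact_mod_cast hn0.ne'
      rw [mul_pow, Complex.I_sq]
      field_simp
      ring
  · unfold i0
    split_ifs with h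
    · unfold jA
      have hX0 : 0 < ‖sq y‖ := by linarith
      rw [yy_mk4, norm_smul, norm_cj, hy, mul_one, norm_div, norm_mul, Complex.norm_I, norm_pow,
        Complex.norm_real, norm_norm, hnn6 _ (by linarith)]
      field_simp
    · have h1 : ‖sq y‖ < 1 := by linarith
      obtain ⟨hu, -⟩ := hF3 y hy h1
      have hu' := (hTMM (sq y) _ hu).1
      obtain ⟨hnorm, -⟩ := hF1 (sq y ^ 3 / (nn (sq y) : ℂ) ^ 2) _ (hξ _ h1).le hu'
      unfold jB
      rw [yy_mk4, norm_smul, hnorm, mul_one, norm_mul, Complex.norm_I, one_mul, Complex.norm_real,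
        Real.norm_of_nonneg (hnn (sq y)).1.le]

end Pool.Agent.KNT
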