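import Pool.Agent.KNT.Stmts

set_option autoImplicit false

open scoped ContDiff ComplexConjugate
open Set Filter Topology Metric

namespace Pool.Agent.KNT

namespace IBI_

theorem yy_smul (z z' : C4) (c : ℂ) (h : ∀ i : Fin 3, z' i.succ = c * z i.succ) :
    yy z' = c • yy z := by
  ext i
  fin_cases i
  · exact h 0
  · exact h 1
  · exact h 2

theorem ext4 (z z' : C4) (h0 : z' 0 = z 0) (h : ∀ i : Fin 3, z' i.succ = z i.succ) : z' = z := by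
  ext i
  refine Fin.cases h0 h i

theorem core (hALB : Stmt_ALB) (hIAB : Stmt_IAB) (hKAB : Stmt_KAB) (p p' : C3) (hp : ‖p‖ = 1)
    (hp' : ‖p'‖ = 1) (r : ℝ) (hr : 1 ≤ r) (h0 : (i0 p') 0 = (r : ℂ) ^ 2 * (i0 p) 0)
    (h1 : ∀ i : Fin 3, (i0 p') i.succ = (r : ℂ) ^ 3 * (i0 p) i.succ) : p' = p := by
  obtain ⟨-, -, -, hbb, -, hanti, -, hnn, -, -, -⟩ := hALB
  obtain ⟨-, hX, -, hn⟩ := hIAB p hp
  obtain ⟨-, hX', -, hn'⟩ := hIAB p' hp'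
  have hr0 : 0 < r := by linarith
  have hs : ‖sq p'‖ ^ 2 = r ^ 4 * ‖sq p‖ ^ 2 := by
    rw [← hX', h0, norm_mul, norm_pow, Complex.norm_real, Real.norm_eq_abs, abs_of_pos hr0, hX]
    ring
  have hy : ‖yy (i0 p')‖ ^ 2 = r ^ 6 * ‖yy (i0 p)‖ ^ 2 := by
    rw [yy_smul _ _ _ h1, norm_smul, norm_pow, Complex.norm_real, Real.norm_eq_abs,
      abs_of_pos hr0]
    ring
  rw [hn, hn', (hnn _).2, (hnn _).2, hs] at hy
  have hpos : 0 < ‖sq p‖ ^ 2 + bb (‖sq p‖ ^ 2) ^ 2 := by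
    rw [← (hnn _).2]
    exact pow_pos (hnn _).1 2
  have hr4 : 1 ≤ r ^ 4 := one_le_pow₀ hr
  have hmono : bb (r ^ 4 * ‖sq p‖ ^ 2) ≤ bb (‖sq p‖ ^ 2) := by
    apply hanti
    nlinarith [sq_nonneg ‖sq p‖]
  have hb2 : bb (r ^ 4 * ‖sq p‖ ^ 2) ^ 2 ≤ bb (‖sq p‖ ^ 2) ^ 2 :=
    pow_le_pow_left₀ (hbb _).1 hmono 2
  have hle : r ^ 6 * (‖sq p‖ ^ 2 + bb (‖sq p‖ ^ 2) ^ 2) ≤
      r ^ 4 * (‖sq p‖ ^ 2 + bb (‖sq p‖ ^ 2) ^ 2) := by
    rw [← hy]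
    nlinarith [sq_nonneg (bb (‖sq p‖ ^ 2))]
  have h64 : r ^ 6 ≤ r ^ 4 := le_of_mul_le_mul_right hle hpos
  have hr1 : r = 1 := by
    by_contra hne
    have hlt : 1 < r := lt_of_le_of_ne hr (Ne.symm hne)
    have : r ^ 4 < r ^ 6 := pow_lt_pow_right₀ hlt (by norm_num)
    linarith
  subst hr1
  have he : i0 p' = i0 p := ext4 _ _ (by rw [h0]; norm_num) (fun i => by rw [h1]; norm_num)
  have hsq : sq p' = sq p := by rw [← hX', ← hX, he]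
  by_cases hc : 1 / 6 < ‖sq p‖
  · rw [← (hKAB.1 p hp).1 hc, ← (hKAB.1 p' hp').1 (by rw [hsq]; exact hc), he]
  · have hc' : ‖sq p‖ < 1 := by
      have := not_lt.1 hc
      linarith
    rw [← (hKAB.1 p hp).2 hc', ← (hKAB.1 p' hp').2 (by rw [hsq]; exact hc'), he]

theorem unit (hALB : Stmt_ALB) (hIAB : Stmt_IAB) (hKAB : Stmt_KAB) (ι : C3 → C4)
    (hf : ∀ P, ‖P‖ = 1 → ∃ ρ : ℝ, 0 < ρ ∧ (ι P) 0 = ρ ^ 2 * (i0 P) 0 ∧
      ∀ i : Fin 3, (ι P) i.succ = ρ ^ 3 * (i0 P) i.succ) (p p' : C3) (hp : ‖p‖ = 1)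
    (hp' : ‖p'‖ = 1) (h : ι p = ι p') : p = p' := by
  obtain ⟨ρ, hρ, h0, h1⟩ := hf p hp
  obtain ⟨ρ', hρ', h0', h1'⟩ := hf p' hp'
  have hc : (ρ : ℂ) ≠ 0 := by exact_mod_cast hρ.ne'
  have hc' : (ρ' : ℂ) ≠ 0 := by exact_mod_cast hρ'.ne'
  rw [h, h0'] at h0
  have h1'' : ∀ i : Fin 3, (ρ' : ℂ) ^ 3 * (i0 p') i.succ = ρ ^ 3 * (i0 p) i.succ := by
    intro i
    rw [← h1 i, h, h1' i]
  rcases le_total ρ' ρ with hle | hle
  · refine (core hALB hIAB hKAB p p' hp hp' (ρ / ρ') ((one_le_div hρ').2 hle) ?_ ?_).symm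
    · push_cast
      field_simp
      linear_combination h0
    · intro i
      push_cast
      have := h1'' i
      field_simp
      linear_combination this
  · refine core hALB hIAB hKAB p' p hp' hp (ρ' / ρ) ((one_le_div hρ).2 hle) ?_ ?_
    · push_cast
      field_simp
      linear_combination -h0
    · intro i
      push_cast
      have := h1'' i
      field_simp
      linear_combination -this

end IBI_

open IBI_ in
theorem ibi_proof (hALB : Stmt_ALB) (hIAB : Stmt_IAB) (hKAB : Stmt_KAB) : Stmt_IBI := by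
  intro ι hhom hnorm hf P P' h
  have hPP : ‖P‖ = ‖P'‖ := by rw [← hnorm P, ← hnorm P', h]
  by_cases hP : P = 0
  · subst hP
    rw [norm_zero] at hPP
    exact (norm_eq_zero.1 hPP.symm).symm
  · have hn : 0 < ‖P‖ := norm_pos_iff.2 hP
    have hinv : 0 < ‖P‖⁻¹ := inv_pos.2 hn
    have e1 : ‖(‖P‖⁻¹ : ℝ) • P‖ = 1 := by
      rw [norm_smul, norm_inv, norm_norm, inv_mul_cancel₀ hn.ne']
    have e2 : ‖(‖P‖⁻¹ : ℝ) • P'‖ = 1 := by
      rw [norm_smul, norm_inv, norm_norm, ← hPP, inv_mul_cancel₀ hn.ne']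
    have e3 : ι ((‖P‖⁻¹ : ℝ) • P) = ι ((‖P‖⁻¹ : ℝ) • P') := by
      rw [hhom _ hinv, hhom _ hinv, h]
    have e4 := unit hALB hIAB hKAB ι hf _ _ e1 e2 e3
    have e5 := congrArg (fun x : C3 => (‖P‖ : ℝ) • x) e4
    simpa [smul_smul, mul_inv_cancel₀ hn.ne'] using e5

end Pool.Agent.KNT
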