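import Pool.Agent.KNT.Stmts

set_option autoImplicit false

open scoped ContDiff ComplexConjugate
open Set

namespace Pool.Agent.KNT

namespace IBS_

theorem nsq (z : C4) : ‖z‖ ^ 2 = ‖z 0‖ ^ 2 + ‖z 1‖ ^ 2 + ‖z 2‖ ^ 2 + ‖z 3‖ ^ 2 := by
  rw [EuclideanSpace.norm_sq_eq, Fin.sum_univ_four]

theorem nsq3 (y : C3) : ‖y‖ ^ 2 = ‖y 0‖ ^ 2 + ‖y 1‖ ^ 2 + ‖y 2‖ ^ 2 := by
  rw [EuclideanSpace.norm_sq_eq, Fin.sum_univ_three]

theorem yy0 (z : C4) : yy z 0 = z 1 := rfl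
theorem yy1 (z : C4) : yy z 1 = z 2 := rfl
theorem yy2 (z : C4) : yy z 2 = z 3 := rfl

theorem nz_norm {V : Type} [NormedAddCommGroup V] [NormedSpace ℝ V] (z : V) (h : z ≠ 0) :
    ‖nz z‖ = 1 := by
  rw [nz, norm_smul, norm_inv, norm_norm, inv_mul_cancel₀ (norm_ne_zero_iff.2 h)]

theorem nz_smul {V : Type} [NormedAddCommGroup V] [NormedSpace ℝ V] (z : V) (h : z ≠ 0) :
    ‖z‖ • nz z = z := by
  rw [nz, smul_smul, mul_inv_cancel₀ (norm_ne_zero_iff.2 h), one_smul]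

theorem ivt (A B : ℝ) (hA : 0 ≤ A) (hB : 0 < B) (b : ℝ → ℝ) (hb : Continuous b)
    (h0 : 0 < b 0) (h1 : ∀ s, 0 ≤ b s ∧ b s ≤ 1) :
    ∃ r : ℝ, 0 < r ∧ r ^ 6 * B = r ^ 4 * A + b (r ^ 4 * A) ^ 2 := by
  let φ : ℝ → ℝ := fun r => r ^ 6 * B - r ^ 4 * A - b (r ^ 4 * A) ^ 2
  have hφ : Continuous φ := by
    have : Continuous fun r : ℝ => b (r ^ 4 * A) := hb.comp (by fun_prop)
    fun_prop
  obtain ⟨R, hR1, hR2⟩ : ∃ R : ℝ, 1 ≤ R ∧ A + 1 ≤ R * B := by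
    refine ⟨max 1 ((A + 1) / B), le_max_left _ _, ?_⟩
    calc A + 1 = (A + 1) / B * B := by field_simp
      _ ≤ _ := mul_le_mul_of_nonneg_right (le_max_right _ _) hB.le
  have hφ0 : φ 0 ≤ 0 := by
    simp only [φ]
    norm_num
    positivity
  have hφR : 0 ≤ φ R := by
    simp only [φ]
    have h2 := h1 (R ^ 4 * A)
    have h3 : b (R ^ 4 * A) ^ 2 ≤ 1 := pow_le_one₀ h2.1 h2.2
    have h4 : (1 : ℝ) ≤ R ^ 4 := one_le_pow₀ hR1
    have h5 : R ^ 4 * (A + 1) ≤ R ^ 6 * B := by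
      calc R ^ 4 * (A + 1) ≤ R ^ 4 * (R * B) := mul_le_mul_of_nonneg_left hR2 (by positivity)
        _ ≤ R ^ 4 * (R * B) * R := le_mul_of_one_le_right (by positivity) hR1
        _ = R ^ 6 * B := by ring
    nlinarith
  obtain ⟨r, hr, hr0⟩ := intermediate_value_Icc (by linarith : (0 : ℝ) ≤ R) hφ.continuousOn
    ⟨hφ0, hφR⟩
  refine ⟨r, ?_, ?_⟩
  · rcases hr.1.lt_or_eq with h | h
    · exact h
    · exfalso
      rw [← h] at hr0
      simp only [φ] at hr0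
      norm_num at hr0
      exact h0.ne' hr0
  · simp only [φ] at hr0
    linarith

theorem scale (A B s : ℝ) (hA : 0 ≤ A) (hB : 0 < B) (hs : 0 < s)
    (h : s ^ 4 * A + s ^ 6 * B = A + B) : s = 1 := by
  rcases lt_trichotomy s 1 with h1 | h1 | h1
  · have h2 : s ^ 4 ≤ 1 := pow_le_one₀ hs.le h1.le
    have h3 : s ^ 6 < 1 := pow_lt_one₀ hs.le h1 (by norm_num)
    nlinarith
  · exact h1
  · have h2 : 1 ≤ s ^ 4 := one_le_pow₀ h1.le
    have h3 : 1 < s ^ 6 := one_lt_pow₀ h1 (by norm_num)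
    nlinarith

theorem g4_scale (z w : C4) (r : ℝ) (h0 : w 0 = r ^ 2 * z 0)
    (h1 : ∀ i : Fin 3, w i.succ = r ^ 3 * z i.succ) : g4 w = r ^ 6 * g4 z := by
  have h10 : w 1 = r ^ 3 * z 1 := h1 0
  have h11 : w 2 = r ^ 3 * z 2 := h1 1
  have h12 : w 3 = r ^ 3 * z 3 := h1 2
  unfold g4
  rw [h0, h10, h11, h12]
  ring

end IBS_

open IBS_ in
theorem ibs_proof (hALB : Stmt_ALB) (hIAB : Stmt_IAB) (hKAB : Stmt_KAB) : Stmt_IBS := by
  obtain ⟨-, -, -, hbb, -, -, hbs, hnn, -, -, -⟩ := hALB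
  intro ι hhom hnorm hform z hz
  constructor
  · intro hg
    have hz1 := nz_norm z hz
    have hsq := nsq (nz z)
    rw [hz1] at hsq
    have hg1 : g4 (nz z) = 0 := hg
    have hY := nsq3 (yy (nz z))
    rw [yy0, yy1, yy2] at hY
    have hY0 : 0 < ‖yy (nz z)‖ ^ 2 := by
      by_contra hcon
      have h0 : ‖yy (nz z)‖ ^ 2 = 0 := le_antisymm (not_lt.1 hcon) (by positivity)
      rw [h0] at hY
      have h1 : nz z 1 = 0 := by
        have : ‖nz z 1‖ ^ 2 = 0 := by nlinarith [sq_nonneg ‖nz z 1‖, sq_nonneg ‖nz z 2‖, sq_nonneg ‖nz z 3‖]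
        simpa using this
      have h2 : nz z 2 = 0 := by
        have : ‖nz z 2‖ ^ 2 = 0 := by nlinarith [sq_nonneg ‖nz z 1‖, sq_nonneg ‖nz z 2‖, sq_nonneg ‖nz z 3‖]
        simpa using this
      have h3 : nz z 3 = 0 := by
        have : ‖nz z 3‖ ^ 2 = 0 := by nlinarith [sq_nonneg ‖nz z 1‖, sq_nonneg ‖nz z 2‖, sq_nonneg ‖nz z 3‖]
        simpa using this
      unfold g4 at hg1
      rw [h1, h2, h3] at hg1
      have h4 : nz z 0 = 0 := by simpa using hg1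
      rw [h1, h2, h3, h4] at hsq
      norm_num at hsq
    obtain ⟨r, hr, hrr⟩ := ivt (‖nz z 0‖ ^ 2) (‖yy (nz z)‖ ^ 2) (by positivity) hY0 bb
      hbs.continuous (by
        have : bb 0 = 1 := by unfold bb; norm_num
        rw [this]; norm_num) hbb
    let z' : C4 := !₂[(r : ℂ) ^ 2 * nz z 0, (r : ℂ) ^ 3 * nz z 1, (r : ℂ) ^ 3 * nz z 2,
      (r : ℂ) ^ 3 * nz z 3]
    have hz'0 : z' 0 = (r : ℂ) ^ 2 * nz z 0 := rfl
    have hz's : ∀ i : Fin 3, z' i.succ = (r : ℂ) ^ 3 * nz z i.succ := by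
      intro i
      fin_cases i <;> rfl
    have hg' : g4 z' = 0 := by
      rw [g4_scale (nz z) z' r hz'0 hz's, hg1, mul_zero]
    have hn' : ‖yy z'‖ = nn (z' 0) := by
      have h1 : ‖yy z'‖ ^ 2 = r ^ 6 * ‖yy (nz z)‖ ^ 2 := by
        rw [nsq3, nsq3 (yy (nz z))]
        have e0 : yy z' 0 = (r : ℂ) ^ 3 * yy (nz z) 0 := rfl
        have e1 : yy z' 1 = (r : ℂ) ^ 3 * yy (nz z) 1 := rfl
        have e2 : yy z' 2 = (r : ℂ) ^ 3 * yy (nz z) 2 := rfl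
        rw [e0, e1, e2]
        simp only [norm_mul, norm_pow, Complex.norm_real, Real.norm_eq_abs, abs_of_pos hr]
        ring
      have h2 := (hnn (z' 0)).2
      have h3 : ‖z' 0‖ ^ 2 = r ^ 4 * ‖nz z 0‖ ^ 2 := by
        rw [hz'0]
        simp only [norm_mul, norm_pow, Complex.norm_real, Real.norm_eq_abs, abs_of_pos hr]
        ring
      rw [h3] at h2
      have h4 : ‖yy z'‖ ^ 2 = nn (z' 0) ^ 2 := by rw [h1, h2, hrr]
      exact (pow_left_inj₀ (norm_nonneg _) (hnn (z' 0)).1.le (by norm_num)).1 h4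
    obtain ⟨P, hP, hPz⟩ := hKAB.2 z' hg' hn'
    obtain ⟨ρ, hρ, hι0, hιs⟩ := hform P hP
    rw [hPz] at hι0 hιs
    have hi0 : (ι P) 0 = ((ρ * r : ℝ) : ℂ) ^ 2 * nz z 0 := by
      rw [hι0, hz'0]; push_cast; ring
    have his : ∀ i : Fin 3, (ι P) i.succ = ((ρ * r : ℝ) : ℂ) ^ 3 * nz z i.succ := by
      intro i
      rw [hιs i, hz's i]; push_cast; ring
    have hs : ρ * r = 1 := by
      apply scale (‖nz z 0‖ ^ 2) (‖yy (nz z)‖ ^ 2) _ (by positivity) hY0 (by positivity)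
      have h1 := nsq (ι P)
      rw [hnorm, hP] at h1
      have i1 : (ι P) 1 = ((ρ * r : ℝ) : ℂ) ^ 3 * nz z 1 := his 0
      have i2 : (ι P) 2 = ((ρ * r : ℝ) : ℂ) ^ 3 * nz z 2 := his 1
      have i3 : (ι P) 3 = ((ρ * r : ℝ) : ℂ) ^ 3 * nz z 3 := his 2
      rw [hi0, i1, i2, i3] at h1
      simp only [norm_mul, norm_pow, Complex.norm_real, Real.norm_eq_abs, abs_of_pos hρ,
        abs_of_pos hr] at h1
      rw [hY]
      linear_combination -h1 + hsq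
    have hιP : ι P = nz z := by
      rw [hs] at hi0 his
      ext i
      refine Fin.cases ?_ (fun i => ?_) i
      · rw [hi0]; simp
      · rw [his i]; simp
    refine ⟨‖z‖ • P, ?_, ?_⟩
    · intro h0
      have h1 : ‖(‖z‖ • P)‖ = 0 := by rw [h0, norm_zero]
      rw [norm_smul, norm_norm, hP, mul_one] at h1
      exact hz (norm_eq_zero.1 h1)
    · rw [hhom _ (norm_pos_iff.2 hz), hιP, nz_smul z hz]
  · rintro ⟨P, hP, rfl⟩
    have hP1 := nz_norm P hP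
    obtain ⟨ρ, hρ, hι0, hιs⟩ := hform (nz P) hP1
    have h1 : nz (ι P) = ι (nz P) := by
      have h2 : ι P = ‖P‖ • ι (nz P) := by
        rw [← hhom _ (norm_pos_iff.2 hP), nz_smul P hP]
      rw [nz, hnorm]
      conv_lhs => rw [h2]
      rw [smul_smul, inv_mul_cancel₀ (norm_ne_zero_iff.2 hP), one_smul]
    change g4 (nz (ι P)) = 0
    rw [h1, g4_scale (i0 (nz P)) _ ρ hι0 hιs, (hIAB _ hP1).2.2.1, mul_zero]

end Pool.Agent.KNT
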