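import Pool.Agent.KNT.Stmts

/-!
Module INJ of squad KNT: a smooth map which is injective on a compact set and a local diffeomorphism
at its points has a smooth inverse near it.
-/

set_option autoImplicit false

open scoped ContDiff ComplexConjugate
open Set Filter Topology Metric

namespace Pool.Agent.KNT

namespace INJ_

variable {X Y : Type} [NormedAddCommGroup X] [NormedSpace ℝ X]
  [FiniteDimensional ℝ X] [NormedAddCommGroup Y] [NormedSpace ℝ Y] [FiniteDimensional ℝ Y]

lemma exists_equiv (L : X →L[ℝ] Y) (h : Function.Bijective L) : ∃ e : X ≃L[ℝ] Y, (e : X →L[ℝ] Y) = L := by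
  refine ⟨(LinearEquiv.ofBijective (L : X →ₗ[ℝ] Y) h).toContinuousLinearEquiv, ?_⟩
  ext x
  rfl

lemma range_eq : range ((↑) : (X ≃L[ℝ] Y) → X →L[ℝ] Y) = {L : X →L[ℝ] Y | Function.Bijective L} := by
  ext L
  constructor
  · rintro ⟨e, rfl⟩
    exact e.bijective
  · intro h
    obtain ⟨e, he⟩ := exists_equiv L h
    exact ⟨e, he⟩

end INJ_

open INJ_ in
theorem inj_proof : Stmt_INJ := by
  intro X Y _ _ _ _ _ _ f O K hO hf hK hKO hinj hbij
  haveI : CompleteSpace X := FiniteDimensional.complete ℝ X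
  haveI : CompleteSpace Y := FiniteDimensional.complete ℝ Y
  have hat : ∀ x ∈ O, ContDiffAt ℝ ∞ f x := fun x hx => hf.contDiffAt (hO.mem_nhds hx)
  -- local data
  have hloc : ∀ x ∈ O, Function.Bijective (fderiv ℝ f x) → ∃ e : X ≃L[ℝ] Y,
      HasFDerivAt f (e : X →L[ℝ] Y) x ∧ HasStrictFDerivAt f (e : X →L[ℝ] Y) x := by
    intro x hx hb
    obtain ⟨e, he⟩ := exists_equiv (fderiv ℝ f x) hb
    have h1 : HasFDerivAt f (e : X →L[ℝ] Y) x := by
      rw [he]
      exact ((hat x hx).differentiableAt (by simp)).hasFDerivAt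
    exact ⟨e, h1, (hat x hx).hasStrictFDerivAt' h1 (by simp)⟩
  -- the set of regular points
  have hD : IsOpen (O ∩ {x | Function.Bijective (fderiv ℝ f x)}) := by
    have h1 : ContinuousOn (fderiv ℝ f) O := hf.continuousOn_fderiv_of_isOpen hO (by simp)
    have h2 : IsOpen {L : X →L[ℝ] Y | Function.Bijective L} := by
      rw [← range_eq, isOpen_iff_mem_nhds]
      rintro _ ⟨e, rfl⟩
      exact ContinuousLinearEquiv.nhds e
    exact h1.isOpen_inter_preimage hO h2
  obtain ⟨t, ht, htinj⟩ := hinj.exists_mem_nhdsSet hK (fun x hx => (hat x (hKO hx)).continuousAt) (by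
    intro x hx
    obtain ⟨e, _, h2⟩ := hloc x (hKO hx) (hbij x hx)
    refine ⟨(h2.toOpenPartialHomeomorph f).source, ?_, ?_⟩
    · exact (h2.toOpenPartialHomeomorph f).open_source.mem_nhds h2.mem_toOpenPartialHomeomorph_source
    · exact (h2.toOpenPartialHomeomorph f).injOn)
  refine ⟨interior t ∩ (O ∩ {x | Function.Bijective (fderiv ℝ f x)}), isOpen_interior.inter hD, ?_, ?_, ?_, ?_, ?_, ?_⟩
  · intro x hx
    exact ⟨(subset_interior_iff_mem_nhdsSet.2 ht) hx, hKO hx, hbij x hx⟩
  · intro x hx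
    exact hx.2.1
  · exact htinj.mono fun x hx => interior_subset hx.1
  · intro x hx
    exact hx.2.2
  · intro W hW hWU
    rw [isOpen_iff_mem_nhds]
    rintro _ ⟨x, hx, rfl⟩
    obtain ⟨e, _, h2⟩ := hloc x (hWU hx).2.1 (hWU hx).2.2
    rw [← h2.map_nhds_eq_of_equiv]
    exact image_mem_map (hW.mem_nhds hx)
  · have hU : InjOn f (interior t ∩ (O ∩ {x | Function.Bijective (fderiv ℝ f x)})) :=
      htinj.mono fun x hx => interior_subset hx.1
    refine ⟨Function.invFunOn f (interior t ∩ (O ∩ {x | Function.Bijective (fderiv ℝ f x)})), ?_, ?_⟩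
    · rintro _ ⟨x, hx, rfl⟩
      obtain ⟨e, h1, h2⟩ := hloc x hx.2.1 hx.2.2
      have hc := (hat x hx.2.1).to_localInverse h1 (by simp)
      refine ContDiffAt.contDiffWithinAt (hc.congr_of_eventuallyEq ?_)
      have h3 := h2.eventually_right_inverse
      have h4 := h2.localInverse_tendsto ((isOpen_interior.inter hD).mem_nhds hx)
      filter_upwards [h3, h4] with y hy hyU
      have h5 := hU.leftInvOn_invFunOn hyU
      rw [hy] at h5
      exact h5
    · intro x hx
      exact hU.leftInvOn_invFunOn hx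

end Pool.Agent.KNT
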