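import Pool.Agent.KNT.Stmts

/-!
# Squad KNT: module IOD (the differential of `ι` is injective)
-/

set_option autoImplicit false

open scoped ContDiff ComplexConjugate
open Set Filter Topology Metric

namespace Pool.Agent.KNT

namespace IOD_

/-- a curve with vanishing derivative: so does its norm -/
theorem norm_deriv_zero {V : Type} [NormedAddCommGroup V] [NormedSpace ℝ V] {x : ℝ → V} {s : ℝ}
    (h : HasDerivAt x 0 s) : HasDerivAt (fun r => ‖x r‖) 0 s := by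
  rw [hasDerivAt_iff_isLittleO] at h ⊢
  refine Asymptotics.IsBigO.trans_isLittleO (Asymptotics.IsBigO.of_bound 1 ?_) h
  filter_upwards with r
  rw [smul_zero, sub_zero, smul_zero, sub_zero, one_mul, Real.norm_eq_abs]
  exact abs_norm_sub_norm_le _ _

/-- `z ↦ (z₀, 0)` -/
noncomputable def A0 : C4 →ₗ[ℝ] C4 where
  toFun z := mk4 (z 0) 0
  map_add' x y := by ext i; fin_cases i <;> simp [mk4]
  map_smul' c x := by ext i; fin_cases i <;> simp [mk4]

/-- `z ↦ (0, z₁, z₂, z₃)` -/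
noncomputable def A1 : C4 →ₗ[ℝ] C4 where
  toFun z := mk4 0 (yy z)
  map_add' x y := by ext i; fin_cases i <;> simp [mk4, yy]
  map_smul' c x := by ext i; fin_cases i <;> simp [mk4, yy]

/-- `yy` as a linear map -/
noncomputable def A2 : C4 →ₗ[ℝ] C3 where
  toFun z := yy z
  map_add' x y := by ext i; fin_cases i <;> simp [yy]
  map_smul' c x := by ext i; fin_cases i <;> simp [yy]

/-- first coordinate -/
noncomputable def A3 : C4 →ₗ[ℝ] ℂ where
  toFun z := z 0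
  map_add' x y := by simp
  map_smul' c x := by simp

theorem lin_deriv {V W : Type} [NormedAddCommGroup V] [NormedSpace ℝ V] [FiniteDimensional ℝ V]
    [NormedAddCommGroup W] [NormedSpace ℝ W] (A : V →ₗ[ℝ] W) {x : ℝ → V} {x' : V} {s : ℝ}
    (h : HasDerivAt x x' s) : HasDerivAt (fun r => A (x r)) (A x') s := by
  have h1 : HasFDerivAt (fun z => A z) (LinearMap.toContinuousLinearMap A) (x s) :=
    (LinearMap.toContinuousLinearMap A).hasFDerivAt
  exact h1.comp_hasDerivAt s h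

theorem Mw_form (m x : C4) (t ρ : ℝ) (hm : ‖m‖ = t) (h : m = (t / ρ) • x) :
    Mw m = (t ^ 2 / ρ) • A0 x + (t ^ 3 / ρ) • A1 x := by
  unfold Mw
  rw [hm]
  ext i
  fin_cases i <;> (simp [mk4, yy, A0, A1, h]; try ring)

/-- the ray speed vanishes -/
theorem speed (bb : ℝ → ℝ) (t x0 Y0 : ℝ → ℝ) (ρ : ℝ → ℝ) (τ : ℝ) (ht : HasDerivAt t τ 0)
    (hρ : HasDerivAt ρ 0 0) (hx : HasDerivAt x0 0 0) (hY : HasDerivAt Y0 0 0) (t0 : 0 < t 0)
    (ρ0 : 0 < ρ 0) (hbb : Antitone bb) (hbd : DifferentiableAt ℝ bb ((t 0 ^ 2 / ρ 0 * x0 0) ^ 2))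
    (hb0 : ∀ s, 0 ≤ bb s) (hpos : 0 < t 0 ^ 3 / ρ 0 * Y0 0)
    (hrel : ∀ᶠ s in 𝓝 (0 : ℝ), (t s ^ 3 / ρ s * Y0 s) ^ 2 = (t s ^ 2 / ρ s * x0 s) ^ 2 +
      bb ((t s ^ 2 / ρ s * x0 s) ^ 2) ^ 2) : τ = 0 := by
  have ha : HasDerivAt (fun s => t s ^ 2 / ρ s) (2 * (τ / t 0) * (t 0 ^ 2 / ρ 0)) 0 := by
    have h := (ht.pow 2).div hρ ρ0.ne'
    refine h.congr_deriv ?_
    simp only [Pi.pow_apply]
    field_simp
    push_cast
    ring
  have hb : HasDerivAt (fun s => t s ^ 3 / ρ s) (3 * (τ / t 0) * (t 0 ^ 3 / ρ 0)) 0 := by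
    have h := (ht.pow 3).div hρ ρ0.ne'
    refine h.congr_deriv ?_
    simp only [Pi.pow_apply]
    field_simp
    push_cast
    ring
  set a0 := t 0 ^ 2 / ρ 0 with ha0
  set b0 := t 0 ^ 3 / ρ 0 with hb0'
  have hA : HasDerivAt (fun s => (t s ^ 2 / ρ s * x0 s) ^ 2) (4 * (τ / t 0) * (a0 * x0 0) ^ 2)
      0 := by
    have h := (ha.mul hx).pow 2
    refine h.congr_deriv ?_
    simp only [Pi.mul_apply]
    rw [← ha0]
    push_cast
    ring
  have hB : HasDerivAt (fun s => (t s ^ 3 / ρ s * Y0 s) ^ 2) (6 * (τ / t 0) * (b0 * Y0 0) ^ 2)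
      0 := by
    have h := (hb.mul hY).pow 2
    refine h.congr_deriv ?_
    simp only [Pi.mul_apply]
    rw [← hb0']
    push_cast
    ring
  have hbbA : HasDerivAt (fun s => bb ((t s ^ 2 / ρ s * x0 s) ^ 2))
      (deriv bb ((a0 * x0 0) ^ 2) * (4 * (τ / t 0) * (a0 * x0 0) ^ 2)) 0 :=
    HasDerivAt.comp (h₂ := bb) (h := fun s => (t s ^ 2 / ρ s * x0 s) ^ 2) (0 : ℝ)
      hbd.hasDerivAt hA
  have hR : HasDerivAt (fun s => (t s ^ 2 / ρ s * x0 s) ^ 2 +
      bb ((t s ^ 2 / ρ s * x0 s) ^ 2) ^ 2) (4 * (τ / t 0) * (a0 * x0 0) ^ 2 *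
      (1 + 2 * bb ((a0 * x0 0) ^ 2) * deriv bb ((a0 * x0 0) ^ 2))) 0 := by
    have h := hA.add (hbbA.pow 2)
    refine h.congr_deriv ?_
    rw [← ha0]
    push_cast
    ring
  have heq := hB.unique (hR.congr_of_eventuallyEq hrel)
  have h0 := hrel.self_of_nhds
  rw [← ha0, ← hb0'] at h0
  have hd : deriv bb ((a0 * x0 0) ^ 2) ≤ 0 := hbb.deriv_nonpos
  have hbn := hb0 ((a0 * x0 0) ^ 2)
  by_contra hτ
  have hτt : τ / t 0 ≠ 0 := div_ne_zero hτ t0.ne'
  have h1 : 6 * (b0 * Y0 0) ^ 2 = 4 * (a0 * x0 0) ^ 2 *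
      (1 + 2 * bb ((a0 * x0 0) ^ 2) * deriv bb ((a0 * x0 0) ^ 2)) := by
    apply mul_left_cancel₀ hτt
    linear_combination heq
  have h2 : bb ((a0 * x0 0) ^ 2) * deriv bb ((a0 * x0 0) ^ 2) ≤ 0 :=
    mul_nonpos_of_nonneg_of_nonpos hbn hd
  have h3 : 0 ≤ (a0 * x0 0) ^ 2 := sq_nonneg _
  have h4 : 0 < (b0 * Y0 0) ^ 2 := pow_pos hpos 2
  have h5 : (a0 * x0 0) ^ 2 * (bb ((a0 * x0 0) ^ 2) * deriv bb ((a0 * x0 0) ^ 2)) ≤ 0 :=
    mul_nonpos_of_nonneg_of_nonpos h3 h2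
  nlinarith [sq_nonneg (bb ((a0 * x0 0) ^ 2))]

theorem nz_def {V : Type} [NormedAddCommGroup V] [NormedSpace ℝ V] (z : V) :
    nz z = (‖z‖⁻¹ : ℝ) • z := rfl

theorem A3_apply (z : C4) : A3 z = z 0 := rfl

theorem form_aux {V : Type} [NormedAddCommGroup V] [NormedSpace ℝ V] (w : V) (g : ℝ)
    (hg : g ≠ 0) (hw : w ≠ 0) : w = (‖w‖ / g) • g • nz w := by
  have h2 := norm_ne_zero_iff.2 hw
  rw [nz_def, smul_smul, smul_smul]
  have h4 : ‖w‖ / g * g * ‖w‖⁻¹ = 1 := by field_simp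
  rw [h4, one_smul]

theorem last (k : C4 → C3) (I : ℝ → C4) (q : ℝ → C3) (w : C3) (hk : DifferentiableAt ℝ k (I 0))
    (hI : HasDerivAt I 0 0) (hq : HasDerivAt q w 0) (he : ∀ᶠ s in 𝓝 (0 : ℝ), k (I s) = q s) :
    w = 0 := by
  have h1 := hk.hasFDerivAt.comp_hasDerivAt (0 : ℝ) hI
  rw [map_zero] at h1
  have h2 : (k ∘ I) =ᶠ[𝓝 0] q := he
  exact hq.unique (h1.congr_of_eventuallyEq h2.symm)

theorem nz_norm {V : Type} [NormedAddCommGroup V] [NormedSpace ℝ V] {z : V} (hz : z ≠ 0) :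
    ‖nz z‖ = 1 := by
  unfold nz
  rw [norm_smul, norm_inv, norm_norm, inv_mul_cancel₀ (norm_ne_zero_iff.2 hz)]

end IOD_

open IOD_ in
theorem iod_proof (hALB : Stmt_ALB) (hIAB : Stmt_IAB) (hKAB : Stmt_KAB) (hISM : Stmt_ISM) :
    Stmt_IOD := by
  obtain ⟨-, -, -, hbb01, -, hbba, hbbs, hnn, -, -, -⟩ := hALB
  intro Mi hMs hMne hMM hMMi ι hι P hP
  obtain ⟨hI1, hkA, hkB⟩ := hISM
  -- elementary facts on `I(y) = i0 (nz y)`
  have hIne : ∀ y : C3, y ≠ 0 → i0 (nz y) ≠ 0 := by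
    intro y hy h0
    have h1 := (hIAB (nz y) (nz_norm hy)).2.2.2
    have h2 := (hnn (sq (nz y))).1
    rw [h0] at h1
    have h3 : yy (0 : C4) = 0 := by ext i; fin_cases i <;> simp [yy]
    rw [h3, norm_zero] at h1
    linarith
  have hIx : ∀ y : C3, y ≠ 0 → ‖yy (i0 (nz y))‖ ^ 2 = ‖(i0 (nz y)) 0‖ ^ 2 +
      bb (‖(i0 (nz y)) 0‖ ^ 2) ^ 2 := by
    intro y hy
    obtain ⟨-, h1, -, h2⟩ := hIAB (nz y) (nz_norm hy)
    rw [h2, h1, (hnn _).2]
  have hιn : ∀ y : C3, ‖ι y‖ = ‖y‖ := by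
    intro y
    by_cases hy : y = 0
    · rw [hι y, hy, norm_zero, zero_smul, norm_zero]
    · rw [hι y, norm_smul, norm_norm, nz_norm (hMne _ (hIne y hy)), mul_one]
  -- differentiability
  have dI : DifferentiableAt ℝ (fun y : C3 => i0 (nz y)) P :=
    (hI1.contDiffAt (isOpen_compl_singleton.mem_nhds hP)).differentiableAt (by simp)
  have dM : DifferentiableAt ℝ Mi (i0 (nz P)) :=
    (hMs.contDiffAt (isOpen_compl_singleton.mem_nhds (hIne P hP))).differentiableAt (by simp)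
  have dm : DifferentiableAt ℝ (fun y : C3 => Mi (i0 (nz y))) P :=
    DifferentiableAt.comp P dM dI
  have hmne : Mi (i0 (nz P)) ≠ 0 := hMne _ (hIne P hP)
  have dmn : DifferentiableAt ℝ (fun y : C3 => ‖Mi (i0 (nz y))‖) P :=
    dm.norm ℂ hmne
  have dn : DifferentiableAt ℝ (fun y : C3 => ‖y‖) P := differentiableAt_id.norm ℂ hP
  have dι : DifferentiableAt ℝ ι P := by
    have h1 : ι = fun y => ‖y‖ • (‖Mi (i0 (nz y))‖⁻¹ • Mi (i0 (nz y))) := by
      funext y; rw [hι y]; rfl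
    rw [h1]
    exact dn.smul ((dmn.inv (norm_ne_zero_iff.2 hmne)).smul dm)
  rw [injective_iff_map_eq_zero]
  intro v hv
  -- the curve
  have hγ : HasDerivAt (fun s : ℝ => P + s • v) v 0 := by
    have h1 := ((hasDerivAt_id (0 : ℝ)).smul_const v).const_add P
    simpa using h1
  have hγ0 : (fun s : ℝ => P + s • v) 0 = P := by simp
  have hγne : ∀ᶠ s in 𝓝 (0 : ℝ), P + s • v ≠ 0 := by
    have h1 := hγ.continuousAt
    have h2 : (fun s : ℝ => P + s • v) 0 ≠ 0 := by rw [hγ0]; exact hP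
    exact h1.eventually_ne h2
  have hx : HasDerivAt (fun s : ℝ => ι (P + s • v)) 0 0 := by
    have h1 : HasFDerivAt ι (fderiv ℝ ι P) ((fun s : ℝ => P + s • v) 0) := by
      rw [hγ0]; exact dι.hasFDerivAt
    have h2 := h1.comp_hasDerivAt (0 : ℝ) hγ
    rw [hv] at h2
    exact h2
  have hρ : HasDerivAt (fun s : ℝ => ‖P + s • v‖) 0 0 := by
    have h1 := norm_deriv_zero hx
    refine h1.congr_of_eventuallyEq (Eventually.of_forall fun s => (hιn _).symm)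
  obtain ⟨τ, ht⟩ : ∃ τ, HasDerivAt (fun s : ℝ => ‖Mi (i0 (nz (P + s • v)))‖) τ 0 := by
    have h1 : DifferentiableAt ℝ (fun y : C3 => ‖Mi (i0 (nz y))‖) ((fun s : ℝ => P + s • v) 0) := by
      rw [hγ0]; exact dmn
    have h2 : DifferentiableAt ℝ (fun s : ℝ => ‖Mi (i0 (nz (P + s • v)))‖) 0 :=
      DifferentiableAt.comp (g := fun y : C3 => ‖Mi (i0 (nz y))‖) (f := fun s : ℝ => P + s • v)
        (0 : ℝ) h1 hγ.differentiableAt
    exact ⟨_, h2.hasDerivAt⟩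
  -- `I` in terms of `x = ι γ`, `t = |m|`, `ρ`
  have hform : ∀ s : ℝ, P + s • v ≠ 0 → i0 (nz (P + s • v)) =
      (‖Mi (i0 (nz (P + s • v)))‖ ^ 2 / ‖P + s • v‖) • A0 (ι (P + s • v)) +
      (‖Mi (i0 (nz (P + s • v)))‖ ^ 3 / ‖P + s • v‖) • A1 (ι (P + s • v)) := by
    intro s hs
    have h1 := hMne _ (hIne _ hs)
    have h2 : Mi (i0 (nz (P + s • v))) =
        (‖Mi (i0 (nz (P + s • v)))‖ / ‖P + s • v‖) • ι (P + s • v) := by
      rw [hι (P + s • v)]
      exact form_aux _ _ (norm_ne_zero_iff.2 hs) h1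
    rw [← Mw_form (Mi (i0 (nz (P + s • v)))) _ _ _ rfl h2, hMMi _ (hIne _ hs)]
  have hI00 : ∀ s : ℝ, P + s • v ≠ 0 → ‖(i0 (nz (P + s • v))) 0‖ =
      ‖Mi (i0 (nz (P + s • v)))‖ ^ 2 / ‖P + s • v‖ * ‖A3 (ι (P + s • v))‖ := by
    intro s hs
    conv_lhs => rw [hform s hs]
    have h1 : ((‖Mi (i0 (nz (P + s • v)))‖ ^ 2 / ‖P + s • v‖) • A0 (ι (P + s • v)) +
      (‖Mi (i0 (nz (P + s • v)))‖ ^ 3 / ‖P + s • v‖) • A1 (ι (P + s • v)) : C4) 0 =
      (‖Mi (i0 (nz (P + s • v)))‖ ^ 2 / ‖P + s • v‖) • A3 (ι (P + s • v)) := by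
      rw [A3_apply]
      simp [A0, A1, mk4]
    rw [h1, norm_smul, Real.norm_of_nonneg (by positivity)]
  have hIyy : ∀ s : ℝ, P + s • v ≠ 0 → ‖yy (i0 (nz (P + s • v)))‖ =
      ‖Mi (i0 (nz (P + s • v)))‖ ^ 3 / ‖P + s • v‖ * ‖A2 (ι (P + s • v))‖ := by
    intro s hs
    conv_lhs => rw [hform s hs]
    have h1 : yy ((‖Mi (i0 (nz (P + s • v)))‖ ^ 2 / ‖P + s • v‖) • A0 (ι (P + s • v)) +
      (‖Mi (i0 (nz (P + s • v)))‖ ^ 3 / ‖P + s • v‖) • A1 (ι (P + s • v)) : C4) =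
      (‖Mi (i0 (nz (P + s • v)))‖ ^ 3 / ‖P + s • v‖) • A2 (ι (P + s • v)) := by
      ext i
      fin_cases i <;> simp [A0, A1, A2, mk4, yy]
    rw [h1, norm_smul, Real.norm_of_nonneg (by positivity)]
  have hx3 : HasDerivAt (fun s : ℝ => ‖A3 (ι (P + s • v))‖) 0 0 := by
    apply norm_deriv_zero
    have h1 := lin_deriv A3 hx
    rwa [map_zero] at h1
  have hx2 : HasDerivAt (fun s : ℝ => ‖A2 (ι (P + s • v))‖) 0 0 := by
    apply norm_deriv_zero
    have h1 := lin_deriv A2 hx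
    rwa [map_zero] at h1
  have hP0 : P + (0 : ℝ) • v = P := by simp
  have hτ : τ = 0 := by
    refine speed bb (fun s : ℝ => ‖Mi (i0 (nz (P + s • v)))‖) (fun s : ℝ => ‖A3 (ι (P + s • v))‖)
      (fun s : ℝ => ‖A2 (ι (P + s • v))‖) (fun s : ℝ => ‖P + s • v‖) τ ht hρ hx3 hx2 ?_ ?_ hbba
      ((hbbs.differentiable (by simp)) _) (fun s => (hbb01 s).1) ?_ ?_
    · simp only [hP0]; exact norm_pos_iff.2 hmne
    · simp only [hP0]; exact norm_pos_iff.2 hP
    · have h1 := hIyy 0 (by rw [hP0]; exact hP)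
      rw [← h1]
      rw [(hIAB _ (nz_norm (by rw [hP0]; exact hP))).2.2.2]
      exact (hnn _).1
    · filter_upwards [hγne] with s hs
      have h1 := hIx _ hs
      rw [hI00 s hs, hIyy s hs] at h1
      exact h1
  -- the derivative of `I` along the curve vanishes
  have hI : HasDerivAt (fun s : ℝ => i0 (nz (P + s • v))) 0 0 := by
    rw [hτ] at ht
    have ha : HasDerivAt (fun s : ℝ => ‖Mi (i0 (nz (P + s • v)))‖ ^ 2 / ‖P + s • v‖) 0 0 := by
      have h := (ht.pow 2).div hρ (by rw [hP0]; exact norm_ne_zero_iff.2 hP)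
      refine h.congr_deriv ?_
      simp
    have hb : HasDerivAt (fun s : ℝ => ‖Mi (i0 (nz (P + s • v)))‖ ^ 3 / ‖P + s • v‖) 0 0 := by
      have h := (ht.pow 3).div hρ (by rw [hP0]; exact norm_ne_zero_iff.2 hP)
      refine h.congr_deriv ?_
      simp
    have h0 := lin_deriv A0 hx
    have h1 := lin_deriv A1 hx
    have h2 := (ha.smul h0).add (hb.smul h1)
    rw [map_zero, map_zero, smul_zero, smul_zero, zero_smul, zero_smul, add_zero, add_zero] at h2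
    refine h2.congr_of_eventuallyEq ?_
    filter_upwards [hγne] with s hs
    exact hform s hs
  -- the derivative of `nz γ`
  have hp : HasDerivAt (fun s : ℝ => nz (P + s • v)) (‖P‖⁻¹ • v) 0 := by
    have h1 := (hρ.inv (by rw [hP0]; exact norm_ne_zero_iff.2 hP)).smul hγ
    refine h1.congr_deriv ?_
    simp
  have hfin : (‖P‖⁻¹ : ℝ) • v = 0 := by
    have hc : ContinuousAt (fun s : ℝ => ‖(i0 (nz (P + s • v))) 0‖) 0 := by
      have h1 := (lin_deriv A3 hI).continuousAt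
      exact h1.norm
    have hsq : ∀ s : ℝ, P + s • v ≠ 0 → ‖(i0 (nz (P + s • v))) 0‖ = ‖sq (nz (P + s • v))‖ := by
      intro s hs
      rw [(hIAB _ (nz_norm hs)).2.1]
    by_cases hbig : 1 / 6 < ‖sq (nz P)‖
    · have h0 : 1 / 6 < (fun s : ℝ => ‖(i0 (nz (P + s • v))) 0‖) 0 := by
        simp only [hP0]
        rw [(hIAB _ (nz_norm hP)).2.1]; exact hbig
      have hev := hc.eventually_const_lt h0
      have hkd : DifferentiableAt ℝ kA ((fun s : ℝ => i0 (nz (P + s • v))) 0) := by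
        have hz : (i0 (nz (P + (0 : ℝ) • v))) 0 ≠ 0 := by
          intro h1
          simp only [h1, norm_zero] at h0
          norm_num at h0
        have hop : IsOpen {z : C4 | z 0 ≠ 0} := by
          have hcont : Continuous fun z : C4 => z 0 := by fun_prop
          exact isOpen_ne_fun hcont continuous_const
        exact (hkA.contDiffAt (hop.mem_nhds hz)).differentiableAt (by simp)
      refine last kA (fun s : ℝ => i0 (nz (P + s • v))) (fun s => nz (P + s • v)) _ hkd hI hp ?_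
      filter_upwards [hγne, hev] with s hs hs2
      rw [hsq s hs] at hs2
      exact (hKAB.1 _ (nz_norm hs)).1 hs2
    · have h0 : (fun s : ℝ => ‖(i0 (nz (P + s • v))) 0‖) 0 < 1 := by
        simp only [hP0]
        rw [(hIAB _ (nz_norm hP)).2.1]; linarith [not_lt.1 hbig]
      have hev := hc.eventually_lt_const h0
      have hkd : DifferentiableAt ℝ kB ((fun s : ℝ => i0 (nz (P + s • v))) 0) := by
        have hop : IsOpen {z : C4 | ‖z 0‖ < 1} := by
          have hcont : Continuous fun z : C4 => ‖z 0‖ := by fun_prop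
          exact isOpen_lt hcont continuous_const
        exact (hkB.contDiffAt (hop.mem_nhds h0)).differentiableAt (by simp)
      refine last kB (fun s : ℝ => i0 (nz (P + s • v))) (fun s => nz (P + s • v)) _ hkd hI hp ?_
      filter_upwards [hγne, hev] with s hs hs2
      rw [hsq s hs] at hs2
      exact (hKAB.1 _ (nz_norm hs)).2 hs2
  rcases smul_eq_zero.1 hfin with h | h
  · exact absurd (inv_eq_zero.1 h) (norm_ne_zero_iff.2 hP)
  · exact h

end Pool.Agent.KNT
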