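import Pool.Agent.KNT.Stmts

/-!
# Squad KNT, module IOT: existence of the parametrisation
-/

set_option autoImplicit false

open scoped ContDiff ComplexConjugate
open Set Filter Topology Metric

namespace Pool.Agent.KNT

namespace IOT_

theorem sq_le_one {P : C3} (hP : ‖P‖ = 1) : ‖sq P‖ ≤ 1 := by
  have h1 : ‖P 0‖ ^ 2 + ‖P 1‖ ^ 2 + ‖P 2‖ ^ 2 = 1 := by
    have := EuclideanSpace.norm_sq_eq P
    rw [hP, Fin.sum_univ_three] at this
    linarith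
  unfold sq
  calc ‖P 0 ^ 2 + P 1 ^ 2 + P 2 ^ 2‖ ≤ ‖P 0 ^ 2‖ + ‖P 1 ^ 2‖ + ‖P 2 ^ 2‖ := norm_add₃_le
    _ = 1 := by rw [norm_pow, norm_pow, norm_pow, h1]

end IOT_

open IOT_ in
theorem iot_proof (hWPI : Stmt_WPI) (hIOA : Stmt_IOA) (hIBI : Stmt_IBI) (hIBS : Stmt_IBS)
    (hIOD : Stmt_IOD) (hIAB : Stmt_IAB) : Stmt_IOT := by
  obtain ⟨Mi, hs, hne, hl, hr⟩ := hWPI
  set ι : C3 → C4 := fun P => ‖P‖ • nz (Mi (i0 (nz P))) with hι
  obtain ⟨h1, h2, h3, h4⟩ := hIOA Mi hs hne hl hr ι (fun _ => rfl)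
  have h5 := hIBI ι h1 h2 h4
  have h6 := hIBS ι h1 h2 h4
  have h7 := hIOD Mi hs hne hl hr ι (fun _ => rfl)
  refine ⟨ι, ⟨h1, h2, h3, h7, ?_, h5, h6⟩⟩
  intro P hP hX
  obtain ⟨ρ, hρ, a0, a1⟩ := h4 P hP
  obtain ⟨b1, b2, _, _⟩ := hIAB P hP
  have hi : i0 P = jA P := by
    unfold i0
    by_cases h : 1 / 3 < ‖sq P‖
    · rw [if_pos h]
    · rw [if_neg h]
      push Not at h
      exact (b1 hX (by linarith)).symm
  refine ⟨ρ, hρ, ?_, ?_, ?_, ?_⟩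
  · rw [a0, b2]
  · have := a1 0
    rw [hi] at this
    simpa [jA, mk4, cj] using this
  · have := a1 1
    rw [hi] at this
    simpa [jA, mk4, cj] using this
  · have := a1 2
    rw [hi] at this
    simpa [jA, mk4, cj] using this

end Pool.Agent.KNT
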