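import Pool.Agent.KNT.Stmts

set_option autoImplicit false

open scoped ContDiff ComplexConjugate
open Set Metric

namespace Pool.Agent.KNT

namespace ISM_

section
variable {W : Type} [NormedAddCommGroup W] [NormedSpace ℝ W] {x : W}

/-- smooth scalar function at a point -/
def S (f : W → ℂ) (x : W) : Prop := ContDiffAt ℝ ∞ f x
/-- smooth real function at a point -/
def SR (f : W → ℝ) (x : W) : Prop := ContDiffAt ℝ ∞ f x
/-- smooth vector function at a point -/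
def SV (Y : W → C3) (x : W) : Prop := ∀ i, ContDiffAt ℝ ∞ (fun w => Y w i) x

theorem S.add {f g : W → ℂ} (hf : S f x) (hg : S g x) : S (fun w => f w + g w) x :=
  ContDiffAt.add hf hg
theorem S.sub {f g : W → ℂ} (hf : S f x) (hg : S g x) : S (fun w => f w - g w) x :=
  ContDiffAt.sub hf hg
theorem S.mul {f g : W → ℂ} (hf : S f x) (hg : S g x) : S (fun w => f w * g w) x :=
  ContDiffAt.mul hf hg
theorem S.pow {f : W → ℂ} (hf : S f x) (n : ℕ) : S (fun w => f w ^ n) x :=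
  ContDiffAt.pow hf n
theorem S.div {f g : W → ℂ} (hf : S f x) (hg : S g x) (h : g x ≠ 0) :
    S (fun w => f w / g w) x := by
  have := ContDiffAt.mul hf (ContDiffAt.inv hg h)
  refine this.congr_of_eventuallyEq (Filter.Eventually.of_forall fun w => ?_)
  exact div_eq_mul_inv _ _
theorem S.inv {g : W → ℂ} (hg : S g x) (h : g x ≠ 0) : S (fun w => (g w)⁻¹) x :=
  ContDiffAt.inv hg h
theorem S.const (c : ℂ) : S (fun _ : W => c) x := contDiffAt_const
theorem S.conj {f : W → ℂ} (hf : S f x) : S (fun w => conj (f w)) x :=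
  (Complex.conjCLE.contDiff.contDiffAt).comp x hf
theorem SR.coe {f : W → ℝ} (hf : SR f x) : S (fun w => (f w : ℂ)) x :=
  (Complex.ofRealCLM.contDiff.contDiffAt).comp x hf
theorem SR.mul {f g : W → ℝ} (hf : SR f x) (hg : SR g x) : SR (fun w => f w * g w) x :=
  ContDiffAt.mul hf hg
theorem SR.pow {f : W → ℝ} (hf : SR f x) (n : ℕ) : SR (fun w => f w ^ n) x :=
  ContDiffAt.pow hf n
theorem SR.inv {g : W → ℝ} (hg : SR g x) (h : g x ≠ 0) : SR (fun w => (g w)⁻¹) x :=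
  ContDiffAt.inv hg h
theorem SR.sub {f g : W → ℝ} (hf : SR f x) (hg : SR g x) : SR (fun w => f w - g w) x :=
  ContDiffAt.sub hf hg
theorem SR.const (c : ℝ) : SR (fun _ : W => c) x := contDiffAt_const
theorem SR.sqrt {f : W → ℝ} (hf : SR f x) (h : f x ≠ 0) : SR (fun w => √(f w)) x :=
  ContDiffAt.sqrt hf h
theorem S.norm {f : W → ℂ} (hf : S f x) (h : f x ≠ 0) : SR (fun w => ‖f w‖) x :=
  ContDiffAt.norm ℝ hf h
theorem S.normSq {f : W → ℂ} (hf : S f x) : SR (fun w => ‖f w‖ ^ 2) x :=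
  (contDiff_norm_sq ℝ (E := ℂ)).contDiffAt.comp x hf

theorem SV.sq {Y : W → C3} (h : SV Y x) : S (fun w => KNT.sq (Y w)) x :=
  S.add (S.add (S.pow (h 0) 2) (S.pow (h 1) 2)) (S.pow (h 2) 2)
theorem SV.cj {Y : W → C3} (h : SV Y x) : SV (fun w => KNT.cj (Y w)) x := by
  intro i
  fin_cases i
  · exact S.conj (h 0)
  · exact S.conj (h 1)
  · exact S.conj (h 2)
theorem SV.add {Y Z : W → C3} (h : SV Y x) (h' : SV Z x) : SV (fun w => Y w + Z w) x :=
  fun i => S.add (h i) (h' i)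
theorem SV.sub {Y Z : W → C3} (h : SV Y x) (h' : SV Z x) : SV (fun w => Y w - Z w) x :=
  fun i => S.sub (h i) (h' i)
theorem SV.smul {c : W → ℂ} {Y : W → C3} (hc : S c x) (h : SV Y x) :
    SV (fun w => c w • Y w) x := fun i => S.mul hc (h i)
theorem SV.rsmul {c : W → ℝ} {Y : W → C3} (hc : SR c x) (h : SV Y x) :
    SV (fun w => c w • Y w) x := fun i => ContDiffAt.smul hc (h i)
theorem SV.crs {Y Z : W → C3} (h : SV Y x) (h' : SV Z x) : SV (fun w => KNT.crs (Y w) (Z w)) x := by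
  intro i
  fin_cases i
  · exact S.sub (S.mul (h 1) (h' 2)) (S.mul (h 2) (h' 1))
  · exact S.sub (S.mul (h 2) (h' 0)) (S.mul (h 0) (h' 2))
  · exact S.sub (S.mul (h 0) (h' 1)) (S.mul (h 1) (h' 0))

variable (hALB : Stmt_ALB)
include hALB

theorem S.al {f : W → ℂ} (hf : S f x) (h : ‖f x‖ < 1) : SR (fun w => KNT.al (f w)) x := by
  have h1 : ContDiffAt ℝ ∞ KNT.al (f x) :=
    hALB.2.1.contDiffAt ((isOpen_lt continuous_norm continuous_const).mem_nhds h)
  exact h1.comp x hf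
theorem S.be {f : W → ℂ} (hf : S f x) (h : ‖f x‖ < 1) : S (fun w => KNT.be (f w)) x := by
  have h1 : ContDiffAt ℝ ∞ KNT.be (f x) :=
    hALB.2.2.1.contDiffAt ((isOpen_lt continuous_norm continuous_const).mem_nhds h)
  exact h1.comp x hf
theorem S.nn {f : W → ℂ} (hf : S f x) : SR (fun w => KNT.nn (f w)) x :=
  (hALB.2.2.2.2.2.2.2.2.1.contDiffAt).comp x hf
theorem SR.bb {f : W → ℝ} (hf : SR f x) : SR (fun w => KNT.bb (f w)) x :=
  (hALB.2.2.2.2.2.2.1.contDiffAt).comp x hf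
theorem nn_pos (X : ℂ) : 0 < KNT.nn X := (hALB.2.2.2.2.2.2.2.1 X).1

theorem SV.cmb {f : W → ℂ} {Y : W → C3} (hf : S f x) (h : ‖f x‖ < 1) (hY : SV Y x) :
    SV (fun w => KNT.cmb (f w) (Y w)) x :=
  SV.add (SV.smul (SR.coe (S.al hALB hf h)) hY) (SV.smul (S.be hALB hf h) (SV.cj hY))

theorem SV.frm {f : W → ℂ} {Y : W → C3} (hf : S f x) (h : ‖f x‖ < 1) (hY : SV Y x) :
    SV (fun w => KNT.frm (f w) (Y w)) x := by
  have h1 : (1 : ℝ) - ‖f x‖ ^ 2 ≠ 0 := by
    have := norm_nonneg (f x)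
    nlinarith
  have h2 : √(1 - ‖f x‖ ^ 2) ≠ 0 := by
    rw [Real.sqrt_ne_zero']
    have := norm_nonneg (f x)
    nlinarith
  exact SV.rsmul (SR.inv (SR.sqrt (SR.sub (SR.const 1) (S.normSq hf)) h1) h2)
    (SV.sub (SV.smul (SR.coe (S.al hALB hf h)) hY) (SV.smul (S.be hALB hf h) (SV.cj hY)))

theorem SV.Tm {f : W → ℂ} {Y : W → C3} (hf : S f x) (hY : SV Y x) :
    SV (fun w => KNT.Tm (f w) (Y w)) x := by
  have hb := SR.bb hALB (S.normSq hf)
  refine SV.rsmul (SR.inv (SR.pow (S.nn hALB hf) 2) (pow_ne_zero _ (nn_pos hALB _).ne')) ?_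
  refine SV.add (SV.sub (SV.smul (S.pow hf 2) (SV.cj hY)) (SV.rsmul (SR.pow hb 2) hY)) ?_
  exact SV.smul (S.mul (S.mul (S.mul (S.const _) (SR.coe hb)) hf) (S.const _))
    (SV.crs hY (SV.cj hY))

end

theorem contDiffAt_C3 {W : Type} [NormedAddCommGroup W] [NormedSpace ℝ W] {x : W} {Y : W → C3}
    (h : SV Y x) : ContDiffAt ℝ ∞ Y x := (contDiffAt_piLp 2).2 h

theorem contDiffAt_mk4 {W : Type} [NormedAddCommGroup W] [NormedSpace ℝ W] {x : W} {f : W → ℂ}
    {Y : W → C3} (hf : S f x) (h : SV Y x) : ContDiffAt ℝ ∞ (fun w => mk4 (f w) (Y w)) x := by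
  refine (contDiffAt_piLp 2).2 fun i => ?_
  fin_cases i
  · exact hf
  · exact h 0
  · exact h 1
  · exact h 2

theorem sv_of {W : Type} [NormedAddCommGroup W] [NormedSpace ℝ W] {x : W} {Y : W → C3}
    (h : ContDiffAt ℝ ∞ Y x) : SV Y x := (contDiffAt_piLp 2).1 h

theorem sv_nz {y : C3} (hy : y ≠ 0) : SV (fun w : C3 => nz w) y := by
  apply sv_of
  have h : ContDiffAt ℝ ∞ (fun w : C3 => ‖w‖) y := contDiffAt_norm ℝ hy
  exact (h.inv (norm_ne_zero_iff.2 hy)).smul contDiffAt_id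

theorem norm_nz {y : C3} (hy : y ≠ 0) : ‖nz y‖ = 1 := by
  rw [nz, norm_smul, norm_inv, norm_norm, inv_mul_cancel₀ (norm_ne_zero_iff.2 hy)]

theorem jA_smooth {W : Type} [NormedAddCommGroup W] [NormedSpace ℝ W] {x : W} {Y : W → C3}
    (hY : SV Y x) (h : sq (Y x) ≠ 0) : ContDiffAt ℝ ∞ (fun w => jA (Y w)) x := by
  have hX := SV.sq hY
  refine contDiffAt_mk4 hX (SV.smul (S.div (S.mul (S.const _) (S.pow hX 2))
    (SR.coe (S.norm hX h)) ?_) (SV.cj hY))
  exact_mod_cast norm_ne_zero_iff.2 h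

theorem jB_smooth (hALB : Stmt_ALB) {W : Type} [NormedAddCommGroup W] [NormedSpace ℝ W] {x : W}
    {Y : W → C3} (hY : SV Y x) (h : ‖sq (Y x)‖ < 1) : ContDiffAt ℝ ∞ (fun w => jB (Y w)) x := by
  have hX := SV.sq hY
  have hn := SR.coe (S.nn hALB hX)
  have hn0 : ((nn (sq (Y x)) : ℝ) : ℂ) ^ 2 ≠ 0 := by
    apply pow_ne_zero
    exact_mod_cast (nn_pos hALB _).ne'
  refine contDiffAt_mk4 hX (SV.smul (S.mul (S.const _) hn) ?_)
  refine SV.cmb hALB (S.div (S.pow hX 3) (S.pow hn 2) hn0) ?_ ?_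
  · exact hALB.2.2.2.2.2.2.2.2.2.2 _ h
  · exact SV.Tm hALB hX (SV.frm hALB hX h hY)

theorem s_coord (j : Fin 4) (z : C4) : S (fun w : C4 => w j) z :=
  (contDiffAt_piLp (p := 2) (f := fun w : C4 => w)).1 contDiffAt_id j

theorem sv_yy (z : C4) : SV (fun w : C4 => yy w) z := by
  intro i
  fin_cases i
  · exact s_coord 1 z
  · exact s_coord 2 z
  · exact s_coord 3 z

end ISM_

open ISM_ in
theorem ism_proof (hALB : Stmt_ALB) (hIAB : Stmt_IAB) : Stmt_ISM := by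
  refine ⟨fun y hy => ContDiffAt.contDiffWithinAt ?_, fun z hz =>
    ContDiffAt.contDiffWithinAt ?_, fun z hz => ContDiffAt.contDiffWithinAt ?_⟩
  · have hy0 : y ≠ 0 := hy
    have hN := sv_nz hy0
    have hX := SV.sq hN
    have hc : ContinuousAt (fun w : C3 => ‖sq (nz w)‖) y := (ContDiffAt.continuousAt hX).norm
    by_cases h : 1 / 6 < ‖sq (nz y)‖
    · have h0 : sq (nz y) ≠ 0 := by
        intro h1
        rw [h1, norm_zero] at h
        norm_num at h
      refine (jA_smooth hN h0).congr_of_eventuallyEq ?_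
      filter_upwards [hc.eventually (lt_mem_nhds h), isOpen_ne.mem_nhds hy0] with w hw hw0
      by_cases h3 : 1 / 3 < ‖sq (nz w)‖
      · rw [i0, if_pos h3]
      · rw [i0, if_neg h3]
        exact ((hIAB (nz w) (norm_nz hw0)).1 hw (by linarith)).symm
    · have h0 : ‖sq (nz y)‖ < 1 / 3 := by linarith
      refine (jB_smooth hALB hN (by linarith)).congr_of_eventuallyEq ?_
      filter_upwards [hc.eventually (gt_mem_nhds h0)] with w hw
      rw [i0, if_neg (not_lt.2 hw.le)]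
  · have hz0 : z 0 ≠ 0 := hz
    refine contDiffAt_C3 (SV.smul (S.div (S.mul (S.const _) (S.pow (s_coord 0 z) 2))
      (S.pow (SR.coe (S.norm (s_coord 0 z) hz0)) 3) ?_) (SV.cj (sv_yy z)))
    apply pow_ne_zero
    exact_mod_cast norm_ne_zero_iff.2 hz0
  · have hz1 : ‖z 0‖ < 1 := hz
    have hX := s_coord 0 z
    have hn := SR.coe (S.nn hALB hX)
    have hn1 : ((nn (z 0) : ℝ) : ℂ) ≠ 0 := by
      exact_mod_cast (nn_pos hALB _).ne'
    refine contDiffAt_C3 (SV.cmb hALB hX hz1 (SV.Tm hALB hX (SV.frm hALB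
      (S.div (S.pow hX 3) (S.pow hn 2) (pow_ne_zero _ hn1)) ?_ (SV.smul (S.inv
        (S.mul (S.const _) hn) (mul_ne_zero Complex.I_ne_zero hn1)) (sv_yy z)))))
    exact hALB.2.2.2.2.2.2.2.2.2.2 _ hz1

end Pool.Agent.KNT
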