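import Pool.Agent.KNT.Stmts

set_option autoImplicit false

open scoped ContDiff ComplexConjugate
open Set

namespace Pool.Agent.KNT

namespace ISO_

theorem exists_int {Y ν : ℂ} (h : Y = 0 ∨ Y ^ 2 = ν ^ 2) : ∃ e : ℤ, Y = e * ν := by
  rcases h with h | h
  · exact ⟨0, by simp [h]⟩
  · rcases sq_eq_sq_iff_eq_or_eq_neg.1 h with h | h
    · exact ⟨1, by simp [h]⟩
    · exact ⟨-1, by simp [h]⟩

/-- the algebra: the only critical point with `‖y·y‖ < 1/24` is `0` -/
theorem alg {x y1 y2 y3 g : ℂ} (hg : g = x ^ 3 + y1 ^ 2 + y2 ^ 2 + y3 ^ 2)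
    (hx : 6 * x ^ 2 * g = 0) (h1 : 4 * g * y1 - 96 * y1 ^ 5 = 0)
    (h2 : 4 * g * y2 - 24 * y2 ^ 5 = 0) (h3 : 4 * g * y3 - 6 * y3 ^ 5 = 0)
    (hs : ‖y1 ^ 2 + y2 ^ 2 + y3 ^ 2‖ < 1 / 24) : x = 0 ∧ y1 = 0 ∧ y2 = 0 ∧ y3 = 0 := by
  by_cases g0 : g = 0
  · rw [g0] at h1 h2 h3
    have e1 : y1 = 0 := by
      have : y1 ^ 5 = 0 := by linear_combination (-1 / 96) * h1
      simpa using this
    have e2 : y2 = 0 := by
      have : y2 ^ 5 = 0 := by linear_combination (-1 / 24) * h2
      simpa using this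
    have e3 : y3 = 0 := by
      have : y3 ^ 5 = 0 := by linear_combination (-1 / 6) * h3
      simpa using this
    refine ⟨?_, e1, e2, e3⟩
    rw [g0, e1, e2, e3] at hg
    have : x ^ 3 = 0 := by linear_combination -hg
    simpa using this
  · exfalso
    have x0 : x = 0 := by
      have : x ^ 2 = 0 := by
        have := mul_eq_zero.1 hx
        rcases this with h | h
        · linear_combination (1 / 6) * h
        · exact absurd h g0
      simpa using this
    obtain ⟨ν, hν⟩ := IsAlgClosed.exists_pow_nat_eq (2 * g / 3) (n := 2) (by norm_num)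
    have a1 : 4 * y1 ^ 2 = 0 ∨ (4 * y1 ^ 2) ^ 2 = ν ^ 2 := by
      by_cases h : y1 = 0
      · left; simp [h]
      · right
        have : 4 * g - 96 * y1 ^ 4 = 0 := by
          have : y1 * (4 * g - 96 * y1 ^ 4) = 0 := by linear_combination h1
          exact (mul_eq_zero.1 this).resolve_left h
        rw [hν]; linear_combination (-1 / 6) * this
    have a2 : 2 * y2 ^ 2 = 0 ∨ (2 * y2 ^ 2) ^ 2 = ν ^ 2 := by
      by_cases h : y2 = 0
      · left; simp [h]
      · right
        have : 4 * g - 24 * y2 ^ 4 = 0 := by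
          have : y2 * (4 * g - 24 * y2 ^ 4) = 0 := by linear_combination h2
          exact (mul_eq_zero.1 this).resolve_left h
        rw [hν]; linear_combination (-1 / 6) * this
    have a3 : y3 ^ 2 = 0 ∨ (y3 ^ 2) ^ 2 = ν ^ 2 := by
      by_cases h : y3 = 0
      · left; simp [h]
      · right
        have : 4 * g - 6 * y3 ^ 4 = 0 := by
          have : y3 * (4 * g - 6 * y3 ^ 4) = 0 := by linear_combination h3
          exact (mul_eq_zero.1 this).resolve_left h
        rw [hν]; linear_combination (-1 / 6) * this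
    obtain ⟨e1, he1⟩ := exists_int a1
    obtain ⟨e2, he2⟩ := exists_int a2
    obtain ⟨e3, he3⟩ := exists_int a3
    set m : ℤ := e1 + 2 * e2 + 4 * e3 with hm
    have hgm : 4 * g = (m : ℂ) * ν := by
      rw [hm, hg, x0]; push_cast
      linear_combination he1 + 2 * he2 + 4 * he3
    have hν0 : ν ≠ 0 := by
      rintro rfl
      apply g0
      linear_combination (-3 / 2) * hν
    have h6 : 6 * ν = (m : ℂ) := by
      have : ν * (6 * ν - m) = 0 := by linear_combination 6 * hν + hgm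
      have := (mul_eq_zero.1 this).resolve_left hν0
      linear_combination this
    have hgg : g = (m : ℂ) ^ 2 / 24 := by
      rw [← h6] at hgm ⊢
      linear_combination hgm / 4
    have hm0 : m ≠ 0 := by
      intro h
      apply g0
      rw [hgg, h]; simp
    have hm1 : (1 : ℝ) ≤ |(m : ℝ)| := by
      have := Int.one_le_abs hm0
      exact_mod_cast this
    have hn : ‖g‖ = |(m : ℝ)| ^ 2 / 24 := by
      rw [hgg, norm_div, norm_pow, Complex.norm_intCast]
      norm_num
    have hgs : g = y1 ^ 2 + y2 ^ 2 + y3 ^ 2 := by rw [hg, x0]; ring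
    rw [← hgs, hn] at hs
    nlinarith

theorem hasFDerivAt_coord (i : Fin 4) (z : C4) :
    HasFDerivAt (fun w : C4 => w i) (EuclideanSpace.proj i : C4 →L[ℂ] ℂ) z :=
  (EuclideanSpace.proj i : C4 →L[ℂ] ℂ).hasFDerivAt

theorem contDiff_coord (i : Fin 4) : ContDiff ℂ ∞ (fun w : C4 => w i) :=
  (EuclideanSpace.proj i : C4 →L[ℂ] ℂ).contDiff

end ISO_

open ISO_ in
theorem iso_proof : Stmt_ISO := by
  refine ⟨by simp [f4, g4, h4], Metric.ball 0 (1 / 8), Metric.ball_mem_nhds _ (by norm_num), ?_, ?_⟩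
  · intro z _
    have : ContDiff ℂ ⊤ f4 := by
      unfold f4 g4 h4
      have hp : ∀ i : Fin 4, ContDiff ℂ ⊤ (fun w : C4 => w i) := fun i =>
        (EuclideanSpace.proj i : C4 →L[ℂ] ℂ).contDiff
      exact (((((hp 0).pow 3).add ((hp 1).pow 2)).add ((hp 2).pow 2)).add ((hp 3).pow 2)).pow 2
        |>.sub (((contDiff_const.mul ((hp 1).pow 6)).add
          (contDiff_const.mul ((hp 2).pow 6))).add ((hp 3).pow 6))
    exact this.contDiffAt.analyticAt
  · intro z hz z0 hf
    have hp := fun i => hasFDerivAt_coord i z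
    have hg : HasFDerivAt g4 _ z := ((((hp 0).pow 3).add ((hp 1).pow 2)).add ((hp 2).pow 2)).add
      ((hp 3).pow 2)
    have hh : HasFDerivAt h4 _ z := ((((hp 1).pow 6).const_mul 16).add
      (((hp 2).pow 6).const_mul 4)).add ((hp 3).pow 6)
    have hF : HasFDerivAt f4 _ z := (hg.pow 2).sub hh
    rw [hF.fderiv] at hf
    have k0 := congrArg (fun L => L (EuclideanSpace.single 0 1)) hf
    have k1 := congrArg (fun L => L (EuclideanSpace.single 1 1)) hf
    have k2 := congrArg (fun L => L (EuclideanSpace.single 2 1)) hf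
    have k3 := congrArg (fun L => L (EuclideanSpace.single 3 1)) hf
    simp at k0 k1 k2 k3
    have hn : ‖z 0‖ ^ 2 + ‖z 1‖ ^ 2 + ‖z 2‖ ^ 2 + ‖z 3‖ ^ 2 < 1 / 64 := by
      have h1 : ‖z‖ < 1 / 8 := by simpa using hz
      have h2 : ‖z‖ ^ 2 = ‖z 0‖ ^ 2 + ‖z 1‖ ^ 2 + ‖z 2‖ ^ 2 + ‖z 3‖ ^ 2 := by
        rw [EuclideanSpace.norm_sq_eq, Fin.sum_univ_four]
      rw [← h2]
      have := norm_nonneg z
      nlinarith
    have key := alg (x := z 0) (y1 := z 1) (y2 := z 2) (y3 := z 3) (g := g4 z) rfl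
      (by rcases k0 with h | h <;> simp [h])
      (by linear_combination k1) (by linear_combination k2) (by linear_combination k3)
      (by
        have h1 := norm_add_le (z 1 ^ 2 + z 2 ^ 2) (z 3 ^ 2)
        have h2 := norm_add_le (z 1 ^ 2) (z 2 ^ 2)
        have h0 := sq_nonneg ‖z 0‖
        rw [norm_pow, norm_pow] at h2
        rw [norm_pow] at h1
        linarith)
    apply z0
    obtain ⟨a, b, c, d⟩ := key
    ext i
    fin_cases i <;> simp [a, b, c, d]

end Pool.Agent.KNT
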