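import Pool.Agent.KNT.Stmts

/-!
# KNT/ISR: the constant isotopy
-/

set_option autoImplicit false

open scoped ContDiff ComplexConjugate
open Set

namespace Pool.Agent.KNT

theorem isr_proof : Stmt_ISR := by
  intro V _ _ F F' h
  refine ⟨fun _ z => z, fun _ z => z, ?_, h⟩
  exact
    { hom := fun _ _ _ _ => rfl
      homG := fun _ _ _ _ => rfl
      norm := fun _ _ => rfl
      normG := fun _ _ => rfl
      smooth := contDiff_snd.contDiffOn
      smoothG := contDiff_snd.contDiffOn
      left := fun _ _ => rfl
      right := fun _ _ => rfl
      start := fun _ => rfl }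

end Pool.Agent.KNT
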