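import Pool.Agent.KNT.Stmts

/-!
# Squad KNT, module ISS: symmetry of isotopy
-/

set_option autoImplicit false

open scoped ContDiff ComplexConjugate
open Set Filter Topology Metric

namespace Pool.Agent.KNT

theorem iss_proof (hSAT : Stmt_SAT) : Stmt_ISS := by
  intro V _ _ F F' hF hF' ⟨H, G, hI, hS⟩
  obtain ⟨_, hsymm, _, _, hcomp, _⟩ := hSAT V
  refine ⟨G, H, ⟨hI.homG, hI.hom, hI.normG, hI.norm, hI.smoothG, hI.smooth, hI.right, hI.left,
    fun z => ?_⟩, ?_⟩
  · have := hI.left 0 z
    rwa [hI.start] at this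
  · intro z _ hz
    have hy : G 1 z ≠ 0 := by
      intro h
      have := hI.normG 1 z
      rw [h, norm_zero] at this
      exact hz (norm_eq_zero.1 this.symm)
    have hop : IsOpen {p : ℝ × V | p.2 ≠ 0} := isOpen_ne_fun continuous_snd continuous_const
    have dpair : ∀ w : V, DifferentiableAt ℝ (fun w : V => ((1, w) : ℝ × V)) w := fun w =>
      (differentiableAt_const _).prodMk differentiableAt_id
    have dH : ∀ w : V, w ≠ 0 → DifferentiableAt ℝ (H 1) w := by
      intro w hw
      have h1 : DifferentiableAt ℝ (fun p : ℝ × V => H p.1 p.2) (1, w) :=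
        ((hI.smooth (1, w) hw).contDiffAt (hop.mem_nhds hw)).differentiableAt (by simp)
      exact h1.comp w (dpair w)
    have dG : ∀ w : V, w ≠ 0 → DifferentiableAt ℝ (G 1) w := by
      intro w hw
      have h1 : DifferentiableAt ℝ (fun p : ℝ × V => G p.1 p.2) (1, w) :=
        ((hI.smoothG (1, w) hw).contDiffAt (hop.mem_nhds hw)).differentiableAt (by simp)
      exact h1.comp w (dpair w)
    have dF : ∀ w : V, w ≠ 0 → DifferentiableAt ℝ F w := fun w hw =>
      ((hF.smooth w hw).contDiffAt (isOpen_compl_singleton.mem_nhds hw)).differentiableAt (by simp)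
    have dF' : ∀ w : V, w ≠ 0 → DifferentiableAt ℝ F' w := fun w hw =>
      ((hF'.smooth w hw).contDiffAt (isOpen_compl_singleton.mem_nhds hw)).differentiableAt
        (by simp)
    have hHy : H 1 (G 1 z) = z := hI.right 1 z
    have h1 := hS (G 1 z) (mem_univ _) hy
    have h2 : DifferentiableAt ℝ (fun w => F' (H 1 w)) (G 1 z) := by
      have h3 : DifferentiableAt ℝ F' (H 1 (G 1 z)) := by
        rw [hHy]
        exact dF' z hz
      exact h3.comp _ (dH _ hy)
    have h4 := hcomp F (fun w => F' (H 1 w)) (G 1) z (dF _ hy) h2 (dG z hz) h1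
    have h5 := hsymm _ _ _ h4
    have h6 : (fun x => F' (H 1 (G 1 x))) = F' := by
      funext x
      rw [hI.right]
    rw [h6] at h5
    exact h5

end Pool.Agent.KNT
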