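import Pool.Agent.KNT.Stmts

set_option autoImplicit false

open scoped ContDiff ComplexConjugate
open Set Filter Topology Metric

namespace Pool.Agent.KNT

namespace IST_

variable {V : Type} [NormedAddCommGroup V] [NormedSpace ℝ V]

theorem comp_smooth {H H' : ℝ → V → V}
    (h : ContDiffOn ℝ ∞ (fun p : ℝ × V => H p.1 p.2) {p | p.2 ≠ 0})
    (h' : ContDiffOn ℝ ∞ (fun p : ℝ × V => H' p.1 p.2) {p | p.2 ≠ 0})
    (hn : ∀ t z, ‖H t z‖ = ‖z‖) :
    ContDiffOn ℝ ∞ (fun p : ℝ × V => H' p.1 (H p.1 p.2)) {p | p.2 ≠ 0} := by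
  have h1 : ContDiffOn ℝ ∞ (fun p : ℝ × V => (p.1, H p.1 p.2)) {p : ℝ × V | p.2 ≠ 0} :=
    contDiffOn_fst.prodMk h
  have h2 : MapsTo (fun p : ℝ × V => (p.1, H p.1 p.2)) {p : ℝ × V | p.2 ≠ 0}
      {p : ℝ × V | p.2 ≠ 0} := by
    intro p hp
    change H p.1 p.2 ≠ 0
    rw [← norm_ne_zero_iff, hn, norm_ne_zero_iff]
    exact hp
  exact h'.comp h1 h2

theorem diffAt {F : V → ℂ} (hF : SFun F) {z : V} (hz : z ≠ 0) : DifferentiableAt ℝ F z := by
  have h1 : ContDiffAt ℝ ∞ F z := hF.smooth.contDiffAt (isOpen_compl_singleton.mem_nhds hz)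
  exact h1.differentiableAt (by simp)

theorem diffH {H : ℝ → V → V}
    (h : ContDiffOn ℝ ∞ (fun p : ℝ × V => H p.1 p.2) {p | p.2 ≠ 0}) (t : ℝ) {z : V}
    (hz : z ≠ 0) : DifferentiableAt ℝ (H t) z := by
  have ho : IsOpen {p : ℝ × V | p.2 ≠ 0} := isOpen_ne.preimage continuous_snd
  have h1 : ContDiffAt ℝ ∞ (fun p : ℝ × V => H p.1 p.2) (t, z) :=
    h.contDiffAt (ho.mem_nhds hz)
  have h2 : DifferentiableAt ℝ (fun p : ℝ × V => H p.1 p.2) (t, z) :=
    h1.differentiableAt (by simp)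
  have h3 : DifferentiableAt ℝ (fun x : V => (t, x)) z :=
    (differentiableAt_const t).prodMk differentiableAt_id
  exact DifferentiableAt.comp (f := fun x : V => (t, x)) (g := fun p : ℝ × V => H p.1 p.2) z h2 h3

end IST_

open IST_ in
theorem ist_proof (hSAT : Stmt_SAT) : Stmt_IST := by
  intro V _ _ F F' F'' hF hF' hF'' h1 h2
  obtain ⟨-, -, htr, -, hcomp, -⟩ := hSAT V
  obtain ⟨H, G, hI, hS⟩ := h1
  obtain ⟨H', G', hI', hS'⟩ := h2
  refine ⟨fun t z => H' t (H t z), fun t z => G t (G' t z), ?_, ?_⟩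
  · refine ⟨?_, ?_, ?_, ?_, ?_, ?_, ?_, ?_, ?_⟩
    · intro t r hr z
      rw [hI.hom t r hr, hI'.hom t r hr]
    · intro t r hr z
      rw [hI'.homG t r hr, hI.homG t r hr]
    · intro t z
      rw [hI'.norm, hI.norm]
    · intro t z
      rw [hI.normG, hI'.normG]
    · exact comp_smooth hI.smooth hI'.smooth hI.norm
    · exact comp_smooth hI'.smoothG hI.smoothG hI'.normG
    · intro t z
      rw [hI'.left, hI.left]
    · intro t z
      rw [hI.right, hI'.right]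
    · intro z
      rw [hI.start, hI'.start]
  · intro z _ hz
    have hz' : H 1 z ≠ 0 := by
      rw [← norm_ne_zero_iff, hI.norm, norm_ne_zero_iff]
      exact hz
    have hz'' : H' 1 (H 1 z) ≠ 0 := by
      rw [← norm_ne_zero_iff, hI'.norm, norm_ne_zero_iff]
      exact hz'
    have d1 : DifferentiableAt ℝ (fun x => F'' (H' 1 x)) (H 1 z) :=
      DifferentiableAt.comp (H 1 z) (diffAt hF'' hz'') (diffH hI'.smooth 1 hz')
    have a1 := hS z (mem_univ _) hz
    have a2 := hS' (H 1 z) (mem_univ _) hz'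
    have a3 := hcomp F' (fun x => F'' (H' 1 x)) (H 1) z (diffAt hF' hz') d1
      (diffH hI.smooth 1 hz) a2
    exact htr _ _ _ z a1 a3

end Pool.Agent.KNT
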