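import Pool.Agent.KNT.Stmts

/-!
# Squad KNT: module KAB (the left inverse of `i0`)
-/

set_option autoImplicit false

open scoped ContDiff ComplexConjugate
open Set Filter Topology Metric

namespace Pool.Agent.KNT

namespace KAB_

theorem yy_mk4 (x : ℂ) (y : C3) : yy (mk4 x y) = y := by
  ext i; fin_cases i <;> simp [yy, mk4]

theorem mk4_zero (x : ℂ) (y : C3) : (mk4 x y) 0 = x := by simp [mk4]

theorem mk4_yy (z : C4) : mk4 (z 0) (yy z) = z := by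
  ext i; fin_cases i <;> simp [yy, mk4]

theorem cj_smul (c : ℂ) (v : C3) : cj (c • v) = conj c • cj v := by
  ext i; fin_cases i <;> simp [cj]

theorem cj_cj (v : C3) : cj (cj v) = v := by
  ext i; fin_cases i <;> simp [cj]

theorem norm_cj (v : C3) : ‖cj v‖ = ‖v‖ := by
  rw [EuclideanSpace.norm_eq, EuclideanSpace.norm_eq, Fin.sum_univ_three, Fin.sum_univ_three]
  simp [cj]

theorem sq_smul (c : ℂ) (v : C3) : sq (c • v) = c ^ 2 * sq v := by
  simp [sq]; ring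

theorem sq_cj (v : C3) : sq (cj v) = conj (sq v) := by
  simp [sq, cj]

theorem norm_sq_le (v : C3) : ‖sq v‖ ≤ ‖v‖ ^ 2 := by
  rw [EuclideanSpace.norm_sq_eq, Fin.sum_univ_three]
  unfold sq
  calc ‖v 0 ^ 2 + v 1 ^ 2 + v 2 ^ 2‖ ≤ ‖v 0 ^ 2 + v 1 ^ 2‖ + ‖v 2 ^ 2‖ := norm_add_le _ _
    _ ≤ ‖v 0 ^ 2‖ + ‖v 1 ^ 2‖ + ‖v 2 ^ 2‖ := by gcongr; exact norm_add_le _ _
    _ = _ := by rw [norm_pow, norm_pow, norm_pow]

theorem i0_A (y : C3) (h : 1 / 3 < ‖sq y‖) : i0 y = jA y := by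
  unfold i0; rw [if_pos h]

theorem i0_B (y : C3) (h : ¬ 1 / 3 < ‖sq y‖) : i0 y = jB y := by
  unfold i0; rw [if_neg h]

theorem conj_mul_self' (X : ℂ) : X * conj X = (‖X‖ : ℂ) ^ 2 := by
  rw [Complex.mul_conj, Complex.normSq_eq_norm_sq]
  push_cast
  rfl

/-- the scalar identity for region A -/
theorem scal (X : ℂ) (hX : X ≠ 0) :
    (Complex.I * X ^ 2 / (‖X‖ : ℂ) ^ 3) * conj (Complex.I * X ^ 2 / (‖X‖ : ℂ)) = 1 := by
  have hn : (‖X‖ : ℂ) ≠ 0 := by exact_mod_cast (norm_pos_iff.2 hX).ne'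
  have h := conj_mul_self' X
  rw [map_div₀, map_mul, map_pow, Complex.conj_I, Complex.conj_ofReal]
  field_simp
  have h2 : (X ^ 2 * conj X ^ 2 : ℂ) = (‖X‖ : ℂ) ^ 4 := by
    calc (X ^ 2 * conj X ^ 2 : ℂ) = (X * conj X) ^ 2 := by ring
      _ = _ := by rw [h]; ring
  have h3 : Complex.I ^ 2 = -1 := Complex.I_sq
  linear_combination h2 - (X ^ 2 * conj X ^ 2) * h3

theorem scal' (X : ℂ) (hX : X ≠ 0) :
    (Complex.I * X ^ 2 / (‖X‖ : ℂ)) * conj (Complex.I * X ^ 2 / (‖X‖ : ℂ) ^ 3) = 1 := by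
  have hn : (‖X‖ : ℂ) ≠ 0 := by exact_mod_cast (norm_pos_iff.2 hX).ne'
  have h := conj_mul_self' X
  rw [map_div₀, map_mul, map_pow, Complex.conj_I, map_pow, Complex.conj_ofReal]
  field_simp
  have h2 : (X ^ 2 * conj X ^ 2 : ℂ) = (‖X‖ : ℂ) ^ 4 := by
    calc (X ^ 2 * conj X ^ 2 : ℂ) = (X * conj X) ^ 2 := by ring
      _ = _ := by rw [h]; ring
  have h3 : Complex.I ^ 2 = -1 := Complex.I_sq
  linear_combination h2 - (X ^ 2 * conj X ^ 2) * h3

theorem kA_jA (y : C3) (hX : sq y ≠ 0) : kA (jA y) = y := by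
  unfold kA jA
  rw [mk4_zero, yy_mk4, cj_smul, cj_cj, smul_smul, scal _ hX, one_smul]

theorem jA_kA (z : C4) (hX : z 0 ≠ 0) (hsq : sq (kA z) = z 0) : jA (kA z) = z := by
  unfold jA
  rw [hsq]
  unfold kA
  rw [cj_smul, cj_cj, smul_smul, scal' _ hX, one_smul, mk4_yy]

end KAB_

open KAB_ in
theorem kab_proof (hALB : Stmt_ALB) (hFRM : Stmt_FRM) (hTMM : Stmt_TMM) (hIAB : Stmt_IAB) :
    Stmt_KAB := by
  obtain ⟨-, -, -, -, -, -, -, hnn, -, hnn6, hxi⟩ := hALB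
  obtain ⟨hF1, hF2, hF3⟩ := hFRM
  refine ⟨fun y hy => ⟨fun h6 => ?_, fun h1 => ?_⟩, fun z hg hn => ?_⟩
  · have hne : sq y ≠ 0 := by
      intro h0; rw [h0, norm_zero] at h6; norm_num at h6
    by_cases h3 : 1 / 3 < ‖sq y‖
    · rw [i0_A y h3, kA_jA y hne]
    · rw [i0_B y h3, ← (hIAB y hy).1 h6 (by linarith [not_lt.1 h3]), kA_jA y hne]
  · have hB : i0 y = jB y := by
      by_cases h3 : 1 / 3 < ‖sq y‖
      · rw [i0_A y h3, (hIAB y hy).1 (by linarith) h1]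
      · exact i0_B y h3
    rw [hB]
    unfold kB jB
    rw [mk4_zero, yy_mk4]
    have hnp := (hnn (sq y)).1
    have hI : (Complex.I * (nn (sq y) : ℂ)) ≠ 0 :=
      mul_ne_zero Complex.I_ne_zero (by exact_mod_cast hnp.ne')
    obtain ⟨hu, hcu⟩ := hF3 y hy h1
    rw [smul_smul, inv_mul_cancel₀ hI, one_smul, hF2 _ _ (hxi _ h1), (hTMM _ _ hu).2, hcu]
  · -- surjectivity
    have hnp := (hnn (z 0)).1
    have hnc : (nn (z 0) : ℂ) ≠ 0 := by exact_mod_cast hnp.ne'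
    have hsq : sq (yy z) = - (z 0) ^ 3 := by
      have h1 : g4 z = (z 0) ^ 3 + sq (yy z) := by simp [g4, sq, yy]; ring
      rw [h1] at hg
      linear_combination hg
    have hX1 : ‖z 0‖ ≤ 1 := by
      by_contra hcon
      push Not at hcon
      have h1 := norm_sq_le (yy z)
      rw [hsq, norm_neg, norm_pow, hn, hnn6 _ (by linarith)] at h1
      have h2 := mul_pos (pow_pos (show 0 < ‖z 0‖ by linarith) 2) (sub_pos.2 hcon)
      nlinarith
    by_cases h3 : 1 / 3 < ‖z 0‖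
    · have hX0 : z 0 ≠ 0 := by
        intro h0; rw [h0, norm_zero] at h3; norm_num at h3
      have hr : (‖z 0‖ : ℂ) ≠ 0 := by exact_mod_cast (norm_pos_iff.2 hX0).ne'
      have hsqy : sq (kA z) = z 0 := by
        unfold kA
        rw [sq_smul, sq_cj, hsq, map_neg, map_pow]
        have h := conj_mul_self' (z 0)
        have h4 : Complex.I ^ 2 = -1 := Complex.I_sq
        field_simp
        have h5 : (z 0 * conj (z 0)) ^ 3 = (‖z 0‖ : ℂ) ^ 6 := by rw [h]; ring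
        linear_combination (-(z 0) ^ 3 * conj (z 0) ^ 3) * h4 + h5
      refine ⟨kA z, ?_, ?_⟩
      · unfold kA
        rw [norm_smul, norm_cj, hn, hnn6 _ (by linarith)]
        have hrp : 0 < ‖z 0‖ := norm_pos_iff.2 hX0
        rw [norm_div, norm_mul, Complex.norm_I, norm_pow, norm_pow, Complex.norm_real, norm_norm]
        field_simp
      · rw [i0_A _ (by rw [hsqy]; exact h3), jA_kA z hX0 hsqy]
    · have h1 : ‖z 0‖ < 1 := by linarith [not_lt.1 h3]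
      have hI : (Complex.I * (nn (z 0) : ℂ)) ≠ 0 := mul_ne_zero Complex.I_ne_zero hnc
      set ŷ : C3 := (Complex.I * nn (z 0))⁻¹ • yy z with hŷ
      have hyn : ‖ŷ‖ = 1 := by
        rw [hŷ, norm_smul, norm_inv, norm_mul, Complex.norm_I, one_mul, Complex.norm_real,
          Real.norm_of_nonneg hnp.le, hn, inv_mul_cancel₀ hnp.ne']
      have hys : sq ŷ = (z 0) ^ 3 / (nn (z 0) : ℂ) ^ 2 := by
        rw [hŷ, sq_smul, hsq]
        have h4 : Complex.I ^ 2 = -1 := Complex.I_sq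
        have h5 : (Complex.I * (nn (z 0) : ℂ))⁻¹ ^ 2 = - ((nn (z 0) : ℂ) ^ 2)⁻¹ := by
          rw [inv_pow, mul_pow, h4, neg_one_mul, inv_neg]
        rw [h5]
        ring
      have hxi1 : ‖sq ŷ‖ < 1 := by rw [hys]; exact hxi _ h1
      obtain ⟨hu', hcu'⟩ := hF3 ŷ hyn hxi1
      obtain ⟨hu, hTu⟩ := hTMM (z 0) _ hu'
      obtain ⟨hy1, hy2⟩ := hF1 (z 0) _ h1.le hu
      refine ⟨cmb (z 0) (Tm (z 0) (frm (sq ŷ) ŷ)), hy1, ?_⟩
      rw [i0_B _ (by rw [hy2]; exact h3)]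
      unfold jB
      rw [hy2, hF2 _ _ h1, hTu, ← hys, hcu', hŷ, smul_smul, mul_inv_cancel₀ hI, one_smul, mk4_yy]

end Pool.Agent.KNT
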