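import Pool.Agent.KNT.Stmts

/-!
# KNT, module KKB: elementary properties of `kk`
-/

set_option autoImplicit false

open scoped ContDiff ComplexConjugate
open Set Filter Topology Metric

namespace Pool.Agent.KNT

namespace KKB_

lemma aux1 (l τ W : ℝ) (hl : 2 ≤ l) (h0 : 0 ≤ τ) (_h2 : τ ≤ 2) (hW : 0 ≤ W) :
    2 ≤ l ^ 2 * τ + 2 - τ + l ^ 2 * τ * W := by
  have h1 : 0 ≤ l ^ 2 * τ * W := by positivity
  have h3 : 4 ≤ l ^ 2 := by nlinarith
  nlinarith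

lemma aux2 (l τ W : ℝ) (hl : 2 ≤ l) (h0 : 0 ≤ τ) (h2 : τ ≤ 2) (hW : 0 ≤ W)
    (hk : 1 / 4 ≤ l ^ 2 * τ / (l ^ 2 * τ + 2 - τ + l ^ 2 * τ * W)) :
    W ≤ 3 ∧ 1 / 2 < l ^ 2 * τ := by
  have h1 := aux1 l τ W hl h0 h2 hW
  rw [le_div_iff₀ (by linarith)] at hk
  have h3 : 4 ≤ l ^ 2 := by nlinarith
  have h4 : τ ≤ l ^ 2 * τ / 4 := by nlinarith
  have hx : 1 / 2 < l ^ 2 * τ := by
    have : 0 ≤ l ^ 2 * τ * W := by positivity
    linarith
  refine ⟨?_, hx⟩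
  generalize l ^ 2 * τ = x at *
  have h5 : x * W ≤ x * 3 := by linarith
  exact le_of_mul_le_mul_left h5 (by linarith)

lemma aux3 (l τ W : ℝ) (hl : 2 ≤ l) (h0 : 0 ≤ τ) (h2 : τ ≤ 2) (hW : 0 ≤ W)
    (hk : l ^ 2 * τ / (l ^ 2 * τ + 2 - τ + l ^ 2 * τ * W) ≤ 3 / 4) (hx : 32 ≤ l ^ 2 * τ) :
    1 / 4 ≤ W := by
  have h1 := aux1 l τ W hl h0 h2 hW
  rw [div_le_iff₀ (by linarith)] at hk
  generalize l ^ 2 * τ = x at *
  have h5 : x * (1 / 4) ≤ x * W := by linarith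
  exact le_of_mul_le_mul_left h5 (by linarith)

end KKB_

open KKB_ in
theorem kkb_proof (hTAU : Stmt_TAU) : Stmt_KKB := by
  intro T A l hl
  obtain ⟨htau, htauh, htaus, -, -, -, -, -, -, -, -, -, -, hcut, hbp⟩ := hTAU T A
  have hd : 0 < dd T := by
    unfold dd
    have := T.δ_pos
    positivity
  have hkd : ∀ P w, kden A l (P, w) = l ^ 2 * tau A P + 2 - tau A P +
      l ^ 2 * tau A P * (‖w‖ ^ 2 / dd T ^ 2) := fun P w => rfl
  have hkk : ∀ P w, kk A l (P, w) = l ^ 2 * tau A P / (l ^ 2 * tau A P + 2 - tau A P +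
      l ^ 2 * tau A P * (‖w‖ ^ 2 / dd T ^ 2)) := fun P w => rfl
  have hW : ∀ w : ℂ, 0 ≤ ‖w‖ ^ 2 / dd T ^ 2 := fun w => by positivity
  have h1 : ∀ P w, P ≠ 0 → 2 ≤ kden A l (P, w) := by
    intro P w hP
    rw [hkd]
    exact aux1 _ _ _ hl (htau P hP).1 (htau P hP).2.1 (hW w)
  refine ⟨?_, ?_, ?_, ?_, ?_, ?_, ?_⟩
  · intro P w hP
    have h2 := h1 P w hP
    have h3 : 0 ≤ l ^ 2 * tau A P := mul_nonneg (by positivity) (htau P hP).1
    refine ⟨h2, div_nonneg h3 (by linarith), ?_⟩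
    show l ^ 2 * tau A P / kden A l (P, w) ≤ 1
    rw [div_le_one (by linarith), hkd]
    have h4 : 0 ≤ l ^ 2 * tau A P * (‖w‖ ^ 2 / dd T ^ 2) := mul_nonneg h3 (hW w)
    linarith [(htau P hP).2.1]
  · intro P w hP hk
    rw [hkk] at hk
    obtain ⟨h2, h3⟩ := aux2 _ _ _ hl (htau P hP).1 (htau P hP).2.1 (hW w) hk
    have h4 : ‖w‖ ^ 2 ≤ 3 * dd T ^ 2 := by
      rwa [div_le_iff₀ (by positivity)] at h2
    refine ⟨h4, h3, ?_⟩
    have h5 : (T.δ / 4) ^ 2 < (T.δ / 2) ^ 2 := by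
      have := T.δ_pos
      nlinarith
    apply (hcut _ _ h5).2.1
    have h6 : dd T ^ 2 = T.δ ^ 2 / 256 := by
      unfold dd
      ring
    rw [h6] at h4
    have h7 : (T.δ / 4) ^ 2 = T.δ ^ 2 / 16 := by ring
    rw [h7]
    have h8 : 0 ≤ T.δ ^ 2 := sq_nonneg _
    linarith
  · intro P w hP hk hx
    rw [hkk] at hk
    have h2 := aux3 _ _ _ hl (htau P hP).1 (htau P hP).2.1 (hW w) hk hx
    rw [le_div_iff₀ (by positivity)] at h2
    linarith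
  · intro r hr P w
    rw [hkk, hkk, htauh r hr P]
  · have ht : ContDiffOn ℝ ∞ (fun p : C3 × ℂ => tau A p.1) {p | p.1 ≠ 0} :=
      htaus.comp contDiff_fst.contDiffOn (fun p hp => hp)
    have hw : ContDiff ℝ ∞ (fun p : C3 × ℂ => ‖p.2‖ ^ 2) := by
      have h2 : ContDiff ℝ ∞ (fun w : ℂ => ‖w‖ ^ 2) := contDiff_norm_sq ℝ
      exact h2.comp contDiff_snd
    have hx : ContDiffOn ℝ ∞ (fun p : C3 × ℂ => l ^ 2 * tau A p.1) {p | p.1 ≠ 0} :=
      contDiffOn_const.mul ht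
    have hden : ContDiffOn ℝ ∞ (fun p : C3 × ℂ => kden A l p) {p | p.1 ≠ 0} := by
      unfold kden
      exact ((hx.add contDiffOn_const).sub ht).add (hx.mul (hw.contDiffOn.div_const _))
    unfold kk
    apply hx.div hden
    intro p hp
    have := h1 p.1 p.2 hp
    show kden A l p ≠ 0
    have h3 : kden A l p = kden A l (p.1, p.2) := rfl
    rw [h3]
    linarith
  · exact (hbp _ _ _ _ (by norm_num) (by norm_num) (by norm_num)).1
  · exact (hbp _ _ _ _ (by norm_num) (by norm_num) (by norm_num)).1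

end Pool.Agent.KNT
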