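import Pool.Agent.KNT.Stmts

/-!
Module KNF of squad KNT: the three functions are knots.
-/

set_option autoImplicit false

open scoped ContDiff ComplexConjugate
open Set Filter Topology Metric

namespace Pool.Agent.KNT

namespace KNF_

/-- coordinates -/
noncomputable def co (i : Fin 4) : C4 →L[ℝ] ℂ :=
  ((EuclideanSpace.proj i : C4 →L[ℂ] ℂ)).restrictScalars ℝ

lemma co_apply (i : Fin 4) (z : C4) : co i z = z i := rfl

lemma nz_apply (z : C4) (i : Fin 4) : (nz z) i = ((‖z‖⁻¹ : ℝ) : ℂ) * z i := by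
  show ((‖z‖⁻¹ : ℝ) • z) i = _
  rw [PiLp.smul_apply, Complex.real_smul]

lemma nz_hom (r : ℝ) (hr : 0 < r) (z : C4) : nz (r • z) = nz z := by
  unfold nz
  rw [norm_smul, Real.norm_of_nonneg hr.le, smul_smul, mul_inv, mul_right_comm, inv_mul_cancel₀ hr.ne',
    one_mul]

lemma inv_norm_smooth (z : C4) (hz : z ≠ 0) : ContDiffAt ℝ ∞ (fun z : C4 => (‖z‖⁻¹ : ℝ)) z :=
  (contDiffAt_norm ℝ hz).inv (norm_ne_zero_iff.2 hz)

lemma nzc_smooth (i : Fin 4) (z : C4) (hz : z ≠ 0) : ContDiffAt ℝ ∞ (fun z : C4 => (nz z) i) z := by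
  have h1 : (fun z : C4 => (nz z) i) = fun z => ((‖z‖⁻¹ : ℝ) : ℂ) * co i z := by
    funext z
    rw [nz_apply, co_apply]
  rw [h1]
  exact (Complex.ofRealCLM.contDiff.contDiffAt.comp z (inv_norm_smooth z hz)).mul (co i).contDiff.contDiffAt

lemma dq_smooth (z : C4) (hz : z ≠ 0) : ContDiffAt ℝ ∞ (fun z : C4 => ((Dq (nz z) : ℝ) : ℂ)) z := by
  have h1 : ContDiffAt ℝ ∞ (fun z : C4 => Dq (nz z)) z := by
    unfold Dq
    exact contDiffAt_const.sub (Complex.reCLM.contDiff.contDiffAt.comp z (nzc_smooth 3 z hz))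
  exact Complex.ofRealCLM.contDiff.contDiffAt.comp z h1

lemma dq_eq (z : C4) : Dq (nz z) = 1 - ‖z‖⁻¹ * (z 3).re := by
  unfold Dq
  rw [nz_apply, Complex.re_ofReal_mul]

/-- derivative of a product at a zero of the second factor -/
lemma mul_zero_deriv {V : Type} [NormedAddCommGroup V] [NormedSpace ℝ V] (c F : V → ℂ) (z : V)
    (hc : DifferentiableAt ℝ c z) (hF : DifferentiableAt ℝ F z) (h0 : F z = 0) (hcz : c z ≠ 0)
    (hs : Function.Surjective (fderiv ℝ F z)) : Function.Surjective (fderiv ℝ (fun x => c x * F x) z) := by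
  have h1 := (hc.hasFDerivAt.mul hF.hasFDerivAt).fderiv
  have h2 : fderiv ℝ (fun x => c x * F x) z = c z • fderiv ℝ F z + F z • fderiv ℝ c z := h1
  intro w
  obtain ⟨v, hv⟩ := hs ((c z)⁻¹ * w)
  refine ⟨v, ?_⟩
  rw [h2]
  have h3 : (c z • fderiv ℝ F z + F z • fderiv ℝ c z) v = c z * fderiv ℝ F z v + F z * fderiv ℝ c z v := rfl
  rw [h3, hv, h0, zero_mul, add_zero, mul_inv_cancel_left₀ hcz]

lemma f2_eq (a : ℂ) (z : C4) : -(a * (nz z) 0) = (-(a * ((‖z‖⁻¹ : ℝ) : ℂ))) * co 0 z := by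
  rw [nz_apply, co_apply]
  ring

end KNF_

open KNF_ in
theorem knf_proof (_hTAU : Stmt_TAU) (hSHA : Stmt_SHA) (hSHG : Stmt_SHG) (hTFR : Stmt_TFR)
    (hCHT : Stmt_CHT) (hCHS : Stmt_CHS) : Stmt_KNF := by
  intro T A ε l hl hε hs
  obtain ⟨η₁, hη₁, hreg⟩ := hSHG T A l hl hs
  refine ⟨η₁, hη₁, fun η h0 h1 => ?_⟩
  obtain ⟨hadm, hadm1, hflat⟩ := hSHA T A l η hl hs
  obtain ⟨hr, hr1⟩ := hreg η h0 h1
  obtain ⟨hc1, _⟩ := hCHT T A ε l hl hε
  obtain ⟨hSm, _, hSmh, hSmb⟩ := hCHS T A ε l hl hε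
  have hl0 : (0 : ℝ) < l := by linarith
  refine ⟨hTFR T _ hadm 1 (hr 1 ⟨zero_le_one, le_rfl⟩), hTFR T _ hadm1 1 hr1, ?_⟩
  -- the two formulas
  obtain ⟨f1, hf1⟩ : ∃ f1 : C4 → ℂ, f1 = fun z : C4 => (Dq (nz z) : ℂ) * SHt A l η 1 (Sm A ε l z) := ⟨_, rfl⟩
  obtain ⟨f2, hf2⟩ : ∃ f2 : C4 → ℂ, f2 = fun z : C4 => -(η * (A.C / l) * (nz z) 0) := ⟨_, rfl⟩
  have hopen1 : IsOpen {z : C4 | (z 3).re < 3 / 10 * ‖z‖} :=
    isOpen_lt (Complex.continuous_re.comp (co 3).continuous) (continuous_const.mul continuous_norm)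
  have hopen2 : IsOpen {z : C4 | -(3 / 10 * ‖z‖) < (z 3).re} :=
    isOpen_lt (continuous_const.mul continuous_norm).neg (Complex.continuous_re.comp (co 3).continuous)
  have hopen3 : IsOpen {z : C4 | (z 3).re < ‖z‖} :=
    isOpen_lt (Complex.continuous_re.comp (co 3).continuous) continuous_norm
  have hpos : ∀ z : C4, z ≠ 0 → (z 3).re < 3 / 10 * ‖z‖ → (z 3).re < ‖z‖ := by
    intro z hz h
    have := norm_pos_iff.2 hz
    linarith
  -- agreement
  have hag : ∀ z : C4, z ≠ 0 → (z 3).re < 3 / 10 * ‖z‖ → -(3 / 10 * ‖z‖) < (z 3).re → f1 z = f2 z := by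
    intro z hz h1 h2
    have hzn := norm_pos_iff.2 hz
    obtain ⟨hn, hτ, _, hkk, hL⟩ := hc1 z hz (hpos z hz h1)
    have e1 : ‖z‖⁻¹ * ‖z‖ = 1 := inv_mul_cancel₀ hzn.ne'
    have hi : 0 < ‖z‖⁻¹ := inv_pos.2 hzn
    have hD1 : 7 / 10 ≤ Dq (nz z) := by
      rw [dq_eq]
      have : ‖z‖⁻¹ * (z 3).re ≤ ‖z‖⁻¹ * (3 / 10 * ‖z‖) := mul_le_mul_of_nonneg_left h1.le hi.le
      have e2 : ‖z‖⁻¹ * (3 / 10 * ‖z‖) = 3 / 10 := by rw [mul_left_comm, e1, mul_one]
      linarith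
    have hD2 : Dq (nz z) ≤ 13 / 10 := by
      rw [dq_eq]
      have : ‖z‖⁻¹ * (-(3 / 10 * ‖z‖)) ≤ ‖z‖⁻¹ * (z 3).re := mul_le_mul_of_nonneg_left h2.le hi.le
      have e2 : ‖z‖⁻¹ * (-(3 / 10 * ‖z‖)) = -(3 / 10) := by rw [mul_neg, mul_left_comm, e1, mul_one]
      linarith
    have hP : (Sm A ε l z).1 ≠ 0 := by
      rw [← norm_pos_iff, hn]
      exact hzn
    have hfl := hflat (Sm A ε l z).1 (Sm A ε l z).2 hP (by rw [Prod.mk.eta, hkk]; linarith)
      (by rw [Prod.mk.eta, hkk]; linarith)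
    rw [Prod.mk.eta] at hfl
    rw [hf1, hf2]
    show (Dq (nz z) : ℂ) * SHt A l η 1 (Sm A ε l z) = -(η * (A.C / l) * (nz z) 0)
    rw [hfl, hL]
    have hDne : ((Dq (nz z) : ℝ) : ℂ) ≠ 0 := by
      rw [Ne, Complex.ofReal_eq_zero]
      intro h
      rw [h] at hD1
      linarith
    field_simp
  have hFF1 : ∀ z : C4, z ≠ 0 → (z 3).re < 3 / 10 * ‖z‖ → FF2 A ε l η z = f1 z := by
    intro z hz h
    unfold FF2
    split_ifs with hneg
    · rw [hf1]
    · have hzn := norm_pos_iff.2 hz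
      rw [hag z hz h (by linarith [not_lt.1 hneg]), hf2]
  have hFF2 : ∀ z : C4, z ≠ 0 → -(3 / 10 * ‖z‖) < (z 3).re → FF2 A ε l η z = f2 z := by
    intro z hz h
    unfold FF2
    split_ifs with hneg
    · have hzn := norm_pos_iff.2 hz
      rw [← hag z hz (by linarith) h, hf1]
    · rw [hf2]
  have hne : ∀ z : C4, z ≠ 0 → ∀ᶠ y in 𝓝 z, y ≠ 0 := fun z hz => isOpen_ne.mem_nhds hz
  have hev1 : ∀ z : C4, z ≠ 0 → (z 3).re < 3 / 10 * ‖z‖ → FF2 A ε l η =ᶠ[𝓝 z] f1 := by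
    intro z hz h
    filter_upwards [hne z hz, hopen1.mem_nhds h] with y hy1 hy2
    exact hFF1 y hy1 hy2
  have hev2 : ∀ z : C4, z ≠ 0 → -(3 / 10 * ‖z‖) < (z 3).re → FF2 A ε l η =ᶠ[𝓝 z] f2 := by
    intro z hz h
    filter_upwards [hne z hz, hopen2.mem_nhds h] with y hy1 hy2
    exact hFF2 y hy1 hy2
  -- smoothness of the two formulas
  have hg : ∀ p : C3 × ℂ, p.1 ≠ 0 → ContDiffAt ℝ ∞ (SHt A l η 1) p := by
    intro p hp
    have ho : IsOpen {p : ℝ × (C3 × ℂ) | p.2.1 ≠ 0} :=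
      isOpen_ne.preimage (continuous_fst.comp continuous_snd)
    have h1 : ContDiffAt ℝ ∞ (fun p : ℝ × (C3 × ℂ) => SHt A l η p.1 p.2) (1, p) :=
      hadm.smooth.contDiffAt (ho.mem_nhds hp)
    exact h1.comp p (contDiffAt_const.prodMk contDiffAt_id)
  have hSmz : ∀ z : C4, z ≠ 0 → (z 3).re < 3 / 10 * ‖z‖ → ContDiffAt ℝ ∞ (Sm A ε l) z ∧ (Sm A ε l z).1 ≠ 0 := by
    intro z hz h
    refine ⟨hSm.contDiffAt (hopen3.mem_nhds (hpos z hz h)), ?_⟩
    rw [← norm_pos_iff, (hc1 z hz (hpos z hz h)).1]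
    exact norm_pos_iff.2 hz
  have hcomp : ∀ z : C4, z ≠ 0 → (z 3).re < 3 / 10 * ‖z‖ →
      ContDiffAt ℝ ∞ (fun z => SHt A l η 1 (Sm A ε l z)) z := by
    intro z hz h
    exact (hg _ (hSmz z hz h).2).comp z (hSmz z hz h).1
  have hs1 : ∀ z : C4, z ≠ 0 → (z 3).re < 3 / 10 * ‖z‖ → ContDiffAt ℝ ∞ f1 z := by
    intro z hz h
    rw [hf1]
    exact (dq_smooth z hz).mul (hcomp z hz h)
  have hs2 : ∀ z : C4, z ≠ 0 → ContDiffAt ℝ ∞ f2 z := by
    intro z hz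
    rw [hf2]
    exact (contDiffAt_const.mul (nzc_smooth 0 z hz)).neg
  have hdich : ∀ z : C4, z ≠ 0 → (z 3).re < 3 / 10 * ‖z‖ ∨ -(3 / 10 * ‖z‖) < (z 3).re := by
    intro z hz
    have hzn := norm_pos_iff.2 hz
    rcases lt_or_ge (z 3).re (3 / 10 * ‖z‖) with h | h
    · exact Or.inl h
    · exact Or.inr (by linarith)
  refine { hom := ?_, smooth := ?_, reg := ?_ }
  · intro r hr z
    unfold FF2
    have e1 : ((r • z : C4) 3).re = r * (z 3).re := by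
      rw [PiLp.smul_apply, Complex.real_smul, Complex.re_ofReal_mul]
    have e2 : (((r • z : C4) 3).re < 0) = ((z 3).re < 0) := by
      rw [e1]
      refine propext ⟨fun h => ?_, fun h => mul_neg_of_pos_of_neg hr h⟩
      by_contra hc
      exact absurd (mul_nonneg hr.le (not_lt.1 hc)) (not_le.2 h)
    simp only [e2, nz_hom r hr, hSmh r hr]
    rw [hadm.hom 1 r hr]
  · intro z hz
    refine ContDiffAt.contDiffWithinAt ?_
    rcases hdich z hz with h | h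
    · exact (hs1 z hz h).congr_of_eventuallyEq (hev1 z hz h)
    · exact (hs2 z hz).congr_of_eventuallyEq (hev2 z hz h)
  · intro z hz h0z
    rcases lt_or_ge (z 3).re (3 / 10 * ‖z‖) with h | h
    · rw [(hev1 z hz h).fderiv_eq, hf1]
      rw [hFF1 z hz h, hf1] at h0z
      have hzn := norm_pos_iff.2 hz
      have hDne : ((Dq (nz z) : ℝ) : ℂ) ≠ 0 := by
        rw [Ne, Complex.ofReal_eq_zero, dq_eq]
        intro hD
        have h3 : ‖z‖⁻¹ * (z 3).re < ‖z‖⁻¹ * ‖z‖ :=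
          mul_lt_mul_of_pos_left (hpos z hz h) (inv_pos.2 hzn)
        rw [inv_mul_cancel₀ hzn.ne'] at h3
        linarith
      have hz0 : SHt A l η 1 (Sm A ε l z) = 0 := (mul_eq_zero.1 h0z).resolve_left hDne
      refine mul_zero_deriv (fun z => ((Dq (nz z) : ℝ) : ℂ)) (fun z => SHt A l η 1 (Sm A ε l z)) z
        ((dq_smooth z hz).differentiableAt (by simp)) ((hcomp z hz h).differentiableAt (by simp)) hz0 hDne ?_
      have hd1 := (hg _ (hSmz z hz h).2).differentiableAt (by simp)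
      have hd2 := (hSmz z hz h).1.differentiableAt (by simp)
      have e3 : fderiv ℝ (fun z => SHt A l η 1 (Sm A ε l z)) z =
          (fderiv ℝ (SHt A l η 1) (Sm A ε l z)).comp (fderiv ℝ (Sm A ε l) z) := fderiv_comp z hd1 hd2
      rw [e3, ContinuousLinearMap.coe_comp]
      refine Function.Surjective.comp ?_ (hSmb z (hpos z hz h)).surjective
      exact hr 1 ⟨zero_le_one, le_rfl⟩ (Sm A ε l z).1 (Sm A ε l z).2 (hSmz z hz h).2 hz0
    · have hzn := norm_pos_iff.2 hz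
      have h' : -(3 / 10 * ‖z‖) < (z 3).re := by linarith
      rw [(hev2 z hz h').fderiv_eq]
      rw [hFF2 z hz h'] at h0z
      have e4 : f2 = fun z => (-((η : ℂ) * (A.C / l) * ((‖z‖⁻¹ : ℝ) : ℂ))) * co 0 z := by
        rw [hf2]
        funext z
        exact f2_eq _ z
      have hcne : ∀ z : C4, z ≠ 0 → (-((η : ℂ) * (A.C / l) * ((‖z‖⁻¹ : ℝ) : ℂ))) ≠ 0 := by
        intro z hz
        have h3 : ((‖z‖⁻¹ : ℝ) : ℂ) ≠ 0 := by
          rw [Ne, Complex.ofReal_eq_zero]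
          exact inv_ne_zero (norm_ne_zero_iff.2 hz)
        have h4 : (η : ℂ) ≠ 0 := by
          rw [Ne, Complex.ofReal_eq_zero]
          exact h0.ne'
        have h5 : (A.C : ℂ) ≠ 0 := by
          rw [Ne, Complex.ofReal_eq_zero]
          exact A.C_pos.ne'
        have h6 : (l : ℂ) ≠ 0 := by
          rw [Ne, Complex.ofReal_eq_zero]
          exact hl0.ne'
        exact neg_ne_zero.2 (mul_ne_zero (mul_ne_zero h4 (div_ne_zero h5 h6)) h3)
      rw [e4] at h0z ⊢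
      have hz0 : co 0 z = 0 := (mul_eq_zero.1 h0z).resolve_left (hcne z hz)
      refine mul_zero_deriv (fun z => (-((η : ℂ) * (A.C / l) * ((‖z‖⁻¹ : ℝ) : ℂ)))) (fun z => co 0 z) z
        ?_ (co 0).differentiableAt hz0 (hcne z hz) ?_
      · have h7 : ContDiffAt ℝ ∞ (fun z : C4 => (-((η : ℂ) * (A.C / l) * ((‖z‖⁻¹ : ℝ) : ℂ)))) z :=
          (contDiffAt_const.mul (Complex.ofRealCLM.contDiff.contDiffAt.comp z (inv_norm_smooth z hz))).neg
        exact h7.differentiableAt (by simp)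
      · have e5 : fderiv ℝ (fun z => co 0 z) z = co 0 := (co 0).fderiv
        rw [e5]
        intro w
        refine ⟨EuclideanSpace.single 0 w, ?_⟩
        rw [co_apply]
        simp

end Pool.Agent.KNT
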