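import Pool.Agent.KNT.Stmts

set_option autoImplicit false

open scoped ContDiff ComplexConjugate
open Set Filter Topology Metric

namespace Pool.Agent.KNT

namespace LAG_

/-- approximate square roots -/
theorem near_root (Y Y0 e : ℂ) (δ : ℝ) (hY0 : Y0 ≠ 0) (h : Y ^ 2 = Y0 ^ 2 + e)
    (he : ‖e‖ ≤ δ * ‖Y0‖ ^ 2) :
    ∃ s : ℤ, (s = 1 ∨ s = -1) ∧ ‖Y - s * Y0‖ ≤ δ * ‖Y0‖ := by
  have hp : 0 < ‖Y0‖ := norm_pos_iff.mpr hY0
  have hm : ‖Y - Y0‖ * ‖Y + Y0‖ ≤ δ * ‖Y0‖ ^ 2 := by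
    rw [← norm_mul]
    have : (Y - Y0) * (Y + Y0) = e := by linear_combination h
    rw [this]; exact he
  have ht : 2 * ‖Y0‖ ≤ ‖Y - Y0‖ + ‖Y + Y0‖ := by
    have h1 : ‖(Y + Y0) - (Y - Y0)‖ ≤ ‖Y + Y0‖ + ‖Y - Y0‖ := norm_sub_le _ _
    have h2 : (Y + Y0) - (Y - Y0) = 2 * Y0 := by ring
    rw [h2, norm_mul] at h1
    have h3 : ‖(2 : ℂ)‖ = 2 := by simp
    rw [h3] at h1
    linarith
  by_cases hc : ‖Y0‖ ≤ ‖Y + Y0‖
  · refine ⟨1, Or.inl rfl, ?_⟩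
    have : Y - ((1 : ℤ) : ℂ) * Y0 = Y - Y0 := by push_cast; ring
    rw [this]
    by_contra hcon
    push Not at hcon
    have := mul_lt_mul_of_pos_right hcon hp
    have h4 : ‖Y - Y0‖ * ‖Y0‖ ≤ ‖Y - Y0‖ * ‖Y + Y0‖ :=
      mul_le_mul_of_nonneg_left hc (norm_nonneg _)
    nlinarith
  · push Not at hc
    have hc' : ‖Y0‖ ≤ ‖Y - Y0‖ := by linarith
    refine ⟨-1, Or.inr rfl, ?_⟩
    have : Y - ((-1 : ℤ) : ℂ) * Y0 = Y + Y0 := by push_cast; ring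
    rw [this]
    by_contra hcon
    push Not at hcon
    have := mul_lt_mul_of_pos_right hcon hp
    have h4 : ‖Y0‖ * ‖Y + Y0‖ ≤ ‖Y - Y0‖ * ‖Y + Y0‖ :=
      mul_le_mul_of_nonneg_right hc' (norm_nonneg _)
    nlinarith

/-- one coordinate: either `y = 0`, or `Y` is close to `± Y0`. -/
theorem coord (g S y Y0 : ℂ) (η : ℝ) (c : ℂ) (Y : ℂ) (hη : 0 < η)
    (hY : Y ^ 2 = c * y ^ 4) (hg : g ≠ 0)
    (hq : (3 * η : ℂ) * Y0 ^ 2 = 2 * g) (hy0 : y = 0 → Y = 0)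
    (h : 4 * g * y - η * (6 * c * y ^ 5) = (-2 * g * S) * conj y) :
    ∃ s : ℤ, (s = 0 ∨ s = 1 ∨ s = -1) ∧ (s = 0 ↔ y = 0) ∧ ‖Y - s * Y0‖ ≤ ‖S‖ / 2 * ‖Y0‖ := by
  have hηc : (η : ℂ) ≠ 0 := by exact_mod_cast hη.ne'
  have hY0 : Y0 ≠ 0 := by
    rintro rfl
    apply hg
    have : (2 : ℂ) * g = 0 := by rw [← hq]; ring
    simpa using this
  by_cases hy : y = 0
  · refine ⟨0, Or.inl rfl, by simp [hy], ?_⟩
    rw [hy0 hy]
    simp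
    positivity
  · -- `3 η Y² = 2 g + g S conj y / y`
    have h1 : (3 * η : ℂ) * Y ^ 2 = 2 * g + g * S * (conj y / y) := by
      have : y * ((3 * η : ℂ) * Y ^ 2) = y * (2 * g + g * S * (conj y / y)) := by
        rw [hY]
        have hd : y * (conj y / y) = conj y := by field_simp
        have : y * (2 * g + g * S * (conj y / y)) = 2 * g * y + g * S * (y * (conj y / y)) := by ring
        rw [this, hd]
        linear_combination (-1 / 2 : ℂ) * h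
      exact mul_left_cancel₀ hy this
    have h2 : Y ^ 2 = Y0 ^ 2 + g * S * (conj y / y) / (3 * η) := by
      have h3 : (3 * η : ℂ) ≠ 0 := by simpa using hηc
      have : (3 * η : ℂ) * Y ^ 2 = (3 * η : ℂ) * (Y0 ^ 2 + g * S * (conj y / y) / (3 * η)) := by
        rw [mul_add, hq, h1, mul_div_cancel₀ _ h3]
      exact mul_left_cancel₀ h3 this
    have h4 : ‖conj y / y‖ = 1 := by
      rw [norm_div, RCLike.norm_conj]
      exact div_self (norm_ne_zero_iff.mpr hy)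
    have h5 : ‖g * S * (conj y / y) / (3 * η)‖ = ‖g‖ * ‖S‖ / (3 * η) := by
      rw [norm_div, norm_mul, norm_mul, h4, mul_one]
      congr 1
      rw [norm_mul]
      simp [abs_of_pos hη]
    have h6 : (3 * η) * ‖Y0‖ ^ 2 = 2 * ‖g‖ := by
      have := congrArg norm hq
      rw [norm_mul, norm_mul, norm_mul, norm_pow] at this
      simpa [abs_of_pos hη] using this
    have h7 : ‖g * S * (conj y / y) / (3 * η)‖ ≤ ‖S‖ / 2 * ‖Y0‖ ^ 2 := by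
      rw [h5, div_le_iff₀ (by positivity)]
      have : ‖S‖ / 2 * ‖Y0‖ ^ 2 * (3 * η) = ‖S‖ / 2 * ((3 * η) * ‖Y0‖ ^ 2) := by ring
      rw [this, h6]
      apply le_of_eq
      ring
    obtain ⟨s, hs, hs'⟩ := near_root Y Y0 _ _ hY0 h2 h7
    refine ⟨s, Or.inr hs, ?_, hs'⟩
    constructor
    · rintro rfl
      rcases hs with h | h <;> norm_num at h
    · intro h; exact absurd h hy

theorem main (t η : ℝ) (ht : 0 < t) (hη : 0 < η) (hη0 : η ≤ 1 / 10 ^ 6)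
    (x y₁ y₂ y₃ l g S : ℂ) (hn : ‖x‖ ^ 2 + ‖y₁‖ ^ 2 + ‖y₂‖ ^ 2 + ‖y₃‖ ^ 2 = 1)
    (hS : S = y₁ ^ 2 + y₂ ^ 2 + y₃ ^ 2) (hgd : g = t * x ^ 3 + S)
    (hg : g ^ 2 = η * (16 * y₁ ^ 6 + 4 * y₂ ^ 6 + y₃ ^ 6))
    (h0 : 6 * t * x ^ 2 * g = l * conj x)
    (h1 : 4 * g * y₁ - η * (96 * y₁ ^ 5) = l * conj y₁)
    (h2 : 4 * g * y₂ - η * (24 * y₂ ^ 5) = l * conj y₂)
    (h3 : 4 * g * y₃ - η * (6 * y₃ ^ 5) = l * conj y₃) : False := by
  have e0 : conj x * x = (‖x‖ : ℂ) ^ 2 := Complex.conj_mul' x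
  have e1 : conj y₁ * y₁ = (‖y₁‖ : ℂ) ^ 2 := Complex.conj_mul' y₁
  have e2 : conj y₂ * y₂ = (‖y₂‖ : ℂ) ^ 2 := Complex.conj_mul' y₂
  have e3 : conj y₃ * y₃ = (‖y₃‖ : ℂ) ^ 2 := Complex.conj_mul' y₃
  have hn' : (‖x‖ : ℂ) ^ 2 + (‖y₁‖ : ℂ) ^ 2 + (‖y₂‖ : ℂ) ^ 2 + (‖y₃‖ : ℂ) ^ 2 = 1 := by
    exact_mod_cast hn
  have hl : l = -2 * g * S := by
    linear_combination (-l) * hn' + (-l) * e0 + (-l) * e1 + (-l) * e2 + (-l) * e3 +
      (-x) * h0 + (-y₁) * h1 + (-y₂) * h2 + (-y₃) * h3 + 6 * hg - 6 * g * hgd -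
      4 * g * hS
  have hηc : (η : ℂ) ≠ 0 := by exact_mod_cast hη.ne'
  have htc : (t : ℂ) ≠ 0 := by exact_mod_cast ht.ne'
  by_cases hg0 : g = 0
  · subst hg0
    have hl0 : l = 0 := by rw [hl]; ring
    subst hl0
    have y1 : y₁ = 0 := by
      have : (η : ℂ) * (96 * y₁ ^ 5) = 0 := by linear_combination -h1
      have : y₁ ^ 5 = 0 := by
        rcases mul_eq_zero.mp this with h | h
        · exact absurd h hηc
        · simpa using h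
      exact pow_eq_zero_iff (by norm_num) |>.mp this
    have y2 : y₂ = 0 := by
      have : (η : ℂ) * (24 * y₂ ^ 5) = 0 := by linear_combination -h2
      have : y₂ ^ 5 = 0 := by
        rcases mul_eq_zero.mp this with h | h
        · exact absurd h hηc
        · simpa using h
      exact pow_eq_zero_iff (by norm_num) |>.mp this
    have y3 : y₃ = 0 := by
      have : (η : ℂ) * (6 * y₃ ^ 5) = 0 := by linear_combination -h3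
      have : y₃ ^ 5 = 0 := by
        rcases mul_eq_zero.mp this with h | h
        · exact absurd h hηc
        · simpa using h
      exact pow_eq_zero_iff (by norm_num) |>.mp this
    have hx : x = 0 := by
      have : (t : ℂ) * x ^ 3 = 0 := by
        rw [y1, y2, y3] at hS
        have : S = 0 := by rw [hS]; ring
        rw [this] at hgd
        linear_combination -hgd
      have : x ^ 3 = 0 := by
        rcases mul_eq_zero.mp this with h | h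
        · exact absurd h htc
        · exact h
      exact pow_eq_zero_iff (by norm_num) |>.mp this
    rw [hx, y1, y2, y3] at hn
    norm_num at hn
  -- `g = S (1 - |x|²/3)`
  have hgS : g = S * (1 - (‖x‖ : ℂ) ^ 2 / 3) := by
    have h4 : g * (3 * g) = g * (3 * (S * (1 - (‖x‖ : ℂ) ^ 2 / 3))) := by
      rw [hl] at h0
      linear_combination (1 / 2 : ℂ) * x * h0 + 3 * g * hgd + (-g * S) * e0
    have h5 := mul_left_cancel₀ hg0 h4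
    have h6 : (3 : ℂ) ≠ 0 := by norm_num
    exact mul_left_cancel₀ h6 h5
  have hx1 : ‖x‖ ^ 2 ≤ 1 := by nlinarith [norm_nonneg x, norm_nonneg y₁, norm_nonneg y₂, norm_nonneg y₃, sq_nonneg ‖y₁‖, sq_nonneg ‖y₂‖, sq_nonneg ‖y₃‖]
  have hy1 : ‖y₁‖ ^ 2 ≤ 1 := by nlinarith [sq_nonneg ‖x‖, sq_nonneg ‖y₂‖, sq_nonneg ‖y₃‖]
  have hy2 : ‖y₂‖ ^ 2 ≤ 1 := by nlinarith [sq_nonneg ‖x‖, sq_nonneg ‖y₁‖, sq_nonneg ‖y₃‖]
  have hy3 : ‖y₃‖ ^ 2 ≤ 1 := by nlinarith [sq_nonneg ‖x‖, sq_nonneg ‖y₁‖, sq_nonneg ‖y₂‖]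
  have hgn : ‖g‖ = ‖S‖ * (1 - ‖x‖ ^ 2 / 3) := by
    rw [hgS, norm_mul]
    congr 1
    have : (1 - (‖x‖ : ℂ) ^ 2 / 3) = ((1 - ‖x‖ ^ 2 / 3 : ℝ) : ℂ) := by push_cast; ring
    rw [this, Complex.norm_real, Real.norm_eq_abs, abs_of_nonneg (by nlinarith)]
  have hgl : 2 / 3 * ‖S‖ ≤ ‖g‖ := by
    rw [hgn]; nlinarith [norm_nonneg S]
  have hSpos : 0 < ‖S‖ := by
    by_contra hcon
    have hz : ‖S‖ = 0 := le_antisymm (not_lt.mp hcon) (norm_nonneg _)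
    rw [hz, zero_mul] at hgn
    exact hg0 (norm_eq_zero.mp hgn)
  -- `|g|² ≤ 21 η`
  have hp1 : ‖y₁‖ ^ 6 ≤ 1 := by
    have : ‖y₁‖ ^ 6 = (‖y₁‖ ^ 2) ^ 3 := by ring
    rw [this]; exact pow_le_one₀ (sq_nonneg _) hy1
  have hp2 : ‖y₂‖ ^ 6 ≤ 1 := by
    have : ‖y₂‖ ^ 6 = (‖y₂‖ ^ 2) ^ 3 := by ring
    rw [this]; exact pow_le_one₀ (sq_nonneg _) hy2
  have hp3 : ‖y₃‖ ^ 6 ≤ 1 := by
    have : ‖y₃‖ ^ 6 = (‖y₃‖ ^ 2) ^ 3 := by ring
    rw [this]; exact pow_le_one₀ (sq_nonneg _) hy3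
  have hg21 : ‖g‖ ^ 2 ≤ 21 * η := by
    rw [← norm_pow, hg, norm_mul, Complex.norm_real, Real.norm_eq_abs, abs_of_pos hη]
    have : ‖16 * y₁ ^ 6 + 4 * y₂ ^ 6 + y₃ ^ 6‖ ≤ 21 := by
      calc ‖16 * y₁ ^ 6 + 4 * y₂ ^ 6 + y₃ ^ 6‖ ≤ ‖16 * y₁ ^ 6‖ + ‖4 * y₂ ^ 6‖ + ‖y₃ ^ 6‖ :=
            (norm_add_le _ _).trans (by gcongr; exact norm_add_le _ _)
        _ = 16 * ‖y₁‖ ^ 6 + 4 * ‖y₂‖ ^ 6 + ‖y₃‖ ^ 6 := by
            rw [norm_mul, norm_mul, norm_pow, norm_pow, norm_pow]; simp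
        _ ≤ 21 := by linarith
    nlinarith
  have hSsm : ‖S‖ ≤ 7 / 1000 := by
    by_contra hcon
    push Not at hcon
    have h8 : 2 / 3 * (7 / 1000) < ‖g‖ := by linarith
    have h9 : (2 / 3 * (7 / 1000)) ^ 2 < ‖g‖ ^ 2 := by
      apply pow_lt_pow_left₀ h8 (by norm_num) (by norm_num)
    have h10 : 21 * η ≤ 21 / 10 ^ 6 := by linarith
    norm_num at h9 h10
    linarith
  -- the square root
  obtain ⟨Y0, hY0⟩ := IsAlgClosed.exists_pow_nat_eq (2 * g / (3 * η)) (n := 2) (by norm_num)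
  have h3η : (3 * η : ℂ) ≠ 0 := by simpa using hηc
  have hq : (3 * η : ℂ) * Y0 ^ 2 = 2 * g := by rw [hY0, mul_div_cancel₀ _ h3η]
  have hY0n : (3 * η) * ‖Y0‖ ^ 2 = 2 * ‖g‖ := by
    have := congrArg norm hq
    rw [norm_mul, norm_mul, norm_mul, norm_pow] at this
    simpa [abs_of_pos hη] using this
  rw [hl] at h1 h2 h3
  obtain ⟨s₁, hs1, hz1, hb1⟩ := coord g S y₁ Y0 η 16 (4 * y₁ ^ 2) hη (by ring) hg0 hq
    (by rintro rfl; ring) (by linear_combination h1)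
  obtain ⟨s₂, hs2, hz2, hb2⟩ := coord g S y₂ Y0 η 4 (2 * y₂ ^ 2) hη (by ring) hg0 hq
    (by rintro rfl; ring) (by linear_combination h2)
  obtain ⟨s₃, hs3, hz3, hb3⟩ := coord g S y₃ Y0 η 1 (y₃ ^ 2) hη (by ring) hg0 hq
    (by rintro rfl; ring) (by linear_combination h3)
  have hnz : ¬ (s₁ = 0 ∧ s₂ = 0 ∧ s₃ = 0) := by
    rintro ⟨a1, a2, a3⟩
    have b1 := hz1.mp a1
    have b2 := hz2.mp a2
    have b3 := hz3.mp a3
    rw [b1, b2, b3] at hS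
    have : S = 0 := by rw [hS]; ring
    rw [this, norm_zero] at hSpos
    exact lt_irrefl _ hSpos
  have hN : (1 : ℝ) ≤ |((s₁ + 2 * s₂ + 4 * s₃ : ℤ) : ℝ)| := by
    have hne : s₁ + 2 * s₂ + 4 * s₃ ≠ 0 := by
      intro h
      apply hnz
      rcases hs1 with h1 | h1 | h1 <;> rcases hs2 with h2 | h2 | h2 <;>
        rcases hs3 with h3 | h3 | h3 <;> subst h1 <;> subst h2 <;> subst h3 <;>
        first | exact ⟨rfl, rfl, rfl⟩ | (exfalso; norm_num at h)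
    have := Int.one_le_abs hne
    exact_mod_cast this
  have hYn : 0 ≤ ‖Y0‖ := norm_nonneg _
  have key : ‖Y0‖ ≤ 4 * ‖S‖ + 7 * (‖S‖ / 2 * ‖Y0‖) := by
    have hd : ((s₁ + 2 * s₂ + 4 * s₃ : ℤ) : ℂ) * Y0 = 4 * S - ((4 * y₁ ^ 2 - s₁ * Y0) +
        2 * (2 * y₂ ^ 2 - s₂ * Y0) + 4 * (y₃ ^ 2 - s₃ * Y0)) := by
      rw [hS]; push_cast; ring
    have h11 : ‖((s₁ + 2 * s₂ + 4 * s₃ : ℤ) : ℂ) * Y0‖ ≤ 4 * ‖S‖ + ((‖S‖ / 2 * ‖Y0‖) +
        2 * (‖S‖ / 2 * ‖Y0‖) + 4 * (‖S‖ / 2 * ‖Y0‖)) := by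
      rw [hd]
      refine (norm_sub_le _ _).trans ?_
      gcongr
      · rw [norm_mul]; simp
      · refine (norm_add_le _ _).trans ?_
        gcongr
        · refine (norm_add_le _ _).trans ?_
          gcongr
          rw [norm_mul]
          have : ‖(2 : ℂ)‖ = 2 := by simp
          rw [this]
          linarith
        · rw [norm_mul]
          have : ‖(4 : ℂ)‖ = 4 := by simp
          rw [this]
          linarith
    rw [norm_mul] at h11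
    have h12 : ‖((s₁ + 2 * s₂ + 4 * s₃ : ℤ) : ℂ)‖ = |((s₁ + 2 * s₂ + 4 * s₃ : ℤ) : ℝ)| := by
      rw [Complex.norm_intCast]
    rw [h12] at h11
    nlinarith
  have h13 : ‖Y0‖ ≤ 5 * ‖S‖ := by nlinarith
  -- `3 η |Y0|² = 2|g| ≥ 4/3 |S| ≥ 4/15 |Y0|`
  have h14 : 4 / 3 * ‖S‖ ≤ 3 * η * ‖Y0‖ ^ 2 := by rw [hY0n]; linarith
  have h15 : ‖Y0‖ ^ 2 ≤ 25 * ‖S‖ ^ 2 := by nlinarith
  have h16 : 3 * η * ‖Y0‖ ^ 2 ≤ 3 / 10 ^ 6 * (25 * ‖S‖ ^ 2) := by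
    have : 3 * η ≤ 3 / 10 ^ 6 := by linarith
    exact mul_le_mul this h15 (by positivity) (by norm_num)
  have h17 : 4 / 3 * ‖S‖ ≤ 3 / 10 ^ 6 * (25 * ‖S‖ ^ 2) := h14.trans h16
  nlinarith

end LAG_

theorem lag_proof : Stmt_LAG := by
  refine ⟨1 / 10 ^ 6, by norm_num, ?_⟩
  intro t η ht hη hη0 x y₁ y₂ y₃ l hn hg h0 h1 h2 h3
  have e : ((t : ℂ) * x ^ 3 + y₁ ^ 2 + y₂ ^ 2 + y₃ ^ 2) = t * x ^ 3 + (y₁ ^ 2 + y₂ ^ 2 + y₃ ^ 2) := by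
    ring
  refine LAG_.main t η ht hη hη0 x y₁ y₂ y₃ l _ _ hn rfl e ?_ ?_ ?_ ?_ ?_
  · exact hg
  · exact h0
  · exact h1
  · exact h2
  · exact h3

end Pool.Agent.KNT
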