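import Pool.Agent.KNT.Stmts

set_option autoImplicit false

open scoped ContDiff ComplexConjugate
open Set Filter Topology Metric

namespace Pool.Agent.KNT

namespace LGB_

variable {W : Type} [NormedAddCommGroup W] [NormedSpace ℝ W]

/-- radial retraction on the closed ball -/
noncomputable def ret (x : W) : W := (max 1 ‖x‖)⁻¹ • x

theorem ret_mem (x : W) : ret x ∈ closedBall (0 : W) 1 := by
  have h : 0 < max 1 ‖x‖ := lt_of_lt_of_le one_pos (le_max_left _ _)
  rw [mem_closedBall_zero_iff, ret, norm_smul, norm_inv, Real.norm_of_nonneg h.le,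
    inv_mul_le_iff₀ h, mul_one]
  exact le_max_right _ _

theorem ret_eq {x : W} (hx : x ∈ closedBall (0 : W) 1) : ret x = x := by
  rw [mem_closedBall_zero_iff] at hx
  rw [ret, max_eq_left hx, inv_one, one_smul]

theorem ret_cont : Continuous (ret : W → W) := by
  unfold ret
  refine Continuous.smul (Continuous.inv₀ (by fun_prop) fun x => ?_) continuous_id
  exact (lt_of_lt_of_le one_pos (le_max_left _ _)).ne'

end LGB_

open LGB_ in
theorem lgb_proof : Stmt_LGB := by
  intro W _ _ f hf hf0
  have hc : Continuous fun x : W => f (ret x) :=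
    hf.comp_continuous ret_cont ret_mem
  obtain ⟨F, ⟨-, hF⟩, -⟩ := Complex.isCoveringMapOn_exp.existsUnique_continuousMap_lifts
    (⟨fun x : W => f (ret x), hc⟩ : C(W, ℂ)) (a₀ := (0 : W)) (e₀ := Complex.log (f (ret 0)))
    (Complex.exp_log (hf0 _ (ret_mem _))) (fun a => hf0 _ (ret_mem _))
  refine ⟨F, F.continuous.continuousOn, fun x hx => ?_⟩
  have h := congrFun hF x
  simp only [Function.comp_apply, ContinuousMap.coe_mk] at h
  rw [h, ret_eq hx]

end Pool.Agent.KNT
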