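import Pool.Agent.KNT.Stmts

set_option autoImplicit false

open scoped ContDiff ComplexConjugate
open Set Filter Topology Metric

namespace Pool.Agent.KNT

namespace LGS_

abbrev R3 := EuclideanSpace ℝ (Fin 3)

/-- projection to the last three coordinates -/
noncomputable def pr (x : R4) : R3 := !₂[x 1, x 2, x 3]

/-- graph point with first coordinate `s √(1 - ‖b‖²)` -/
noncomputable def gr (s : ℝ) (b : R3) : R4 := !₂[s * √(1 - ‖b‖ ^ 2), b 0, b 1, b 2]

theorem pr_cont : Continuous pr := by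
  unfold pr
  refine (PiLp.continuous_toLp 2 _).comp ?_
  refine continuous_pi fun i => ?_
  fin_cases i <;> simp <;> fun_prop

theorem gr_cont (s : ℝ) : Continuous (gr s) := by
  unfold gr
  refine (PiLp.continuous_toLp 2 _).comp ?_
  refine continuous_pi fun i => ?_
  fin_cases i <;> simp <;> fun_prop

theorem norm_gr {s : ℝ} (hs : s ^ 2 = 1) {b : R3} (hb : b ∈ closedBall (0 : R3) 1) :
    gr s b ∈ sphere (0 : R4) 1 := by
  rw [mem_closedBall_zero_iff] at hb
  rw [mem_sphere_zero_iff_norm]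
  have h1 : ‖gr s b‖ ^ 2 = 1 := by
    have h2 : ‖b‖ ^ 2 = b 0 ^ 2 + b 1 ^ 2 + b 2 ^ 2 := by
      rw [EuclideanSpace.norm_sq_eq]
      simp [Fin.sum_univ_three]
    have h3 : 0 ≤ 1 - ‖b‖ ^ 2 := by nlinarith [norm_nonneg b]
    rw [EuclideanSpace.norm_sq_eq, Fin.sum_univ_four]
    simp only [gr, Real.norm_eq_abs, sq_abs]
    simp only [PiLp.toLp_apply, Matrix.cons_val_zero, Matrix.cons_val_one, Matrix.cons_val]
    rw [mul_pow, Real.sq_sqrt h3, hs]
    linarith
  have h4 : 0 ≤ ‖gr s b‖ := norm_nonneg _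
  nlinarith

theorem sphere_eq {x : R4} (hx : x ∈ sphere (0 : R4) 1) :
    x 0 ^ 2 + ‖pr x‖ ^ 2 = 1 := by
  rw [mem_sphere_zero_iff_norm] at hx
  have h1 : ‖x‖ ^ 2 = 1 := by rw [hx]; norm_num
  rw [EuclideanSpace.norm_sq_eq, Fin.sum_univ_four] at h1
  rw [EuclideanSpace.norm_sq_eq, Fin.sum_univ_three]
  simp only [pr, Real.norm_eq_abs, sq_abs] at h1 ⊢
  simp only [PiLp.toLp_apply, Matrix.cons_val_zero, Matrix.cons_val_one, Matrix.cons_val]
  linarith

theorem pr_mem {x : R4} (hx : x ∈ sphere (0 : R4) 1) : pr x ∈ closedBall (0 : R3) 1 := by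
  have h := sphere_eq hx
  rw [mem_closedBall_zero_iff]
  nlinarith [norm_nonneg (pr x), _root_.sq_nonneg (x 0)]

theorem gr_pr {x : R4} (hx : x ∈ sphere (0 : R4) 1) {s : ℝ} (h : s * |x 0| = x 0) :
    gr s (pr x) = x := by
  have h1 := sphere_eq hx
  have h2 : √(1 - ‖pr x‖ ^ 2) = |x 0| := by
    rw [show 1 - ‖pr x‖ ^ 2 = x 0 ^ 2 by linarith, Real.sqrt_sq_eq_abs]
  ext i
  simp only [gr]
  rw [h2, h]
  fin_cases i <;> simp [pr]

end LGS_

open LGS_ in
theorem lgs_proof (hLGB : Stmt_LGB) : Stmt_LGS := by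
  intro f hf hf0
  have key : ∀ s : ℝ, s ^ 2 = 1 → ∃ L : R3 → ℂ, ContinuousOn L (closedBall 0 1) ∧
      ∀ b ∈ closedBall (0 : R3) 1, Complex.exp (L b) = f (gr s b) := fun s hs =>
    hLGB R3 (fun b => f (gr s b))
      (hf.comp (gr_cont s).continuousOn fun b hb => norm_gr hs hb)
      fun b hb => hf0 _ (norm_gr hs hb)
  obtain ⟨Lp, hLp, hLp'⟩ := key 1 (by norm_num)
  obtain ⟨Lm, hLm, hLm'⟩ := key (-1) (by norm_num)
  have hsub : sphere (0 : R3) 1 ⊆ closedBall 0 1 := sphere_subset_closedBall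
  have hconn : IsPreconnected (sphere (0 : R3) 1) := by
    refine isPreconnected_sphere ?_ 0 1
    rw [← Module.finrank_eq_rank, finrank_euclideanSpace_fin]
    norm_num
  have hdisc : IsDiscrete ((AddSubgroup.zmultiples (2 * Real.pi * Complex.I : ℂ) :
      AddSubgroup ℂ) : Set ℂ) := ⟨NormedSpace.discreteTopology_zmultiples _⟩
  obtain ⟨y, hy, hyc⟩ := hconn.eqOn_const_of_mapsTo hdisc (f := fun b => Lp b - Lm b)
    ((hLp.mono hsub).sub (hLm.mono hsub)) (by
      intro b hb
      have h1 : gr 1 b = gr (-1) b := by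
        have : ‖b‖ = 1 := by simpa using hb
        simp [gr, this]
      have h2 : Complex.exp (Lp b) = Complex.exp (Lm b) := by
        rw [hLp' b (hsub hb), hLm' b (hsub hb), h1]
      obtain ⟨n, hn⟩ := Complex.exp_eq_exp_iff_exists_int.1 h2
      simp only [SetLike.mem_coe, AddSubgroup.mem_zmultiples_iff]
      exact ⟨n, by rw [hn, zsmul_eq_mul]; ring⟩) ⟨0, zero_mem _⟩
  have hyexp : Complex.exp y = 1 := by
    simp only [SetLike.mem_coe, AddSubgroup.mem_zmultiples_iff] at hy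
    obtain ⟨n, hn⟩ := hy
    rw [← hn, zsmul_eq_mul]
    exact Complex.exp_int_mul_two_pi_mul_I n
  let L : R4 → ℂ := fun x => if 0 ≤ x 0 then Lp (pr x) else Lm (pr x) + y
  have hA : ∀ x ∈ sphere (0 : R4) 1, 0 ≤ x 0 → L x = Lp (pr x) := by
    intro x _ h
    simp only [L, h, if_true]
  have hB : ∀ x ∈ sphere (0 : R4) 1, x 0 ≤ 0 → L x = Lm (pr x) + y := by
    intro x hx h
    rcases h.lt_or_eq with h | h
    · simp only [L, not_le.2 h, if_false]
    · rw [hA x hx h.ge]
      have h1 := sphere_eq hx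
      rw [h] at h1
      have h2 : pr x ∈ sphere (0 : R3) 1 := by
        rw [mem_sphere_zero_iff_norm]
        nlinarith [norm_nonneg (pr x)]
      have h3 : Lp (pr x) - Lm (pr x) = y := hyc h2
      rw [← h3]; ring
  refine ⟨L, ?_, ?_⟩
  · have hU : sphere (0 : R4) 1 = (sphere (0 : R4) 1 ∩ {x | 0 ≤ x 0}) ∪
        (sphere (0 : R4) 1 ∩ {x | x 0 ≤ 0}) := by
      rw [← inter_union_distrib_left]
      refine (inter_eq_left.2 fun x _ => ?_).symm
      exact le_total 0 (x 0)
    have hc0 : Continuous fun x : R4 => x 0 := by fun_prop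
    rw [hU]
    refine ContinuousOn.union_of_isClosed ?_ ?_ (isClosed_sphere.inter (isClosed_le continuous_const hc0))
      (isClosed_sphere.inter (isClosed_le hc0 continuous_const))
    · refine ContinuousOn.congr ?_ fun x hx => hA x hx.1 hx.2
      exact hLp.comp pr_cont.continuousOn fun x hx => pr_mem hx.1
    · refine ContinuousOn.congr ?_ fun x hx => hB x hx.1 hx.2
      exact (hLm.comp pr_cont.continuousOn fun x hx => pr_mem hx.1).add continuousOn_const
  · intro x hx
    rcases le_total 0 (x 0) with h | h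
    · rw [hA x hx h, hLp' _ (pr_mem hx), gr_pr hx (by rw [abs_of_nonneg h, one_mul])]
    · rw [hB x hx h, Complex.exp_add, hyexp, mul_one, hLm' _ (pr_mem hx),
        gr_pr hx (by rw [abs_of_nonpos h]; ring)]

end Pool.Agent.KNT
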