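import Pool.Agent.KNT.Stmts

/-! Module LIN: linearisation of `s` near `q` through regular functions. -/

set_option autoImplicit false

open scoped ContDiff ComplexConjugate
open Set Filter Topology Metric

namespace Pool.Agent.KNT

namespace LIN_

/-- linear maps close to the differential of `s` at `q` are surjective -/
theorem surj_of_close {T : Tube} (A : Fr T) (L L0 : C3 →L[ℝ] ℂ)
    (h0 : ∀ v, L0 v = A.C * conj (inner ℂ A.n0 v)) (h : ‖L - L0‖ < A.C) :
    Function.Surjective L := by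
  have hC := A.C_pos
  have hC' : (A.C : ℂ) ≠ 0 := by exact_mod_cast hC.ne'
  let R : ℂ →ₗ[ℝ] C3 :=
    { toFun := fun w => ((conj w / (A.C : ℂ)) • A.n0 : C3)
      map_add' := fun x y => by rw [map_add, add_div, add_smul]
      map_smul' := fun r x => by
        rw [RingHom.id_apply, Complex.real_smul, map_mul, Complex.conj_ofReal, mul_div_assoc,
          mul_smul]
        rfl }
  have hRa : ∀ w, R w = ((conj w / (A.C : ℂ)) • A.n0 : C3) := fun w => rfl
  have hR : ∀ w, L0 (R w) = w := by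
    intro w
    rw [h0, hRa, inner_smul_right, inner_self_eq_norm_sq_to_K, A.nn0]
    simp only [map_mul, map_div₀, Complex.conj_conj, Complex.conj_ofReal]
    field_simp
    simp
  have hRn : ∀ w, ‖R w‖ = ‖w‖ / A.C := by
    intro w
    rw [hRa, norm_smul, A.nn0, mul_one, norm_div, RCLike.norm_conj, Complex.norm_real,
      Real.norm_of_nonneg hC.le]
  have hinj : Function.Injective (L.toLinearMap ∘ₗ R) := by
    rw [← LinearMap.ker_eq_bot, LinearMap.ker_eq_bot']
    intro w hw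
    by_contra hne
    have h1 : L (R w) = 0 := hw
    have h2 : ‖w‖ ≤ ‖L - L0‖ * (‖w‖ / A.C) := by
      have h3 : (L - L0) (R w) = -w := by
        rw [_root_.sub_apply, h1, hR, zero_sub]
      have h4 := (L - L0).le_opNorm (R w)
      rwa [h3, norm_neg, hRn] at h4
    have h5 : 0 < ‖w‖ := norm_pos_iff.2 hne
    have h6 : ‖L - L0‖ * (‖w‖ / A.C) < A.C * (‖w‖ / A.C) :=
      mul_lt_mul_of_pos_right h (div_pos h5 hC)
    have h7 : A.C * (‖w‖ / A.C) = ‖w‖ := by field_simp
    linarith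
  have hsurj : Function.Surjective (L.toLinearMap ∘ₗ R) := LinearMap.injective_iff_surjective.1 hinj
  intro w
  obtain ⟨x, hx⟩ := hsurj w
  exact ⟨R x, hx⟩

theorem lip_fderiv {W : Type} [NormedAddCommGroup W] [NormedSpace ℝ W] (g : C3 → W) (q : C3)
    (hg : ContDiffAt ℝ ∞ g q) : ∃ K : ℝ, 0 ≤ K ∧ ∃ r : ℝ, 0 < r ∧
      ∀ P ∈ ball q r, ‖fderiv ℝ g P - fderiv ℝ g q‖ ≤ K * ‖P - q‖ := by
  have h1 : ContDiffAt ℝ 1 (fderiv ℝ g) q := hg.fderiv_right (m := 1) (WithTop.coe_le_coe.2 le_top)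
  obtain ⟨K, s, hs, hL⟩ := h1.exists_lipschitzOnWith
  obtain ⟨r, hr, hrs⟩ := Metric.mem_nhds_iff.1 hs
  exact ⟨K, K.2, r, hr, fun P hP => hL.norm_sub_le (hrs hP) (mem_of_mem_nhds hs)⟩

/-- differential of a function which is constant on rays -/
theorem surj_of_unit {F : C3 → ℂ} (hom : ∀ r : ℝ, 0 < r → ∀ z, F (r • z) = F z) {z : C3}
    (hz : z ≠ 0) {L : C3 →L[ℝ] ℂ} (hL : HasFDerivAt F L (‖z‖⁻¹ • z))
    (hs : Function.Surjective L) : Function.Surjective (fderiv ℝ F z) := by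
  have hr : 0 < ‖z‖⁻¹ := inv_pos.2 (norm_pos_iff.2 hz)
  have h1 : HasFDerivAt (fun y : C3 => ‖z‖⁻¹ • y) (‖z‖⁻¹ • ContinuousLinearMap.id ℝ C3) z :=
    (‖z‖⁻¹ • ContinuousLinearMap.id ℝ C3).hasFDerivAt
  have h2 : HasFDerivAt (fun y : C3 => F (‖z‖⁻¹ • y))
      (L.comp (‖z‖⁻¹ • ContinuousLinearMap.id ℝ C3)) z := hL.comp z h1
  have h3 : (fun y : C3 => F (‖z‖⁻¹ • y)) = F := funext fun y => hom _ hr y
  rw [h3] at h2
  rw [h2.fderiv]
  intro w
  obtain ⟨v, hv⟩ := hs w
  refine ⟨‖z‖ • v, ?_⟩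
  rw [ContinuousLinearMap.comp_apply, _root_.smul_apply,
    ContinuousLinearMap.id_apply, smul_smul, inv_mul_cancel₀ (norm_ne_zero_iff.2 hz), one_smul, hv]

end LIN_

open LIN_ in
theorem lin_proof (hTAU : Stmt_TAU) (_hSRG : Stmt_SRG) : Stmt_LIN := by
  intro T A hk
  obtain ⟨t1, t2, t3, t4, t5, t6, t7, -, -, -, -, -, -, tc, -⟩ := hTAU T A
  obtain ⟨c1, c2, c3, c4⟩ := tc 64 128 (by norm_num)
  have hopen : IsOpen ({0}ᶜ : Set C3) := isOpen_compl_singleton
  have hhom : ∀ l t r : ℝ, 0 < r → ∀ z, s1 A l t (r • z) = s1 A l t z := by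
    intro l t r hr z
    unfold s1
    rw [hk.hom r hr, t2 r hr, t4.hom r hr]
  refine ⟨fun l => ⟨hhom l, ?_⟩, ?_⟩
  · -- smoothness
    have a1 : ContDiffOn ℝ ∞ (fun p : ℝ × C3 => sT T p.2) {p | p.2 ≠ 0} :=
      hk.smooth.comp contDiff_snd.contDiffOn (fun p hp => hp)
    have a2 : ContDiffOn ℝ ∞ (fun p : ℝ × C3 => Lf A p.2) {p | p.2 ≠ 0} :=
      t4.smooth.comp contDiff_snd.contDiffOn (fun p hp => hp)
    have a3 : ContDiffOn ℝ ∞ (fun p : ℝ × C3 => tau A p.2) {p | p.2 ≠ 0} :=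
      t3.comp contDiff_snd.contDiffOn (fun p hp => hp)
    have a4 : ContDiffOn ℝ ∞ (fun p : ℝ × C3 => cut 64 128 (l ^ 2 * tau A p.2)) {p | p.2 ≠ 0} :=
      c1.comp_contDiffOn (contDiffOn_const.mul a3)
    have a5 : ContDiffOn ℝ ∞ (fun p : ℝ × C3 => p.1 * cut 64 128 (l ^ 2 * tau A p.2))
        {p | p.2 ≠ 0} := contDiff_fst.contDiffOn.mul a4
    have a6 : ContDiffOn ℝ ∞ (fun p : ℝ × C3 => (p.1 * cut 64 128 (l ^ 2 * tau A p.2)) •
        (Lf A p.2 - sT T p.2)) {p | p.2 ≠ 0} := a5.smul (a2.sub a1)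
    refine (a1.add a6).congr fun p _ => ?_
    simp only [s1, Complex.real_smul, Complex.ofReal_mul]
  · -- regularity
    have hq0 : A.q ≠ 0 := by
      intro h
      have := A.nq
      rw [h, norm_zero] at this
      norm_num at this
    have hτq : tau A A.q = 0 := by
      rw [(t1 A.q hq0).2.2]
      have : nz A.q = A.q := by rw [nz, A.nq, inv_one, one_smul]
      rw [this, sub_self, norm_zero]
      norm_num
    have hsAt : ∀ P : C3, P ≠ 0 → ContDiffAt ℝ ∞ (sT T) P := fun P hP =>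
      hk.smooth.contDiffAt (hopen.mem_nhds hP)
    have hLAt : ∀ P : C3, P ≠ 0 → ContDiffAt ℝ ∞ (Lf A) P := fun P hP =>
      t4.smooth.contDiffAt (hopen.mem_nhds hP)
    have hτAt : ∀ P : C3, P ≠ 0 → ContDiffAt ℝ ∞ (tau A) P := fun P hP =>
      t3.contDiffAt (hopen.mem_nhds hP)
    set Δ : C3 → ℂ := fun P => Lf A P - sT T P with hΔ
    have hΔAt : ∀ P : C3, P ≠ 0 → ContDiffAt ℝ ∞ Δ P := fun P hP => (hLAt P hP).sub (hsAt P hP)
    have hΔq : Δ A.q = 0 := by rw [hΔ]; simp only [t6, A.s_q, sub_self]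
    have hΔq' : fderiv ℝ Δ A.q = 0 := by
      have h1 : fderiv ℝ Δ A.q = fderiv ℝ (Lf A) A.q - fderiv ℝ (sT T) A.q :=
        fderiv_fun_sub ((hLAt _ hq0).differentiableAt (by simp))
          ((hsAt _ hq0).differentiableAt (by simp))
      rw [h1]
      ext v
      rw [_root_.sub_apply, t7, A.ds, sub_self]
      rfl
    have hτq' : fderiv ℝ (tau A) A.q = 0 := by
      apply IsLocalMin.fderiv_eq_zero
      filter_upwards [hopen.mem_nhds hq0] with P hP
      rw [hτq]
      exact (t1 P hP).1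
    obtain ⟨K1, hK1, r1, hr1, b1⟩ := lip_fderiv Δ A.q (hΔAt _ hq0)
    obtain ⟨K2, hK2, r2, hr2, b2⟩ := lip_fderiv (tau A) A.q (hτAt _ hq0)
    obtain ⟨K3, hK3, r3, hr3, b3⟩ := lip_fderiv (sT T) A.q (hsAt _ hq0)
    -- bound for the derivative of the cutoff function
    obtain ⟨M, hM⟩ : ∃ M : ℝ, ∀ x ∈ Icc (0 : ℝ) 128, ‖deriv (cut 64 128) x‖ ≤ M := by
      have h1 : Continuous (deriv (cut 64 128)) := c1.continuous_deriv (by simp)
      exact isCompact_Icc.exists_bound_of_continuousOn h1.continuousOn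
    have hM0 : 0 ≤ M := (norm_nonneg _).trans (hM 0 ⟨le_rfl, by norm_num⟩)
    set r : ℝ := min (min r1 r2) (min r3 1) with hr
    have hr0 : 0 < r := lt_min (lt_min hr1 hr2) (lt_min hr3 one_pos)
    -- the bound for `Δ`
    have bΔ' : ∀ P, ‖P - A.q‖ < r → ‖fderiv ℝ Δ P‖ ≤ K1 * ‖P - A.q‖ := by
      intro P hP
      have h1 := b1 P (mem_ball_iff_norm.2 (hP.trans_le ((min_le_left _ _).trans (min_le_left _ _))))
      rwa [hΔq', sub_zero] at h1
    have hne : ∀ P, ‖P - A.q‖ < r → P ≠ 0 := by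
      intro P hP h0
      rw [h0, zero_sub, norm_neg, A.nq] at hP
      have h1 : r ≤ 1 := (min_le_right _ _).trans (min_le_right _ _)
      linarith
    have bΔ : ∀ P, ‖P - A.q‖ < r → ‖Δ P‖ ≤ K1 * ‖P - A.q‖ * ‖P - A.q‖ := by
      intro P hP
      have h1 := (convex_closedBall A.q ‖P - A.q‖).norm_image_sub_le_of_norm_fderiv_le
        (f := Δ) (C := K1 * ‖P - A.q‖) (x := A.q) (y := P) (𝕜 := ℝ)
        (fun x hx => (hΔAt x (hne x ((mem_closedBall_iff_norm.1 hx).trans_lt hP))).differentiableAt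
          (by simp))
        (fun x hx => (bΔ' x ((mem_closedBall_iff_norm.1 hx).trans_lt hP)).trans
          (mul_le_mul_of_nonneg_left (mem_closedBall_iff_norm.1 hx) hK1))
        (mem_closedBall_self (norm_nonneg _)) (mem_closedBall_iff_norm.2 le_rfl)
      rwa [hΔq, sub_zero] at h1
    have bτ : ∀ P, ‖P - A.q‖ < r → ‖fderiv ℝ (tau A) P‖ ≤ K2 * ‖P - A.q‖ := by
      intro P hP
      have h1 := b2 P (mem_ball_iff_norm.2
        (hP.trans_le ((min_le_left _ _).trans (min_le_right _ _))))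
      rwa [hτq', sub_zero] at h1
    have bs : ∀ P, ‖P - A.q‖ < r → ‖fderiv ℝ (sT T) P - fderiv ℝ (sT T) A.q‖ ≤
        K3 * ‖P - A.q‖ := by
      intro P hP
      exact b3 P (mem_ball_iff_norm.2 (hP.trans_le ((min_le_right _ _).trans (min_le_left _ _))))
    set KK : ℝ := 16 * K3 + 16 * K1 + 4096 * K1 * K2 * M with hKK
    have hKK0 : 0 ≤ KK := by positivity
    have hC := A.C_pos
    refine ⟨max 2 (max (17 / r) ((KK + 1) / A.C)), le_max_left _ _, fun l hl t ht => ?_⟩
    have hl2 : 2 ≤ l := (le_max_left _ _).trans hl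
    have hl0 : 0 < l := by linarith
    have hlr : 16 / l < r := by
      have h1 : 17 / r ≤ l := ((le_max_left _ _).trans (le_max_right _ _)).trans hl
      rw [div_le_iff₀ hr0] at h1
      rw [div_lt_iff₀ hl0]
      linarith
    have hlC : KK / l < A.C := by
      have h1 : (KK + 1) / A.C ≤ l := ((le_max_right _ _).trans (le_max_right _ _)).trans hl
      rw [div_le_iff₀ hC] at h1
      rw [div_lt_iff₀ hl0]
      linarith
    intro z hz hz0
    -- reduction to the unit sphere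
    have hnz : 0 < ‖z‖ := norm_pos_iff.2 hz
    set P : C3 := ‖z‖⁻¹ • z with hP
    have hPn : ‖P‖ = 1 := by
      rw [hP, norm_smul, norm_inv, norm_norm, inv_mul_cancel₀ hnz.ne']
    have hP0 : P ≠ 0 := by
      intro h
      rw [h, norm_zero] at hPn
      norm_num at hPn
    have hPz : s1 A l t P = 0 := by rw [hP, hhom l t _ (inv_pos.2 hnz), hz0]
    by_cases hfar : 128 < l ^ 2 * tau A P
    · -- far from `q`
      have h1 : s1 A l t =ᶠ[𝓝 P] sT T := by
        have h2 : ContinuousAt (fun Q => l ^ 2 * tau A Q) P :=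
          continuousAt_const.mul (hτAt P hP0).continuousAt
        filter_upwards [h2.eventually (lt_mem_nhds hfar)] with Q hQ
        have h3 : cut 64 128 (l ^ 2 * tau A Q) = 0 := c3 _ hQ.le
        simp only [s1, h3, Complex.ofReal_zero, mul_zero, zero_mul, add_zero]
      have h4 : sT T P = 0 := by rw [← h1.eq_of_nhds]; exact hPz
      have h5 := hk.reg P hP0 h4
      refine surj_of_unit (hhom l t) hz (L := fderiv ℝ (sT T) P) ?_ h5
      exact ((hsAt P hP0).differentiableAt (by simp)).hasFDerivAt.congr_of_eventuallyEq h1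
    · -- close to `q`
      rw [not_lt] at hfar
      have hτP := t1 P hP0
      have hnzP : nz P = P := by rw [nz, hPn, inv_one, one_smul]
      have hd2 : ‖P - A.q‖ ^ 2 ≤ (16 / l) ^ 2 := by
        have h1 : tau A P = ‖P - A.q‖ ^ 2 / 2 := by rw [hτP.2.2, hnzP]
        rw [h1] at hfar
        rw [div_pow, le_div_iff₀ (by positivity)]
        nlinarith
      have hd : ‖P - A.q‖ ≤ 16 / l := by
        exact (sq_le_sq₀ (norm_nonneg _) (by positivity)).1 hd2
      have hdr : ‖P - A.q‖ < r := hd.trans_lt hlr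
      have hx : l ^ 2 * tau A P ∈ Icc (0 : ℝ) 128 := ⟨mul_nonneg (sq_nonneg _) hτP.1, hfar⟩
      -- the derivative
      have d1 : HasFDerivAt (tau A) (fderiv ℝ (tau A) P) P :=
        ((hτAt P hP0).differentiableAt (by simp)).hasFDerivAt
      have d2 : HasDerivAt (cut 64 128) (deriv (cut 64 128) (l ^ 2 * tau A P))
          (l ^ 2 * tau A P) := (c1.differentiable (by simp) _).hasDerivAt
      have d3 : HasFDerivAt (fun Q => l ^ 2 * tau A Q) (l ^ 2 • fderiv ℝ (tau A) P) P :=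
        d1.const_mul _
      have d4 : HasFDerivAt ((cut 64 128) ∘ (fun Q => l ^ 2 * tau A Q))
          (deriv (cut 64 128) (l ^ 2 * tau A P) • (l ^ 2 • fderiv ℝ (tau A) P)) P :=
        HasDerivAt.comp_hasFDerivAt P d2 d3
      have d5 : HasFDerivAt (fun Q => t * cut 64 128 (l ^ 2 * tau A Q))
          (t • (deriv (cut 64 128) (l ^ 2 * tau A P) • (l ^ 2 • fderiv ℝ (tau A) P))) P :=
        d4.const_mul _
      have d6 : HasFDerivAt Δ (fderiv ℝ Δ P) P :=
        ((hΔAt P hP0).differentiableAt (by simp)).hasFDerivAt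
      have d7 : HasFDerivAt (sT T) (fderiv ℝ (sT T) P) P :=
        ((hsAt P hP0).differentiableAt (by simp)).hasFDerivAt
      set κ' := t • (deriv (cut 64 128) (l ^ 2 * tau A P) • (l ^ 2 • fderiv ℝ (tau A) P)) with hκ'
      set κ : ℝ := t * cut 64 128 (l ^ 2 * tau A P) with hκ
      have d8 : HasFDerivAt (s1 A l t)
          (fderiv ℝ (sT T) P + (κ • fderiv ℝ Δ P + κ'.smulRight (Δ P))) P := by
        have h1 := d7.add (d5.smul d6)
        refine h1.congr_of_eventuallyEq (Filter.Eventually.of_forall fun Q => ?_)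
        have h2 : (sT T + (fun Q => t * cut 64 128 (l ^ 2 * tau A Q)) • Δ) Q =
            sT T Q + (t * cut 64 128 (l ^ 2 * tau A Q)) • (Lf A Q - sT T Q) := rfl
        rw [h2, Complex.real_smul, Complex.ofReal_mul]
        rfl
      refine surj_of_unit (hhom l t) hz d8 (surj_of_close A _ (fderiv ℝ (sT T) A.q) A.ds ?_)
      have e0 : fderiv ℝ (sT T) P + (κ • fderiv ℝ Δ P + κ'.smulRight (Δ P)) -
          fderiv ℝ (sT T) A.q = (fderiv ℝ (sT T) P - fderiv ℝ (sT T) A.q) +
            (κ • fderiv ℝ Δ P + κ'.smulRight (Δ P)) := by abel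
      rw [e0]
      have ht0 : ‖t‖ ≤ 1 := by rw [Real.norm_of_nonneg ht.1]; exact ht.2
      have hκ1 : ‖κ‖ ≤ 1 := by
        rw [hκ, norm_mul, Real.norm_of_nonneg (c4 _).1]
        calc ‖t‖ * cut 64 128 (l ^ 2 * tau A P) ≤ 1 * 1 :=
              mul_le_mul ht0 (c4 _).2 (c4 _).1 zero_le_one
          _ = 1 := one_mul 1
      have e1 : ‖fderiv ℝ (sT T) P - fderiv ℝ (sT T) A.q‖ ≤ K3 * (16 / l) :=
        (bs P hdr).trans (mul_le_mul_of_nonneg_left hd hK3)
      have e2 : ‖κ • fderiv ℝ Δ P‖ ≤ K1 * (16 / l) := by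
        rw [norm_smul]
        calc ‖κ‖ * ‖fderiv ℝ Δ P‖ ≤ 1 * (K1 * (16 / l)) :=
              mul_le_mul hκ1 ((bΔ' P hdr).trans (mul_le_mul_of_nonneg_left hd hK1))
                (norm_nonneg _) zero_le_one
          _ = K1 * (16 / l) := one_mul _
      have e3 : ‖κ'‖ ≤ M * (l ^ 2 * (K2 * (16 / l))) := by
        rw [hκ', norm_smul, norm_smul, norm_smul]
        have f1 : ‖l ^ 2‖ = l ^ 2 := Real.norm_of_nonneg (sq_nonneg _)
        rw [f1]
        have f2 : ‖fderiv ℝ (tau A) P‖ ≤ K2 * (16 / l) :=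
          (bτ P hdr).trans (mul_le_mul_of_nonneg_left hd hK2)
        calc ‖t‖ * (‖deriv (cut 64 128) (l ^ 2 * tau A P)‖ * (l ^ 2 * ‖fderiv ℝ (tau A) P‖))
            ≤ 1 * (M * (l ^ 2 * (K2 * (16 / l)))) := by
              refine mul_le_mul ht0 ?_ (by positivity) zero_le_one
              refine mul_le_mul (hM _ hx) ?_ (by positivity) hM0
              exact mul_le_mul_of_nonneg_left f2 (sq_nonneg _)
          _ = M * (l ^ 2 * (K2 * (16 / l))) := one_mul _
      have e4 : ‖Δ P‖ ≤ K1 * (16 / l) * (16 / l) := by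
        refine (bΔ P hdr).trans ?_
        exact mul_le_mul (mul_le_mul_of_nonneg_left hd hK1) hd (norm_nonneg _) (by positivity)
      have e5 : ‖κ'.smulRight (Δ P)‖ ≤ M * (l ^ 2 * (K2 * (16 / l))) *
          (K1 * (16 / l) * (16 / l)) := by
        rw [ContinuousLinearMap.norm_smulRight_apply]
        exact mul_le_mul e3 e4 (norm_nonneg _) (by positivity)
      have e6 : M * (l ^ 2 * (K2 * (16 / l))) * (K1 * (16 / l) * (16 / l)) =
          4096 * K1 * K2 * M / l := by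
        field_simp
        ring
      have e7 : K3 * (16 / l) + (K1 * (16 / l) + 4096 * K1 * K2 * M / l) = KK / l := by
        rw [hKK]
        ring
      calc ‖(fderiv ℝ (sT T) P - fderiv ℝ (sT T) A.q) +
            (κ • fderiv ℝ Δ P + κ'.smulRight (Δ P))‖
          ≤ K3 * (16 / l) + (K1 * (16 / l) + 4096 * K1 * K2 * M / l) := by
            refine (norm_add_le _ _).trans (add_le_add e1 ((norm_add_le _ _).trans
              (add_le_add e2 ?_)))
            rw [← e6]
            exact e5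
        _ = KK / l := e7
        _ < A.C := hlC

end Pool.Agent.KNT
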