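import Pool.Agent.KNT.Stmts

/-!
# Squad KNT, module LNK: the algebraic knot of `f4`
-/

set_option autoImplicit false

open scoped ContDiff ComplexConjugate
open Set

namespace Pool.Agent.KNT

namespace LNK_

/-- the family -/
noncomputable def Ph (t η : ℝ) (z : C4) : ℂ :=
  (t * (nz z) 0 ^ 3 + (nz z) 1 ^ 2 + (nz z) 2 ^ 2 + (nz z) 3 ^ 2) ^ 2 - η * hb z

theorem nz_smul (r : ℝ) (hr : 0 < r) (z : C4) : nz (r • z) = nz z := by
  unfold nz
  rw [norm_smul, Real.norm_of_nonneg hr.le, smul_smul, mul_inv]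
  congr 1
  field_simp

theorem nz_contDiffAt (z : C4) (hz : z ≠ 0) : ContDiffAt ℝ ∞ (nz : C4 → C4) z := by
  unfold nz
  exact ((contDiffAt_norm ℝ hz).inv (norm_ne_zero_iff.2 hz)).smul contDiffAt_id

/-- coordinate projection -/
noncomputable def pr (i : Fin 4) : C4 →L[ℝ] ℂ :=
  (EuclideanSpace.proj i : C4 →L[ℂ] ℂ).restrictScalars ℝ

theorem coord_contDiffAt (p : ℝ × C4) (hp : p.2 ≠ 0) (i : Fin 4) :
    ContDiffAt ℝ ∞ (fun q : ℝ × C4 => (nz q.2) i) p := by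
  have h1 : ContDiffAt ℝ ∞ (fun q : ℝ × C4 => nz q.2) p :=
    (nz_contDiffAt p.2 hp).comp p contDiffAt_snd
  exact (pr i).contDiff.contDiffAt.comp p h1

theorem Ph_contDiffAt (a b : ℝ → ℝ) (ha : ContDiff ℝ ∞ a) (hb' : ContDiff ℝ ∞ b) (p : ℝ × C4)
    (hp : p.2 ≠ 0) : ContDiffAt ℝ ∞ (fun q : ℝ × C4 => Ph (a q.1) (b q.1) q.2) p := by
  have c := coord_contDiffAt p hp
  have ca : ContDiffAt ℝ ∞ (fun q : ℝ × C4 => ((a q.1 : ℝ) : ℂ)) p :=
    Complex.ofRealCLM.contDiff.contDiffAt.comp p (ha.contDiffAt.comp p contDiffAt_fst)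
  have cb : ContDiffAt ℝ ∞ (fun q : ℝ × C4 => ((b q.1 : ℝ) : ℂ)) p :=
    Complex.ofRealCLM.contDiff.contDiffAt.comp p (hb'.contDiffAt.comp p contDiffAt_fst)
  unfold Ph hb h4
  exact (((((ca.mul ((c 0).pow 3)).add ((c 1).pow 2)).add ((c 2).pow 2)).add
    ((c 3).pow 2)).pow 2).sub (cb.mul (((contDiffAt_const.mul ((c 1).pow 6)).add
    (contDiffAt_const.mul ((c 2).pow 6))).add ((c 3).pow 6)))

theorem Ph_hom (t η r : ℝ) (hr : 0 < r) (z : C4) : Ph t η (r • z) = Ph t η z := by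
  unfold Ph hb
  rw [nz_smul r hr]

theorem Ph_sfun (t η : ℝ) : SFun (Ph t η) := by
  refine ⟨fun r hr z => Ph_hom t η r hr z, fun z hz => ?_⟩
  have hz' : z ≠ 0 := hz
  have h1 := Ph_contDiffAt (fun _ => t) (fun _ => η) contDiff_const contDiff_const (0, z) hz'
  have h2 : ContDiffAt ℝ ∞ (fun x : C4 => ((0 : ℝ), x)) z := contDiffAt_const.prodMk contDiffAt_id
  have h3 : ContDiffAt ℝ ∞ (fun x : C4 => Ph t η x) z := h1.comp z h2
  exact h3.contDiffWithinAt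

theorem link_eq (ε : ℝ) : linkFun f4 ε = fun z => ((ε : ℂ) ^ 4) * Ph ε (ε ^ 2) z := by
  funext z
  have e : (ε / ‖z‖) • z = ε • nz z := by
    unfold nz
    rw [smul_smul, div_eq_mul_inv]
  have c : ∀ i : Fin 4, (ε • nz z : C4) i = (ε : ℂ) * (nz z) i := by
    intro i
    rw [PiLp.smul_apply, Complex.real_smul]
  unfold linkFun f4 g4 h4 Ph hb h4
  rw [e, c, c, c, c]
  push_cast
  ring

theorem final_eq (η : ℝ) : (fun z : C4 => gb z ^ 2 - η * hb z) = Ph 1 η := by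
  funext z
  unfold Ph gb g4
  push_cast
  ring

end LNK_

open LNK_ in
/-- LNK. -/
theorem lnk_proof (hO2R : Stmt_O2R) (_hHRG : Stmt_HRG) (hPFM : Stmt_PFM) (hISR : Stmt_ISR)
    (hIST : Stmt_IST) (hSAT : Stmt_SAT) : Stmt_LNK := by
  obtain ⟨η₀, h0, hreg⟩ := hO2R
  have hreg' : ∀ t η : ℝ, 0 < t → 0 < η → η ≤ η₀ → Reg (Ph t η) := hreg
  refine ⟨η₀, h0, fun η hη hη0 => ?_⟩
  rw [final_eq]
  refine ⟨⟨Ph_sfun 1 η, hreg' 1 η one_pos hη hη0⟩, min 1 (√η₀), lt_min one_pos (Real.sqrt_pos.2 h0),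
    fun ε hε hε0 => ?_⟩
  have hε1 : ε < 1 := lt_of_lt_of_le hε0 (min_le_left _ _)
  have hε2 : ε ^ 2 ≤ η₀ := by
    have h1 : ε < √η₀ := lt_of_lt_of_le hε0 (min_le_right _ _)
    calc ε ^ 2 ≤ (√η₀) ^ 2 := by gcongr
      _ = η₀ := Real.sq_sqrt h0.le
  have hεc : ((ε : ℂ) ^ 4) ≠ 0 := by
    have : (ε : ℂ) ≠ 0 := by exact_mod_cast hε.ne'
    exact pow_ne_zero _ this
  -- the link function and `Ph ε ε²`
  have hS : ∀ z : C4, z ≠ 0 → SameAt (linkFun f4 ε) (Ph ε (ε ^ 2)) z := by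
    intro z hz
    obtain ⟨_, hsymm, _, _, _, hlast⟩ := hSAT C4
    apply hsymm
    rw [link_eq]
    have hd : DifferentiableAt ℝ (Ph ε (ε ^ 2)) z :=
      (((Ph_sfun ε (ε ^ 2)).smooth.contDiffAt
        (isOpen_compl_singleton.mem_nhds hz)).differentiableAt (by simp))
    exact hlast _ _ (fun _ => (ε : ℂ) ^ 4) z hd (differentiableAt_const _) hεc
      (Filter.Eventually.of_forall fun _ => rfl)
  have hsf : SFun (linkFun f4 ε) := by
    rw [link_eq]
    refine ⟨fun r hr z => ?_, ?_⟩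
    · change (ε : ℂ) ^ 4 * Ph ε (ε ^ 2) (r • z) = (ε : ℂ) ^ 4 * Ph ε (ε ^ 2) z
      rw [Ph_hom _ _ r hr]
    · exact contDiffOn_const.mul (Ph_sfun ε (ε ^ 2)).smooth
  refine ⟨⟨hsf, ?_⟩, ?_⟩
  · intro z hz h
    have hr := hreg' ε (ε ^ 2) hε (by positivity) hε2 z hz
    have hz0 : Ph ε (ε ^ 2) z = 0 := by
      rw [link_eq] at h
      exact (mul_eq_zero.1 h).resolve_left hεc
    have hs := hr hz0
    have hd : DifferentiableAt ℝ (Ph ε (ε ^ 2)) z :=
      (((Ph_sfun ε (ε ^ 2)).smooth.contDiffAt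
        (isOpen_compl_singleton.mem_nhds hz)).differentiableAt (by simp))
    have e : ∀ v, fderiv ℝ (linkFun f4 ε) z v = (ε : ℂ) ^ 4 * fderiv ℝ (Ph ε (ε ^ 2)) z v := by
      intro v
      rw [link_eq]
      have h1 : HasFDerivAt (fun z => ((ε : ℂ) ^ 4) * Ph ε (ε ^ 2) z)
          (((ε : ℂ) ^ 4) • fderiv ℝ (Ph ε (ε ^ 2)) z) z := hd.hasFDerivAt.const_mul _
      rw [h1.fderiv]
      rfl
    intro w
    obtain ⟨v, hv⟩ := hs (((ε : ℂ) ^ 4)⁻¹ * w)
    refine ⟨v, ?_⟩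
    rw [e, hv, mul_inv_cancel_left₀ hεc]
  · have i1 : Isotopic (linkFun f4 ε) (Ph ε (ε ^ 2)) := hISR C4 _ _ fun z _ hz => hS z hz
    let a : ℝ → ℝ := fun s => ε + s * (1 - ε)
    let b : ℝ → ℝ := fun s => ε ^ 2 + s * (η - ε ^ 2)
    have hfam : SFam (fun s => Ph (a s) (b s)) := by
      refine ⟨fun t r hr z => Ph_hom _ _ r hr z, fun p hp => ?_⟩
      have ha : ContDiff ℝ ∞ a := by
        simp only [a]
        fun_prop
      have hb' : ContDiff ℝ ∞ b := by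
        simp only [b]
        fun_prop
      exact (Ph_contDiffAt a b ha hb' p hp).contDiffWithinAt
    have hpath := hPFM C4 (fun s => Ph (a s) (b s)) hfam (by
      intro s hs
      apply hreg'
      · simp only [a]
        nlinarith [hs.1, hs.2]
      · simp only [b]
        have h1 : ε ^ 2 + s * (η - ε ^ 2) = (1 - s) * ε ^ 2 + s * η := by ring
        rw [h1]
        rcases eq_or_lt_of_le hs.1 with h | h
        · rw [← h]
          simp only [sub_zero, one_mul, zero_mul, add_zero]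
          positivity
        · have : 0 ≤ (1 - s) * ε ^ 2 := mul_nonneg (by linarith [hs.2]) (by positivity)
          have : 0 < s * η := mul_pos h hη
          linarith
      · simp only [b]
        have h1 : ε ^ 2 + s * (η - ε ^ 2) = (1 - s) * ε ^ 2 + s * η := by ring
        rw [h1]
        have h2 : (1 - s) * ε ^ 2 ≤ (1 - s) * η₀ :=
          mul_le_mul_of_nonneg_left hε2 (by linarith [hs.2])
        have h3 : s * η ≤ s * η₀ := mul_le_mul_of_nonneg_left hη0 hs.1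
        linarith)
    have ea : a 0 = ε := by simp [a]
    have eb : b 0 = ε ^ 2 := by simp [b]
    have ea1 : a 1 = 1 := by simp [a]
    have eb1 : b 1 = η := by simp [b]
    simp only [ea, eb, ea1, eb1] at hpath
    exact hIST C4 _ _ _ hsf (Ph_sfun _ _) (Ph_sfun _ _) i1 hpath

end Pool.Agent.KNT
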