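import Pool.Agent.KNT.Stmts

/-!
# Squad KNT, module MAIN: assembly
-/

set_option autoImplicit false

open scoped ContDiff ComplexConjugate
open Set Filter Topology Metric

namespace Pool.Agent.KNT

namespace MAIN_

theorem sfam_const {V : Type} [NormedAddCommGroup V] [NormedSpace ℝ V] {S : V → ℂ} (h : SFun S) :
    SFam (fun _ : ℝ => S) := by
  refine ⟨fun _ r hr z => h.hom r hr z, ?_⟩
  exact h.smooth.comp contDiff_snd.contDiffOn (fun p hp => hp)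

theorem sfun_of {V : Type} [NormedAddCommGroup V] [NormedSpace ℝ V] {Φ : ℝ → V → ℂ} (h : SFam Φ)
    (t : ℝ) : SFun (Φ t) := by
  refine ⟨fun r hr z => h.hom t r hr z, ?_⟩
  have h1 : ContDiffOn ℝ ∞ (fun z : V => ((t, z) : ℝ × V)) {0}ᶜ :=
    (contDiff_const.prodMk contDiff_id).contDiffOn
  exact h.smooth.comp h1 (fun z hz => hz)

theorem bf_sfun (hBFR : Stmt_BFR) (hTFS : Stmt_TFS) (T : Tube) (η : ℝ) (S : C3 → ℂ)
    (h : IsKnot S) : SFun (TF T (BF T η S)) := by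
  have h1 := (hBFR T (fun _ => S) (sfam_const h.toSFun) (fun _ _ => h.reg)).1 η
  exact sfun_of (hTFS T _ h1) 0

end MAIN_

open MAIN_ in
theorem main_proof (hISO : Stmt_ISO) (hLNK : Stmt_LNK) (hSTT : Stmt_STT) (hSTS : Stmt_STS)
    (hSTC : Stmt_STC) (hORI : Stmt_ORI) (hKNF : Stmt_KNF) (hCSA : Stmt_CSA) (hCSB : Stmt_CSB)
    (hNTA : Stmt_NTA) (hNTB : Stmt_NTB) (hTOP : Stmt_TOP) (hTUB : Stmt_TUB) (hFRE : Stmt_FRE)
    (hSRG : Stmt_SRG) (hTFS : Stmt_TFS) (_hTFR : Stmt_TFR) (hIST : Stmt_IST) (_hSAT : Stmt_SAT)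
    (hBFR : Stmt_BFR) (_hGRG : Stmt_GRG) : Stmt_MAIN := by
  refine ⟨hISO, ?_⟩
  obtain ⟨T⟩ := hTUB
  obtain ⟨A⟩ := hFRE T
  obtain ⟨lS, hlS, hS⟩ := hSTS T A
  obtain ⟨l1, hl1, hN1⟩ := hNTB T A 1 (Or.inl rfl)
  obtain ⟨l2, hl2, hN2⟩ := hNTB T A (-1) (Or.inr rfl)
  set l := max lS (max l1 l2) with hl
  have hlS' : lS ≤ l := le_max_left _ _
  have hl1' : l1 ≤ l := (le_max_left _ _).trans (le_max_right _ _)
  have hl2' : l2 ≤ l := (le_max_right _ _).trans (le_max_right _ _)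
  have hl2 : 2 ≤ l := hlS.trans hlS'
  obtain ⟨hs2, ηS, hηS, hηS'⟩ := hS l hlS'
  obtain ⟨ε, hε, hEmb⟩ := hORI T A l hl2
  obtain ⟨ηN, hηN, hηN'⟩ : ∃ η₁ : ℝ, 0 < η₁ ∧ ∀ η, 0 < η → η < η₁ →
      ¬ TopTrivial (FF2 A ε l η) := by
    rcases hε with h | h
    · subst h; exact hN1 l hl1'
    · subst h; exact hN2 l hl2'
  obtain ⟨ηC, hηC, hηC'⟩ := hSTC T A l hl2 hs2
  obtain ⟨ηK, hηK, hηK'⟩ := hKNF T A ε l hl2 hε hs2
  obtain ⟨ηT, hηT, hηT'⟩ := hSTT T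
  obtain ⟨ηL, hηL, hηL'⟩ := hLNK
  obtain ⟨η, hη, h1, h2, h3, h4, h5, h6⟩ : ∃ η : ℝ, 0 < η ∧ η < ηS ∧ η < ηN ∧ η < ηC ∧ η < ηK ∧
      η < ηT ∧ η < ηL := by
    refine ⟨min ηS (min ηN (min ηC (min ηK (min ηT ηL)))) / 2, by positivity, ?_⟩
    have hm : 0 < min ηS (min ηN (min ηC (min ηK (min ηT ηL)))) := by positivity
    have e := half_lt_self hm
    simp only [lt_min_iff] at e
    exact e
  obtain ⟨hK, hK1, hK2⟩ := hηK' η hη h4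
  obtain ⟨hb1, hb2, hb3⟩ := hCSA T A ε l η hl2 hε hη hs2
  have hb4 := hCSB T A ε l η hl2 hε hη hs2
  have hn1 := hNTA T A l η hl2 hK1
  have hn2 := hηN' η hη h2
  refine ⟨FF A l η, FF1 A l η, FF2 A ε l η, hK, hK1, hK2, ?_, ?_, hn1, hn2,
    fun h => hn1 (hTOP 3 _ h), fun h => hn2 (hTOP 3 _ h)⟩
  · obtain ⟨hL0, ε₀, hε₀, hL⟩ := hηL' η hη h6.le
    refine ⟨ε₀, hε₀, fun ε' he1 he2 => ?_⟩
    obtain ⟨hk, hi⟩ := hL ε' he1 he2
    refine ⟨hk, ?_⟩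
    have s1 : SFun (TF T (BF T η (sT T))) := bf_sfun hBFR hTFS T η _ (hSRG T)
    have s2 : SFun (TF T (BF T η (s2 A l))) := bf_sfun hBFR hTFS T η _ hs2
    have i1 := hηT' η hη h5
    have i2 := (hηS' η hη h1).2
    have i3 := hηC' η hη h3
    have j1 := hIST _ _ _ _ hk.toSFun hL0.toSFun s1 hi i1
    have j2 := hIST _ _ _ _ hk.toSFun s1 s2 j1 i2
    exact hIST _ _ _ _ hk.toSFun s2 hK.toSFun j2 i3
  · exact ⟨1 / 5, by norm_num, by norm_num, em A ε l, hEmb, hb1, hb2, hb3, hb4⟩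

end Pool.Agent.KNT
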