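import Pool.Agent.KNT.Stmts

/-!
# Squad KNT, module NT1: a knot whose defining function is `g²` for `|g| ≥ 1/20` is nontrivial
-/

set_option autoImplicit false

open scoped ContDiff ComplexConjugate
open Set Filter Topology Metric

namespace Pool.Agent.KNT

/-- the weighted rotation `(x, y) ↦ (c² x, c³ y)` -/
noncomputable def NT1_rot (c : ℂ) (z : C4) : C4 :=
  !₂[c ^ 2 * z 0, c ^ 3 * z 1, c ^ 3 * z 2, c ^ 3 * z 3]

theorem NT1_rot_one (z : C4) : NT1_rot 1 z = z := by
  ext i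
  fin_cases i <;> simp [NT1_rot]

theorem NT1_rot_norm (c : ℂ) (hc : ‖c‖ = 1) (z : C4) : ‖NT1_rot c z‖ = ‖z‖ := by
  rw [EuclideanSpace.norm_eq, EuclideanSpace.norm_eq]
  congr 1
  simp [Fin.sum_univ_four, NT1_rot, hc]

theorem NT1_rot_g4 (c : ℂ) (z : C4) : g4 (NT1_rot c z) = c ^ 6 * g4 z := by
  simp [g4, NT1_rot]
  ring

theorem NT1_rot_cont (s : Set R4) (c : R4 → ℂ) (j : R4 → C4) (hc : ContinuousOn c s)
    (hj : ContinuousOn j s) : ContinuousOn (fun x => NT1_rot (c x) (j x)) s := by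
  unfold NT1_rot
  have hji : ∀ i, ContinuousOn (fun x => j x i) s := fun i =>
    (EuclideanSpace.proj (𝕜 := ℂ) i).continuous.comp_continuousOn hj
  apply (PiLp.continuous_toLp 2 _).comp_continuousOn
  apply continuousOn_pi.2
  intro i
  fin_cases i
  · exact (hc.pow 2).mul (hji 0)
  · exact (hc.pow 3).mul (hji 1)
  · exact (hc.pow 3).mul (hji 2)
  · exact (hc.pow 3).mul (hji 3)

theorem NT1_g4_cont : Continuous g4 := by
  unfold g4
  have hji : ∀ i, Continuous (fun z : C4 => z i) := fun i =>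
    (EuclideanSpace.proj (𝕜 := ℂ) i).continuous
  exact ((((hji 0).pow 3).add ((hji 1).pow 2)).add ((hji 2).pow 2)).add ((hji 3).pow 2)

theorem NT1_i1_cont : Continuous i1 := by
  unfold i1
  have hji : ∀ i, Continuous (fun x : R4 => x i) := fun i =>
    (EuclideanSpace.proj (𝕜 := ℝ) i).continuous
  apply (PiLp.continuous_toLp 2 _).comp
  apply continuous_pi
  intro i
  fin_cases i
  · exact (Complex.continuous_ofReal.comp ((hji 0).max continuous_const)).add
      ((Complex.continuous_ofReal.comp ((hji 0).neg.max continuous_const)).mul continuous_const)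
  · exact Complex.continuous_ofReal.comp (hji 1)
  · exact Complex.continuous_ofReal.comp (hji 2)
  · exact Complex.continuous_ofReal.comp (hji 3)

theorem NT1_nz_unit (z : C4) (hz : ‖z‖ = 1) : nz z = z := by
  unfold nz
  rw [hz]; simp

/-- the reflection `(v₀, -v₁, -v₂, -v₃)` -/
noncomputable def NT1_L : R4 ≃ₗᵢ[ℝ] R4 :=
  LinearIsometryEquiv.piLpCongrRight 2 (fun i : Fin 4 =>
    if i = 0 then LinearIsometryEquiv.refl ℝ ℝ else LinearIsometryEquiv.neg ℝ)

theorem NT1_L_apply (v : R4) : -(NT1_L v) = !₂[-(v 0), v 1, v 2, v 3] := by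
  ext i
  fin_cases i <;> simp [NT1_L]

theorem NT1_sphere_const (θ : R4 → ℝ) (hθ : ContinuousOn θ (sphere 0 1))
    (h : ∀ v ∈ sphere (0 : R4) 1, ∃ n : ℤ, θ v = n * (2 * Real.pi)) :
    ∃ m : ℤ, ∀ v ∈ sphere (0 : R4) 1, θ v = m * (2 * Real.pi) := by
  have hpi : (2 * Real.pi) ≠ 0 := by positivity
  have hconn : IsPreconnected (sphere (0 : R4) 1) := by
    apply isPreconnected_sphere
    rw [← Module.finrank_eq_rank ℝ R4, finrank_euclideanSpace]
    norm_cast
  have hφ : ContinuousOn (fun v => θ v / (2 * Real.pi)) (sphere (0 : R4) 1) :=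
    hθ.div_const _
  have hmaps : MapsTo (fun v => θ v / (2 * Real.pi)) (sphere (0 : R4) 1)
      (range ((↑) : ℤ → ℝ)) := by
    intro v hv
    obtain ⟨n, hn⟩ := h v hv
    exact ⟨n, by simp only [hn]; field_simp⟩
  have hdisc : IsDiscrete (range ((↑) : ℤ → ℝ)) :=
    Int.isClosedEmbedding_coe_real.isEmbedding.isInducing.isDiscrete_range
  have he : (EuclideanSpace.single 0 1 : R4) ∈ sphere (0 : R4) 1 := by simp
  obtain ⟨m, hm⟩ := h _ he
  refine ⟨m, fun v hv => ?_⟩
  have h1 := hconn.constant_of_mapsTo hdisc hφ hmaps hv he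
  rw [hm] at h1
  field_simp at h1
  linarith

theorem nt1_proof (hEXT : Stmt_EXT) (hLGB : Stmt_LGB) (hCOL : Stmt_COL) (hBRW : Stmt_BRW) :
    Stmt_NT1 := by
  intro F hFc hFg hTT
  obtain ⟨τ, hτc, hτn, hτe, hτi⟩ := hCOL
  -- the sphere `i1`
  have hi1 : ∀ v ∈ sphere (0 : R4) 1, ‖i1 v‖ = 1 ∧ F (i1 v) = g4 (i1 v) ^ 2 ∧
      (g4 (i1 v)).im = 0 ∧ 1 / 20 ≤ (g4 (i1 v)).re := by
    intro v hv
    obtain ⟨⟨h1, h2, h3⟩, -⟩ := hτi v hv
    refine ⟨h1, ?_, h2, h3⟩
    have hgb : gb (i1 v) = g4 (i1 v) := by unfold gb; rw [NT1_nz_unit _ h1]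
    have hne : i1 v ≠ 0 := by
      intro h0; rw [h0] at h1; simp at h1
    have := hFg (i1 v) hne (by
      rw [hgb]
      exact h3.trans (Complex.re_le_norm _))
    rw [this, hgb]
  have hFne : ∀ v ∈ sphere (0 : R4) 1, ‖i1 v‖ = 1 ∧ F (i1 v) ≠ 0 := by
    intro v hv
    obtain ⟨h1, h2, h3, h4⟩ := hi1 v hv
    refine ⟨h1, ?_⟩
    rw [h2]
    apply pow_ne_zero
    intro h0
    rw [h0] at h4
    norm_num at h4
  obtain ⟨j, hjc, hj, hji⟩ := hEXT F hTT i1 NT1_i1_cont.continuousOn hFne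
  have hjne : ∀ v ∈ closedBall (0 : R4) 1, j v ≠ 0 := by
    intro v hv h0
    have := (hj v hv).1
    rw [h0] at this; simp at this
  have hFj : ContinuousOn (fun x => F (j x)) (closedBall 0 1) :=
    hFc.comp hjc (fun v hv => by simpa using hjne v hv)
  obtain ⟨L, hLc, hL⟩ := hLGB R4 (fun x => F (j x)) hFj (fun x hx => (hj x hx).2)
  have hsub : sphere (0 : R4) 1 ⊆ closedBall 0 1 := sphere_subset_closedBall
  have him : ContinuousOn (fun x => (L x).im) (closedBall (0 : R4) 1) :=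
    Complex.continuous_im.comp_continuousOn hLc
  obtain ⟨m, hm⟩ := NT1_sphere_const (fun x => (L x).im) (him.mono hsub) (by
    intro v hv
    have h1 := hL v (hsub hv)
    simp only [hji v hv] at h1
    obtain ⟨-, h2, h3, h4⟩ := hi1 v hv
    have h5 : g4 (i1 v) = ((g4 (i1 v)).re : ℂ) := by
      apply Complex.ext <;> simp [h3]
    have hpos : 0 < (g4 (i1 v)).re := by linarith
    have h6 : Complex.exp (L v) = Complex.exp ((Real.log ((g4 (i1 v)).re ^ 2) : ℝ) : ℂ) := by
      rw [h1, h2, h5, ← Complex.ofReal_exp, Real.exp_log (by positivity)]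
      simp
    obtain ⟨n, hn⟩ := Complex.exp_eq_exp_iff_exists_int.1 h6
    refine ⟨n, ?_⟩
    have := congrArg Complex.im hn
    simpa using this)
  -- the rotation
  set θ : R4 → ℝ := fun x => (L x).im - m * (2 * Real.pi) with hθ
  have hθc : ContinuousOn θ (closedBall (0 : R4) 1) := him.sub continuousOn_const
  set c : R4 → ℂ := fun x => Complex.exp (-(θ x / 12 : ℝ) * Complex.I) with hc
  have hcn : ∀ x, ‖c x‖ = 1 := by
    intro x
    have : c x = Complex.exp ((-(θ x / 12) : ℝ) * Complex.I) := by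
      rw [hc]; push_cast; ring_nf
    rw [this, Complex.norm_exp_ofReal_mul_I]
  have hcc : ContinuousOn c (closedBall (0 : R4) 1) := by
    rw [hc]
    apply Complex.continuous_exp.comp_continuousOn
    apply ContinuousOn.mul _ continuousOn_const
    apply ContinuousOn.neg
    exact Complex.continuous_ofReal.comp_continuousOn (hθc.div_const _)
  have hc12 : ∀ x ∈ closedBall (0 : R4) 1, c x ^ 12 * F (j x) = (‖F (j x)‖ : ℂ) := by
    intro x hx
    have h1 := hL x hx
    have h2 : c x ^ 12 = Complex.exp (-((L x).im * Complex.I)) := by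
      rw [hc]
      simp only
      rw [← Complex.exp_nat_mul]
      have : ((12 : ℕ) : ℂ) * (-((θ x / 12 : ℝ) : ℂ) * Complex.I) =
          -((L x).im * Complex.I) + m * (2 * Real.pi * Complex.I) := by
        rw [hθ]; push_cast; ring
      rw [this, Complex.exp_add, Complex.exp_int_mul_two_pi_mul_I, mul_one]
    rw [h2, ← h1, ← Complex.exp_add, Complex.norm_exp]
    have h3 : -((L x).im * Complex.I) + L x = ((L x).re : ℂ) := by
      apply Complex.ext <;> simp
    rw [h3, Complex.ofReal_exp]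
  set z' : R4 → C4 := fun x => NT1_rot (c x) (j x) with hz'
  have hz'c : ContinuousOn z' (closedBall (0 : R4) 1) := NT1_rot_cont _ _ _ hcc hjc
  have hz'n : ∀ x ∈ closedBall (0 : R4) 1, ‖z' x‖ = 1 := by
    intro x hx
    rw [hz']
    simp only
    rw [NT1_rot_norm _ (hcn x), (hj x hx).1]
  have hz'D : ∀ x ∈ closedBall (0 : R4) 1, 1 / 20 ≤ (g4 (z' x)).re → z' x ∈ Dτ := by
    intro x hx h20
    refine ⟨hz'n x hx, ?_, h20⟩
    have h1 : 1 / 20 ≤ ‖g4 (z' x)‖ := h20.trans (Complex.re_le_norm _)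
    have h2 : g4 (z' x) = c x ^ 6 * g4 (j x) := NT1_rot_g4 _ _
    have h3 : 1 / 20 ≤ ‖gb (j x)‖ := by
      rw [h2, norm_mul, norm_pow, hcn x, one_pow, one_mul] at h1
      unfold gb
      rw [NT1_nz_unit _ (hj x hx).1]
      exact h1
    have h4 := hFg (j x) (hjne x hx) h3
    have h5 : gb (j x) = g4 (j x) := by unfold gb; rw [NT1_nz_unit _ (hj x hx).1]
    have h6 : g4 (z' x) ^ 2 = (‖F (j x)‖ : ℂ) := by
      rw [← hc12 x hx, h2, h4, h5]; ring
    have h7 : (g4 (z' x) ^ 2).im = 0 := by rw [h6]; simp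
    have h8 : (g4 (z' x) ^ 2).im = 2 * (g4 (z' x)).re * (g4 (z' x)).im := by
      rw [pow_two, Complex.mul_im]; ring
    rw [h8] at h7
    have : (g4 (z' x)).re ≠ 0 := by linarith
    rcases mul_eq_zero.1 h7 with h | h
    · exact absurd (by linarith : (g4 (z' x)).re = 0) this
    · exact h
  have hg' : ContinuousOn (fun x => (g4 (z' x)).re) (closedBall (0 : R4) 1) :=
    (Complex.continuous_re.comp NT1_g4_cont).comp_continuousOn hz'c
  classical
  set t : R4 → R4 := fun x => if 1 / 20 ≤ (g4 (z' x)).re then τ (z' x) else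
    EuclideanSpace.single 0 1 with ht
  have htA : ContinuousOn t (closedBall (0 : R4) 1 ∩ {x | 1 / 20 ≤ (g4 (z' x)).re}) := by
    have h1 : ContinuousOn (fun x => τ (z' x))
        (closedBall (0 : R4) 1 ∩ {x | 1 / 20 ≤ (g4 (z' x)).re}) :=
      hτc.comp (hz'c.mono inter_subset_left) (fun x hx => hz'D x hx.1 hx.2)
    refine h1.congr (fun x hx => ?_)
    have hx2 : 1 / 20 ≤ (g4 (z' x)).re := hx.2
    simp only [ht]
    rw [if_pos hx2]
  have htB : ContinuousOn t (closedBall (0 : R4) 1 ∩ {x | (g4 (z' x)).re ≤ 1 / 20}) := by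
    refine (continuousOn_const (c := (EuclideanSpace.single 0 1 : R4))).congr (fun x hx => ?_)
    simp only [ht]
    split_ifs with h
    · exact hτe _ (hz'D x hx.1 h) (hx.2.trans (by norm_num))
    · rfl
  have hclA : IsClosed (closedBall (0 : R4) 1 ∩ {x | 1 / 20 ≤ (g4 (z' x)).re}) :=
    hg'.preimage_isClosed_of_isClosed isClosed_closedBall isClosed_Ici
  have hclB : IsClosed (closedBall (0 : R4) 1 ∩ {x | (g4 (z' x)).re ≤ 1 / 20}) :=
    hg'.preimage_isClosed_of_isClosed isClosed_closedBall isClosed_Iic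
  have htc : ContinuousOn t (closedBall (0 : R4) 1) := by
    have h1 := htA.union_of_isClosed htB hclA hclB
    refine h1.mono (fun x hx => ?_)
    rcases le_total (1 / 20) (g4 (z' x)).re with h | h
    · exact Or.inl ⟨hx, h⟩
    · exact Or.inr ⟨hx, h⟩
  have htn : ∀ x ∈ closedBall (0 : R4) 1, ‖t x‖ = 1 := by
    intro x hx
    simp only [ht]
    split_ifs with h
    · exact hτn _ (hz'D x hx h)
    · simp
  obtain ⟨x, hx, hxt⟩ := hBRW R4 t NT1_L htc htn
  have hxs : x ∈ sphere (0 : R4) 1 := by simpa using hx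
  have hc1 : c x = 1 := by
    have : θ x = 0 := by
      rw [hθ]; simp only
      rw [hm x hxs]; ring
    rw [hc]; simp only; rw [this]; simp
  have hzx : z' x = i1 x := by
    rw [hz']; simp only; rw [hc1, NT1_rot_one, hji x hxs]
  have htx : t x = τ (i1 x) := by
    simp only [ht]
    rw [hzx, if_pos (hi1 x hxs).2.2.2]
  exact (hτi x hxs).2 (by rw [← htx, hxt, NT1_L_apply])

end Pool.Agent.KNT
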