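import Pool.Agent.KNT.Stmts

set_option autoImplicit false

open scoped ContDiff ComplexConjugate
open Set Metric

namespace Pool.Agent.KNT

namespace NT2_

/-- if `c` is continuous on the sphere and bounded there, then `x ↦ ‖x‖ c(x/‖x‖)` is continuous on
the ball -/
theorem cone_cont {W V : Type} [NormedAddCommGroup W] [NormedSpace ℝ W] [NormedAddCommGroup V]
    [NormedSpace ℝ V] (c : W → V) (hc : ContinuousOn c (sphere 0 1))
    (hb : ∀ v ∈ sphere (0 : W) 1, ‖c v‖ = 1) :
    ContinuousOn (fun x : W => ‖x‖ • c (nz x)) (closedBall 0 1) := by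
  intro x _
  by_cases hx : x = 0
  · subst hx
    have h0 : ‖(0 : W)‖ • c (nz 0) = 0 := by rw [norm_zero, zero_smul]
    refine ContinuousAt.continuousWithinAt ?_
    rw [ContinuousAt, h0]
    refine squeeze_zero_norm (a := fun y : W => ‖y‖) (fun y => ?_) ?_
    · by_cases hy : y = 0
      · subst hy
        rw [norm_zero, zero_smul, norm_zero]
      · have h1 : nz y ∈ sphere (0 : W) 1 := by
          rw [mem_sphere_zero_iff_norm, nz, norm_smul, norm_inv, norm_norm,
            inv_mul_cancel₀ (norm_ne_zero_iff.2 hy)]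
        rw [norm_smul, hb _ h1, mul_one, norm_norm]
    · have := (continuous_norm (E := W)).tendsto 0
      rwa [norm_zero] at this
  · refine ContinuousAt.continuousWithinAt ?_
    have h2 : ContinuousAt (fun y : W => nz y) x := by
      unfold nz
      exact (continuousAt_id.norm.inv₀ (norm_ne_zero_iff.2 hx)).smul continuousAt_id
    have h3 : ∀ᶠ y : W in nhds x, nz y ∈ sphere (0 : W) 1 := by
      filter_upwards [isOpen_ne.mem_nhds hx] with y hy
      rw [mem_sphere_zero_iff_norm, nz, norm_smul, norm_inv, norm_norm,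
        inv_mul_cancel₀ (norm_ne_zero_iff.2 hy)]
    have h4 : Filter.Tendsto (fun y : W => nz y) (nhds x) (nhdsWithin (nz x) (sphere 0 1)) :=
      tendsto_nhdsWithin_iff.2 ⟨h2, h3⟩
    have h5 : ContinuousAt (fun y : W => c (nz y)) x := (hc (nz x) h3.self_of_nhds).tendsto.comp h4
    exact continuousAt_id.norm.smul h5

theorem norm_nz {W : Type} [NormedAddCommGroup W] [NormedSpace ℝ W] {x : W} (hx : x ≠ 0) :
    ‖nz x‖ = 1 := by
  rw [nz, norm_smul, norm_inv, norm_norm, inv_mul_cancel₀ (norm_ne_zero_iff.2 hx)]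

theorem cont_nz {W : Type} [NormedAddCommGroup W] [NormedSpace ℝ W] :
    ContinuousOn (fun x : W => nz x) {0}ᶜ := by
  intro x hx
  refine ContinuousAt.continuousWithinAt ?_
  exact (continuousAt_id.norm.inv₀ (norm_ne_zero_iff.2 hx)).smul continuousAt_id

end NT2_

open NT2_ in
theorem nt2_proof (hBRW : Stmt_BRW) : Stmt_NT2 := by
  intro F hNP s B L hs hs1 hB hB0 hpos htriv
  obtain ⟨h, h', hc, hc', hn, hn', hl, hr, hz⟩ := htriv
  have hNP1 : ‖NP‖ = 1 := by
    rw [NP, EuclideanSpace.norm_single, norm_one]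
  have hNP0 : NP ≠ 0 := by
    intro h0; rw [h0, norm_zero] at hNP1; exact zero_ne_one hNP1
  have h01 : ∀ {z : C4}, ‖z‖ = 1 → z ≠ 0 := fun hz0 h0 => by
    rw [h0, norm_zero] at hz0; exact zero_ne_one hz0
  -- the cone
  have hsc : ContinuousOn (fun v : R3 => h (s v)) (sphere 0 1) :=
    hc.comp hs fun v hv => h01 (hs1 v hv).1
  have hsn : ∀ v ∈ sphere (0 : R3) 1, ‖h (s v)‖ = 1 := fun v hv => by rw [hn]; exact (hs1 v hv).1
  have hw : ContinuousOn (fun x : R3 => ‖x‖ • h (s (nz x)) - (1 - ‖x‖) • h NP) (closedBall 0 1) :=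
    (cone_cont _ hsc hsn).sub
      ((continuous_const.sub continuous_norm).smul continuous_const).continuousOn
  have hw0 : ∀ x ∈ closedBall (0 : R3) 1, ‖x‖ • h (s (nz x)) - (1 - ‖x‖) • h NP ≠ 0 := by
    intro x hx h0
    have hx1 : ‖x‖ ≤ 1 := mem_closedBall_zero_iff.1 hx
    by_cases hx0 : x = 0
    · rw [hx0, norm_zero, zero_smul, sub_zero, one_smul, zero_sub, neg_eq_zero] at h0
      have := hn NP
      rw [h0, norm_zero, hNP1] at this
      exact zero_ne_one this
    · have hv : nz x ∈ sphere (0 : R3) 1 := by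
        rw [mem_sphere_zero_iff_norm]; exact norm_nz hx0
      have h1 : ‖x‖ • h (s (nz x)) = (1 - ‖x‖) • h NP := sub_eq_zero.1 h0
      have h2 := congrArg norm h1
      rw [norm_smul, norm_smul, hsn _ hv, hn, hNP1, norm_norm, mul_one, mul_one,
        Real.norm_of_nonneg (by linarith)] at h2
      have h3 : ‖x‖ ≠ 0 := norm_ne_zero_iff.2 hx0
      rw [← h2] at h1
      have h4 : h (s (nz x)) = h NP := smul_right_injective C4 h3 h1
      have h5 : s (nz x) = NP := by rw [← hl (s (nz x)), h4, hl]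
      exact (hs1 _ hv).2.2 h5
  set w : R3 → C4 := fun x => ‖x‖ • h (s (nz x)) - (1 - ‖x‖) • h NP with hwd
  have hu : ContinuousOn (fun x => nz (w x)) (closedBall 0 1) :=
    cont_nz.comp hw fun x hx => hw0 x hx
  have hu1 : ∀ x ∈ closedBall (0 : R3) 1, ‖nz (w x)‖ = 1 := fun x hx => norm_nz (hw0 x hx)
  have hu0 : ∀ x ∈ closedBall (0 : R3) 1, (nz (w x)) 0 = 0 := by
    intro x hx
    have h1 : ((w x : C4)) 0 = 0 := by
      have h2 : (h NP) 0 = 0 := (hz NP hNP0).1 hNP
      by_cases hx0 : x = 0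
      · change (‖x‖ • h (s (nz x)) - (1 - ‖x‖) • h NP) 0 = 0
        rw [PiLp.sub_apply, PiLp.smul_apply, PiLp.smul_apply, h2, hx0, norm_zero, zero_smul,
          smul_zero, sub_zero]
      · have hv : nz x ∈ sphere (0 : R3) 1 := by
          rw [mem_sphere_zero_iff_norm]; exact norm_nz hx0
        have h3 : (h (s (nz x))) 0 = 0 := (hz _ (h01 (hs1 _ hv).1)).1 (hs1 _ hv).2.1
        change (‖x‖ • h (s (nz x)) - (1 - ‖x‖) • h NP) 0 = 0
        rw [PiLp.sub_apply, PiLp.smul_apply, PiLp.smul_apply, h2, h3, smul_zero, smul_zero,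
          sub_zero]
    rw [nz, PiLp.smul_apply, h1, smul_zero]
  have hz' : ContinuousOn (fun x => h' (nz (w x))) (closedBall 0 1) :=
    hc'.comp hu fun x hx => h01 (hu1 x hx)
  have hzn : ∀ x ∈ closedBall (0 : R3) 1, ‖h' (nz (w x))‖ = 1 := fun x hx => by
    rw [hn']; exact hu1 x hx
  have hzF : ∀ x ∈ closedBall (0 : R3) 1, F (h' (nz (w x))) = 0 := fun x hx =>
    (hz _ (h01 (hzn x hx))).2 (by rw [hr]; exact hu0 x hx)
  have hBz : ContinuousOn (fun x => B (h' (nz (w x)))) (closedBall 0 1) :=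
    hB.comp hz' fun x hx => ⟨hzn x hx, hzF x hx⟩
  have ht : ContinuousOn (fun x => nz (B (h' (nz (w x))))) (closedBall 0 1) :=
    cont_nz.comp hBz fun x hx => hB0 _ (hzn x hx) (hzF x hx)
  obtain ⟨x, hx1, hx2⟩ := hBRW R3 (fun x => nz (B (h' (nz (w x))))) L ht
    (fun x hx => norm_nz (hB0 _ (hzn x hx) (hzF x hx)))
  have hxs : x ∈ sphere (0 : R3) 1 := mem_sphere_zero_iff_norm.2 hx1
  have hnzx : nz x = x := by rw [nz, hx1, inv_one, one_smul]
  have hwx : w x = h (s x) := by
    change ‖x‖ • h (s (nz x)) - (1 - ‖x‖) • h NP = h (s x)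
    rw [hnzx, hx1, one_smul, sub_self, zero_smul, sub_zero]
  have hnw : nz (w x) = h (s x) := by
    rw [hwx, nz, hsn x hxs, inv_one, one_smul]
  have h1 : nz (B (s x)) = -(L x) := by
    have := hx2
    rwa [hnw, hl] at this
  have h2 := hpos x hxs
  have h3 : B (s x) ≠ 0 := hB0 _ (hs1 x hxs).1 (hs1 x hxs).2.1
  have h4 : B (s x) = ‖B (s x)‖ • nz (B (s x)) := by
    rw [nz, smul_smul, mul_inv_cancel₀ (norm_ne_zero_iff.2 h3), one_smul]
  rw [h4, h1, inner_smul_left, inner_neg_left, real_inner_self_eq_norm_sq, L.norm_map, hx1] at h2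
  have h5 : 0 < ‖B (s x)‖ := norm_pos_iff.2 h3
  simp at h2
  linarith

end Pool.Agent.KNT
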