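import Pool.Agent.KNT.Stmts

/-!
# Squad KNT, module NTA: the outer summand is nontrivial
-/

set_option autoImplicit false

namespace Pool.Agent.KNT

theorem nta_proof (hNT1 : Stmt_NT1) : Stmt_NTA := by
  intro T A l η _ hK
  refine hNT1 (FF1 A l η) hK.smooth.continuousOn ?_
  intro z _ hg
  have h1 : ¬ ‖gb z‖ < T.δ := not_lt.2 (T.δ_le.trans hg)
  simp only [FF1, TF, if_neg h1]

end Pool.Agent.KNT
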