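import Pool.Agent.KNT.Stmts

set_option autoImplicit false

open scoped ContDiff ComplexConjugate
open Set Filter Topology Metric

namespace Pool.Agent.KNT

namespace NTB_

/-- the cyclic permutation of the coordinates -/
noncomputable def Lc : R3 ≃ₗᵢ[ℝ] R3 :=
  LinearIsometryEquiv.piLpCongrLeft 2 ℝ ℝ (finRotate 3).symm

theorem Lc_apply (v : R3) : Lc v = (!₂[v 1, v 2, v 0] : R3) := by
  ext i
  have h : (Lc v) i = v (finRotate 3 i) := by
    unfold Lc
    rw [LinearIsometryEquiv.piLpCongrLeft_apply]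
    rfl
  rw [h]
  fin_cases i
  · rfl
  · rfl
  · rfl

/-- the imaginary point -/
noncomputable def Pv (v : R3) : C3 := !₂[Complex.I * v 0, Complex.I * v 1, Complex.I * v 2]

theorem Pv_norm (v : R3) : ‖Pv v‖ = ‖v‖ := by
  rw [EuclideanSpace.norm_eq, EuclideanSpace.norm_eq, Fin.sum_univ_three, Fin.sum_univ_three]
  simp [Pv]

theorem Pv_cont : Continuous Pv := by
  unfold Pv
  fun_prop

theorem nz_of_norm {V : Type} [NormedAddCommGroup V] [NormedSpace ℝ V] {z : V} (h : ‖z‖ = 1) :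
    nz z = z := by
  unfold nz
  rw [h, inv_one, one_smul]

theorem NP_norm : ‖NP‖ = 1 := by
  unfold NP
  rw [EuclideanSpace.norm_single, norm_one]

theorem FF2_NP {T : Tube} (A : Fr T) (ε l η : ℝ) : FF2 A ε l η NP = 0 := by
  unfold FF2
  have h3 : ¬ ((NP 3).re < 0) := by
    have : NP 3 = 1 := by simp [NP]
    rw [this]
    norm_num
  rw [if_neg h3, nz_of_norm NP_norm]
  have h0 : NP 0 = 0 := by simp [NP]
  rw [h0, mul_zero, neg_zero]

/-- the function `B` -/
noncomputable def BB {T : Tube} (A : Fr T) (ε l η : ℝ) (z : C4) : R3 :=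
  (1 - cut (7 / 10) (3 / 4) (Dq (nz z) / 2)) •
    bet ((Sm A ε l z).2 / √η) (mm (T.G (Sm A ε l z))) +
  cut (7 / 10) (3 / 4) (Dq (nz z) / 2) • bet 0 (mm (T.ι A.q))

theorem beta_ne {T : Tube} (A : Fr T) (hBET : Stmt_BET) : bet 0 (mm (T.ι A.q)) ≠ 0 := by
  obtain ⟨h1, -, h3, -, h5⟩ := hBET
  obtain ⟨c, hc, hc'⟩ := h5 T
  intro h0
  have h := h1 0 (mm (T.ι A.q))
  have hs : sq (mm (T.ι A.q)) = 0 := by
    rw [h3]
    exact A.s_q
  have hm := hc' A.q A.nq
  have e1 : ‖(0 : ℂ) ^ 2 - 0‖ = 0 := by simp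
  rw [h0, hs, e1, norm_zero, norm_zero] at h
  have : 0 < ‖mm (T.ι A.q)‖ := lt_of_lt_of_le hc hm
  have h' : 0 < (‖mm (T.ι A.q)‖ ^ 2) ^ 2 := by positivity
  nlinarith

theorem Dq_cont : Continuous (fun u : C4 => Dq u) := by
  unfold Dq
  fun_prop

theorem nz_cont : ContinuousOn (fun z : C4 => nz z) {0}ᶜ := by
  unfold nz
  intro z hz
  have hz' : ‖z‖ ≠ 0 := norm_ne_zero_iff.2 hz
  exact ((continuous_norm.continuousAt.inv₀ hz').smul continuousAt_id).continuousWithinAt

end NTB_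

open NTB_ in
theorem ntb_proof (hNT2 : Stmt_NT2) (hBNZ : Stmt_BNZ) (hRSP : Stmt_RSP) (hSHZ : Stmt_SHZ)
    (hKKB : Stmt_KKB) (hCHT : Stmt_CHT) (hCHS : Stmt_CHS) (hSTS : Stmt_STS) (hTAU : Stmt_TAU)
    (hBET : Stmt_BET) (_hSHA : Stmt_SHA) : Stmt_NTB := by
  intro T A ε hε
  obtain ⟨l1, hl1, H1⟩ := hBNZ T A
  obtain ⟨l2, hl2, H2⟩ := hRSP T A
  obtain ⟨l3, hl3, H3⟩ := hSTS T A
  refine ⟨max l1 (max l2 l3), le_trans hl1 (le_max_left _ _), fun l hl => ?_⟩
  have hll1 : l1 ≤ l := le_trans (le_max_left _ _) hl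
  have hll2 : l2 ≤ l := le_trans (le_trans (le_max_left _ _) (le_max_right _ _)) hl
  have hll3 : l3 ≤ l := le_trans (le_trans (le_max_right _ _) (le_max_right _ _)) hl
  have hl2' : 2 ≤ l := le_trans hl1 hll1
  obtain ⟨hkn, -⟩ := H3 l hll3
  obtain ⟨e1, he1, G1⟩ := H1 l hll1
  obtain ⟨e2, he2, G2⟩ := H2 l hll2
  obtain ⟨e4, he4, G4⟩ := hSHZ T A l hl2' hkn
  refine ⟨min e1 (min e2 e4), lt_min he1 (lt_min he2 he4), fun η hη hη' => ?_⟩
  have K1 := G1 η hη (lt_of_lt_of_le hη' (min_le_left _ _))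
  obtain ⟨w, hwc, K2⟩ := G2 η hη (lt_of_lt_of_le hη'
    (le_trans (min_le_right _ _) (min_le_left _ _)))
  obtain ⟨K4, -⟩ := G4 η hη (lt_of_lt_of_le hη'
    (le_trans (min_le_right _ _) (min_le_right _ _)))
  obtain ⟨kb1, kb2, -, -, -, -, -⟩ := hKKB T A l hl2'
  obtain ⟨ct1, ct2⟩ := hCHT T A ε l hl2' hε
  obtain ⟨cs1, cs2, -, -⟩ := hCHS T A ε l hl2' hε
  obtain ⟨-, -, -, -, -, -, -, -, -, -, -, -, -, hcut, hbp⟩ := hTAU T A
  have hδ := T.δ_pos
  -- cut functions
  have hcw : ∀ w : ℂ, ‖w‖ < T.δ / 4 → cw T w = 1 := by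
    intro w hw
    unfold cw
    have hlt : (T.δ / 4) ^ 2 < (T.δ / 2) ^ 2 := by nlinarith
    refine (hcut _ _ hlt).2.1 _ ?_
    have := norm_nonneg w
    nlinarith
  have hχ2 : ∀ k : ℝ, 7 / 10 ≤ k → χ2 k = 0 := by
    intro k hk
    unfold χ2
    exact (hbp (3 / 10) (7 / 20) (13 / 20) (7 / 10) (by norm_num) (by norm_num)
      (by norm_num)).2.2.2.1 k hk
  have hχ1 : ∀ k : ℝ, 3 / 4 ≤ k → χ1 k = 0 := by
    intro k hk
    unfold χ1
    exact (hbp (1 / 4) (7 / 25) (18 / 25) (3 / 4) (by norm_num) (by norm_num)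
      (by norm_num)).2.2.2.1 k hk
  have hω := hcut (7 / 10) (3 / 4) (by norm_num)
  -- points of the knot with k ≥ 7/10
  have key : ∀ z : C4, ‖z‖ = 1 → FF2 A ε l η z = 0 → 7 / 10 ≤ Dq (nz z) / 2 →
      ‖(Sm A ε l z).1‖ = 1 ∧ ‖(Sm A ε l z).2‖ < T.δ / 4 ∧
      (Sm A ε l z).2 ^ 2 = η * s2 A l (Sm A ε l z).1 ∧
      kk A l (Sm A ε l z) = Dq (nz z) / 2 ∧ (z 3).re < ‖z‖ := by
    intro z hz hF hk
    have hzre : (z 3).re ≤ -(2 / 5) := by
      rw [nz_of_norm hz] at hk
      unfold Dq at hk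
      linarith
    have hlt : (z 3).re < ‖z‖ := by rw [hz]; linarith
    have hz0 : z ≠ 0 := by
      intro h; rw [h, norm_zero] at hz; norm_num at hz
    obtain ⟨a1, -, -, a4, -⟩ := ct1 z hz0 hlt
    have hneg : (z 3).re < 0 := by linarith
    unfold FF2 at hF
    rw [if_pos hneg] at hF
    have hD : (Dq (nz z) : ℂ) ≠ 0 := by
      have : 0 < Dq (nz z) := by linarith
      exact_mod_cast this.ne'
    have hSH : SHt A l η 1 (Sm A ε l z) = 0 := by
      rcases mul_eq_zero.1 hF with h | h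
      · exact absurd h hD
      · exact h
    have hP0 : (Sm A ε l z).1 ≠ 0 := by
      intro h; rw [h, norm_zero, hz] at a1; norm_num at a1
    have hk' : 7 / 10 ≤ kk A l (Sm A ε l z) := by rw [a4]; exact hk
    obtain ⟨b1, b2⟩ := K4 1 (by constructor <;> norm_num) (Sm A ε l z).1 (Sm A ε l z).2 hP0
      (Or.inr (Or.inl hk')) hSH
    have b3 : S3 A l (Sm A ε l z) = s2 A l (Sm A ε l z).1 := b1.eq_of_nhds
    refine ⟨by rw [a1, hz], b2, ?_, a4, hlt⟩
    unfold SHt at hSH
    rw [hχ2 _ hk', hcw _ b2, b3] at hSH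
    push_cast at hSH
    linear_combination hSH
  -- the parametrised sphere
  have sph : ∀ v ∈ sphere (0 : R3) 1, ‖Si A ε l (Pv v, w v)‖ = 1 ∧
      FF2 A ε l η (Si A ε l (Pv v, w v)) = 0 ∧
      ((Si A ε l (Pv v, w v)) 3).re < 0 ∧
      Sm A ε l (Si A ε l (Pv v, w v)) = (Pv v, w v) ∧
      3 / 4 < Dq (nz (Si A ε l (Pv v, w v))) / 2 := by
    intro v hv
    have hv1 : ‖v‖ = 1 := by simpa using hv
    have hP1 : ‖Pv v‖ = 1 := by rw [Pv_norm, hv1]
    have hP0 : Pv v ≠ 0 := by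
      intro h; rw [h, norm_zero] at hP1; norm_num at hP1
    obtain ⟨c1, c2, c3, -⟩ := K2 v hv
    have c2' : (w v) ^ 2 = η * s2 A l (Pv v) := c2
    have c3' : 3 / 4 < kk A l (Pv v, w v) := c3
    obtain ⟨d1, d2, d3⟩ := ct2 (Pv v) (w v) hP0
    have hz1 : ‖Si A ε l (Pv v, w v)‖ = 1 := by rw [d1, hP1]
    have htau : 0 < tau A (Pv v) := by
      obtain ⟨-, h2, -⟩ := kb2 (Pv v) (w v) hP0 (by linarith)
      by_contra hneg
      have h3 : tau A (Pv v) ≤ 0 := not_lt.1 hneg
      have h4 : 0 ≤ l ^ 2 := by positivity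
      nlinarith
    have hSS := d3 htau
    have hk : 3 / 4 < Dq (nz (Si A ε l (Pv v, w v))) / 2 := by rw [d2]; linarith
    have hre : ((Si A ε l (Pv v, w v)) 3).re < 0 := by
      have h := hk
      rw [nz_of_norm hz1] at h
      unfold Dq at h
      linarith
    refine ⟨hz1, ?_, hre, hSS, hk⟩
    unfold FF2
    rw [if_pos hre, hSS]
    unfold SHt S3
    rw [hχ2 _ (by linarith), hχ1 _ (by linarith), hcw _ c1]
    simp only
    rw [c2']
    push_cast
    ring
  refine hNT2 (FF2 A ε l η) (FF2_NP A ε l η) (fun v => Si A ε l (Pv v, w v)) (BB A ε l η) Lc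
    ?_ ?_ ?_ ?_ ?_
  · -- continuity of s
    have hc1 : ContinuousOn (fun v => (Pv v, w v)) (sphere (0 : R3) 1) :=
      Pv_cont.continuousOn.prodMk hwc
    refine cs2.continuousOn.comp hc1 ?_
    intro v hv
    have hv1 : ‖v‖ = 1 := by simpa using hv
    have hP1 : ‖Pv v‖ = 1 := by rw [Pv_norm, hv1]
    intro h
    have h' : Pv v = 0 := h
    rw [h', norm_zero] at hP1
    norm_num at hP1
  · intro v hv
    obtain ⟨a1, a2, a3, -, -⟩ := sph v hv
    refine ⟨a1, a2, fun h => ?_⟩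
    rw [h] at a3
    have : NP 3 = 1 := by simp [NP]
    rw [this] at a3
    norm_num at a3
  · -- continuity of B
    rintro z ⟨hz, hF⟩
    have hz0 : z ≠ 0 := by
      intro h; rw [h, norm_zero] at hz; norm_num at hz
    have hDc : ContinuousAt (fun z : C4 => Dq (nz z) / 2) z := by
      have h1 : ContinuousAt (fun z : C4 => nz z) z :=
        nz_cont.continuousAt (isOpen_compl_singleton.mem_nhds hz0)
      exact (Dq_cont.continuousAt.comp h1).div_const 2
    apply ContinuousAt.continuousWithinAt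
    by_cases hk : Dq (nz z) / 2 < 7 / 10
    · have hev : ∀ᶠ y in 𝓝 z, Dq (nz y) / 2 < 7 / 10 := hDc.eventually (gt_mem_nhds hk)
      have heq : BB A ε l η =ᶠ[𝓝 z] fun _ => bet 0 (mm (T.ι A.q)) := by
        filter_upwards [hev] with y hy
        unfold BB
        rw [hω.2.1 _ hy.le, sub_self, zero_smul, one_smul, zero_add]
      exact continuousAt_const.congr heq.symm
    · push Not at hk
      obtain ⟨k1, k2, k3, k4, k5⟩ := key z hz hF hk
      have hSm : ContinuousAt (Sm A ε l) z := by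
        refine cs1.continuousOn.continuousAt ?_
        refine (isOpen_lt ?_ continuous_norm).mem_nhds k5
        fun_prop
      have hP0 : (Sm A ε l z).1 ≠ 0 := by
        intro h; rw [h, norm_zero] at k1; norm_num at k1
      have hwδ : ‖(Sm A ε l z).2‖ < T.δ := by linarith
      have hG : ContinuousAt T.G (Sm A ε l z) := by
        refine T.G_smooth.continuousOn.continuousAt ?_
        refine IsOpen.mem_nhds ?_ ⟨hP0, hwδ⟩
        refine IsOpen.inter ?_ ?_
        · exact isOpen_ne_fun continuous_fst continuous_const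
        · exact isOpen_lt (continuous_norm.comp continuous_snd) continuous_const
      have hGn : ‖T.G (Sm A ε l z)‖ = 1 := by
        have := T.G_norm (Sm A ε l z).1 (Sm A ε l z).2 hP0 hwδ
        rw [Prod.mk.eta] at this
        rw [this, k1]
      have hG0 : T.G (Sm A ε l z) ≠ 0 := by
        intro h; rw [h, norm_zero] at hGn; norm_num at hGn
      obtain ⟨-, hbc, -, hmc, -⟩ := hBET
      have hm : ContinuousAt mm (T.G (Sm A ε l z)) :=
        hmc.continuousAt (isOpen_compl_singleton.mem_nhds hG0)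
      have hGS : ContinuousAt (fun y => T.G (Sm A ε l y)) z :=
        ContinuousAt.comp (g := T.G) (f := Sm A ε l) hG hSm
      have hmG : ContinuousAt (fun y => mm (T.G (Sm A ε l y))) z :=
        ContinuousAt.comp (g := mm) (f := fun y => T.G (Sm A ε l y)) hm hGS
      have hw2 : ContinuousAt (fun y => (Sm A ε l y).2 / (√η : ℂ)) z :=
        (continuousAt_snd.comp hSm).div_const _
      have hb : ContinuousAt (fun y => bet ((Sm A ε l y).2 / √η) (mm (T.G (Sm A ε l y)))) z :=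
        ContinuousAt.comp (g := fun p : ℂ × C3 => bet p.1 p.2)
          (f := fun y => ((Sm A ε l y).2 / (√η : ℂ), mm (T.G (Sm A ε l y))))
          hbc.continuousAt (hw2.prodMk hmG)
      have hc : ContinuousAt (fun y : C4 => cut (7 / 10) (3 / 4) (Dq (nz y) / 2)) z :=
        ContinuousAt.comp (g := cut (7 / 10) (3 / 4)) (f := fun y : C4 => Dq (nz y) / 2)
          hω.1.continuous.continuousAt hDc
      exact ((continuousAt_const.sub hc).smul hb).add (hc.smul continuousAt_const)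
  · -- B ≠ 0
    intro z hz hF
    have hβ := beta_ne A hBET
    by_cases hk : Dq (nz z) / 2 < 7 / 10
    · unfold BB
      rw [hω.2.1 _ hk.le, sub_self, zero_smul, one_smul, zero_add]
      exact hβ
    · push Not at hk
      obtain ⟨k1, k2, k3, k4, k5⟩ := key z hz hF hk
      obtain ⟨n1, n2⟩ := K1 (Sm A ε l z).1 (Sm A ε l z).2 k1 k2 k3
      rw [Prod.mk.eta] at n1 n2
      by_cases hk2 : 3 / 4 ≤ Dq (nz z) / 2
      · unfold BB
        rw [hω.2.2.1 _ hk2, sub_zero, one_smul, zero_smul, add_zero]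
        exact n1
      · push Not at hk2
        have n3 := n2 (by rw [k4]; exact hk2.le)
        intro hB
        have hin : inner ℝ (BB A ε l η z) (bet 0 (mm (T.ι A.q))) = 0 := by
          rw [hB, inner_zero_left]
        unfold BB at hin
        rw [inner_add_left, real_inner_smul_left, real_inner_smul_left,
          real_inner_self_eq_norm_sq] at hin
        obtain ⟨o1, o2⟩ := hω.2.2.2 (Dq (nz z) / 2)
        have hβ2 : 0 < ‖bet 0 (mm (T.ι A.q))‖ ^ 2 := by
          have := norm_pos_iff.2 hβ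
          positivity
        rcases eq_or_lt_of_le o1 with h0 | h0
        · rw [← h0] at hin
          linarith
        · have p1 : 0 < cut (7 / 10) (3 / 4) (Dq (nz z) / 2) * ‖bet 0 (mm (T.ι A.q))‖ ^ 2 :=
            mul_pos h0 hβ2
          have p2 : 0 ≤ (1 - cut (7 / 10) (3 / 4) (Dq (nz z) / 2)) *
              inner ℝ (bet ((Sm A ε l z).2 / √η) (mm (T.G (Sm A ε l z))))
                (bet 0 (mm (T.ι A.q))) := mul_nonneg (by linarith) n3.le
          linarith
  · -- positivity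
    intro v hv
    obtain ⟨a1, a2, a3, a4, a5⟩ := sph v hv
    obtain ⟨-, -, -, c4⟩ := K2 v hv
    rw [Lc_apply]
    unfold BB
    rw [hω.2.2.1 _ a5.le, sub_zero, one_smul, zero_smul, add_zero, a4]
    exact c4

end Pool.Agent.KNT
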