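import Pool.Agent.KNT.Stmts

/-!
# Squad KNT: O2R
-/

set_option autoImplicit false

open scoped ContDiff ComplexConjugate
open Set Filter Topology Metric

namespace Pool.Agent.KNT

namespace O2R_

/-- the polynomial -/
noncomputable def Φ (t η : ℝ) (z : C4) : ℂ :=
  (t * z 0 ^ 3 + z 1 ^ 2 + z 2 ^ 2 + z 3 ^ 2) ^ 2 - η * (16 * z 1 ^ 6 + 4 * z 2 ^ 6 + z 3 ^ 6)

lemma smooth (t η : ℝ) : ContDiff ℂ ∞ (Φ t η) := by
  have hp : ∀ i : Fin 4, ContDiff ℂ ∞ (fun z : C4 => z i) := fun i =>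
    (EuclideanSpace.proj (𝕜 := ℂ) i).contDiff
  unfold Φ
  have h0 := hp 0
  have h1 := hp 1
  have h2 := hp 2
  have h3 := hp 3
  fun_prop

lemma der (t η : ℝ) (z v : C4) : fderiv ℂ (Φ t η) z v =
    2 * (t * z 0 ^ 3 + z 1 ^ 2 + z 2 ^ 2 + z 3 ^ 2) *
      (3 * t * z 0 ^ 2 * v 0 + 2 * z 1 * v 1 + 2 * z 2 * v 2 + 2 * z 3 * v 3) -
    η * (96 * z 1 ^ 5 * v 1 + 24 * z 2 ^ 5 * v 2 + 6 * z 3 ^ 5 * v 3) := by
  have hp : ∀ i : Fin 4, HasFDerivAt (fun z : C4 => z i) (EuclideanSpace.proj (𝕜 := ℂ) i) z :=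
    fun i => (EuclideanSpace.proj (𝕜 := ℂ) i).hasFDerivAt
  have h := (((((hp 0).pow 3).const_mul (t : ℂ)).add ((hp 1).pow 2)).add ((hp 2).pow 2)).add
    ((hp 3).pow 2)
  have h' := ((((hp 1).pow 6).const_mul (16 : ℂ)).add (((hp 2).pow 6).const_mul (4 : ℂ))).add
    ((hp 3).pow 6)
  have h2 := (h.pow 2).sub (h'.const_mul (η : ℂ))
  have h3 : fderiv ℂ (Φ t η) z = _ := h2.fderiv
  rw [h3]
  simp
  ring

end O2R_

open O2R_ in
theorem o2r_proof (hLAG : Stmt_LAG) (hHRG : Stmt_HRG) : Stmt_O2R := by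
  obtain ⟨η₀, h0, hL⟩ := hLAG
  refine ⟨η₀, h0, fun t η ht hη hη₀ => ?_⟩
  have h := (hHRG (Φ t η) (Φ t η) (smooth t η) (smooth t η)).2.1 ?_
  · exact h
  · intro z hz hz0 l hl
    have e : ∀ i : Fin 4, _ := hl
    have e0 := e 0
    have e1 := e 1
    have e2 := e 2
    have e3 := e 3
    rw [der] at e0 e1 e2 e3
    simp at e0 e1 e2 e3
    have hn : ‖z 0‖ ^ 2 + ‖z 1‖ ^ 2 + ‖z 2‖ ^ 2 + ‖z 3‖ ^ 2 = 1 := by
      have := EuclideanSpace.norm_sq_eq z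
      rw [hz] at this
      simp [Fin.sum_univ_succ] at this
      rw [this]
      ring_nf
    refine hL t η ht hη hη₀ (z 0) (z 1) (z 2) (z 3) l hn ?_ ?_ ?_ ?_ ?_
    · have : Φ t η z = 0 := hz0
      unfold Φ at this
      linear_combination this
    · linear_combination e0
    · linear_combination e1
    · linear_combination e2
    · linear_combination e3

end Pool.Agent.KNT
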