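import Pool.Agent.KNT.Stmts

/-!
# Squad KNT, module PFL: local form of the path of functions lemma
-/

set_option autoImplicit false

open scoped ContDiff ComplexConjugate
open Set Filter Topology Metric

namespace Pool.Agent.KNT

namespace PFL_

theorem sigma_mem {t₀ t δ : ℝ} (ht : t ∈ ball t₀ δ) (τ : ℝ) :
    t₀ + Real.smoothTransition τ * (t - t₀) ∈ ball t₀ δ := by
  rw [mem_ball, Real.dist_eq] at *
  have h1 : t₀ + Real.smoothTransition τ * (t - t₀) - t₀ = Real.smoothTransition τ * (t - t₀) := by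
    ring
  rw [h1, abs_mul, abs_of_nonneg (Real.smoothTransition.nonneg τ)]
  have h2 := Real.smoothTransition.le_one τ
  have h3 := Real.smoothTransition.nonneg τ
  calc Real.smoothTransition τ * |t - t₀| ≤ 1 * |t - t₀| := by gcongr
    _ < δ := by rw [one_mul]; exact ht

end PFL_

open PFL_ in
theorem pfl_proof (hHCN : Stmt_HCN) (hDIF : Stmt_DIF) : Stmt_PFL := by
  intro V _ _ _ Φ t₀ hΦ hreg
  obtain ⟨δ, H, hδ, hom, hnorm, hsm, hstart, hnear, hzero⟩ := hHCN V Φ t₀ hΦ hreg
  obtain ⟨δ', G, hδ', hle, homG, hnormG, hsmG, hleft, hright⟩ :=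
    hDIF V t₀ δ H hδ hom hnorm hsm hstart
  refine ⟨δ', hδ', fun t ht => ?_⟩
  have hσ : ∀ τ, t₀ + Real.smoothTransition τ * (t - t₀) ∈ ball t₀ δ' := fun τ => sigma_mem ht τ
  have hcd : ContDiff ℝ ∞ (fun p : ℝ × V =>
      ((t₀ + Real.smoothTransition p.1 * (t - t₀), p.2) : ℝ × V)) := by
    have h1 : ContDiff ℝ ∞ (fun p : ℝ × V => Real.smoothTransition p.1) :=
      Real.smoothTransition.contDiff.comp contDiff_fst
    exact (contDiff_const.add (h1.mul contDiff_const)).prodMk contDiff_snd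
  have h1 : t₀ + Real.smoothTransition 1 * (t - t₀) = t := by
    rw [Real.smoothTransition.one]; ring
  refine ⟨fun τ => H (t₀ + Real.smoothTransition τ * (t - t₀)),
    fun τ => G (t₀ + Real.smoothTransition τ * (t - t₀)), ⟨?_, ?_, ?_, ?_, ?_, ?_, ?_, ?_, ?_⟩, ?_⟩
  · intro τ r hr z
    exact hom _ r hr z
  · intro τ r hr z
    exact homG _ r hr z
  · intro τ z
    exact hnorm _ z
  · intro τ z
    exact hnormG _ z
  · exact hsm.comp hcd.contDiffOn (fun p hp => ⟨ball_subset_ball hle (hσ p.1), hp⟩)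
  · exact hsmG.comp hcd.contDiffOn (fun p hp => ⟨hσ p.1, hp⟩)
  · intro τ z
    exact hleft _ (hσ τ) z
  · intro τ z
    exact hright _ (hσ τ) z
  · intro z
    simp only [Real.smoothTransition.zero, zero_mul, add_zero]
    exact hstart z
  · intro z _ hz
    have ht' : t ∈ ball t₀ δ := ball_subset_ball hle ht
    simp only [h1]
    by_cases hz0 : Φ t₀ z = 0
    · have hev := hnear t ht' z hz hz0
      have heq : (fun y => Φ t (H t y)) =ᶠ[𝓝 z] Φ t₀ := hev
      refine ⟨?_, fun _ => ⟨1, 0, by simp, fun v => ?_⟩⟩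
      · have h3 : Φ t (H t z) = Φ t₀ z := heq.eq_of_nhds
        show Φ t₀ z = 0 ↔ Φ t (H t z) = 0
        rw [h3]
      · rw [heq.fderiv_eq]
        simp
    · exact ⟨⟨fun h => absurd h hz0, fun h => hzero t ht' z hz h⟩, fun h => absurd h hz0⟩

end Pool.Agent.KNT
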