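import Pool.Agent.KNT.Stmts

/-!
# Squad KNT, module PFM: the path of functions lemma
-/

set_option autoImplicit false

open scoped ContDiff ComplexConjugate
open Set Filter Topology Metric

namespace Pool.Agent.KNT

theorem pfm_proof (_hISR : Stmt_ISR) (hIST : Stmt_IST) (hISS : Stmt_ISS) (hPFL : Stmt_PFL) :
    Stmt_PFM := by
  intro V _ _ _ Φ hΦ hreg
  have hF : ∀ t, SFun (Φ t) := by
    intro t
    refine ⟨fun r hr z => hΦ.hom t r hr z, ?_⟩
    have h1 : ContDiffOn ℝ ∞ (fun z : V => ((t, z) : ℝ × V)) {0}ᶜ :=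
      (contDiff_const.prodMk contDiff_id).contDiffOn
    exact hΦ.smooth.comp h1 (fun z hz => hz)
  refine (isPreconnected_Icc (a := (0 : ℝ)) (b := 1)).induction₂
    (fun s t => Isotopic (Φ s) (Φ t)) ?_ ?_ ?_ (by simp) (by simp)
  · intro t₀ ht₀
    obtain ⟨δ, hδ, h⟩ := hPFL V Φ t₀ hΦ (hreg t₀ ht₀)
    filter_upwards [mem_nhdsWithin_of_mem_nhds (ball_mem_nhds t₀ hδ)] with t ht
    exact h t ht
  · intro a b c _ _ _ hab hbc
    exact hIST V _ _ _ (hF a) (hF b) (hF c) hab hbc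
  · intro a b _ _ hab
    exact hISS V _ _ (hF a) (hF b) hab

end Pool.Agent.KNT
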