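import Pool.Agent.KNT.Stmts

/-!
# Squad KNT, module PFT: path of functions lemma on the tube
-/

set_option autoImplicit false

namespace Pool.Agent.KNT

theorem pft_proof (hPFM : Stmt_PFM) (hTFS : Stmt_TFS) (hTFR : Stmt_TFR) : Stmt_PFT := by
  intro T Ψ hA hr
  exact hPFM C4 (fun t => TF T (Ψ t)) (hTFS T Ψ hA) (fun t ht => (hTFR T Ψ hA t (hr t ht)).reg)

end Pool.Agent.KNT
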