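import Pool.Agent.KNT.Stmts

/-!
Module RSP of squad KNT: the real 2-sphere in the knot.
-/

set_option autoImplicit false

open scoped ContDiff ComplexConjugate
open Set Filter Topology Metric

namespace Pool.Agent.KNT

namespace RSP_

/-- the point `i v` -/
noncomputable def Pv (v : R3) : C3 := !₂[Complex.I * v 0, Complex.I * v 1, Complex.I * v 2]

/-- the cyclic permutation of `v` -/
noncomputable def Lv (v : R3) : R3 := !₂[v 1, v 2, v 0]

lemma Pv0 (v : R3) : Pv v 0 = Complex.I * v 0 := rfl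
lemma Pv1 (v : R3) : Pv v 1 = Complex.I * v 1 := rfl
lemma Pv2 (v : R3) : Pv v 2 = Complex.I * v 2 := rfl

lemma Pv_cont : Continuous Pv := by
  unfold Pv
  refine (PiLp.continuous_toLp 2 _).comp ?_
  refine continuous_pi fun i => ?_
  have h : ∀ j : Fin 3, Continuous fun v : R3 => Complex.I * ((v j : ℝ) : ℂ) := fun j =>
    continuous_const.mul (Complex.continuous_ofReal.comp (EuclideanSpace.proj j : R3 →L[ℝ] ℝ).continuous)
  fin_cases i
  · exact h 0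
  · exact h 1
  · exact h 2

lemma Lv_cont : Continuous Lv := by
  unfold Lv
  refine (PiLp.continuous_toLp 2 _).comp ?_
  refine continuous_pi fun i => ?_
  have h : ∀ j : Fin 3, Continuous fun v : R3 => (v j : ℝ) := fun j =>
    (EuclideanSpace.proj j : R3 →L[ℝ] ℝ).continuous
  fin_cases i
  · exact h 1
  · exact h 2
  · exact h 0

lemma sum_sq (v : R3) (hv : ‖v‖ = 1) : v 0 ^ 2 + v 1 ^ 2 + v 2 ^ 2 = 1 := by
  have h := EuclideanSpace.norm_sq_eq v
  rw [hv, Fin.sum_univ_three] at h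
  simp only [Real.norm_eq_abs, sq_abs] at h
  linarith

lemma norm_Pv (v : R3) (hv : ‖v‖ = 1) : ‖Pv v‖ = 1 := by
  have h := EuclideanSpace.norm_sq_eq (Pv v)
  rw [Fin.sum_univ_three, Pv0, Pv1, Pv2] at h
  simp only [norm_mul, Complex.norm_I, one_mul, Complex.norm_real, Real.norm_eq_abs, sq_abs] at h
  rw [sum_sq v hv] at h
  have h2 : (‖Pv v‖ - 1) * (‖Pv v‖ + 1) = 0 := by
    have : (‖Pv v‖ - 1) * (‖Pv v‖ + 1) = ‖Pv v‖ ^ 2 - 1 := by ring
    rw [this, h]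
    ring
  rcases mul_eq_zero.1 h2 with h3 | h3
  · linarith
  · linarith [norm_nonneg (Pv v)]

lemma sq_Pv (v : R3) (hv : ‖v‖ = 1) : sq (Pv v) = -1 := by
  unfold sq
  rw [Pv0, Pv1, Pv2, mul_pow, mul_pow, mul_pow, Complex.I_sq]
  have h := sum_sq v hv
  have h' : ((v 0 : ℝ) : ℂ) ^ 2 + ((v 1 : ℝ) : ℂ) ^ 2 + ((v 2 : ℝ) : ℂ) ^ 2 = 1 := by
    have h2 := congrArg (fun x : ℝ => (x : ℂ)) h
    simp only [Complex.ofReal_add, Complex.ofReal_pow, Complex.ofReal_one] at h2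
    exact h2
  linear_combination (-1 : ℂ) * h'

lemma form (T : Tube) (v : R3) (hv : ‖v‖ = 1) : ∃ ρ : ℝ, 0 < ρ ∧ T.ι (Pv v) 0 = -((ρ : ℂ) ^ 2) ∧
    T.ι (Pv v) 1 = ((ρ ^ 3 * v 0 : ℝ) : ℂ) ∧ T.ι (Pv v) 2 = ((ρ ^ 3 * v 1 : ℝ) : ℂ) ∧
    T.ι (Pv v) 3 = ((ρ ^ 3 * v 2 : ℝ) : ℂ) := by
  have hs := sq_Pv v hv
  obtain ⟨ρ, hρ, h0, h1, h2, h3⟩ := T.ι_form (Pv v) (norm_Pv v hv) (by
    rw [hs, norm_neg, norm_one]
    norm_num)
  rw [hs] at h0 h1 h2 h3
  have hI : ∀ x : ℝ, Complex.I * (-1 : ℂ) ^ 2 / ((‖(-1 : ℂ)‖ : ℝ) : ℂ) * conj (Complex.I * (x : ℂ)) = (x : ℂ) := by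
    intro x
    rw [norm_neg, norm_one, Complex.ofReal_one, div_one, map_mul, Complex.conj_I, Complex.conj_ofReal]
    have := Complex.I_mul_I
    linear_combination (-(x : ℂ)) * this
  rw [Pv0, hI] at h1
  rw [Pv1, hI] at h2
  rw [Pv2, hI] at h3
  refine ⟨ρ, hρ, ?_, ?_, ?_, ?_⟩
  · rw [h0]
    ring
  · rw [h1]
    push_cast
    ring
  · rw [h2]
    push_cast
    ring
  · rw [h3]
    push_cast
    ring

lemma nz_one (z : C4) (hz : ‖z‖ = 1) : nz z = z := by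
  unfold nz
  rw [hz, inv_one, one_smul]

lemma norm_ι (T : Tube) (v : R3) (hv : ‖v‖ = 1) : ‖T.ι (Pv v)‖ = 1 := by
  rw [T.ι_norm, norm_Pv v hv]

/-- the value of `s` -/
lemma sT_val (T : Tube) (v : R3) (hv : ‖v‖ = 1) : ∃ s : ℝ, 0 < s ∧ sT T (Pv v) = s := by
  obtain ⟨ρ, hρ, _, h1, h2, h3⟩ := form T v hv
  refine ⟨16 * (ρ ^ 3 * v 0) ^ 6 + 4 * (ρ ^ 3 * v 1) ^ 6 + (ρ ^ 3 * v 2) ^ 6, ?_, ?_⟩
  · have hr : 0 < ρ ^ 3 := by positivity
    have e0 : 0 ≤ (ρ ^ 3 * v 0) ^ 6 := by positivity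
    have e1 : 0 ≤ (ρ ^ 3 * v 1) ^ 6 := by positivity
    have e2 : 0 ≤ (ρ ^ 3 * v 2) ^ 6 := by positivity
    rcases lt_or_eq_of_le (by linarith : 0 ≤ 16 * (ρ ^ 3 * v 0) ^ 6 + 4 * (ρ ^ 3 * v 1) ^ 6 + (ρ ^ 3 * v 2) ^ 6)
      with h | h
    · exact h
    · exfalso
      have z0 : (ρ ^ 3 * v 0) ^ 6 = 0 := by linarith
      have z1 : (ρ ^ 3 * v 1) ^ 6 = 0 := by linarith
      have z2 : (ρ ^ 3 * v 2) ^ 6 = 0 := by linarith
      have y0 : v 0 = 0 := (mul_eq_zero.1 (pow_eq_zero_iff (by norm_num) |>.1 z0)).resolve_left hr.ne'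
      have y1 : v 1 = 0 := (mul_eq_zero.1 (pow_eq_zero_iff (by norm_num) |>.1 z1)).resolve_left hr.ne'
      have y2 : v 2 = 0 := (mul_eq_zero.1 (pow_eq_zero_iff (by norm_num) |>.1 z2)).resolve_left hr.ne'
      have := sum_sq v hv
      rw [y0, y1, y2] at this
      norm_num at this
  · unfold sT hb h4
    rw [nz_one _ (norm_ι T v hv), h1, h2, h3]
    push_cast
    ring

lemma mm_val (T : Tube) (v : R3) (hv : ‖v‖ = 1) : ∃ r : ℝ, 0 < r ∧
    mm (T.ι (Pv v)) = !₂[((2 * r * v 1 ^ 3 : ℝ) : ℂ), ((r * v 2 ^ 3 : ℝ) : ℂ), ((4 * r * v 0 ^ 3 : ℝ) : ℂ)] := by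
  obtain ⟨ρ, hρ, _, h1, h2, h3⟩ := form T v hv
  refine ⟨ρ ^ 9, by positivity, ?_⟩
  unfold mm
  rw [nz_one _ (norm_ι T v hv), h1, h2, h3]
  have e1 : (2 : ℂ) * ((ρ ^ 3 * v 1 : ℝ) : ℂ) ^ 3 = ((2 * ρ ^ 9 * v 1 ^ 3 : ℝ) : ℂ) := by
    push_cast
    ring
  have e2 : ((ρ ^ 3 * v 2 : ℝ) : ℂ) ^ 3 = ((ρ ^ 9 * v 2 ^ 3 : ℝ) : ℂ) := by
    push_cast
    ring
  have e3 : (4 : ℂ) * ((ρ ^ 3 * v 0 : ℝ) : ℂ) ^ 3 = ((4 * ρ ^ 9 * v 0 ^ 3 : ℝ) : ℂ) := by
    push_cast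
    ring
  rw [e1, e2, e3]

lemma bet_val (g a b c : ℝ) (v : R3) :
    inner ℝ (bet (g : ℂ) !₂[(a : ℂ), (b : ℂ), (c : ℂ)]) (Lv v) =
      2 * g * (a * v 1 + b * v 2 + c * v 0) := by
  unfold bet Lv
  simp only [PiLp.inner_apply, Fin.sum_univ_three, RCLike.inner_apply, conj_trivial]
  simp
  ring

lemma quart_pos (v : R3) (hv : ‖v‖ = 1) : 0 < 2 * v 1 ^ 4 + v 2 ^ 4 + 4 * v 0 ^ 4 := by
  have e0 : 0 ≤ v 0 ^ 4 := by positivity
  have e1 : 0 ≤ v 1 ^ 4 := by positivity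
  have e2 : 0 ≤ v 2 ^ 4 := by positivity
  rcases lt_or_eq_of_le (by linarith : 0 ≤ 2 * v 1 ^ 4 + v 2 ^ 4 + 4 * v 0 ^ 4) with h | h
  · exact h
  · exfalso
    have z0 : v 0 ^ 4 = 0 := by linarith
    have z1 : v 1 ^ 4 = 0 := by linarith
    have z2 : v 2 ^ 4 = 0 := by linarith
    have y0 : v 0 = 0 := pow_eq_zero_iff (by norm_num) |>.1 z0
    have y1 : v 1 = 0 := pow_eq_zero_iff (by norm_num) |>.1 z1
    have y2 : v 2 = 0 := pow_eq_zero_iff (by norm_num) |>.1 z2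
    have := sum_sq v hv
    rw [y0, y1, y2] at this
    norm_num at this

/-- `√ s` on the real sphere -/
noncomputable def gv (T : Tube) (v : R3) : ℝ := √((sT T (Pv v)).re)

end RSP_

open RSP_ in
theorem rsp_proof (hBET : Stmt_BET) (hTAU : Stmt_TAU) (hKKB : Stmt_KKB) (hSRG : Stmt_SRG)
    (_hSTS : Stmt_STS) : Stmt_RSP := by
  intro T A
  obtain ⟨_, hbetc, _, hmmc, _⟩ := hBET
  obtain ⟨htau, _, htaus, _, _, _, _, _, _, _, _, hth1, _, hcut, _⟩ := hTAU T A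
  have hsTc : ContinuousOn (sT T) {0}ᶜ := (hSRG T).smooth.continuousOn
  -- points
  have hPne : ∀ v ∈ sphere (0 : R3) 1, Pv v ≠ 0 := by
    intro v hv h
    have := norm_Pv v (mem_sphere_zero_iff_norm.1 hv)
    rw [h, norm_zero] at this
    exact zero_ne_one this
  have hK : IsCompact (sphere (0 : R3) 1) := isCompact_sphere 0 1
  have hnz1 : ∀ v ∈ sphere (0 : R3) 1, nz (Pv v) = Pv v := by
    intro v hv
    unfold nz
    rw [norm_Pv v (mem_sphere_zero_iff_norm.1 hv), inv_one, one_smul]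
  -- lower bound for tau
  have htc : ContinuousOn (fun v => tau A (Pv v)) (sphere (0 : R3) 1) :=
    htaus.continuousOn.comp Pv_cont.continuousOn (fun v hv => hPne v hv)
  have htp : ∀ v ∈ sphere (0 : R3) 1, 0 < tau A (Pv v) := by
    intro v hv
    obtain ⟨h1, _, h3⟩ := htau (Pv v) (hPne v hv)
    rcases lt_or_eq_of_le h1 with h | h
    · exact h
    · exfalso
      rw [← h, hnz1 v hv] at h3
      have h4 : ‖Pv v - A.q‖ = 0 := by
        have : ‖Pv v - A.q‖ ^ 2 = 0 := by linarith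
        exact pow_eq_zero_iff (by norm_num) |>.1 this
      have h5 : Pv v = A.q := sub_eq_zero.1 (norm_eq_zero.1 h4)
      obtain ⟨s, hs, hsv⟩ := sT_val T v (mem_sphere_zero_iff_norm.1 hv)
      rw [h5, A.s_q] at hsv
      have : s = 0 := by exact_mod_cast hsv.symm
      linarith
  obtain ⟨c, hc, hcb⟩ : ∃ c : ℝ, 0 < c ∧ ∀ v ∈ sphere (0 : R3) 1, c ≤ tau A (Pv v) := by
    have hne : (sphere (0 : R3) 1).Nonempty := NormedSpace.sphere_nonempty.2 zero_le_one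
    obtain ⟨x, hx, hm⟩ := hK.exists_isMinOn hne htc
    exact ⟨tau A (Pv x), htp x hx, fun v hv => hm hv⟩
  refine ⟨2 + 128 / c, by have : 0 < 128 / c := by positivity
                          linarith, fun l hl => ?_⟩
  have h128 : 0 < 128 / c := by positivity
  have hl2 : 2 ≤ l := by linarith
  have hlt : ∀ v ∈ sphere (0 : R3) 1, 128 ≤ l ^ 2 * tau A (Pv v) := by
    intro v hv
    have h1 : 128 / c ≤ l ^ 2 := by nlinarith
    have h2 : 128 / c * c ≤ l ^ 2 * c := mul_le_mul_of_nonneg_right h1 hc.le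
    rw [div_mul_cancel₀ _ hc.ne'] at h2
    exact h2.trans (mul_le_mul_of_nonneg_left (hcb v hv) (by positivity))
  have hs2 : ∀ v ∈ sphere (0 : R3) 1, s2 A l (Pv v) = sT T (Pv v) := by
    intro v hv
    have h := hlt v hv
    unfold s2 s1
    rw [hth1 _ (by linarith), (hcut 64 128 (by norm_num)).2.2.1 _ h]
    simp
  -- positivity
  obtain ⟨Φ, hΦ⟩ : ∃ Φ : ℝ × R3 → ℝ, Φ = fun p => inner ℝ (bet ((gv T p.2 : ℝ) : ℂ)
      (mm (T.G (Pv p.2, ((p.1 * gv T p.2 : ℝ) : ℂ))))) (Lv p.2) := ⟨_, rfl⟩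
  have hgc : ∀ v ∈ sphere (0 : R3) 1, ContinuousAt (gv T) v := by
    intro v hv
    have h1 : ContinuousAt (sT T) (Pv v) := hsTc.continuousAt (isOpen_ne.mem_nhds (hPne v hv))
    have h2 : ContinuousAt (fun v => sT T (Pv v)) v := h1.comp Pv_cont.continuousAt
    exact Real.continuous_sqrt.continuousAt.comp (Complex.continuous_re.continuousAt.comp h2)
  have hdd : 0 < dd T := by
    unfold dd
    have := T.δ_pos
    positivity
  have hmulc : ∀ v ∈ sphere (0 : R3) 1, ContinuousAt (fun p : ℝ × R3 => p.1 * gv T p.2) (0, v) := by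
    intro v hv
    exact continuousAt_fst.mul (ContinuousAt.comp (g := gv T) (f := fun p : ℝ × R3 => p.2)
      (x := ((0 : ℝ), v)) (hgc v hv) continuousAt_snd)
  have hev : ∀ᶠ s in 𝓝 (0 : ℝ), ∀ v ∈ sphere (0 : R3) 1, 0 < Φ (s, v) ∧ |s * gv T v| < dd T / 2 := by
    refine hK.eventually_forall_of_forall_eventually (fun v hv => ?_)
    have hv1 := mem_sphere_zero_iff_norm.1 hv
    have hg2 : ContinuousAt (fun p : ℝ × R3 => gv T p.2) (0, v) :=
      ContinuousAt.comp (g := gv T) (f := fun p : ℝ × R3 => p.2) (x := ((0 : ℝ), v)) (hgc v hv)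
        continuousAt_snd
    have hp2 : ContinuousAt (fun p : ℝ × R3 => Pv p.2) (0, v) := (Pv_cont.comp continuous_snd).continuousAt
    have hLc : ContinuousAt (fun p : ℝ × R3 => Lv p.2) (0, v) := (Lv_cont.comp continuous_snd).continuousAt
    refine Filter.Eventually.and ?_ ?_
    · -- Φ is continuous at `(0, v)` with positive value
      have hopen : IsOpen {p : C3 × ℂ | p.1 ≠ 0 ∧ ‖p.2‖ < T.δ} :=
        (isOpen_ne.preimage continuous_fst).inter
          (isOpen_lt (continuous_norm.comp continuous_snd) continuous_const)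
      have hG0 : ContinuousAt T.G (Pv v, 0) :=
        T.G_smooth.continuousOn.continuousAt (hopen.mem_nhds ⟨hPne v hv, by simpa using T.δ_pos⟩)
      have hG1 : ContinuousAt (fun p : ℝ × R3 => T.G (Pv p.2, ((p.1 * gv T p.2 : ℝ) : ℂ))) (0, v) := by
        have h1 : ContinuousAt (fun p : ℝ × R3 => (Pv p.2, ((p.1 * gv T p.2 : ℝ) : ℂ))) (0, v) :=
          hp2.prodMk (Complex.continuous_ofReal.continuousAt.comp (hmulc v hv))
        have h2 : ContinuousAt T.G (Pv v, (((0 : ℝ) * gv T v : ℝ) : ℂ)) := by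
          rw [zero_mul, Complex.ofReal_zero]
          exact hG0
        exact ContinuousAt.comp (g := T.G) h2 h1
      have hGv : T.G (Pv v, (((0 : ℝ) * gv T v : ℝ) : ℂ)) = T.ι (Pv v) := by
        rw [zero_mul, Complex.ofReal_zero, T.G_zero _ (hPne v hv)]
      have hιne : T.ι (Pv v) ≠ 0 := by
        intro h
        have := norm_ι T v hv1
        rw [h, norm_zero] at this
        exact zero_ne_one this
      have hm0 : ContinuousAt mm (T.ι (Pv v)) := hmmc.continuousAt (isOpen_ne.mem_nhds hιne)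
      have hm1 : ContinuousAt (fun p : ℝ × R3 => mm (T.G (Pv p.2, ((p.1 * gv T p.2 : ℝ) : ℂ)))) (0, v) :=
        ContinuousAt.comp (g := mm) (by
          show ContinuousAt mm (T.G (Pv v, (((0 : ℝ) * gv T v : ℝ) : ℂ)))
          rw [hGv]
          exact hm0) hG1
      have hg3 : ContinuousAt (fun p : ℝ × R3 => ((gv T p.2 : ℝ) : ℂ)) (0, v) :=
        ContinuousAt.comp (g := fun x : ℝ => (x : ℂ)) Complex.continuous_ofReal.continuousAt hg2
      have hpair : ContinuousAt (fun p : ℝ × R3 => (((gv T p.2 : ℝ) : ℂ),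
          mm (T.G (Pv p.2, ((p.1 * gv T p.2 : ℝ) : ℂ))))) (0, v) := hg3.prodMk hm1
      have hb1 : ContinuousAt ((fun q : ℂ × C3 => bet q.1 q.2) ∘ (fun p : ℝ × R3 => (((gv T p.2 : ℝ) : ℂ),
          mm (T.G (Pv p.2, ((p.1 * gv T p.2 : ℝ) : ℂ)))))) (0, v) :=
        ContinuousAt.comp hbetc.continuousAt hpair
      have hΦc : ContinuousAt Φ (0, v) := by
        rw [hΦ]
        exact hb1.inner hLc
      have hΦ0 : 0 < Φ (0, v) := by
        rw [hΦ]
        show 0 < inner ℝ (bet ((gv T v : ℝ) : ℂ)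
          (mm (T.G (Pv v, (((0 : ℝ) * gv T v : ℝ) : ℂ))))) (Lv v)
        rw [hGv]
        obtain ⟨r, hr, hmr⟩ := mm_val T v hv1
        rw [hmr, bet_val]
        have hgp : 0 < gv T v := by
          unfold gv
          obtain ⟨s, hs, hsv⟩ := sT_val T v hv1
          rw [hsv, Complex.ofReal_re]
          exact Real.sqrt_pos.2 hs
        have e : 2 * gv T v * (2 * r * v 1 ^ 3 * v 1 + r * v 2 ^ 3 * v 2 + 4 * r * v 0 ^ 3 * v 0) =
            2 * gv T v * r * (2 * v 1 ^ 4 + v 2 ^ 4 + 4 * v 0 ^ 4) := by ring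
        rw [e]
        exact mul_pos (mul_pos (mul_pos two_pos hgp) hr) (quart_pos v hv1)
      exact hΦc.eventually (isOpen_Ioi.mem_nhds hΦ0)
    · have h1 : ContinuousAt (fun p : ℝ × R3 => |p.1 * gv T p.2|) (0, v) := (hmulc v hv).abs
      refine h1.eventually (isOpen_Iio.mem_nhds ?_)
      show |(0 : ℝ) * gv T v| < dd T / 2
      rw [zero_mul, abs_zero]
      linarith
  obtain ⟨s₀, hs₀, hball⟩ := Metric.eventually_nhds_iff.1 hev
  refine ⟨s₀ ^ 2, by positivity, fun η h0 h1 => ?_⟩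
  have hsη : 0 < √η := Real.sqrt_pos.2 h0
  have hsη2 : √η < s₀ := by
    rw [Real.sqrt_lt' hs₀]
    exact h1
  have hcl := hball (y := √η) (by rw [Real.dist_eq, sub_zero, abs_of_pos hsη]; exact hsη2)
  refine ⟨fun v => ((√η * gv T v : ℝ) : ℂ), ?_, ?_⟩
  · intro v hv
    exact (Complex.continuous_ofReal.continuousAt.comp
      (continuousAt_const.mul (hgc v hv))).continuousWithinAt
  · intro v hv
    obtain ⟨hpos, hsmall⟩ := hcl v hv
    have hv1 := mem_sphere_zero_iff_norm.1 hv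
    have hnorm : ‖((√η * gv T v : ℝ) : ℂ)‖ < dd T / 2 := by
      rw [Complex.norm_real, Real.norm_eq_abs]
      exact hsmall
    refine ⟨?_, ?_, ?_, ?_⟩
    · unfold dd at hnorm
      have := T.δ_pos
      show ‖((√η * gv T v : ℝ) : ℂ)‖ < T.δ / 4
      linarith
    · show ((√η * gv T v : ℝ) : ℂ) ^ 2 = η * s2 A l (Pv v)
      rw [hs2 v hv]
      obtain ⟨s, hs, hsv⟩ := sT_val T v hv1
      have hg : gv T v = √s := by
        unfold gv
        rw [hsv, Complex.ofReal_re]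
      rw [hsv, hg, ← Complex.ofReal_pow, mul_pow, Real.sq_sqrt h0.le, Real.sq_sqrt hs.le]
      push_cast
      rfl
    · show 3 / 4 < kk A l (Pv v, ((√η * gv T v : ℝ) : ℂ))
      by_contra hcon
      have h3 := (hKKB T A l hl2).2.2.1 (Pv v) ((√η * gv T v : ℝ) : ℂ) (hPne v hv) (not_lt.1 hcon)
        (by linarith [hlt v hv])
      have h4 : ‖((√η * gv T v : ℝ) : ℂ)‖ ^ 2 < (dd T / 2) ^ 2 :=
        pow_lt_pow_left₀ hnorm (norm_nonneg _) (by norm_num)
      have h5 : (dd T / 2) ^ 2 = dd T ^ 2 / 4 := by ring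
      linarith
    · show 0 < inner ℝ (bet (((√η * gv T v : ℝ) : ℂ) / (√η : ℝ))
        (mm (T.G (Pv v, ((√η * gv T v : ℝ) : ℂ))))) (Lv v)
      have h6 : ((√η * gv T v : ℝ) : ℂ) / ((√η : ℝ) : ℂ) = ((gv T v : ℝ) : ℂ) := by
        rw [Complex.ofReal_mul, mul_div_cancel_left₀]
        rw [Ne, Complex.ofReal_eq_zero]
        exact hsη.ne'
      rw [h6]
      rw [hΦ] at hpos
      exact hpos

end Pool.Agent.KNT
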