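import Pool.Agent.KNT.Stmts

set_option autoImplicit false

open scoped ContDiff ComplexConjugate Topology
open Set

namespace Pool.Agent.KNT

namespace SAT_

theorem key (a b a' b' : ℂ) : ‖a' * a + b' * conj b‖ ^ 2 - ‖a' * b + b' * conj a‖ ^ 2 =
    (‖a'‖ ^ 2 - ‖b'‖ ^ 2) * (‖a‖ ^ 2 - ‖b‖ ^ 2) := by
  simp only [Complex.sq_norm, Complex.normSq_apply, Complex.add_re, Complex.add_im,
    Complex.mul_re, Complex.mul_im, Complex.conj_re, Complex.conj_im]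
  ring

theorem sq_lt {a b : ℂ} (h : ‖b‖ < ‖a‖) : 0 < ‖a‖ ^ 2 - ‖b‖ ^ 2 := by
  have := norm_nonneg b
  nlinarith

theorem lt_sq {a b : ℂ} (h : 0 < ‖a‖ ^ 2 - ‖b‖ ^ 2) : ‖b‖ < ‖a‖ := by
  have := norm_nonneg b
  have := norm_nonneg a
  nlinarith

end SAT_

open SAT_ in
theorem sat_proof : Stmt_SAT := by
  intro V _ _
  refine ⟨?_, ?_, ?_, ?_, ?_, ?_⟩
  · intro F z
    exact ⟨Iff.rfl, fun _ => ⟨1, 0, by simp, fun v => by simp⟩⟩
  · rintro F F' z ⟨h1, h2⟩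
    refine ⟨h1.symm, fun h => ?_⟩
    obtain ⟨a, b, hab, hv⟩ := h2 (h1.2 h)
    have hΔ := sq_lt hab
    refine ⟨conj a / ((‖a‖ ^ 2 - ‖b‖ ^ 2 : ℝ) : ℂ), -b / ((‖a‖ ^ 2 - ‖b‖ ^ 2 : ℝ) : ℂ), ?_,
      fun v => ?_⟩
    · rw [norm_div, norm_div, norm_neg, RCLike.norm_conj, Complex.norm_real,
        Real.norm_of_nonneg hΔ.le]
      exact div_lt_div_of_pos_right hab hΔ
    · rw [hv]
      have hne : ((‖a‖ ^ 2 - ‖b‖ ^ 2 : ℝ) : ℂ) ≠ 0 := by exact_mod_cast hΔ.ne'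
      have e1 : ((‖a‖ ^ 2 - ‖b‖ ^ 2 : ℝ) : ℂ) = a * conj a - b * conj b := by
        rw [Complex.mul_conj, Complex.mul_conj, Complex.normSq_eq_norm_sq,
          Complex.normSq_eq_norm_sq]
        push_cast
        ring
      simp only [map_add, map_mul, Complex.conj_conj]
      field_simp
      rw [e1]
      ring
  · rintro F F' F'' z ⟨h1, h2⟩ ⟨h3, h4⟩
    refine ⟨h1.trans h3, fun h => ?_⟩
    obtain ⟨a, b, hab, hv⟩ := h2 h
    obtain ⟨a', b', hab', hv'⟩ := h4 (h1.1 h)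
    refine ⟨a' * a + b' * conj b, a' * b + b' * conj a, lt_sq ?_, fun v => ?_⟩
    · rw [key]
      exact mul_pos (sq_lt hab') (sq_lt hab)
    · rw [hv', hv]
      simp only [map_add, map_mul, Complex.conj_conj]
      ring
  · intro F F' z h
    refine ⟨by rw [h.eq_of_nhds], fun _ => ⟨1, 0, by simp, fun v => ?_⟩⟩
    rw [h.fderiv_eq]
    simp
  · rintro F F' e z hF hF' he ⟨h1, h2⟩
    refine ⟨h1, fun h => ?_⟩
    obtain ⟨a, b, hab, hv⟩ := h2 h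
    refine ⟨a, b, hab, fun v => ?_⟩
    have e1 : fderiv ℝ (fun x => F (e x)) z = (fderiv ℝ F (e z)).comp (fderiv ℝ e z) :=
      fderiv_comp z hF he
    have e2 : fderiv ℝ (fun x => F' (e x)) z = (fderiv ℝ F' (e z)).comp (fderiv ℝ e z) :=
      fderiv_comp z hF' he
    rw [e1, e2]
    exact hv _
  · intro F F' c z hF hc hc0 h
    have hz := h.eq_of_nhds
    refine ⟨by rw [hz]; simp [hc0], fun h0 => ⟨c z, 0, by simpa using hc0, fun v => ?_⟩⟩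
    rw [h.fderiv_eq, fderiv_fun_mul hc hF, h0]
    simp

end Pool.Agent.KNT
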