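import Pool.Agent.KNT.Stmts

/-!
# Squad KNT, module SHA: smoothness and admissibility of the shell path and of `SH1`
-/

set_option autoImplicit false

open scoped ContDiff ComplexConjugate
open Set Filter Topology Metric

namespace Pool.Agent.KNT

namespace SHA_

variable {T : Tube} (A : Fr T)

lemma tau_ne {l : ℝ} {p : C3 × ℂ} (h : kk A l p ≠ 0) : tau A p.1 ≠ 0 := by
  intro h0
  apply h
  unfold kk
  rw [h0]
  simp

lemma ofReal_smooth {E : Type} [NormedAddCommGroup E] [NormedSpace ℝ E] {f : E → ℝ} {x : E}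
    (hf : ContDiffAt ℝ ∞ f x) : ContDiffAt ℝ ∞ (fun y => ((f y : ℝ) : ℂ)) x :=
  Complex.ofRealCLM.contDiff.contDiffAt.comp x hf

/-- the term of `SHt` and `SH1` -/
lemma Lt_smooth {l : ℝ} (hl : 2 ≤ l) (tsm : ContDiffOn ℝ ∞ (tau A) {0}ᶜ)
    (hLf : ContDiffOn ℝ ∞ (Lf A) {0}ᶜ) {P : C3} (hP : P ≠ 0) (hτ : tau A P ≠ 0) :
    ContDiffAt ℝ ∞ (fun P : C3 => Lf A P / ((l : ℂ) ^ 2 * (tau A P : ℂ))) P := by
  have ho : IsOpen ({0}ᶜ : Set C3) := isOpen_compl_singleton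
  have h1 : ContDiffAt ℝ ∞ (Lf A) P := hLf.contDiffAt (ho.mem_nhds hP)
  have h2 : ContDiffAt ℝ ∞ (fun P : C3 => ((tau A P : ℝ) : ℂ)) P :=
    ofReal_smooth (tsm.contDiffAt (ho.mem_nhds hP))
  have h3 : ContDiffAt ℝ ∞ (fun P : C3 => (l : ℂ) ^ 2 * (tau A P : ℂ)) P :=
    contDiffAt_const.mul h2
  have h4 : (l : ℂ) ^ 2 * (tau A P : ℂ) ≠ 0 := by
    have hl' : (l : ℂ) ≠ 0 := by
      have : l ≠ 0 := by linarith
      exact_mod_cast this
    have hτ' : (tau A P : ℂ) ≠ 0 := by exact_mod_cast hτ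
    exact mul_ne_zero (pow_ne_zero 2 hl') hτ'
  have h6 : ContDiffAt ℝ ∞ (fun P : C3 => ((l : ℂ) ^ 2 * (tau A P : ℂ))⁻¹) P := h3.inv h4
  have h5 : ContDiffAt ℝ ∞ (fun P : C3 => Lf A P * ((l : ℂ) ^ 2 * (tau A P : ℂ))⁻¹) P :=
    h1.mul h6
  exact h5.congr_of_eventuallyEq (Eventually.of_forall fun x => div_eq_mul_inv _ _)

lemma far_cw (T : Tube) {w : ℂ} (hcut : ∀ x, (T.δ / 2) ^ 2 ≤ x →
    cut ((T.δ / 4) ^ 2) ((T.δ / 2) ^ 2) x = 0) (hw : T.δ / 2 ≤ ‖w‖) : cw T w = 0 := by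
  unfold cw
  apply hcut
  have := T.δ_pos
  gcongr

end SHA_

theorem sha_proof (hTAU : Stmt_TAU) (hKKB : Stmt_KKB) : Stmt_SHA := by
  intro T A l η hl hs2
  obtain ⟨-, thom, tsm, hLf, -, -, -, -, -, -, -, -, -, hcut, hbp⟩ := hTAU T A
  obtain ⟨k1, k2, k3, khom, ksm, hχ1, hχ2⟩ := hKKB T A l hl
  have hδ := T.δ_pos
  obtain ⟨hcsm, hc1, hc0, -⟩ := hcut ((T.δ / 4) ^ 2) ((T.δ / 2) ^ 2) (by nlinarith)
  obtain ⟨-, hb1, hb0, hb0', -⟩ := hbp (1 / 4) (7 / 25) (18 / 25) (3 / 4) (by norm_num)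
    (by norm_num) (by norm_num)
  obtain ⟨-, hd1, hd0, hd0', -⟩ := hbp (3 / 10) (7 / 20) (13 / 20) (7 / 10) (by norm_num)
    (by norm_num) (by norm_num)
  -- the third item
  have h3 : ∀ P w, P ≠ 0 → 7 / 20 ≤ kk A l (P, w) → kk A l (P, w) ≤ 13 / 20 →
      SHt A l η 1 (P, w) = -(η * (Lf A P / (l ^ 2 * tau A P))) := by
    intro P w hP h7 h13
    have e1 : χ2 (kk A l (P, w)) = 1 := hd1 _ h7 h13
    have e2 : χ1 (kk A l (P, w)) = 1 := hb1 _ (by linarith) (by linarith)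
    have e3 : cw T w = 1 := (k2 P w hP (by linarith)).2.2
    simp only [SHt, S3, e1, e2, e3]
    push_cast
    ring
  -- far
  have hfar : ∀ P w, P ≠ 0 → T.δ / 2 ≤ ‖w‖ → kk A l (P, w) < 1 / 4 := by
    intro P w hP hw
    by_contra hcon
    have h1 := (k2 P w hP (not_lt.1 hcon)).1
    have h2 : (T.δ / 2) ^ 2 ≤ ‖w‖ ^ 2 := by gcongr
    unfold dd at h1
    nlinarith
  have hfarS : ∀ t P w, P ≠ 0 → T.δ / 2 ≤ ‖w‖ → SHt A l η t (P, w) = w ^ 2 := by
    intro t P w hP hw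
    have h1 := hfar P w hP hw
    have e1 : χ2 (kk A l (P, w)) = 0 := hd0 _ (by linarith)
    have e3 : cw T w = 0 := SHA_.far_cw T hc0 hw
    simp only [SHt, e1, e3]
    push_cast
    ring
  -- smoothness at a point
  have hop : IsOpen {p : C3 × ℂ | p.1 ≠ 0} := isOpen_compl_singleton.preimage continuous_fst
  have hkAt : ∀ p : C3 × ℂ, p.1 ≠ 0 → ContDiffAt ℝ ∞ (kk A l) p := fun p hp =>
    ksm.contDiffAt (hop.mem_nhds hp)
  have hterm : ∀ p : C3 × ℂ, p.1 ≠ 0 → ContDiffAt ℝ ∞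
      (fun p : C3 × ℂ => (χ1 (kk A l p) : ℂ) * (Lf A p.1 / (l ^ 2 * tau A p.1))) p := by
    intro p hp
    by_cases hτ : tau A p.1 = 0
    · have hk0 : kk A l p < 1 / 4 := by
        have : kk A l p = 0 := by
          unfold kk
          rw [hτ]
          simp
        rw [this]
        norm_num
      have hev : ∀ᶠ p' in 𝓝 p, kk A l p' < 1 / 4 :=
        (hkAt p hp).continuousAt.eventually (gt_mem_nhds hk0)
      have hev2 : (fun p : C3 × ℂ => (χ1 (kk A l p) : ℂ) *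
          (Lf A p.1 / (l ^ 2 * tau A p.1))) =ᶠ[𝓝 p] fun _ => 0 := by
        filter_upwards [hev] with p' hp'
        have e : χ1 (kk A l p') = 0 := hb0 _ hp'.le
        rw [e]
        simp
      exact contDiffAt_const.congr_of_eventuallyEq hev2
    · have h1 : ContDiffAt ℝ ∞ (fun p : C3 × ℂ => ((χ1 (kk A l p) : ℝ) : ℂ)) p :=
        SHA_.ofReal_smooth (hχ1.contDiffAt.comp p (hkAt p hp))
      have h2 : ContDiffAt ℝ ∞ (fun p : C3 × ℂ => Lf A p.1 / ((l : ℂ) ^ 2 * (tau A p.1 : ℂ))) p :=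
        (SHA_.Lt_smooth A hl tsm hLf.smooth hp hτ).comp p contDiffAt_fst
      exact h1.mul h2
  have hS3 : ∀ p : C3 × ℂ, p.1 ≠ 0 → ContDiffAt ℝ ∞ (S3 A l) p := by
    intro p hp
    have h1 : ContDiffAt ℝ ∞ (fun p : C3 × ℂ => ((χ1 (kk A l p) : ℝ) : ℂ)) p :=
      SHA_.ofReal_smooth (hχ1.contDiffAt.comp p (hkAt p hp))
    have h2 : ContDiffAt ℝ ∞ (fun p : C3 × ℂ => s2 A l p.1) p :=
      (hs2.smooth.contDiffAt (isOpen_compl_singleton.mem_nhds hp)).comp p contDiffAt_fst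
    exact ((contDiffAt_const.sub h1).mul h2).add (hterm p hp)
  have hcw : ContDiff ℝ ∞ (fun w : ℂ => ((cw T w : ℝ) : ℂ)) :=
    Complex.ofRealCLM.contDiff.comp (hcsm.comp (contDiff_norm_sq ℝ))
  have hSHt : ∀ (t : ℝ) (p : C3 × ℂ), p.1 ≠ 0 →
      ContDiffAt ℝ ∞ (fun q : ℝ × (C3 × ℂ) => SHt A l η q.1 q.2) (t, p) := by
    intro t p hp
    have h1 : ContDiffAt ℝ ∞ (fun p : C3 × ℂ => ((χ2 (kk A l p) : ℝ) : ℂ)) p :=
      SHA_.ofReal_smooth (hχ2.contDiffAt.comp p (hkAt p hp))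
    have h1' : ContDiffAt ℝ ∞ (fun q : ℝ × (C3 × ℂ) => ((χ2 (kk A l q.2) : ℝ) : ℂ)) (t, p) :=
      ContDiffAt.comp (t, p) (g := fun p : C3 × ℂ => ((χ2 (kk A l p) : ℝ) : ℂ)) h1 contDiffAt_snd
    have h2 : ContDiffAt ℝ ∞ (fun q : ℝ × (C3 × ℂ) => ((q.1 : ℝ) : ℂ)) (t, p) :=
      SHA_.ofReal_smooth contDiffAt_fst
    have h3' : ContDiffAt ℝ ∞ (fun q : ℝ × (C3 × ℂ) => q.2.2 ^ 2) (t, p) :=
      (contDiff_snd.comp contDiff_snd).contDiffAt.pow 2
    have h4 : ContDiffAt ℝ ∞ (fun q : ℝ × (C3 × ℂ) => ((cw T q.2.2 : ℝ) : ℂ)) (t, p) :=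
      (hcw.comp (contDiff_snd.comp contDiff_snd)).contDiffAt
    have h5 : ContDiffAt ℝ ∞ (fun q : ℝ × (C3 × ℂ) => S3 A l q.2) (t, p) :=
      ContDiffAt.comp (t, p) (g := S3 A l) (hS3 p hp) contDiffAt_snd
    exact ((contDiffAt_const.sub (h2.mul h1')).mul h3').sub ((contDiffAt_const.mul h4).mul h5)
  refine ⟨⟨?_, ?_, hfarS⟩, ⟨?_, ?_, ?_⟩, h3⟩
  · intro t r hr P w
    have e1 := khom r hr P w
    have e2 := thom r hr P
    have e3 := hLf.hom r hr P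
    have e4 := hs2.hom r hr P
    simp only [SHt, S3, e1, e2, e3, e4]
  · rintro ⟨t, p⟩ hp
    exact (hSHt t p hp).contDiffWithinAt
  · intro _ r hr P w
    have e1 := khom r hr P w
    have e2 := thom r hr P
    have e3 := hLf.hom r hr P
    have e4 := hs2.hom r hr P
    simp only [SH1, SHt, S3, e1, e2, e3, e4]
  · rintro ⟨t, p⟩ hp
    have hp' : p.1 ≠ 0 := hp
    have hopE : ∀ᶠ p' in 𝓝 p, p'.1 ≠ 0 := hop.mem_nhds hp'
    have hSH1 : ContDiffAt ℝ ∞ (SH1 A l η) p := by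
      by_cases hk : kk A l p < 13 / 20
      · have hev : ∀ᶠ p' in 𝓝 p, kk A l p' < 13 / 20 :=
          (hkAt p hp').continuousAt.eventually (gt_mem_nhds hk)
        have hev2 : SH1 A l η =ᶠ[𝓝 p] SHt A l η 1 := by
          filter_upwards [hev, hopE] with p' h1 h2
          unfold SH1
          split_ifs with h4
          · exact (h3 p'.1 p'.2 h2 (by
              have : kk A l (p'.1, p'.2) = kk A l p' := rfl
              rw [this]; linarith) h1.le).symm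
          · rfl
        have h6 : ContDiffAt ℝ ∞ (SHt A l η 1) p :=
          ContDiffAt.comp p (g := fun q : ℝ × (C3 × ℂ) => SHt A l η q.1 q.2)
            (f := fun p : C3 × ℂ => ((1 : ℝ), p)) (hSHt 1 p hp')
            (contDiffAt_const.prodMk contDiffAt_id)
        exact h6.congr_of_eventuallyEq hev2
      · have hk' : 1 / 2 < kk A l p := by
          have := not_lt.1 hk
          linarith
        have hev : ∀ᶠ p' in 𝓝 p, 1 / 2 < kk A l p' :=
          (hkAt p hp').continuousAt.eventually (lt_mem_nhds hk')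
        have hev2 : SH1 A l η =ᶠ[𝓝 p]
            fun p => -(η * (Lf A p.1 / (l ^ 2 * tau A p.1))) := by
          filter_upwards [hev] with p' h1
          unfold SH1
          rw [if_pos h1]
        have hτ : tau A p.1 ≠ 0 := SHA_.tau_ne A (by linarith : kk A l p ≠ 0)
        have h2 : ContDiffAt ℝ ∞
            (fun p : C3 × ℂ => Lf A p.1 / ((l : ℂ) ^ 2 * (tau A p.1 : ℂ))) p :=
          (SHA_.Lt_smooth A hl tsm hLf.smooth hp' hτ).comp p contDiffAt_fst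
        exact (contDiffAt_const.mul h2).neg.congr_of_eventuallyEq hev2
    exact (ContDiffAt.comp (t, p) (g := SH1 A l η) hSH1 contDiffAt_snd).contDiffWithinAt
  · intro _ P w hP hw
    have h1 := hfar P w hP hw
    have h2 : SH1 A l η (P, w) = SHt A l η 1 (P, w) := by
      unfold SH1
      rw [if_neg (by linarith)]
    rw [h2]
    exact hfarS 1 P w hP hw

end Pool.Agent.KNT
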