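import Pool.Agent.KNT.Stmts

set_option autoImplicit false

open scoped ContDiff ComplexConjugate
open Set Filter Topology Metric

namespace Pool.Agent.KNT

namespace SHB_

theorem key (b κ : ℝ) (hκ : 0 < κ) (u0 u2 y : ℂ) (h : b * u2 ^ 2 - κ * u0 = 0) :
    ∃ v0 v2 : ℂ, (v0 * conj u0).re + (v2 * conj u2).re = 0 ∧ 2 * b * u2 * v2 - κ * v0 = y := by
  have hκ' : (κ : ℂ) ≠ 0 := by exact_mod_cast hκ.ne'
  by_cases h2 : u2 = 0
  · have h0 : u0 = 0 := by
      rw [h2] at h
      have : (κ : ℂ) * u0 = 0 := by linear_combination -h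
      exact (mul_eq_zero.1 this).resolve_left hκ'
    refine ⟨-y / κ, 0, ?_, ?_⟩
    · simp [h0]
    · simp [h2]
      field_simp
  · set k : ℝ := 1 + 2 * b ^ 2 * ‖u2‖ ^ 2 / κ ^ 2 with hk
    have hkpos : 0 < k := by positivity
    set r : ℝ := (conj u0 * y).re / κ with hr
    set v2 : ℂ := (r / k : ℝ) / conj u2 with hv2
    have hc2 : conj u2 ≠ 0 := by simpa using h2
    have hv2' : v2 * conj u2 = (r / k : ℝ) := by
      rw [hv2]; field_simp
    refine ⟨(2 * b * u2 * v2 - y) / κ, v2, ?_, ?_⟩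
    · rw [hv2']
      have hu0 : conj u0 = b * conj u2 ^ 2 / κ := by
        have h1 := congrArg conj h
        simp only [map_sub, map_mul, map_pow, Complex.conj_ofReal, map_zero] at h1
        field_simp
        linear_combination -h1
      have e1 : (2 * b * u2 * v2 - y) / κ * conj u0
          = ((2 * b ^ 2 * ‖u2‖ ^ 2 / κ ^ 2 * (r / k) : ℝ) : ℂ) - conj u0 * y / κ := by
        have e2 : (2 * b * u2 * v2) / κ * conj u0
          = ((2 * b ^ 2 * ‖u2‖ ^ 2 / κ ^ 2 * (r / k) : ℝ) : ℂ) := by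
          have e3 : conj u2 * u2 = ((‖u2‖ ^ 2 : ℝ) : ℂ) := by
            rw [Complex.conj_mul']; push_cast; rfl
          calc (2 * b * u2 * v2) / κ * conj u0
              = 2 * b ^ 2 / κ ^ 2 * (conj u2 * u2) * (v2 * conj u2) := by
                rw [hu0]; field_simp
            _ = _ := by rw [e3, hv2']; push_cast; ring
        rw [← e2]; ring
      have e4 : (conj u0 * y / κ).re = r := by
        rw [hr, ← Complex.div_ofReal_re]
      have hko : k = 1 + 2 * b ^ 2 * ‖u2‖ ^ 2 / κ ^ 2 := hk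
      rw [e1, Complex.sub_re, e4, Complex.ofReal_re, Complex.ofReal_re]
      have e5 : 2 * b ^ 2 * ‖u2‖ ^ 2 / κ ^ 2 = k - 1 := by rw [hko]; ring
      rw [e5]
      field_simp
      ring
    · field_simp
      ring

end SHB_

theorem shb_proof : Stmt_SHB := by
  intro b κ u hκ _ _ h y
  obtain ⟨v0, v2, h1, h2⟩ := SHB_.key b κ hκ (u 0) (u 2) y h
  refine ⟨!₂[v0, 0, v2, 0], ?_, ?_, ?_⟩
  · simp
  · rw [PiLp.inner_apply, Fin.sum_univ_four]
    simpa using h1
  · simpa using h2

end Pool.Agent.KNT
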