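import Pool.Agent.KNT.Stmts

/-!
# SHG: regularity of the shell path
-/

set_option autoImplicit false

open scoped ContDiff ComplexConjugate Topology
open Set

namespace Pool.Agent.KNT

namespace SHG_

theorem mem_nhds_ne {P : C3} {w : ℂ} (hP : P ≠ 0) : {p : C3 × ℂ | p.1 ≠ 0} ∈ 𝓝 (P, w) :=
  (isOpen_ne.preimage continuous_fst).mem_nhds hP

/-- regularity of the flat model -/
theorem flat_surj {T : Tube} (A : Fr T) (l η : ℝ) (hl : 2 ≤ l) (hη : 0 < η) {P : C3} {w : ℂ}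
    (hP : P ≠ 0) (hτ : 0 < tau A P) (hτd : DifferentiableAt ℝ (tau A) P)
    (hLd : DifferentiableAt ℝ (Lf A) P) (hL : Lf A P = 0)
    (hs : Function.Surjective (fderiv ℝ (Lf A) P)) :
    Function.Surjective (fderiv ℝ
      (fun p : C3 × ℂ => -((η : ℂ) * (Lf A p.1 / ((l : ℂ) ^ 2 * (tau A p.1 : ℂ))))) (P, w)) := by
  have hl0 : (l : ℂ) ≠ 0 := by
    have : l ≠ 0 := by linarith
    exact_mod_cast this
  have hτ0 : (tau A P : ℂ) ≠ 0 := by exact_mod_cast hτ.ne'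
  have hη0 : (η : ℂ) ≠ 0 := by exact_mod_cast hη.ne'
  have h1 : HasFDerivAt (fun p : C3 × ℂ => Lf A p.1)
      ((fderiv ℝ (Lf A) P).comp (ContinuousLinearMap.fst ℝ C3 ℂ)) (P, w) := by
    have h0 : HasFDerivAt (Lf A) (fderiv ℝ (Lf A) P) ((P, w) : C3 × ℂ).1 := hLd.hasFDerivAt
    exact h0.comp (P, w) (hasFDerivAt_fst (𝕜 := ℝ) (p := (P, w)))
  have h2 : DifferentiableAt ℝ (fun p : C3 × ℂ => (tau A p.1 : ℂ)) (P, w) := by
    have h3 : DifferentiableAt ℝ (fun p : C3 × ℂ => tau A p.1) (P, w) := by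
      have h0 : DifferentiableAt ℝ (tau A) ((P, w) : C3 × ℂ).1 := hτd
      exact h0.comp (P, w) differentiableAt_fst
    exact Complex.ofRealCLM.differentiableAt.comp (P, w) h3
  have h4 : DifferentiableAt ℝ
      (fun p : C3 × ℂ => -((η : ℂ) * ((l : ℂ) ^ 2 * (tau A p.1 : ℂ))⁻¹)) (P, w) := by
    refine ((DifferentiableAt.inv ?_ ?_).const_mul (η : ℂ)).neg
    · exact h2.const_mul _
    · exact mul_ne_zero (pow_ne_zero 2 hl0) hτ0
  have h5 := h4.hasFDerivAt.mul h1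
  have h6 : (fun p : C3 × ℂ => -((η : ℂ) * (Lf A p.1 / ((l : ℂ) ^ 2 * (tau A p.1 : ℂ))))) =
      fun p : C3 × ℂ => -((η : ℂ) * ((l : ℂ) ^ 2 * (tau A p.1 : ℂ))⁻¹) * Lf A p.1 := by
    funext p
    rw [div_eq_mul_inv]
    ring
  rw [h6]
  have h7 := h5.fderiv
  have h8 : fderiv ℝ (fun p : C3 × ℂ => -((η : ℂ) * ((l : ℂ) ^ 2 * (tau A p.1 : ℂ))⁻¹) * Lf A p.1)
      (P, w) = _ := h7
  rw [h8]
  intro y
  obtain ⟨v, hv⟩ := hs (y / (-((η : ℂ) * ((l : ℂ) ^ 2 * (tau A P : ℂ))⁻¹)))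
  refine ⟨(v, 0), ?_⟩
  have hc : (-((η : ℂ) * ((l : ℂ) ^ 2 * (tau A P : ℂ))⁻¹)) ≠ 0 :=
    neg_ne_zero.2 (mul_ne_zero hη0 (inv_ne_zero (mul_ne_zero (pow_ne_zero 2 hl0) hτ0)))
  simp only [add_apply, smul_apply, ContinuousLinearMap.comp_apply,
    ContinuousLinearMap.coe_fst', hL, zero_mul, add_zero, hv, smul_eq_mul]
  rw [mul_div_cancel₀ _ hc]

end SHG_

open SHG_

theorem shg_proof (hTAU : Stmt_TAU) (hKKB : Stmt_KKB) (hSHA : Stmt_SHA) (hSHZ : Stmt_SHZ)
    (hSHR : Stmt_SHR) (hBFR : Stmt_BFR) : Stmt_SHG := by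
  intro T A l hl hs2
  obtain ⟨-, η₁, hη₁, hB⟩ := hBFR T (fun _ => s2 A l)
    ⟨fun t r hr z => hs2.hom r hr z, hs2.smooth.comp contDiff_snd.contDiffOn (fun p hp => hp)⟩
    (fun t _ => hs2.reg)
  obtain ⟨η₂, hη₂, hZ⟩ := hSHZ T A l hl hs2
  obtain ⟨hτ, -, hτd, hLf, -, -, -, hLs, -, -, -, -, -, -, hbp⟩ := hTAU T A
  obtain ⟨-, hK2, -, -, hKd, -, -⟩ := hKKB T A l hl
  obtain ⟨-, hχ1, hχ2, hχ3, -⟩ := hbp (3 / 10) (7 / 20) (13 / 20) (7 / 10) (by norm_num)
    (by norm_num) (by norm_num)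
  refine ⟨min η₁ η₂, lt_min hη₁ hη₂, fun η hη hη' => ?_⟩
  have hb := hB η hη (hη'.trans_le (min_le_left _ _)) 0 (by simp)
  have hz := (hZ η hη (hη'.trans_le (min_le_right _ _))).1
  have hkc : ∀ P w, P ≠ 0 → ContinuousAt (kk A l) (P, w) := fun P w hP =>
    (hKd.continuousOn).continuousAt (mem_nhds_ne hP)
  have main : ∀ t ∈ Icc (0 : ℝ) 1, TReg (SHt A l η t) := by
    intro t ht P w hP h0
    by_cases hk : 3 / 10 ≤ kk A l (P, w) ∧ kk A l (P, w) ≤ 7 / 10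
    · exact hSHR T A l η hl hη hs2 t ht P w hP hk.1 hk.2 h0
    have hk' : kk A l (P, w) < 3 / 10 ∨ 7 / 10 < kk A l (P, w) := by
      by_contra h
      push Not at h
      exact hk h
    have hχ : ∀ᶠ p in 𝓝 (P, w), χ2 (kk A l p) = 0 := by
      rcases hk' with h | h
      · filter_upwards [(hkc P w hP).eventually_lt continuousAt_const h] with p hp
        exact hχ2 _ hp.le
      · filter_upwards [continuousAt_const.eventually_lt (hkc P w hP) h] with p hp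
        exact hχ3 _ hp.le
    have h1 := (hz t ht P w hP (hk'.elim (fun h => Or.inl h.le) fun h => Or.inr (Or.inl h.le)) h0).1
    have h2 : SHt A l η t =ᶠ[𝓝 (P, w)] BF T η (s2 A l) := by
      filter_upwards [h1, hχ] with p hp hp'
      simp only [SHt, BF, hp, hp', Complex.ofReal_zero, mul_zero, sub_zero, one_mul]
    rw [h2.fderiv_eq]
    exact hb P w hP (by rw [← h2.eq_of_nhds]; exact h0)
  refine ⟨main, ?_⟩
  intro P w hP h0
  by_cases hk : 1 / 2 < kk A l (P, w)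
  · have h1 : SH1 A l η =ᶠ[𝓝 (P, w)]
        fun p : C3 × ℂ => -((η : ℂ) * (Lf A p.1 / ((l : ℂ) ^ 2 * (tau A p.1 : ℂ)))) := by
      filter_upwards [continuousAt_const.eventually_lt (hkc P w hP) hk] with p hp
      exact if_pos hp
    have h2 : 1 / 2 < l ^ 2 * tau A P := (hK2 P w hP (by linarith)).2.1
    have h3 : 0 < tau A P := by
      by_contra h
      push Not at h
      have : l ^ 2 * tau A P ≤ 0 := mul_nonpos_of_nonneg_of_nonpos (sq_nonneg l) h
      linarith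
    have h4 : Lf A P = 0 := by
      have h5 := h1.eq_of_nhds
      rw [h0] at h5
      have h6 : (η : ℂ) * (Lf A P / ((l : ℂ) ^ 2 * (tau A P : ℂ))) = 0 := by
        rw [← neg_eq_zero]
        exact h5.symm
      have hη0 : (η : ℂ) ≠ 0 := by exact_mod_cast hη.ne'
      have hx0 : ((l : ℂ) ^ 2 * (tau A P : ℂ)) ≠ 0 := by
        have : l ^ 2 * tau A P ≠ 0 := by linarith
        exact_mod_cast this
      rcases mul_eq_zero.1 h6 with h7 | h7
      · exact absurd h7 hη0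
      · exact (div_eq_zero_iff.1 h7).resolve_right hx0
    rw [h1.fderiv_eq]
    have hn : ({0}ᶜ : Set C3) ∈ 𝓝 P := isOpen_compl_singleton.mem_nhds hP
    exact flat_surj A l η hl hη hP h3
      ((hτd.contDiffAt hn).differentiableAt (by norm_num))
      ((hLf.smooth.contDiffAt hn).differentiableAt (by norm_num)) h4 (hLs P hP h4)
  · have h1 : SH1 A l η =ᶠ[𝓝 (P, w)] SHt A l η 1 := by
      have hk' : kk A l (P, w) < 13 / 20 := by
        push Not at hk
        linarith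
      filter_upwards [(hkc P w hP).eventually_lt continuousAt_const hk', mem_nhds_ne hP]
        with p hp hp0
      unfold SH1
      split_ifs with h
      · exact ((hSHA T A l η hl hs2).2.2 p.1 p.2 hp0 (by linarith) hp.le).symm
      · rfl
    rw [h1.fderiv_eq]
    exact main 1 (by simp) P w hP (by rw [← h1.eq_of_nhds]; exact h0)

end Pool.Agent.KNT
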