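import Pool.Agent.KNT.Stmts

set_option autoImplicit false

open scoped ContDiff ComplexConjugate
open Set Filter Topology Metric

namespace Pool.Agent.KNT

namespace SHR_

lemma coord (f : ℝ → C4) (v : C4) (x : ℝ) (h : HasDerivAt f v x) (i : Fin 4) :
    HasDerivAt (fun s => (f s) i) (v i) x := by
  have := (((EuclideanSpace.proj i : C4 →L[ℂ] ℂ).restrictScalars ℝ).hasFDerivAt
    (x := f x)).comp_hasDerivAt x h
  exact this

lemma hasDerivAt_nz (z v : C4) (hz : z ≠ 0) (h : inner ℝ (nz z) v = 0) :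
    HasDerivAt (fun s : ℝ => nz (z + s • (‖z‖ • v))) v 0 := by
  have hn : ‖z‖ ≠ 0 := norm_ne_zero_iff.2 hz
  have h0 : inner ℝ z v = 0 := by
    unfold nz at h
    rw [real_inner_smul_left] at h
    rcases mul_eq_zero.1 h with h | h
    · exact absurd (inv_eq_zero.1 h) hn
    · exact h
  have h1 : HasDerivAt (fun s : ℝ => z + s • (‖z‖ • v)) (‖z‖ • v) 0 := by
    have := ((hasDerivAt_id (0 : ℝ)).smul_const (‖z‖ • v)).const_add z
    simpa using this
  have h2 := h1.norm_sq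
  have h3 : HasDerivAt (fun s : ℝ => ‖z + s • (‖z‖ • v)‖ ^ 2) 0 0 := by
    have e : (2 * inner ℝ (z + (0 : ℝ) • (‖z‖ • v)) (‖z‖ • v)) = (0 : ℝ) := by
      rw [zero_smul, add_zero, real_inner_smul_right, h0]; ring
    exact h2.congr_deriv e
  have h4 : HasDerivAt (fun s : ℝ => ‖z + s • (‖z‖ • v)‖) 0 0 := by
    have hne : ‖z + (0 : ℝ) • (‖z‖ • v)‖ ^ 2 ≠ 0 := by
      rw [zero_smul, add_zero]; exact pow_ne_zero 2 hn
    have := h3.sqrt hne
    simp only [Real.sqrt_sq (norm_nonneg _), zero_div] at this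
    exact this
  have h5 : HasDerivAt (fun s : ℝ => ‖z + s • (‖z‖ • v)‖⁻¹) 0 0 := by
    have hne : ‖z + (0 : ℝ) • (‖z‖ • v)‖ ≠ 0 := by
      rw [zero_smul, add_zero]; exact hn
    exact (h4.inv hne).congr_deriv (by simp)
  have h6 := h5.smul h1
  have e : ‖z + (0 : ℝ) • (‖z‖ • v)‖⁻¹ • (‖z‖ • v) + (0 : ℝ) • (z + (0 : ℝ) • (‖z‖ • v)) = v := by
    rw [zero_smul, zero_smul, add_zero, add_zero, smul_smul, inv_mul_cancel₀ hn, one_smul]
  rw [e] at h6
  exact h6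

end SHR_

open SHR_

theorem shr_proof (hTAU : Stmt_TAU) (hKKB : Stmt_KKB) (hCHT : Stmt_CHT) (hCHS : Stmt_CHS)
    (hSHB : Stmt_SHB) : Stmt_SHR := by
  intro T A l η hl hη _ t ht P w hP hk1 hk2 h0
  obtain ⟨-, -, hτs, hLfs, -, -, -, -, -, -, -, -, -, -, hbp⟩ := hTAU T A
  obtain ⟨-, hK2, -, -, hkks, -, hχ2⟩ := hKKB T A l hl
  obtain ⟨hC1, hC2⟩ := hCHT T A 1 l hl (Or.inl rfl)
  obtain ⟨hSm, -, -, -⟩ := hCHS T A 1 l hl (Or.inl rfl)
  have hl0 : (0 : ℝ) < l := by linarith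
  have hinf : (∞ : WithTop ℕ∞) ≠ 0 := by simp
  have ho : IsOpen {p : C3 × ℂ | p.1 ≠ 0} := isOpen_ne_fun continuous_fst continuous_const
  have hPm : ((P, w) : C3 × ℂ) ∈ {p : C3 × ℂ | p.1 ≠ 0} := hP
  obtain ⟨hKw, hKτ, hKc⟩ := hK2 P w hP (by linarith)
  have hτ : 0 < tau A P := by
    by_contra h
    have : l ^ 2 * tau A P ≤ 0 := mul_nonpos_of_nonneg_of_nonpos (by positivity) (not_lt.1 h)
    linarith
  obtain ⟨hz1, hz2, hz3⟩ := hC2 P w hP
  have hz3' := hz3 hτ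
  set z : C4 := Si A 1 l (P, w) with hzdef
  have hz : z ≠ 0 := by
    intro h
    rw [h, norm_zero] at hz1
    exact hP (norm_eq_zero.1 hz1.symm)
  have hnz : ‖z‖ ≠ 0 := norm_ne_zero_iff.2 hz
  have hnzp : 0 < ‖z‖ := norm_pos_iff.2 hz
  have hDval : Dq (nz z) = 2 * kk A l (P, w) := hz2
  have hDpos : 0 < Dq (nz z) := by rw [hDval]; linarith
  -- the open set
  have hoz : IsOpen {z : C4 | (z 3).re < ‖z‖} := by
    apply isOpen_lt
    · exact Complex.continuous_re.comp ((EuclideanSpace.proj (3 : Fin 4) : C4 →L[ℂ] ℂ).continuous)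
    · exact continuous_norm
  have hzm : z ∈ {z : C4 | (z 3).re < ‖z‖} := by
    have h1 : Dq (nz z) = 1 - ‖z‖⁻¹ * (z 3).re := by
      unfold Dq nz
      simp
    rw [h1] at hDpos
    have h2 : ‖z‖⁻¹ * (z 3).re < 1 := by linarith
    show (z 3).re < ‖z‖
    rwa [inv_mul_lt_iff₀ hnzp, mul_one] at h2
  -- SHt near (P,w)
  have hkkc : ContinuousAt (kk A l) (P, w) := (hkks _ hPm).contDiffAt (ho.mem_nhds hPm) |>.continuousAt
  have hev : ∀ᶠ p in 𝓝 ((P, w) : C3 × ℂ), SHt A l η t p =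
      (1 - t * χ2 (kk A l p)) * p.2 ^ 2 - η * (Lf A p.1 / (l ^ 2 * tau A p.1)) := by
    have e1 : ∀ᶠ p in 𝓝 ((P, w) : C3 × ℂ), kk A l p ∈ Ioo (7 / 25 : ℝ) (18 / 25) :=
      hkkc.eventually_mem (Ioo_mem_nhds (by linarith) (by linarith))
    filter_upwards [e1, ho.mem_nhds hPm] with p hp1 hp2
    obtain ⟨Q, w'⟩ := p
    have hcw := (hK2 Q w' hp2 (by linarith [hp1.1])).2.2
    have hχ : χ1 (kk A l (Q, w')) = 1 := by
      unfold χ1
      exact (hbp (1 / 4) (7 / 25) (18 / 25) (3 / 4) (by norm_num) (by norm_num) (by norm_num)).2.1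
        _ hp1.1.le hp1.2.le
    unfold SHt S3
    rw [hcw, hχ]
    push_cast
    ring
  have hev' : ∀ᶠ z' in 𝓝 z, SHt A l η t (Sm A 1 l z') =
      (1 - t * χ2 (Dq (nz z') / 2)) * (dd T * (nz z') 2 / Dq (nz z')) ^ 2 -
        η * (A.C / l * ((nz z') 0 / Dq (nz z'))) := by
    have hSc : ContinuousAt (Sm A 1 l) z := ((hSm _ hzm).contDiffAt (hoz.mem_nhds hzm)).continuousAt
    have h1 : Tendsto (Sm A 1 l) (𝓝 z) (𝓝 ((P, w) : C3 × ℂ)) := by
      have : Sm A 1 l z = (P, w) := hz3'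
      rw [← this]; exact hSc
    filter_upwards [h1.eventually hev, hoz.mem_nhds hzm, isOpen_ne.mem_nhds hz] with z' h2 h3 h4
    obtain ⟨-, -, -, g4, g5⟩ := hC1 z' h4 h3
    rw [h2, g4, g5]
    rfl
  -- differentiability
  have hdS : DifferentiableAt ℝ (SHt A l η t) (P, w) := by
    have hd1 : DifferentiableAt ℝ (fun p : C3 × ℂ =>
        ((1 - t * χ2 (kk A l p)) * p.2 ^ 2 - η * (Lf A p.1 / (l ^ 2 * tau A p.1)) : ℂ)) (P, w) := by
      have a1 : DifferentiableAt ℝ (kk A l) (P, w) :=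
        ((hkks _ hPm).contDiffAt (ho.mem_nhds hPm)).differentiableAt hinf
      have a2 : DifferentiableAt ℝ (fun p => χ2 (kk A l p)) (P, w) :=
        ((hχ2.differentiable hinf) _).comp _ a1
      have a3 : DifferentiableAt ℝ (fun p : C3 × ℂ => ((χ2 (kk A l p) : ℝ) : ℂ)) (P, w) :=
        (Complex.ofRealCLM.differentiableAt).comp _ a2
      have a4 : DifferentiableAt ℝ (Lf A) P :=
        ((hLfs.smooth P hP).contDiffAt (isOpen_compl_singleton.mem_nhds hP)).differentiableAt hinf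
      have a4' : DifferentiableAt ℝ (fun p : C3 × ℂ => Lf A p.1) (P, w) :=
        DifferentiableAt.comp (P, w) (f := Prod.fst) a4 differentiableAt_fst
      have a5 : DifferentiableAt ℝ (tau A) P :=
        ((hτs P hP).contDiffAt (isOpen_compl_singleton.mem_nhds hP)).differentiableAt hinf
      have a5' : DifferentiableAt ℝ (fun p : C3 × ℂ => tau A p.1) (P, w) :=
        DifferentiableAt.comp (P, w) (f := Prod.fst) a5 differentiableAt_fst
      have a6 : DifferentiableAt ℝ (fun p : C3 × ℂ => ((tau A p.1 : ℝ) : ℂ)) (P, w) :=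
        (Complex.ofRealCLM.differentiableAt).comp _ a5'
      have a7 : DifferentiableAt ℝ (fun p : C3 × ℂ => p.2) (P, w) := differentiableAt_snd
      have hne : ((l : ℂ) ^ 2 * (tau A P : ℂ)) ≠ 0 := by
        have h1 : (l : ℂ) ≠ 0 := by exact_mod_cast hl0.ne'
        have h2 : (tau A P : ℂ) ≠ 0 := by exact_mod_cast hτ.ne'
        exact mul_ne_zero (pow_ne_zero 2 h1) h2
      have a9 : DifferentiableAt ℝ (fun p : C3 × ℂ => (l : ℂ) ^ 2 * (tau A p.1 : ℂ)) (P, w) :=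
        (differentiableAt_const _).mul a6
      have a9' : DifferentiableAt ℝ (fun p : C3 × ℂ => ((l : ℂ) ^ 2 * (tau A p.1 : ℂ))⁻¹) (P, w) :=
        DifferentiableAt.inv a9 (by exact hne)
      have a10 : DifferentiableAt ℝ (fun p : C3 × ℂ => Lf A p.1 / ((l : ℂ) ^ 2 * (tau A p.1 : ℂ)))
          (P, w) := by
        simp only [div_eq_mul_inv]
        exact a4'.mul a9'
      exact (((differentiableAt_const _).sub ((differentiableAt_const _).mul a3)).mul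
        (a7.pow 2)).sub ((differentiableAt_const _).mul a10)
    exact hd1.congr_of_eventuallyEq hev
  have hdSm : DifferentiableAt ℝ (Sm A 1 l) z :=
    ((hSm _ hzm).contDiffAt (hoz.mem_nhds hzm)).differentiableAt hinf
  -- notation at z
  set D : ℝ := Dq (nz z) with hD
  set u : C4 := nz z with hu
  set β : ℝ := (1 - t * χ2 (D / 2)) * dd T ^ 2 / D with hβ
  set κ : ℝ := η * A.C / l with hκ
  have hκ0 : 0 < κ := by rw [hκ]; have := A.C_pos; positivity
  have hχ01 : 0 ≤ χ2 (D / 2) ∧ χ2 (D / 2) ≤ 1 := by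
    unfold χ2
    exact (hbp (3 / 10) (7 / 20) (13 / 20) (7 / 10) (by norm_num) (by norm_num)
      (by norm_num)).2.2.2.2 _
  have hβ0 : 0 ≤ β := by
    have h1 : t * χ2 (D / 2) ≤ 1 := by
      calc t * χ2 (D / 2) ≤ 1 * 1 := mul_le_mul ht.2 hχ01.2 hχ01.1 (by norm_num)
        _ = 1 := by norm_num
    rw [hβ]
    apply div_nonneg (mul_nonneg (by linarith) (sq_nonneg _)) hDpos.le
  have hDc : (D : ℂ) ≠ 0 := by exact_mod_cast hDpos.ne'
  have hlc : (l : ℂ) ≠ 0 := by exact_mod_cast hl0.ne'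
  have hun : ‖u‖ = 1 := by
    rw [hu]; unfold nz
    rw [norm_smul, norm_inv, norm_norm, inv_mul_cancel₀ hnz]
  have hzero : (β : ℂ) * u 2 ^ 2 - κ * u 0 = 0 := by
    have h1 := hev'.self_of_nhds
    rw [hz3', h0] at h1
    have h2 : (β : ℂ) * u 2 ^ 2 - κ * u 0 = D * ((1 - t * χ2 (D / 2)) * (dd T * u 2 / D) ^ 2 -
        η * (A.C / l * (u 0 / D))) := by
      rw [hβ, hκ]
      push_cast
      field_simp
    rw [h2, ← h1, mul_zero]
  intro y
  obtain ⟨v, hv3, hvu, hvy⟩ := hSHB β κ u hκ0 hβ0 hun hzero (D * y)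
  refine ⟨fderiv ℝ (Sm A 1 l) z (‖z‖ • v), ?_⟩
  -- the curve
  have c1 : HasDerivAt (fun s : ℝ => z + s • (‖z‖ • v)) (‖z‖ • v) 0 := by
    have := ((hasDerivAt_id (0 : ℝ)).smul_const (‖z‖ • v)).const_add z
    simpa using this
  have hz00 : z + (0 : ℝ) • (‖z‖ • v) = z := by rw [zero_smul, add_zero]
  have c2 : HasDerivAt (fun s : ℝ => SHt A l η t (Sm A 1 l (z + s • (‖z‖ • v))))
      (fderiv ℝ (SHt A l η t) (P, w) (fderiv ℝ (Sm A 1 l) z (‖z‖ • v))) 0 := by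
    have d1 : HasFDerivAt (Sm A 1 l) (fderiv ℝ (Sm A 1 l) z) (z + (0 : ℝ) • (‖z‖ • v)) := by
      rw [hz00]; exact hdSm.hasFDerivAt
    have d2 := d1.comp_hasDerivAt (0 : ℝ) c1
    have d3 : HasFDerivAt (SHt A l η t) (fderiv ℝ (SHt A l η t) (P, w))
        ((Sm A 1 l ∘ fun s : ℝ => z + s • (‖z‖ • v)) 0) := by
      have : (Sm A 1 l ∘ fun s : ℝ => z + s • (‖z‖ • v)) 0 = (P, w) := by
        simp only [Function.comp_apply, hz00]; exact hz3'
      rw [this]; exact hdS.hasFDerivAt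
    exact d3.comp_hasDerivAt (0 : ℝ) d2
  have n1 := hasDerivAt_nz z v hz hvu
  have n2 := coord _ _ _ n1 2
  have n0 := coord _ _ _ n1 0
  have n3 := coord _ _ _ n1 3
  have nD : HasDerivAt (fun s : ℝ => Dq (nz (z + s • (‖z‖ • v)))) 0 0 := by
    have := ((Complex.reCLM.hasFDerivAt).comp_hasDerivAt (0 : ℝ) n3).const_sub 1
    simp only [Complex.reCLM_apply, hv3, neg_zero] at this
    exact this
  have nχ : HasDerivAt (fun s : ℝ => χ2 (Dq (nz (z + s • (‖z‖ • v))) / 2)) 0 0 := by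
    have g1 : DifferentiableAt ℝ χ2 (Dq (nz (z + (0 : ℝ) • (‖z‖ • v))) / 2) :=
      (hχ2.differentiable hinf) _
    have g2 := g1.hasDerivAt.comp (0 : ℝ) (nD.div_const 2)
    exact g2.congr_deriv (by simp)
  have nDc : HasDerivAt (fun s : ℝ => ((Dq (nz (z + s • (‖z‖ • v))) : ℝ) : ℂ)) 0 0 := by
    have := nD.ofReal_comp
    simpa using this
  have nχc : HasDerivAt (fun s : ℝ => ((χ2 (Dq (nz (z + s • (‖z‖ • v))) / 2) : ℝ) : ℂ)) 0 0 := by
    have := nχ.ofReal_comp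
    simpa using this
  have hD0c : ((Dq (nz (z + (0 : ℝ) • (‖z‖ • v))) : ℝ) : ℂ) ≠ 0 := by
    rw [hz00]; exact hDc
  have c3 : HasDerivAt (fun s : ℝ =>
      ((1 - t * χ2 (Dq (nz (z + s • (‖z‖ • v))) / 2)) *
        (dd T * (nz (z + s • (‖z‖ • v))) 2 / Dq (nz (z + s • (‖z‖ • v)))) ^ 2 -
        η * (A.C / l * ((nz (z + s • (‖z‖ • v))) 0 / Dq (nz (z + s • (‖z‖ • v))))) : ℂ)) y 0 := by
    have m1 := (nχc.const_mul (t : ℂ)).const_sub (1 : ℂ)
    have m2 := ((n2.const_mul (dd T : ℂ)).div nDc hD0c).pow 2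
    have m3 := ((n0.div nDc hD0c).const_mul ((A.C : ℂ) / l)).const_mul (η : ℂ)
    have m4 := (m1.mul m2).sub m3
    refine m4.congr_deriv ?_
    simp only [hz00]
    have hy : y = (D : ℂ)⁻¹ * (2 * β * u 2 * v 2 - κ * v 0) := by
      rw [hvy, ← mul_assoc, inv_mul_cancel₀ hDc, one_mul]
    rw [hy, hβ, hκ]
    push_cast
    simp only [← hu, ← hD]
    simp only [Pi.div_apply, Pi.pow_apply, hz00, ← hu, ← hD]
    field_simp
    ring
  have c4 : (fun s : ℝ => SHt A l η t (Sm A 1 l (z + s • (‖z‖ • v)))) =ᶠ[𝓝 0] (fun s : ℝ =>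
      ((1 - t * χ2 (Dq (nz (z + s • (‖z‖ • v))) / 2)) *
        (dd T * (nz (z + s • (‖z‖ • v))) 2 / Dq (nz (z + s • (‖z‖ • v)))) ^ 2 -
        η * (A.C / l * ((nz (z + s • (‖z‖ • v))) 0 / Dq (nz (z + s • (‖z‖ • v))))) : ℂ)) := by
    have hc : Tendsto (fun s : ℝ => z + s • (‖z‖ • v)) (𝓝 0) (𝓝 z) := by
      have := c1.continuousAt.tendsto
      rwa [hz00] at this
    exact hc.eventually hev'
  exact c2.unique (c3.congr_of_eventuallyEq c4)

end Pool.Agent.KNT
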