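import Pool.Agent.KNT.Stmts

/-!
# SHZ: the zeros of the shell path
-/

set_option autoImplicit false

open scoped ContDiff ComplexConjugate Topology
open Set

namespace Pool.Agent.KNT

namespace SHZ_

theorem mem_nhds_ne {P : C3} {w : ℂ} (hP : P ≠ 0) : {p : C3 × ℂ | p.1 ≠ 0} ∈ 𝓝 (P, w) :=
  (isOpen_ne.preimage continuous_fst).mem_nhds hP

theorem bound {F : C3 → ℂ} (hF : SFun F) : ∃ M : ℝ, 0 ≤ M ∧ ∀ P, P ≠ 0 → ‖F P‖ ≤ M := by
  obtain ⟨M, hM⟩ := (isCompact_sphere (0 : C3) 1).exists_bound_of_continuousOn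
    (f := F) (hF.smooth.continuousOn.mono (by
      intro P hP h0
      rw [h0] at hP
      simp at hP))
  refine ⟨max M 0, le_max_right _ _, fun P hP => ?_⟩
  have hn : 0 < ‖P‖ := norm_pos_iff.2 hP
  have h1 := hF.hom (‖P‖⁻¹) (inv_pos.2 hn) P
  rw [← h1]
  refine (hM _ ?_).trans (le_max_left _ _)
  rw [mem_sphere_zero_iff_norm, norm_smul, norm_inv, norm_norm, inv_mul_cancel₀ hn.ne']

theorem S3_near {T : Tube} (A : Fr T) (l : ℝ) (hl : 2 ≤ l) (hTAU : Stmt_TAU) (hKKB : Stmt_KKB)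
    {P : C3} {w : ℂ} (hP : P ≠ 0) (hw : ‖w‖ ^ 2 < dd T ^ 2 / 4) :
    S3 A l =ᶠ[𝓝 (P, w)] fun p => s2 A l p.1 := by
  obtain ⟨-, -, hτd, -, -, -, -, -, -, -, hth, -, -, hcut, hbp⟩ := hTAU T A
  obtain ⟨-, hK2, hK3, -, hKd, -, -⟩ := hKKB T A l hl
  obtain ⟨-, -, hχ2, hχ3, -⟩ := hbp (1 / 4) (7 / 25) (18 / 25) (3 / 4) (by norm_num)
    (by norm_num) (by norm_num)
  have hkc : ContinuousAt (kk A l) (P, w) :=
    (hKd.continuousOn).continuousAt (mem_nhds_ne hP)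
  by_cases hk : 1 / 4 ≤ kk A l (P, w) ∧ kk A l (P, w) ≤ 3 / 4
  · have h1 : 1 / 2 < l ^ 2 * tau A P := (hK2 P w hP hk.1).2.1
    have h2 : l ^ 2 * tau A P < 32 := by
      by_contra h
      push Not at h
      have := hK3 P w hP hk.2 h
      linarith
    have hn : ({0}ᶜ : Set C3) ∈ 𝓝 P := isOpen_compl_singleton.mem_nhds hP
    have h3 : ContinuousAt (fun p : C3 × ℂ => l ^ 2 * tau A p.1) (P, w) := by
      have h4 : ContinuousAt (tau A) ((P, w) : C3 × ℂ).1 := hτd.continuousOn.continuousAt hn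
      have h5 : ContinuousAt (fun p : C3 × ℂ => tau A p.1) (P, w) := h4.comp continuousAt_fst
      exact continuousAt_const.mul h5
    filter_upwards [continuousAt_const.eventually_lt h3 h1,
      h3.eventually_lt continuousAt_const h2] with p hp1 hp2
    have h4 : s2 A l p.1 = Lf A p.1 / ((l : ℂ) ^ 2 * (tau A p.1 : ℂ)) := by
      unfold s2 s1
      rw [hth _ hp1.le hp2.le, (hcut 64 128 (by norm_num)).2.1 _ (by linarith)]
      push_cast
      rw [div_eq_mul_inv]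
      ring
    unfold S3
    rw [h4]
    ring
  · have hχ : ∀ᶠ p in 𝓝 (P, w), χ1 (kk A l p) = 0 := by
      by_cases h : kk A l (P, w) < 1 / 4
      · filter_upwards [hkc.eventually_lt continuousAt_const h] with p hp
        exact hχ2 _ hp.le
      · have h' : 3 / 4 < kk A l (P, w) := by
          by_contra h''
          push Not at h h''
          exact hk ⟨h, h''⟩
        filter_upwards [continuousAt_const.eventually_lt hkc h'] with p hp
        exact hχ3 _ hp.le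
    filter_upwards [hχ] with p hp
    simp only [S3, hp, Complex.ofReal_zero, sub_zero, one_mul, zero_mul, add_zero]

theorem S3_bound {T : Tube} (A : Fr T) (l : ℝ) (hl : 2 ≤ l) (hTAU : Stmt_TAU) (hKKB : Stmt_KKB)
    (M : ℝ) (hM : ∀ P, P ≠ 0 → ‖s2 A l P‖ ≤ M) {P : C3} {w : ℂ} (hP : P ≠ 0) :
    ‖S3 A l (P, w)‖ ≤ M + 2 * A.C := by
  obtain ⟨-, -, -, -, hLf, -, -, -, -, -, -, -, -, -, hbp⟩ := hTAU T A
  obtain ⟨-, hK2, -, -, -, -, -⟩ := hKKB T A l hl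
  obtain ⟨-, -, hχ2, -, hχ4⟩ := hbp (1 / 4) (7 / 25) (18 / 25) (3 / 4) (by norm_num)
    (by norm_num) (by norm_num)
  have hC := A.C_pos
  have h0 : 0 ≤ χ1 (kk A l (P, w)) ∧ χ1 (kk A l (P, w)) ≤ 1 := hχ4 _
  have h1 : ‖((χ1 (kk A l (P, w)) : ℝ) : ℂ) * (Lf A P / ((l : ℂ) ^ 2 * (tau A P : ℂ)))‖ ≤
      2 * A.C := by
    by_cases hk : 1 / 4 ≤ kk A l (P, w)
    · have h2 : 1 / 2 < l ^ 2 * tau A P := (hK2 P w hP hk).2.1
      have h3 : ((l : ℂ) ^ 2 * (tau A P : ℂ)) = ((l ^ 2 * tau A P : ℝ) : ℂ) := by push_cast; rfl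
      rw [norm_mul, norm_div, h3, Complex.norm_real, Complex.norm_real, Real.norm_of_nonneg h0.1,
        Real.norm_of_nonneg (by linarith : (0 : ℝ) ≤ l ^ 2 * tau A P)]
      have h4 : ‖Lf A P‖ / (l ^ 2 * tau A P) ≤ 2 * A.C := by
        rw [div_le_iff₀ (by linarith)]
        have := hLf P
        nlinarith
      calc χ1 (kk A l (P, w)) * (‖Lf A P‖ / (l ^ 2 * tau A P)) ≤ 1 * (2 * A.C) := by
            apply mul_le_mul h0.2 h4 _ zero_le_one
            positivity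
        _ = 2 * A.C := one_mul _
    · push Not at hk
      have h2 : χ1 (kk A l (P, w)) = 0 := hχ2 _ hk.le
      rw [h2, Complex.ofReal_zero, zero_mul, norm_zero]
      linarith
  have h2 : ‖(1 - ((χ1 (kk A l (P, w)) : ℝ) : ℂ)) * s2 A l P‖ ≤ M := by
    have h3 : (1 - ((χ1 (kk A l (P, w)) : ℝ) : ℂ)) = ((1 - χ1 (kk A l (P, w)) : ℝ) : ℂ) := by
      push_cast
      rfl
    rw [norm_mul, h3, Complex.norm_real, Real.norm_of_nonneg (by linarith [h0.2])]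
    calc (1 - χ1 (kk A l (P, w))) * ‖s2 A l P‖ ≤ 1 * ‖s2 A l P‖ :=
          mul_le_mul_of_nonneg_right (by linarith [h0.1]) (norm_nonneg _)
      _ = ‖s2 A l P‖ := one_mul _
      _ ≤ M := hM P hP
  exact (norm_add_le _ _).trans (add_le_add h2 h1)

theorem w_small {T : Tube} (η B : ℝ) (hη : 0 < η) (hB : 0 ≤ B) (hηB : η * (B + 1) < dd T ^ 2 / 4)
    (w S : ℂ) (c : ℝ) (hc : 0 ≤ c ∧ c ≤ 1) (hS : ‖S‖ ≤ B) (h : w ^ 2 - (η : ℂ) * (c : ℂ) * S = 0) :
    ‖w‖ ^ 2 < dd T ^ 2 / 4 ∧ ‖w‖ < T.δ / 4 := by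
  have h1 : w ^ 2 = (η : ℂ) * (c : ℂ) * S := sub_eq_zero.1 h
  have h2 : ‖w‖ ^ 2 = η * c * ‖S‖ := by
    rw [← norm_pow, h1, norm_mul, norm_mul, Complex.norm_real, Complex.norm_real,
      Real.norm_of_nonneg hη.le, Real.norm_of_nonneg hc.1]
  have h3 : ‖w‖ ^ 2 ≤ η * B := by
    rw [h2]
    calc η * c * ‖S‖ ≤ η * 1 * B := by
          apply mul_le_mul _ hS (norm_nonneg _) (by linarith)
          exact mul_le_mul_of_nonneg_left hc.2 hη.le
      _ = η * B := by ring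
  have h4 : ‖w‖ ^ 2 < dd T ^ 2 / 4 := by nlinarith
  refine ⟨h4, ?_⟩
  have hδ := T.δ_pos
  have h5 : ‖w‖ ^ 2 < (T.δ / 4) ^ 2 := by
    unfold dd at h4
    nlinarith
  exact lt_of_pow_lt_pow_left₀ 2 (by positivity) h5

end SHZ_

open SHZ_

theorem shz_proof (hTAU : Stmt_TAU) (hKKB : Stmt_KKB) : Stmt_SHZ := by
  intro T A l hl hs2
  obtain ⟨M, hM0, hM⟩ := bound hs2.toSFun
  have hC := A.C_pos
  have hδ := T.δ_pos
  have hd : 0 < dd T := by unfold dd; positivity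
  obtain ⟨-, -, -, -, -, -, -, -, -, -, -, -, -, hcut, hbp⟩ := hTAU T A
  obtain ⟨-, -, hχ2, hχ3, -⟩ := hbp (3 / 10) (7 / 20) (13 / 20) (7 / 10) (by norm_num)
    (by norm_num) (by norm_num)
  have hcw : ∀ w, 0 ≤ cw T w ∧ cw T w ≤ 1 := fun w =>
    (hcut ((T.δ / 4) ^ 2) ((T.δ / 2) ^ 2) (by nlinarith)).2.2.2 _
  have hB0 : 0 < M + 2 * A.C + 1 := by linarith
  refine ⟨dd T ^ 2 / 4 / (M + 2 * A.C + 1), by positivity, fun η hη hη' => ?_⟩
  have hη1 : η * (M + 2 * A.C + 1) < dd T ^ 2 / 4 := (lt_div_iff₀ hB0).1 hη'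
  constructor
  · intro t _ P w hP hk h0
    have h1 : w ^ 2 - (η : ℂ) * (cw T w : ℂ) * S3 A l (P, w) = 0 := by
      rw [← h0]
      unfold SHt
      rcases hk with hk | hk | hk
      · have h2 : χ2 (kk A l (P, w)) = 0 := hχ2 _ hk
        rw [h2, Complex.ofReal_zero, mul_zero, sub_zero, one_mul]
      · have h2 : χ2 (kk A l (P, w)) = 0 := hχ3 _ hk
        rw [h2, Complex.ofReal_zero, mul_zero, sub_zero, one_mul]
      · rw [hk, Complex.ofReal_zero, zero_mul, sub_zero, one_mul]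
    have h2 := w_small (T := T) η (M + 2 * A.C) hη (by linarith) hη1 w _ _ (hcw w)
      (S3_bound A l hl hTAU hKKB M hM hP) h1
    exact ⟨S3_near A l hl hTAU hKKB hP h2.1, h2.2⟩
  · intro P w hP h0
    have h2 := w_small (T := T) η (M + 2 * A.C) hη (by linarith) hη1 w _ _ (hcw w)
      ((hM P hP).trans (by linarith)) h0
    exact ⟨S3_near A l hl hTAU hKKB hP h2.1, h2.2⟩

end Pool.Agent.KNT
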