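import Pool.Agent.KNT.Stmts

/-!
# Squad KNT, module SRG: `s = h ∘ ι` has regular zero set
-/

set_option autoImplicit false

open scoped ContDiff ComplexConjugate
open Set Filter Topology Metric

namespace Pool.Agent.KNT

namespace SRG_

theorem iota_ne (T : Tube) {P : C3} (hP : P ≠ 0) : T.ι P ≠ 0 := by
  intro h
  have := T.ι_norm P
  rw [h, norm_zero] at this
  exact hP (norm_eq_zero.1 this.symm)

theorem gb_iota (T : Tube) {P : C3} (hP : P ≠ 0) : gb (T.ι P) = 0 := by
  rw [← T.G_zero P hP]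
  exact T.G_gb P 0 hP (by simpa using T.δ_pos)

theorem fin3 : Module.finrank ℝ C3 = 6 := by
  have h1 : Module.finrank ℝ C3 = Module.finrank ℝ ℂ * Module.finrank ℂ C3 :=
    (Module.finrank_mul_finrank ℝ ℂ C3).symm
  rw [h1, Complex.finrank_real_complex]
  simp

theorem fin4 : Module.finrank ℝ C4 = 8 := by
  have h1 : Module.finrank ℝ C4 = Module.finrank ℝ ℂ * Module.finrank ℂ C4 :=
    (Module.finrank_mul_finrank ℝ ℂ C4).symm
  rw [h1, Complex.finrank_real_complex]
  simp

theorem range_eq (D : C3 →ₗ[ℝ] C4) (L : C4 →ₗ[ℝ] ℂ) (hD : Function.Injective D)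
    (hL : Function.Surjective L) (h : ∀ v, L (D v) = 0) : LinearMap.range D = LinearMap.ker L := by
  apply Submodule.eq_of_le_of_finrank_eq
  · rintro _ ⟨v, rfl⟩
    exact h v
  · have h1 : Module.finrank ℝ (LinearMap.range D) = 6 := by
      rw [LinearMap.finrank_range_of_inj hD, fin3]
    have h2 := LinearMap.finrank_range_add_finrank_ker L
    rw [LinearMap.range_eq_top.2 hL, finrank_top, Complex.finrank_real_complex, fin4] at h2
    omega

end SRG_

open SRG_ in
theorem srg_proof (hGRG : Stmt_GRG) : Stmt_SRG := by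
  intro T
  obtain ⟨hg, hh, hj⟩ := hGRG
  have hsm : ContDiffOn ℝ ∞ (sT T) {0}ᶜ :=
    hh.smooth.comp T.ι_smooth (fun P hP => iota_ne T hP)
  refine ⟨⟨?_, hsm⟩, ?_⟩
  · intro r hr P
    simp only [sT]
    rw [T.ι_hom r hr P, hh.hom r hr]
  · intro P hP hz y
    have hιd : DifferentiableAt ℝ T.ι P :=
      ((T.ι_smooth P hP).contDiffAt (isOpen_compl_singleton.mem_nhds hP)).differentiableAt
        (by simp)
    have hne := iota_ne T hP
    have hgd : DifferentiableAt ℝ gb (T.ι P) :=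
      ((hg.smooth _ hne).contDiffAt (isOpen_compl_singleton.mem_nhds hne)).differentiableAt
        (by simp)
    have hhd : DifferentiableAt ℝ hb (T.ι P) :=
      ((hh.smooth _ hne).contDiffAt (isOpen_compl_singleton.mem_nhds hne)).differentiableAt
        (by simp)
    have hsurj := hg.reg _ hne (gb_iota T hP)
    have hcomp : ∀ v, fderiv ℝ gb (T.ι P) (fderiv ℝ T.ι P v) = 0 := by
      intro v
      have h1 : (fun Q => gb (T.ι Q)) =ᶠ[𝓝 P] fun _ => (0 : ℂ) := by
        filter_upwards [isOpen_compl_singleton.mem_nhds hP] with Q hQ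
        exact gb_iota T hQ
      have h2 := h1.fderiv_eq (𝕜 := ℝ)
      have h3 : fderiv ℝ (fun Q => gb (T.ι Q)) P = (fderiv ℝ gb (T.ι P)).comp (fderiv ℝ T.ι P) :=
        fderiv_comp P hgd hιd
      rw [h3] at h2
      have h4 := congrArg (fun L : C3 →L[ℝ] ℂ => L v) h2
      simpa using h4
    have hr := range_eq (fderiv ℝ T.ι P).toLinearMap (fderiv ℝ gb (T.ι P)).toLinearMap
      (T.ι_inj P hP) hsurj hcomp
    obtain ⟨v, hv⟩ := hj _ hne (gb_iota T hP) hz (0, y)
    have hv1 : fderiv ℝ gb (T.ι P) v = 0 := congrArg Prod.fst hv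
    have hv2 : fderiv ℝ hb (T.ι P) v = y := congrArg Prod.snd hv
    have hmem : v ∈ LinearMap.range (fderiv ℝ T.ι P).toLinearMap := by
      rw [hr]
      exact hv1
    obtain ⟨u, hu⟩ := hmem
    refine ⟨u, ?_⟩
    have h3 : fderiv ℝ (sT T) P = (fderiv ℝ hb (T.ι P)).comp (fderiv ℝ T.ι P) :=
      fderiv_comp P hhd hιd
    rw [h3]
    have hu' : fderiv ℝ T.ι P u = v := hu
    rw [ContinuousLinearMap.comp_apply, hu', hv2]

end Pool.Agent.KNT
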