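import Pool.Agent.KNT.Stmts

set_option autoImplicit false

open scoped ContDiff ComplexConjugate
open Set Filter Topology Metric

namespace Pool.Agent.KNT

namespace STS_

theorem surj_mul {V : Type} [NormedAddCommGroup V] [NormedSpace ℝ V] {c : V → ℝ} {F : V → ℂ}
    {z : V} (hc : DifferentiableAt ℝ c z) (hF : DifferentiableAt ℝ F z) (h0 : F z = 0)
    (hcz : 0 < c z) (hs : Function.Surjective (fderiv ℝ F z)) :
    Function.Surjective (fderiv ℝ (fun x => (c x : ℂ) * F x) z) := by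
  have h1 : HasFDerivAt (fun x => (c x : ℂ)) (Complex.ofRealCLM.comp (fderiv ℝ c z)) z :=
    Complex.ofRealCLM.hasFDerivAt.comp z hc.hasFDerivAt
  have h2 := h1.mul hF.hasFDerivAt
  have h3 : fderiv ℝ (fun x => (c x : ℂ) * F x) z
      = (c z : ℂ) • fderiv ℝ F z + F z • Complex.ofRealCLM.comp (fderiv ℝ c z) := h2.fderiv
  rw [h3, h0]
  intro w
  obtain ⟨v, hv⟩ := hs ((c z : ℂ)⁻¹ * w)
  refine ⟨v, ?_⟩
  have hcz' : (c z : ℂ) ≠ 0 := by exact_mod_cast hcz.ne'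
  change (c z : ℂ) • fderiv ℝ F z v + (0 : ℂ) * _ = w
  rw [zero_mul, add_zero]
  rw [hv, smul_eq_mul, mul_inv_cancel_left₀ hcz']

variable {T : Tube}

/-- the second path -/
noncomputable def S' (A : Fr T) (l u : ℝ) (P : C3) : ℂ :=
  (((1 - u) + u * theta (l ^ 2 * tau A P) : ℝ) : ℂ) * s1 A l 1 P

theorem S'_zero (A : Fr T) (l : ℝ) : S' A l 0 = s1 A l 1 := by
  funext P; simp [S']

theorem S'_one (A : Fr T) (l : ℝ) : S' A l 1 = s2 A l := by
  funext P; simp [S', s2]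

theorem s1_zero (A : Fr T) (l : ℝ) : s1 A l 0 = sT T := by
  funext P; simp [s1]

theorem fac_pos {θ u : ℝ} (hθ : 0 < θ) (hu : u ∈ Icc (0 : ℝ) 1) : 0 < (1 - u) + u * θ := by
  rcases hu.1.lt_or_eq with h | h
  · have := mul_pos h hθ
    linarith [hu.2]
  · rw [← h]; norm_num

end STS_

open STS_ in
theorem sts_proof (hTAU : Stmt_TAU) (hSRG : Stmt_SRG) (hLIN : Stmt_LIN) (hBFR : Stmt_BFR)
    (hPFT : Stmt_PFT) (_hTFS : Stmt_TFS) (hTFR : Stmt_TFR) (hIST : Stmt_IST) (_hISR : Stmt_ISR)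
    (_hSAT : Stmt_SAT) : Stmt_STS := by
  intro T A
  obtain ⟨-, htauhom, htausm, -, -, -, -, -, hthsm, hthpos, -⟩ := hTAU T A
  obtain ⟨hfam, l₀, hl₀, hreg⟩ := hLIN T A (hSRG T)
  refine ⟨l₀, hl₀, fun l hl => ?_⟩
  have hreg := hreg l hl
  have hf1 := hfam l
  -- smoothness of the factor
  have hsmτ : ContDiffOn ℝ ∞ (fun P => theta (l ^ 2 * tau A P)) {0}ᶜ :=
    hthsm.comp_contDiffOn (contDiffOn_const.mul htausm)
  have hop : IsOpen {p : ℝ × C3 | p.2 ≠ 0} := isOpen_ne_fun continuous_snd continuous_const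
  have hsmτ2 : ContDiffOn ℝ ∞ (fun p : ℝ × C3 => theta (l ^ 2 * tau A p.2)) {p | p.2 ≠ 0} :=
    hsmτ.comp contDiff_snd.contDiffOn (fun p hp => hp)
  have hfac : ContDiffOn ℝ ∞ (fun p : ℝ × C3 => (1 - p.1) + p.1 * theta (l ^ 2 * tau A p.2))
      {p | p.2 ≠ 0} :=
    (contDiffOn_const.sub contDiffOn_fst).add (contDiffOn_fst.mul hsmτ2)
  have hs11 : ContDiffOn ℝ ∞ (fun p : ℝ × C3 => s1 A l 1 p.2) {p | p.2 ≠ 0} := by
    have h1 : ContDiffOn ℝ ∞ (fun p : ℝ × C3 => ((1 : ℝ), p.2)) {p | p.2 ≠ 0} :=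
      (contDiff_const.prodMk contDiff_snd).contDiffOn
    exact hf1.smooth.comp h1 (fun p hp => hp)
  have hfam' : SFam (S' A l) := by
    refine ⟨?_, ?_⟩
    · intro t r hr z
      simp only [S']
      rw [htauhom r hr, hf1.hom 1 r hr]
    · exact (Complex.ofRealCLM.contDiff.comp_contDiffOn hfac).mul hs11
  have hd1 : ∀ z : C3, z ≠ 0 → DifferentiableAt ℝ (s1 A l 1) z := by
    intro z hz
    have h1 : ContDiffAt ℝ ∞ (fun p : ℝ × C3 => s1 A l p.1 p.2) ((1 : ℝ), z) :=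
      hf1.smooth.contDiffAt (hop.mem_nhds hz)
    have h2 : ContDiffAt ℝ ∞ (fun P : C3 => ((1 : ℝ), P)) z :=
      contDiffAt_const.prodMk contDiffAt_id
    have h3 : ContDiffAt ℝ ∞ (s1 A l 1) z := ContDiffAt.comp z h1 h2
    exact h3.differentiableAt (by simp)
  have hdf : ∀ (u : ℝ) (z : C3), z ≠ 0 →
      DifferentiableAt ℝ (fun P => (1 - u) + u * theta (l ^ 2 * tau A P)) z := by
    intro u z hz
    have h1 : DifferentiableAt ℝ (fun P => theta (l ^ 2 * tau A P)) z :=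
      (hsmτ.contDiffAt (isOpen_compl_singleton.mem_nhds hz)).differentiableAt (by simp)
    exact (h1.const_mul u).const_add (1 - u)
  have h1mem : (1 : ℝ) ∈ Icc (0 : ℝ) 1 := ⟨zero_le_one, le_rfl⟩
  have h0mem : (0 : ℝ) ∈ Icc (0 : ℝ) 1 := ⟨le_rfl, zero_le_one⟩
  have hreg' : ∀ u ∈ Icc (0 : ℝ) 1, Reg (S' A l u) := by
    intro u hu z hz h0
    have hpos : 0 < (1 - u) + u * theta (l ^ 2 * tau A z) := fac_pos (hthpos _) hu
    have h2 : s1 A l 1 z = 0 := by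
      simp only [S'] at h0
      rcases mul_eq_zero.1 h0 with h | h
      · exact absurd (by exact_mod_cast h) hpos.ne'
      · exact h
    exact surj_mul (hdf u z hz) (hd1 z hz) h2 hpos (hreg 1 h1mem z hz h2)
  have hK2 : IsKnot (s2 A l) := by
    rw [← S'_one]
    refine ⟨⟨fun r hr z => hfam'.hom 1 r hr z, ?_⟩, hreg' 1 h1mem⟩
    have h1 : ContDiffOn ℝ ∞ (fun P : C3 => ((1 : ℝ), P)) {0}ᶜ :=
      (contDiff_const.prodMk contDiff_id).contDiffOn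
    exact hfam'.smooth.comp h1 (fun p hp => hp)
  refine ⟨hK2, ?_⟩
  obtain ⟨hadm1, η₁, hη₁, hη⟩ := hBFR T (s1 A l) hf1 hreg
  obtain ⟨hadm2, η₂, hη₂, hη'⟩ := hBFR T (S' A l) hfam' hreg'
  refine ⟨min η₁ η₂, lt_min hη₁ hη₂, fun η hη0 hηlt => ?_⟩
  have hr1 := hη η hη0 (hηlt.trans_le (min_le_left _ _))
  have hr2 := hη' η hη0 (hηlt.trans_le (min_le_right _ _))
  have i1 := hPFT T (fun t => BF T η (s1 A l t)) (hadm1 η) hr1
  have i2 := hPFT T (fun t => BF T η (S' A l t)) (hadm2 η) hr2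
  have k0 := (hTFR T (fun t => BF T η (s1 A l t)) (hadm1 η) 0 (hr1 0 h0mem)).toSFun
  have k1 := (hTFR T (fun t => BF T η (s1 A l t)) (hadm1 η) 1 (hr1 1 h1mem)).toSFun
  have k2 := (hTFR T (fun t => BF T η (S' A l t)) (hadm2 η) 1 (hr2 1 h1mem)).toSFun
  simp only [s1_zero, S'_zero, S'_one] at i1 i2 k0 k1 k2
  refine ⟨?_, hIST C4 _ _ _ k0 k1 k2 i1 i2⟩
  have := hr2 1 h1mem
  rwa [S'_one] at this

end Pool.Agent.KNT
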