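import Pool.Agent.KNT.Stmts

/-!
# Squad KNT, module STT: `{g² = η h}` is the cable with pattern `s`
-/

set_option autoImplicit false

open scoped ContDiff ComplexConjugate
open Set Filter Topology Metric

namespace Pool.Agent.KNT

namespace STT_

theorem sfam_const {V : Type} [NormedAddCommGroup V] [NormedSpace ℝ V] {S : V → ℂ} (h : SFun S) :
    SFam (fun _ : ℝ => S) := by
  refine ⟨fun _ r hr z => h.hom r hr z, ?_⟩
  exact h.smooth.comp contDiff_snd.contDiffOn (fun p hp => hp)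

theorem sfun_of {V : Type} [NormedAddCommGroup V] [NormedSpace ℝ V] {Φ : ℝ → V → ℂ} (h : SFam Φ)
    (t : ℝ) : SFun (Φ t) := by
  refine ⟨fun r hr z => h.hom t r hr z, ?_⟩
  have h1 : ContDiffOn ℝ ∞ (fun z : V => ((t, z) : ℝ × V)) {0}ᶜ :=
    (contDiff_const.prodMk contDiff_id).contDiffOn
  exact h.smooth.comp h1 (fun z hz => hz)

theorem hgt_one (T : Tube) (η : ℝ) (p : C3 × ℂ) (hp : p.1 ≠ 0) :
    HGt T η 1 p = BF T η (sT T) p := by
  unfold HGt BF sT
  rw [Real.smoothTransition.one]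
  have e : (p.1, ((1 - 1 : ℝ) : ℂ) * p.2) = (p.1, (0 : ℂ)) := by simp
  rw [e, T.G_zero p.1 hp]

end STT_

open STT_ in
theorem stt_proof (hSAT : Stmt_SAT) (hISR : Stmt_ISR) (hIST : Stmt_IST) (hGRG : Stmt_GRG)
    (hSRG : Stmt_SRG) (hHGA : Stmt_HGA) (hHGR : Stmt_HGR) (hHGS : Stmt_HGS) (hPFT : Stmt_PFT)
    (hTFS : Stmt_TFS) (_hTFR : Stmt_TFR) (hBFR : Stmt_BFR) : Stmt_STT := by
  intro T
  obtain ⟨η1, hη1, h1⟩ := hHGR T (hSRG T)
  obtain ⟨η2, hη2, h2⟩ := hHGS T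
  refine ⟨min η1 η2, lt_min hη1 hη2, ?_⟩
  intro η hη hη'
  have ha := h1 η hη (hη'.trans_le (min_le_left _ _))
  have hb' := h2 η hη (hη'.trans_le (min_le_right _ _))
  have hA := hHGA T η
  have hF := hTFS T _ hA
  have f0 : SFun (TF T (HGt T η 0)) := sfun_of hF 0
  have f1 : SFun (TF T (HGt T η 1)) := sfun_of hF 1
  have fB : SFun (TF T (BF T η (sT T))) := by
    have h3 := (hBFR T (fun _ => sT T) (sfam_const (hSRG T).toSFun) (fun _ _ => (hSRG T).reg)).1 η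
    exact sfun_of (hTFS T _ h3) 0
  have fg : SFun (fun z : C4 => gb z ^ 2 - η * hb z) := by
    refine ⟨?_, ?_⟩
    · intro r hr z
      simp only [hGRG.1.hom r hr z, hGRG.2.1.hom r hr z]
    · exact (hGRG.1.smooth.pow 2).sub (contDiffOn_const.mul hGRG.2.1.smooth)
  have i1 : Isotopic (fun z : C4 => gb z ^ 2 - η * hb z) (TF T (HGt T η 0)) := hISR C4 _ _ hb'
  have i2 : Isotopic (TF T (HGt T η 0)) (TF T (HGt T η 1)) := hPFT T _ hA ha
  have i3 : Isotopic (TF T (HGt T η 1)) (TF T (BF T η (sT T))) := by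
    refine hISR C4 _ _ ?_
    intro z _ hz
    refine (hSAT C4).2.2.2.1 _ _ z ?_
    filter_upwards [isOpen_compl_singleton.mem_nhds hz] with y hy
    by_cases hg : ‖gb y‖ < T.δ
    · simp only [TF, if_pos hg]
      exact hgt_one T η _ (T.G_Gi y hy hg).1
    · simp only [TF, if_neg hg]
  exact hIST C4 _ _ _ fg f1 fB (hIST C4 _ _ _ fg f0 f1 i1 i2) i3

end Pool.Agent.KNT
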