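import Pool.Agent.KNT.Stmts

/-!
# Squad KNT, module TAU: elementary properties of `tau`, `Lf`, `theta`, `cut`, `bp`
-/

set_option autoImplicit false

open scoped ContDiff ComplexConjugate
open Set Filter Topology Metric

namespace Pool.Agent.KNT

theorem TAU_st_cd : ContDiff ℝ ∞ Real.smoothTransition := Real.smoothTransition.contDiff

theorem TAU_cut_all (a b : ℝ) (hab : a < b) : ContDiff ℝ ∞ (cut a b) ∧
    (∀ x, x ≤ a → cut a b x = 1) ∧ (∀ x, b ≤ x → cut a b x = 0) ∧
    (∀ x, 0 ≤ cut a b x ∧ cut a b x ≤ 1) := by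
  have hba : 0 < b - a := sub_pos.2 hab
  refine ⟨?_, ?_, ?_, ?_⟩
  · unfold cut
    exact TAU_st_cd.comp ((contDiff_const.sub contDiff_id).div_const _)
  · intro x hx
    unfold cut
    apply Real.smoothTransition.one_of_one_le
    rw [one_le_div hba]
    linarith
  · intro x hx
    unfold cut
    apply Real.smoothTransition.zero_of_nonpos
    exact div_nonpos_of_nonpos_of_nonneg (by linarith) hba.le
  · intro x
    unfold cut
    exact ⟨Real.smoothTransition.nonneg _, Real.smoothTransition.le_one _⟩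

theorem TAU_bp_all (a b c d : ℝ) (hab : a < b) (_hbc : b ≤ c) (hcd : c < d) :
    ContDiff ℝ ∞ (bp a b c d) ∧
    (∀ x, b ≤ x → x ≤ c → bp a b c d x = 1) ∧ (∀ x, x ≤ a → bp a b c d x = 0) ∧
    (∀ x, d ≤ x → bp a b c d x = 0) ∧ (∀ x, 0 ≤ bp a b c d x ∧ bp a b c d x ≤ 1) := by
  have hba : 0 < b - a := sub_pos.2 hab
  have hdc : 0 < d - c := sub_pos.2 hcd
  refine ⟨?_, ?_, ?_, ?_, ?_⟩
  · unfold bp
    exact (TAU_st_cd.comp ((contDiff_id.sub contDiff_const).div_const _)).mul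
      (TAU_st_cd.comp ((contDiff_const.sub contDiff_id).div_const _))
  · intro x h1 h2
    unfold bp
    rw [Real.smoothTransition.one_of_one_le, Real.smoothTransition.one_of_one_le, mul_one]
    · rw [one_le_div hdc]; linarith
    · rw [one_le_div hba]; linarith
  · intro x hx
    unfold bp
    rw [Real.smoothTransition.zero_of_nonpos, zero_mul]
    exact div_nonpos_of_nonpos_of_nonneg (by linarith) hba.le
  · intro x hx
    unfold bp
    rw [mul_comm, Real.smoothTransition.zero_of_nonpos, zero_mul]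
    exact div_nonpos_of_nonpos_of_nonneg (by linarith) hdc.le
  · intro x
    unfold bp
    refine ⟨mul_nonneg (Real.smoothTransition.nonneg _) (Real.smoothTransition.nonneg _), ?_⟩
    exact mul_le_one₀ (Real.smoothTransition.le_one _) (Real.smoothTransition.nonneg _)
      (Real.smoothTransition.le_one _)

theorem TAU_theta_small (x : ℝ) (hx : x ≤ 1 / 4) : theta x = 1 := by
  unfold theta
  rw [Real.smoothTransition.zero_of_nonpos (x := (x - 32) / 32) (by linarith),
    Real.smoothTransition.one_of_one_le (x := (1 / 2 - x) * 4) (by linarith)]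
  ring

theorem TAU_theta_mid (x : ℝ) (h1 : 1 / 2 ≤ x) (h2 : x ≤ 32) : theta x = x⁻¹ := by
  unfold theta
  rw [Real.smoothTransition.zero_of_nonpos (x := (x - 32) / 32) (by linarith),
    Real.smoothTransition.zero_of_nonpos (x := (1 / 2 - x) * 4) (by linarith)]
  ring

theorem TAU_theta_large (x : ℝ) (h1 : 64 ≤ x) : theta x = 1 := by
  unfold theta
  rw [Real.smoothTransition.one_of_one_le (x := (x - 32) / 32) (by linarith),
    Real.smoothTransition.zero_of_nonpos (x := (1 / 2 - x) * 4) (by linarith)]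
  ring

theorem TAU_theta_bd (x : ℝ) : 0 < theta x ∧ theta x ≤ 4 := by
  rcases le_total x (1 / 4) with h | h
  · rw [TAU_theta_small x h]; norm_num
  have hx : 0 < x := by linarith
  have hxi : 0 < x⁻¹ := inv_pos.2 hx
  rcases le_total x (1 / 2) with h' | h'
  · have hx4 : x⁻¹ ≤ 4 := by
      rw [inv_le_comm₀ hx (by norm_num)]; linarith
    unfold theta
    rw [Real.smoothTransition.zero_of_nonpos (x := (x - 32) / 32) (by linarith)]
    have ha := Real.smoothTransition.nonneg ((1 / 2 - x) * 4)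
    have hb := Real.smoothTransition.le_one ((1 / 2 - x) * 4)
    set s := Real.smoothTransition ((1 / 2 - x) * 4)
    have hx1 : 1 ≤ x⁻¹ := by
      rw [one_le_inv₀ hx]; linarith
    constructor
    · nlinarith
    · nlinarith
  rcases le_total x 32 with h'' | h''
  · rw [TAU_theta_mid x h' h'']
    refine ⟨hxi, ?_⟩
    rw [inv_le_comm₀ hx (by norm_num)]; linarith
  · unfold theta
    rw [Real.smoothTransition.zero_of_nonpos (x := (1 / 2 - x) * 4) (by linarith)]
    have ha := Real.smoothTransition.nonneg ((x - 32) / 32)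
    have hb := Real.smoothTransition.le_one ((x - 32) / 32)
    set s := Real.smoothTransition ((x - 32) / 32)
    have hx1 : x⁻¹ ≤ 1 := by
      rw [inv_le_one₀ hx]; linarith
    constructor
    · rcases eq_or_lt_of_le ha with h0 | h0
      · rw [← h0]; simp; exact hx
      · nlinarith
    · nlinarith

theorem TAU_theta_cd : ContDiff ℝ ∞ theta := by
  rw [contDiff_iff_contDiffAt]
  intro x
  rcases lt_or_ge x (1 / 4) with h | h
  · have : theta =ᶠ[𝓝 x] fun _ => 1 := by
      filter_upwards [Iio_mem_nhds h] with y hy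
      exact TAU_theta_small y (le_of_lt hy)
    exact contDiffAt_const.congr_of_eventuallyEq this
  · have hx : x ≠ 0 := by linarith
    unfold theta
    have h1 : ContDiffAt ℝ ∞ (fun x : ℝ => Real.smoothTransition ((x - 32) / 32)) x :=
      (TAU_st_cd.comp ((contDiff_id.sub contDiff_const).div_const _)).contDiffAt
    have h2 : ContDiffAt ℝ ∞ (fun x : ℝ => Real.smoothTransition ((1 / 2 - x) * 4)) x :=
      (TAU_st_cd.comp ((contDiff_const.sub contDiff_id).mul contDiff_const)).contDiffAt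
    have h3 : ContDiffAt ℝ ∞ (fun x : ℝ => x⁻¹) x := contDiffAt_inv ℝ hx
    exact ((((contDiffAt_const.sub h1).sub h2).mul h3).add h1).add h2

/-- real inner product with a fixed vector, as a continuous real linear map -/
noncomputable def TAU_lin (a : C3) : C3 →L[ℝ] ℂ := (innerSL ℂ a).restrictScalars ℝ

theorem TAU_lin_apply (a P : C3) : TAU_lin a P = inner ℂ a P := rfl

theorem TAU_norm_cd (P : C3) (hP : P ≠ 0) : ContDiffAt ℝ ∞ (fun P : C3 => ‖P‖) P :=
  contDiffAt_norm ℝ hP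

theorem TAU_tau_cd (T : Tube) (A : Fr T) : ContDiffOn ℝ ∞ (tau A) {0}ᶜ := by
  intro P hP
  have hP0 : P ≠ 0 := hP
  apply ContDiffAt.contDiffWithinAt
  unfold tau
  have h1 : ContDiffAt ℝ ∞ (fun P : C3 => (inner ℂ A.q P).re) P :=
    (Complex.reCLM.comp (TAU_lin A.q)).contDiff.contDiffAt
  exact contDiffAt_const.sub (h1.div (TAU_norm_cd P hP0) (norm_ne_zero_iff.2 hP0))

theorem TAU_Lf_eq (T : Tube) (A : Fr T) (P : C3) :
    Lf A P = ((‖P‖⁻¹ : ℝ) : ℂ) * (A.C * conj (TAU_lin A.n0 P)) := by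
  unfold Lf
  rw [TAU_lin_apply]
  push_cast
  ring

theorem TAU_num_cd (T : Tube) (A : Fr T) :
    ContDiff ℝ ∞ (fun P : C3 => (A.C : ℂ) * conj (TAU_lin A.n0 P)) :=
  contDiff_const.mul (Complex.conjCLE.contDiff.comp (TAU_lin A.n0).contDiff)

theorem TAU_Lf_cd (T : Tube) (A : Fr T) : ContDiffOn ℝ ∞ (Lf A) {0}ᶜ := by
  intro P hP
  have hP0 : P ≠ 0 := hP
  apply ContDiffAt.contDiffWithinAt
  have h0 : Lf A = fun P => ((‖P‖⁻¹ : ℝ) : ℂ) * (A.C * conj (TAU_lin A.n0 P)) :=
    funext (TAU_Lf_eq T A)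
  rw [h0]
  have h1 : ContDiffAt ℝ ∞ (fun P : C3 => ((‖P‖⁻¹ : ℝ) : ℂ)) P :=
    Complex.ofRealCLM.contDiff.contDiffAt.comp P
      ((TAU_norm_cd P hP0).inv (norm_ne_zero_iff.2 hP0))
  exact h1.mul (TAU_num_cd T A).contDiffAt

theorem TAU_Lf_fd (T : Tube) (A : Fr T) (P : C3) (hP : P ≠ 0) (h0 : inner ℂ A.n0 P = 0) (v : C3) :
    fderiv ℝ (Lf A) P v = ((‖P‖⁻¹ : ℝ) : ℂ) * (A.C * conj (inner ℂ A.n0 v)) := by
  have hL : Lf A = fun P => ((‖P‖⁻¹ : ℝ) : ℂ) * (A.C * conj (TAU_lin A.n0 P)) :=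
    funext (TAU_Lf_eq T A)
  have h1 : DifferentiableAt ℝ (fun P : C3 => ((‖P‖⁻¹ : ℝ) : ℂ)) P := by
    have : ContDiffAt ℝ ∞ (fun P : C3 => ((‖P‖⁻¹ : ℝ) : ℂ)) P :=
      Complex.ofRealCLM.contDiff.contDiffAt.comp P
        ((TAU_norm_cd P hP).inv (norm_ne_zero_iff.2 hP))
    exact this.differentiableAt (by simp)
  have h2 : HasFDerivAt (fun P : C3 => (A.C : ℂ) * conj (TAU_lin A.n0 P))
      ((A.C : ℂ) • ((Complex.conjCLE : ℂ →L[ℝ] ℂ).comp (TAU_lin A.n0))) P := by
    have h3 : HasFDerivAt (fun P : C3 => conj (TAU_lin A.n0 P))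
      ((Complex.conjCLE : ℂ →L[ℝ] ℂ).comp (TAU_lin A.n0)) P :=
      ((Complex.conjCLE : ℂ →L[ℝ] ℂ).comp (TAU_lin A.n0)).hasFDerivAt
    exact h3.const_mul _
  rw [hL]
  have h4 : HasFDerivAt (fun P : C3 => ((‖P‖⁻¹ : ℝ) : ℂ) * (A.C * conj (TAU_lin A.n0 P))) _ P :=
    h1.hasFDerivAt.mul h2
  rw [h4.fderiv]
  have h5 : TAU_lin A.n0 P = 0 := h0
  simp [h5, TAU_lin_apply]

theorem TAU_proof_aux (T : Tube) (A : Fr T) (P : C3) (hP : P ≠ 0) :
    tau A P = ‖nz P - A.q‖ ^ 2 / 2 := by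
  have hn : ‖P‖ ≠ 0 := norm_ne_zero_iff.2 hP
  rw [@norm_sub_sq ℂ]
  have h1 : ‖nz P‖ = 1 := by
    unfold nz
    rw [norm_smul, norm_inv, norm_norm, inv_mul_cancel₀ hn]
  rw [h1, A.nq]
  have h2 : RCLike.re (inner ℂ (nz P) A.q) = (inner ℂ A.q P).re / ‖P‖ := by
    rw [inner_re_symm]
    unfold nz
    rw [← Complex.coe_smul, inner_smul_right]
    simp
    field_simp
  rw [h2]
  unfold tau
  ring

theorem tau_proof : Stmt_TAU := by
  intro T A
  refine ⟨?_, ?_, TAU_tau_cd T A, ⟨?_, TAU_Lf_cd T A⟩, ?_, ?_, ?_, ?_, TAU_theta_cd,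
    fun x => (TAU_theta_bd x).1, TAU_theta_mid, TAU_theta_large, fun x => (TAU_theta_bd x).2,
    TAU_cut_all, TAU_bp_all⟩
  · intro P hP
    have h := TAU_proof_aux T A P hP
    refine ⟨?_, ?_, h⟩
    · rw [h]; positivity
    · rw [h]
      have hn : ‖P‖ ≠ 0 := norm_ne_zero_iff.2 hP
      have h1 : ‖nz P‖ = 1 := by
        unfold nz
        rw [norm_smul, norm_inv, norm_norm, inv_mul_cancel₀ hn]
      have h2 := norm_sub_le (nz P) A.q
      rw [h1, A.nq] at h2
      have h3 := norm_nonneg (nz P - A.q)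
      nlinarith
  · intro r hr P
    unfold tau
    rw [← Complex.coe_smul, inner_smul_right, norm_smul]
    simp [Complex.mul_re, abs_of_pos hr]
    rcases eq_or_ne P 0 with h | h
    · simp [h]
    · have hn : ‖P‖ ≠ 0 := norm_ne_zero_iff.2 h
      field_simp
  · intro r hr P
    unfold Lf
    rw [← Complex.coe_smul, inner_smul_right, norm_smul]
    have hr' : (r : ℂ) ≠ 0 := by exact_mod_cast hr.ne'
    simp [abs_of_pos hr]
    rcases eq_or_ne P 0 with h | h
    · simp [h]
    · have hn : (‖P‖ : ℂ) ≠ 0 := by exact_mod_cast norm_ne_zero_iff.2 h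
      field_simp
  · intro P
    unfold Lf
    rw [norm_div, norm_mul, Complex.norm_real, Complex.norm_real, norm_norm,
      Real.norm_of_nonneg A.C_pos.le, RCLike.norm_conj]
    have h1 := norm_inner_le_norm (𝕜 := ℂ) A.n0 P
    rw [A.nn0, one_mul] at h1
    rcases eq_or_ne P 0 with h | h
    · simp [h, A.C_pos.le]
    · have hn : 0 < ‖P‖ := norm_pos_iff.2 h
      rw [div_le_iff₀ hn]
      exact mul_le_mul_of_nonneg_left h1 A.C_pos.le
  · unfold Lf
    have h1 : inner ℂ A.n0 A.q = 0 := by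
      rw [← inner_conj_symm, A.q0]; simp
    rw [h1]; simp
  · intro v
    have h1 : inner ℂ A.n0 A.q = 0 := by
      rw [← inner_conj_symm, A.q0]; simp
    have hq : A.q ≠ 0 := by
      intro h; have := A.nq; rw [h] at this; simp at this
    rw [TAU_Lf_fd T A A.q hq h1 v, A.nq]
    simp
  · intro P hP h0
    have hn : (‖P‖ : ℂ) ≠ 0 := by exact_mod_cast norm_ne_zero_iff.2 hP
    have hC : (A.C : ℂ) ≠ 0 := by exact_mod_cast A.C_pos.ne'
    have h1 : inner ℂ A.n0 P = 0 := by
      unfold Lf at h0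
      have h2 : (A.C : ℂ) * conj (inner ℂ A.n0 P) = 0 := by
        rcases div_eq_zero_iff.1 h0 with h | h
        · exact h
        · exact absurd h hn
      rcases mul_eq_zero.1 h2 with h | h
      · exact absurd h hC
      · exact (map_eq_zero _).1 h
    intro w
    refine ⟨(conj w * ‖P‖ / A.C : ℂ) • A.n0, ?_⟩
    rw [TAU_Lf_fd T A P hP h1, inner_smul_right, inner_self_eq_norm_sq_to_K, A.nn0]
    simp
    field_simp

end Pool.Agent.KNT
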