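import Pool.Agent.KNT.Stmts

/-!
# Squad KNT: TFR
-/

set_option autoImplicit false

open scoped ContDiff ComplexConjugate
open Set Filter Topology Metric

namespace Pool.Agent.KNT

theorem tfr_proof (hTFS : Stmt_TFS) (hGRG : Stmt_GRG) : Stmt_TFR := by
  intro T Ψ hΨ t hR
  have hg : SFun gb := hGRG.1.toSFun
  have hF := hTFS T Ψ hΨ
  refine ⟨⟨fun r hr z => hF.hom t r hr z, ?_⟩, ?_⟩
  · have h1 : ContDiffOn ℝ ∞ (fun z : C4 => ((t, z) : ℝ × C4)) {0}ᶜ :=
      (contDiff_const.prodMk contDiff_id).contDiffOn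
    have h2 : ContDiffOn ℝ ∞ (fun p : ℝ × C4 => TF T (Ψ p.1) p.2) {p | p.2 ≠ 0} := hF.smooth
    have h3 : MapsTo (fun z : C4 => ((t, z) : ℝ × C4)) {0}ᶜ {p : ℝ × C4 | p.2 ≠ 0} := by
      intro z hz
      exact hz
    have h4 := ContDiffOn.comp h2 h1 h3
    exact h4
  · intro z hz h0
    have hgc : ContDiffAt ℝ ∞ gb z := hg.smooth.contDiffAt (isOpen_compl_singleton.mem_nhds hz)
    have h : ‖gb z‖ < T.δ := by
      by_contra hcon
      simp only [TF, hcon, if_false] at h0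
      have h1 : gb z = 0 := by simpa using h0
      rw [h1, norm_zero] at hcon
      exact hcon T.δ_pos
    have hopen : ∀ᶠ x : C4 in 𝓝 z, x ≠ 0 ∧ ‖gb x‖ < T.δ := by
      have h3 : ∀ᶠ z : C4 in 𝓝 z, z ≠ 0 := isOpen_compl_singleton.mem_nhds hz
      have h4 : ∀ᶠ x : C4 in 𝓝 z, ‖gb x‖ < T.δ := hgc.continuousAt.norm.eventually_lt_const h
      filter_upwards [h3, h4] with z hz hz'
      exact ⟨hz, hz'⟩
    have hGi : ContDiffAt ℝ ∞ T.Gi z := T.Gi_smooth.contDiffAt hopen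
    obtain ⟨h1, h2, h3⟩ := T.G_Gi z hz h
    have hΨz : Ψ t (T.Gi z) = 0 := by
      simpa only [TF, h, if_true] using h0
    have hw : ‖(T.Gi z).2‖ < T.δ := by
      rw [h2]
      exact h
    -- the tube side
    have hop : IsOpen {p : C3 × ℂ | p.1 ≠ 0 ∧ ‖p.2‖ < T.δ} :=
      (isOpen_ne_fun continuous_fst continuous_const).inter
        (isOpen_lt continuous_snd.norm continuous_const)
    have hnh : {p : C3 × ℂ | p.1 ≠ 0 ∧ ‖p.2‖ < T.δ} ∈ 𝓝 (T.Gi z) := hop.mem_nhds ⟨h1, hw⟩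
    have hG : ContDiffAt ℝ ∞ T.G (T.Gi z) := T.G_smooth.contDiffAt hnh
    have hid : (fun p => T.Gi (T.G p)) =ᶠ[𝓝 (T.Gi z)] id := by
      filter_upwards [hnh] with p hp
      exact T.Gi_G p.1 p.2 hp.1 hp.2
    have hGid : DifferentiableAt ℝ T.G (T.Gi z) := hG.differentiableAt (by simp)
    have hGiid : DifferentiableAt ℝ T.Gi z := hGi.differentiableAt (by simp)
    have hcomp : (fderiv ℝ T.Gi z).comp (fderiv ℝ T.G (T.Gi z)) =
        ContinuousLinearMap.id ℝ (C3 × ℂ) := by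
      have e1 : HasFDerivAt (fun p => T.Gi (T.G p))
          ((fderiv ℝ T.Gi z).comp (fderiv ℝ T.G (T.Gi z))) (T.Gi z) := by
        have := hGiid.hasFDerivAt
        rw [← h3] at this
        have e := HasFDerivAt.comp (T.Gi z) this hGid.hasFDerivAt
        rw [h3] at e
        exact e
      have e2 : HasFDerivAt (fun p => T.Gi (T.G p)) (ContinuousLinearMap.id ℝ (C3 × ℂ))
          (T.Gi z) := (hasFDerivAt_id _).congr_of_eventuallyEq hid
      exact e1.unique e2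
    have hΨc : DifferentiableAt ℝ (Ψ t) (T.Gi z) := by
      have e1 : ContDiffOn ℝ ∞ (fun p : C3 × ℂ => ((t, p) : ℝ × (C3 × ℂ))) {p | p.1 ≠ 0} :=
        (contDiff_const.prodMk contDiff_id).contDiffOn
      have e0 : MapsTo (fun p : C3 × ℂ => ((t, p) : ℝ × (C3 × ℂ))) {p | p.1 ≠ 0}
          {p : ℝ × (C3 × ℂ) | p.2.1 ≠ 0} := by
        intro z hz
        exact hz
      have e2' := ContDiffOn.comp hΨ.smooth e1 e0
      have e2 : ContDiffOn ℝ ∞ (Ψ t) {p | p.1 ≠ 0} := e2'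
      have e3 : {p : C3 × ℂ | p.1 ≠ 0} ∈ 𝓝 (T.Gi z) :=
        (isOpen_ne_fun continuous_fst continuous_const).mem_nhds h1
      exact (e2.contDiffAt e3).differentiableAt (by simp)
    have hTF : TF T (Ψ t) =ᶠ[𝓝 z] fun x => Ψ t (T.Gi x) := by
      filter_upwards [hopen] with x hx
      simp [TF, hx.2]
    have hd : fderiv ℝ (TF T (Ψ t)) z = (fderiv ℝ (Ψ t) (T.Gi z)).comp (fderiv ℝ T.Gi z) := by
      rw [hTF.fderiv_eq]
      exact (hΨc.hasFDerivAt.comp z hGiid.hasFDerivAt).fderiv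
    intro y
    obtain ⟨v, hv⟩ := hR (T.Gi z).1 (T.Gi z).2 h1 hΨz y
    refine ⟨fderiv ℝ T.G (T.Gi z) v, ?_⟩
    rw [hd]
    have := congrArg (fun L => L v) hcomp
    simp only [ContinuousLinearMap.coe_comp, Function.comp_apply,
      ContinuousLinearMap.id_apply] at this ⊢
    rw [this]
    exact hv

end Pool.Agent.KNT
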