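import Pool.Agent.KNT.Stmts

/-!
# Squad KNT: TFS
-/

set_option autoImplicit false

open scoped ContDiff ComplexConjugate
open Set Filter Topology Metric

namespace Pool.Agent.KNT

namespace TFS_

lemma Gi_smul (T : Tube) (r : ℝ) (hr : 0 < r) (z : C4) (hz : z ≠ 0)
    (h : ‖gb z‖ < T.δ) : T.Gi (r • z) = (r • (T.Gi z).1, (T.Gi z).2) := by
  obtain ⟨h1, h2, h3⟩ := T.G_Gi z hz h
  have h4 : T.G (r • (T.Gi z).1, (T.Gi z).2) = r • z := by
    rw [T.G_hom r hr]
    have : ((T.Gi z).1, (T.Gi z).2) = T.Gi z := rfl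
    rw [this, h3]
  rw [← h4]
  apply T.Gi_G
  · exact smul_ne_zero hr.ne' h1
  · rw [h2]
    exact h

end TFS_

open TFS_ in
theorem tfs_proof (hGRG : Stmt_GRG) : Stmt_TFS := by
  intro T Ψ hΨ
  have hg : SFun gb := hGRG.1.toSFun
  refine ⟨?_, ?_⟩
  · intro t r hr z
    by_cases hz : z = 0
    · simp [hz]
    · simp only [TF, hg.hom r hr z]
      split_ifs with h
      · rw [Gi_smul T r hr z hz h, hΨ.hom t r hr]
      · rfl
  · intro p hp
    have hp' : p.2 ≠ 0 := hp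
    have hgc : ContDiffAt ℝ ∞ gb p.2 := hg.smooth.contDiffAt (isOpen_compl_singleton.mem_nhds hp')
    have hgp : ContDiffAt ℝ ∞ (fun q : ℝ × C4 => gb q.2) p := hgc.comp p contDiffAt_snd
    have hcont : ContinuousAt (fun q : ℝ × C4 => ‖gb q.2‖) p := hgp.continuousAt.norm
    have hne : ∀ᶠ q : ℝ × C4 in 𝓝 p, q.2 ≠ 0 := by
      apply continuousAt_snd.eventually_ne hp'
    apply ContDiffAt.contDiffWithinAt
    by_cases h : ‖gb p.2‖ < T.δ
    · have h1 : ∀ᶠ q : ℝ × C4 in 𝓝 p, ‖gb q.2‖ < T.δ := hcont.eventually_lt_const h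
      have h2 : (fun q : ℝ × C4 => TF T (Ψ q.1) q.2) =ᶠ[𝓝 p] fun q => Ψ q.1 (T.Gi q.2) := by
        filter_upwards [h1] with q hq
        simp [TF, hq]
      refine ContDiffAt.congr_of_eventuallyEq ?_ h2
      have hGi : ContDiffAt ℝ ∞ T.Gi p.2 := by
        apply T.Gi_smooth.contDiffAt
        have h3 : ∀ᶠ z : C4 in 𝓝 p.2, z ≠ 0 := isOpen_compl_singleton.mem_nhds hp'
        have h4 : ∀ᶠ z : C4 in 𝓝 p.2, ‖gb z‖ < T.δ := hgc.continuousAt.norm.eventually_lt_const h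
        filter_upwards [h3, h4] with z hz hz'
        exact ⟨hz, hz'⟩
      have h5 : ContDiffAt ℝ ∞ (fun q : ℝ × C4 => (q.1, T.Gi q.2)) p :=
        contDiffAt_fst.prodMk (hGi.comp p contDiffAt_snd)
      have h6 : ContDiffAt ℝ ∞ (fun p : ℝ × (C3 × ℂ) => Ψ p.1 p.2) (p.1, T.Gi p.2) := by
        apply hΨ.smooth.contDiffAt
        have h7 : (T.Gi p.2).1 ≠ 0 := (T.G_Gi p.2 hp' h).1
        have : IsOpen {p : ℝ × (C3 × ℂ) | p.2.1 ≠ 0} :=
          isOpen_ne_fun (by fun_prop) continuous_const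
        exact this.mem_nhds h7
      exact h6.comp p h5
    · push Not at h
      have h1 : ∀ᶠ q : ℝ × C4 in 𝓝 p, T.δ / 2 < ‖gb q.2‖ :=
        hcont.eventually_const_lt (by linarith [T.δ_pos])
      have h2 : (fun q : ℝ × C4 => TF T (Ψ q.1) q.2) =ᶠ[𝓝 p] fun q => gb q.2 ^ 2 := by
        filter_upwards [h1, hne] with q hq hq'
        simp only [TF]
        split_ifs with h3
        · obtain ⟨h4, h5, -⟩ := T.G_Gi q.2 hq' h3
          have := hΨ.far q.1 (T.Gi q.2).1 (T.Gi q.2).2 h4 (by rw [h5]; exact hq.le)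
          rw [← h5, ← this]
        · rfl
      refine ContDiffAt.congr_of_eventuallyEq ?_ h2
      exact hgp.pow 2

end Pool.Agent.KNT
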