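import Pool.Agent.KNT.Stmts

set_option autoImplicit false

open scoped ContDiff ComplexConjugate
open Set Filter Topology Metric

namespace Pool.Agent.KNT

namespace TLA_

theorem finrank_c (n : ℕ) : Module.finrank ℝ (EuclideanSpace ℂ (Fin n)) = 2 * n := by
  have h := Module.finrank_mul_finrank ℝ ℂ (EuclideanSpace ℂ (Fin n))
  rw [← h, Complex.finrank_real_complex, finrank_euclideanSpace_fin]

theorem bij_of_inj {X Y : Type} [NormedAddCommGroup X] [NormedSpace ℝ X] [FiniteDimensional ℝ X]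
    [NormedAddCommGroup Y] [NormedSpace ℝ Y] [FiniteDimensional ℝ Y]
    (L : X →L[ℝ] Y) (h : Module.finrank ℝ X = Module.finrank ℝ Y)
    (hinj : ∀ x, L x = 0 → x = 0) : Function.Bijective L := by
  have h1 : Function.Injective (L : X →ₗ[ℝ] Y) := by
    rw [injective_iff_map_eq_zero]
    exact hinj
  exact ⟨h1, (LinearMap.injective_iff_surjective_of_finrank_eq_finrank h).1 h1⟩

end TLA_

open TLA_ in
theorem tla_proof (hGRG : Stmt_GRG) : Stmt_TLA := by
  obtain ⟨hgb, -, -⟩ := hGRG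
  intro ι N hι hN
  have hne : ∀ P, P ≠ 0 → ι P ≠ 0 := by
    intro P hP h
    have := hι.norm P
    rw [h, norm_zero] at this
    exact hP (norm_eq_zero.1 this.symm)
  have hsm : ContDiffOn ℝ ∞ (fun p : C3 × ℂ => N (ι p.1, p.2)) {p | p.1 ≠ 0} := by
    have h1 : ContDiffOn ℝ ∞ (fun p : C3 × ℂ => ι p.1) {p | p.1 ≠ 0} :=
      hι.smooth.comp contDiff_fst.contDiffOn (fun p hp => hp)
    exact hN.smooth.comp (h1.prodMk contDiffOn_snd) (fun p hp => hne _ hp)
  refine ⟨hsm, fun P hP => ?_⟩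
  have hx := hne P hP
  have hg0 : gb (ι P) = 0 := (hι.zero (ι P) hx).2 ⟨P, hP, rfl⟩
  have hsurj := hgb.reg (ι P) hx hg0
  have hinj := hN.inj (ι P) hx hsurj
  have hopN : IsOpen {p : C4 × ℂ | p.1 ≠ 0} := isOpen_ne_fun continuous_fst continuous_const
  have hNd : DifferentiableAt ℝ N (ι P, 0) :=
    (hN.smooth.contDiffAt (hopN.mem_nhds hx)).differentiableAt (by simp)
  have hιd : DifferentiableAt ℝ ι P :=
    (hι.smooth.contDiffAt (isOpen_compl_singleton.mem_nhds hP)).differentiableAt (by simp)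
  have hgd : DifferentiableAt ℝ gb (ι P) :=
    (hgb.smooth.contDiffAt (isOpen_compl_singleton.mem_nhds hx)).differentiableAt (by simp)
  -- derivative of `N` in the first variable
  have hN1 : ∀ v, fderiv ℝ N (ι P, 0) (v, 0) = v := by
    intro v
    have h1 : HasFDerivAt (fun x : C4 => ((x, (0 : ℂ)) : C4 × ℂ))
        (ContinuousLinearMap.inl ℝ C4 ℂ) (ι P) := by
      exact (hasFDerivAt_id (ι P)).prodMk (hasFDerivAt_const (0 : ℂ) (ι P))
    have h2 := hNd.hasFDerivAt.comp (ι P) h1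
    have h3 : (N ∘ fun x : C4 => ((x, (0 : ℂ)) : C4 × ℂ)) = id := by
      funext x; exact hN.zero x
    rw [h3] at h2
    have h4 := h2.unique (hasFDerivAt_id (ι P))
    have h5 := congrArg (fun L : C4 →L[ℝ] C4 => L v) h4
    simpa using h5
  -- derivative of `Λ`
  have hΛ : HasFDerivAt (fun p : C3 × ℂ => N (ι p.1, p.2))
      ((fderiv ℝ N (ι P, 0)).comp
        (((fderiv ℝ ι P).comp (ContinuousLinearMap.fst ℝ C3 ℂ)).prod
          (ContinuousLinearMap.snd ℝ C3 ℂ))) (P, 0) := by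
    have h1 : HasFDerivAt (fun p : C3 × ℂ => ι p.1)
        ((fderiv ℝ ι P).comp (ContinuousLinearMap.fst ℝ C3 ℂ)) (P, (0 : ℂ)) :=
      HasFDerivAt.comp (P, (0 : ℂ)) (f := fun p : C3 × ℂ => p.1) (g := ι) hιd.hasFDerivAt
        hasFDerivAt_fst
    have h2 : HasFDerivAt (fun p : C3 × ℂ => (ι p.1, p.2))
        (((fderiv ℝ ι P).comp (ContinuousLinearMap.fst ℝ C3 ℂ)).prod
          (ContinuousLinearMap.snd ℝ C3 ℂ)) (P, (0 : ℂ)) := h1.prodMk hasFDerivAt_snd
    exact HasFDerivAt.comp (P, (0 : ℂ)) (f := fun p : C3 × ℂ => (ι p.1, p.2)) (g := N)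
      hNd.hasFDerivAt h2
  have hval : ∀ dP dc, fderiv ℝ (fun p : C3 × ℂ => N (ι p.1, p.2)) (P, 0) (dP, dc)
      = fderiv ℝ ι P dP + fderiv ℝ N (ι P, 0) (0, dc) := by
    intro dP dc
    rw [hΛ.fderiv]
    have h1 : ((fderiv ℝ ι P dP, dc) : C4 × ℂ) = (fderiv ℝ ι P dP, 0) + (0, dc) := by simp
    change fderiv ℝ N (ι P, 0) (fderiv ℝ ι P dP, dc) = _
    rw [h1, map_add, hN1]
  -- `gb ∘ ι = 0`
  have hgι : ∀ dP, fderiv ℝ gb (ι P) (fderiv ℝ ι P dP) = 0 := by
    intro dP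
    have h1 := hgd.hasFDerivAt.comp P hιd.hasFDerivAt
    have h2 : (gb ∘ ι) =ᶠ[𝓝 P] fun _ => (0 : ℂ) := by
      filter_upwards [isOpen_compl_singleton.mem_nhds hP] with Q hQ
      exact (hι.zero (ι Q) (hne Q hQ)).2 ⟨Q, hQ, rfl⟩
    have h3 : HasFDerivAt (gb ∘ ι) (0 : C3 →L[ℝ] ℂ) P :=
      (hasFDerivAt_const (0 : ℂ) P).congr_of_eventuallyEq h2
    have h4 := h1.unique h3
    have h5 := congrArg (fun L : C3 →L[ℝ] ℂ => L dP) h4
    simpa using h5
  have hdc : ∀ dc, fderiv ℝ gb (ι P) (fderiv ℝ N (ι P, 0) (0, dc)) = 0 → dc = 0 := by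
    intro dc h
    apply hinj
    simp only
    rw [h]
    have : ((0, 0) : C4 × ℂ) = 0 := rfl
    rw [this, map_zero, map_zero]
  have hdP : ∀ dP, fderiv ℝ ι P dP = 0 → dP = 0 := by
    intro dP h
    apply hι.dinj P hP
    rw [h, map_zero]
  constructor
  · refine bij_of_inj _ ?_ ?_
    · rw [Module.finrank_prod, finrank_c, Complex.finrank_real_complex, finrank_c]
    · rintro ⟨dP, dc⟩ h
      rw [hval] at h
      have h1 := congrArg (fderiv ℝ gb (ι P)) h
      rw [map_add, hgι, zero_add, map_zero] at h1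
      have h2 := hdc dc h1
      subst h2
      have : ((0, 0) : C4 × ℂ) = 0 := rfl
      rw [this, map_zero, add_zero] at h
      rw [hdP dP h]
      rfl
  · have hM : HasFDerivAt (fun p : C3 × ℂ => (p.1, gb (N (ι p.1, p.2))))
        ((ContinuousLinearMap.fst ℝ C3 ℂ).prod ((fderiv ℝ gb (ι P)).comp
          (fderiv ℝ (fun p : C3 × ℂ => N (ι p.1, p.2)) (P, 0)))) (P, 0) := by
      have h1 : HasFDerivAt gb (fderiv ℝ gb (ι P)) (N (ι P, 0)) := by
        rw [hN.zero]; exact hgd.hasFDerivAt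
      have h2 : HasFDerivAt (fun p : C3 × ℂ => gb (N (ι p.1, p.2)))
          ((fderiv ℝ gb (ι P)).comp
          (fderiv ℝ (fun p : C3 × ℂ => N (ι p.1, p.2)) (P, 0))) (P, 0) :=
        HasFDerivAt.comp (P, (0 : ℂ)) (f := fun p : C3 × ℂ => N (ι p.1, p.2)) (g := gb) h1
          (hΛ.differentiableAt.hasFDerivAt)
      exact hasFDerivAt_fst.prodMk h2
    rw [hM.fderiv]
    refine bij_of_inj _ ?_ ?_
    · rfl
    · rintro ⟨dP, dc⟩ h
      have h0 : (dP, fderiv ℝ gb (ι P)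
          (fderiv ℝ (fun p : C3 × ℂ => N (ι p.1, p.2)) (P, 0) (dP, dc))) = ((0, 0) : C3 × ℂ) := h
      rw [Prod.mk.injEq] at h0
      obtain ⟨h1, h2⟩ := h0
      subst h1
      rw [hval, map_zero, zero_add] at h2
      rw [hdc dc h2]
      rfl

end Pool.Agent.KNT
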