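import Pool.Agent.KNT.Stmts

set_option autoImplicit false

open scoped ContDiff ComplexConjugate
open Set

namespace Pool.Agent.KNT

namespace TMM_

/-- relations between the coordinates of `u`, `ū` and `e = i u × ū` -/
structure Rel (u0 u1 u2 v0 v1 v2 e0 e1 e2 : ℂ) : Prop where
  uu : u0 ^ 2 + u1 ^ 2 + u2 ^ 2 = 0
  vv : v0 ^ 2 + v1 ^ 2 + v2 ^ 2 = 0
  uv : u0 * v0 + u1 * v1 + u2 * v2 = 1
  E0 : e0 = Complex.I * (u1 * v2 - u2 * v1)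
  E1 : e1 = Complex.I * (u2 * v0 - u0 * v2)
  E2 : e2 = Complex.I * (u0 * v1 - u1 * v0)

theorem Rel.ue {u0 u1 u2 v0 v1 v2 e0 e1 e2 : ℂ} (h : Rel u0 u1 u2 v0 v1 v2 e0 e1 e2) :
    u1 * e2 - u2 * e1 = Complex.I * u0 ∧ u2 * e0 - u0 * e2 = Complex.I * u1 ∧
    u0 * e1 - u1 * e0 = Complex.I * u2 := by
  obtain ⟨uu, vv, uv, E0, E1, E2⟩ := h
  refine ⟨?_, ?_, ?_⟩
  · rw [E1, E2]; linear_combination Complex.I * u0 * uv - Complex.I * v0 * uu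
  · rw [E0, E2]; linear_combination Complex.I * u1 * uv - Complex.I * v1 * uu
  · rw [E0, E1]; linear_combination Complex.I * u2 * uv - Complex.I * v2 * uu

theorem Rel.ve {u0 u1 u2 v0 v1 v2 e0 e1 e2 : ℂ} (h : Rel u0 u1 u2 v0 v1 v2 e0 e1 e2) :
    v1 * e2 - v2 * e1 = -Complex.I * v0 ∧ v2 * e0 - v0 * e2 = -Complex.I * v1 ∧
    v0 * e1 - v1 * e0 = -Complex.I * v2 := by
  obtain ⟨uu, vv, uv, E0, E1, E2⟩ := h
  refine ⟨?_, ?_, ?_⟩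
  · rw [E1, E2]; linear_combination -Complex.I * v0 * uv + Complex.I * u0 * vv
  · rw [E0, E2]; linear_combination -Complex.I * v1 * uv + Complex.I * u1 * vv
  · rw [E0, E1]; linear_combination -Complex.I * v2 * uv + Complex.I * u2 * vv

theorem Rel.dots {u0 u1 u2 v0 v1 v2 e0 e1 e2 : ℂ} (h : Rel u0 u1 u2 v0 v1 v2 e0 e1 e2) :
    u0 * e0 + u1 * e1 + u2 * e2 = 0 ∧ v0 * e0 + v1 * e1 + v2 * e2 = 0 ∧
    e0 ^ 2 + e1 ^ 2 + e2 ^ 2 = 1 := by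
  obtain ⟨uu, vv, uv, E0, E1, E2⟩ := h
  refine ⟨?_, ?_, ?_⟩
  · rw [E0, E1, E2]; ring
  · rw [E0, E1, E2]; ring
  · rw [E0, E1, E2]
    have hI : Complex.I ^ 2 = -1 := Complex.I_sq
    linear_combination ((u1 * v2 - u2 * v1) ^ 2 + (u2 * v0 - u0 * v2) ^ 2 +
      (u0 * v1 - u1 * v0) ^ 2) * hI - (v0 ^ 2 + v1 ^ 2 + v2 ^ 2) * uu +
      (u0 * v0 + u1 * v1 + u2 * v2 + 1) * uv

theorem NN_iff (u : C3) : u ∈ NN ↔ (u 0 ^ 2 + u 1 ^ 2 + u 2 ^ 2 = 0 ∧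
    u 0 * conj (u 0) + u 1 * conj (u 1) + u 2 * conj (u 2) = 1) := by
  unfold NN sq
  rw [Set.mem_ofPred_eq]
  have h : ‖u‖ ^ 2 = ‖u 0‖ ^ 2 + ‖u 1‖ ^ 2 + ‖u 2‖ ^ 2 := by
    rw [EuclideanSpace.norm_sq_eq, Fin.sum_univ_three]
  have h2 : u 0 * conj (u 0) + u 1 * conj (u 1) + u 2 * conj (u 2) = ((‖u‖ ^ 2 : ℝ) : ℂ) := by
    rw [h]
    push_cast
    rw [Complex.mul_conj, Complex.mul_conj, Complex.mul_conj]
    simp only [Complex.normSq_eq_norm_sq]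
    push_cast
    ring
  rw [h2]
  constructor
  · rintro ⟨a, b⟩
    refine ⟨a, ?_⟩
    rw [b]; simp
  · rintro ⟨a, b⟩
    refine ⟨a, ?_⟩
    have : ‖u‖ ^ 2 = 1 := by
      apply Complex.ofReal_injective
      rw [b]; simp
    nlinarith [norm_nonneg u]

theorem rel_of_NN {u : C3} (h : u ∈ NN) :
    Rel (u 0) (u 1) (u 2) (conj (u 0)) (conj (u 1)) (conj (u 2))
      (Complex.I * (u 1 * conj (u 2) - u 2 * conj (u 1)))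
      (Complex.I * (u 2 * conj (u 0) - u 0 * conj (u 2)))
      (Complex.I * (u 0 * conj (u 1) - u 1 * conj (u 0))) := by
  obtain ⟨h1, h2⟩ := (NN_iff u).1 h
  refine ⟨h1, ?_, h2, rfl, rfl, rfl⟩
  have := congrArg conj h1
  simpa using this

theorem Tm_apply (X : ℂ) (u : C3) :
    (Tm X u) 0 = ((nn X : ℂ) ^ 2)⁻¹ * (X ^ 2 * conj (u 0) - (bb (‖X‖ ^ 2) : ℂ) ^ 2 * u 0 +
      √2 * bb (‖X‖ ^ 2) * X * (Complex.I * (u 1 * conj (u 2) - u 2 * conj (u 1)))) ∧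
    (Tm X u) 1 = ((nn X : ℂ) ^ 2)⁻¹ * (X ^ 2 * conj (u 1) - (bb (‖X‖ ^ 2) : ℂ) ^ 2 * u 1 +
      √2 * bb (‖X‖ ^ 2) * X * (Complex.I * (u 2 * conj (u 0) - u 0 * conj (u 2)))) ∧
    (Tm X u) 2 = ((nn X : ℂ) ^ 2)⁻¹ * (X ^ 2 * conj (u 2) - (bb (‖X‖ ^ 2) : ℂ) ^ 2 * u 2 +
      √2 * bb (‖X‖ ^ 2) * X * (Complex.I * (u 0 * conj (u 1) - u 1 * conj (u 0)))) := by
  refine ⟨?_, ?_, ?_⟩
  all_goals
    simp [Tm, cj, crs]
    ring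

/-- the main computation -/
theorem main {u0 u1 u2 v0 v1 v2 e0 e1 e2 X Y s B N : ℂ} (R : Rel u0 u1 u2 v0 v1 v2 e0 e1 e2)
    (hs : s ^ 2 = 2) (hN : N = X * Y + B ^ 2) (w0 w1 w2 z0 z1 z2 : ℂ)
    (hw0 : w0 = X ^ 2 * v0 - B ^ 2 * u0 + s * B * X * e0)
    (hw1 : w1 = X ^ 2 * v1 - B ^ 2 * u1 + s * B * X * e1)
    (hw2 : w2 = X ^ 2 * v2 - B ^ 2 * u2 + s * B * X * e2)
    (hz0 : z0 = Y ^ 2 * u0 - B ^ 2 * v0 + s * B * Y * e0)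
    (hz1 : z1 = Y ^ 2 * u1 - B ^ 2 * v1 + s * B * Y * e1)
    (hz2 : z2 = Y ^ 2 * u2 - B ^ 2 * v2 + s * B * Y * e2) :
    w0 ^ 2 + w1 ^ 2 + w2 ^ 2 = 0 ∧ w0 * z0 + w1 * z1 + w2 * z2 = N ^ 2 ∧
    X ^ 2 * z0 * N - B ^ 2 * w0 * N + s * B * X * (Complex.I * (w1 * z2 - w2 * z1)) = N ^ 3 * u0 ∧
    X ^ 2 * z1 * N - B ^ 2 * w1 * N + s * B * X * (Complex.I * (w2 * z0 - w0 * z2)) = N ^ 3 * u1 ∧
    X ^ 2 * z2 * N - B ^ 2 * w2 * N + s * B * X * (Complex.I * (w0 * z1 - w1 * z0)) =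
      N ^ 3 * u2 := by
  obtain ⟨A0, A1, A2⟩ := R.ue
  obtain ⟨B0, B1, B2⟩ := R.ve
  obtain ⟨D1, D2, D3⟩ := R.dots
  obtain ⟨uu, vv, uv, E0, E1, E2⟩ := R
  have hI : Complex.I ^ 2 = -1 := Complex.I_sq
  have F0 : Complex.I * (w1 * z2 - w2 * z1) =
      N * (s * B * Y * u0 + s * B * X * v0 + (B ^ 2 - X * Y) * e0) := by
    rw [hw1, hw2, hz1, hz2, hN]
    linear_combination (X ^ 2 * Y ^ 2 - B ^ 4) * E0 +
      Complex.I * (-(B ^ 3) * s * Y - s * B * X * Y ^ 2) * A0 +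
      Complex.I * (s * B * X ^ 2 * Y + B ^ 3 * s * X) * B0 +
      (-(B ^ 3) * s * Y - s * B * X * Y ^ 2) * u0 * hI -
      (s * B * X ^ 2 * Y + B ^ 3 * s * X) * v0 * hI
  have F1 : Complex.I * (w2 * z0 - w0 * z2) =
      N * (s * B * Y * u1 + s * B * X * v1 + (B ^ 2 - X * Y) * e1) := by
    rw [hw0, hw2, hz0, hz2, hN]
    linear_combination (X ^ 2 * Y ^ 2 - B ^ 4) * E1 +
      Complex.I * (-(B ^ 3) * s * Y - s * B * X * Y ^ 2) * A1 +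
      Complex.I * (s * B * X ^ 2 * Y + B ^ 3 * s * X) * B1 +
      (-(B ^ 3) * s * Y - s * B * X * Y ^ 2) * u1 * hI -
      (s * B * X ^ 2 * Y + B ^ 3 * s * X) * v1 * hI
  have F2 : Complex.I * (w0 * z1 - w1 * z0) =
      N * (s * B * Y * u2 + s * B * X * v2 + (B ^ 2 - X * Y) * e2) := by
    rw [hw0, hw1, hz0, hz1, hN]
    linear_combination (X ^ 2 * Y ^ 2 - B ^ 4) * E2 +
      Complex.I * (-(B ^ 3) * s * Y - s * B * X * Y ^ 2) * A2 +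
      Complex.I * (s * B * X ^ 2 * Y + B ^ 3 * s * X) * B2 +
      (-(B ^ 3) * s * Y - s * B * X * Y ^ 2) * u2 * hI -
      (s * B * X ^ 2 * Y + B ^ 3 * s * X) * v2 * hI
  refine ⟨?_, ?_, ?_, ?_, ?_⟩
  · rw [hw0, hw1, hw2]
    linear_combination X ^ 4 * vv + B ^ 4 * uu + s ^ 2 * B ^ 2 * X ^ 2 * D3 -
      2 * B ^ 2 * X ^ 2 * uv - 2 * B ^ 3 * s * X * D1 + 2 * s * B * X ^ 3 * D2 +
      B ^ 2 * X ^ 2 * hs
  · rw [hw0, hw1, hw2, hz0, hz1, hz2, hN]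
    linear_combination (X ^ 2 * Y ^ 2 + B ^ 4) * uv + s ^ 2 * B ^ 2 * X * Y * D3 -
      B ^ 2 * X ^ 2 * vv - B ^ 2 * Y ^ 2 * uu +
      (s * B * X * Y ^ 2 - B ^ 3 * s * Y) * D1 + (s * B * X ^ 2 * Y - s * B ^ 3 * X) * D2 +
      B ^ 2 * X * Y * hs
  · rw [F0, hw0, hz0, hN]
    linear_combination (X * Y + B ^ 2) * (B ^ 2 * X * Y * u0 + B ^ 2 * X ^ 2 * v0) * hs
  · rw [F1, hw1, hz1, hN]
    linear_combination (X * Y + B ^ 2) * (B ^ 2 * X * Y * u1 + B ^ 2 * X ^ 2 * v1) * hs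
  · rw [F2, hw2, hz2, hN]
    linear_combination (X * Y + B ^ 2) * (B ^ 2 * X * Y * u2 + B ^ 2 * X ^ 2 * v2) * hs

end TMM_

open TMM_ in
theorem tmm_proof (hALB : Stmt_ALB) : Stmt_TMM := by
  intro X u hu
  obtain ⟨-, -, -, -, -, -, -, hnn, -, -, -⟩ := hALB
  obtain ⟨hn0, hn2⟩ := hnn X
  set b : ℝ := bb (‖X‖ ^ 2) with hb
  have hs : ((√2 : ℝ) : ℂ) ^ 2 = 2 := by
    have : (√2 : ℝ) ^ 2 = 2 := Real.sq_sqrt (by norm_num)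
    exact_mod_cast this
  have hN : ((nn X : ℝ) : ℂ) ^ 2 = X * conj X + (b : ℂ) ^ 2 := by
    rw [Complex.mul_conj, Complex.normSq_eq_norm_sq]
    exact_mod_cast hn2
  have hN0 : ((nn X : ℝ) : ℂ) ^ 2 ≠ 0 := by
    have : nn X ^ 2 ≠ 0 := by positivity
    exact_mod_cast this
  have hI : Complex.I ^ 2 = -1 := Complex.I_sq
  have R := rel_of_NN hu
  obtain ⟨T0, T1, T2⟩ := Tm_apply X u
  rw [← hb] at T0 T1 T2
  set N : ℂ := ((nn X : ℝ) : ℂ) ^ 2 with hNdef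
  set Y : ℂ := conj X with hY
  set s : ℂ := ((√2 : ℝ) : ℂ) with hsdef
  set B : ℂ := (b : ℂ) with hB
  have cN : conj N = N := by
    rw [hNdef]; simp
  have cs : conj s = s := by rw [hsdef]; simp
  have cB : conj B = B := by rw [hB]; simp
  have cX : conj X = Y := rfl
  generalize he0 : Complex.I * (u 1 * conj (u 2) - u 2 * conj (u 1)) = e0 at *
  generalize he1 : Complex.I * (u 2 * conj (u 0) - u 0 * conj (u 2)) = e1 at *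
  generalize he2 : Complex.I * (u 0 * conj (u 1) - u 1 * conj (u 0)) = e2 at *
  have ce0 : conj e0 = e0 := by
    rw [← he0]; simp; ring
  have ce1 : conj e1 = e1 := by
    rw [← he1]; simp; ring
  have ce2 : conj e2 = e2 := by
    rw [← he2]; simp; ring
  have C0 : conj ((Tm X u) 0) = N⁻¹ * (Y ^ 2 * u 0 - B ^ 2 * conj (u 0) + s * B * Y * e0) := by
    rw [T0]; simp [cN, cs, cB, cX, ce0]
  have C1 : conj ((Tm X u) 1) = N⁻¹ * (Y ^ 2 * u 1 - B ^ 2 * conj (u 1) + s * B * Y * e1) := by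
    rw [T1]; simp [cN, cs, cB, cX, ce1]
  have C2 : conj ((Tm X u) 2) = N⁻¹ * (Y ^ 2 * u 2 - B ^ 2 * conj (u 2) + s * B * Y * e2) := by
    rw [T2]; simp [cN, cs, cB, cX, ce2]
  obtain ⟨M1, M2, M3, M4, M5⟩ := main R hs hN _ _ _ _ _ _ rfl rfl rfl rfl rfl rfl
  refine ⟨(NN_iff _).2 ⟨?_, ?_⟩, ?_⟩
  · rw [T0, T1, T2]
    linear_combination (N⁻¹) ^ 2 * M1
  · rw [C0, C1, C2, T0, T1, T2]
    have : (N⁻¹) ^ 2 * N ^ 2 = 1 := by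
      field_simp
    linear_combination (N⁻¹) ^ 2 * M2 + this
  · obtain ⟨S0, S1, S2⟩ := Tm_apply X (Tm X u)
    rw [← hb] at S0 S1 S2
    have hN1 : N⁻¹ * N = 1 := inv_mul_cancel₀ hN0
    ext i
    fin_cases i
    · show (Tm X (Tm X u)) 0 = u 0
      rw [S0, C0, C1, C2, T0, T1, T2]
      linear_combination (N⁻¹) ^ 3 * M3 -
        (N⁻¹) ^ 2 * (X ^ 2 * (Y ^ 2 * u 0 - B ^ 2 * conj (u 0) + s * B * Y * e0) -
          B ^ 2 * (X ^ 2 * conj (u 0) - B ^ 2 * u 0 + s * B * X * e0)) * hN1 +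
        ((N⁻¹ * N) ^ 2 + N⁻¹ * N + 1) * u 0 * hN1
    · show (Tm X (Tm X u)) 1 = u 1
      rw [S1, C0, C1, C2, T0, T1, T2]
      linear_combination (N⁻¹) ^ 3 * M4 -
        (N⁻¹) ^ 2 * (X ^ 2 * (Y ^ 2 * u 1 - B ^ 2 * conj (u 1) + s * B * Y * e1) -
          B ^ 2 * (X ^ 2 * conj (u 1) - B ^ 2 * u 1 + s * B * X * e1)) * hN1 +
        ((N⁻¹ * N) ^ 2 + N⁻¹ * N + 1) * u 1 * hN1
    · show (Tm X (Tm X u)) 2 = u 2
      rw [S2, C0, C1, C2, T0, T1, T2]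
      linear_combination (N⁻¹) ^ 3 * M5 -
        (N⁻¹) ^ 2 * (X ^ 2 * (Y ^ 2 * u 2 - B ^ 2 * conj (u 2) + s * B * Y * e2) -
          B ^ 2 * (X ^ 2 * conj (u 2) - B ^ 2 * u 2 + s * B * X * e2)) * hN1 +
        ((N⁻¹ * N) ^ 2 + N⁻¹ * N + 1) * u 2 * hN1

end Pool.Agent.KNT
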