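import Pool.Agent.KNT.Stmts

/-!
# Squad KNT: TOP
-/

set_option autoImplicit false

open scoped ContDiff ComplexConjugate
open Set Filter Topology Metric

namespace Pool.Agent.KNT

theorem top_proof : Stmt_TOP := by
  rintro n F ⟨H, G, hI, hS⟩
  have hc : ∀ (K : ℝ → E n → E n),
      ContDiffOn ℝ ∞ (fun p : ℝ × E n => K p.1 p.2) {p | p.2 ≠ 0} →
      ContinuousOn (K 1) {0}ᶜ := by
    intro K hK
    have h1 : ContinuousOn (fun z : E n => ((1, z) : ℝ × E n)) {0}ᶜ := by fun_prop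
    have h2 : MapsTo (fun z : E n => ((1, z) : ℝ × E n)) {0}ᶜ {p : ℝ × E n | p.2 ≠ 0} := by
      intro z hz
      exact hz
    have h3 := hK.continuousOn.comp h1 h2
    exact h3
  refine ⟨H 1, G 1, hc H hI.smooth, hc G hI.smoothG, hI.norm 1, hI.normG 1, hI.left 1,
    hI.right 1, ?_⟩
  intro z hz
  have h1 := (hS z (mem_univ z) hz).1
  rw [h1]
  have h2 : ((‖H 1 z‖ : ℝ) : ℂ) ≠ 0 := by
    rw [hI.norm 1 z]
    simpa using hz
  unfold std
  constructor
  · intro h
    rcases div_eq_zero_iff.mp h with h | h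
    · exact h
    · exact absurd h h2
  · intro h
    change (H 1 z) 0 / ((‖H 1 z‖ : ℝ) : ℂ) = 0
    rw [h, zero_div]

end Pool.Agent.KNT
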