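import Pool.Agent.KNT.Stmts

/-!
# Squad KNT, module TSA: comparison of two functions on the tube
-/

set_option autoImplicit false

open scoped ContDiff ComplexConjugate
open Set Filter Topology Metric

namespace Pool.Agent.KNT

theorem tsa_proof (hSAT : Stmt_SAT) (hGRG : Stmt_GRG) : Stmt_TSA := by
  intro T Ψ Ψ' _ _ h z _ hz
  have hcg : ContinuousAt gb z :=
    (hGRG.1.smooth.continuousOn z hz).continuousAt (isOpen_compl_singleton.mem_nhds hz)
  by_cases hg : ‖gb z‖ < T.δ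
  · have hev : ∀ᶠ y in 𝓝 z, ‖gb y‖ < T.δ :=
      hcg.norm.eventually_lt continuousAt_const hg
    have hev0 : ∀ᶠ y in 𝓝 z, y ≠ 0 := isOpen_compl_singleton.mem_nhds hz
    have hGi : ContinuousAt T.Gi z := by
      refine (T.Gi_smooth.continuousOn z ⟨hz, hg⟩).continuousAt ?_
      filter_upwards [hev, hev0] with y h1 h2 using ⟨h2, h1⟩
    obtain ⟨hP, _, _⟩ := T.G_Gi z hz hg
    by_cases hzero : Ψ (T.Gi z) = 0 ∨ Ψ' (T.Gi z) = 0
    · have h1 : Ψ =ᶠ[𝓝 (T.Gi z)] Ψ' := h (T.Gi z).1 (T.Gi z).2 hP hzero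
      have h2 : ∀ᶠ y in 𝓝 z, Ψ (T.Gi y) = Ψ' (T.Gi y) := hGi.eventually h1
      refine (hSAT C4).2.2.2.1 _ _ z ?_
      filter_upwards [hev, h2] with y h3 h4
      simp only [TF, if_pos h3, h4]
    · push Not at hzero
      have e1 : TF T Ψ z = Ψ (T.Gi z) := by simp only [TF, if_pos hg]
      have e2 : TF T Ψ' z = Ψ' (T.Gi z) := by simp only [TF, if_pos hg]
      refine ⟨?_, ?_⟩
      · rw [e1, e2]
        exact ⟨fun h => absurd h hzero.1, fun h => absurd h hzero.2⟩
      · intro h3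
        rw [e1] at h3
        exact absurd h3 hzero.1
  · have e1 : TF T Ψ z = gb z ^ 2 := by simp only [TF, if_neg hg]
    have e2 : TF T Ψ' z = gb z ^ 2 := by simp only [TF, if_neg hg]
    have hne : gb z ≠ 0 := by
      intro h0
      rw [h0, norm_zero] at hg
      exact hg T.δ_pos
    refine ⟨by rw [e1, e2], ?_⟩
    intro h3
    rw [e1] at h3
    exact absurd h3 (pow_ne_zero 2 hne)

end Pool.Agent.KNT
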