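import Pool.Agent.KNT.Stmts

set_option autoImplicit false

open scoped ContDiff ComplexConjugate
open Set Filter Topology Metric

namespace Pool.Agent.KNT

namespace TUB_

section gen
variable {V : Type} [NormedAddCommGroup V] [NormedSpace ℝ V]

theorem nz_smul {r : ℝ} (hr : 0 < r) (z : V) : nz (r • z) = nz z := by
  unfold nz
  rw [norm_smul, Real.norm_of_nonneg hr.le, smul_smul, mul_inv, mul_comm r⁻¹, mul_assoc,
    inv_mul_cancel₀ hr.ne', mul_one]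

theorem norm_nz {z : V} (hz : z ≠ 0) : ‖nz z‖ = 1 := by
  unfold nz
  rw [norm_smul, norm_inv, norm_norm, inv_mul_cancel₀ (norm_ne_zero_iff.2 hz)]

theorem smul_nz {z : V} (hz : z ≠ 0) : ‖z‖ • nz z = z := by
  unfold nz
  rw [smul_smul, mul_inv_cancel₀ (norm_ne_zero_iff.2 hz), one_smul]

theorem nz_of_norm {z : V} (hz : ‖z‖ = 1) : nz z = z := by
  unfold nz; simp [hz]

theorem nz_smul_of_norm {r : ℝ} (hr : 0 < r) {z : V} (hz : ‖z‖ = 1) : nz (r • z) = z := by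
  rw [nz_smul hr, nz_of_norm hz]

theorem nz_ne {z : V} (hz : z ≠ 0) : nz z ≠ 0 := by
  intro h
  have := norm_nz hz
  rw [h] at this
  simp at this

end gen

section inn
variable {V : Type} [NormedAddCommGroup V] [InnerProductSpace ℝ V]

theorem contDiffOn_norm : ContDiffOn ℝ ∞ (fun z : V => ‖z‖) {0}ᶜ := by
  intro z hz
  exact (contDiffAt_norm ℝ hz).contDiffWithinAt

theorem contDiffOn_nz : ContDiffOn ℝ ∞ (nz : V → V) {0}ᶜ := by
  unfold nz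
  refine ContDiffOn.smul (ContDiffOn.inv contDiffOn_norm ?_) contDiffOn_id
  intro z hz
  exact norm_ne_zero_iff.2 hz

end inn

theorem fr3 : ContDiffOn ℝ ∞ (nz : C3 → C3) {0}ᶜ :=
  letI : InnerProductSpace ℝ C3 := inferInstance
  contDiffOn_nz

theorem fr4 : ContDiffOn ℝ ∞ (nz : C4 → C4) {0}ᶜ :=
  letI : InnerProductSpace ℝ C4 := inferInstance
  contDiffOn_nz

theorem gb_nz (z : C4) (hz : z ≠ 0) : gb (nz z) = gb z := by
  unfold gb
  rw [nz_of_norm (norm_nz hz)]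

end TUB_

open TUB_ in
open Classical in
theorem tub_proof (hIOT : Stmt_IOT) (hNPU : Stmt_NPU) (hTLA : Stmt_TLA) (hINJ : Stmt_INJ)
    (hGRG : Stmt_GRG) : Stmt_TUB := by
  obtain ⟨ι, hι⟩ := hIOT
  obtain ⟨N, hN⟩ := hNPU C4 gb hGRG.1.toSFun
  obtain ⟨hΛs, hΛd⟩ := hTLA ι N hι hN
  set Λ : C3 × ℂ → C4 := fun p => N (ι p.1, p.2) with hΛ
  have hΛ0 : ∀ P, Λ (P, 0) = ι P := fun P => hN.zero _
  have hΛn : ∀ P c, ‖Λ (P, c)‖ = ‖P‖ := fun P c => by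
    rw [hΛ]; simp only; rw [hN.norm, hι.norm]
  have hιne : ∀ P, P ≠ 0 → ι P ≠ 0 := fun P hP h => by
    have := hι.norm P
    rw [h, norm_zero] at this
    exact hP (norm_eq_zero.1 this.symm)
  have hΛne : ∀ P c, P ≠ 0 → Λ (P, c) ≠ 0 := fun P c hP h => by
    have := hΛn P c
    rw [h, norm_zero] at this
    exact hP (norm_eq_zero.1 this.symm)
  have hιg : ∀ P, P ≠ 0 → gb (ι P) = 0 := fun P hP => (hι.zero _ (hιne P hP)).2 ⟨P, hP, rfl⟩
  have hgs : ContDiffOn ℝ ∞ gb {0}ᶜ := hGRG.1.smooth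
  set O : Set (C3 × ℂ) := {p | p.1 ≠ 0} with hO
  have hOo : IsOpen O := isOpen_ne.preimage continuous_fst
  set f2 : C3 × ℂ → C3 × ℂ := fun p => (p.1, gb (Λ p)) with hf2
  have hf2s : ContDiffOn ℝ ∞ f2 O := by
    refine contDiffOn_fst.prodMk (hgs.comp hΛs ?_)
    intro p hp
    exact hΛne p.1 p.2 hp
  set K : Set (C3 × ℂ) := sphere 0 1 ×ˢ {0} with hK
  have hKc : IsCompact K := (isCompact_sphere (0 : C3) 1).prod isCompact_singleton
  have hKn : ∀ P c, (P, c) ∈ K → ‖P‖ = 1 ∧ c = 0 := by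
    intro P c h
    exact ⟨by simpa using h.1, by simpa using h.2⟩
  have hKm : ∀ P, ‖P‖ = 1 → (P, (0 : ℂ)) ∈ K := by
    intro P h
    exact ⟨by simpa using h, rfl⟩
  have hne : ∀ P : C3, ‖P‖ = 1 → P ≠ 0 := by
    intro P h h0
    rw [h0, norm_zero] at h
    exact zero_ne_one h
  have hKO : K ⊆ O := by
    rintro ⟨P, c⟩ h
    exact hne P (hKn P c h).1
  obtain ⟨U1, U1o, KU1, U1O, inj1, -, op1, g1, g1s, g1i⟩ := hINJ (C3 × ℂ) C4 Λ O K hOo hΛs hKc hKO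
    (by
      rintro ⟨P, c⟩ h ⟨Q, d⟩ h' he
      obtain ⟨h1, rfl⟩ := hKn P c h
      obtain ⟨h1', rfl⟩ := hKn Q d h'
      rw [hΛ0, hΛ0] at he
      rw [hι.inj he])
    (by
      rintro ⟨P, c⟩ h
      obtain ⟨h1, rfl⟩ := hKn P c h
      exact (hΛd P (hne P h1)).1)
  obtain ⟨U2, U2o, KU2, U2O, inj2, -, op2, g2, g2s, g2i⟩ := hINJ (C3 × ℂ) (C3 × ℂ) f2 O K hOo hf2s
    hKc hKO
    (by
      rintro ⟨P, c⟩ h ⟨Q, d⟩ h' he
      obtain ⟨h1, rfl⟩ := hKn P c h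
      obtain ⟨h1', rfl⟩ := hKn Q d h'
      have := congrArg Prod.fst he
      simp only [hf2] at this
      rw [this])
    (by
      rintro ⟨P, c⟩ h
      obtain ⟨h1, rfl⟩ := hKn P c h
      exact (hΛd P (hne P h1)).2)
  set U := U1 ∩ U2 with hU
  have hUo : IsOpen U := U1o.inter U2o
  have hKU : K ⊆ U := subset_inter KU1 KU2
  have hV1 : IsOpen (Λ '' U) := op1 U hUo inter_subset_left
  have hV2 : IsOpen (f2 '' U) := op2 U hUo inter_subset_right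
  have hf2K : ∀ P, ‖P‖ = 1 → f2 (P, 0) = (P, 0) := by
    intro P h
    rw [hf2]
    simp only
    rw [hΛ0, hιg P (hne P h)]
  -- (a)
  obtain ⟨δa, δa0, ha⟩ : ∃ δ : ℝ, 0 < δ ∧ ∀ P w, ‖P‖ = 1 → ‖w‖ < δ → (P, w) ∈ f2 '' U := by
    have hKs : K ⊆ f2 '' U := by
      rintro ⟨P, c⟩ h
      obtain ⟨h1, rfl⟩ := hKn P c h
      exact ⟨(P, 0), hKU h, hf2K P h1⟩
    obtain ⟨δ, δ0, hδ⟩ := hKc.exists_thickening_subset_open hV2 hKs
    refine ⟨δ, δ0, fun P w h hw => hδ ?_⟩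
    rw [mem_thickening_iff]
    refine ⟨(P, 0), hKm P h, ?_⟩
    rw [Prod.dist_eq]
    simpa using hw
  -- (b)
  obtain ⟨δb, δb0, hb⟩ : ∃ δ : ℝ, 0 < δ ∧ ∀ z : C4, ‖z‖ = 1 → ‖gb z‖ < δ → z ∈ Λ '' U := by
    have hC : IsCompact (sphere (0 : C4) 1 \ (Λ '' U)) := (isCompact_sphere (0 : C4) 1).diff hV1
    rcases (sphere (0 : C4) 1 \ (Λ '' U)).eq_empty_or_nonempty with he | hne'
    · refine ⟨1, one_pos, fun z hz _ => ?_⟩
      by_contra hcon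
      have : z ∈ sphere (0 : C4) 1 \ (Λ '' U) := ⟨by simpa using hz, hcon⟩
      rw [he] at this
      exact this
    · have hcont : ContinuousOn (fun z => ‖gb z‖) (sphere (0 : C4) 1 \ (Λ '' U)) := by
        refine (hgs.continuousOn.mono ?_).norm
        intro z hz h0
        have : ‖z‖ = 1 := by simpa using hz.1
        rw [mem_singleton_iff.1 h0, norm_zero] at this
        exact zero_ne_one this
      obtain ⟨z0, hz0, hmin⟩ := hC.exists_isMinOn hne' hcont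
      have hz1 : ‖z0‖ = 1 := by simpa using hz0.1
      refine ⟨‖gb z0‖, ?_, fun z hz hzb => ?_⟩
      · apply norm_pos_iff.2
        intro h0
        have hzne : z0 ≠ 0 := by
          intro h; rw [h, norm_zero] at hz1; exact zero_ne_one hz1
        obtain ⟨P, hP, hPz⟩ := (hι.zero z0 hzne).1 h0
        apply hz0.2
        have hPn : ‖P‖ = 1 := by rw [← hι.norm, hPz, hz1]
        exact ⟨(P, 0), hKU (hKm P hPn), by rw [hΛ0, hPz]⟩
      · by_contra hcon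
        have hm := hmin (show z ∈ sphere (0 : C4) 1 \ (Λ '' U) from ⟨by simpa using hz, hcon⟩)
        exact absurd hzb (not_lt.2 hm)
  obtain ⟨δ, δ0, hδa, hδb, hδ20⟩ : ∃ δ : ℝ, 0 < δ ∧ δ ≤ δa ∧ δ ≤ δb ∧ δ ≤ 1 / 20 :=
    ⟨min δa (min δb (1 / 20)), by positivity, min_le_left _ _,
      (min_le_right _ _).trans (min_le_left _ _), (min_le_right _ _).trans (min_le_right _ _)⟩
  -- the function c
  have hc : ∀ Q w, ‖Q‖ = 1 → ‖w‖ < δ → (Q, (g2 (Q, w)).2) ∈ U ∧ gb (Λ (Q, (g2 (Q, w)).2)) = w := by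
    intro Q w hQ hw
    obtain ⟨⟨Q', c'⟩, hU', he⟩ := ha Q w hQ (lt_of_lt_of_le hw hδa)
    have h1 : Q' = Q := congrArg Prod.fst he
    have h2 : gb (Λ (Q', c')) = w := congrArg Prod.snd he
    subst h1
    have h3 : g2 (Q', w) = (Q', c') := by rw [← he]; exact g2i _ hU'.2
    rw [h3]
    exact ⟨hU', h2⟩
  have hc' : ∀ Q c, ‖Q‖ = 1 → (Q, c) ∈ U → (g2 (Q, gb (Λ (Q, c)))).2 = c := by
    intro Q c hQ hU'
    have := g2i (Q, c) hU'.2
    rw [hf2] at this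
    simp only at this
    rw [this]
  set G : C3 × ℂ → C4 := fun p =>
    if p.1 ≠ 0 ∧ ‖p.2‖ < δ then ‖p.1‖ • Λ (nz p.1, (g2 (nz p.1, p.2)).2) else ι p.1 with hG
  have hG1 : ∀ P w, P ≠ 0 → ‖w‖ < δ → G (P, w) = ‖P‖ • Λ (nz P, (g2 (nz P, w)).2) := by
    intro P w hP hw
    rw [hG]
    simp only
    rw [if_pos ⟨hP, hw⟩]
  have hGn : ∀ P w, P ≠ 0 → ‖w‖ < δ → ‖G (P, w)‖ = ‖P‖ := by
    intro P w hP hw
    rw [hG1 P w hP hw, norm_smul, norm_norm, hΛn, norm_nz hP, mul_one]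
  have hGnz : ∀ P w, P ≠ 0 → ‖w‖ < δ → nz (G (P, w)) = Λ (nz P, (g2 (nz P, w)).2) := by
    intro P w hP hw
    rw [hG1 P w hP hw, nz_smul_of_norm (norm_pos_iff.2 hP)]
    rw [hΛn, norm_nz hP]
  have hGgb : ∀ P w, P ≠ 0 → ‖w‖ < δ → gb (G (P, w)) = w := by
    intro P w hP hw
    have h1 : G (P, w) ≠ 0 := by
      apply norm_pos_iff.1
      rw [hGn P w hP hw]
      exact norm_pos_iff.2 hP
    rw [← gb_nz _ h1, hGnz P w hP hw]
    exact (hc (nz P) w (norm_nz hP) hw).2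
  refine ⟨{
    ι := ι
    G := G
    Gi := fun z => (‖z‖ • (g1 (nz z)).1, gb z)
    δ := δ
    δ_pos := δ0
    δ_le := hδ20
    ι_hom := hι.hom
    ι_norm := hι.norm
    ι_smooth := hι.smooth
    ι_inj := hι.dinj
    ι_form := hι.form
    G_hom := ?_
    G_norm := hGn
    G_smooth := ?_
    G_zero := ?_
    G_gb := hGgb
    Gi_smooth := ?_
    Gi_G := ?_
    G_Gi := ?_ }⟩
  · intro r hr P w
    by_cases h : P ≠ 0 ∧ ‖w‖ < δ
    · have hrP : r • P ≠ 0 := smul_ne_zero hr.ne' h.1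
      rw [hG1 _ _ hrP h.2, hG1 _ _ h.1 h.2, nz_smul hr, norm_smul, Real.norm_of_nonneg hr.le,
        smul_smul]
    · have h' : ¬ (r • P ≠ 0 ∧ ‖w‖ < δ) := by
        rintro ⟨h1, h2⟩
        exact h ⟨fun h0 => h1 (by rw [h0, smul_zero]), h2⟩
      rw [hG]
      simp only
      rw [if_neg h, if_neg h', hι.hom r hr]
  · have hA : ContDiffOn ℝ ∞ (fun p : C3 × ℂ => ((nz p.1, p.2) : C3 × ℂ))
        {p | p.1 ≠ 0 ∧ ‖p.2‖ < δ} :=
      (fr3.comp contDiffOn_fst (fun p hp => hp.1)).prodMk contDiffOn_snd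
    have hB : ContDiffOn ℝ ∞ (fun p : C3 × ℂ => (g2 (nz p.1, p.2)).2)
        {p | p.1 ≠ 0 ∧ ‖p.2‖ < δ} := by
      refine (g2s.comp hA ?_).snd
      intro p hp
      obtain ⟨q, hq, he⟩ := ha (nz p.1) p.2 (norm_nz hp.1) (lt_of_lt_of_le hp.2 hδa)
      exact ⟨q, hq.2, he⟩
    have hC : ContDiffOn ℝ ∞ (fun p : C3 × ℂ => ‖p.1‖ • Λ (nz p.1, (g2 (nz p.1, p.2)).2))
        {p | p.1 ≠ 0 ∧ ‖p.2‖ < δ} := by
      have hD : ContDiffOn ℝ ∞ (fun p : C3 × ℂ => ‖p.1‖) {p | p.1 ≠ 0 ∧ ‖p.2‖ < δ} :=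
        (contDiffOn_norm (V := C3)).comp contDiffOn_fst (fun p hp => hp.1)
      have hE : ContDiffOn ℝ ∞ (fun p : C3 × ℂ => Λ (nz p.1, (g2 (nz p.1, p.2)).2))
          {p | p.1 ≠ 0 ∧ ‖p.2‖ < δ} :=
        hΛs.comp ((fr3.comp contDiffOn_fst (fun p hp => hp.1)).prodMk hB)
          (fun p hp => nz_ne hp.1)
      exact hD.smul hE
    refine hC.congr ?_
    rintro ⟨P, w⟩ hp
    exact hG1 P w hp.1 hp.2
  · intro P hP
    have h0 : ‖(0 : ℂ)‖ < δ := by simpa using δ0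
    rw [hG1 P 0 hP h0]
    have h1 : g2 (nz P, 0) = (nz P, 0) := by
      have := g2i (nz P, 0) (KU2 (hKm _ (norm_nz hP)))
      rwa [hf2K _ (norm_nz hP)] at this
    rw [h1, hΛ0, ← hι.hom _ (norm_pos_iff.2 hP), smul_nz hP]
  · have hA : ContDiffOn ℝ ∞ (fun z : C4 => (g1 (nz z)).1) {z | z ≠ 0 ∧ ‖gb z‖ < δ} := by
      refine (g1s.comp (fr4.mono (fun z hz => hz.1)) ?_).fst
      intro z hz
      obtain ⟨q, hq, he⟩ := hb (nz z) (norm_nz hz.1) (by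
        rw [gb_nz z hz.1]
        exact lt_of_lt_of_le hz.2 hδb)
      exact ⟨q, hq.1, he⟩
    exact (ContDiffOn.smul ((contDiffOn_norm (V := C4)).mono (fun z hz => hz.1)) hA).prodMk
      (hgs.mono (fun z hz => hz.1))
  · intro P w hP hw
    have h1 := (hc (nz P) w (norm_nz hP) hw).1
    show (‖G (P, w)‖ • (g1 (nz (G (P, w)))).1, gb (G (P, w))) = (P, w)
    rw [hGn P w hP hw, hGnz P w hP hw, hGgb P w hP hw, g1i _ h1.1, smul_nz hP]
  · intro z hz hgz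
    obtain ⟨⟨P, c⟩, hU', he⟩ := hb (nz z) (norm_nz hz) (by
        rw [gb_nz z hz]
        exact lt_of_lt_of_le hgz hδb)
    have hPn : ‖P‖ = 1 := by rw [← hΛn P c, he, norm_nz hz]
    have hg1 : g1 (nz z) = (P, c) := by rw [← he]; exact g1i _ hU'.1
    have hzn : 0 < ‖z‖ := norm_pos_iff.2 hz
    have hne1 : ‖z‖ • P ≠ 0 := smul_ne_zero hzn.ne' (hne P hPn)
    show (‖z‖ • (g1 (nz z)).1) ≠ 0 ∧ gb z = gb z ∧ G (‖z‖ • (g1 (nz z)).1, gb z) = z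
    rw [hg1]
    refine ⟨hne1, rfl, ?_⟩
    rw [hG1 _ _ hne1 hgz, nz_smul_of_norm hzn hPn, norm_smul, norm_norm, hPn, mul_one]
    have hgg : gb z = gb (Λ (P, c)) := by rw [he, gb_nz z hz]
    rw [hgg, hc' P c hPn hU', he, smul_nz hz]

end Pool.Agent.KNT
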