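import Pool.Agent.KNT.Stmts

/-!
# Squad KNT, module WPI: weighted polar coordinates
-/

set_option autoImplicit false

open scoped ContDiff ComplexConjugate
open Set

namespace Pool.Agent.KNT

namespace WPI_

theorem nsq (v : C4) : ‖v‖ ^ 2 = ‖v 0‖ ^ 2 + ‖v 1‖ ^ 2 + ‖v 2‖ ^ 2 + ‖v 3‖ ^ 2 := by
  rw [EuclideanSpace.norm_sq_eq, Fin.sum_univ_four]

theorem Mw0 (v : C4) : Mw v 0 = ‖v‖ * v 0 := rfl
theorem Mw1 (v : C4) : Mw v 1 = (‖v‖ ^ 2 : ℝ) * v 1 := rfl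
theorem Mw2 (v : C4) : Mw v 2 = (‖v‖ ^ 2 : ℝ) * v 2 := rfl
theorem Mw3 (v : C4) : Mw v 3 = (‖v‖ ^ 2 : ℝ) * v 3 := rfl

theorem ext4 {v w : C4} (h0 : v 0 = w 0) (h1 : v 1 = w 1) (h2 : v 2 = w 2) (h3 : v 3 = w 3) :
    v = w := by
  ext i
  fin_cases i
  · exact h0
  · exact h1
  · exact h2
  · exact h3

theorem norm_pos {v : C4} (h : v ≠ 0) : 0 < ‖v‖ := norm_pos_iff.2 h

/-- injectivity of `Mw` off `0`: comparison of the norms -/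
theorem le_of_Mw {v w : C4} (hv : v ≠ 0) (hw : w ≠ 0) (h : Mw v = Mw w) : ‖w‖ ≤ ‖v‖ := by
  by_contra hlt
  push Not at hlt
  have pv := norm_pos hv
  have pw := norm_pos hw
  have h0 : ‖v‖ * ‖v 0‖ = ‖w‖ * ‖w 0‖ := by
    have := congrArg (fun z : C4 => ‖z 0‖) h
    simpa [Mw0] using this
  have hi : ∀ i : Fin 4, i ≠ 0 → ‖v‖ ^ 2 * ‖v i‖ = ‖w‖ ^ 2 * ‖w i‖ := by
    intro i hi0
    have := congrArg (fun z : C4 => ‖z i‖) h
    fin_cases i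
    · exact absurd rfl hi0
    · simpa [Mw1] using this
    · simpa [Mw2] using this
    · simpa [Mw3] using this
  have l0 : ‖w 0‖ ≤ ‖v 0‖ := by
    by_contra hc
    push Not at hc
    have : ‖v‖ * ‖v 0‖ < ‖w‖ * ‖w 0‖ := by
      calc ‖v‖ * ‖v 0‖ ≤ ‖v‖ * ‖w 0‖ := by gcongr
        _ < ‖w‖ * ‖w 0‖ := by
          have : 0 < ‖w 0‖ := lt_of_le_of_lt (norm_nonneg _) hc
          gcongr
    linarith
  have li : ∀ i : Fin 4, i ≠ 0 → ‖w i‖ ≤ ‖v i‖ := by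
    intro i hi0
    by_contra hc
    push Not at hc
    have : ‖v‖ ^ 2 * ‖v i‖ < ‖w‖ ^ 2 * ‖w i‖ := by
      calc ‖v‖ ^ 2 * ‖v i‖ ≤ ‖v‖ ^ 2 * ‖w i‖ := by gcongr
        _ < ‖w‖ ^ 2 * ‖w i‖ := by
          have : 0 < ‖w i‖ := lt_of_le_of_lt (norm_nonneg _) hc
          gcongr
    have := hi i hi0
    linarith
  have l1 := li 1 (by decide)
  have l2 := li 2 (by decide)
  have l3 := li 3 (by decide)
  have e1 := nsq v
  have e2 := nsq w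
  have : ‖w‖ ^ 2 ≤ ‖v‖ ^ 2 := by
    rw [e1, e2]
    gcongr
  nlinarith

theorem Mw_inj {v w : C4} (hv : v ≠ 0) (hw : w ≠ 0) (h : Mw v = Mw w) : v = w := by
  have hn : ‖v‖ = ‖w‖ := le_antisymm (le_of_Mw hw hv h.symm) (le_of_Mw hv hw h)
  have pw := norm_pos hw
  have c1 : ((‖w‖ : ℝ) : ℂ) ≠ 0 := by exact_mod_cast pw.ne'
  have c2 : ((‖w‖ ^ 2 : ℝ) : ℂ) ≠ 0 := by
    have : (‖w‖ ^ 2 : ℝ) ≠ 0 := by positivity
    exact_mod_cast this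
  have f0 := congrArg (fun z : C4 => z 0) h
  have f1 := congrArg (fun z : C4 => z 1) h
  have f2 := congrArg (fun z : C4 => z 2) h
  have f3 := congrArg (fun z : C4 => z 3) h
  simp only [Mw0, Mw1, Mw2, Mw3, hn] at f0 f1 f2 f3
  exact ext4 (mul_left_cancel₀ c1 f0) (mul_left_cancel₀ c2 f1) (mul_left_cancel₀ c2 f2)
    (mul_left_cancel₀ c2 f3)

/-- the radius equation -/
theorem exists_rho (a b : ℝ) (ha : 0 ≤ a) (hb : 0 ≤ b) (hab : 0 < a ∨ 0 < b) :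
    ∃ ρ : ℝ, 0 < ρ ∧ ρ ^ 6 = a ^ 2 * ρ ^ 2 + b ^ 2 := by
  have key : ∃ r0 : ℝ, 0 < r0 ∧ r0 ≤ 1 ∧ 0 ≤ a ^ 2 * r0 ^ 2 + b ^ 2 - r0 ^ 6 := by
    by_cases h : 0 < a
    · refine ⟨min 1 a, lt_min one_pos h, min_le_left _ _, ?_⟩
      have h1 : min 1 a ≤ 1 := min_le_left _ _
      have h2 : min 1 a ≤ a := min_le_right _ _
      have h3 : 0 < min 1 a := lt_min one_pos h
      set r := min 1 a
      have h4 : r ^ 4 ≤ a ^ 2 := by
        calc r ^ 4 = r ^ 2 * r ^ 2 := by ring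
          _ ≤ 1 * a ^ 2 := by gcongr; nlinarith
          _ = a ^ 2 := one_mul _
      have h5 : r ^ 6 ≤ a ^ 2 * r ^ 2 := by
        calc r ^ 6 = r ^ 4 * r ^ 2 := by ring
          _ ≤ a ^ 2 * r ^ 2 := by gcongr
      nlinarith [sq_nonneg b]
    · have hb' : 0 < b := by
        rcases hab with h' | h'
        · exact absurd h' h
        · exact h'
      refine ⟨min 1 b, lt_min one_pos hb', min_le_left _ _, ?_⟩
      have h1 : min 1 b ≤ 1 := min_le_left _ _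
      have h2 : min 1 b ≤ b := min_le_right _ _
      have h3 : 0 < min 1 b := lt_min one_pos hb'
      set r := min 1 b
      have h4 : r ^ 6 ≤ b ^ 2 := by
        calc r ^ 6 = r ^ 4 * r ^ 2 := by ring
          _ ≤ 1 * b ^ 2 := by
            gcongr
            exact pow_le_one₀ h3.le h1
          _ = b ^ 2 := one_mul _
      have h5 : 0 ≤ a ^ 2 * r ^ 2 := by positivity
      linarith
  obtain ⟨r0, h0, h01, hF0⟩ := key
  let R := 1 + a + b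
  have hR1 : 1 ≤ R := by simp only [R]; linarith
  have hFR : a ^ 2 * R ^ 2 + b ^ 2 - R ^ 6 ≤ 0 := by
    have h1 : a ^ 2 + b ^ 2 ≤ R ^ 2 := by
      simp only [R]
      nlinarith [mul_nonneg ha hb]
    have h2 : (1 : ℝ) ≤ R ^ 2 := one_le_pow₀ hR1
    have h3 : R ^ 2 * (a ^ 2 + b ^ 2) ≤ R ^ 6 := by
      calc R ^ 2 * (a ^ 2 + b ^ 2) ≤ R ^ 2 * R ^ 2 := by gcongr
        _ ≤ R ^ 2 * R ^ 2 * R ^ 2 := le_mul_of_one_le_right (by positivity) h2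
        _ = R ^ 6 := by ring
    have h4 : b ^ 2 ≤ R ^ 2 * b ^ 2 := le_mul_of_one_le_left (by positivity) h2
    nlinarith
  have hcont : ContinuousOn (fun r : ℝ => a ^ 2 * r ^ 2 + b ^ 2 - r ^ 6) (Icc r0 R) := by
    fun_prop
  have hle : r0 ≤ R := h01.trans hR1
  have := intermediate_value_Icc' hle hcont
  obtain ⟨r, hr, hr0⟩ := this (show (0 : ℝ) ∈ Icc _ _ from ⟨hFR, hF0⟩)
  refine ⟨r, lt_of_lt_of_le h0 hr.1, ?_⟩
  simp only at hr0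
  linarith

theorem Mw_surj (z : C4) (hz : z ≠ 0) : ∃ v : C4, v ≠ 0 ∧ Mw v = z := by
  let b : ℝ := √(‖z 1‖ ^ 2 + ‖z 2‖ ^ 2 + ‖z 3‖ ^ 2)
  have hb2 : b ^ 2 = ‖z 1‖ ^ 2 + ‖z 2‖ ^ 2 + ‖z 3‖ ^ 2 := Real.sq_sqrt (by positivity)
  have hpos : 0 < ‖z 0‖ ∨ 0 < b := by
    by_contra hc
    push Not at hc
    obtain ⟨h1, h2⟩ := hc
    have h1' : ‖z 0‖ = 0 := le_antisymm h1 (norm_nonneg _)
    have h2' : b = 0 := le_antisymm h2 (Real.sqrt_nonneg _)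
    have h3 := nsq z
    rw [h1'] at h3
    rw [h2'] at hb2
    have : ‖z‖ ^ 2 = 0 := by rw [h3]; linarith
    have : ‖z‖ = 0 := by
      rw [sq_eq_zero_iff] at this
      exact this
    exact hz (norm_eq_zero.1 this)
  obtain ⟨ρ, hρ, hρe⟩ := exists_rho ‖z 0‖ b (norm_nonneg _) (Real.sqrt_nonneg _) hpos
  let v : C4 := !₂[(ρ : ℂ)⁻¹ * z 0, ((ρ ^ 2 : ℝ) : ℂ)⁻¹ * z 1, ((ρ ^ 2 : ℝ) : ℂ)⁻¹ * z 2,
    ((ρ ^ 2 : ℝ) : ℂ)⁻¹ * z 3]
  have v0 : v 0 = (ρ : ℂ)⁻¹ * z 0 := rfl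
  have v1 : v 1 = ((ρ ^ 2 : ℝ) : ℂ)⁻¹ * z 1 := rfl
  have v2 : v 2 = ((ρ ^ 2 : ℝ) : ℂ)⁻¹ * z 2 := rfl
  have v3 : v 3 = ((ρ ^ 2 : ℝ) : ℂ)⁻¹ * z 3 := rfl
  have nρ : ‖(ρ : ℂ)‖ = ρ := by
    rw [Complex.norm_real, Real.norm_of_nonneg hρ.le]
  have nρ2 : ‖((ρ ^ 2 : ℝ) : ℂ)‖ = ρ ^ 2 := by
    rw [Complex.norm_real, Real.norm_of_nonneg (by positivity)]
  have hn : ‖v‖ = ρ := by
    have h1 : ‖v‖ ^ 2 = ρ ^ 2 := by
      rw [nsq, v0, v1, v2, v3, norm_mul, norm_mul, norm_mul, norm_mul, norm_inv, norm_inv, nρ, nρ2]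
      have h2 : (ρ⁻¹ * ‖z 0‖) ^ 2 + ((ρ ^ 2)⁻¹ * ‖z 1‖) ^ 2 + ((ρ ^ 2)⁻¹ * ‖z 2‖) ^ 2 +
          ((ρ ^ 2)⁻¹ * ‖z 3‖) ^ 2 = (ρ ^ 4)⁻¹ * (‖z 0‖ ^ 2 * ρ ^ 2 + b ^ 2) := by
        rw [hb2]
        field_simp
        try ring
      rw [h2, ← hρe]
      field_simp
    exact (sq_eq_sq₀ (norm_nonneg _) hρ.le).1 h1
  have c1 : (ρ : ℂ) ≠ 0 := by exact_mod_cast hρ.ne'
  have c2 : ((ρ ^ 2 : ℝ) : ℂ) ≠ 0 := by
    have : (ρ ^ 2 : ℝ) ≠ 0 := by positivity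
    exact_mod_cast this
  refine ⟨v, ?_, ?_⟩
  · intro h
    rw [h, norm_zero] at hn
    exact hρ.ne hn
  · apply ext4
    · rw [Mw0, hn, v0, mul_inv_cancel_left₀ c1]
    · rw [Mw1, hn, v1, mul_inv_cancel_left₀ c2]
    · rw [Mw2, hn, v2, mul_inv_cancel_left₀ c2]
    · rw [Mw3, hn, v3, mul_inv_cancel_left₀ c2]

/-- coordinate projection -/
noncomputable def pr (i : Fin 4) : C4 →L[ℝ] ℂ :=
  (EuclideanSpace.proj i : C4 →L[ℂ] ℂ).restrictScalars ℝ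

theorem pr_apply (i : Fin 4) (v : C4) : pr i v = v i := rfl

theorem norm_hasFDerivAt (v : C4) (hv : v ≠ 0) :
    ∃ L : C4 →L[ℝ] ℝ, HasFDerivAt (fun x : C4 => ‖x‖) L v ∧
      ∀ w, ‖v‖ * L w = inner ℝ v w := by
  have hd : DifferentiableAt ℝ (fun x : C4 => ‖x‖) v :=
    (contDiffAt_norm ℝ (n := 1) hv).differentiableAt (by simp)
  refine ⟨fderiv ℝ (fun x : C4 => ‖x‖) v, hd.hasFDerivAt, fun w => ?_⟩
  have h1 := hd.hasFDerivAt.pow 2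
  have h2 : HasFDerivAt (fun x : C4 => ‖x‖ ^ 2) _ v := (hasStrictFDerivAt_norm_sq v).hasFDerivAt
  have h3 := h1.unique h2
  have h4 := congrArg (fun A : C4 →L[ℝ] ℝ => A w) h3
  simp only [smul_apply, innerSL_apply_apply, smul_eq_mul,
    Nat.add_one_sub_one, pow_one] at h4
  have h5 : (2 : ℝ) * (‖v‖ * fderiv ℝ (fun x : C4 => ‖x‖) v w) = 2 * inner ℝ v w := by
    calc (2 : ℝ) * (‖v‖ * fderiv ℝ (fun x : C4 => ‖x‖) v w)
        = 2 • ‖v‖ * fderiv ℝ (fun x : C4 => ‖x‖) v w := by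
          simp only [nsmul_eq_mul, Nat.cast_ofNat]
          ring
      _ = 2 * inner ℝ v w := by
          rw [h4]
          simp [nsmul_eq_mul]
  exact mul_left_cancel₀ two_ne_zero h5

theorem Mw_contDiffAt (v : C4) (hv : v ≠ 0) : ContDiffAt ℝ ∞ Mw v := by
  have hn : ContDiffAt ℝ ∞ (fun x : C4 => ((‖x‖ : ℝ) : ℂ)) v :=
    Complex.ofRealCLM.contDiff.contDiffAt.comp v (contDiffAt_norm ℝ hv)
  have hc : ∀ i : Fin 4, ContDiffAt ℝ ∞ (fun x : C4 => x i) v := fun i =>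
    (pr i).contDiff.contDiffAt
  have hn2 : ContDiffAt ℝ ∞ (fun x : C4 => ((‖x‖ ^ 2 : ℝ) : ℂ)) v :=
    Complex.ofRealCLM.contDiff.contDiffAt.comp v ((contDiffAt_norm ℝ hv).pow 2)
  rw [contDiffAt_piLp]
  intro i
  fin_cases i
  · exact hn.mul (hc 0)
  · exact hn2.mul (hc 1)
  · exact hn2.mul (hc 2)
  · exact hn2.mul (hc 3)

theorem Mw_fderiv (v : C4) (hv : v ≠ 0) (L : C4 →L[ℝ] ℝ)
    (hL : HasFDerivAt (fun x : C4 => ‖x‖) L v) (w : C4) :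
    (fderiv ℝ Mw v w) 0 = ‖v‖ * w 0 + v 0 * (L w : ℝ) ∧
    ∀ i : Fin 4, i ≠ 0 →
      (fderiv ℝ Mw v w) i = ((‖v‖ ^ 2 : ℝ) : ℂ) * w i + v i * ((2 * ‖v‖ * L w : ℝ) : ℂ) := by
  have hD : HasFDerivAt Mw (fderiv ℝ Mw v) v :=
    ((Mw_contDiffAt v hv).differentiableAt (by simp)).hasFDerivAt
  have hN : HasFDerivAt (fun x : C4 => ((‖x‖ : ℝ) : ℂ)) (Complex.ofRealCLM ∘L L) v :=
    Complex.ofRealCLM.hasFDerivAt.comp v hL
  have hN2 : HasFDerivAt (fun x : C4 => ((‖x‖ ^ 2 : ℝ) : ℂ))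
      (Complex.ofRealCLM ∘L ((2 * ‖v‖) • L)) v := by
    have h1 : HasFDerivAt (fun x : C4 => ‖x‖ ^ 2) ((2 * ‖v‖) • L) v := by
      have h2 := hL.pow 2
      have e : (2 • ‖v‖ ^ (2 - 1)) • L = (2 * ‖v‖) • L := by
        congr 1
        simp [nsmul_eq_mul]
      rw [e] at h2
      exact h2
    exact Complex.ofRealCLM.hasFDerivAt.comp v h1
  have key : ∀ i : Fin 4, HasFDerivAt (fun x : C4 => Mw x i) (pr i ∘L fderiv ℝ Mw v) v :=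
    fun i => (pr i).hasFDerivAt.comp v hD
  refine ⟨?_, fun i hi => ?_⟩
  · have h1 : HasFDerivAt (fun x : C4 => ((‖x‖ : ℝ) : ℂ) * x 0) _ v :=
      hN.mul ((pr 0).hasFDerivAt (x := v))
    have h2 := (key 0).unique h1
    have h3 := congrArg (fun A : C4 →L[ℝ] ℂ => A w) h2
    simpa [pr_apply] using h3
  · have h1 : HasFDerivAt (fun x : C4 => ((‖x‖ ^ 2 : ℝ) : ℂ) * x i) _ v :=
      hN2.mul ((pr i).hasFDerivAt (x := v))
    have h0 : (fun x : C4 => Mw x i) = fun x : C4 => ((‖x‖ ^ 2 : ℝ) : ℂ) * x i := by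
      funext x
      fin_cases i
      · exact absurd rfl hi
      · rfl
      · rfl
      · rfl
    have hk := key i
    rw [h0] at hk
    have h2 := hk.unique h1
    have h3 := congrArg (fun A : C4 →L[ℝ] ℂ => A w) h2
    simpa [pr_apply] using h3

theorem Mw_fderiv_inj (v : C4) (hv : v ≠ 0) : Function.Injective (fderiv ℝ Mw v) := by
  rw [injective_iff_map_eq_zero]
  intro w hw
  obtain ⟨L, hL, hL2⟩ := norm_hasFDerivAt v hv
  obtain ⟨h0, hi⟩ := Mw_fderiv v hv L hL w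
  have pv := norm_pos hv
  have c1 : ((‖v‖ : ℝ) : ℂ) ≠ 0 := by exact_mod_cast pv.ne'
  rw [hw] at h0
  have z0 : ∀ i : Fin 4, (0 : C4) i = 0 := fun i => rfl
  rw [z0] at h0
  have w0 : w 0 = (-(L w / ‖v‖) : ℝ) • v 0 := by
    rw [Complex.real_smul]
    push_cast
    field_simp
    linear_combination -h0
  have wi : ∀ i : Fin 4, i ≠ 0 → w i = (-(2 * L w / ‖v‖) : ℝ) • v i := by
    intro i hi0
    have h := hi i hi0
    rw [hw, z0] at h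
    rw [Complex.real_smul]
    have h' : ((‖v‖ : ℝ) : ℂ) * (((‖v‖ : ℝ) : ℂ) * w i + 2 * (L w : ℝ) * v i) = 0 := by
      push_cast at h
      linear_combination -h
    have h'' := (mul_eq_zero.1 h').resolve_left c1
    push_cast
    field_simp
    linear_combination h''
  have hin : inner ℝ v w = -(L w / ‖v‖) * ‖v 0‖ ^ 2 + -(2 * L w / ‖v‖) * ‖v 1‖ ^ 2 +
      -(2 * L w / ‖v‖) * ‖v 2‖ ^ 2 + -(2 * L w / ‖v‖) * ‖v 3‖ ^ 2 := by
    rw [PiLp.inner_apply, Fin.sum_univ_four, w0, wi 1 (by decide), wi 2 (by decide),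
      wi 3 (by decide), real_inner_smul_right, real_inner_smul_right, real_inner_smul_right,
      real_inner_smul_right, real_inner_self_eq_norm_sq, real_inner_self_eq_norm_sq,
      real_inner_self_eq_norm_sq, real_inner_self_eq_norm_sq]
  have h1 := hL2 w
  rw [hin] at h1
  have h2 : L w * (‖v‖ ^ 2 + ‖v 0‖ ^ 2 + 2 * ‖v 1‖ ^ 2 + 2 * ‖v 2‖ ^ 2 + 2 * ‖v 3‖ ^ 2) = 0 := by
    have h3 := congrArg (fun x : ℝ => ‖v‖ * x) h1
    simp only at h3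
    have h4 : ‖v‖ * (-(L w / ‖v‖) * ‖v 0‖ ^ 2 + -(2 * L w / ‖v‖) * ‖v 1‖ ^ 2 +
      -(2 * L w / ‖v‖) * ‖v 2‖ ^ 2 + -(2 * L w / ‖v‖) * ‖v 3‖ ^ 2) =
        -(L w) * ‖v 0‖ ^ 2 - 2 * L w * ‖v 1‖ ^ 2 - 2 * L w * ‖v 2‖ ^ 2 - 2 * L w * ‖v 3‖ ^ 2 := by
      field_simp
      ring
    rw [h4] at h3
    linarith
  have h5 : 0 < ‖v‖ ^ 2 + ‖v 0‖ ^ 2 + 2 * ‖v 1‖ ^ 2 + 2 * ‖v 2‖ ^ 2 + 2 * ‖v 3‖ ^ 2 := by
    positivity
  have hLw : L w = 0 := (mul_eq_zero.1 h2).resolve_right h5.ne'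
  have e : ∀ i : Fin 4, w i = 0 := by
    intro i
    by_cases hi0 : i = 0
    · rw [hi0, w0, hLw]
      simp
    · rw [wi i hi0, hLw]
      simp
  exact ext4 (e 0) (e 1) (e 2) (e 3)

theorem Mw_fderiv_bij (v : C4) (hv : v ≠ 0) : Function.Bijective (fderiv ℝ Mw v) := by
  have h := Mw_fderiv_inj v hv
  refine ⟨h, ?_⟩
  have h2 : Function.Injective (fderiv ℝ Mw v : C4 →ₗ[ℝ] C4) := h
  exact LinearMap.injective_iff_surjective.1 h2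

end WPI_

/-- WPI. -/
theorem wpi_proof (hINJ : Stmt_INJ) : Stmt_WPI := by
  choose! Mi hMi0 hMi using WPI_.Mw_surj
  have left : ∀ v, v ≠ 0 → Mi (Mw v) = v := by
    intro v hv
    have hz : Mw v ≠ 0 := by
      intro h
      have h0 := congrArg (fun z : C4 => z 0) h
      have h1 := congrArg (fun z : C4 => z 1) h
      have h2 := congrArg (fun z : C4 => z 2) h
      have h3 := congrArg (fun z : C4 => z 3) h
      simp only [WPI_.Mw0, WPI_.Mw1, WPI_.Mw2, WPI_.Mw3] at h0 h1 h2 h3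
      have z0 : ∀ i : Fin 4, (0 : C4) i = 0 := fun i => rfl
      rw [z0] at h0 h1 h2 h3
      have pv := WPI_.norm_pos hv
      have c1 : ((‖v‖ : ℝ) : ℂ) ≠ 0 := by exact_mod_cast pv.ne'
      have c2 : ((‖v‖ ^ 2 : ℝ) : ℂ) ≠ 0 := by
        have : (‖v‖ ^ 2 : ℝ) ≠ 0 := by positivity
        exact_mod_cast this
      exact hv (WPI_.ext4 ((mul_eq_zero.1 h0).resolve_left c1)
        ((mul_eq_zero.1 h1).resolve_left c2) ((mul_eq_zero.1 h2).resolve_left c2)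
        ((mul_eq_zero.1 h3).resolve_left c2))
    exact WPI_.Mw_inj (hMi0 _ hz) hv (hMi _ hz)
  refine ⟨Mi, ?_, hMi0, left, hMi⟩
  intro z hz
  have hz' : z ≠ 0 := hz
  apply ContDiffAt.contDiffWithinAt
  let v := Mi z
  have hv : v ≠ 0 := hMi0 z hz'
  have hvz : Mw v = z := hMi z hz'
  obtain ⟨U, hU, hKU, hUO, -, -, hop, g, hg, hgf⟩ := hINJ C4 C4 Mw {0}ᶜ {v}
    isOpen_compl_singleton (fun x hx => (WPI_.Mw_contDiffAt x hx).contDiffWithinAt)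
    isCompact_singleton (by
      intro x hx
      rw [mem_singleton_iff] at hx
      rw [hx]
      exact hv) (injOn_singleton _ _) (by
      intro x hx
      rw [mem_singleton_iff] at hx
      rw [hx]
      exact WPI_.Mw_fderiv_bij v hv)
  have hopen : IsOpen (Mw '' U) := hop U hU subset_rfl
  have hzU : z ∈ Mw '' U := ⟨v, hKU rfl, hvz⟩
  have h1 : ContDiffAt ℝ ∞ g z := hg.contDiffAt (hopen.mem_nhds hzU)
  refine h1.congr_of_eventuallyEq ?_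
  filter_upwards [hopen.mem_nhds hzU] with y hy
  obtain ⟨u, hu, rfl⟩ := hy
  rw [hgf u hu]
  exact left u (hUO hu)

end Pool.Agent.KNT
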