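import Pool.Agent.KNT.CSO
import Pool.Agent.KNT.HCN
import Pool.Agent.KNT.TUB
import Pool.Agent.KNT.NTB
import Pool.Agent.KNT.NT1
import Pool.Agent.KNT.COL
import Pool.Agent.KNT.LAG
import Pool.Agent.KNT.FRE
import Pool.Agent.KNT.LIN
import Pool.Agent.KNT.HGR
import Pool.Agent.KNT.KNF
import Pool.Agent.KNT.IOD
import Pool.Agent.KNT.RSP
import Pool.Agent.KNT.BNZ
import Pool.Agent.KNT.CHT
import Pool.Agent.KNT.COA
import Pool.Agent.KNT.DIF
import Pool.Agent.KNT.NPU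
import Pool.Agent.KNT.INJ
import Pool.Agent.KNT.HRG
import Pool.Agent.KNT.SHR
import Pool.Agent.KNT.KAB
import Pool.Agent.KNT.CSA
import Pool.Agent.KNT.BFR
import Pool.Agent.KNT.SHG
import Pool.Agent.KNT.SHA
import Pool.Agent.KNT.WPI
import Pool.Agent.KNT.IBS
import Pool.Agent.KNT.TMM
import Pool.Agent.KNT.IAB
import Pool.Agent.KNT.ISM
import Pool.Agent.KNT.TAU
import Pool.Agent.KNT.LGS
import Pool.Agent.KNT.EXT
import Pool.Agent.KNT.NT2
import Pool.Agent.KNT.ORI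
import Pool.Agent.KNT.SHZ
import Pool.Agent.KNT.STS
import Pool.Agent.KNT.CHS
import Pool.Agent.KNT.SRG
import Pool.Agent.KNT.PFM
import Pool.Agent.KNT.PFL
import Pool.Agent.KNT.BMP
import Pool.Agent.KNT.TFS
import Pool.Agent.KNT.TFR
import Pool.Agent.KNT.GRG
import Pool.Agent.KNT.O2R
import Pool.Agent.KNT.LNK
import Pool.Agent.KNT.ISO
import Pool.Agent.KNT.HGA
import Pool.Agent.KNT.HGS
import Pool.Agent.KNT.STT
import Pool.Agent.KNT.IBI
import Pool.Agent.KNT.IOA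
import Pool.Agent.KNT.IOT
import Pool.Agent.KNT.TLA
import Pool.Agent.KNT.CSB
import Pool.Agent.KNT.EMB
import Pool.Agent.KNT.SHB
import Pool.Agent.KNT.KKB
import Pool.Agent.KNT.BET
import Pool.Agent.KNT.ALB
import Pool.Agent.KNT.FRM
import Pool.Agent.KNT.BRW
import Pool.Agent.KNT.LGB
import Pool.Agent.KNT.SAT
import Pool.Agent.KNT.IST
import Pool.Agent.KNT.ISS
import Pool.Agent.KNT.ISR
import Pool.Agent.KNT.TSA
import Pool.Agent.KNT.PFT
import Pool.Agent.KNT.STC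
import Pool.Agent.KNT.TOP
import Pool.Agent.KNT.NTA
import Pool.Agent.KNT.MAIN

/-!
# Squad KNT: assembly of all the modules
-/

set_option autoImplicit false

namespace Pool.Agent.KNT

theorem s_inj : Stmt_INJ := inj_proof
theorem s_cso : Stmt_CSO := cso_proof s_inj
theorem s_npu : Stmt_NPU := npu_proof
theorem s_bmp : Stmt_BMP := bmp_proof
theorem s_hcn : Stmt_HCN := hcn_proof s_npu s_cso s_bmp
theorem s_wpi : Stmt_WPI := wpi_proof s_inj
theorem s_alb : Stmt_ALB := alb_proof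
theorem s_frm : Stmt_FRM := frm_proof s_alb
theorem s_tmm : Stmt_TMM := tmm_proof s_alb
theorem s_iab : Stmt_IAB := iab_proof s_alb s_frm s_tmm
theorem s_ism : Stmt_ISM := ism_proof s_alb s_iab
theorem s_ioa : Stmt_IOA := ioa_proof s_iab s_ism
theorem s_kab : Stmt_KAB := kab_proof s_alb s_frm s_tmm s_iab
theorem s_ibi : Stmt_IBI := ibi_proof s_alb s_iab s_kab
theorem s_ibs : Stmt_IBS := ibs_proof s_alb s_iab s_kab
theorem s_iod : Stmt_IOD := iod_proof s_alb s_iab s_kab s_ism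
theorem s_iot : Stmt_IOT := iot_proof s_wpi s_ioa s_ibi s_ibs s_iod s_iab
theorem s_hrg : Stmt_HRG := hrg_proof
theorem s_grg : Stmt_GRG := grg_proof s_hrg
theorem s_tla : Stmt_TLA := tla_proof s_grg
theorem s_tub : Stmt_TUB := tub_proof s_iot s_npu s_tla s_inj s_grg
theorem s_brw : Stmt_BRW := brw_proof
theorem s_nt2 : Stmt_NT2 := nt2_proof s_brw
theorem s_bet : Stmt_BET := bet_proof
theorem s_tau : Stmt_TAU := tau_proof
theorem s_kkb : Stmt_KKB := kkb_proof s_tau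
theorem s_srg : Stmt_SRG := srg_proof s_grg
theorem s_bnz : Stmt_BNZ := bnz_proof s_bet s_tau s_kkb s_srg
theorem s_lin : Stmt_LIN := lin_proof s_tau s_srg
theorem s_bfr : Stmt_BFR := bfr_proof s_tau
theorem s_isr : Stmt_ISR := isr_proof
theorem s_sat : Stmt_SAT := sat_proof
theorem s_ist : Stmt_IST := ist_proof s_sat
theorem s_iss : Stmt_ISS := iss_proof s_sat
theorem s_dif : Stmt_DIF := dif_proof s_inj
theorem s_pfl : Stmt_PFL := pfl_proof s_hcn s_dif
theorem s_pfm : Stmt_PFM := pfm_proof s_isr s_ist s_iss s_pfl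
theorem s_tfs : Stmt_TFS := tfs_proof s_grg
theorem s_tfr : Stmt_TFR := tfr_proof s_tfs s_grg
theorem s_pft : Stmt_PFT := pft_proof s_pfm s_tfs s_tfr
theorem s_sts : Stmt_STS := sts_proof s_tau s_srg s_lin s_bfr s_pft s_tfs s_tfr s_ist s_isr s_sat
theorem s_rsp : Stmt_RSP := rsp_proof s_bet s_tau s_kkb s_srg s_sts
theorem s_shz : Stmt_SHZ := shz_proof s_tau s_kkb
theorem s_cht : Stmt_CHT := cht_proof s_tau
theorem s_chs : Stmt_CHS := chs_proof s_tau s_cht
theorem s_sha : Stmt_SHA := sha_proof s_tau s_kkb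
theorem s_ntb : Stmt_NTB := ntb_proof s_nt2 s_bnz s_rsp s_shz s_kkb s_cht s_chs s_sts s_tau s_bet s_sha
theorem s_lgb : Stmt_LGB := lgb_proof
theorem s_lgs : Stmt_LGS := lgs_proof s_lgb
theorem s_ext : Stmt_EXT := ext_proof s_lgs
theorem s_coa : Stmt_COA := coa_proof
theorem s_col : Stmt_COL := col_proof s_coa
theorem s_nt1 : Stmt_NT1 := nt1_proof s_ext s_lgb s_col s_brw
theorem s_lag : Stmt_LAG := lag_proof
theorem s_fre : Stmt_FRE := fre_proof s_srg
theorem s_hgr : Stmt_HGR := hgr_proof s_grg s_tau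
theorem s_shb : Stmt_SHB := shb_proof
theorem s_shr : Stmt_SHR := shr_proof s_tau s_kkb s_cht s_chs s_shb
theorem s_shg : Stmt_SHG := shg_proof s_tau s_kkb s_sha s_shz s_shr s_bfr
theorem s_knf : Stmt_KNF := knf_proof s_tau s_sha s_shg s_tfr s_cht s_chs
theorem s_emb : Stmt_EMB := emb_proof s_cht s_chs
theorem s_csa : Stmt_CSA := csa_proof s_sat s_tau s_sha s_cht s_chs s_emb s_grg
theorem s_ori : Stmt_ORI := ori_proof s_emb
theorem s_o2r : Stmt_O2R := o2r_proof s_lag s_hrg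
theorem s_lnk : Stmt_LNK := lnk_proof s_o2r s_hrg s_pfm s_isr s_ist s_sat
theorem s_iso : Stmt_ISO := iso_proof
theorem s_hga : Stmt_HGA := hga_proof s_tau s_grg
theorem s_hgs : Stmt_HGS := hgs_proof s_sat s_grg s_tau
theorem s_stt : Stmt_STT := stt_proof s_sat s_isr s_ist s_grg s_srg s_hga s_hgr s_hgs s_pft s_tfs s_tfr s_bfr
theorem s_csb : Stmt_CSB := csb_proof s_sat s_sha s_cht s_grg s_tau s_kkb
theorem s_tsa : Stmt_TSA := tsa_proof s_sat s_grg
theorem s_stc : Stmt_STC := stc_proof s_sha s_shz s_shg s_tsa s_pft s_tfs s_tfr s_bfr s_ist s_isr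
theorem s_top : Stmt_TOP := top_proof
theorem s_nta : Stmt_NTA := nta_proof s_nt1
theorem s_main : Stmt_MAIN := main_proof s_iso s_lnk s_stt s_sts s_stc s_ori s_knf s_csa s_csb s_nta s_ntb s_top s_tub s_fre s_srg s_tfs s_tfr s_ist s_sat s_bfr s_grg

end Pool.Agent.KNT
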