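import Pool.Agent.KNT.Stmts

set_option autoImplicit false

open scoped ContDiff ComplexConjugate
open Set Filter Topology Metric

namespace Pool.Agent.KNT

namespace CSO_

variable {V : Type} [NormedAddCommGroup V] [InnerProductSpace ℝ V]

lemma nz_smul (r : ℝ) (hr : 0 < r) (x : V) : nz (r • x) = nz x := by
  unfold nz
  rw [norm_smul, Real.norm_of_nonneg hr.le, smul_smul]
  congr 1
  rw [mul_inv, mul_assoc, mul_comm, mul_assoc, mul_inv_cancel₀ hr.ne', mul_one]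

lemma norm_nz (x : V) (hx : x ≠ 0) : ‖nz x‖ = 1 := by
  unfold nz
  rw [norm_smul, norm_inv, norm_norm, inv_mul_cancel₀ (norm_ne_zero_iff.2 hx)]

lemma nz_ne (x : V) (hx : x ≠ 0) : nz x ≠ 0 := by
  intro h
  have := norm_nz x hx
  rw [h, norm_zero] at this
  exact zero_ne_one this

lemma smul_nz (x : V) (hx : x ≠ 0) : ‖x‖ • nz x = x := by
  unfold nz
  rw [smul_smul, mul_inv_cancel₀ (norm_ne_zero_iff.2 hx), one_smul]

lemma nz_smooth : ContDiffOn ℝ ∞ (nz : V → V) {0}ᶜ := by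
  intro x hx
  have hx' : x ≠ 0 := hx
  apply ContDiffAt.contDiffWithinAt
  unfold nz
  exact ((contDiffAt_norm ℝ hx').inv (norm_ne_zero_iff.2 hx')).smul contDiffAt_id

end CSO_

open CSO_

theorem cso_proof (hINJ : Stmt_INJ) : Stmt_CSO := by
  intro V _ _ _ Φ t₀ N hΦ hreg hN
  -- the map Ξ
  set Ξ : ℝ × V × ℂ → ℝ × V × ℂ := fun p => (p.1, p.2.1, Φ p.1 (N (p.2.1, p.2.2))) with hΞ
  set O : Set (ℝ × V × ℂ) := {p | p.2.1 ≠ 0} with hO
  have hOo : IsOpen O := isOpen_ne_fun (continuous_fst.comp continuous_snd) continuous_const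
  set S₁ : Set V := sphere (0 : V) 1 ∩ (Φ t₀) ⁻¹' {0} with hS₁
  have hΦt : ∀ t, ContDiffOn ℝ ∞ (Φ t) {0}ᶜ := by
    intro t
    have h1 : ContDiffOn ℝ ∞ (fun x : V => ((t, x) : ℝ × V)) {0}ᶜ :=
      (contDiff_const.prodMk contDiff_id).contDiffOn
    exact hΦ.smooth.comp h1 (fun x hx => hx)
  have hS₁c : IsCompact S₁ := by
    have h1 : IsClosed (sphere (0 : V) 1 ∩ (Φ t₀) ⁻¹' {0}) := by
      apply ContinuousOn.preimage_isClosed_of_isClosed _ isClosed_sphere isClosed_singleton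
      exact (hΦt t₀).continuousOn.mono (fun x hx => by
        intro h
        have : ‖x‖ = 1 := by simpa using hx
        rw [mem_singleton_iff.1 h, norm_zero] at this
        exact zero_ne_one this)
    exact (isCompact_sphere (0 : V) 1).of_isClosed_subset h1 inter_subset_left
  set K : Set (ℝ × V × ℂ) := {t₀} ×ˢ (S₁ ×ˢ {0}) with hK
  have hKc : IsCompact K := isCompact_singleton.prod (hS₁c.prod isCompact_singleton)
  have hS₁0 : ∀ x ∈ S₁, x ≠ 0 := by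
    intro x hx h
    have : ‖x‖ = 1 := by simpa using hx.1
    rw [h, norm_zero] at this
    exact zero_ne_one this
  have hKO : K ⊆ O := fun p hp => hS₁0 _ hp.2.1
  have hNne : ∀ x c, x ≠ 0 → N (x, c) ≠ 0 := by
    intro x c hx h
    have := hN.norm x c
    rw [h, norm_zero] at this
    exact hx (norm_eq_zero.1 this.symm)
  have hN2 : ContDiffOn ℝ ∞ (fun p : ℝ × V × ℂ => N (p.2.1, p.2.2)) O := by
    have h1 : ContDiffOn ℝ ∞ (fun p : ℝ × V × ℂ => ((p.2.1, p.2.2) : V × ℂ)) O :=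
      contDiff_snd.contDiffOn
    exact hN.smooth.comp h1 (fun p hp => hp)
  have hF3 : ContDiffOn ℝ ∞ (fun p : ℝ × V × ℂ => Φ p.1 (N (p.2.1, p.2.2))) O := by
    have h1 : ContDiffOn ℝ ∞ (fun p : ℝ × V × ℂ => ((p.1, N (p.2.1, p.2.2)) : ℝ × V)) O :=
      contDiff_fst.contDiffOn.prodMk hN2
    exact hΦ.smooth.comp h1 (fun p hp => hNne _ _ hp)
  have hΞs : ContDiffOn ℝ ∞ Ξ O :=
    contDiff_fst.contDiffOn.prodMk
      ((contDiff_fst.comp contDiff_snd).contDiffOn.prodMk hF3)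
  have hinjK : InjOn Ξ K := by
    rintro ⟨t, x, c⟩ h1 ⟨t', x', c'⟩ h2 h
    simp only [hK, mem_prod, mem_singleton_iff] at h1 h2
    simp only [hΞ, Prod.mk.injEq] at h
    obtain ⟨a1, a2, a3⟩ := h1
    obtain ⟨b1, b2, b3⟩ := h2
    simp [h.1, h.2.1, a3, b3]
  have hbij : ∀ p ∈ K, Function.Bijective (fderiv ℝ Ξ p) := by
    rintro ⟨t, x, c⟩ hp
    simp only [hK, mem_prod, mem_singleton_iff] at hp
    obtain ⟨rfl, hx, rfl⟩ := hp
    have hx0 := hS₁0 x hx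
    have hpO : ((t, x, (0 : ℂ)) : ℝ × V × ℂ) ∈ O := hx0
    have hinf : (∞ : WithTop ℕ∞) ≠ 0 := by simp
    have d3 : DifferentiableAt ℝ (fun p : ℝ × V × ℂ => Φ p.1 (N (p.2.1, p.2.2))) (t, x, 0) :=
      ((hF3 _ hpO).contDiffAt (hOo.mem_nhds hpO)).differentiableAt hinf
    have dfst : HasFDerivAt (fun p : ℝ × V × ℂ => p.1)
      (ContinuousLinearMap.fst ℝ ℝ (V × ℂ)) (t, x, 0) := hasFDerivAt_fst
    have dsnd : HasFDerivAt (fun p : ℝ × V × ℂ => p.2.1)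
      ((ContinuousLinearMap.fst ℝ V ℂ).comp (ContinuousLinearMap.snd ℝ ℝ (V × ℂ))) (t, x, 0) :=
      ((ContinuousLinearMap.fst ℝ V ℂ).comp (ContinuousLinearMap.snd ℝ ℝ (V × ℂ))).hasFDerivAt
    have dΞ : HasFDerivAt Ξ ((ContinuousLinearMap.fst ℝ ℝ (V × ℂ)).prod
      (((ContinuousLinearMap.fst ℝ V ℂ).comp (ContinuousLinearMap.snd ℝ ℝ (V × ℂ))).prod
        (fderiv ℝ (fun p : ℝ × V × ℂ => Φ p.1 (N (p.2.1, p.2.2))) (t, x, 0)))) (t, x, 0) :=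
      dfst.prodMk (dsnd.prodMk d3.hasFDerivAt)
    -- third component in the direction (0,0,c)
    have hx0' : ((x, (0 : ℂ)) : V × ℂ) ∈ {p : V × ℂ | p.1 ≠ 0} := hx0
    have ho1 : IsOpen {p : V × ℂ | p.1 ≠ 0} := isOpen_ne_fun continuous_fst continuous_const
    have ho2 : IsOpen {p : ℝ × V | p.2 ≠ 0} := isOpen_ne_fun continuous_snd continuous_const
    have dN : HasFDerivAt N (fderiv ℝ N (x, 0)) (x, 0) :=
      (((hN.smooth _ hx0').contDiffAt (ho1.mem_nhds hx0')).differentiableAt hinf).hasFDerivAt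
    have hΦx : DifferentiableAt ℝ (Φ t) x :=
      (((hΦt t) x hx0).contDiffAt (isOpen_compl_singleton.mem_nhds hx0)).differentiableAt hinf
    have hkey : ∀ c : ℂ, fderiv ℝ (fun p : ℝ × V × ℂ => Φ p.1 (N (p.2.1, p.2.2))) (t, x, 0)
        (0, 0, c) = fderiv ℝ (Φ t) x (fderiv ℝ N (x, 0) (0, c)) := by
      intro c
      -- compose with c ↦ (t, x, c)
      have e1 : HasFDerivAt (fun c : ℂ => ((t, x, c) : ℝ × V × ℂ))
          ((0 : ℂ →L[ℝ] ℝ).prod ((0 : ℂ →L[ℝ] V).prod (ContinuousLinearMap.id ℝ ℂ))) 0 :=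
        (hasFDerivAt_const t 0).prodMk ((hasFDerivAt_const x 0).prodMk (hasFDerivAt_id 0))
      have e2 := (d3.hasFDerivAt).comp (0 : ℂ) e1
      have e3 : HasFDerivAt (fun c : ℂ => ((x, c) : V × ℂ))
          ((0 : ℂ →L[ℝ] V).prod (ContinuousLinearMap.id ℝ ℂ)) 0 :=
        (hasFDerivAt_const x 0).prodMk (hasFDerivAt_id 0)
      have e4 := dN.comp (0 : ℂ) e3
      have e5 : HasFDerivAt (Φ t) (fderiv ℝ (Φ t) x) (N (x, 0)) := by
        rw [hN.zero]; exact hΦx.hasFDerivAt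
      have e6 := HasFDerivAt.comp (0 : ℂ) (f := fun c : ℂ => N (x, c)) e5 e4
      have e7 := HasFDerivAt.unique e2 e6
      have e8 := congrArg (fun (L : ℂ →L[ℝ] ℂ) => L c) e7
      simpa using e8
    have hinj : Function.Injective (fderiv ℝ Ξ (t, x, 0)) := by
      rw [dΞ.fderiv, injective_iff_map_eq_zero]
      rintro ⟨s, v, c⟩ h
      simp only [ContinuousLinearMap.prod_apply, ContinuousLinearMap.coe_fst',
        ContinuousLinearMap.coe_comp', Function.comp_apply, ContinuousLinearMap.coe_snd',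
        Prod.mk_eq_zero] at h
      obtain ⟨h1, h2, h3⟩ := h
      subst h1 h2
      rw [hkey] at h3
      have h4 : fderiv ℝ (Φ t) x (fderiv ℝ N (x, 0) (0, (0 : ℂ))) = 0 := by
        have : ((0, (0 : ℂ)) : V × ℂ) = 0 := rfl
        rw [this, map_zero, map_zero]
      have h5 := hN.inj x hx0 (hreg x hx0 hx.2) (a₁ := c) (a₂ := 0) (by
        show fderiv ℝ (Φ t) x (fderiv ℝ N (x, 0) (0, c)) =
          fderiv ℝ (Φ t) x (fderiv ℝ N (x, 0) (0, 0))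
        rw [h3, h4])
      subst h5
      rfl
    refine ⟨hinj, ?_⟩
    have := (LinearMap.injective_iff_surjective
      (f := ((fderiv ℝ Ξ (t, x, 0)) : (ℝ × V × ℂ) →ₗ[ℝ] (ℝ × V × ℂ)))).1 hinj
    exact this
  obtain ⟨U', hU'o, hKU', hU'O, hU'inj, -, hU'im, g, hg, hgl⟩ :=
    hINJ (ℝ × V × ℂ) (ℝ × V × ℂ) Ξ O K hOo hΞs hKc hKO hinjK hbij
  have hImo : IsOpen (Ξ '' U') := hU'im U' hU'o Subset.rfl
  -- the set W
  have hxo : IsOpen {p : ℝ × V | p.2 ≠ 0} := isOpen_ne_fun continuous_snd continuous_const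
  have hcont : ContinuousOn (fun p : ℝ × V => ((p.1, p.2, Φ t₀ p.2) : ℝ × V × ℂ))
      {p : ℝ × V | p.2 ≠ 0} := by
    apply continuousOn_fst.prodMk
    apply continuousOn_snd.prodMk
    exact (hΦt t₀).continuousOn.comp continuousOn_snd (fun p hp => hp)
  have hW1 : IsOpen ({p : ℝ × V | p.2 ≠ 0} ∩
      (fun p : ℝ × V => ((p.1, p.2, Φ t₀ p.2) : ℝ × V × ℂ)) ⁻¹' (Ξ '' U')) :=
    hcont.isOpen_inter_preimage hxo hImo
  have hW2 : IsOpen ((fun p : ℝ × V => ((t₀, p.2, (0 : ℂ)) : ℝ × V × ℂ)) ⁻¹' U') :=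
    hU'o.preimage (continuous_const.prodMk (continuous_snd.prodMk continuous_const))
  have hΞ0 : ∀ x : V, Ξ (t₀, x, 0) = (t₀, x, Φ t₀ x) := by
    intro x
    simp only [hΞ, hN.zero]
  have hsub : ({t₀} : Set ℝ) ×ˢ S₁ ⊆ ({p : ℝ × V | p.2 ≠ 0} ∩
      (fun p : ℝ × V => ((p.1, p.2, Φ t₀ p.2) : ℝ × V × ℂ)) ⁻¹' (Ξ '' U')) ∩
      ((fun p : ℝ × V => ((t₀, p.2, (0 : ℂ)) : ℝ × V × ℂ)) ⁻¹' U') := by
    rintro ⟨t, x⟩ ⟨ht, hx⟩
    simp only [mem_singleton_iff] at ht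
    subst ht
    have hK' : ((t, x, (0 : ℂ)) : ℝ × V × ℂ) ∈ U' := hKU' ⟨rfl, hx, rfl⟩
    exact ⟨⟨hS₁0 x hx, ⟨_, hK', hΞ0 x⟩⟩, hK'⟩
  obtain ⟨u, U1, huo, hU1o, htu, hSU1, huU⟩ :=
    generalized_tube_lemma (isCompact_singleton (x := t₀)) hS₁c (hW1.inter hW2) hsub
  obtain ⟨δ, hδ, hδu⟩ := Metric.isOpen_iff.1 huo t₀ (htu rfl)
  have hcone : ∀ r : ℝ, 0 < r → ∀ x : V, x ≠ 0 → r • x ≠ 0 := fun r hr x hx =>
    smul_ne_zero hr.ne' hx
  refine ⟨δ, {0}ᶜ ∩ nz ⁻¹' U1, fun p => (g (p.1, nz p.2, Φ t₀ (nz p.2))).2.2, hδ, ?_, ?_, ?_,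
    ?_, ?_, ?_, ?_, ?_⟩
  · exact nz_smooth.continuousOn.isOpen_inter_preimage isOpen_compl_singleton hU1o
  · rintro r hr x ⟨hx, hx1⟩
    refine ⟨hcone r hr x hx, ?_⟩
    rw [mem_preimage, nz_smul r hr]
    exact hx1
  · rintro ⟨h, -⟩
    exact h rfl
  · intro z hz hz0
    refine ⟨hz, hSU1 ⟨by simpa using norm_nz z hz, ?_⟩⟩
    rw [mem_preimage, mem_singleton_iff]
    unfold nz
    rw [hΦ.hom t₀ _ (inv_pos.2 (norm_pos_iff.2 hz)), hz0]
  · -- smoothness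
    have hm : ContDiffOn ℝ ∞ (fun p : ℝ × V => ((p.1, nz p.2, Φ t₀ (nz p.2)) : ℝ × V × ℂ))
        (ball t₀ δ ×ˢ ({0}ᶜ ∩ nz ⁻¹' U1)) := by
      have hn : ContDiffOn ℝ ∞ (fun p : ℝ × V => nz p.2) (ball t₀ δ ×ˢ ({0}ᶜ ∩ nz ⁻¹' U1)) :=
        nz_smooth.comp contDiff_snd.contDiffOn (fun p hp => hp.2.1)
      exact contDiff_fst.contDiffOn.prodMk
        (hn.prodMk ((hΦt t₀).comp hn (fun p hp => nz_ne _ hp.2.1)))
    have hgc : ContDiffOn ℝ ∞ (fun p : ℝ × V => g (p.1, nz p.2, Φ t₀ (nz p.2)))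
        (ball t₀ δ ×ˢ ({0}ᶜ ∩ nz ⁻¹' U1)) := by
      refine hg.comp hm ?_
      rintro ⟨t, x⟩ ⟨ht, hx, hx1⟩
      have := huU (mk_mem_prod (hδu ht) hx1)
      exact this.1.2
    exact (contDiff_snd.comp contDiff_snd).comp_contDiffOn hgc
  · intro t ht r hr x hx
    simp only [nz_smul r hr]
  · rintro x ⟨hx, hx1⟩
    have h1 := (huU (mk_mem_prod (htu rfl) hx1)).2
    have h2 : ((t₀, nz x, (0 : ℂ)) : ℝ × V × ℂ) ∈ U' := h1
    have h3 := hgl _ h2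
    rw [hΞ0] at h3
    show (g (t₀, nz x, Φ t₀ (nz x))).2.2 = 0
    rw [h3]
  · rintro t ht x ⟨hx, hx1⟩
    obtain ⟨⟨-, q, hq, hqe⟩, -⟩ := huU (mk_mem_prod (hδu ht) hx1)
    have h3 := hgl _ hq
    have hqe' : Ξ q = (t, nz x, Φ t₀ (nz x)) := hqe
    rw [hqe'] at h3
    show Φ t (N (x, (g (t, nz x, Φ t₀ (nz x))).2.2)) = Φ t₀ x
    rw [h3]
    simp only [hΞ, Prod.mk.injEq] at hqe'
    obtain ⟨a1, a2, a3⟩ := hqe'
    have e1 : N (x, q.2.2) = ‖x‖ • N (nz x, q.2.2) := by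
      rw [← hN.hom _ (norm_pos_iff.2 hx), smul_nz x hx]
    rw [e1, hΦ.hom t _ (norm_pos_iff.2 hx)]
    rw [a1, a2] at a3
    rw [a3]
    conv_rhs => rw [← smul_nz x hx]
    rw [hΦ.hom t₀ _ (norm_pos_iff.2 hx)]

end Pool.Agent.KNT
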