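import Pool.Agent.KNT.Knots

/-!
# Squad KNT (MP_60ecc5_gt): the example and auxiliary definitions
-/

set_option autoImplicit false

open scoped ContDiff ComplexConjugate
open Set

namespace Pool.Agent.KNT

/-- Topological triviality: a homeomorphism of the sphere carries the knot to the standard one. -/
def TopTrivial {n : ℕ} (F : E n → ℂ) : Prop :=
  ∃ h h' : E n → E n, ContinuousOn h {0}ᶜ ∧ ContinuousOn h' {0}ᶜ ∧ (∀ z, ‖h z‖ = ‖z‖) ∧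
    (∀ z, ‖h' z‖ = ‖z‖) ∧ (∀ z, h' (h z) = z) ∧ (∀ z, h (h' z) = z) ∧
    ∀ z, z ≠ 0 → (F z = 0 ↔ (h z) 0 = 0)

/-! ### The example -/

/-- `ℂ³` -/
abbrev C3 := EuclideanSpace ℂ (Fin 3)
/-- `ℂ⁴`, coordinates `(x, y₁, y₂, y₃) = (z 0, z 1, z 2, z 3)` -/
abbrev C4 := E 3

/-- `g = x³ + y·y` -/
def g4 (z : C4) : ℂ := z 0 ^ 3 + z 1 ^ 2 + z 2 ^ 2 + z 3 ^ 2
/-- `h = 16 y₁⁶ + 4 y₂⁶ + y₃⁶` -/
def h4 (z : C4) : ℂ := 16 * z 1 ^ 6 + 4 * z 2 ^ 6 + z 3 ^ 6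
/-- The singularity `f = g² - h`. -/
def f4 (z : C4) : ℂ := g4 z ^ 2 - h4 z

/-- Radial projection to the unit sphere. -/
noncomputable def nz {V : Type} [NormedAddCommGroup V] [NormedSpace ℝ V] (z : V) : V :=
  (‖z‖⁻¹ : ℝ) • z

/-- `g` on the unit sphere, constant on rays -/
noncomputable def gb (z : C4) : ℂ := g4 (nz z)
/-- `h` on the unit sphere, constant on rays -/
noncomputable def hb (z : C4) : ℂ := h4 (nz z)

/-- `y·y` on `ℂ³` -/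
def sq (P : C3) : ℂ := P 0 ^ 2 + P 1 ^ 2 + P 2 ^ 2
/-- `h` on `ℂ³` -/
def h3 (P : C3) : ℂ := 16 * P 0 ^ 6 + 4 * P 1 ^ 6 + P 2 ^ 6

/-- smooth cutoff: `1` for `x ≤ a`, `0` for `x ≥ b` (`a < b`) -/
noncomputable def cut (a b x : ℝ) : ℝ := Real.smoothTransition ((b - x) / (b - a))
/-- smooth bump: `1` on `[b,c]`, `0` outside `(a,d)` (`a < b ≤ c < d`) -/
noncomputable def bp (a b c d x : ℝ) : ℝ :=
  Real.smoothTransition ((x - a) / (b - a)) * Real.smoothTransition ((d - x) / (d - c))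

/-- A smooth positive function with `theta x = 1/x` on `[1/2, 32]`, `theta x = 1` for `x ≥ 64` and
for `x ≤ 1/4`. -/
noncomputable def theta (x : ℝ) : ℝ :=
  (1 - Real.smoothTransition ((x - 32) / 32) - Real.smoothTransition ((1 / 2 - x) * 4)) * x⁻¹ +
    Real.smoothTransition ((x - 32) / 32) + Real.smoothTransition ((1 / 2 - x) * 4)

/-- The parametrisation `ι : S⁵ → K_g` (extended homogeneously) and a tubular neighbourhood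
`G : S⁵ × D_δ → S⁷` of `K_g` with `g (G (P, w)) = w`, with inverse `Gi`. -/
structure Tube where
  ι : C3 → C4
  G : C3 × ℂ → C4
  Gi : C4 → C3 × ℂ
  δ : ℝ
  δ_pos : 0 < δ
  δ_le : δ ≤ 1 / 20
  ι_hom : ∀ r : ℝ, 0 < r → ∀ P, ι (r • P) = r • ι P
  ι_norm : ∀ P, ‖ι P‖ = ‖P‖
  ι_smooth : ContDiffOn ℝ ∞ ι {0}ᶜ
  ι_inj : ∀ P, P ≠ 0 → Function.Injective (fderiv ℝ ι P)
  ι_form : ∀ P, ‖P‖ = 1 → 1 / 6 < ‖sq P‖ → ∃ ρ : ℝ, 0 < ρ ∧ (ι P) 0 = ρ ^ 2 * sq P ∧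
    (ι P) 1 = ρ ^ 3 * (Complex.I * sq P ^ 2 / ‖sq P‖ * conj (P 0)) ∧
    (ι P) 2 = ρ ^ 3 * (Complex.I * sq P ^ 2 / ‖sq P‖ * conj (P 1)) ∧
    (ι P) 3 = ρ ^ 3 * (Complex.I * sq P ^ 2 / ‖sq P‖ * conj (P 2))
  G_hom : ∀ r : ℝ, 0 < r → ∀ P w, G (r • P, w) = r • G (P, w)
  G_norm : ∀ P w, P ≠ 0 → ‖w‖ < δ → ‖G (P, w)‖ = ‖P‖
  G_smooth : ContDiffOn ℝ ∞ G {p | p.1 ≠ 0 ∧ ‖p.2‖ < δ}
  G_zero : ∀ P, P ≠ 0 → G (P, 0) = ι P
  G_gb : ∀ P w, P ≠ 0 → ‖w‖ < δ → gb (G (P, w)) = w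
  Gi_smooth : ContDiffOn ℝ ∞ Gi {z | z ≠ 0 ∧ ‖gb z‖ < δ}
  Gi_G : ∀ P w, P ≠ 0 → ‖w‖ < δ → Gi (G (P, w)) = (P, w)
  G_Gi : ∀ z, z ≠ 0 → ‖gb z‖ < δ → (Gi z).1 ≠ 0 ∧ (Gi z).2 = gb z ∧ G (Gi z) = z

/-- Admissible families of functions on the tube: smooth, constant on rays in `P`, equal to `w²`
for `|w| ≥ δ/2`. -/
structure Adm (T : Tube) (Ψ : ℝ → C3 × ℂ → ℂ) : Prop where
  hom : ∀ t r : ℝ, 0 < r → ∀ P w, Ψ t (r • P, w) = Ψ t (P, w)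
  smooth : ContDiffOn ℝ ∞ (fun p : ℝ × (C3 × ℂ) => Ψ p.1 p.2) {p | p.2.1 ≠ 0}
  far : ∀ t P w, P ≠ 0 → T.δ / 2 ≤ ‖w‖ → Ψ t (P, w) = w ^ 2

/-- Regularity of the value `0` of a function on the tube. -/
def TReg (Ψ : C3 × ℂ → ℂ) : Prop :=
  ∀ P w, P ≠ 0 → Ψ (P, w) = 0 → Function.Surjective (fderiv ℝ Ψ (P, w))

open Classical in
/-- The function on the sphere given by a function on the tube (and by `g²` outside the tube). -/
noncomputable def TF (T : Tube) (Ψ : C3 × ℂ → ℂ) (z : C4) : ℂ :=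
  if ‖gb z‖ < T.δ then Ψ (T.Gi z) else gb z ^ 2

/-- cutoff in the tube coordinate `w`: `1` for `|w| ≤ δ/4`, `0` for `|w| ≥ δ/2` -/
noncomputable def cw (T : Tube) (w : ℂ) : ℝ := cut ((T.δ / 4) ^ 2) ((T.δ / 2) ^ 2) (‖w‖ ^ 2)

/-- The two-fold cable of `K_g` with pattern `S`: the function `w² - η S(P)` on the tube. -/
noncomputable def BF (T : Tube) (η : ℝ) (S : C3 → ℂ) (p : C3 × ℂ) : ℂ :=
  p.2 ^ 2 - η * cw T p.2 * S p.1

/-- `h` on `K_g ≅ S⁵` -/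
noncomputable def sT (T : Tube) (P : C3) : ℂ := hb (T.ι P)

/-- A base point `q` of `{h = 0} ⊂ S⁵`, and a unitary frame adapted to the differential there. -/
structure Fr (T : Tube) where
  q : C3
  n0 : C3
  n1 : C3
  C : ℝ
  C_pos : 0 < C
  nq : ‖q‖ = 1
  nn0 : ‖n0‖ = 1
  nn1 : ‖n1‖ = 1
  q0 : inner ℂ q n0 = 0
  q1 : inner ℂ q n1 = 0
  n01 : inner ℂ n0 n1 = 0
  s_q : sT T q = 0
  ds : ∀ v, fderiv ℝ (sT T) q v = C * conj (inner ℂ n0 v)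

variable {T : Tube}

/-- `τ(P) = 1 - Re⟨q,P⟩/|P| = |P/|P| - q|²/2` -/
noncomputable def tau (A : Fr T) (P : C3) : ℝ := 1 - (inner ℂ A.q P).re / ‖P‖

/-- the linear model of `s` near `q` -/
noncomputable def Lf (A : Fr T) (P : C3) : ℂ := A.C * conj (inner ℂ A.n0 P) / ‖P‖

/-- first modification of `s` near `q` (path parameter `t`) -/
noncomputable def s1 (A : Fr T) (l t : ℝ) (P : C3) : ℂ :=
  sT T P + t * cut 64 128 (l ^ 2 * tau A P) * (Lf A P - sT T P)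

/-- second modification of `s` near `q` -/
noncomputable def s2 (A : Fr T) (l : ℝ) (P : C3) : ℂ := theta (l ^ 2 * tau A P) * s1 A l 1 P

/-- the scale of the tube coordinate -/
noncomputable def dd (T : Tube) : ℝ := T.δ / 16

/-- denominator of `kk`; it is `≥ 2` for `l ≥ 1` -/
noncomputable def kden (A : Fr T) (l : ℝ) (p : C3 × ℂ) : ℝ :=
  l ^ 2 * tau A p.1 + 2 - tau A p.1 + l ^ 2 * tau A p.1 * (‖p.2‖ ^ 2 / dd T ^ 2)

/-- `kk = 1/(1+r²)`, where `r² = |P̂|² + |w/d|²` is the radius in the chart `Sm` -/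
noncomputable def kk (A : Fr T) (l : ℝ) (p : C3 × ℂ) : ℝ := l ^ 2 * tau A p.1 / kden A l p

/-- cutoff functions of `kk` -/
noncomputable def χ1 (k : ℝ) : ℝ := bp (1 / 4) (7 / 25) (18 / 25) (3 / 4) k
/-- cutoff functions of `kk` -/
noncomputable def χ2 (k : ℝ) : ℝ := bp (3 / 10) (7 / 20) (13 / 20) (7 / 10) k

/-- pattern function in the tube, linear in the shell -/
noncomputable def S3 (A : Fr T) (l : ℝ) (p : C3 × ℂ) : ℂ :=
  (1 - χ1 (kk A l p)) * s2 A l p.1 + χ1 (kk A l p) * (Lf A p.1 / (l ^ 2 * tau A p.1))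

/-- the shell path; `SHt A l η 1` is the decomposed knot -/
noncomputable def SHt (A : Fr T) (l η t : ℝ) (p : C3 × ℂ) : ℂ :=
  (1 - t * χ2 (kk A l p)) * p.2 ^ 2 - η * cw T p.2 * S3 A l p

open Classical in
/-- the outer summand: flat inside the ball `kk > 1/2` -/
noncomputable def SH1 (A : Fr T) (l η : ℝ) (p : C3 × ℂ) : ℂ :=
  if 1 / 2 < kk A l p then -(η * (Lf A p.1 / (l ^ 2 * tau A p.1))) else SHt A l η 1 p

/-- `|u₀|² + |u₁|² + (Im u₃)²` -/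
noncomputable def Aq (u : C4) : ℝ := ‖u 0‖ ^ 2 + ‖u 1‖ ^ 2 + (u 3).im ^ 2
/-- `1 - Re u₃` -/
noncomputable def Dq (u : C4) : ℝ := 1 - (u 3).re

/-- the point `σ(l P̂)` of `S⁵` for `u` on the unit sphere of `ℂ⁴` -/
noncomputable def sig (A : Fr T) (ε l : ℝ) (u : C4) : C3 :=
  ((l ^ 2 * Aq u + Dq u ^ 2)⁻¹ : ℝ) •
    ((2 * l * Dq u * conj (u 0) : ℂ) • A.n0 + (2 * l * Dq u * u 1 : ℂ) • A.n1 +
      (2 * Complex.I * ε * l * Dq u * (u 3).im + l ^ 2 * Aq u - Dq u ^ 2 : ℂ) • A.q)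

/-- the chart `Sm : ℂ⁴ → ℂ³ × ℂ` (`ε = ±1` is an orientation parameter) -/
noncomputable def Sm (A : Fr T) (ε l : ℝ) (z : C4) : C3 × ℂ :=
  (‖z‖ • sig A ε l (nz z), dd T * (nz z) 2 / Dq (nz z))

/-- the inverse chart -/
noncomputable def Si (A : Fr T) (ε l : ℝ) (p : C3 × ℂ) : C4 :=
  ‖p.1‖ • (!₂[2 * (l / kden A l p) * conj (inner ℂ A.n0 p.1) / ‖p.1‖,
    2 * (l / kden A l p) * inner ℂ A.n1 p.1 / ‖p.1‖,
    2 * kk A l p * (p.2 / dd T),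
    2 * Complex.I * ε * (l / kden A l p) * (inner ℂ A.q p.1).im / ‖p.1‖ + 1 - 2 * kk A l p] : C4)

/-- the embedding of the ball -/
noncomputable def em (A : Fr T) (ε l : ℝ) (z : C4) : C4 := T.G (Sm A ε l z)

/-- the decomposed knot -/
noncomputable def FF (A : Fr T) (l η : ℝ) : C4 → ℂ := TF T (SHt A l η 1)
/-- the outer summand -/
noncomputable def FF1 (A : Fr T) (l η : ℝ) : C4 → ℂ := TF T (SH1 A l η)
open Classical in
/-- the inner summand -/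
noncomputable def FF2 (A : Fr T) (ε l η : ℝ) (z : C4) : ℂ :=
  if (z 3).re < 0 then Dq (nz z) * SHt A l η 1 (Sm A ε l z)
  else -(η * (A.C / l) * (nz z) 0)

end Pool.Agent.KNT
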