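import Pool.Agent.KNT.Defs

/-!
# Squad KNT: auxiliary definitions
-/

set_option autoImplicit false

open scoped ContDiff ComplexConjugate
open Set

namespace Pool.Agent.KNT

section general
variable {V : Type} [NormedAddCommGroup V] [NormedSpace ℝ V]

/-- smooth families of functions on the unit sphere -/
structure SFam (Φ : ℝ → V → ℂ) : Prop where
  hom : ∀ t r : ℝ, 0 < r → ∀ z, Φ t (r • z) = Φ t z
  smooth : ContDiffOn ℝ ∞ (fun p : ℝ × V => Φ p.1 p.2) {p | p.2 ≠ 0}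

/-- cones (invariant under positive scalars) -/
def IsCone (A : Set V) : Prop := ∀ r : ℝ, 0 < r → ∀ z ∈ A, r • z ∈ A

/-- Normal push: moves the points of the sphere in the direction normal to the knot `F = 0` -/
structure NPush (F : V → ℂ) (N : V × ℂ → V) : Prop where
  smooth : ContDiffOn ℝ ∞ N {p | p.1 ≠ 0}
  hom : ∀ r : ℝ, 0 < r → ∀ x c, N (r • x, c) = r • N (x, c)
  norm : ∀ x c, ‖N (x, c)‖ = ‖x‖
  zero : ∀ x, N (x, 0) = x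
  inj : ∀ x, x ≠ 0 → Function.Surjective (fderiv ℝ F x) →
    Function.Injective (fun c : ℂ => fderiv ℝ F x (fderiv ℝ N (x, 0) (0, c)))

end general

/-- the path from `h` in the tube to `h` on `K_g` -/
noncomputable def HGt (T : Tube) (η t : ℝ) (p : C3 × ℂ) : ℂ :=
  p.2 ^ 2 - η * cw T p.2 * hb (T.G (p.1, (1 - Real.smoothTransition t : ℝ) * p.2))

/-! ### the parametrisation of `K_g` -/

/-- the point `(x, y)` of `ℂ⁴` -/
def mk4 (x : ℂ) (y : C3) : C4 := !₂[x, y 0, y 1, y 2]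
/-- the `y`-part of a point of `ℂ⁴` -/
def yy (z : C4) : C3 := !₂[z 1, z 2, z 3]
/-- componentwise complex conjugation -/
def cj (P : C3) : C3 := !₂[conj (P 0), conj (P 1), conj (P 2)]
/-- cross product -/
def crs (P Q : C3) : C3 :=
  !₂[P 1 * Q 2 - P 2 * Q 1, P 2 * Q 0 - P 0 * Q 2, P 0 * Q 1 - P 1 * Q 0]
/-- `α(ξ)` -/
noncomputable def al (ξ : ℂ) : ℝ := √((1 + √(1 - ‖ξ‖ ^ 2)) / 2)
/-- `β(ξ)`: `α² + |β|² = 1`, `2αβ = ξ` -/
noncomputable def be (ξ : ℂ) : ℂ := ξ / (2 * al ξ)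
/-- bump function: positive for `s < 1/36`, zero for `s ≥ 1/36`, antitone -/
noncomputable def bb (s : ℝ) : ℝ := Real.smoothTransition (1 - 36 * s)
/-- `n(X)² = |X|² + b(|X|²)²` -/
noncomputable def nn (X : ℂ) : ℝ := √(‖X‖ ^ 2 + bb (‖X‖ ^ 2) ^ 2)
/-- `{u : u·u = 0, |u| = 1} ≅ SO(3)` -/
def NN : Set C3 := {u | sq u = 0 ∧ ‖u‖ = 1}
/-- the twist -/
noncomputable def Tm (X : ℂ) (u : C3) : C3 :=
  ((nn X ^ 2)⁻¹ : ℝ) • ((X ^ 2) • cj u - (bb (‖X‖ ^ 2) ^ 2 : ℝ) • u +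
    (√2 * bb (‖X‖ ^ 2) * X * Complex.I) • crs u (cj u))
/-- `α(ξ) u + β(ξ) ū` -/
noncomputable def cmb (ξ : ℂ) (u : C3) : C3 := (al ξ : ℂ) • u + be ξ • cj u
/-- inverse of `cmb ξ` on vectors `y` with `y·y = ξ`, `|y| = 1` -/
noncomputable def frm (ξ : ℂ) (y : C3) : C3 :=
  ((√(1 - ‖ξ‖ ^ 2))⁻¹ : ℝ) • ((al ξ : ℂ) • y - be ξ • cj y)
/-- region A: `|X| > 1/6` -/
noncomputable def jA (y : C3) : C4 := mk4 (sq y) ((Complex.I * sq y ^ 2 / ‖sq y‖) • cj y)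
/-- region B: `|X| < 1` -/
noncomputable def jB (y : C3) : C4 :=
  mk4 (sq y) ((Complex.I * nn (sq y)) • cmb (sq y ^ 3 / nn (sq y) ^ 2) (Tm (sq y) (frm (sq y) y)))
open Classical in
/-- the unnormalised parametrisation -/
noncomputable def i0 (y : C3) : C4 := if 1 / 3 < ‖sq y‖ then jA y else jB y
/-- left inverse, region A -/
noncomputable def kA (z : C4) : C3 := (Complex.I * (z 0) ^ 2 / ‖z 0‖ ^ 3) • cj (yy z)
/-- left inverse, region B -/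
noncomputable def kB (z : C4) : C3 :=
  cmb (z 0) (Tm (z 0) (frm ((z 0) ^ 3 / nn (z 0) ^ 2) ((Complex.I * nn (z 0))⁻¹ • yy z)))
/-- weighted polar coordinates -/
noncomputable def Mw (v : C4) : C4 := mk4 (‖v‖ * v 0) ((‖v‖ ^ 2 : ℝ) • yy v)

/-- the properties of the parametrisation `ι` -/
structure IotaP (ι : C3 → C4) : Prop where
  hom : ∀ r : ℝ, 0 < r → ∀ P, ι (r • P) = r • ι P
  norm : ∀ P, ‖ι P‖ = ‖P‖
  smooth : ContDiffOn ℝ ∞ ι {0}ᶜ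
  dinj : ∀ P, P ≠ 0 → Function.Injective (fderiv ℝ ι P)
  form : ∀ P, ‖P‖ = 1 → 1 / 6 < ‖sq P‖ → ∃ ρ : ℝ, 0 < ρ ∧ (ι P) 0 = ρ ^ 2 * sq P ∧
    (ι P) 1 = ρ ^ 3 * (Complex.I * sq P ^ 2 / ‖sq P‖ * conj (P 0)) ∧
    (ι P) 2 = ρ ^ 3 * (Complex.I * sq P ^ 2 / ‖sq P‖ * conj (P 1)) ∧
    (ι P) 3 = ρ ^ 3 * (Complex.I * sq P ^ 2 / ‖sq P‖ * conj (P 2))
  inj : Function.Injective ι
  zero : ∀ z : C4, z ≠ 0 → (gb z = 0 ↔ ∃ P, P ≠ 0 ∧ ι P = z)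

/-! ### nontriviality -/

/-- `ℝ⁴` and `ℝ³` -/
abbrev R4 := EuclideanSpace ℝ (Fin 4)
/-- `ℝ³` -/
abbrev R3 := EuclideanSpace ℝ (Fin 3)

/-- the cube root of unity `ω` -/
noncomputable def om : ℂ := ⟨-(1 / 2), √3 / 2⟩

/-- the 3-sphere in `{g > 0}`: two arms `x ≥ 0` and `x ∈ ω ℝ≥0`, `y` real -/
noncomputable def i1 (v : R4) : C4 :=
  !₂[((max (v 0) 0 : ℝ) : ℂ) + ((max (-(v 0)) 0 : ℝ) : ℂ) * om, (v 1 : ℂ), (v 2 : ℂ), (v 3 : ℂ)]

/-- For `x³ + y·y = 1`, `Re x < 1/2`, the point `Z = (i(x+1/2), y/√(1-x)) = A + iB` satisfies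
`Z·Z = 3/4`; `cv x y = A₀ 𝐁 - B₀ 𝐀 - 𝐀 × 𝐁` is the imaginary part of the quaternion `Ā B`. -/
noncomputable def cv (x : ℂ) (y : C3) : R3 :=
  let r : ℂ := (1 - x) ^ (-(1 / 2) : ℂ)
  let z0 : ℂ := Complex.I * (x + 1 / 2)
  !₂[z0.re * (r * y 0).im - z0.im * (r * y 0).re -
      ((r * y 1).re * (r * y 2).im - (r * y 2).re * (r * y 1).im),
    z0.re * (r * y 1).im - z0.im * (r * y 1).re -
      ((r * y 2).re * (r * y 0).im - (r * y 0).re * (r * y 2).im),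
    z0.re * (r * y 2).im - z0.im * (r * y 2).re -
      ((r * y 0).re * (r * y 1).im - (r * y 1).re * (r * y 0).im)]

/-- the domain of the collapse map -/
def Dτ : Set C4 := {z | ‖z‖ = 1 ∧ (g4 z).im = 0 ∧ 1 / 20 ≤ (g4 z).re}

/-- the north pole `e₃` -/
noncomputable def NP : C4 := EuclideanSpace.single 3 1

/-- `m(z) = (2y₂³, y₃³, 4y₁³)` on the unit sphere -/
noncomputable def mm (z : C4) : C3 := !₂[2 * (nz z) 2 ^ 3, (nz z) 3 ^ 3, 4 * (nz z) 1 ^ 3]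

/-- the Bloch vector of `M M*`, `M = g + m·σ` -/
noncomputable def bet (g : ℂ) (m : C3) : R3 :=
  !₂[2 * (conj g * m 0).re + 2 * ((m 1).re * (m 2).im - (m 2).re * (m 1).im),
    2 * (conj g * m 1).re + 2 * ((m 2).re * (m 0).im - (m 0).re * (m 2).im),
    2 * (conj g * m 2).re + 2 * ((m 0).re * (m 1).im - (m 1).re * (m 0).im)]

end Pool.Agent.KNT
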