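import Pool.Agent.KNT.Stmts

set_option autoImplicit false

open scoped ContDiff ComplexConjugate
open Set Filter Topology Metric

namespace Pool.Agent.KNT

namespace IOA_

theorem nz_smul {V : Type} [NormedAddCommGroup V] [NormedSpace ℝ V] (r : ℝ) (hr : 0 < r) (z : V) :
    nz (r • z) = nz z := by
  unfold nz
  rw [norm_smul, Real.norm_eq_abs, abs_of_pos hr, smul_smul, mul_inv]
  congr 1
  field_simp

theorem norm_nz {V : Type} [NormedAddCommGroup V] [NormedSpace ℝ V] {z : V} (hz : z ≠ 0) :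
    ‖nz z‖ = 1 := by
  unfold nz
  rw [norm_smul, norm_inv, norm_norm, inv_mul_cancel₀ (norm_ne_zero_iff.2 hz)]

theorem nz_one {V : Type} [NormedAddCommGroup V] [NormedSpace ℝ V] {z : V} (hz : ‖z‖ = 1) :
    nz z = z := by
  unfold nz
  rw [hz, inv_one, one_smul]

theorem nz_smooth {V : Type} [NormedAddCommGroup V] [InnerProductSpace ℝ V] :
    ContDiffOn ℝ ∞ (nz : V → V) {0}ᶜ := by
  unfold nz
  have h1 : ContDiffOn ℝ ∞ (fun z : V => ‖z‖) {0}ᶜ := by
    intro z hz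
    exact (contDiffAt_norm ℝ hz).contDiffWithinAt
  exact (h1.inv (fun z hz => norm_ne_zero_iff.2 hz)).smul contDiffOn_id

theorem yy_eq (z : C4) (h : z = 0) : yy z = 0 := by
  subst h
  ext i
  fin_cases i <;> rfl

end IOA_

open IOA_ in
theorem ioa_proof (hIAB : Stmt_IAB) (hISM : Stmt_ISM) : Stmt_IOA := by
  intro Mi hMi hM0 hMi1 hMi2 ι hι
  have hi0 : ∀ P : C3, ‖P‖ = 1 → i0 P ≠ 0 := by
    intro P hP h0
    obtain ⟨-, h1, -, h3⟩ := hIAB P hP
    rw [h0] at h1 h3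
    rw [yy_eq _ rfl, norm_zero] at h3
    have h4 : sq P = 0 := h1.symm
    rw [h4] at h3
    unfold nn bb at h3
    rw [norm_zero] at h3
    norm_num at h3
  refine ⟨?_, ?_, ?_, ?_⟩
  · intro r hr P
    rw [hι, hι, nz_smul r hr, norm_smul, Real.norm_eq_abs, abs_of_pos hr, mul_smul]
  · intro P
    rw [hι, norm_smul, norm_norm]
    by_cases hP : P = 0
    · subst hP
      rw [norm_zero, zero_mul]
    · rw [norm_nz (hM0 _ (hi0 _ (norm_nz hP))), mul_one]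
  · have h1 : ContDiffOn ℝ ∞ (fun P : C3 => nz (Mi (i0 (nz P)))) {0}ᶜ := by
      have h2 : ContDiffOn ℝ ∞ (fun P : C3 => Mi (i0 (nz P))) {0}ᶜ :=
        hMi.comp hISM.1 (fun P hP => hi0 _ (norm_nz hP))
      exact nz_smooth.comp h2 (fun P hP => hM0 _ (hi0 _ (norm_nz hP)))
    have h3 : ContDiffOn ℝ ∞ (fun P : C3 => ‖P‖) {0}ᶜ := by
      intro z hz
      exact (contDiffAt_norm ℝ hz).contDiffWithinAt
    have h4 : ι = fun P => ‖P‖ • nz (Mi (i0 (nz P))) := funext hι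
    rw [h4]
    exact h3.smul h1
  · intro P hP
    have hv0 : Mi (i0 P) ≠ 0 := hM0 _ (hi0 P hP)
    have hn : 0 < ‖Mi (i0 P)‖ := norm_pos_iff.2 hv0
    have hMw : Mw (Mi (i0 P)) = i0 P := hMi2 _ (hi0 P hP)
    have hιP : ι P = nz (Mi (i0 P)) := by rw [hι, hP, nz_one hP, one_smul]
    set v := Mi (i0 P) with hv
    have hc : ((‖v‖ : ℝ) : ℂ) ≠ 0 := by exact_mod_cast hn.ne'
    refine ⟨‖v‖⁻¹, inv_pos.2 hn, ?_, ?_⟩
    · rw [hιP, ← hMw]
      change ((‖v‖⁻¹ : ℝ) • v) 0 = ((‖v‖⁻¹ : ℝ) : ℂ) ^ 2 * ((‖v‖ : ℂ) * v 0)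
      rw [PiLp.smul_apply, Complex.real_smul]
      push_cast
      field_simp
    · intro i
      rw [hιP, ← hMw]
      have h5 : (Mw v) i.succ = ((‖v‖ ^ 2 : ℝ) : ℂ) * v i.succ := by
        fin_cases i <;> rfl
      rw [h5]
      change ((‖v‖⁻¹ : ℝ) • v) i.succ = _
      rw [PiLp.smul_apply, Complex.real_smul]
      push_cast
      field_simp

end Pool.Agent.KNT
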