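import Mathlib

/-!
# Algebraic knots, isotopy, connected sum (MP_60ecc5_gt)

Conventions.  The unit sphere `S^{2n+1}` of `E n = ℂ^{n+1}` is described through positively
homogeneous maps on `E n`: a smooth function on the sphere is given by its extension to
`E n ∖ {0}` which is constant on rays, a smooth self map of the sphere by its extension which is
positively homogeneous of degree one and preserves the norm.
-/

set_option autoImplicit false

open scoped ContDiff ComplexConjugate
open Set

namespace Pool.Agent.KNT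

/-- `ℂ^{n+1}`; its unit sphere is `S^{2n+1}`. -/
abbrev E (n : ℕ) := EuclideanSpace ℂ (Fin (n + 1))

section general

variable {V : Type} [NormedAddCommGroup V] [NormedSpace ℝ V]

/-- A smooth complex function on the unit sphere of `V`, extended to `V ∖ {0}` constantly along
rays. -/
structure SFun (F : V → ℂ) : Prop where
  hom : ∀ r : ℝ, 0 < r → ∀ z, F (r • z) = F z
  smooth : ContDiffOn ℝ ∞ F {0}ᶜ

/-- `0` is a regular value of the function `F` (on the sphere). -/
def Reg (F : V → ℂ) : Prop :=
  ∀ z, z ≠ 0 → F z = 0 → Function.Surjective (fderiv ℝ F z)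

/-- A knot (closed oriented smooth submanifold of codimension two of the unit sphere of `V`), given
as the zero set `{‖z‖ = 1, F z = 0}` of a smooth function `F` with regular value `0`, co-oriented
by `F`. -/
structure IsKnot (F : V → ℂ) : Prop extends SFun F where
  reg : Reg F

/-- At the point `z` the functions `F` and `F'` vanish simultaneously and, if they vanish, they
define the same oriented normal plane: the differential of `F'` is an orientation preserving
real linear automorphism `w ↦ a w + b w̄`, `|b| < |a|`, of `ℂ` applied to the differential of `F`. -/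
def SameAt (F F' : V → ℂ) (z : V) : Prop :=
  (F z = 0 ↔ F' z = 0) ∧ (F z = 0 → ∃ a b : ℂ, ‖b‖ < ‖a‖ ∧
    ∀ v, fderiv ℝ F' z v = a * fderiv ℝ F z v + b * conj (fderiv ℝ F z v))

/-- `F` and `F'` define the same oriented knot in the cone over the part `A` of the sphere. -/
def SameOn (A : Set V) (F F' : V → ℂ) : Prop := ∀ z ∈ A, z ≠ 0 → SameAt F F' z

/-- An ambient isotopy of the unit sphere of `V`: `H t` are diffeomorphisms with inverses `G t`,
smooth also in `t`, and `H 0` is the identity. -/
structure IsIsotopy (H G : ℝ → V → V) : Prop where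
  hom : ∀ t r : ℝ, 0 < r → ∀ z, H t (r • z) = r • H t z
  homG : ∀ t r : ℝ, 0 < r → ∀ z, G t (r • z) = r • G t z
  norm : ∀ t z, ‖H t z‖ = ‖z‖
  normG : ∀ t z, ‖G t z‖ = ‖z‖
  smooth : ContDiffOn ℝ ∞ (fun p : ℝ × V => H p.1 p.2) {p | p.2 ≠ 0}
  smoothG : ContDiffOn ℝ ∞ (fun p : ℝ × V => G p.1 p.2) {p | p.2 ≠ 0}
  left : ∀ t z, G t (H t z) = z
  right : ∀ t z, H t (G t z) = z
  start : ∀ z, H 0 z = z

/-- Isotopy of oriented knots. -/
def Isotopic (F F' : V → ℂ) : Prop :=
  ∃ H G : ℝ → V → V, IsIsotopy H G ∧ SameOn univ F (fun z => F' (H 1 z))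

end general

/-- The standard unknot `{z₀ = 0}`. -/
noncomputable def std (n : ℕ) (z : E n) : ℂ := z 0 / ‖z‖

/-- (Cone over) the open spherical cap `Re z_n < c` around `-e_n`. -/
def cap (n : ℕ) (c : ℝ) : Set (E n) := {z | (z (Fin.last n)).re < c * ‖z‖}

/-- `e` is an orientation preserving smooth embedding of (the spherical part of) the open cone `A`
into the sphere. -/
structure IsEmb {n : ℕ} (A : Set (E n)) (e : E n → E n) : Prop where
  hom : ∀ r : ℝ, 0 < r → ∀ z ∈ A, e (r • z) = r • e z
  norm : ∀ z ∈ A, ‖e z‖ = ‖z‖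
  smooth : ContDiffOn ℝ ∞ e A
  inj : InjOn e A
  det : ∀ z ∈ A, 0 < (fderiv ℝ e z).det

/-- `F` is a connected sum of `F₁` and `F₂`.
The ball `e (cap 0)` meets the knot `F₁` in the standard flat ball, the complementary ball
`{Re z_n > 0}` meets the knot `F₂` in the standard flat ball (both with collars of size `c`), and
`F` is obtained from `F₁` by replacing its standard ball pair inside `e (cap 0)` by the image under
`e` of the part of `F₂` in the cap `{Re z_n ≤ 0}`. -/
def IsConnSum {n : ℕ} (F F₁ F₂ : E n → ℂ) : Prop :=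
  ∃ c : ℝ, 0 < c ∧ c < 1 ∧ ∃ e : E n → E n, IsEmb (cap n c) e ∧
    SameOn {z : E n | -(c * ‖z‖) < (z (Fin.last n)).re} F₂ (std n) ∧
    SameOn (cap n c) (fun z => F₁ (e z)) (std n) ∧
    SameOn {z : E n | (z (Fin.last n)).re ≤ 0} (fun z => F (e z)) F₂ ∧
    SameOn (e '' cap n 0)ᶜ F F₁

/-- Triviality: isotopic to the standard unknot. -/
def IsTrivial {n : ℕ} (F : E n → ℂ) : Prop := Isotopic F (std n)

/-- An isolated hypersurface singularity (or a smooth germ) at the origin. -/
def IsIsolated {n : ℕ} (f : E n → ℂ) : Prop :=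
  f 0 = 0 ∧ ∃ U ∈ nhds (0 : E n), AnalyticOnNhd ℂ f U ∧ ∀ z ∈ U, z ≠ 0 → fderiv ℂ f z ≠ 0

/-- The function defining the link of `f` on the sphere of radius `ε`, transported to the unit
sphere by scaling. -/
noncomputable def linkFun {n : ℕ} (f : E n → ℂ) (ε : ℝ) (z : E n) : ℂ := f ((ε / ‖z‖) • z)

/-- `F` is the algebraic knot of `f`. -/
def IsAlgebraicKnotOf {n : ℕ} (f F : E n → ℂ) : Prop :=
  ∃ ε₀ : ℝ, 0 < ε₀ ∧ ∀ ε : ℝ, 0 < ε → ε < ε₀ → IsKnot (linkFun f ε) ∧ Isotopic (linkFun f ε) F

end Pool.Agent.KNT
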