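import Pool.Agent.KNT.Stmts

set_option autoImplicit false

open scoped ContDiff ComplexConjugate
open Set Filter Topology Metric

namespace Pool.Agent.KNT

namespace NPU_

variable {V : Type} [NormedAddCommGroup V] [InnerProductSpace ℝ V] [FiniteDimensional ℝ V]

/-- adjoint of the derivative -/
noncomputable def A (F : V → ℂ) (x : V) (c : ℂ) : V :=
  ∑ i, (conj (fderiv ℝ F x (stdOrthonormalBasis ℝ V i)) * c).re • stdOrthonormalBasis ℝ V i

/-- the push before normalisation -/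
noncomputable def v (F : V → ℂ) (p : V × ℂ) : V := p.1 + ‖p.1‖ ^ 2 • A F p.1 p.2

/-- the push -/
noncomputable def N (F : V → ℂ) (p : V × ℂ) : V := (‖p.1‖ / ‖v F p‖) • v F p

omit [FiniteDimensional ℝ V] in
theorem diffAt {F : V → ℂ} (hF : SFun F) {x : V} (hx : x ≠ 0) : DifferentiableAt ℝ F x :=
  (hF.smooth.contDiffAt (isOpen_compl_singleton.mem_nhds hx)).differentiableAt (by simp)

omit [FiniteDimensional ℝ V] in
theorem fderiv_hom {F : V → ℂ} (hF : SFun F) {x : V} (hx : x ≠ 0) {r : ℝ} (hr : 0 < r) :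
    fderiv ℝ F (r • x) = r⁻¹ • fderiv ℝ F x := by
  have hrx : r • x ≠ 0 := smul_ne_zero hr.ne' hx
  have h1 : HasFDerivAt (fun z : V => r • z) (r • ContinuousLinearMap.id ℝ V) x :=
    (hasFDerivAt_id x).const_smul r
  have h2 : HasFDerivAt F (fderiv ℝ F (r • x)) (r • x) := (diffAt hF hrx).hasFDerivAt
  have h3 := h2.comp x h1
  have h4 : (F ∘ fun z : V => r • z) = F := by
    funext z
    exact hF.hom r hr z
  rw [h4] at h3
  rw [h3.fderiv]
  ext w
  simp [hr.ne']

omit [FiniteDimensional ℝ V] in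
theorem euler {F : V → ℂ} (hF : SFun F) {x : V} (hx : x ≠ 0) : fderiv ℝ F x x = 0 := by
  have h1 : HasDerivAt (fun s : ℝ => (1 + s) • x) x 0 := by
    have := ((hasDerivAt_id (0 : ℝ)).const_add 1).smul_const x
    simpa using this
  have h2 : HasFDerivAt F (fderiv ℝ F x) ((1 + (0 : ℝ)) • x) := by
    simpa using (diffAt hF hx).hasFDerivAt
  have h3 := h2.comp_hasDerivAt (0 : ℝ) h1
  have h4 : (F ∘ fun s : ℝ => (1 + s) • x) =ᶠ[𝓝 0] fun _ => F x := by
    have : ∀ᶠ s : ℝ in 𝓝 0, 0 < 1 + s := by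
      have hc : Continuous fun s : ℝ => 1 + s := by fun_prop
      exact hc.continuousAt.eventually (lt_mem_nhds (by norm_num))
    filter_upwards [this] with s hs
    exact hF.hom _ hs x
  have h5 : HasDerivAt (fun _ : ℝ => F x) (fderiv ℝ F x x) 0 := h3.congr_of_eventuallyEq h4.symm
  exact h5.unique (hasDerivAt_const 0 (F x))

theorem inner_A {F : V → ℂ} (hF : SFun F) {x : V} (hx : x ≠ 0) (c : ℂ) :
    inner ℝ x (A F x c) = 0 := by
  have h0 := euler hF hx
  have h1 : ∑ i, inner ℝ (stdOrthonormalBasis ℝ V i) x • fderiv ℝ F x (stdOrthonormalBasis ℝ V i)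
      = 0 := by
    have h := congrArg (fderiv ℝ F x) ((stdOrthonormalBasis ℝ V).sum_repr' x)
    rw [map_sum] at h
    simp only [map_smul] at h
    exact h.trans h0
  unfold A
  rw [inner_sum]
  simp only [inner_smul_right]
  have h2 : (conj (∑ i, inner ℝ (stdOrthonormalBasis ℝ V i) x •
      fderiv ℝ F x (stdOrthonormalBasis ℝ V i)) * c).re = 0 := by rw [h1]; simp
  rw [map_sum, Finset.sum_mul, Complex.re_sum] at h2
  rw [← h2]
  refine Finset.sum_congr rfl fun i _ => ?_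
  rw [real_inner_comm]
  simp only [Complex.real_smul, map_mul, Complex.conj_ofReal]
  rw [mul_assoc, Complex.re_ofReal_mul]
  ring

theorem A_hom {F : V → ℂ} (hF : SFun F) {x : V} (hx : x ≠ 0) {r : ℝ} (hr : 0 < r) (c : ℂ) :
    A F (r • x) c = r⁻¹ • A F x c := by
  unfold A
  rw [Finset.smul_sum]
  refine Finset.sum_congr rfl fun i _ => ?_
  rw [fderiv_hom hF hx hr, smul_smul]
  congr 1
  simp only [_root_.smul_apply, Complex.real_smul, map_mul, Complex.conj_ofReal]
  rw [mul_assoc, Complex.re_ofReal_mul]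

theorem v_hom {F : V → ℂ} (hF : SFun F) {r : ℝ} (hr : 0 < r) (x : V) (c : ℂ) :
    v F (r • x, c) = r • v F (x, c) := by
  by_cases hx : x = 0
  · subst hx; simp [v]
  · simp only [v]
    rw [A_hom hF hx hr, norm_smul, smul_add, smul_smul, smul_smul]
    congr 2
    rw [Real.norm_of_nonneg hr.le]
    field_simp

theorem v_norm {F : V → ℂ} (hF : SFun F) {x : V} (hx : x ≠ 0) (c : ℂ) :
    ‖x‖ ≤ ‖v F (x, c)‖ := by
  have h : inner ℝ x (‖x‖ ^ 2 • A F x c) = 0 := by
    rw [inner_smul_right, inner_A hF hx, mul_zero]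
  have h2 := norm_add_sq_real x (‖x‖ ^ 2 • A F x c)
  rw [h] at h2
  simp only [v]
  refine le_of_sq_le_sq ?_ (norm_nonneg _) |>.trans le_rfl
  nlinarith [norm_nonneg (‖x‖ ^ 2 • A F x c), sq_nonneg ‖(‖x‖ ^ 2 • A F x c)‖]

theorem v_ne {F : V → ℂ} (hF : SFun F) {x : V} (hx : x ≠ 0) (c : ℂ) : v F (x, c) ≠ 0 := by
  have := v_norm hF hx c
  have h2 : 0 < ‖x‖ := norm_pos_iff.2 hx
  exact norm_pos_iff.1 (h2.trans_le this)

theorem smooth_A {F : V → ℂ} (hF : SFun F) :
    ContDiffOn ℝ ∞ (fun p : V × ℂ => A F p.1 p.2) {p | p.1 ≠ 0} := by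
  have h1 : ContDiffOn ℝ ∞ (fderiv ℝ F) {0}ᶜ :=
    hF.smooth.fderiv_of_isOpen isOpen_compl_singleton (by simp)
  have h2 : ContDiffOn ℝ ∞ (fun p : V × ℂ => fderiv ℝ F p.1) {p | p.1 ≠ 0} :=
    h1.comp contDiff_fst.contDiffOn (fun p hp => hp)
  unfold A
  refine ContDiffOn.sum fun i _ => ?_
  refine ContDiffOn.smul ?_ contDiffOn_const
  have h3 : ContDiffOn ℝ ∞ (fun p : V × ℂ => fderiv ℝ F p.1 (stdOrthonormalBasis ℝ V i))
      {p | p.1 ≠ 0} := h2.clm_apply contDiffOn_const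
  have h4 : ContDiff ℝ ∞ (fun q : ℂ × ℂ => (conj q.1 * q.2).re) := by
    have ha : ContDiff ℝ ∞ (fun q : ℂ × ℂ => Complex.conjCLE q.1) :=
      Complex.conjCLE.contDiff.comp contDiff_fst
    have hb : ContDiff ℝ ∞ (fun q : ℂ × ℂ => Complex.conjCLE q.1 * q.2) := ha.mul contDiff_snd
    exact Complex.reCLM.contDiff.comp hb
  exact h4.comp_contDiffOn (h3.prodMk contDiffOn_snd)

theorem smooth_v {F : V → ℂ} (hF : SFun F) : ContDiffOn ℝ ∞ (v F) {p | p.1 ≠ 0} := by
  unfold v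
  refine contDiffOn_fst.add (ContDiffOn.smul ?_ (smooth_A hF))
  exact (contDiff_norm_sq ℝ).comp_contDiffOn contDiffOn_fst

theorem smooth_N {F : V → ℂ} (hF : SFun F) : ContDiffOn ℝ ∞ (N F) {p | p.1 ≠ 0} := by
  unfold N
  refine ContDiffOn.smul (ContDiffOn.div ?_ ?_ ?_) (smooth_v hF)
  · exact contDiffOn_fst.norm ℝ (fun p hp => hp)
  · exact (smooth_v hF).norm ℝ (fun p hp => v_ne hF hp p.2)
  · exact fun p hp => norm_ne_zero_iff.2 (v_ne hF hp p.2)

theorem deriv_N {F : V → ℂ} (hF : SFun F) {x : V} (hx : x ≠ 0) (c : ℂ) :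
    fderiv ℝ (N F) (x, 0) (0, c) = ‖x‖ ^ 2 • A F x c := by
  have hop : IsOpen {p : V × ℂ | p.1 ≠ 0} := isOpen_ne_fun continuous_fst continuous_const
  have hd : DifferentiableAt ℝ (N F) (x, 0) :=
    ((smooth_N hF).contDiffAt (hop.mem_nhds hx)).differentiableAt (by simp)
  have hA : ∀ s : ℝ, A F x (s • c) = s • A F x c := by
    intro s
    unfold A
    rw [Finset.smul_sum]
    refine Finset.sum_congr rfl fun i _ => ?_
    rw [smul_smul]
    congr 1
    rw [Complex.real_smul]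
    rw [show conj (fderiv ℝ F x (stdOrthonormalBasis ℝ V i)) * (↑s * c)
      = ↑s * (conj (fderiv ℝ F x (stdOrthonormalBasis ℝ V i)) * c) by ring, Complex.re_ofReal_mul]
  have hline : HasDerivAt (fun s : ℝ => ((x, s • c) : V × ℂ)) (0, c) 0 := by
    have h1 : HasDerivAt (fun s : ℝ => s • c) c 0 := by
      simpa using (hasDerivAt_id (0 : ℝ)).smul_const c
    exact (hasDerivAt_const (0 : ℝ) x).prodMk h1
  have h1 : HasDerivAt (N F ∘ fun s : ℝ => ((x, s • c) : V × ℂ))
      (fderiv ℝ (N F) (x, 0) (0, c)) 0 := by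
    have h2 : HasFDerivAt (N F) (fderiv ℝ (N F) (x, 0)) ((x, (0 : ℝ) • c) : V × ℂ) := by
      simpa using hd.hasFDerivAt
    exact h2.comp_hasDerivAt (0 : ℝ) hline
  have hv : HasDerivAt (fun s : ℝ => v F (x, s • c)) (‖x‖ ^ 2 • A F x c) 0 := by
    have : (fun s : ℝ => v F (x, s • c)) = fun s : ℝ => x + s • (‖x‖ ^ 2 • A F x c) := by
      funext s
      simp only [v]
      rw [hA, smul_comm]
    rw [this]
    simpa using ((hasDerivAt_id (0 : ℝ)).smul_const (‖x‖ ^ 2 • A F x c)).const_add x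
  have hv0 : v F (x, (0 : ℝ) • c) = x := by
    simp only [v]
    rw [hA]; simp
  have hn : HasDerivAt (fun s : ℝ => ‖v F (x, s • c)‖ ^ 2) 0 0 := by
    have := hv.norm_sq
    rw [hv0, inner_smul_right, inner_A hF hx] at this
    simpa using this
  have hx0 : ‖x‖ ≠ 0 := norm_ne_zero_iff.2 hx
  have hn2 : HasDerivAt (fun s : ℝ => ‖v F (x, s • c)‖) 0 0 := by
    have h3 := hn.sqrt (by rw [hv0]; positivity)
    have h4 : (fun s : ℝ => √(‖v F (x, s • c)‖ ^ 2)) = fun s : ℝ => ‖v F (x, s • c)‖ := by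
      funext s
      exact Real.sqrt_sq (norm_nonneg _)
    rw [h4] at h3
    simpa using h3
  have hn3 : HasDerivAt (fun s : ℝ => ‖x‖ / ‖v F (x, s • c)‖) 0 0 := by
    have h5 : HasDerivAt (fun s : ℝ => ‖x‖ / ‖v F (x, s • c)‖) _ 0 :=
      (hasDerivAt_const (0 : ℝ) ‖x‖).div hn2 (by rw [hv0]; exact hx0)
    convert h5 using 1
    simp
  have h6 := hn3.smul hv
  have h7 : HasDerivAt (N F ∘ fun s : ℝ => ((x, s • c) : V × ℂ)) (‖x‖ ^ 2 • A F x c) 0 := by
    have h8 : ((‖x‖ / ‖v F (x, (0 : ℝ) • c)‖) • (‖x‖ ^ 2 • A F x c) +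
        (0 : ℝ) • v F (x, (0 : ℝ) • c)) = ‖x‖ ^ 2 • A F x c := by
      rw [hv0, div_self hx0]; simp
    rw [← h8]
    exact h6
  exact h1.unique h7

theorem inj {F : V → ℂ} (_hF : SFun F) {x : V} (hx : x ≠ 0)
    (hs : Function.Surjective (fderiv ℝ F x)) :
    Function.Injective (fun c : ℂ => fderiv ℝ F x (‖x‖ ^ 2 • A F x c)) := by
  intro c c' h
  have hx0 : ‖x‖ ^ 2 ≠ 0 := pow_ne_zero 2 (norm_ne_zero_iff.2 hx)
  simp only [map_smul] at h
  have h1 : fderiv ℝ F x (A F x c) = fderiv ℝ F x (A F x c') := smul_right_injective ℂ hx0 h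
  have h2 : fderiv ℝ F x (A F x (c - c')) = 0 := by
    have : A F x (c - c') = A F x c - A F x c' := by
      unfold A
      rw [← Finset.sum_sub_distrib]
      refine Finset.sum_congr rfl fun i _ => ?_
      rw [mul_sub, Complex.sub_re, sub_smul]
    rw [this, map_sub, h1, sub_self]
  set d := c - c' with hd
  have h3 : ∑ i, (conj (fderiv ℝ F x (stdOrthonormalBasis ℝ V i)) * d).re ^ 2 = 0 := by
    have h4 : (conj d * fderiv ℝ F x (A F x d)).re = 0 := by rw [h2]; simp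
    unfold A at h4
    rw [map_sum, Finset.mul_sum, Complex.re_sum] at h4
    rw [← h4]
    refine Finset.sum_congr rfl fun i _ => ?_
    rw [map_smul, Complex.real_smul]
    rw [show conj d * (((conj (fderiv ℝ F x (stdOrthonormalBasis ℝ V i)) * d).re : ℂ) *
      fderiv ℝ F x (stdOrthonormalBasis ℝ V i)) =
      ((conj (fderiv ℝ F x (stdOrthonormalBasis ℝ V i)) * d).re : ℂ) *
      (conj d * fderiv ℝ F x (stdOrthonormalBasis ℝ V i)) by ring, Complex.re_ofReal_mul, pow_two]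
    congr 1
    simp [Complex.mul_re]
    ring
  have h5 : ∀ i, (conj (fderiv ℝ F x (stdOrthonormalBasis ℝ V i)) * d).re = 0 := by
    intro i
    have := (Finset.sum_eq_zero_iff_of_nonneg (fun i _ => sq_nonneg _)).1 h3 i (Finset.mem_univ i)
    exact pow_eq_zero_iff (two_ne_zero) |>.1 this
  have h6 : ∀ w : V, (conj (fderiv ℝ F x w) * d).re = 0 := by
    intro w
    conv_lhs => rw [← (stdOrthonormalBasis ℝ V).sum_repr w]
    rw [map_sum, map_sum, Finset.sum_mul, Complex.re_sum]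
    refine Finset.sum_eq_zero fun i _ => ?_
    rw [map_smul, Complex.real_smul, map_mul, Complex.conj_ofReal, mul_assoc,
      Complex.re_ofReal_mul, h5, mul_zero]
  obtain ⟨w, hw⟩ := hs d
  have h7 := h6 w
  rw [hw] at h7
  have h8 : Complex.normSq d = 0 := by
    have : conj d * d = (Complex.normSq d : ℂ) := by rw [mul_comm, Complex.mul_conj]
    rw [this, Complex.ofReal_re] at h7
    exact h7
  have h9 : d = 0 := Complex.normSq_eq_zero.1 h8
  exact sub_eq_zero.1 h9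

end NPU_

open NPU_ in
theorem npu_proof : Stmt_NPU := by
  intro V _ _ _ F hF
  refine ⟨N F, ⟨smooth_N hF, ?_, ?_, ?_, ?_⟩⟩
  · intro r hr x c
    simp only [N]
    rw [v_hom hF hr, norm_smul, norm_smul, smul_smul, smul_smul, Real.norm_of_nonneg hr.le]
    congr 1
    rw [mul_div_mul_left _ _ hr.ne']
    ring
  · intro x c
    by_cases hx : x = 0
    · subst hx; simp [N, v]
    · have h := v_ne hF hx c
      have h' : ‖v F (x, c)‖ ≠ 0 := norm_ne_zero_iff.2 h
      simp only [N]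
      rw [norm_smul, norm_div, norm_norm, norm_norm, div_mul_cancel₀ _ h']
  · intro x
    have hv0 : v F (x, 0) = x := by simp [v, A]
    by_cases hx : x = 0
    · subst hx; simp [N, v]
    · have h' : ‖x‖ ≠ 0 := norm_ne_zero_iff.2 hx
      simp only [N]
      rw [hv0, div_self h', one_smul]
  · intro x hx hs
    simp only [deriv_N hF hx]
    exact inj hF hx hs

end Pool.Agent.KNT
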