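import Pool.Agent.KNT.Stmts

/-!
# Squad KNT: ORI
-/

set_option autoImplicit false

open scoped ContDiff ComplexConjugate
open Set Filter Topology Metric

namespace Pool.Agent.KNT

namespace ORI_

noncomputable def vI : C4 := EuclideanSpace.single 3 Complex.I

lemma norm_vI : ‖vI‖ = 1 := by
  simp [vI]

lemma inner_vI (z : C4) : inner ℝ vI z = (z 3).im := by
  rw [PiLp.inner_apply, Finset.sum_eq_single 3]
  · simp [vI]
  · intro j _ hj
    simp [vI, hj]
  · simp

noncomputable def rho : C4 ≃ₗᵢ[ℝ] C4 := (ℝ ∙ vI)ᗮ.reflection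

lemma rho_apply (z : C4) : rho z = z - (2 * (z 3).im : ℝ) • vI := by
  rw [rho, Submodule.reflection_orthogonal_apply, Submodule.reflection_singleton_apply]
  rw [inner_vI, norm_vI]
  rw [neg_sub, mul_smul, two_smul, two_smul]
  simp

lemma rho_0 (z : C4) : (rho z) 0 = z 0 := by
  rw [rho_apply]
  simp [vI]

lemma rho_1 (z : C4) : (rho z) 1 = z 1 := by
  rw [rho_apply]
  simp [vI]

lemma rho_2 (z : C4) : (rho z) 2 = z 2 := by
  rw [rho_apply]
  simp [vI]

lemma rho_3 (z : C4) : (rho z) 3 = conj (z 3) := by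
  rw [rho_apply]
  apply Complex.ext
  · simp [vI]
  · simp [vI]
    ring

lemma det_rho : LinearMap.det (rho.toLinearEquiv : C4 →ₗ[ℝ] C4) = -1 := by
  have h := Submodule.det_reflection (ℝ ∙ vI)ᗮ
  have h1 : Module.finrank ℝ (ℝ ∙ vI)ᗮᗮ = 1 := by
    rw [Submodule.orthogonal_orthogonal]
    apply finrank_span_singleton
    intro h0
    have := norm_vI
    rw [h0, norm_zero] at this
    exact zero_ne_one this
  rw [h1, pow_one] at h
  exact h

lemma nz_rho (z : C4) : nz (rho z) = rho (nz z) := by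
  unfold nz
  rw [LinearIsometryEquiv.norm_map, map_smul]

lemma Sm_rho {T : Tube} (A : Fr T) (ε l : ℝ) (z : C4) : Sm A (-ε) l z = Sm A ε l (rho z) := by
  have h1 : sig A (-ε) l (nz z) = sig A ε l (nz (rho z)) := by
    rw [nz_rho]
    have e1 : Aq (rho (nz z)) = Aq (nz z) := by
      unfold Aq
      rw [rho_0, rho_1, rho_3]
      simp
    have e2 : Dq (rho (nz z)) = Dq (nz z) := by
      unfold Dq
      rw [rho_3]
      simp
    unfold sig
    rw [e1, e2, rho_0, rho_1, rho_3]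
    simp
  have h2 : (nz (rho z)) 2 = (nz z) 2 := by rw [nz_rho, rho_2]
  have h3 : Dq (nz (rho z)) = Dq (nz z) := by
    rw [nz_rho]
    unfold Dq
    rw [rho_3]
    simp
  unfold Sm
  rw [h1, h2, h3, LinearIsometryEquiv.norm_map]

lemma cap_rho (z : C4) (hz : z ∈ cap 3 (1 / 5)) : rho z ∈ cap 3 (1 / 5) := by
  change ((rho z) (3 : Fin 4)).re < 1 / 5 * ‖rho z‖
  rw [rho_3, LinearIsometryEquiv.norm_map]
  simp
  have : (z 3).re < 1 / 5 * ‖z‖ := hz
  linarith

lemma cap_open : IsOpen (cap 3 (1 / 5)) := by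
  unfold cap
  apply isOpen_lt
  · fun_prop
  · fun_prop

/-- south pole -/
noncomputable def sp : C4 := -EuclideanSpace.single 3 1

lemma cap_star : StarConvex ℝ sp (cap 3 (1 / 5)) := by
  intro y hy a b ha hb hab
  have hy' : (y 3).re < 1 / 5 * ‖y‖ := hy
  change ((a • sp + b • y) (3 : Fin 4)).re < 1 / 5 * ‖a • sp + b • y‖
  have e1 : ((a • sp + b • y) (3 : Fin 4)).re = -a + b * (y 3).re := by
    simp [sp]
  rw [e1]
  have e2 : ‖b • y‖ ≤ ‖a • sp + b • y‖ + a := by
    have h1 : b • y = (a • sp + b • y) - a • sp := by abel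
    have h2 : ‖a • sp‖ = a := by
      rw [norm_smul, Real.norm_of_nonneg ha]
      simp [sp]
    calc ‖b • y‖ = ‖(a • sp + b • y) - a • sp‖ := by rw [← h1]
      _ ≤ ‖a • sp + b • y‖ + ‖a • sp‖ := norm_sub_le _ _
      _ = _ := by rw [h2]
  rw [norm_smul, Real.norm_of_nonneg hb] at e2
  by_cases hb0 : b = 0
  · have ha1 : a = 1 := by linarith
    subst hb0
    subst ha1
    have := norm_nonneg ((1 : ℝ) • sp + (0 : ℝ) • y)
    linarith
  · have hb' : 0 < b := lt_of_le_of_ne hb (Ne.symm hb0)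
    have : b * (y 3).re < b * (1 / 5 * ‖y‖) := mul_lt_mul_of_pos_left hy' hb'
    nlinarith

lemma sp_mem : sp ∈ cap 3 (1 / 5) := by
  change (sp (3 : Fin 4)).re < 1 / 5 * ‖sp‖
  simp [sp]
  norm_num

lemma cap_conn : IsPreconnected (cap 3 (1 / 5)) :=
  (cap_star.isPathConnected sp_mem).isConnected.isPreconnected

end ORI_

open ORI_ in
theorem ori_proof (hEMB : Stmt_EMB) : Stmt_ORI := by
  intro T A l hl
  obtain ⟨h1, h2, h3, h4, h5, h6⟩ := hEMB T A 1 l hl (Or.inl rfl)
  obtain ⟨g1, g2, g3, g4, g5, g6⟩ := hEMB T A (-1) l hl (Or.inr rfl)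
  have hdet : ContinuousOn (fun z => (fderiv ℝ (em A 1 l) z).det) (cap 3 (1 / 5)) := by
    have := h4.continuousOn_fderiv_of_isOpen cap_open (by simp)
    exact ContinuousLinearMap.continuous_det.comp_continuousOn this
  by_cases hpos : ∃ z0 ∈ cap 3 (1 / 5), 0 < (fderiv ℝ (em A 1 l) z0).det
  · refine ⟨1, Or.inl rfl, h2, h3, h4, h5, ?_⟩
    intro z hz
    by_contra hcon
    push Not at hcon
    obtain ⟨z0, hz0, hz0'⟩ := hpos
    have := cap_conn.intermediate_value hz hz0 hdet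
    obtain ⟨w, hw, hw'⟩ := this ⟨hcon, hz0'.le⟩
    exact h6 w hw hw'
  · push Not at hpos
    refine ⟨-1, Or.inr rfl, g2, g3, g4, g5, ?_⟩
    intro z hz
    have hrz := cap_rho z hz
    have e1 : em A (-1) l = fun z => em A 1 l (rho z) := by
      funext z
      unfold em
      rw [Sm_rho]
    have e2 : DifferentiableAt ℝ (em A 1 l) (rho z) :=
      (h4.contDiffAt (cap_open.mem_nhds hrz)).differentiableAt (by simp)
    have e3 : fderiv ℝ (em A (-1) l) z =
        (fderiv ℝ (em A 1 l) (rho z)).comp (rho.toContinuousLinearEquiv : C4 →L[ℝ] C4) := by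
      rw [e1]
      have := e2.hasFDerivAt.comp z (rho.toContinuousLinearEquiv : C4 →L[ℝ] C4).hasFDerivAt
      exact this.fderiv
    rw [e3]
    have e4 : ((fderiv ℝ (em A 1 l) (rho z)).comp
        (rho.toContinuousLinearEquiv : C4 →L[ℝ] C4)).det =
        (fderiv ℝ (em A 1 l) (rho z)).det * -1 := by
      rw [← det_rho]
      unfold ContinuousLinearMap.det
      rw [← LinearMap.det_comp]
      rfl
    rw [e4]
    have e5 := hpos (rho z) hrz
    have e6 := h6 (rho z) hrz
    have e7 : (fderiv ℝ (em A 1 l) (rho z)).det < 0 := lt_of_le_of_ne e5 e6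
    linarith

end Pool.Agent.KNT
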