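import Pool.Agent.KNT.Stmts

/-!
# STC: the cable with pattern `s2` is the decomposed knot
-/

set_option autoImplicit false

open scoped ContDiff ComplexConjugate Topology
open Set

namespace Pool.Agent.KNT

theorem stc_proof (hSHA : Stmt_SHA) (hSHZ : Stmt_SHZ) (hSHG : Stmt_SHG) (hTSA : Stmt_TSA)
    (hPFT : Stmt_PFT) (_hTFS : Stmt_TFS) (hTFR : Stmt_TFR) (hBFR : Stmt_BFR) (hIST : Stmt_IST)
    (hISR : Stmt_ISR) : Stmt_STC := by
  intro T A l hl hs2
  obtain ⟨hadm, η₁, hη₁, hB⟩ := hBFR T (fun _ => s2 A l)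
    ⟨fun t r hr z => hs2.hom r hr z, hs2.smooth.comp contDiff_snd.contDiffOn (fun p hp => hp)⟩
    (fun t _ => hs2.reg)
  obtain ⟨η₂, hη₂, hZ⟩ := hSHZ T A l hl hs2
  obtain ⟨η₃, hη₃, hG⟩ := hSHG T A l hl hs2
  refine ⟨min η₁ (min η₂ η₃), lt_min hη₁ (lt_min hη₂ hη₃), fun η hη hη' => ?_⟩
  have h1 : η < η₁ := hη'.trans_le (min_le_left _ _)
  have h2 : η < η₂ := hη'.trans_le ((min_le_right _ _).trans (min_le_left _ _))
  have h3 : η < η₃ := hη'.trans_le ((min_le_right _ _).trans (min_le_right _ _))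
  have hb := hB η hη h1 0 (by simp)
  obtain ⟨hz1, hz2⟩ := hZ η hη h2
  obtain ⟨hg, -⟩ := hG η hη h3
  have hA := (hSHA T A l η hl hs2).1
  have hK0 : IsKnot (TF T (BF T η (s2 A l))) := hTFR T _ (hadm η) 0 hb
  have hK1 : IsKnot (TF T (SHt A l η 0)) := hTFR T _ hA 0 (hg 0 (by simp))
  have hK2 : IsKnot (TF T (SHt A l η 1)) := hTFR T _ hA 1 (hg 1 (by simp))
  have hev : ∀ P w, (S3 A l =ᶠ[𝓝 (P, w)] fun p => s2 A l p.1) →
      BF T η (s2 A l) =ᶠ[𝓝 (P, w)] SHt A l η 0 := by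
    intro P w h
    filter_upwards [h] with p hp
    simp only [SHt, BF, hp, Complex.ofReal_zero, zero_mul, sub_zero, one_mul]
  have hsame : SameOn univ (TF T (BF T η (s2 A l))) (TF T (SHt A l η 0)) := by
    refine hTSA T _ _ (fun P w hP hw => (hadm η).far 0 P w hP hw)
      (fun P w hP hw => hA.far 0 P w hP hw) ?_
    rintro P w hP (h | h)
    · exact hev P w (hz2 P w hP h).1
    · exact hev P w (hz1 0 (by simp) P w hP (Or.inr (Or.inr rfl)) h).1
  exact hIST C4 _ _ _ hK0.toSFun hK1.toSFun hK2.toSFun (hISR C4 _ _ hsame) (hPFT T _ hA hg)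

end Pool.Agent.KNT
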