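import Pool.Agent.KNT.Defs2

/-!
# Squad KNT: statements of the modules
-/

set_option autoImplicit false

open scoped ContDiff ComplexConjugate
open Set Filter Topology Metric

namespace Pool.Agent.KNT

/-! ## Part L: library -/

/-- SAT: calculus of `SameAt`. -/
def Stmt_SAT : Prop := ∀ (V : Type) [NormedAddCommGroup V] [NormedSpace ℝ V],
  (∀ (F : V → ℂ) (z : V), SameAt F F z) ∧
  (∀ (F F' : V → ℂ) (z : V), SameAt F F' z → SameAt F' F z) ∧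
  (∀ (F F' F'' : V → ℂ) (z : V), SameAt F F' z → SameAt F' F'' z → SameAt F F'' z) ∧
  (∀ (F F' : V → ℂ) (z : V), F =ᶠ[𝓝 z] F' → SameAt F F' z) ∧
  (∀ (F F' : V → ℂ) (e : V → V) (z : V), DifferentiableAt ℝ F (e z) →
    DifferentiableAt ℝ F' (e z) → DifferentiableAt ℝ e z → SameAt F F' (e z) →
    SameAt (fun x => F (e x)) (fun x => F' (e x)) z) ∧
  (∀ (F F' c : V → ℂ) (z : V), DifferentiableAt ℝ F z → DifferentiableAt ℝ c z → c z ≠ 0 →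
    (F' =ᶠ[𝓝 z] fun x => c x * F x) → SameAt F F' z)

/-- ISR: the constant isotopy. -/
def Stmt_ISR : Prop := ∀ (V : Type) [NormedAddCommGroup V] [NormedSpace ℝ V] (F F' : V → ℂ),
  SameOn univ F F' → Isotopic F F'

/-- IST: transitivity of isotopy. -/
def Stmt_IST : Prop := ∀ (V : Type) [NormedAddCommGroup V] [NormedSpace ℝ V] (F F' F'' : V → ℂ),
  SFun F → SFun F' → SFun F'' → Isotopic F F' → Isotopic F' F'' → Isotopic F F''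

/-- ISS: symmetry of isotopy. -/
def Stmt_ISS : Prop := ∀ (V : Type) [NormedAddCommGroup V] [NormedSpace ℝ V] (F F' : V → ℂ),
  SFun F → SFun F' → Isotopic F F' → Isotopic F' F

/-- INJ: a smooth map which is injective on a compact set and a local diffeomorphism at its points
has a smooth inverse near it. -/
def Stmt_INJ : Prop := ∀ (X Y : Type) [NormedAddCommGroup X] [NormedSpace ℝ X]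
  [FiniteDimensional ℝ X] [NormedAddCommGroup Y] [NormedSpace ℝ Y] [FiniteDimensional ℝ Y]
  (f : X → Y) (O K : Set X), IsOpen O → ContDiffOn ℝ ∞ f O → IsCompact K → K ⊆ O → InjOn f K →
  (∀ x ∈ K, Function.Bijective (fderiv ℝ f x)) →
  ∃ U : Set X, IsOpen U ∧ K ⊆ U ∧ U ⊆ O ∧ InjOn f U ∧
    (∀ x ∈ U, Function.Bijective (fderiv ℝ f x)) ∧
    (∀ W : Set X, IsOpen W → W ⊆ U → IsOpen (f '' W)) ∧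
    ∃ g : Y → X, ContDiffOn ℝ ∞ g (f '' U) ∧ ∀ x ∈ U, g (f x) = x

/-- NPU: existence of the normal push. -/
def Stmt_NPU : Prop := ∀ (V : Type) [NormedAddCommGroup V] [InnerProductSpace ℝ V]
  [FiniteDimensional ℝ V] (F : V → ℂ), SFun F → ∃ N : V × ℂ → V, NPush F N

/-- CSO: solving `Φ_t (N (x, c)) = Φ_{t₀} (x)` for `c` near the knot. -/
def Stmt_CSO : Prop := ∀ (V : Type) [NormedAddCommGroup V] [InnerProductSpace ℝ V]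
  [FiniteDimensional ℝ V] (Φ : ℝ → V → ℂ) (t₀ : ℝ) (N : V × ℂ → V), SFam Φ → Reg (Φ t₀) →
  NPush (Φ t₀) N →
  ∃ (δ : ℝ) (U : Set V) (c : ℝ × V → ℂ), 0 < δ ∧ IsOpen U ∧ IsCone U ∧ (0 : V) ∉ U ∧
    (∀ z, z ≠ 0 → Φ t₀ z = 0 → z ∈ U) ∧ ContDiffOn ℝ ∞ c (ball t₀ δ ×ˢ U) ∧
    (∀ t ∈ ball t₀ δ, ∀ r : ℝ, 0 < r → ∀ x ∈ U, c (t, r • x) = c (t, x)) ∧
    (∀ x ∈ U, c (t₀, x) = 0) ∧
    ∀ t ∈ ball t₀ δ, ∀ x ∈ U, Φ t (N (x, c (t, x))) = Φ t₀ x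

/-- BMP: smooth cutoff functions on the sphere. -/
def Stmt_BMP : Prop := ∀ (V : Type) [NormedAddCommGroup V] [InnerProductSpace ℝ V]
  [FiniteDimensional ℝ V] (K U : Set V), IsClosed K → IsCone K → IsOpen U → IsCone U →
  (∀ z ∈ K, z ≠ 0 → z ∈ U) →
  ∃ χ : V → ℝ, ContDiffOn ℝ ∞ χ {0}ᶜ ∧ (∀ r : ℝ, 0 < r → ∀ z, χ (r • z) = χ z) ∧
    (∀ z, 0 ≤ χ z ∧ χ z ≤ 1) ∧ (∀ z ∈ K, z ≠ 0 → ∀ᶠ y in 𝓝 z, χ y = 1) ∧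
    (∀ z, z ≠ 0 → z ∉ U → ∀ᶠ y in 𝓝 z, χ y = 0)

/-- DIF: a smooth family of self maps of the sphere which is the identity at `t₀` consists of
diffeomorphisms near `t₀`, with inverse smooth in the parameter. -/
def Stmt_DIF : Prop := ∀ (V : Type) [NormedAddCommGroup V] [InnerProductSpace ℝ V]
  [FiniteDimensional ℝ V] (t₀ δ : ℝ) (H : ℝ → V → V), 0 < δ →
  (∀ t r : ℝ, 0 < r → ∀ z, H t (r • z) = r • H t z) → (∀ t z, ‖H t z‖ = ‖z‖) →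
  ContDiffOn ℝ ∞ (fun p : ℝ × V => H p.1 p.2) {p | p.1 ∈ ball t₀ δ ∧ p.2 ≠ 0} →
  (∀ z, H t₀ z = z) →
  ∃ (δ' : ℝ) (G : ℝ → V → V), 0 < δ' ∧ δ' ≤ δ ∧
    (∀ t r : ℝ, 0 < r → ∀ z, G t (r • z) = r • G t z) ∧ (∀ t z, ‖G t z‖ = ‖z‖) ∧
    ContDiffOn ℝ ∞ (fun p : ℝ × V => G p.1 p.2) {p | p.1 ∈ ball t₀ δ' ∧ p.2 ≠ 0} ∧
    (∀ t ∈ ball t₀ δ', ∀ z, G t (H t z) = z) ∧ (∀ t ∈ ball t₀ δ', ∀ z, H t (G t z) = z)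

/-- HCN: the local family of diffeomorphisms carrying `{Φ_{t₀} = 0}` to `{Φ_t = 0}`. -/
def Stmt_HCN : Prop := ∀ (V : Type) [NormedAddCommGroup V] [InnerProductSpace ℝ V]
  [FiniteDimensional ℝ V] (Φ : ℝ → V → ℂ) (t₀ : ℝ), SFam Φ → Reg (Φ t₀) →
  ∃ (δ : ℝ) (H : ℝ → V → V), 0 < δ ∧
    (∀ t r : ℝ, 0 < r → ∀ z, H t (r • z) = r • H t z) ∧ (∀ t z, ‖H t z‖ = ‖z‖) ∧
    ContDiffOn ℝ ∞ (fun p : ℝ × V => H p.1 p.2) {p | p.1 ∈ ball t₀ δ ∧ p.2 ≠ 0} ∧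
    (∀ z, H t₀ z = z) ∧
    (∀ t ∈ ball t₀ δ, ∀ z, z ≠ 0 → Φ t₀ z = 0 → ∀ᶠ y in 𝓝 z, Φ t (H t y) = Φ t₀ y) ∧
    (∀ t ∈ ball t₀ δ, ∀ z, z ≠ 0 → Φ t (H t z) = 0 → Φ t₀ z = 0)

/-- PFL: local form of the path of functions lemma. -/
def Stmt_PFL : Prop := ∀ (V : Type) [NormedAddCommGroup V] [InnerProductSpace ℝ V]
  [FiniteDimensional ℝ V] (Φ : ℝ → V → ℂ) (t₀ : ℝ), SFam Φ → Reg (Φ t₀) →
  ∃ δ : ℝ, 0 < δ ∧ ∀ t ∈ ball t₀ δ, Isotopic (Φ t₀) (Φ t)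

/-- PFM: the path of functions lemma. -/
def Stmt_PFM : Prop := ∀ (V : Type) [NormedAddCommGroup V] [InnerProductSpace ℝ V]
  [FiniteDimensional ℝ V] (Φ : ℝ → V → ℂ), SFam Φ → (∀ t ∈ Icc (0 : ℝ) 1, Reg (Φ t)) →
  Isotopic (Φ 0) (Φ 1)

/-! ## Part G: the singularity -/

/-- HRG: regularity of (pairs of) holomorphic functions on the sphere, by Lagrange multipliers. -/
def Stmt_HRG : Prop := ∀ Φ Ψ : C4 → ℂ, ContDiff ℂ ∞ Φ → ContDiff ℂ ∞ Ψ →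
  SFun (fun z => Φ (nz z)) ∧
  ((∀ z : C4, ‖z‖ = 1 → Φ z = 0 → ∀ l : ℂ,
      ¬ ∀ i, fderiv ℂ Φ z (EuclideanSpace.single i 1) = l * conj (z i)) →
    Reg (fun z => Φ (nz z))) ∧
  ((∀ z : C4, ‖z‖ = 1 → Φ z = 0 → Ψ z = 0 → ∀ a b l : ℂ, (a ≠ 0 ∨ b ≠ 0) →
      ¬ ∀ i, a * fderiv ℂ Φ z (EuclideanSpace.single i 1) +
        b * fderiv ℂ Ψ z (EuclideanSpace.single i 1) = l * conj (z i)) →
    ∀ z, z ≠ 0 → Φ (nz z) = 0 → Ψ (nz z) = 0 → Function.Surjective (fun v =>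
      (fderiv ℝ (fun z => Φ (nz z)) z v, fderiv ℝ (fun z => Ψ (nz z)) z v)))

/-- ISO: `f4` has an isolated critical point. -/
def Stmt_ISO : Prop := IsIsolated f4

/-- LAG: the Lagrange system of `(t x³ + y·y)² - η h` has no solution for small `η`. -/
def Stmt_LAG : Prop := ∃ η₀ : ℝ, 0 < η₀ ∧ ∀ t η : ℝ, 0 < t → 0 < η → η ≤ η₀ →
  ∀ x y₁ y₂ y₃ l : ℂ, ‖x‖ ^ 2 + ‖y₁‖ ^ 2 + ‖y₂‖ ^ 2 + ‖y₃‖ ^ 2 = 1 →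
    (t * x ^ 3 + y₁ ^ 2 + y₂ ^ 2 + y₃ ^ 2) ^ 2 = η * (16 * y₁ ^ 6 + 4 * y₂ ^ 6 + y₃ ^ 6) →
    6 * t * x ^ 2 * (t * x ^ 3 + y₁ ^ 2 + y₂ ^ 2 + y₃ ^ 2) = l * conj x →
    4 * (t * x ^ 3 + y₁ ^ 2 + y₂ ^ 2 + y₃ ^ 2) * y₁ - η * (96 * y₁ ^ 5) = l * conj y₁ →
    4 * (t * x ^ 3 + y₁ ^ 2 + y₂ ^ 2 + y₃ ^ 2) * y₂ - η * (24 * y₂ ^ 5) = l * conj y₂ →
    4 * (t * x ^ 3 + y₁ ^ 2 + y₂ ^ 2 + y₃ ^ 2) * y₃ - η * (6 * y₃ ^ 5) = l * conj y₃ → False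

/-- O2R: regularity of the family `(t x³ + y·y)² - η h`. -/
def Stmt_O2R : Prop := ∃ η₀ : ℝ, 0 < η₀ ∧ ∀ t η : ℝ, 0 < t → 0 < η → η ≤ η₀ →
  Reg (fun z : C4 => (t * (nz z) 0 ^ 3 + (nz z) 1 ^ 2 + (nz z) 2 ^ 2 + (nz z) 3 ^ 2) ^ 2 -
    η * hb z)

/-- GRG: `g` is regular on the sphere, `(g, h)` is regular on the common zeros. -/
def Stmt_GRG : Prop := IsKnot gb ∧ SFun hb ∧ ∀ z, z ≠ 0 → gb z = 0 → hb z = 0 →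
  Function.Surjective (fun v => (fderiv ℝ gb z v, fderiv ℝ hb z v))

/-- LNK: the algebraic knot of `f4` is `{g² = η h}` for every small `η`. -/
def Stmt_LNK : Prop := ∃ η₀ : ℝ, 0 < η₀ ∧ ∀ η : ℝ, 0 < η → η ≤ η₀ →
  IsKnot (fun z : C4 => gb z ^ 2 - η * hb z) ∧
  IsAlgebraicKnotOf f4 (fun z : C4 => gb z ^ 2 - η * hb z)

/-! ## Part I: the parametrisation of `K_g` -/

/-- ALB: the functions `α`, `β`. -/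
def Stmt_ALB : Prop :=
  (∀ ξ : ℂ, ‖ξ‖ ≤ 1 → 0 < al ξ ∧ al ξ ^ 2 + ‖be ξ‖ ^ 2 = 1 ∧ 2 * (al ξ : ℂ) * be ξ = ξ ∧
    al ξ ^ 2 - ‖be ξ‖ ^ 2 = √(1 - ‖ξ‖ ^ 2)) ∧
  ContDiffOn ℝ ∞ al {ξ | ‖ξ‖ < 1} ∧ ContDiffOn ℝ ∞ be {ξ | ‖ξ‖ < 1} ∧
  (∀ s : ℝ, 0 ≤ bb s ∧ bb s ≤ 1) ∧ (∀ s : ℝ, 1 / 36 ≤ s → bb s = 0) ∧ Antitone bb ∧
  ContDiff ℝ ∞ bb ∧ (∀ X : ℂ, 0 < nn X ∧ nn X ^ 2 = ‖X‖ ^ 2 + bb (‖X‖ ^ 2) ^ 2) ∧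
  ContDiff ℝ ∞ nn ∧ (∀ X : ℂ, 1 / 6 ≤ ‖X‖ → nn X = ‖X‖) ∧
  (∀ X : ℂ, ‖X‖ < 1 → ‖X ^ 3 / (nn X : ℂ) ^ 2‖ < 1)

/-- FRM: frames. -/
def Stmt_FRM : Prop :=
  (∀ (ξ : ℂ) (u : C3), ‖ξ‖ ≤ 1 → u ∈ NN → ‖cmb ξ u‖ = 1 ∧ sq (cmb ξ u) = ξ) ∧
  (∀ (ξ : ℂ) (u : C3), ‖ξ‖ < 1 → frm ξ (cmb ξ u) = u) ∧
  (∀ (y : C3), ‖y‖ = 1 → ‖sq y‖ < 1 → frm (sq y) y ∈ NN ∧ cmb (sq y) (frm (sq y) y) = y)

/-- TMM: the twist `Tm X` is an involution of `NN`. -/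
def Stmt_TMM : Prop := ∀ (X : ℂ) (u : C3), u ∈ NN → Tm X u ∈ NN ∧ Tm X (Tm X u) = u

/-- IAB: the two formulas for `i0` agree; `i0` maps to the cone `g = 0`; norm relation. -/
def Stmt_IAB : Prop := ∀ y : C3, ‖y‖ = 1 →
  (1 / 6 < ‖sq y‖ → ‖sq y‖ < 1 → jA y = jB y) ∧
  (i0 y) 0 = sq y ∧ g4 (i0 y) = 0 ∧ ‖yy (i0 y)‖ = nn (sq y)

/-- KAB: the left inverse of `i0`. -/
def Stmt_KAB : Prop :=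
  (∀ y : C3, ‖y‖ = 1 → (1 / 6 < ‖sq y‖ → kA (i0 y) = y) ∧ (‖sq y‖ < 1 → kB (i0 y) = y)) ∧
  (∀ z : C4, g4 z = 0 → ‖yy z‖ = nn (z 0) → ∃ y : C3, ‖y‖ = 1 ∧ i0 y = z)

/-- ISM: smoothness of `i0` on the sphere and of the left inverses. -/
def Stmt_ISM : Prop :=
  ContDiffOn ℝ ∞ (fun y : C3 => i0 (nz y)) {0}ᶜ ∧
  ContDiffOn ℝ ∞ kA {z | z 0 ≠ 0} ∧ ContDiffOn ℝ ∞ kB {z | ‖z 0‖ < 1}

/-- WPI: weighted polar coordinates. -/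
def Stmt_WPI : Prop := ∃ Mi : C4 → C4, ContDiffOn ℝ ∞ Mi {0}ᶜ ∧ (∀ z, z ≠ 0 → Mi z ≠ 0) ∧
  (∀ v, v ≠ 0 → Mi (Mw v) = v) ∧ (∀ z, z ≠ 0 → Mw (Mi z) = z)

/-- IOA: the parametrisation, elementary properties. -/
def Stmt_IOA : Prop := ∀ Mi : C4 → C4, ContDiffOn ℝ ∞ Mi {0}ᶜ → (∀ z, z ≠ 0 → Mi z ≠ 0) →
  (∀ v, v ≠ 0 → Mi (Mw v) = v) → (∀ z, z ≠ 0 → Mw (Mi z) = z) →
  ∀ ι : C3 → C4, (∀ P, ι P = ‖P‖ • nz (Mi (i0 (nz P)))) →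
  (∀ r : ℝ, 0 < r → ∀ P, ι (r • P) = r • ι P) ∧ (∀ P, ‖ι P‖ = ‖P‖) ∧ ContDiffOn ℝ ∞ ι {0}ᶜ ∧
  (∀ P, ‖P‖ = 1 → ∃ ρ : ℝ, 0 < ρ ∧ (ι P) 0 = ρ ^ 2 * (i0 P) 0 ∧
    ∀ i : Fin 3, (ι P) i.succ = ρ ^ 3 * (i0 P) i.succ)

/-- IBI: injectivity of `ι`. -/
def Stmt_IBI : Prop := ∀ ι : C3 → C4, (∀ r : ℝ, 0 < r → ∀ P, ι (r • P) = r • ι P) →
  (∀ P, ‖ι P‖ = ‖P‖) →
  (∀ P, ‖P‖ = 1 → ∃ ρ : ℝ, 0 < ρ ∧ (ι P) 0 = ρ ^ 2 * (i0 P) 0 ∧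
    ∀ i : Fin 3, (ι P) i.succ = ρ ^ 3 * (i0 P) i.succ) →
  Function.Injective ι

/-- IBS: surjectivity of `ι` onto `K_g`. -/
def Stmt_IBS : Prop := ∀ ι : C3 → C4, (∀ r : ℝ, 0 < r → ∀ P, ι (r • P) = r • ι P) →
  (∀ P, ‖ι P‖ = ‖P‖) →
  (∀ P, ‖P‖ = 1 → ∃ ρ : ℝ, 0 < ρ ∧ (ι P) 0 = ρ ^ 2 * (i0 P) 0 ∧
    ∀ i : Fin 3, (ι P) i.succ = ρ ^ 3 * (i0 P) i.succ) →
  ∀ z : C4, z ≠ 0 → (gb z = 0 ↔ ∃ P, P ≠ 0 ∧ ι P = z)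

/-- IOD: the differential of `ι` is injective. -/
def Stmt_IOD : Prop := ∀ Mi : C4 → C4, ContDiffOn ℝ ∞ Mi {0}ᶜ → (∀ z, z ≠ 0 → Mi z ≠ 0) →
  (∀ v, v ≠ 0 → Mi (Mw v) = v) → (∀ z, z ≠ 0 → Mw (Mi z) = z) →
  ∀ ι : C3 → C4, (∀ P, ι P = ‖P‖ • nz (Mi (i0 (nz P)))) →
  ∀ P, P ≠ 0 → Function.Injective (fderiv ℝ ι P)

/-- IOT: existence of the parametrisation. -/
def Stmt_IOT : Prop := ∃ ι : C3 → C4, IotaP ι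

/-! ## Part T: the tube -/

/-- TLA: the map `Λ(P,c) = N(ι P, c)` near `c = 0`. -/
def Stmt_TLA : Prop := ∀ (ι : C3 → C4) (N : C4 × ℂ → C4), IotaP ι → NPush gb N →
  ContDiffOn ℝ ∞ (fun p : C3 × ℂ => N (ι p.1, p.2)) {p | p.1 ≠ 0} ∧
  ∀ P, P ≠ 0 → Function.Bijective (fderiv ℝ (fun p : C3 × ℂ => N (ι p.1, p.2)) (P, 0)) ∧
    Function.Bijective (fderiv ℝ (fun p : C3 × ℂ => (p.1, gb (N (ι p.1, p.2)))) (P, 0))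

/-- TUB: existence of the tube. -/
def Stmt_TUB : Prop := Nonempty Tube

/-- SRG: `s = h ∘ ι` has regular zero set. -/
def Stmt_SRG : Prop := ∀ T : Tube, IsKnot (sT T)

/-- TFS: smoothness of the functions on the sphere given by functions on the tube. -/
def Stmt_TFS : Prop := ∀ (T : Tube) (Ψ : ℝ → C3 × ℂ → ℂ), Adm T Ψ → SFam (fun t => TF T (Ψ t))

/-- TFR: regularity of the functions on the sphere given by functions on the tube. -/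
def Stmt_TFR : Prop := ∀ (T : Tube) (Ψ : ℝ → C3 × ℂ → ℂ), Adm T Ψ → ∀ t, TReg (Ψ t) →
  IsKnot (TF T (Ψ t))

/-- TSA: comparison of two functions on the tube. -/
def Stmt_TSA : Prop := ∀ (T : Tube) (Ψ Ψ' : C3 × ℂ → ℂ),
  (∀ P w, P ≠ 0 → T.δ / 2 ≤ ‖w‖ → Ψ (P, w) = w ^ 2) →
  (∀ P w, P ≠ 0 → T.δ / 2 ≤ ‖w‖ → Ψ' (P, w) = w ^ 2) →
  (∀ P w, P ≠ 0 → (Ψ (P, w) = 0 ∨ Ψ' (P, w) = 0) → Ψ =ᶠ[𝓝 (P, w)] Ψ') →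
  SameOn univ (TF T Ψ) (TF T Ψ')

/-- PFT: path of functions lemma on the tube. -/
def Stmt_PFT : Prop := ∀ (T : Tube) (Ψ : ℝ → C3 × ℂ → ℂ), Adm T Ψ →
  (∀ t ∈ Icc (0 : ℝ) 1, TReg (Ψ t)) → Isotopic (TF T (Ψ 0)) (TF T (Ψ 1))

/-- BFR: cables with pattern a regular function on `S⁵`. -/
def Stmt_BFR : Prop := ∀ (T : Tube) (S : ℝ → C3 → ℂ), SFam S →
  (∀ t ∈ Icc (0 : ℝ) 1, Reg (S t)) →
  (∀ η, Adm T (fun t => BF T η (S t))) ∧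
  ∃ η₁ : ℝ, 0 < η₁ ∧ ∀ η, 0 < η → η < η₁ → ∀ t ∈ Icc (0 : ℝ) 1, TReg (BF T η (S t))

/-- HGA: admissibility of the family `HGt`. -/
def Stmt_HGA : Prop := ∀ (T : Tube) (η : ℝ), Adm T (HGt T η)

/-- HGR: regularity of the family `HGt` for small `η`. -/
def Stmt_HGR : Prop := ∀ T : Tube, IsKnot (sT T) → ∃ η₁ : ℝ, 0 < η₁ ∧ ∀ η, 0 < η → η < η₁ →
  ∀ t ∈ Icc (0 : ℝ) 1, TReg (HGt T η t)

/-- HGS: `{g² = η h}` is given by `HGt` at `t = 0`. -/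
def Stmt_HGS : Prop := ∀ T : Tube, ∃ η₁ : ℝ, 0 < η₁ ∧ ∀ η, 0 < η → η < η₁ →
  SameOn univ (fun z => gb z ^ 2 - η * hb z) (TF T (HGt T η 0))

/-- STT: `{g² = η h}` is the cable with pattern `s`. -/
def Stmt_STT : Prop := ∀ T : Tube, ∃ η₁ : ℝ, 0 < η₁ ∧ ∀ η, 0 < η → η < η₁ →
  Isotopic (fun z => gb z ^ 2 - η * hb z) (TF T (BF T η (sT T)))

/-- FRE: existence of the base point and of the frame. -/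
def Stmt_FRE : Prop := ∀ T : Tube, Nonempty (Fr T)

/-- TAU: elementary properties of `tau`, `Lf`, `theta`, `cut`, `bp`. -/
def Stmt_TAU : Prop := ∀ (T : Tube) (A : Fr T),
  (∀ P, P ≠ 0 → 0 ≤ tau A P ∧ tau A P ≤ 2 ∧ tau A P = ‖nz P - A.q‖ ^ 2 / 2) ∧
  (∀ r : ℝ, 0 < r → ∀ P, tau A (r • P) = tau A P) ∧ ContDiffOn ℝ ∞ (tau A) {0}ᶜ ∧
  SFun (Lf A) ∧ (∀ P, ‖Lf A P‖ ≤ A.C) ∧ Lf A A.q = 0 ∧
  (∀ v, fderiv ℝ (Lf A) A.q v = A.C * conj (inner ℂ A.n0 v)) ∧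
  (∀ P, P ≠ 0 → Lf A P = 0 → Function.Surjective (fderiv ℝ (Lf A) P)) ∧
  ContDiff ℝ ∞ theta ∧ (∀ x, 0 < theta x) ∧ (∀ x, 1 / 2 ≤ x → x ≤ 32 → theta x = x⁻¹) ∧
  (∀ x, 64 ≤ x → theta x = 1) ∧ (∀ x, theta x ≤ 4) ∧
  (∀ a b : ℝ, a < b → ContDiff ℝ ∞ (cut a b) ∧ (∀ x, x ≤ a → cut a b x = 1) ∧
    (∀ x, b ≤ x → cut a b x = 0) ∧ (∀ x, 0 ≤ cut a b x ∧ cut a b x ≤ 1)) ∧
  (∀ a b c d : ℝ, a < b → b ≤ c → c < d → ContDiff ℝ ∞ (bp a b c d) ∧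
    (∀ x, b ≤ x → x ≤ c → bp a b c d x = 1) ∧ (∀ x, x ≤ a → bp a b c d x = 0) ∧
    (∀ x, d ≤ x → bp a b c d x = 0) ∧ (∀ x, 0 ≤ bp a b c d x ∧ bp a b c d x ≤ 1))

/-- LIN: linearisation of `s` near `q` through regular functions. -/
def Stmt_LIN : Prop := ∀ (T : Tube) (A : Fr T), IsKnot (sT T) →
  (∀ l : ℝ, SFam (s1 A l)) ∧ ∃ l₀ : ℝ, 2 ≤ l₀ ∧ ∀ l, l₀ ≤ l → ∀ t ∈ Icc (0 : ℝ) 1, Reg (s1 A l t)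

/-- STS: the cable with pattern `s` is the cable with pattern `s2`. -/
def Stmt_STS : Prop := ∀ (T : Tube) (A : Fr T), ∃ l₀ : ℝ, 2 ≤ l₀ ∧ ∀ l, l₀ ≤ l →
  IsKnot (s2 A l) ∧ ∃ η₁ : ℝ, 0 < η₁ ∧ ∀ η, 0 < η → η < η₁ → TReg (BF T η (s2 A l)) ∧
    Isotopic (TF T (BF T η (sT T))) (TF T (BF T η (s2 A l)))

/-! ## Part S: the shell -/

/-- KKB: elementary properties of `kk`. -/
def Stmt_KKB : Prop := ∀ (T : Tube) (A : Fr T) (l : ℝ), 2 ≤ l →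
  (∀ P w, P ≠ 0 → 2 ≤ kden A l (P, w) ∧ 0 ≤ kk A l (P, w) ∧ kk A l (P, w) ≤ 1) ∧
  (∀ P w, P ≠ 0 → 1 / 4 ≤ kk A l (P, w) →
    ‖w‖ ^ 2 ≤ 3 * dd T ^ 2 ∧ 1 / 2 < l ^ 2 * tau A P ∧ cw T w = 1) ∧
  (∀ P w, P ≠ 0 → kk A l (P, w) ≤ 3 / 4 → 32 ≤ l ^ 2 * tau A P → dd T ^ 2 / 4 ≤ ‖w‖ ^ 2) ∧
  (∀ r : ℝ, 0 < r → ∀ P w, kk A l (r • P, w) = kk A l (P, w)) ∧
  ContDiffOn ℝ ∞ (kk A l) {p | p.1 ≠ 0} ∧ ContDiff ℝ ∞ χ1 ∧ ContDiff ℝ ∞ χ2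

/-- SHA: smoothness and admissibility of the shell path and of `SH1`. -/
def Stmt_SHA : Prop := ∀ (T : Tube) (A : Fr T) (l η : ℝ), 2 ≤ l → IsKnot (s2 A l) →
  Adm T (SHt A l η) ∧ Adm T (fun _ => SH1 A l η) ∧
  (∀ P w, P ≠ 0 → 7 / 20 ≤ kk A l (P, w) → kk A l (P, w) ≤ 13 / 20 →
    SHt A l η 1 (P, w) = -(η * (Lf A P / (l ^ 2 * tau A P))))

/-- SHZ: at the zeros of `SHt` with small `η` the pattern is `s2` or `Lf/(l² τ)`: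
`S3 = s2` near every zero outside the support of `χ2`. -/
def Stmt_SHZ : Prop := ∀ (T : Tube) (A : Fr T) (l : ℝ), 2 ≤ l → IsKnot (s2 A l) →
  ∃ η₁ : ℝ, 0 < η₁ ∧ ∀ η, 0 < η → η < η₁ →
  (∀ t ∈ Icc (0 : ℝ) 1, ∀ P w, P ≠ 0 →
    (kk A l (P, w) ≤ 3 / 10 ∨ 7 / 10 ≤ kk A l (P, w) ∨ t = 0) → SHt A l η t (P, w) = 0 → (S3 A l =ᶠ[𝓝 (P, w)] fun p => s2 A l p.1) ∧ ‖w‖ < T.δ / 4) ∧
  (∀ P w, P ≠ 0 → BF T η (s2 A l) (P, w) = 0 →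
    (S3 A l =ᶠ[𝓝 (P, w)] fun p => s2 A l p.1) ∧ ‖w‖ < T.δ / 4)

/-- SHR: regularity in the shell, where the function is exactly `b w² - η L/(l² τ)`. -/
def Stmt_SHR : Prop := ∀ (T : Tube) (A : Fr T) (l η : ℝ), 2 ≤ l → 0 < η → IsKnot (s2 A l) →
  ∀ t ∈ Icc (0 : ℝ) 1, ∀ P w, P ≠ 0 → 3 / 10 ≤ kk A l (P, w) → kk A l (P, w) ≤ 7 / 10 →
    SHt A l η t (P, w) = 0 → Function.Surjective (fderiv ℝ (SHt A l η t) (P, w))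

/-- SHB: the model function on the sphere: `b u₂² - κ u₀` is regular on the slices
`Re u₃ = const`. -/
def Stmt_SHB : Prop := ∀ (b κ : ℝ) (u : C4), 0 < κ → 0 ≤ b → ‖u‖ = 1 →
  b * u 2 ^ 2 - κ * u 0 = 0 →
  ∀ y : ℂ, ∃ v : C4, (v 3).re = 0 ∧ inner ℝ u v = 0 ∧ 2 * b * u 2 * v 2 - κ * v 0 = y

/-- SHG: regularity of the shell path. -/
def Stmt_SHG : Prop := ∀ (T : Tube) (A : Fr T) (l : ℝ), 2 ≤ l → IsKnot (s2 A l) →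
  ∃ η₁ : ℝ, 0 < η₁ ∧ ∀ η, 0 < η → η < η₁ →
  (∀ t ∈ Icc (0 : ℝ) 1, TReg (SHt A l η t)) ∧ TReg (SH1 A l η)

/-- STC: the cable with pattern `s2` is the decomposed knot. -/
def Stmt_STC : Prop := ∀ (T : Tube) (A : Fr T) (l : ℝ), 2 ≤ l → IsKnot (s2 A l) →
  ∃ η₁ : ℝ, 0 < η₁ ∧ ∀ η, 0 < η → η < η₁ →
  Isotopic (TF T (BF T η (s2 A l))) (FF A l η)

/-! ## Part C: the chart and the connected sum -/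

/-- CHT: algebra of the charts `Sm`, `Si`. -/
def Stmt_CHT : Prop := ∀ (T : Tube) (A : Fr T) (ε l : ℝ), 2 ≤ l → (ε = 1 ∨ ε = -1) →
  (∀ z : C4, z ≠ 0 → (z 3).re < ‖z‖ → ‖(Sm A ε l z).1‖ = ‖z‖ ∧ 0 < tau A (Sm A ε l z).1 ∧
    Si A ε l (Sm A ε l z) = z ∧ kk A l (Sm A ε l z) = Dq (nz z) / 2 ∧
    Lf A (Sm A ε l z).1 / (l ^ 2 * tau A (Sm A ε l z).1) =
      A.C / l * ((nz z) 0 / Dq (nz z))) ∧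
  (∀ P w, P ≠ 0 → ‖Si A ε l (P, w)‖ = ‖P‖ ∧ Dq (nz (Si A ε l (P, w))) = 2 * kk A l (P, w) ∧
    (0 < tau A P → Sm A ε l (Si A ε l (P, w)) = (P, w)))

/-- CHS: smoothness and homogeneity of the charts, invertibility of their differentials. -/
def Stmt_CHS : Prop := ∀ (T : Tube) (A : Fr T) (ε l : ℝ), 2 ≤ l → (ε = 1 ∨ ε = -1) →
  ContDiffOn ℝ ∞ (Sm A ε l) {z | (z 3).re < ‖z‖} ∧ ContDiffOn ℝ ∞ (Si A ε l) {p | p.1 ≠ 0} ∧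
  (∀ r : ℝ, 0 < r → ∀ z, Sm A ε l (r • z) = (r • (Sm A ε l z).1, (Sm A ε l z).2)) ∧
  (∀ z : C4, (z 3).re < ‖z‖ → Function.Bijective (fderiv ℝ (Sm A ε l) z))

/-- EMB: the map `em` is an embedding of the cap, up to the orientation. -/
def Stmt_EMB : Prop := ∀ (T : Tube) (A : Fr T) (ε l : ℝ), 2 ≤ l → (ε = 1 ∨ ε = -1) →
  (∀ z ∈ cap 3 (1 / 5), z ≠ 0 ∧ (z 3).re < ‖z‖ ∧ ‖(Sm A ε l z).2‖ < T.δ) ∧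
  (∀ r : ℝ, 0 < r → ∀ z ∈ cap 3 (1 / 5), em A ε l (r • z) = r • em A ε l z) ∧
  (∀ z ∈ cap 3 (1 / 5), ‖em A ε l z‖ = ‖z‖) ∧ ContDiffOn ℝ ∞ (em A ε l) (cap 3 (1 / 5)) ∧
  InjOn (em A ε l) (cap 3 (1 / 5)) ∧
  (∀ z ∈ cap 3 (1 / 5), (fderiv ℝ (em A ε l) z).det ≠ 0)

/-- ORI: the choice of the orientation parameter. -/
def Stmt_ORI : Prop := ∀ (T : Tube) (A : Fr T) (l : ℝ), 2 ≤ l →
  ∃ ε : ℝ, (ε = 1 ∨ ε = -1) ∧ IsEmb (cap 3 (1 / 5)) (em A ε l)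

/-- KNF: the three functions are knots. -/
def Stmt_KNF : Prop := ∀ (T : Tube) (A : Fr T) (ε l : ℝ), 2 ≤ l → (ε = 1 ∨ ε = -1) →
  IsKnot (s2 A l) →
  ∃ η₁ : ℝ, 0 < η₁ ∧ ∀ η, 0 < η → η < η₁ →
  IsKnot (FF A l η) ∧ IsKnot (FF1 A l η) ∧ IsKnot (FF2 A ε l η)

/-- CSA: comparison of the three functions with the standard function in the collar. -/
def Stmt_CSA : Prop := ∀ (T : Tube) (A : Fr T) (ε l η : ℝ), 2 ≤ l → (ε = 1 ∨ ε = -1) → 0 < η →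
  IsKnot (s2 A l) →
  SameOn {z : C4 | -(1 / 5 * ‖z‖) < (z 3).re} (FF2 A ε l η) (std 3) ∧
  SameOn (cap 3 (1 / 5)) (fun z => FF1 A l η (em A ε l z)) (std 3) ∧
  SameOn {z : C4 | (z 3).re ≤ 0} (fun z => FF A l η (em A ε l z)) (FF2 A ε l η)

/-- CSB: outside the ball `em (cap 0)` the knots `FF` and `FF1` agree. -/
def Stmt_CSB : Prop := ∀ (T : Tube) (A : Fr T) (ε l η : ℝ), 2 ≤ l → (ε = 1 ∨ ε = -1) → 0 < η →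
  IsKnot (s2 A l) → SameOn (em A ε l '' cap 3 0)ᶜ (FF A l η) (FF1 A l η)

/-! ## Part N: nontriviality -/

/-- TOP: a trivial knot is topologically trivial. -/
def Stmt_TOP : Prop := ∀ (n : ℕ) (F : E n → ℂ), IsTrivial F → TopTrivial F

/-- BRW: Brouwer. -/
def Stmt_BRW : Prop := ∀ (W : Type) [NormedAddCommGroup W] [InnerProductSpace ℝ W]
  [FiniteDimensional ℝ W] (t : W → W) (L : W ≃ₗᵢ[ℝ] W), ContinuousOn t (closedBall 0 1) →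
  (∀ x ∈ closedBall (0 : W) 1, ‖t x‖ = 1) → ∃ x, ‖x‖ = 1 ∧ t x = -(L x)

/-- LGB: continuous logarithm on the closed ball. -/
def Stmt_LGB : Prop := ∀ (W : Type) [NormedAddCommGroup W] [NormedSpace ℝ W] (f : W → ℂ),
  ContinuousOn f (closedBall 0 1) → (∀ x ∈ closedBall (0 : W) 1, f x ≠ 0) →
  ∃ L : W → ℂ, ContinuousOn L (closedBall 0 1) ∧
    ∀ x ∈ closedBall (0 : W) 1, Complex.exp (L x) = f x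

/-- LGS: continuous logarithm on the 3-sphere. -/
def Stmt_LGS : Prop := ∀ f : R4 → ℂ, ContinuousOn f (sphere 0 1) →
  (∀ x ∈ sphere (0 : R4) 1, f x ≠ 0) →
  ∃ L : R4 → ℂ, ContinuousOn L (sphere 0 1) ∧ ∀ x ∈ sphere (0 : R4) 1, Complex.exp (L x) = f x

/-- EXT: 3-spheres in the complement of a topologically trivial knot bound. -/
def Stmt_EXT : Prop := ∀ F : C4 → ℂ, TopTrivial F → ∀ i : R4 → C4, ContinuousOn i (sphere 0 1) →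
  (∀ v ∈ sphere (0 : R4) 1, ‖i v‖ = 1 ∧ F (i v) ≠ 0) →
  ∃ j : R4 → C4, ContinuousOn j (closedBall 0 1) ∧
    (∀ v ∈ closedBall (0 : R4) 1, ‖j v‖ = 1 ∧ F (j v) ≠ 0) ∧ ∀ v ∈ sphere (0 : R4) 1, j v = i v

/-- COA: algebra and estimates for the vector `cv`. -/
def Stmt_COA : Prop :=
  (∀ (x : ℂ) (y : C3), x ^ 3 + sq y = 1 → x.re < 1 / 2 → ‖cv x y‖ ≤ 1 / 4 →
    x.re < -(1 / 5) ∧ ‖x‖ ^ 2 ≤ 17 / 8 ∧ ‖y‖ ^ 2 ≤ 23 / 10) ∧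
  (∀ (s : ℝ) (y : C3), 0 ≤ s → s ≤ 1 → (∀ i, (y i).im = 0) → (s * om) ^ 3 + sq y = 1 →
    ∃ k : ℝ, 0 ≤ k ∧ ∀ i, cv (s * om) y i = -(k * (y i).re)) ∧
  ContinuousOn (fun p : ℂ × C3 => cv p.1 p.2) {p | p.1.re < 1 / 2}

/-- COL: the collapse map. -/
def Stmt_COL : Prop := ∃ τ : C4 → R4, ContinuousOn τ Dτ ∧ (∀ z ∈ Dτ, ‖τ z‖ = 1) ∧
  (∀ z ∈ Dτ, (g4 z).re ≤ 1 / 10 → τ z = EuclideanSpace.single 0 1) ∧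
  (∀ v ∈ sphere (0 : R4) 1, i1 v ∈ Dτ ∧ τ (i1 v) ≠ !₂[-(v 0), v 1, v 2, v 3])

/-- NT1: a knot whose defining function is `g²` for `|g| ≥ 1/20` is nontrivial. -/
def Stmt_NT1 : Prop := ∀ F : C4 → ℂ, ContinuousOn F {0}ᶜ →
  (∀ z, z ≠ 0 → 1 / 20 ≤ ‖gb z‖ → F z = gb z ^ 2) → ¬ TopTrivial F

/-- NT2: a 5-dimensional knot carrying an essential 2-sphere is nontrivial. -/
def Stmt_NT2 : Prop := ∀ F : C4 → ℂ, F NP = 0 →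
  ∀ (s : R3 → C4) (B : C4 → R3) (L : R3 ≃ₗᵢ[ℝ] R3), ContinuousOn s (sphere 0 1) →
  (∀ v ∈ sphere (0 : R3) 1, ‖s v‖ = 1 ∧ F (s v) = 0 ∧ s v ≠ NP) →
  ContinuousOn B {z | ‖z‖ = 1 ∧ F z = 0} → (∀ z, ‖z‖ = 1 → F z = 0 → B z ≠ 0) →
  (∀ v ∈ sphere (0 : R3) 1, 0 < inner ℝ (B (s v)) (L v)) → ¬ TopTrivial F

/-- BET: the Bloch vector. -/
def Stmt_BET : Prop :=
  (∀ (g : ℂ) (m : C3), ‖bet g m‖ ^ 2 = (‖g‖ ^ 2 + ‖m‖ ^ 2) ^ 2 - ‖g ^ 2 - sq m‖ ^ 2) ∧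
  Continuous (fun p : ℂ × C3 => bet p.1 p.2) ∧
  (∀ z : C4, sq (mm z) = hb z) ∧ ContinuousOn mm {0}ᶜ ∧
  (∀ T : Tube, ∃ c : ℝ, 0 < c ∧ ∀ P, ‖P‖ = 1 → c ≤ ‖mm (T.ι P)‖)

/-- BNZ: the Bloch vector does not vanish on the knot outside the shell, and is close to a
constant near `q`. -/
def Stmt_BNZ : Prop := ∀ (T : Tube) (A : Fr T),
  ∃ l₀ : ℝ, 2 ≤ l₀ ∧ ∀ l, l₀ ≤ l → ∃ η₁ : ℝ, 0 < η₁ ∧ ∀ η, 0 < η → η < η₁ →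
  ∀ P w, ‖P‖ = 1 → ‖w‖ < T.δ / 4 → w ^ 2 = η * s2 A l P →
    bet (w / √η) (mm (T.G (P, w))) ≠ 0 ∧
    (kk A l (P, w) ≤ 3 / 4 →
      0 < inner ℝ (bet (w / √η) (mm (T.G (P, w)))) (bet 0 (mm (T.ι A.q))))

/-- RSP: the real 2-sphere in the knot. -/
def Stmt_RSP : Prop := ∀ (T : Tube) (A : Fr T),
  ∃ l₀ : ℝ, 2 ≤ l₀ ∧ ∀ l, l₀ ≤ l → ∃ η₁ : ℝ, 0 < η₁ ∧ ∀ η, 0 < η → η < η₁ →
  ∃ w : R3 → ℂ, ContinuousOn w (sphere 0 1) ∧ ∀ v ∈ sphere (0 : R3) 1,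
    ‖w v‖ < T.δ / 4 ∧
    (w v) ^ 2 = η * s2 A l !₂[Complex.I * v 0, Complex.I * v 1, Complex.I * v 2] ∧
    3 / 4 < kk A l (!₂[Complex.I * v 0, Complex.I * v 1, Complex.I * v 2], w v) ∧
    0 < inner ℝ (bet (w v / √η)
      (mm (T.G (!₂[Complex.I * v 0, Complex.I * v 1, Complex.I * v 2], w v))))
      (!₂[v 1, v 2, v 0] : R3)

/-- NTB: the inner summand is nontrivial. -/
def Stmt_NTB : Prop := ∀ (T : Tube) (A : Fr T) (ε : ℝ), (ε = 1 ∨ ε = -1) →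
  ∃ l₀ : ℝ, 2 ≤ l₀ ∧ ∀ l, l₀ ≤ l → ∃ η₁ : ℝ, 0 < η₁ ∧ ∀ η, 0 < η → η < η₁ →
  ¬ TopTrivial (FF2 A ε l η)

/-- NTA: the outer summand is nontrivial. -/
def Stmt_NTA : Prop := ∀ (T : Tube) (A : Fr T) (l η : ℝ), 2 ≤ l → IsKnot (FF1 A l η) →
  ¬ TopTrivial (FF1 A l η)

/-- MAIN -/
def Stmt_MAIN : Prop := IsIsolated f4 ∧ ∃ F F₁ F₂ : C4 → ℂ, IsKnot F ∧ IsKnot F₁ ∧ IsKnot F₂ ∧
  IsAlgebraicKnotOf f4 F ∧ IsConnSum F F₁ F₂ ∧ ¬ TopTrivial F₁ ∧ ¬ TopTrivial F₂ ∧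
  ¬ IsTrivial F₁ ∧ ¬ IsTrivial F₂

end Pool.Agent.KNT
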